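import Mathlib

set_option autoImplicit false

/-! Riesz bounds and density give a Schauder basis (helper508, MP_1ebdda_an). -/

open Filter Topology

namespace Pool.Agent.R508.BR

section riesz

variable {H : Type*} [NormedAddCommGroup H] [NormedSpace ℂ H] [CompleteSpace H]
variable (ψ : ℕ → H) (c C : ℝ)

theorem rs_summable (hC : 0 ≤ C)
    (hup : ∀ (s : Finset ℕ) (a : ℕ → ℂ), ‖∑ i ∈ s, a i • ψ i‖ ^ 2 ≤ C * ∑ i ∈ s, ‖a i‖ ^ 2)
    (a : ℕ → ℂ) (ha : Summable fun i => ‖a i‖ ^ 2) : Summable fun i => a i • ψ i := by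
  rw [summable_iff_vanishing_norm]
  intro ε hε
  rw [summable_iff_vanishing_norm] at ha
  obtain ⟨s, hs⟩ := ha (ε ^ 2 / (C + 1)) (by positivity)
  refine ⟨s, fun t ht => ?_⟩
  have h1 := hs t ht
  have h2 := hup t a
  have h3 : 0 ≤ ∑ i ∈ t, ‖a i‖ ^ 2 := Finset.sum_nonneg fun i _ => by positivity
  rw [Real.norm_of_nonneg h3, lt_div_iff₀ (by positivity)] at h1
  have h4 : ‖∑ i ∈ t, a i • ψ i‖ ^ 2 < ε ^ 2 := by nlinarith
  exact lt_of_pow_lt_pow_left₀ 2 hε.le h4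

theorem rs_mem (a : lp (fun _ : ℕ => ℂ) 2) : Summable fun i => ‖a i‖ ^ 2 := by
  have h := (lp.memℓp a).summable (by norm_num)
  refine h.congr fun i => ?_
  norm_num

theorem rs_norm (a : lp (fun _ : ℕ => ℂ) 2) : ‖a‖ ^ 2 = ∑' i, ‖a i‖ ^ 2 := by
  have h := lp.norm_rpow_eq_tsum (p := 2) (by norm_num) a
  have h2 : ((2 : ENNReal).toReal) = 2 := by norm_num
  rw [h2] at h
  rw [← Real.rpow_natCast]
  push_cast
  rw [h]
  refine tsum_congr fun i => ?_
  rw [← Real.rpow_natCast]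
  norm_num

/-- synthesis operator -/
noncomputable def TT (hC : 0 ≤ C)
    (hup : ∀ (s : Finset ℕ) (a : ℕ → ℂ), ‖∑ i ∈ s, a i • ψ i‖ ^ 2 ≤ C * ∑ i ∈ s, ‖a i‖ ^ 2) :
    lp (fun _ : ℕ => ℂ) 2 →ₗ[ℂ] H where
  toFun a := ∑' i, a i • ψ i
  map_add' a b := by
    rw [← Summable.tsum_add (rs_summable ψ C hC hup _ (rs_mem a)) (rs_summable ψ C hC hup _ (rs_mem b))]
    refine tsum_congr fun i => ?_
    simp [add_smul]
  map_smul' z a := by
    rw [RingHom.id_apply, ← tsum_const_smul'' z]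
    refine tsum_congr fun i => ?_
    simp [mul_smul]

theorem schauder_of_riesz (hc : 0 < c) (hC : 0 ≤ C)
    (hlow : ∀ (s : Finset ℕ) (a : ℕ → ℂ), c * ∑ i ∈ s, ‖a i‖ ^ 2 ≤ ‖∑ i ∈ s, a i • ψ i‖ ^ 2)
    (hup : ∀ (s : Finset ℕ) (a : ℕ → ℂ), ‖∑ i ∈ s, a i • ψ i‖ ^ 2 ≤ C * ∑ i ∈ s, ‖a i‖ ^ 2)
    (hdense : (Submodule.span ℂ (Set.range ψ)).topologicalClosure = ⊤) (f : H) :
    ∃! a : ℕ → ℂ, Tendsto (fun N => ∑ j ∈ Finset.range N, a j • ψ j) atTop (𝓝 f) := by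
  set T := TT ψ C hC hup with hT
  have hTa : ∀ a, HasSum (fun i => a i • ψ i) (T a) := fun a =>
    (rs_summable ψ C hC hup _ (rs_mem a)).hasSum
  have hb1 : ∀ a, ‖T a‖ ^ 2 ≤ C * ‖a‖ ^ 2 := by
    intro a
    have h1 : Tendsto (fun s : Finset ℕ => ‖∑ i ∈ s, a i • ψ i‖ ^ 2) atTop (𝓝 (‖T a‖ ^ 2)) :=
      ((hTa a).norm).pow 2
    have h2 : Tendsto (fun s : Finset ℕ => C * ∑ i ∈ s, ‖a i‖ ^ 2) atTop (𝓝 (C * ‖a‖ ^ 2)) := by
      rw [rs_norm]
      exact ((rs_mem a).hasSum).const_mul C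
    exact le_of_tendsto_of_tendsto' h1 h2 fun s => hup s a
  have hb2 : ∀ a, c * ‖a‖ ^ 2 ≤ ‖T a‖ ^ 2 := by
    intro a
    have h1 : Tendsto (fun s : Finset ℕ => ‖∑ i ∈ s, a i • ψ i‖ ^ 2) atTop (𝓝 (‖T a‖ ^ 2)) :=
      ((hTa a).norm).pow 2
    have h2 : Tendsto (fun s : Finset ℕ => c * ∑ i ∈ s, ‖a i‖ ^ 2) atTop (𝓝 (c * ‖a‖ ^ 2)) := by
      rw [rs_norm]
      exact ((rs_mem a).hasSum).const_mul c
    exact le_of_tendsto_of_tendsto' h2 h1 fun s => hlow s a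
  let Tc : lp (fun _ : ℕ => ℂ) 2 →L[ℂ] H := T.mkContinuous (Real.sqrt C) (fun a => by
    have h1 := hb1 a
    have h2 : ‖T a‖ = Real.sqrt (‖T a‖ ^ 2) := (Real.sqrt_sq (norm_nonneg _)).symm
    rw [h2]
    calc Real.sqrt (‖T a‖ ^ 2) ≤ Real.sqrt (C * ‖a‖ ^ 2) := Real.sqrt_le_sqrt h1
      _ = Real.sqrt C * ‖a‖ := by rw [Real.sqrt_mul hC, Real.sqrt_sq (norm_nonneg _)])
  have hanti : AntilipschitzWith (Real.toNNReal (Real.sqrt c)⁻¹) Tc := by
    refine AddMonoidHomClass.antilipschitz_of_bound Tc fun a => ?_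
    have h1 := hb2 a
    have h2 : 0 < Real.sqrt c := Real.sqrt_pos.2 hc
    rw [Real.coe_toNNReal _ (by positivity), inv_mul_eq_div, le_div_iff₀ h2]
    have h3 : Real.sqrt (c * ‖a‖ ^ 2) ≤ Real.sqrt (‖T a‖ ^ 2) := Real.sqrt_le_sqrt h1
    rw [Real.sqrt_mul hc.le, Real.sqrt_sq (norm_nonneg _), Real.sqrt_sq (norm_nonneg _)] at h3
    rw [mul_comm]
    exact h3
  have hcl : IsClosed (Set.range Tc) := hanti.isClosed_range Tc.uniformContinuous
  have hsurj : ∀ f : H, ∃ a, T a = f := by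
    have h1 : Submodule.span ℂ (Set.range ψ) ≤ LinearMap.range T := by
      rw [Submodule.span_le]
      rintro _ ⟨i, rfl⟩
      refine ⟨lp.single 2 i 1, ?_⟩
      have h2 := hTa (lp.single 2 i 1)
      refine h2.unique ?_
      have h3 := hasSum_single (f := fun j => (lp.single 2 i (1 : ℂ) : lp (fun _ : ℕ => ℂ) 2) j • ψ j) i
        (fun j hj => by
          show (lp.single 2 i (1 : ℂ) : lp (fun _ : ℕ => ℂ) 2) j • ψ j = 0
          rw [lp.single_apply_ne 2 i 1 hj, zero_smul])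
      have h4 : (lp.single 2 i (1 : ℂ) : lp (fun _ : ℕ => ℂ) 2) i • ψ i = ψ i := by
        rw [lp.single_apply_self, one_smul]
      rw [h4] at h3
      exact h3
    have h2 : (Submodule.span ℂ (Set.range ψ)).topologicalClosure ≤ LinearMap.range T := by
      apply Submodule.topologicalClosure_minimal _ h1
      exact hcl
    rw [hdense] at h2
    intro f
    exact h2 Submodule.mem_top
  obtain ⟨a, ha⟩ := hsurj f
  refine ⟨a, ?_, ?_⟩
  · have := (hTa a).tendsto_sum_nat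
    rw [ha] at this
    exact this
  · intro b hb
    have h1 : Tendsto (fun N => ∑ j ∈ Finset.range N, a j • ψ j) atTop (𝓝 f) := by
      have := (hTa a).tendsto_sum_nat
      rw [ha] at this
      exact this
    have h2 := (hb.sub h1).norm.pow 2
    simp only [sub_self, norm_zero, ne_eq, OfNat.ofNat_ne_zero, not_false_eq_true, zero_pow] at h2
    funext i
    have h3 : ∀ N, i < N → c * ‖b i - a i‖ ^ 2 ≤
        ‖∑ j ∈ Finset.range N, b j • ψ j - ∑ j ∈ Finset.range N, a j • ψ j‖ ^ 2 := by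
      intro N hN
      have h4 := hlow (Finset.range N) (fun j => b j - a j)
      have h5 : ∑ j ∈ Finset.range N, (b j - a j) • ψ j
          = ∑ j ∈ Finset.range N, b j • ψ j - ∑ j ∈ Finset.range N, a j • ψ j := by
        rw [← Finset.sum_sub_distrib]
        exact Finset.sum_congr rfl fun j _ => sub_smul _ _ _
      rw [h5] at h4
      refine le_trans ?_ h4
      apply mul_le_mul_of_nonneg_left _ hc.le
      exact Finset.single_le_sum (f := fun j => ‖b j - a j‖ ^ 2) (fun j _ => by positivity)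
        (Finset.mem_range.2 hN)
    have h4 : c * ‖b i - a i‖ ^ 2 ≤ 0 :=
      ge_of_tendsto h2 (eventually_atTop.2 ⟨i + 1, fun N hN => h3 N (by omega)⟩)
    have h5 : ‖b i - a i‖ ^ 2 ≤ 0 := by
      by_contra h
      push Not at h
      nlinarith [mul_pos hc h]
    have h6 : ‖b i - a i‖ = 0 := by
      have : 0 ≤ ‖b i - a i‖ := norm_nonneg _
      nlinarith
    exact sub_eq_zero.1 (norm_eq_zero.1 h6)

end riesz

end Pool.Agent.R508.BR
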