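import Mathlib

set_option autoImplicit false

/-! The linear algebra of two coprime periods and a linear function (helper508, MP_1ebdda_an). -/

open Filter Topology

namespace Pool.Agent.R508.BR

section lin

variable (u v : ℕ) (hu : 0 < u) (hv : 0 < v)

/-- the linear map -/
def LL : ((Fin u → ℂ) × (Fin v → ℂ) × ℂ) →ₗ[ℂ] ((Fin (u + v) → ℂ) × ℂ) where
  toFun x := (fun s => x.1 ⟨s % u, Nat.mod_lt _ hu⟩ + x.2.1 ⟨s % v, Nat.mod_lt _ hv⟩
    + (s : ℂ) * x.2.2, ∑ r, x.2.1 r)
  map_add' x y := by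
    refine Prod.ext ?_ ?_
    · funext s
      simp only [Prod.fst_add, Prod.snd_add, Pi.add_apply]
      ring
    · simp only [Prod.fst_add, Prod.snd_add, Pi.add_apply, Finset.sum_add_distrib]
  map_smul' z x := by
    refine Prod.ext ?_ ?_
    · funext s
      simp only [Prod.smul_fst, Prod.smul_snd, Pi.smul_apply, smul_eq_mul, RingHom.id_apply]
      ring
    · simp only [Prod.smul_snd, Prod.smul_fst, Pi.smul_apply, smul_eq_mul, RingHom.id_apply,
        Finset.mul_sum]

theorem LL_inj (hcop : u.Coprime v) : Function.Injective (LL u v hu hv) := by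
  rw [← LinearMap.ker_eq_bot, LinearMap.ker_eq_bot']
  rintro ⟨A, B, η⟩ h
  have h1 : ∀ s : Fin (u + v), A ⟨s % u, Nat.mod_lt _ hu⟩ + B ⟨s % v, Nat.mod_lt _ hv⟩
      + (s : ℂ) * η = 0 := fun s => congrFun (congrArg Prod.fst h) s
  have h2 : ∑ r, B r = 0 := congrArg Prod.snd h
  set q : ℕ → ℂ := fun s => A ⟨s % u, Nat.mod_lt _ hu⟩ + B ⟨s % v, Nat.mod_lt _ hv⟩
      + (s : ℂ) * η with hq
  have hq0 : ∀ s, q s = 0 := by
    intro s
    induction s using Nat.strong_induction_on with
    | _ s ih =>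
      by_cases hs : s < u + v
      · exact h1 ⟨s, hs⟩
      · obtain ⟨t, rfl⟩ : ∃ t, s = t + u + v := ⟨s - (u + v), by omega⟩
        have e1 : q (t + u + v) = q (t + u) + q (t + v) - q t := by
          simp only [hq]
          have a1 : (t + u + v) % u = (t + v) % u := by
            rw [show t + u + v = (t + v) + u by ring, Nat.add_mod_right]
          have a2 : (t + u + v) % v = (t + u) % v := Nat.add_mod_right _ _
          have a3 : (t + u) % u = t % u := Nat.add_mod_right _ _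
          have a4 : (t + v) % v = t % v := Nat.add_mod_right _ _
          simp only [a1, a2, a3, a4]
          push_cast
          ring
        rw [e1, ih (t + u) (by omega), ih (t + v) (by omega), ih t (by omega)]
        ring
  have hη : η = 0 := by
    have e1 := hq0 0
    have e2 := hq0 (u * v)
    simp only [hq, Nat.zero_mod, Nat.mul_mod_right, Nat.mul_mod_left, Nat.cast_zero, zero_mul,
      add_zero] at e1 e2
    rw [e1, zero_add] at e2
    have h3 : ((u * v : ℕ) : ℂ) ≠ 0 := by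
      have : u * v ≠ 0 := Nat.mul_ne_zero hu.ne' hv.ne'
      exact_mod_cast this
    exact (mul_eq_zero.1 e2).resolve_left h3
  have hAB : ∀ (r : Fin u) (t : Fin v), A r + B t = 0 := by
    intro r t
    obtain ⟨s, hs1, hs2⟩ := Nat.chineseRemainder hcop r.1 t.1
    have e1 := hq0 s
    simp only [hq, hη, mul_zero, add_zero] at e1
    have a1 : s % u = r.1 := by
      have : s % u = r.1 % u := hs1
      rw [this, Nat.mod_eq_of_lt r.2]
    have a2 : s % v = t.1 := by
      have : s % v = t.1 % v := hs2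
      rw [this, Nat.mod_eq_of_lt t.2]
    simp only [a1, a2] at e1
    exact e1
  have hB : ∀ t, B t = 0 := by
    intro t
    have e1 : ∀ t', B t' = B t := by
      intro t'
      have := hAB ⟨0, hu⟩ t
      have h' := hAB ⟨0, hu⟩ t'
      linear_combination h' - this
    rw [Finset.sum_congr rfl (fun t' _ => e1 t'), Finset.sum_const, Finset.card_univ,
      Fintype.card_fin, nsmul_eq_mul] at h2
    have h3 : (v : ℂ) ≠ 0 := by exact_mod_cast hv.ne'
    exact (mul_eq_zero.1 h2).resolve_left h3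
  have hA : ∀ r, A r = 0 := by
    intro r
    have := hAB r ⟨0, hv⟩
    rw [hB, add_zero] at this
    exact this
  refine Prod.ext (funext hA) (Prod.ext (funext hB) hη)

theorem LL_surj (hcop : u.Coprime v) : Function.Surjective (LL u v hu hv) := by
  have h := LinearMap.injective_iff_surjective_of_finrank_eq_finrank (f := LL u v hu hv) (by
    simp only [Module.finrank_prod, Module.finrank_fin_fun, Module.finrank_self]
    ring)
  exact h.1 (LL_inj u v hu hv hcop)


include hu hv in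
theorem LL_lower (hcop : u.Coprime v) : ∃ c : ℝ, 0 < c ∧ ∀ (A B : ℕ → ℂ) (η : ℂ),
    ∑ r ∈ Finset.range v, B r = 0 →
    c * (∑ r ∈ Finset.range u, ‖A r‖ ^ 2 + ∑ r ∈ Finset.range v, ‖B r‖ ^ 2 + ‖η‖ ^ 2)
      ≤ ∑ s ∈ Finset.range (u + v), ‖A (s % u) + B (s % v) + (s : ℂ) * η‖ ^ 2 := by
  obtain ⟨K, hK0, hK⟩ := LinearMap.exists_antilipschitzWith (LL u v hu hv)
    (LinearMap.ker_eq_bot.2 (LL_inj u v hu hv hcop))
  have hK0' : (0 : ℝ) < K := by exact_mod_cast hK0
  refine ⟨1 / ((u + v + 1) * K ^ 2), by positivity, fun A B η hB => ?_⟩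
  set X : (Fin u → ℂ) × (Fin v → ℂ) × ℂ := (fun r => A r, fun r => B r, η) with hX
  have h1 : ‖X‖ ≤ K * ‖LL u v hu hv X‖ := by
    have := hK.le_mul_dist X 0
    rw [dist_zero_right, map_zero, dist_zero_right] at this
    exact this
  set S := ∑ s ∈ Finset.range (u + v), ‖A (s % u) + B (s % v) + (s : ℂ) * η‖ ^ 2 with hS
  have hS0 : 0 ≤ S := Finset.sum_nonneg fun _ _ => by positivity
  have h2 : ‖LL u v hu hv X‖ ≤ Real.sqrt S := by
    have e2 : (LL u v hu hv X).2 = 0 := by
      show ∑ r : Fin v, B r = 0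
      rw [← hB, Finset.sum_range]
    have e1 : ‖(LL u v hu hv X).1‖ ≤ Real.sqrt S := by
      rw [pi_norm_le_iff_of_nonneg (Real.sqrt_nonneg _)]
      intro s
      apply Real.le_sqrt_of_sq_le
      exact Finset.single_le_sum (f := fun s : ℕ => ‖A (s % u) + B (s % v) + (s : ℂ) * η‖ ^ 2)
        (fun _ _ => by positivity) (Finset.mem_range.2 s.2)
    rw [Prod.norm_def, e2, norm_zero]
    exact max_le e1 (Real.sqrt_nonneg _)
  have h3 : ‖X‖ ^ 2 ≤ K ^ 2 * S := by
    have h4 : ‖X‖ ≤ K * Real.sqrt S := h1.trans (mul_le_mul_of_nonneg_left h2 hK0'.le)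
    calc ‖X‖ ^ 2 ≤ (K * Real.sqrt S) ^ 2 := pow_le_pow_left₀ (norm_nonneg _) h4 2
      _ = K ^ 2 * S := by rw [mul_pow, Real.sq_sqrt hS0]
  have h5 : ∀ r ∈ Finset.range u, ‖A r‖ ^ 2 ≤ K ^ 2 * S := by
    intro r hr
    refine le_trans (pow_le_pow_left₀ (norm_nonneg _) ?_ 2) h3
    have a1 : ‖X.1 ⟨r, Finset.mem_range.1 hr⟩‖ ≤ ‖X.1‖ := norm_le_pi_norm _ _
    exact a1.trans (le_max_left _ _)
  have h6 : ∀ r ∈ Finset.range v, ‖B r‖ ^ 2 ≤ K ^ 2 * S := by
    intro r hr
    refine le_trans (pow_le_pow_left₀ (norm_nonneg _) ?_ 2) h3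
    have a1 : ‖X.2.1 ⟨r, Finset.mem_range.1 hr⟩‖ ≤ ‖X.2.1‖ := norm_le_pi_norm _ _
    exact a1.trans ((le_max_left _ _).trans (le_max_right _ _))
  have h7 : ‖η‖ ^ 2 ≤ K ^ 2 * S := by
    refine le_trans (pow_le_pow_left₀ (norm_nonneg _) ?_ 2) h3
    exact (le_max_right _ _).trans (le_max_right _ _)
  have h8 := Finset.sum_le_card_nsmul _ _ _ h5
  have h9 := Finset.sum_le_card_nsmul _ _ _ h6
  rw [Finset.card_range, nsmul_eq_mul] at h8 h9
  rw [one_div, inv_mul_le_iff₀ (by positivity)]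
  nlinarith


include hu hv in
theorem LL_dual (hcop : u.Coprime v) (q : ℕ → ℂ)
    (h1 : ∀ r < u, ∑ s ∈ (Finset.range (u + v)).filter (fun s => s % u = r), q s = 0)
    (h2 : ∀ r < v, ∑ s ∈ (Finset.range (u + v)).filter (fun s => s % v = r), q s = 0)
    (h3 : ∑ s ∈ Finset.range (u + v), (s : ℂ) * q s = 0) (s : ℕ) (hs : s < u + v) : q s = 0 := by
  obtain ⟨⟨A, B, η⟩, hX⟩ := LL_surj u v hu hv hcop (fun s => (starRingEnd ℂ) (q s), 0)
  have e1 : ∀ s ∈ Finset.range (u + v), (starRingEnd ℂ) (q s)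
      = A ⟨s % u, Nat.mod_lt _ hu⟩ + B ⟨s % v, Nat.mod_lt _ hv⟩ + (s : ℂ) * η := by
    intro s hs
    exact (congrFun (congrArg Prod.fst hX) ⟨s, Finset.mem_range.1 hs⟩).symm
  have e2 : ∑ s ∈ Finset.range (u + v), q s * (starRingEnd ℂ) (q s) = 0 := by
    rw [Finset.sum_congr rfl (fun s hs => by rw [e1 s hs])]
    simp only [mul_add, Finset.sum_add_distrib]
    have a1 : ∑ s ∈ Finset.range (u + v), q s * A ⟨s % u, Nat.mod_lt _ hu⟩ = 0 := by
      rw [← Finset.sum_fiberwise_of_maps_to (g := fun s => s % u) (t := Finset.range u)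
        (fun s _ => Finset.mem_range.2 (Nat.mod_lt _ hu))]
      refine Finset.sum_eq_zero fun r hr => ?_
      have : ∀ s ∈ (Finset.range (u + v)).filter (fun s => s % u = r),
          q s * A ⟨s % u, Nat.mod_lt _ hu⟩ = q s * A ⟨r, Finset.mem_range.1 hr⟩ := by
        intro s hs
        have h := (Finset.mem_filter.1 hs).2
        simp only [h]
      rw [Finset.sum_congr rfl this, ← Finset.sum_mul, h1 r (Finset.mem_range.1 hr), zero_mul]
    have a2 : ∑ s ∈ Finset.range (u + v), q s * B ⟨s % v, Nat.mod_lt _ hv⟩ = 0 := by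
      rw [← Finset.sum_fiberwise_of_maps_to (g := fun s => s % v) (t := Finset.range v)
        (fun s _ => Finset.mem_range.2 (Nat.mod_lt _ hv))]
      refine Finset.sum_eq_zero fun r hr => ?_
      have : ∀ s ∈ (Finset.range (u + v)).filter (fun s => s % v = r),
          q s * B ⟨s % v, Nat.mod_lt _ hv⟩ = q s * B ⟨r, Finset.mem_range.1 hr⟩ := by
        intro s hs
        have h := (Finset.mem_filter.1 hs).2
        simp only [h]
      rw [Finset.sum_congr rfl this, ← Finset.sum_mul, h2 r (Finset.mem_range.1 hr), zero_mul]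
    have a3 : ∑ s ∈ Finset.range (u + v), q s * ((s : ℂ) * η) = 0 := by
      have : ∀ s ∈ Finset.range (u + v), q s * ((s : ℂ) * η) = ((s : ℂ) * q s) * η :=
        fun s _ => by ring
      rw [Finset.sum_congr rfl this, ← Finset.sum_mul, h3, zero_mul]
    rw [a1, a2, a3]; ring
  have e3 : ∑ s ∈ Finset.range (u + v), ‖q s‖ ^ 2 = 0 := by
    have : ((∑ s ∈ Finset.range (u + v), ‖q s‖ ^ 2 : ℝ) : ℂ) = 0 := by
      rw [← e2]
      push_cast
      refine Finset.sum_congr rfl fun s _ => ?_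
      rw [Complex.mul_conj, Complex.normSq_eq_norm_sq]
      push_cast
      rfl
    exact_mod_cast this
  have e4 := (Finset.sum_eq_zero_iff_of_nonneg (fun s _ => by positivity)).1 e3 s
    (Finset.mem_range.2 hs)
  exact norm_eq_zero.1 (pow_eq_zero_iff (two_ne_zero) |>.1 e4)

end lin

end Pool.Agent.R508.BR
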