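import Mathlib
import Pool.Agent.R508.BR2

set_option autoImplicit false

/-! Trigonometric integrals (helper508, MP_1ebdda_an). -/

open Filter Topology MeasureTheory

namespace Pool.Agent.R508.BR

theorem int_sq_sum {ι : Type*} (s : Finset ι) (e : ι → ℝ → ℝ) (he : ∀ i, Continuous (e i))
    (a b : ℝ) (κ : ι → ℝ)
    (hoff : ∀ i ∈ s, ∀ j ∈ s, i ≠ j → ∫ x in a..b, e i x * e j x = 0)
    (hon : ∀ i ∈ s, ∫ x in a..b, e i x * e i x = κ i) (p : ι → ℂ) :
    ∫ x in a..b, ‖∑ i ∈ s, p i * (e i x : ℂ)‖ ^ 2 = ∑ i ∈ s, κ i * ‖p i‖ ^ 2 := by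
  classical
  have h1 : ∀ x, ‖∑ i ∈ s, p i * (e i x : ℂ)‖ ^ 2
      = ∑ i ∈ s, ∑ j ∈ s, (p i * (starRingEnd ℂ) (p j)).re * (e i x * e j x) := by
    intro x
    have h2 : ((‖∑ i ∈ s, p i * (e i x : ℂ)‖ ^ 2 : ℝ) : ℂ)
        = (∑ i ∈ s, p i * (e i x : ℂ)) * (starRingEnd ℂ) (∑ i ∈ s, p i * (e i x : ℂ)) := by
      rw [Complex.mul_conj, Complex.normSq_eq_norm_sq]
    have h3 := congrArg Complex.re h2
    rw [Complex.ofReal_re] at h3
    rw [h3, map_sum, Finset.sum_mul_sum, Complex.re_sum]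
    refine Finset.sum_congr rfl fun i _ => ?_
    rw [Complex.re_sum]
    refine Finset.sum_congr rfl fun j _ => ?_
    rw [map_mul, Complex.conj_ofReal]
    have : p i * (e i x : ℂ) * ((starRingEnd ℂ) (p j) * (e j x : ℂ))
        = (p i * (starRingEnd ℂ) (p j)) * ((e i x * e j x : ℝ) : ℂ) := by
      push_cast; ring
    rw [this, Complex.re_mul_ofReal]
  simp only [h1]
  rw [intervalIntegral.integral_finsetSum]
  · refine Finset.sum_congr rfl fun i hi => ?_
    rw [intervalIntegral.integral_finsetSum]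
    · rw [Finset.sum_eq_single_of_mem i hi]
      · rw [intervalIntegral.integral_const_mul, hon i hi, Complex.mul_conj,
          Complex.normSq_eq_norm_sq, Complex.ofReal_re, mul_comm]
      · intro j hj hji
        rw [intervalIntegral.integral_const_mul, hoff i hi j hj (Ne.symm hji), mul_zero]
    · intro j _
      exact ((continuous_const.mul ((he i).mul (he j)))).intervalIntegrable _ _
  · intro i _
    exact (continuous_finsetSum _ fun j _ =>
      (continuous_const.mul ((he i).mul (he j)))).intervalIntegrable _ _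

theorem int_cos_zero (w a T : ℝ) (hw : w ≠ 0) (hT : w * T = 2 * Real.pi) (n : ℤ) (hn : n ≠ 0) :
    ∫ x in a..(a + T), Real.cos ((n : ℝ) * w * x) = 0 := by
  have hnw : (n : ℝ) * w ≠ 0 := mul_ne_zero (by exact_mod_cast hn) hw
  rw [intervalIntegral.integral_comp_mul_left (fun x => Real.cos x) hnw, integral_cos]
  have : (n : ℝ) * w * (a + T) = (n : ℝ) * w * a + n * (2 * Real.pi) := by
    rw [← hT]; ring
  rw [this, Real.sin_add_int_mul_two_pi]
  simp

theorem int_coscos (w a T : ℝ) (hw : w ≠ 0) (hT : w * T = 2 * Real.pi) (i j : ℕ) (hij : i ≠ j) :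
    ∫ x in a..(a + T), Real.cos ((i : ℝ) * w * x) * Real.cos ((j : ℝ) * w * x) = 0 := by
  have h1 : ∀ x : ℝ, Real.cos ((i : ℝ) * w * x) * Real.cos ((j : ℝ) * w * x)
      = (Real.cos ((((i : ℤ) - (j : ℤ) : ℤ) : ℝ) * w * x)
        + Real.cos ((((i : ℤ) + (j : ℤ) : ℤ) : ℝ) * w * x)) / 2 := by
    intro x
    push_cast
    have e1 : ((i : ℝ) - j) * w * x = (i : ℝ) * w * x - (j : ℝ) * w * x := by ring
    have e2 : ((i : ℝ) + j) * w * x = (i : ℝ) * w * x + (j : ℝ) * w * x := by ring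
    rw [e1, e2, Real.cos_sub, Real.cos_add]; ring
  simp only [h1]
  rw [intervalIntegral.integral_div, intervalIntegral.integral_add
    ((by fun_prop : Continuous _).intervalIntegrable _ _)
    ((by fun_prop : Continuous _).intervalIntegrable _ _),
    int_cos_zero w a T hw hT _ (by omega), int_cos_zero w a T hw hT _ (by omega)]
  simp

theorem int_coscos_self (w a T : ℝ) (hw : w ≠ 0) (hT : w * T = 2 * Real.pi) (i : ℕ) :
    ∫ x in a..(a + T), Real.cos ((i : ℝ) * w * x) * Real.cos ((i : ℝ) * w * x)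
      = if i = 0 then T else T / 2 := by
  split_ifs with hi
  · subst hi
    simp
  · have h1 : ∀ x : ℝ, Real.cos ((i : ℝ) * w * x) * Real.cos ((i : ℝ) * w * x)
        = 1 / 2 + Real.cos (((2 * (i : ℤ) : ℤ) : ℝ) * w * x) / 2 := by
      intro x
      push_cast
      have e2 : (2 * (i : ℝ)) * w * x = 2 * ((i : ℝ) * w * x) := by ring
      rw [e2, Real.cos_two_mul]; ring
    simp only [h1]
    have h2 : ∫ x in a..(a + T), Real.cos (((2 * (i : ℤ) : ℤ) : ℝ) * w * x) / 2 = 0 := by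
      rw [intervalIntegral.integral_div, int_cos_zero w a T hw hT _ (by omega), zero_div]
    rw [intervalIntegral.integral_add
      ((by fun_prop : Continuous _).intervalIntegrable _ _)
      ((by fun_prop : Continuous _).intervalIntegrable _ _), h2]
    simp
    ring

theorem int_sinsin (w a T : ℝ) (hw : w ≠ 0) (hT : w * T = 2 * Real.pi) (i j : ℕ) (hij : i ≠ j) :
    ∫ x in a..(a + T), Real.sin ((i : ℝ) * w * x) * Real.sin ((j : ℝ) * w * x) = 0 := by
  have h1 : ∀ x : ℝ, Real.sin ((i : ℝ) * w * x) * Real.sin ((j : ℝ) * w * x)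
      = (Real.cos ((((i : ℤ) - (j : ℤ) : ℤ) : ℝ) * w * x)
        - Real.cos ((((i : ℤ) + (j : ℤ) : ℤ) : ℝ) * w * x)) / 2 := by
    intro x
    push_cast
    have e1 : ((i : ℝ) - j) * w * x = (i : ℝ) * w * x - (j : ℝ) * w * x := by ring
    have e2 : ((i : ℝ) + j) * w * x = (i : ℝ) * w * x + (j : ℝ) * w * x := by ring
    rw [e1, e2, Real.cos_sub, Real.cos_add]; ring
  simp only [h1]
  rw [intervalIntegral.integral_div, intervalIntegral.integral_sub
    ((by fun_prop : Continuous _).intervalIntegrable _ _)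
    ((by fun_prop : Continuous _).intervalIntegrable _ _),
    int_cos_zero w a T hw hT _ (by omega), int_cos_zero w a T hw hT _ (by omega)]
  simp

theorem int_sinsin_self (w a T : ℝ) (hw : w ≠ 0) (hT : w * T = 2 * Real.pi) (i : ℕ) (hi : i ≠ 0) :
    ∫ x in a..(a + T), Real.sin ((i : ℝ) * w * x) * Real.sin ((i : ℝ) * w * x) = T / 2 := by
  have h1 : ∀ x : ℝ, Real.sin ((i : ℝ) * w * x) * Real.sin ((i : ℝ) * w * x)
      = 1 / 2 - Real.cos (((2 * (i : ℤ) : ℤ) : ℝ) * w * x) / 2 := by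
    intro x
    push_cast
    have e2 : (2 * (i : ℝ)) * w * x = 2 * ((i : ℝ) * w * x) := by ring
    rw [e2, Real.cos_two_mul]
    nlinarith [Real.sin_sq_add_cos_sq ((i : ℝ) * w * x)]
  simp only [h1]
  have h2 : ∫ x in a..(a + T), Real.cos (((2 * (i : ℤ) : ℤ) : ℝ) * w * x) / 2 = 0 := by
    rw [intervalIntegral.integral_div, int_cos_zero w a T hw hT _ (by omega), zero_div]
  rw [intervalIntegral.integral_sub
    ((by fun_prop : Continuous _).intervalIntegrable _ _)
    ((by fun_prop : Continuous _).intervalIntegrable _ _), h2]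
  simp
  ring

theorem cos_bounds {ι : Type*} (s : Finset ι) (n : ι → ℕ) (hn : Function.Injective n)
    (w a T : ℝ) (hw : w ≠ 0) (hT0 : 0 < T) (hT : w * T = 2 * Real.pi) (p : ι → ℂ) :
    T / 2 * ∑ i ∈ s, ‖p i‖ ^ 2 ≤ ∫ x in a..(a + T), ‖∑ i ∈ s, p i *
      ((Real.cos ((n i : ℝ) * w * x) : ℝ) : ℂ)‖ ^ 2 ∧
    ∫ x in a..(a + T), ‖∑ i ∈ s, p i * ((Real.cos ((n i : ℝ) * w * x) : ℝ) : ℂ)‖ ^ 2
      ≤ T * ∑ i ∈ s, ‖p i‖ ^ 2 := by
  have h := int_sq_sum s (fun i x => Real.cos ((n i : ℝ) * w * x)) (fun i => by fun_prop)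
    a (a + T) (fun i => if n i = 0 then T else T / 2)
    (fun i _ j _ hij => int_coscos w a T hw hT _ _ (fun h => hij (hn h)))
    (fun i _ => int_coscos_self w a T hw hT _) p
  rw [h, Finset.mul_sum, Finset.mul_sum]
  constructor
  · refine Finset.sum_le_sum fun i _ => ?_
    apply mul_le_mul_of_nonneg_right _ (by positivity)
    split_ifs <;> linarith
  · refine Finset.sum_le_sum fun i _ => ?_
    apply mul_le_mul_of_nonneg_right _ (by positivity)
    split_ifs <;> linarith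

theorem sin_bounds {ι : Type*} (s : Finset ι) (n : ι → ℕ) (hn : Function.Injective n)
    (hn0 : ∀ i, n i ≠ 0)
    (w a T : ℝ) (hw : w ≠ 0) (hT : w * T = 2 * Real.pi) (p : ι → ℂ) :
    ∫ x in a..(a + T), ‖∑ i ∈ s, p i * ((Real.sin ((n i : ℝ) * w * x) : ℝ) : ℂ)‖ ^ 2
      = T / 2 * ∑ i ∈ s, ‖p i‖ ^ 2 := by
  have h := int_sq_sum s (fun i x => Real.sin ((n i : ℝ) * w * x)) (fun i => by fun_prop)
    a (a + T) (fun i => T / 2)
    (fun i _ j _ hij => int_sinsin w a T hw hT _ _ (fun h => hij (hn h)))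
    (fun i _ => int_sinsin_self w a T hw hT _ (hn0 i)) p
  rw [h, Finset.mul_sum]

theorem int_split (F : ℝ → ℝ) (hF : Continuous F) (a δ : ℝ) (n : ℕ) :
    ∫ x in a..(a + n * δ), F x = ∫ y in (0 : ℝ)..δ, ∑ r ∈ Finset.range n, F (a + r * δ + y) := by
  induction n with
  | zero => simp
  | succ n ih =>
    have h1 : ∫ y in (0 : ℝ)..δ, F (a + n * δ + y) = ∫ x in (a + n * δ)..(a + (n + 1) * δ), F x := by
      rw [intervalIntegral.integral_comp_add_left]
      congr 1 <;> ring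
    simp only [Finset.sum_range_succ]
    rw [intervalIntegral.integral_add, ← ih, h1]
    · push_cast
      exact (intervalIntegral.integral_add_adjacent_intervals (hF.intervalIntegrable _ _)
        (hF.intervalIntegrable _ _)).symm
    · exact (continuous_finsetSum _ fun r _ => hF.comp (by fun_prop)).intervalIntegrable _ _
    · exact (hF.comp (by fun_prop : Continuous fun y : ℝ => a + n * δ + y)).intervalIntegrable _ _

theorem sum_cos_zero (v j : ℕ) (hv : 0 < v) (hj : ¬ v ∣ j) (θ : ℝ) :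
    ∑ r ∈ Finset.range v, Real.cos (θ + 2 * Real.pi * j * r / v) = 0 := by
  have hv' : (v : ℂ) ≠ 0 := by exact_mod_cast hv.ne'
  set ζ : ℂ := Complex.exp (2 * Real.pi * j / v * Complex.I) with hζ
  have h1 : ζ ≠ 1 := by
    intro h
    rw [hζ, Complex.exp_eq_one_iff] at h
    obtain ⟨n, hn⟩ := h
    have h2 : (j : ℂ) = n * v := by
      have h3 : (2 * Real.pi * Complex.I : ℂ) ≠ 0 := Complex.two_pi_I_ne_zero
      have h4 : (2 * Real.pi * Complex.I : ℂ) * ((j : ℂ) / v) = (2 * Real.pi * Complex.I : ℂ) * n := by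
        linear_combination hn
      have h5 := mul_left_cancel₀ h3 h4
      rw [div_eq_iff hv'] at h5
      exact h5
    have h3 : (j : ℤ) = n * v := by exact_mod_cast h2
    exact hj (Int.natCast_dvd_natCast.1 ⟨n, by rw [h3]; ring⟩)
  have h2 : ζ ^ v = 1 := by
    rw [hζ, ← Complex.exp_nat_mul, Complex.exp_eq_one_iff]
    refine ⟨j, ?_⟩
    push_cast
    field_simp
  have h3 : ∑ r ∈ Finset.range v, ζ ^ r = 0 := by
    rw [geom_sum_eq h1, h2, sub_self, zero_div]
  have h4 : ∀ r : ℕ, Real.cos (θ + 2 * Real.pi * j * r / v)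
      = (Complex.exp (θ * Complex.I) * ζ ^ r).re := by
    intro r
    rw [hζ, ← Complex.exp_nat_mul, ← Complex.exp_add]
    have : (θ : ℂ) * Complex.I + (r : ℂ) * (2 * Real.pi * j / v * Complex.I)
        = ((θ + 2 * Real.pi * j * r / v : ℝ) : ℂ) * Complex.I := by
      push_cast; ring
    rw [this, Complex.exp_ofReal_mul_I_re]
  simp only [h4]
  rw [← Complex.re_sum, ← Finset.mul_sum, h3, mul_zero, Complex.zero_re]

end Pool.Agent.R508.BR
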