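import Mathlib
import Pool.Agent.R508.BR3

set_option autoImplicit false

/-! The Riesz bounds of the family (helper508, MP_1ebdda_an). -/

open Filter Topology MeasureTheory

namespace Pool.Agent.R508.BR

/-- first frequency -/
noncomputable def w1 (u v : ℕ) : ℝ := 2 * (u + v) / u
/-- second frequency -/
noncomputable def w2 (u v : ℕ) : ℝ := 2 * (u + v) / v
/-- third frequency -/
noncomputable def w3 (u v : ℕ) : ℝ := 2 * (u + v)
/-- grid size -/
noncomputable def dl (u v : ℕ) : ℝ := Real.pi / (u + v)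
/-- left end -/
noncomputable def x0 : ℝ := -(Real.pi / 2)

/-- cosine sums -/
noncomputable def GC {ι : Type} (n : ι → ℕ) (w : ℝ) (S : Finset ι) (p : ι → ℂ) (x : ℝ) : ℂ :=
  ∑ i ∈ S, p i * ((Real.cos ((n i : ℝ) * w * x) : ℝ) : ℂ)

/-- sine sums -/
noncomputable def GS {ι : Type} (n : ι → ℕ) (w : ℝ) (S : Finset ι) (p : ι → ℂ) (x : ℝ) : ℂ :=
  ∑ i ∈ S, p i * ((Real.sin ((n i : ℝ) * w * x) : ℝ) : ℂ)

theorem GC_cont {ι : Type} (n : ι → ℕ) (w : ℝ) (S : Finset ι) (p : ι → ℂ) :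
    Continuous (GC n w S p) := by
  unfold GC
  refine continuous_finsetSum _ fun i _ => ?_
  exact continuous_const.mul (Complex.continuous_ofReal.comp (by fun_prop))

theorem GS_cont {ι : Type} (n : ι → ℕ) (w : ℝ) (S : Finset ι) (p : ι → ℂ) :
    Continuous (GS n w S p) := by
  unfold GS
  refine continuous_finsetSum _ fun i _ => ?_
  exact continuous_const.mul (Complex.continuous_ofReal.comp (by fun_prop))

theorem GC_per {ι : Type} (n : ι → ℕ) (w T : ℝ) (hT : w * T = 2 * Real.pi) (S : Finset ι)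
    (p : ι → ℂ) : Function.Periodic (GC n w S p) T := by
  intro x
  unfold GC
  refine Finset.sum_congr rfl fun i _ => ?_
  have : (n i : ℝ) * w * (x + T) = (n i : ℝ) * w * x + (n i : ℕ) * (2 * Real.pi) := by
    rw [← hT]; ring
  rw [this, Real.cos_add_nat_mul_two_pi]

theorem GS_per {ι : Type} (n : ι → ℕ) (w T : ℝ) (hT : w * T = 2 * Real.pi) (S : Finset ι)
    (p : ι → ℂ) : Function.Periodic (GS n w S p) T := by
  intro x
  unfold GS
  refine Finset.sum_congr rfl fun i _ => ?_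
  have : (n i : ℝ) * w * (x + T) = (n i : ℝ) * w * x + (n i : ℕ) * (2 * Real.pi) := by
    rw [← hT]; ring
  rw [this, Real.sin_add_nat_mul_two_pi]

theorem per_mod (G : ℝ → ℂ) (n : ℕ) (δ : ℝ) (hG : Function.Periodic G (n * δ))
    (a y : ℝ) (s : ℕ) : G (a + s * δ + y) = G (a + (s % n : ℕ) * δ + y) := by
  have h1 : a + s * δ + y = (a + (s % n : ℕ) * δ + y) + (s / n : ℕ) * (n * δ) := by
    have h2 : (s : ℝ) = ((n * (s / n) + s % n : ℕ) : ℝ) := by rw [Nat.div_add_mod]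
    rw [h2]
    push_cast
    have h3 : ((n * (s / n) + s % n) % n : ℕ) = s % n := by rw [Nat.div_add_mod]
    ring
  have h4 := hG.nat_mul (s / n) (a + (s % n : ℕ) * δ + y)
  rw [h1, h4]

theorem nsq_cont (G : ℝ → ℂ) (hc : Continuous G) : Continuous fun x => ‖G x‖ ^ 2 := hc.norm.pow 2

theorem nsq_split (G : ℝ → ℂ) (hc : Continuous G) (a δ : ℝ) (n : ℕ) :
    ∫ x in a..(a + n * δ), ‖G x‖ ^ 2
      = ∫ y in (0 : ℝ)..δ, ∑ r ∈ Finset.range n, ‖G (a + r * δ + y)‖ ^ 2 :=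
  int_split (fun x => ‖G x‖ ^ 2) (nsq_cont G hc) a δ n

theorem nsum_cont (G : ℝ → ℂ) (hc : Continuous G) (a δ : ℝ) (n : ℕ) :
    Continuous fun y : ℝ => ∑ r ∈ Finset.range n, ‖G (a + r * δ + y)‖ ^ 2 :=
  continuous_finsetSum _ fun r _ => (hc.comp (by fun_prop)).norm.pow 2

theorem per_le (G : ℝ → ℂ) (hc : Continuous G) (n : ℕ) (hn : 0 < n) (δ : ℝ) (hδ : 0 < δ)
    (hG : Function.Periodic G (n * δ)) (a : ℝ) (N : ℕ) :
    ∫ x in a..(a + N * δ), ‖G x‖ ^ 2 ≤ N * ∫ x in a..(a + n * δ), ‖G x‖ ^ 2 := by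
  rw [nsq_split _ hc a δ N, nsq_split _ hc a δ n,
    ← intervalIntegral.integral_const_mul]
  apply intervalIntegral.integral_mono_on hδ.le
  · exact (nsum_cont G hc a δ N).intervalIntegrable _ _
  · exact (continuous_const.mul (nsum_cont G hc a δ n)).intervalIntegrable _ _
  · intro y _
    have h1 : ∀ s ∈ Finset.range N, ‖G (a + s * δ + y)‖ ^ 2
        ≤ ∑ r ∈ Finset.range n, ‖G (a + r * δ + y)‖ ^ 2 := by
      intro s _
      rw [per_mod G n δ hG a y s]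
      exact Finset.single_le_sum (f := fun r : ℕ => ‖G (a + r * δ + y)‖ ^ 2)
        (fun _ _ => by positivity) (Finset.mem_range.2 (Nat.mod_lt _ hn))
    have h2 := Finset.sum_le_card_nsmul _ _ _ h1
    rw [Finset.card_range, nsmul_eq_mul] at h2
    exact h2

section main

variable (u v : ℕ) (hu : 0 < u) (hv : 0 < v)

include hu in
theorem w1_T : w1 u v * (u * dl u v) = 2 * Real.pi := by
  unfold w1 dl
  have h1 : (0 : ℝ) < u := by exact_mod_cast hu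
  have h2 : (0 : ℝ) ≤ v := by positivity
  field_simp

include hv in
theorem w2_T : w2 u v * (v * dl u v) = 2 * Real.pi := by
  unfold w2 dl
  have h1 : (0 : ℝ) < v := by exact_mod_cast hv
  have h2 : (0 : ℝ) ≤ u := by positivity
  field_simp

include hu in
theorem w3_T : w3 u v * ((1 : ℕ) * dl u v) = 2 * Real.pi := by
  unfold w3 dl
  have h1 : (0 : ℝ) < u := by exact_mod_cast hu
  have h2 : (0 : ℝ) ≤ v := by positivity
  push_cast
  field_simp

include hu in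
theorem dl_pos : 0 < dl u v := by
  unfold dl
  have h1 : (0 : ℝ) < u := by exact_mod_cast hu
  have h2 : (0 : ℝ) ≤ v := by positivity
  have := Real.pi_pos
  positivity

include hu in
theorem x0_add : x0 + ((u + v : ℕ) : ℝ) * dl u v = Real.pi / 2 := by
  unfold x0 dl
  have h1 : (0 : ℝ) < u := by exact_mod_cast hu
  have h2 : (0 : ℝ) ≤ v := by positivity
  push_cast
  field_simp
  ring

include hu hv in
theorem pt_lower (hcop : u.Coprime v) : ∃ c : ℝ, 0 < c ∧ ∀ (A B : ℕ → ℂ) (η : ℂ) (y : ℝ),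
    0 ≤ y → y ≤ dl u v → ∑ r ∈ Finset.range v, B r = 0 →
    c * (∑ r ∈ Finset.range u, ‖A r‖ ^ 2 + ∑ r ∈ Finset.range v, ‖B r‖ ^ 2 + ‖η‖ ^ 2)
      ≤ ∑ s ∈ Finset.range (u + v),
        ‖A (s % u) + B (s % v) + ((x0 + s * dl u v + y : ℝ) : ℂ) * η‖ ^ 2 := by
  obtain ⟨c, hc, h⟩ := LL_lower u v hu hv hcop
  have hd := dl_pos u v hu
  have hd1 : dl u v ≤ Real.pi := by
    unfold dl
    have h1 : (1 : ℝ) ≤ u := by exact_mod_cast hu
    have h2 : (0 : ℝ) ≤ v := by positivity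
    apply div_le_self Real.pi_pos.le
    linarith
  have hpi := Real.pi_pos
  set K : ℝ := 2 * u * (Real.pi / 2) ^ 2 + 1 with hK
  have hK0 : 0 < K := by positivity
  set M : ℝ := 2 + K / (dl u v) ^ 2 with hM
  have hM0 : 0 < M := by positivity
  refine ⟨c / M, by positivity, fun A B η y hy0 hy1 hB => ?_⟩
  have h1 := h (fun r => A r + ((x0 + y : ℝ) : ℂ) * η) B ((dl u v : ℂ) * η) hB
  have h2 : ∀ s ∈ Finset.range (u + v),
      ‖A (s % u) + ((x0 + y : ℝ) : ℂ) * η + B (s % v) + (s : ℂ) * ((dl u v : ℂ) * η)‖ ^ 2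
      = ‖A (s % u) + B (s % v) + ((x0 + s * dl u v + y : ℝ) : ℂ) * η‖ ^ 2 := by
    intro s _
    congr 2
    push_cast
    ring
  rw [Finset.sum_congr rfl h2] at h1
  refine le_trans ?_ h1
  have h3 : ∀ r ∈ Finset.range u, ‖A r‖ ^ 2 ≤ 2 * ‖A r + ((x0 + y : ℝ) : ℂ) * η‖ ^ 2
      + 2 * (Real.pi / 2) ^ 2 * ‖η‖ ^ 2 := by
    intro r _
    have e1 : ‖A r‖ ≤ ‖A r + ((x0 + y : ℝ) : ℂ) * η‖ + (Real.pi / 2) * ‖η‖ := by
      have e2 := norm_sub_le (A r + ((x0 + y : ℝ) : ℂ) * η) (((x0 + y : ℝ) : ℂ) * η)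
      rw [add_sub_cancel_right] at e2
      refine e2.trans (add_le_add le_rfl ?_)
      rw [norm_mul, Complex.norm_real, Real.norm_eq_abs]
      apply mul_le_mul_of_nonneg_right _ (norm_nonneg _)
      rw [abs_le]
      unfold x0
      constructor
      · linarith
      · linarith
    nlinarith [sq_nonneg (‖A r + ((x0 + y : ℝ) : ℂ) * η‖ - (Real.pi / 2) * ‖η‖),
      norm_nonneg (A r), norm_nonneg (A r + ((x0 + y : ℝ) : ℂ) * η), norm_nonneg η]
  have h4 := Finset.sum_le_sum h3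
  rw [Finset.sum_add_distrib, ← Finset.mul_sum, Finset.sum_const, Finset.card_range,
    nsmul_eq_mul] at h4
  have h5 : ‖(dl u v : ℂ) * η‖ ^ 2 = (dl u v) ^ 2 * ‖η‖ ^ 2 := by
    rw [norm_mul, Complex.norm_real, Real.norm_eq_abs, mul_pow, sq_abs]
  rw [h5]
  set SA := ∑ r ∈ Finset.range u, ‖A r‖ ^ 2
  set SA' := ∑ r ∈ Finset.range u, ‖A r + ((x0 + y : ℝ) : ℂ) * η‖ ^ 2 with hSA'
  set SB := ∑ r ∈ Finset.range v, ‖B r‖ ^ 2 with hSB
  have hSA0 : 0 ≤ SA' := Finset.sum_nonneg fun _ _ => by positivity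
  have hSB0 : 0 ≤ SB := Finset.sum_nonneg fun _ _ => by positivity
  rw [div_mul_eq_mul_div, div_le_iff₀ hM0, mul_assoc]
  apply mul_le_mul_of_nonneg_left _ hc.le
  have h6 : SA + SB + ‖η‖ ^ 2 ≤ 2 * SA' + SB + K * ‖η‖ ^ 2 := by
    rw [hK]
    nlinarith
  refine h6.trans ?_
  have h7 : K * ‖η‖ ^ 2 = K / (dl u v) ^ 2 * ((dl u v) ^ 2 * ‖η‖ ^ 2) := by
    field_simp
  rw [h7]
  have h8 : 0 ≤ (dl u v) ^ 2 * ‖η‖ ^ 2 := by positivity
  have h9 : 0 ≤ K / (dl u v) ^ 2 := by positivity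
  rw [hM]
  nlinarith [mul_nonneg h9 hSA0, mul_nonneg h9 hSB0, mul_nonneg h9 h8]

/-- third index function -/
def sc (l : ℕ) : ℕ := l + 1

theorem sc_inj : Function.Injective sc := fun a b h => by unfold sc at h; omega

theorem sc_ne (l : ℕ) : sc l ≠ 0 := by unfold sc; omega

/-- the even part -/
noncomputable def FE (S1 : Finset ℕ) (S2 : Finset {j : ℕ // ¬ v ∣ j}) (S3 : Finset ℕ)
    (p : ℕ → ℂ) (p' : {j : ℕ // ¬ v ∣ j} → ℂ) (r : ℕ → ℂ) (x : ℝ) : ℂ :=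
  GC id (w1 u v) S1 p x + GC Subtype.val (w2 u v) S2 p' x + (x : ℂ) * GS sc (w3 u v) S3 r x

theorem FE_cont (S1 : Finset ℕ) (S2 : Finset {j : ℕ // ¬ v ∣ j}) (S3 : Finset ℕ)
    (p : ℕ → ℂ) (p' : {j : ℕ // ¬ v ∣ j} → ℂ) (r : ℕ → ℂ) :
    Continuous (FE u v S1 S2 S3 p p' r) :=
  ((GC_cont _ _ _ _).add (GC_cont _ _ _ _)).add (Complex.continuous_ofReal.mul (GS_cont _ _ _ _))

include hu hv in
theorem even_lower (hcop : u.Coprime v) : ∃ c : ℝ, 0 < c ∧ ∀ (S1 : Finset ℕ)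
    (S2 : Finset {j : ℕ // ¬ v ∣ j}) (S3 : Finset ℕ)
    (p : ℕ → ℂ) (p' : {j : ℕ // ¬ v ∣ j} → ℂ) (r : ℕ → ℂ),
    c * (∑ i ∈ S1, ‖p i‖ ^ 2 + ∑ i ∈ S2, ‖p' i‖ ^ 2 + ∑ i ∈ S3, ‖r i‖ ^ 2)
      ≤ ∫ x in x0..(Real.pi / 2), ‖FE u v S1 S2 S3 p p' r x‖ ^ 2 := by
  obtain ⟨c, hc, h⟩ := pt_lower u v hu hv hcop
  have hd := dl_pos u v hu
  have hu' : (1 : ℝ) ≤ u := by exact_mod_cast hu
  have hv' : (1 : ℝ) ≤ v := by exact_mod_cast hv
  refine ⟨c * (dl u v / 2), by positivity, fun S1 S2 S3 p p' r => ?_⟩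
  set G1 := GC id (w1 u v) S1 p with hG1
  set G2 := GC Subtype.val (w2 u v) S2 p' with hG2
  set G3 := GS sc (w3 u v) S3 r with hG3
  have c1 : Continuous G1 := GC_cont _ _ _ _
  have c2 : Continuous G2 := GC_cont _ _ _ _
  have c3 : Continuous G3 := GS_cont _ _ _ _
  have P1 : Function.Periodic G1 (u * dl u v) := GC_per _ _ _ (w1_T u v hu) _ _
  have P2 : Function.Periodic G2 (v * dl u v) := GC_per _ _ _ (w2_T u v hv) _ _
  have P3 : Function.Periodic G3 ((1 : ℕ) * dl u v) := GS_per _ _ _ (w3_T u v hu) _ _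
  have hw1 : w1 u v ≠ 0 := by unfold w1; positivity
  have hw2 : w2 u v ≠ 0 := by unfold w2; positivity
  have hw3 : w3 u v ≠ 0 := by unfold w3; positivity
  have B1 := (cos_bounds S1 id Function.injective_id (w1 u v) x0 _ hw1
    (by positivity : 0 < (u : ℝ) * dl u v) (w1_T u v hu) p).1
  have B2 := (cos_bounds S2 Subtype.val Subtype.val_injective (w2 u v) x0 _ hw2
    (by positivity : 0 < (v : ℝ) * dl u v) (w2_T u v hv) p').1
  have B3 := sin_bounds S3 sc sc_inj sc_ne (w3 u v) x0 _ hw3 (w3_T u v hu) r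
  have e0 : ∫ x in x0..(Real.pi / 2), ‖FE u v S1 S2 S3 p p' r x‖ ^ 2
      = ∫ y in (0 : ℝ)..(dl u v), ∑ s ∈ Finset.range (u + v),
        ‖FE u v S1 S2 S3 p p' r (x0 + s * dl u v + y)‖ ^ 2 := by
    rw [← x0_add u v hu]
    exact nsq_split _ (FE_cont u v S1 S2 S3 p p' r) _ _ _
  have e1 : ∫ y in (0 : ℝ)..(dl u v), (∑ s ∈ Finset.range u, ‖G1 (x0 + s * dl u v + y)‖ ^ 2
        + ∑ s ∈ Finset.range v, ‖G2 (x0 + s * dl u v + y)‖ ^ 2
        + ∑ s ∈ Finset.range 1, ‖G3 (x0 + s * dl u v + y)‖ ^ 2)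
      = (∫ x in x0..(x0 + u * dl u v), ‖G1 x‖ ^ 2) + (∫ x in x0..(x0 + v * dl u v), ‖G2 x‖ ^ 2)
        + ∫ x in x0..(x0 + (1 : ℕ) * dl u v), ‖G3 x‖ ^ 2 := by
    rw [nsq_split _ c1, nsq_split _ c2, nsq_split _ c3,
      intervalIntegral.integral_add, intervalIntegral.integral_add]
    · exact (nsum_cont G1 c1 _ _ _).intervalIntegrable _ _
    · exact (nsum_cont G2 c2 _ _ _).intervalIntegrable _ _
    · exact ((nsum_cont G1 c1 _ _ _).add (nsum_cont G2 c2 _ _ _)).intervalIntegrable _ _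
    · exact (nsum_cont G3 c3 _ _ _).intervalIntegrable _ _
  have e2 : c * (∫ y in (0 : ℝ)..(dl u v), (∑ s ∈ Finset.range u, ‖G1 (x0 + s * dl u v + y)‖ ^ 2
        + ∑ s ∈ Finset.range v, ‖G2 (x0 + s * dl u v + y)‖ ^ 2
        + ∑ s ∈ Finset.range 1, ‖G3 (x0 + s * dl u v + y)‖ ^ 2))
      ≤ ∫ x in x0..(Real.pi / 2), ‖FE u v S1 S2 S3 p p' r x‖ ^ 2 := by
    rw [e0, ← intervalIntegral.integral_const_mul]
    apply intervalIntegral.integral_mono_on hd.le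
    · exact (continuous_const.mul (((nsum_cont G1 c1 _ _ _).add (nsum_cont G2 c2 _ _ _)).add
        (nsum_cont G3 c3 _ _ _))).intervalIntegrable _ _
    · exact (nsum_cont _ (FE_cont u v S1 S2 S3 p p' r) _ _ _).intervalIntegrable _ _
    · intro y hy
      have h1 := h (fun s => G1 (x0 + s * dl u v + y)) (fun s => G2 (x0 + s * dl u v + y))
        (G3 (x0 + y)) y hy.1 hy.2 (by
          show ∑ s ∈ Finset.range v, G2 (x0 + s * dl u v + y) = 0
          simp only [hG2, GC]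
          rw [Finset.sum_comm]
          refine Finset.sum_eq_zero fun j _ => ?_
          rw [← Finset.mul_sum, ← Complex.ofReal_sum]
          have h2 := sum_cos_zero v j.1 hv j.2 ((j.1 : ℝ) * w2 u v * (x0 + y))
          have h3 : ∀ s ∈ Finset.range v, Real.cos ((j.1 : ℝ) * w2 u v * (x0 + s * dl u v + y))
              = Real.cos ((j.1 : ℝ) * w2 u v * (x0 + y) + 2 * Real.pi * j.1 * s / v) := by
            intro s _
            congr 1
            have h4 : w2 u v * dl u v = 2 * Real.pi / v := by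
              unfold w2 dl; field_simp
            linear_combination ((j.1 : ℝ) * s) * h4
          rw [Finset.sum_congr rfl h3, h2]
          simp)
      have h5 : ∑ s ∈ Finset.range 1, ‖G3 (x0 + s * dl u v + y)‖ ^ 2 = ‖G3 (x0 + y)‖ ^ 2 := by
        simp
      rw [h5]
      refine h1.trans (le_of_eq ?_)
      refine Finset.sum_congr rfl fun s _ => ?_
      have a1 := per_mod G1 u (dl u v) P1 x0 y s
      have a2 := per_mod G2 v (dl u v) P2 x0 y s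
      have a3 := per_mod G3 1 (dl u v) P3 x0 y s
      have a4 : G3 (x0 + s * dl u v + y) = G3 (x0 + y) := by
        rw [a3, Nat.mod_one]; simp
      show _ = ‖G1 (x0 + s * dl u v + y) + G2 (x0 + s * dl u v + y)
        + ((x0 + s * dl u v + y : ℝ) : ℂ) * G3 (x0 + s * dl u v + y)‖ ^ 2
      rw [a1, a2, a4]
  rw [e1] at e2
  refine le_trans ?_ e2
  rw [mul_assoc]
  apply mul_le_mul_of_nonneg_left _ hc.le
  have s1 : 0 ≤ ∑ i ∈ S1, ‖p i‖ ^ 2 := Finset.sum_nonneg fun _ _ => by positivity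
  have s2 : 0 ≤ ∑ i ∈ S2, ‖p' i‖ ^ 2 := Finset.sum_nonneg fun _ _ => by positivity
  have b1 : dl u v / 2 * ∑ i ∈ S1, ‖p i‖ ^ 2 ≤ ∫ x in x0..(x0 + u * dl u v), ‖G1 x‖ ^ 2 := by
    refine le_trans ?_ B1
    apply mul_le_mul_of_nonneg_right _ s1
    nlinarith
  have b2 : dl u v / 2 * ∑ i ∈ S2, ‖p' i‖ ^ 2 ≤ ∫ x in x0..(x0 + v * dl u v), ‖G2 x‖ ^ 2 := by
    refine le_trans ?_ B2
    apply mul_le_mul_of_nonneg_right _ s2
    nlinarith
  have b3 : dl u v / 2 * ∑ i ∈ S3, ‖r i‖ ^ 2 = ∫ x in x0..(x0 + (1 : ℕ) * dl u v), ‖G3 x‖ ^ 2 := by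
    have : ∫ x in x0..(x0 + (1 : ℕ) * dl u v), ‖G3 x‖ ^ 2
      = (1 : ℕ) * dl u v / 2 * ∑ i ∈ S3, ‖r i‖ ^ 2 := B3
    rw [this]; push_cast; ring
  rw [← b3, mul_add, mul_add]
  linarith

end main

end Pool.Agent.R508.BR
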