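import Mathlib
import Pool.Agent.R508.BR4

set_option autoImplicit false

/-! The Riesz bounds of the whole family (helper508, MP_1ebdda_an). -/

open Filter Topology MeasureTheory

namespace Pool.Agent.R508.BR

theorem nsq_add (F G : ℝ → ℂ) (hF : Continuous F) (hG : Continuous G) (a b : ℝ) (hab : a ≤ b) :
    ∫ x in a..b, ‖F x + G x‖ ^ 2 ≤ 2 * (∫ x in a..b, ‖F x‖ ^ 2) + 2 * ∫ x in a..b, ‖G x‖ ^ 2 := by
  rw [← intervalIntegral.integral_const_mul, ← intervalIntegral.integral_const_mul,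
    ← intervalIntegral.integral_add]
  · apply intervalIntegral.integral_mono_on hab
    · exact (nsq_cont _ (hF.add hG)).intervalIntegrable _ _
    · exact ((continuous_const.mul (nsq_cont _ hF)).add
        (continuous_const.mul (nsq_cont _ hG))).intervalIntegrable _ _
    · intro x _
      have h1 := norm_add_le (F x) (G x)
      have h2 : ‖F x + G x‖ ^ 2 ≤ (‖F x‖ + ‖G x‖) ^ 2 := pow_le_pow_left₀ (norm_nonneg _) h1 2
      nlinarith [sq_nonneg (‖F x‖ - ‖G x‖)]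
  · exact (continuous_const.mul (nsq_cont _ hF)).intervalIntegrable _ _
  · exact (continuous_const.mul (nsq_cont _ hG)).intervalIntegrable _ _

theorem nsq_nonneg (F : ℝ → ℂ) (a b : ℝ) (hab : a ≤ b) : 0 ≤ ∫ x in a..b, ‖F x‖ ^ 2 :=
  intervalIntegral.integral_nonneg hab fun _ _ => by positivity

theorem GC_even {ι : Type} (n : ι → ℕ) (w : ℝ) (S : Finset ι) (p : ι → ℂ) (x : ℝ) :
    GC n w S p (-x) = GC n w S p x := by
  unfold GC
  refine Finset.sum_congr rfl fun i _ => ?_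
  rw [mul_neg, Real.cos_neg]

theorem GS_odd {ι : Type} (n : ι → ℕ) (w : ℝ) (S : Finset ι) (p : ι → ℂ) (x : ℝ) :
    GS n w S p (-x) = - GS n w S p x := by
  unfold GS
  rw [← Finset.sum_neg_distrib]
  refine Finset.sum_congr rfl fun i _ => ?_
  rw [mul_neg, Real.sin_neg]
  push_cast
  ring

section main

variable (u v : ℕ) (hu : 0 < u) (hv : 0 < v)

theorem FE_even (S1 : Finset ℕ) (S2 : Finset {j : ℕ // ¬ v ∣ j}) (S3 : Finset ℕ)
    (p : ℕ → ℂ) (p' : {j : ℕ // ¬ v ∣ j} → ℂ) (r : ℕ → ℂ) (x : ℝ) :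
    FE u v S1 S2 S3 p p' r (-x) = FE u v S1 S2 S3 p p' r x := by
  unfold FE
  rw [GC_even, GC_even, GS_odd]
  push_cast
  ring

/-- the coefficient of the cosine -/
noncomputable def cc (m : ℕ) : ℝ :=
  -Real.cos (Real.pi * m * u / (u + v)) / Real.sin (Real.pi * m * u / (u + v))

include hu in
theorem cc_per : Function.Periodic (cc u v) (u + v) := by
  intro m
  unfold cc
  have h1 : (0 : ℝ) < u := by exact_mod_cast hu
  have h2 : (0 : ℝ) ≤ v := by positivity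
  have h3 : Real.pi * ((m + (u + v) : ℕ) : ℝ) * u / (u + v)
      = Real.pi * m * u / (u + v) + (u : ℕ) * Real.pi := by
    push_cast
    field_simp
  rw [h3, Real.cos_add_nat_mul_pi, Real.sin_add_nat_mul_pi, neg_div, neg_div]
  congr 1
  apply mul_div_mul_left
  exact pow_ne_zero _ (by norm_num)

include hu in
theorem cc_bdd : ∃ K : ℝ, 0 ≤ K ∧ ∀ m, |cc u v m| ≤ K := by
  refine ⟨∑ m ∈ Finset.range (u + v), |cc u v m|, Finset.sum_nonneg fun _ _ => abs_nonneg _,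
    fun m => ?_⟩
  rw [← (cc_per u v hu).map_mod_nat m]
  exact Finset.single_le_sum (f := fun m => |cc u v m|) (fun _ _ => abs_nonneg _)
    (Finset.mem_range.2 (Nat.mod_lt _ (by omega)))

/-- the index type of the family -/
abbrev II (v : ℕ) : Type := ℕ ⊕ {j : ℕ // ¬ v ∣ j} ⊕ ℕ ⊕ ℕ

/-- the family -/
noncomputable def FF : II v → ℝ → ℝ
  | Sum.inl i => fun x => Real.cos ((i : ℝ) * w1 u v * x)
  | Sum.inr (Sum.inl j) => fun x => Real.cos ((j.1 : ℝ) * w2 u v * x)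
  | Sum.inr (Sum.inr (Sum.inl l)) => fun x => x * Real.sin ((sc l : ℝ) * w3 u v * x)
  | Sum.inr (Sum.inr (Sum.inr m)) => fun x => Real.sin ((sc m : ℝ) * 2 * x)
      + cc u v (sc m) * Real.cos ((sc m : ℝ) * 2 * x)

theorem FF_cont (i : II v) : Continuous (FF u v i) := by
  rcases i with i | j | l | m
  · show Continuous fun x : ℝ => Real.cos ((i : ℝ) * w1 u v * x)
    fun_prop
  · show Continuous fun x : ℝ => Real.cos ((j.1 : ℝ) * w2 u v * x)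
    fun_prop
  · show Continuous fun x : ℝ => x * Real.sin ((sc l : ℝ) * w3 u v * x)
    fun_prop
  · show Continuous fun x : ℝ => Real.sin ((sc m : ℝ) * 2 * x)
      + cc u v (sc m) * Real.cos ((sc m : ℝ) * 2 * x)
    fun_prop

/-- the odd family -/
noncomputable def FQ (S : Finset ℕ) (q : ℕ → ℂ) (x : ℝ) : ℂ :=
  GS sc 2 S q x + GC sc 2 S (fun m => q m * (cc u v (sc m) : ℂ)) x

theorem FQ_cont (S : Finset ℕ) (q : ℕ → ℂ) : Continuous (FQ u v S q) :=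
  (GS_cont _ _ _ _).add (GC_cont _ _ _ _)

theorem fam_eq (s : Finset (II v)) (a : II v → ℂ) (x : ℝ) :
    ∑ i ∈ s, a i * ((FF u v i x : ℝ) : ℂ)
      = FE u v s.toLeft s.toRight.toLeft s.toRight.toRight.toLeft (fun i => a (Sum.inl i))
        (fun j => a (Sum.inr (Sum.inl j))) (fun l => a (Sum.inr (Sum.inr (Sum.inl l)))) x
        + FQ u v s.toRight.toRight.toRight (fun m => a (Sum.inr (Sum.inr (Sum.inr m)))) x := by
  have h1 : s = s.toLeft.disjSum (s.toRight.toLeft.disjSum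
      (s.toRight.toRight.toLeft.disjSum s.toRight.toRight.toRight)) := by
    rw [Finset.toLeft_disjSum_toRight, Finset.toLeft_disjSum_toRight,
      Finset.toLeft_disjSum_toRight]
  conv_lhs => rw [h1]
  rw [Finset.sum_disjSum, Finset.sum_disjSum, Finset.sum_disjSum]
  unfold FE FQ GC GS FF
  simp only [id]
  have h2 : ∑ m ∈ s.toRight.toRight.toRight, a (Sum.inr (Sum.inr (Sum.inr m))) *
        ((Real.sin ((sc m : ℝ) * 2 * x) + cc u v (sc m) * Real.cos ((sc m : ℝ) * 2 * x) : ℝ) : ℂ)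
      = ∑ m ∈ s.toRight.toRight.toRight, a (Sum.inr (Sum.inr (Sum.inr m))) *
        ((Real.sin ((sc m : ℝ) * 2 * x) : ℝ) : ℂ)
        + ∑ m ∈ s.toRight.toRight.toRight, a (Sum.inr (Sum.inr (Sum.inr m))) *
          (cc u v (sc m) : ℂ) * ((Real.cos ((sc m : ℝ) * 2 * x) : ℝ) : ℂ) := by
    rw [← Finset.sum_add_distrib]
    refine Finset.sum_congr rfl fun m _ => ?_
    push_cast
    ring
  have h3 : ∑ l ∈ s.toRight.toRight.toLeft, a (Sum.inr (Sum.inr (Sum.inl l))) *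
        ((x * Real.sin ((sc l : ℝ) * w3 u v * x) : ℝ) : ℂ)
      = (x : ℂ) * ∑ l ∈ s.toRight.toRight.toLeft, a (Sum.inr (Sum.inr (Sum.inl l))) *
        ((Real.sin ((sc l : ℝ) * w3 u v * x) : ℝ) : ℂ) := by
    rw [Finset.mul_sum]
    refine Finset.sum_congr rfl fun l _ => ?_
    push_cast
    ring
  rw [h2, h3]
  ring

theorem nrm_eq (s : Finset (II v)) (a : II v → ℂ) :
    ∑ i ∈ s, ‖a i‖ ^ 2 = ∑ i ∈ s.toLeft, ‖a (Sum.inl i)‖ ^ 2
      + ∑ j ∈ s.toRight.toLeft, ‖a (Sum.inr (Sum.inl j))‖ ^ 2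
      + ∑ l ∈ s.toRight.toRight.toLeft, ‖a (Sum.inr (Sum.inr (Sum.inl l)))‖ ^ 2
      + ∑ m ∈ s.toRight.toRight.toRight, ‖a (Sum.inr (Sum.inr (Sum.inr m)))‖ ^ 2 := by
  have h1 : s = s.toLeft.disjSum (s.toRight.toLeft.disjSum
      (s.toRight.toRight.toLeft.disjSum s.toRight.toRight.toRight)) := by
    rw [Finset.toLeft_disjSum_toRight, Finset.toLeft_disjSum_toRight,
      Finset.toLeft_disjSum_toRight]
  conv_lhs => rw [h1]
  rw [Finset.sum_disjSum, Finset.sum_disjSum, Finset.sum_disjSum]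
  ring

theorem x0_pi : x0 + Real.pi = Real.pi / 2 := by unfold x0; ring

theorem x0_le : x0 ≤ Real.pi / 2 := by
  unfold x0; linarith [Real.pi_pos]

/-- bound for the fourth family -/
theorem FQ_bounds (K : ℝ) (hK : ∀ m, |cc u v m| ≤ K) (S : Finset ℕ) (q : ℕ → ℂ) :
    ∫ x in x0..(Real.pi / 2), ‖FQ u v S q x‖ ^ 2
      ≤ (Real.pi + 2 * Real.pi * K ^ 2) * ∑ m ∈ S, ‖q m‖ ^ 2 := by
  have hpi := Real.pi_pos
  have h1 := nsq_add (GS sc 2 S q) (GC sc 2 S (fun m => q m * (cc u v (sc m) : ℂ)))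
    (GS_cont _ _ _ _) (GC_cont _ _ _ _) x0 (Real.pi / 2) x0_le
  have h2 := sin_bounds S sc sc_inj sc_ne 2 x0 Real.pi (by norm_num) rfl q
  have h3 := (cos_bounds S sc sc_inj 2 x0 Real.pi (by norm_num) hpi rfl
    (fun m => q m * (cc u v (sc m) : ℂ))).2
  rw [x0_pi] at h2 h3
  have h4 : ∑ m ∈ S, ‖q m * (cc u v (sc m) : ℂ)‖ ^ 2 ≤ K ^ 2 * ∑ m ∈ S, ‖q m‖ ^ 2 := by
    rw [Finset.mul_sum]
    refine Finset.sum_le_sum fun m _ => ?_
    rw [norm_mul, Complex.norm_real, Real.norm_eq_abs, mul_pow, mul_comm]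
    exact mul_le_mul_of_nonneg_right (pow_le_pow_left₀ (abs_nonneg _) (hK _) 2) (by positivity)
  have h5 : ∫ x in x0..(Real.pi / 2), ‖GS sc 2 S q x‖ ^ 2 = Real.pi / 2 * ∑ i ∈ S, ‖q i‖ ^ 2 := h2
  have h6 : ∫ x in x0..(Real.pi / 2), ‖GC sc 2 S (fun m => q m * (cc u v (sc m) : ℂ)) x‖ ^ 2
      ≤ Real.pi * ∑ m ∈ S, ‖q m * (cc u v (sc m) : ℂ)‖ ^ 2 := h3
  have h7 : ∫ x in x0..(Real.pi / 2), ‖FQ u v S q x‖ ^ 2 ≤ _ := h1
  refine h7.trans ?_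
  rw [h5]
  nlinarith [mul_le_mul_of_nonneg_left h4 hpi.le]

include hu hv in
theorem fam_bounds (hcop : u.Coprime v) : ∃ c C : ℝ, 0 < c ∧ 0 ≤ C ∧
    ∀ (s : Finset (II v)) (a : II v → ℂ),
    c * ∑ i ∈ s, ‖a i‖ ^ 2 ≤ ∫ x in x0..(Real.pi / 2), ‖∑ i ∈ s, a i * ((FF u v i x : ℝ) : ℂ)‖ ^ 2 ∧
    ∫ x in x0..(Real.pi / 2), ‖∑ i ∈ s, a i * ((FF u v i x : ℝ) : ℂ)‖ ^ 2
      ≤ C * ∑ i ∈ s, ‖a i‖ ^ 2 := by
  obtain ⟨c, hc, hlow⟩ := even_lower u v hu hv hcop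
  obtain ⟨K, hK0, hK⟩ := cc_bdd u v hu
  have hpi := Real.pi_pos
  have hd := dl_pos u v hu
  have hu' : (1 : ℝ) ≤ u := by exact_mod_cast hu
  have hv' : (1 : ℝ) ≤ v := by exact_mod_cast hv
  set R : ℝ := Real.pi + 2 * Real.pi * K ^ 2 with hR
  have hR0 : 0 < R := by positivity
  set M : ℝ := (2 + 2 * R * (2 / Real.pi)) / c + 2 / Real.pi with hM
  have hM0 : 0 < M := by positivity
  set C1 : ℝ := ((u + v : ℕ) : ℝ) * (u * dl u v) with hC1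
  set C2 : ℝ := ((u + v : ℕ) : ℝ) * (v * dl u v) with hC2
  set C3 : ℝ := (Real.pi / 2) ^ 2 * (((u + v : ℕ) : ℝ) * (dl u v / 2)) with hC3
  have hC10 : 0 ≤ C1 := by positivity
  have hC20 : 0 ≤ C2 := by positivity
  have hC30 : 0 ≤ C3 := by positivity
  refine ⟨1 / M, 8 * C1 + 8 * C2 + 4 * C3 + 2 * R, by positivity, by positivity, fun s a => ?_⟩
  have hfe : (fun x => ‖∑ i ∈ s, a i * ((FF u v i x : ℝ) : ℂ)‖ ^ 2)
      = fun x => ‖FE u v s.toLeft s.toRight.toLeft s.toRight.toRight.toLeft (fun i => a (Sum.inl i))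
        (fun j => a (Sum.inr (Sum.inl j))) (fun l => a (Sum.inr (Sum.inr (Sum.inl l)))) x
        + FQ u v s.toRight.toRight.toRight (fun m => a (Sum.inr (Sum.inr (Sum.inr m)))) x‖ ^ 2 := by
    funext x
    rw [fam_eq]
  rw [hfe, nrm_eq]
  set S1 := s.toLeft
  set S2 := s.toRight.toLeft
  set S3 := s.toRight.toRight.toLeft
  set S4 := s.toRight.toRight.toRight
  set p : ℕ → ℂ := fun i => a (Sum.inl i)
  set p' : {j : ℕ // ¬ v ∣ j} → ℂ := fun j => a (Sum.inr (Sum.inl j))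
  set r : ℕ → ℂ := fun l => a (Sum.inr (Sum.inr (Sum.inl l)))
  set q : ℕ → ℂ := fun m => a (Sum.inr (Sum.inr (Sum.inr m)))
  set E := FE u v S1 S2 S3 p p' r with hE
  set Q := FQ u v S4 q with hQ
  have cE : Continuous E := FE_cont _ _ _ _ _ _ _ _
  have cQ : Continuous Q := FQ_cont _ _ _ _
  have cf : Continuous fun x => E x + Q x := cE.add cQ
  have n1 : 0 ≤ ∑ i ∈ S1, ‖p i‖ ^ 2 := Finset.sum_nonneg fun _ _ => by positivity
  have n2 : 0 ≤ ∑ i ∈ S2, ‖p' i‖ ^ 2 := Finset.sum_nonneg fun _ _ => by positivity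
  have n3 : 0 ≤ ∑ i ∈ S3, ‖r i‖ ^ 2 := Finset.sum_nonneg fun _ _ => by positivity
  have n4 : 0 ≤ ∑ i ∈ S4, ‖q i‖ ^ 2 := Finset.sum_nonneg fun _ _ => by positivity
  have hQb : ∫ x in x0..(Real.pi / 2), ‖Q x‖ ^ 2 ≤ R * ∑ m ∈ S4, ‖q m‖ ^ 2 :=
    FQ_bounds u v K hK S4 q
  set Nf := ∫ x in x0..(Real.pi / 2), ‖E x + Q x‖ ^ 2 with hNf
  have hNf0 : 0 ≤ Nf := nsq_nonneg _ _ _ x0_le
  constructor
  · -- lower bound
    have o1 : Real.pi / 2 * ∑ i ∈ S4, ‖q i‖ ^ 2 ≤ Nf := by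
      have h2 := sin_bounds S4 sc sc_inj sc_ne 2 x0 Real.pi (by norm_num) rfl q
      rw [x0_pi] at h2
      rw [← h2]
      have h3 : ∀ x : ℝ, ∑ i ∈ S4, q i * ((Real.sin ((sc i : ℝ) * 2 * x) : ℝ) : ℂ)
          = ((E x + Q x) - (E (-x) + Q (-x))) / 2 := by
        intro x
        have e1 : E (-x) = E x := FE_even u v S1 S2 S3 p p' r x
        have e2 : Q (-x) = -GS sc 2 S4 q x + GC sc 2 S4 (fun m => q m * (cc u v (sc m) : ℂ)) x := by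
          rw [hQ]; unfold FQ; rw [GS_odd, GC_even]
        have e3 : Q x = GS sc 2 S4 q x + GC sc 2 S4 (fun m => q m * (cc u v (sc m) : ℂ)) x := rfl
        rw [e1, e2, e3]
        show GS sc 2 S4 q x = _
        ring
      have h4 : ∫ x in x0..(Real.pi / 2), ‖E (-x) + Q (-x)‖ ^ 2 = Nf := by
        have := intervalIntegral.integral_comp_neg (a := x0) (b := Real.pi / 2)
          (fun x => ‖E x + Q x‖ ^ 2)
        rw [this, hNf]
        congr 1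
        unfold x0; ring
      have h5 : ∫ x in x0..(Real.pi / 2),
            ‖∑ i ∈ S4, q i * ((Real.sin ((sc i : ℝ) * 2 * x) : ℝ) : ℂ)‖ ^ 2
          ≤ ∫ x in x0..(Real.pi / 2), (‖E x + Q x‖ ^ 2 / 2 + ‖E (-x) + Q (-x)‖ ^ 2 / 2) := by
        apply intervalIntegral.integral_mono_on x0_le
        · exact (nsq_cont _ (GS_cont sc 2 S4 q)).intervalIntegrable _ _
        · exact (((nsq_cont _ cf).div_const _).add
            ((nsq_cont _ (cf.comp continuous_neg)).div_const _)).intervalIntegrable _ _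
        · intro x _
          rw [h3 x, norm_div, Complex.norm_ofNat, div_pow]
          have h6 := norm_sub_le (E x + Q x) (E (-x) + Q (-x))
          have h7 : ‖(E x + Q x) - (E (-x) + Q (-x))‖ ^ 2
              ≤ (‖E x + Q x‖ + ‖E (-x) + Q (-x)‖) ^ 2 := pow_le_pow_left₀ (norm_nonneg _) h6 2
          nlinarith [sq_nonneg (‖E x + Q x‖ - ‖E (-x) + Q (-x)‖)]
      refine h5.trans ?_
      rw [intervalIntegral.integral_add, intervalIntegral.integral_div,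
        intervalIntegral.integral_div, h4]
      · linarith
      · exact ((nsq_cont _ cf).div_const _).intervalIntegrable _ _
      · exact ((nsq_cont _ (cf.comp continuous_neg)).div_const _).intervalIntegrable _ _
    have o2 : ∑ i ∈ S4, ‖q i‖ ^ 2 ≤ 2 / Real.pi * Nf := by
      rw [div_mul_eq_mul_div, le_div_iff₀ hpi]
      linarith
    have o3 : ∫ x in x0..(Real.pi / 2), ‖E x‖ ^ 2 ≤ (2 + 2 * R * (2 / Real.pi)) * Nf := by
      have h1 := nsq_add (fun x => E x + Q x) (fun x => -Q x) cf cQ.neg x0 (Real.pi / 2) x0_le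
      simp only [add_neg_cancel_right, norm_neg] at h1
      refine h1.trans ?_
      have h2 : R * ∑ i ∈ S4, ‖q i‖ ^ 2 ≤ R * (2 / Real.pi * Nf) :=
        mul_le_mul_of_nonneg_left o2 hR0.le
      have h3 : ∫ x in x0..(Real.pi / 2), ‖E x + Q x‖ ^ 2 = Nf := rfl
      rw [h3]
      nlinarith
    have o4 : ∑ i ∈ S1, ‖p i‖ ^ 2 + ∑ i ∈ S2, ‖p' i‖ ^ 2 + ∑ i ∈ S3, ‖r i‖ ^ 2
        ≤ (2 + 2 * R * (2 / Real.pi)) / c * Nf := by
      have h1 := (hlow S1 S2 S3 p p' r).trans o3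
      rw [div_mul_eq_mul_div, le_div_iff₀ hc]
      linarith
    rw [one_div, inv_mul_le_iff₀ hM0, hM, add_mul]
    linarith
  · -- upper bound
    have h1 := nsq_add E Q cE cQ x0 (Real.pi / 2) x0_le
    set G1 := GC id (w1 u v) S1 p with hG1
    set G2 := GC Subtype.val (w2 u v) S2 p' with hG2
    set G3 := GS sc (w3 u v) S3 r with hG3
    have c1 : Continuous G1 := GC_cont _ _ _ _
    have c2 : Continuous G2 := GC_cont _ _ _ _
    have c3 : Continuous G3 := GS_cont _ _ _ _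
    have P1 : Function.Periodic G1 (u * dl u v) := GC_per _ _ _ (w1_T u v hu) _ _
    have P2 : Function.Periodic G2 (v * dl u v) := GC_per _ _ _ (w2_T u v hv) _ _
    have P3 : Function.Periodic G3 ((1 : ℕ) * dl u v) := GS_per _ _ _ (w3_T u v hu) _ _
    have hw1 : w1 u v ≠ 0 := by unfold w1; positivity
    have hw2 : w2 u v ≠ 0 := by unfold w2; positivity
    have hw3 : w3 u v ≠ 0 := by unfold w3; positivity
    have B1 := (cos_bounds S1 id Function.injective_id (w1 u v) x0 _ hw1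
      (by positivity : 0 < (u : ℝ) * dl u v) (w1_T u v hu) p).2
    have B2 := (cos_bounds S2 Subtype.val Subtype.val_injective (w2 u v) x0 _ hw2
      (by positivity : 0 < (v : ℝ) * dl u v) (w2_T u v hv) p').2
    have B3 := sin_bounds S3 sc sc_inj sc_ne (w3 u v) x0 _ hw3 (w3_T u v hu) r
    have k1 : ∫ x in x0..(Real.pi / 2), ‖G1 x‖ ^ 2 ≤ C1 * ∑ i ∈ S1, ‖p i‖ ^ 2 := by
      have := per_le G1 c1 u hu (dl u v) hd P1 x0 (u + v)
      rw [x0_add u v hu] at this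
      refine this.trans ?_
      rw [hC1, mul_assoc]
      exact mul_le_mul_of_nonneg_left B1 (by positivity)
    have k2 : ∫ x in x0..(Real.pi / 2), ‖G2 x‖ ^ 2 ≤ C2 * ∑ i ∈ S2, ‖p' i‖ ^ 2 := by
      have := per_le G2 c2 v hv (dl u v) hd P2 x0 (u + v)
      rw [x0_add u v hu] at this
      refine this.trans ?_
      rw [hC2, mul_assoc]
      exact mul_le_mul_of_nonneg_left B2 (by positivity)
    have k3 : ∫ x in x0..(Real.pi / 2), ‖G3 x‖ ^ 2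
        ≤ ((u + v : ℕ) : ℝ) * (dl u v / 2) * ∑ i ∈ S3, ‖r i‖ ^ 2 := by
      have := per_le G3 c3 1 one_pos (dl u v) hd P3 x0 (u + v)
      rw [x0_add u v hu] at this
      refine this.trans ?_
      have h3 : ∫ x in x0..(x0 + (1 : ℕ) * dl u v), ‖G3 x‖ ^ 2
        = (1 : ℕ) * dl u v / 2 * ∑ i ∈ S3, ‖r i‖ ^ 2 := B3
      rw [h3]
      push_cast
      rw [one_mul, mul_assoc]
    have k3' : ∫ x in x0..(Real.pi / 2), ‖(x : ℂ) * G3 x‖ ^ 2 ≤ C3 * ∑ i ∈ S3, ‖r i‖ ^ 2 := by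
      have h3 : ∫ x in x0..(Real.pi / 2), ‖(x : ℂ) * G3 x‖ ^ 2
          ≤ ∫ x in x0..(Real.pi / 2), (Real.pi / 2) ^ 2 * ‖G3 x‖ ^ 2 := by
        apply intervalIntegral.integral_mono_on x0_le
        · exact (nsq_cont _ (Complex.continuous_ofReal.mul c3)).intervalIntegrable _ _
        · exact (continuous_const.mul (nsq_cont _ c3)).intervalIntegrable _ _
        · intro x hx
          rw [norm_mul, Complex.norm_real, Real.norm_eq_abs, mul_pow]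
          apply mul_le_mul_of_nonneg_right _ (by positivity)
          apply pow_le_pow_left₀ (abs_nonneg _)
          rw [abs_le]
          exact ⟨hx.1, hx.2⟩
      refine h3.trans ?_
      rw [intervalIntegral.integral_const_mul, hC3, mul_assoc]
      exact mul_le_mul_of_nonneg_left k3 (by positivity)
    have k4 : ∫ x in x0..(Real.pi / 2), ‖E x‖ ^ 2 ≤ 4 * C1 * ∑ i ∈ S1, ‖p i‖ ^ 2
        + 4 * C2 * ∑ i ∈ S2, ‖p' i‖ ^ 2 + 2 * C3 * ∑ i ∈ S3, ‖r i‖ ^ 2 := by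
      have a1 := nsq_add (fun x => G1 x + G2 x) (fun x => (x : ℂ) * G3 x) (c1.add c2)
        (Complex.continuous_ofReal.mul c3) x0 (Real.pi / 2) x0_le
      have a2 := nsq_add G1 G2 c1 c2 x0 (Real.pi / 2) x0_le
      have a3 : ∫ x in x0..(Real.pi / 2), ‖E x‖ ^ 2 ≤ _ := a1
      refine a3.trans ?_
      linarith
    have n1' : 0 ≤ C1 * ∑ i ∈ S1, ‖p i‖ ^ 2 := mul_nonneg hC10 n1
    have n2' : 0 ≤ C2 * ∑ i ∈ S2, ‖p' i‖ ^ 2 := mul_nonneg hC20 n2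
    have n3' : 0 ≤ C3 * ∑ i ∈ S3, ‖r i‖ ^ 2 := mul_nonneg hC30 n3
    have n4' : 0 ≤ R * ∑ i ∈ S4, ‖q i‖ ^ 2 := mul_nonneg hR0.le n4
    refine h1.trans ?_
    have e1 : 2 * (∫ x in x0..(Real.pi / 2), ‖E x‖ ^ 2) + 2 * ∫ x in x0..(Real.pi / 2), ‖Q x‖ ^ 2
        ≤ 8 * (C1 * ∑ i ∈ S1, ‖p i‖ ^ 2) + 8 * (C2 * ∑ i ∈ S2, ‖p' i‖ ^ 2)
          + 4 * (C3 * ∑ i ∈ S3, ‖r i‖ ^ 2) + 2 * (R * ∑ m ∈ S4, ‖q m‖ ^ 2) := by linarith
    refine e1.trans ?_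
    have m1 : C1 * ∑ i ∈ S1, ‖p i‖ ^ 2 ≤ C1 * (∑ i ∈ S1, ‖p i‖ ^ 2 + ∑ i ∈ S2, ‖p' i‖ ^ 2
        + ∑ i ∈ S3, ‖r i‖ ^ 2 + ∑ i ∈ S4, ‖q i‖ ^ 2) :=
      mul_le_mul_of_nonneg_left (by linarith) hC10
    have m2 : C2 * ∑ i ∈ S2, ‖p' i‖ ^ 2 ≤ C2 * (∑ i ∈ S1, ‖p i‖ ^ 2 + ∑ i ∈ S2, ‖p' i‖ ^ 2
        + ∑ i ∈ S3, ‖r i‖ ^ 2 + ∑ i ∈ S4, ‖q i‖ ^ 2) :=
      mul_le_mul_of_nonneg_left (by linarith) hC20
    have m3 : C3 * ∑ i ∈ S3, ‖r i‖ ^ 2 ≤ C3 * (∑ i ∈ S1, ‖p i‖ ^ 2 + ∑ i ∈ S2, ‖p' i‖ ^ 2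
        + ∑ i ∈ S3, ‖r i‖ ^ 2 + ∑ i ∈ S4, ‖q i‖ ^ 2) :=
      mul_le_mul_of_nonneg_left (by linarith) hC30
    have m4 : R * ∑ i ∈ S4, ‖q i‖ ^ 2 ≤ R * (∑ i ∈ S1, ‖p i‖ ^ 2 + ∑ i ∈ S2, ‖p' i‖ ^ 2
        + ∑ i ∈ S3, ‖r i‖ ^ 2 + ∑ i ∈ S4, ‖q i‖ ^ 2) :=
      mul_le_mul_of_nonneg_left (by linarith) hR0.le
    have e2 : (8 * C1 + 8 * C2 + 4 * C3 + 2 * R) * (∑ i ∈ S1, ‖p i‖ ^ 2 + ∑ i ∈ S2, ‖p' i‖ ^ 2
        + ∑ i ∈ S3, ‖r i‖ ^ 2 + ∑ i ∈ S4, ‖q i‖ ^ 2)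
        = 8 * (C1 * (∑ i ∈ S1, ‖p i‖ ^ 2 + ∑ i ∈ S2, ‖p' i‖ ^ 2
        + ∑ i ∈ S3, ‖r i‖ ^ 2 + ∑ i ∈ S4, ‖q i‖ ^ 2))
        + 8 * (C2 * (∑ i ∈ S1, ‖p i‖ ^ 2 + ∑ i ∈ S2, ‖p' i‖ ^ 2
        + ∑ i ∈ S3, ‖r i‖ ^ 2 + ∑ i ∈ S4, ‖q i‖ ^ 2))
        + 4 * (C3 * (∑ i ∈ S1, ‖p i‖ ^ 2 + ∑ i ∈ S2, ‖p' i‖ ^ 2
        + ∑ i ∈ S3, ‖r i‖ ^ 2 + ∑ i ∈ S4, ‖q i‖ ^ 2))
        + 2 * (R * (∑ i ∈ S1, ‖p i‖ ^ 2 + ∑ i ∈ S2, ‖p' i‖ ^ 2
        + ∑ i ∈ S3, ‖r i‖ ^ 2 + ∑ i ∈ S4, ‖q i‖ ^ 2)) := by ring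
    rw [e2]
    linarith

end main

end Pool.Agent.R508.BR
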