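import Mathlib
import Pool.Agent.R508.BR5

set_option autoImplicit false

/-! Completeness of the family (helper508, MP_1ebdda_an). -/

open Filter Topology MeasureTheory Set

namespace Pool.Agent.R508.BR

theorem four_uniq (a T w : ℝ) (hT : 0 < T) (hw : w * T = 2 * Real.pi) (Φ : ℝ → ℂ)
    (hΦ : MemLp Φ 2 (volume.restrict (Ioc a (a + T))))
    (hc : ∀ n : ℕ, ∫ x in a..(a + T), ((Real.cos ((n : ℝ) * w * x) : ℝ) : ℂ) * Φ x = 0)
    (hs : ∀ n : ℕ, ∫ x in a..(a + T), ((Real.sin ((n : ℝ) * w * x) : ℝ) : ℂ) * Φ x = 0) :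
    ∀ᵐ x ∂(volume.restrict (Ioc a (a + T))), Φ x = 0 := by
  have hab : a < a + T := by linarith
  have hint : IntervalIntegrable Φ volume a (a + T) := by
    rw [intervalIntegrable_iff_integrableOn_Ioc_of_le hab.le]
    exact hΦ.integrable (by norm_num)
  have hcoef : ∀ n : ℤ, fourierCoeffOn hab Φ n = 0 := by
    intro n
    rw [fourierCoeffOn_eq_integral]
    have h1 : ∀ x : ℝ, (fourier (-n) (x : AddCircle (a + T - a)) : ℂ) • Φ x
        = ((Real.cos ((n.natAbs : ℝ) * w * x) : ℝ) : ℂ) * Φ x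
          - ((n.sign : ℂ) * Complex.I) * (((Real.sin ((n.natAbs : ℝ) * w * x) : ℝ) : ℂ) * Φ x) := by
      intro x
      rw [fourier_coe_apply, smul_eq_mul]
      have h2 : (2 * (Real.pi : ℂ) * Complex.I * ((-n : ℤ) : ℂ) * (x : ℂ) / ((a + T - a : ℝ) : ℂ))
          = ((-((n : ℝ) * w * x) : ℝ) : ℂ) * Complex.I := by
        have hT' : (T : ℂ) ≠ 0 := by exact_mod_cast hT.ne'
        have h3 : (2 * Real.pi : ℂ) = (w : ℂ) * T := by
          have := congrArg (fun z : ℝ => (z : ℂ)) hw
          push_cast at this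
          exact this.symm
        have h4 : (a + T - a : ℝ) = T := by ring
        rw [h4]
        have h5 : (2 * (Real.pi : ℂ) * Complex.I * ((-n : ℤ) : ℂ) * (x : ℂ) / (T : ℂ))
          = (2 * Real.pi : ℂ) * (Complex.I * ((-n : ℤ) : ℂ) * (x : ℂ)) / (T : ℂ) := by ring
        rw [h5, h3]
        push_cast
        field_simp
      rw [h2, Complex.exp_mul_I, ← Complex.ofReal_cos, ← Complex.ofReal_sin, Real.cos_neg,
        Real.sin_neg]
      rcases lt_trichotomy n 0 with hn | hn | hn
      · have e1 : (n.natAbs : ℝ) = -(n : ℝ) := by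
          rw [Nat.cast_natAbs, abs_of_neg hn]; push_cast; ring
        have e2 : (n : ℝ) * w * x = -((n.natAbs : ℝ) * w * x) := by rw [e1]; ring
        rw [e2, Real.cos_neg, Real.sin_neg, Int.sign_eq_neg_one_of_neg hn]
        push_cast
        ring
      · subst hn
        simp
      · have e1 : (n.natAbs : ℝ) = (n : ℝ) := by
          rw [Nat.cast_natAbs, abs_of_pos hn]
        rw [← e1, Int.sign_eq_one_of_pos hn]
        push_cast
        ring
    simp only [h1]
    rw [intervalIntegral.integral_sub, intervalIntegral.integral_const_mul, hc, hs]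
    · simp
    · exact hint.continuousOn_mul (Complex.continuous_ofReal.comp (by fun_prop)).continuousOn
    · exact (hint.continuousOn_mul
        (Complex.continuous_ofReal.comp (by fun_prop)).continuousOn).const_mul _
  have hsum := hasSum_sq_fourierCoeffOn hab hΦ
  simp only [hcoef, norm_zero, ne_eq, OfNat.ofNat_ne_zero, not_false_eq_true, zero_pow] at hsum
  have h0 := hsum.unique hasSum_zero
  have h1 : ∫ x in a..(a + T), ‖Φ x‖ ^ 2 = 0 := by
    have h2 : (a + T - a)⁻¹ ≠ 0 := inv_ne_zero (by simpa using hT.ne')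
    exact (smul_eq_zero.1 h0).resolve_left h2
  rw [intervalIntegral.integral_of_le hab.le] at h1
  rw [integral_eq_zero_iff_of_nonneg (fun x => by positivity)] at h1
  · filter_upwards [h1] with x hx
    have : ‖Φ x‖ ^ 2 = 0 := hx
    exact norm_eq_zero.1 (pow_eq_zero_iff two_ne_zero |>.1 this)
  · exact hΦ.integrable_norm_pow (by norm_num)

theorem int_split' (G : ℝ → ℂ) (hG : ∀ a b, IntervalIntegrable G volume a b) (a T : ℝ) (n : ℕ) :
    ∫ x in a..(a + n * T), G x = ∫ x in a..(a + T), ∑ k ∈ Finset.range n, G (x + k * T) := by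
  rw [intervalIntegral.integral_finsetSum]
  · have h1 : ∀ k ∈ Finset.range n, ∫ x in a..(a + T), G (x + k * T)
        = ∫ x in (fun k : ℕ => a + k * T) k..(fun k : ℕ => a + k * T) (k + 1), G x := by
      intro k _
      rw [intervalIntegral.integral_comp_add_right]
      congr 1
      push_cast; ring
    rw [Finset.sum_congr rfl h1, intervalIntegral.sum_integral_adjacent_intervals]
    · simp
    · intro k _
      exact hG _ _
  · intro k _
    have := (hG (a + k * T) (a + T + k * T)).comp_add_right (k * T)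
    simpa using this

section main

variable (u v : ℕ) (hu : 0 < u) (hv : 0 < v)

theorem ii_of_memLp (F : ℝ → ℂ) (hF : MemLp F 2 volume) (a b : ℝ) :
    IntervalIntegrable F volume a b := by
  rw [intervalIntegrable_iff]
  haveI : IsFiniteMeasure (volume.restrict (uIoc a b)) :=
    ⟨by rw [Measure.restrict_apply_univ]; exact measure_Ioc_lt_top⟩
  exact (hF.restrict _).integrable (by norm_num)

include hu in
theorem periodize (F : ℝ → ℂ) (hF : MemLp F 2 volume) (hsupp : ∀ x, Real.pi / 2 < x → F x = 0)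
    (n : ℕ) (hn : 0 < n) (w : ℝ) (hw : w * (n * dl u v) = 2 * Real.pi)
    (hc : ∀ j : ℕ, ∫ x in x0..(Real.pi / 2), ((Real.cos ((j : ℝ) * w * x) : ℝ) : ℂ) * F x = 0)
    (hs : ∀ j : ℕ, ∫ x in x0..(Real.pi / 2), ((Real.sin ((j : ℝ) * w * x) : ℝ) : ℂ) * F x = 0)
    (r : ℕ) (hr : r < n) :
    ∀ᵐ y : ℝ, y ∈ Ioc 0 (dl u v) →
      ∑ s ∈ (Finset.range (u + v)).filter (fun s => s % n = r), F (x0 + s * dl u v + y) = 0 := by
  have hd := dl_pos u v hu
  set T : ℝ := n * dl u v with hT
  have hn' : (1 : ℝ) ≤ n := by exact_mod_cast hn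
  have hT0 : 0 < T := by positivity
  have hx := x0_add u v hu
  have hND : ∀ s : ℕ, u + v ≤ s → ∀ y : ℝ, 0 < y → F (x0 + s * dl u v + y) = 0 := by
    intro s hs y hy
    apply hsupp
    rw [← hx]
    have : ((u + v : ℕ) : ℝ) ≤ s := by exact_mod_cast hs
    nlinarith
  have key : ∀ g : ℝ → ℝ, Continuous g → Function.Periodic g T →
      (∫ x in x0..(Real.pi / 2), ((g x : ℝ) : ℂ) * F x = 0) →
      ∫ x in x0..(x0 + T), ((g x : ℝ) : ℂ) * ∑ k ∈ Finset.range (u + v), F (x + k * T) = 0 := by
    intro g hg hgp h0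
    have h1 : ∀ a b, IntervalIntegrable (fun x => ((g x : ℝ) : ℂ) * F x) volume a b := fun a b =>
      (ii_of_memLp F hF a b).continuousOn_mul (Complex.continuous_ofReal.comp hg).continuousOn
    have h2 := int_split' (fun x => ((g x : ℝ) : ℂ) * F x) h1 x0 T (u + v)
    have h3 : ∀ x, ∑ k ∈ Finset.range (u + v), ((g (x + k * T) : ℝ) : ℂ) * F (x + k * T)
        = ((g x : ℝ) : ℂ) * ∑ k ∈ Finset.range (u + v), F (x + k * T) := by
      intro x
      rw [Finset.mul_sum]
      refine Finset.sum_congr rfl fun k _ => ?_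
      rw [hgp.nat_mul k x]
    simp only [h3] at h2
    rw [← h2]
    have h4 : ∫ x in (Real.pi / 2)..(x0 + ((u + v : ℕ) : ℝ) * T), ((g x : ℝ) : ℂ) * F x = 0 := by
      have h5 : Real.pi / 2 ≤ x0 + ((u + v : ℕ) : ℝ) * T := by
        rw [← hx, hT]
        have h6 : ((u + v : ℕ) : ℝ) * dl u v ≤ ((u + v : ℕ) : ℝ) * (n * dl u v) := by
          apply mul_le_mul_of_nonneg_left _ (by positivity)
          nlinarith
        linarith
      rw [intervalIntegral.integral_of_le h5]
      apply setIntegral_eq_zero_of_forall_eq_zero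
      intro x hx
      rw [hsupp x hx.1, mul_zero]
    have h7 := intervalIntegral.integral_add_adjacent_intervals (h1 x0 (Real.pi / 2))
      (h1 (Real.pi / 2) (x0 + ((u + v : ℕ) : ℝ) * T))
    rw [h4, h0, add_zero] at h7
    exact h7.symm
  have hΦ : MemLp (fun x => ∑ k ∈ Finset.range (u + v), F (x + k * T)) 2 volume := by
    refine memLp_finsetSum _ fun k _ => ?_
    exact hF.comp_measurePreserving (measurePreserving_add_right volume _)
  have hu1 := four_uniq x0 T w hT0 hw _ (hΦ.restrict _)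
    (fun j => key (fun x => Real.cos ((j : ℝ) * w * x)) (by fun_prop) (by
      intro x
      have : (j : ℝ) * w * (x + T) = (j : ℝ) * w * x + (j : ℕ) * (2 * Real.pi) := by
        rw [← hw]; ring
      show Real.cos ((j : ℝ) * w * (x + T)) = _
      rw [this, Real.cos_add_nat_mul_two_pi]) (hc j))
    (fun j => key (fun x => Real.sin ((j : ℝ) * w * x)) (by fun_prop) (by
      intro x
      have : (j : ℝ) * w * (x + T) = (j : ℝ) * w * x + (j : ℕ) * (2 * Real.pi) := by
        rw [← hw]; ring
      show Real.sin ((j : ℝ) * w * (x + T)) = _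
      rw [this, Real.sin_add_nat_mul_two_pi]) (hs j))
  rw [ae_restrict_iff' measurableSet_Ioc] at hu1
  have hu2 : ∀ᵐ y : ℝ, (x0 + r * dl u v) + y ∈ Ioc x0 (x0 + T) →
      ∑ k ∈ Finset.range (u + v), F ((x0 + r * dl u v) + y + k * T) = 0 :=
    (measurePreserving_add_left volume (x0 + r * dl u v)).quasiMeasurePreserving.ae hu1
  filter_upwards [hu2] with y hy hy0
  have h1 : (x0 + r * dl u v) + y ∈ Ioc x0 (x0 + T) := by
    have h2 : (r : ℝ) + 1 ≤ n := by exact_mod_cast hr
    have h3 : (0 : ℝ) ≤ r := by positivity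
    constructor
    · nlinarith [hy0.1]
    · rw [hT]
      nlinarith [hy0.2]
  have h2 := hy h1
  rw [← h2]
  have h3 : ∀ k ∈ Finset.range (u + v), F ((x0 + r * dl u v) + y + k * T)
      = if r + k * n < u + v then F (x0 + ((r + k * n : ℕ) : ℝ) * dl u v + y) else 0 := by
    intro k _
    have e1 : (x0 + r * dl u v) + y + k * T = x0 + ((r + k * n : ℕ) : ℝ) * dl u v + y := by
      rw [hT]; push_cast; ring
    rw [e1]
    split_ifs with h
    · rfl
    · exact hND _ (by omega) y hy0.1
  rw [Finset.sum_congr rfl h3, ← Finset.sum_filter]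
  symm
  refine Finset.sum_nbij' (fun k => r + k * n) (fun s => s / n) ?_ ?_ ?_ ?_ ?_
  · intro k hk
    rw [Finset.mem_filter] at hk ⊢
    refine ⟨Finset.mem_range.2 hk.2, ?_⟩
    show (r + k * n) % n = r
    rw [Nat.add_mul_mod_self_right, Nat.mod_eq_of_lt hr]
  · intro s hs
    rw [Finset.mem_filter, Finset.mem_range] at hs ⊢
    have h4 := Nat.div_add_mod s n
    have h5 : s / n ≤ s := Nat.div_le_self _ _
    rw [hs.2] at h4
    refine ⟨by omega, ?_⟩
    rw [mul_comm (s / n) n]
    omega
  · intro k _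
    show (r + k * n) / n = k
    rw [Nat.add_mul_div_right _ _ hn, Nat.div_eq_of_lt hr, zero_add]
  · intro s hs
    rw [Finset.mem_filter, Finset.mem_range] at hs
    have h4 := Nat.div_add_mod s n
    rw [hs.2] at h4
    show r + s / n * n = s
    rw [mul_comm (s / n) n]
    omega
  · intro k _
    rfl

end main

end Pool.Agent.R508.BR
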