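import Mathlib
import Pool.Agent.R508.BR6

set_option autoImplicit false

/-! Completeness of the family, end (helper508, MP_1ebdda_an). -/

open Filter Topology MeasureTheory Set

namespace Pool.Agent.R508.BR

section main

variable (u v : ℕ) (hu : 0 < u) (hv : 0 < v)

/-- moments -/
noncomputable def mom (f : ℝ → ℂ) (g : ℝ → ℝ) : ℂ :=
  ∫ x in x0..(Real.pi / 2), ((g x : ℝ) : ℂ) * f x

theorem ii_mul (f : ℝ → ℂ) (hf : MemLp f 2 volume) (g : ℝ → ℝ) (hg : Continuous g) (a b : ℝ) :
    IntervalIntegrable (fun x => ((g x : ℝ) : ℂ) * f x) volume a b :=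
  (ii_of_memLp f hf a b).continuousOn_mul (Complex.continuous_ofReal.comp hg).continuousOn

theorem mom_neg (f : ℝ → ℂ) (g : ℝ → ℝ) :
    mom (fun x => f (-x)) g = mom f (fun x => g (-x)) := by
  unfold mom
  have := intervalIntegral.integral_comp_neg (a := x0) (b := Real.pi / 2)
    (fun x => ((g (-x) : ℝ) : ℂ) * f x)
  simp only [neg_neg] at this
  rw [this]
  congr 1
  unfold x0; ring

theorem memLp_neg (f : ℝ → ℂ) (hf : MemLp f 2 volume) : MemLp (fun x => f (-x)) 2 volume :=
  hf.comp_measurePreserving (Measure.measurePreserving_neg volume)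

theorem mom_sym (f : ℝ → ℂ) (hf : MemLp f 2 volume) (g : ℝ → ℝ) (hg : Continuous g) :
    mom (fun x => f x + f (-x)) g = mom f g + mom f (fun x => g (-x)) := by
  rw [← mom_neg]
  unfold mom
  rw [← intervalIntegral.integral_add (ii_mul f hf g hg _ _)
    (ii_mul _ (memLp_neg f hf) g hg _ _)]
  congr 1
  funext x
  ring

theorem mom_even (f : ℝ → ℂ) (hf : MemLp f 2 volume) (g : ℝ → ℝ) (hg : Continuous g)
    (he : ∀ x, g (-x) = g x) : mom (fun x => f x + f (-x)) g = 2 * mom f g := by
  rw [mom_sym f hf g hg]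
  have : (fun x => g (-x)) = g := funext he
  rw [this]; ring

theorem mom_odd (f : ℝ → ℂ) (hf : MemLp f 2 volume) (g : ℝ → ℝ) (hg : Continuous g)
    (he : ∀ x, g (-x) = -g x) : mom (fun x => f x + f (-x)) g = 0 := by
  rw [mom_sym f hf g hg]
  have h1 : (fun x => g (-x)) = fun x => -g x := funext he
  rw [h1]
  unfold mom
  have h2 : (fun x => ((-g x : ℝ) : ℂ) * f x) = fun x => -(((g x : ℝ) : ℂ) * f x) := by
    funext x; push_cast; ring
  rw [h2, intervalIntegral.integral_neg]
  ring

include hu hv in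
theorem complete (hcop : u.Coprime v) (f : ℝ → ℂ) (hf : MemLp f 2 volume)
    (hsupp : ∀ x, x ∉ Ioc x0 (Real.pi / 2) → f x = 0)
    (horth : ∀ i : II v, mom f (FF u v i) = 0) : ∀ᵐ x, f x = 0 := by
  have hd := dl_pos u v hu
  have hpi := Real.pi_pos
  have hu' : (1 : ℝ) ≤ u := by exact_mod_cast hu
  have hv' : (1 : ℝ) ≤ v := by exact_mod_cast hv
  set F : ℝ → ℂ := fun x => f x + f (-x) with hF
  have hFm : MemLp F 2 volume := hf.add (memLp_neg f hf)
  have hFs : ∀ x, Real.pi / 2 < x → F x = 0 := by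
    intro x hx
    simp only [hF]
    rw [hsupp x (fun h => absurd h.2 (not_le.2 hx)), hsupp (-x) (fun h => by
      have := h.1
      unfold x0 at this
      linarith), add_zero]
  have hFs' : ∀ x, x < x0 → F x = 0 := by
    intro x hx
    have := hFs (-x) (by unfold x0 at hx; linarith)
    simp only [hF, neg_neg] at this ⊢
    rw [add_comm]; exact this
  have hGm : MemLp (fun x : ℝ => (x : ℂ) * F x) 2 volume := by
    refine MemLp.of_le_mul (c := Real.pi / 2) hFm
      (Complex.continuous_ofReal.aestronglyMeasurable.mul hFm.aestronglyMeasurable) ?_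
    refine Eventually.of_forall fun x => ?_
    rw [norm_mul, Complex.norm_real, Real.norm_eq_abs]
    by_cases h1 : Real.pi / 2 < x
    · rw [hFs x h1]; simp
    · by_cases h2 : x < x0
      · rw [hFs' x h2]; simp
      · apply mul_le_mul_of_nonneg_right _ (norm_nonneg _)
        rw [abs_le]
        push Not at h1 h2
        unfold x0 at h2
        exact ⟨by linarith, h1⟩
  -- moments
  have hc1 : ∀ j : ℕ, ∫ x in x0..(Real.pi / 2), ((Real.cos ((j : ℝ) * w1 u v * x) : ℝ) : ℂ) * F x = 0 := by
    intro j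
    have h := mom_even f hf (fun x => Real.cos ((j : ℝ) * w1 u v * x)) (by fun_prop)
      (fun x => by simp only [mul_neg, Real.cos_neg])
    have h2 : mom f (fun x => Real.cos ((j : ℝ) * w1 u v * x)) = 0 := horth (Sum.inl j)
    rw [h2, mul_zero] at h
    exact h
  have hs1 : ∀ (w : ℝ) (j : ℕ), ∫ x in x0..(Real.pi / 2), ((Real.sin ((j : ℝ) * w * x) : ℝ) : ℂ) * F x = 0 := by
    intro w j
    exact mom_odd f hf (fun x => Real.sin ((j : ℝ) * w * x)) (by fun_prop)
      (fun x => by simp only [mul_neg, Real.sin_neg])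
  have hc2 : ∀ j : ℕ, ∫ x in x0..(Real.pi / 2), ((Real.cos ((j : ℝ) * w2 u v * x) : ℝ) : ℂ) * F x = 0 := by
    intro j
    by_cases hj : v ∣ j
    · obtain ⟨l, rfl⟩ := hj
      have h2 : ∀ x, ((v * l : ℕ) : ℝ) * w2 u v * x = ((u * l : ℕ) : ℝ) * w1 u v * x := by
        intro x
        unfold w1 w2
        push_cast
        field_simp
      simp only [h2]
      exact hc1 (u * l)
    · have h := mom_even f hf (fun x => Real.cos ((j : ℝ) * w2 u v * x)) (by fun_prop)
        (fun x => by simp only [mul_neg, Real.cos_neg])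
      have h2 : mom f (fun x => Real.cos ((j : ℝ) * w2 u v * x)) = 0 :=
        horth (Sum.inr (Sum.inl ⟨j, hj⟩))
      rw [h2, mul_zero] at h
      exact h
  have hc3 : ∀ j : ℕ, ∫ x in x0..(Real.pi / 2),
      ((Real.cos ((j : ℝ) * w3 u v * x) : ℝ) : ℂ) * ((x : ℂ) * F x) = 0 := by
    intro j
    have h := mom_odd f hf (fun x => x * Real.cos ((j : ℝ) * w3 u v * x)) (by fun_prop)
      (fun x => by simp only [mul_neg, Real.cos_neg, neg_mul])
    rw [← h]
    unfold mom
    congr 1
    funext x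
    push_cast
    ring
  have hs3 : ∀ j : ℕ, ∫ x in x0..(Real.pi / 2),
      ((Real.sin ((j : ℝ) * w3 u v * x) : ℝ) : ℂ) * ((x : ℂ) * F x) = 0 := by
    intro j
    rcases j with _ | j
    · simp
    · have h := mom_even f hf (fun x => x * Real.sin ((sc j : ℝ) * w3 u v * x)) (by fun_prop)
        (fun x => by simp only [mul_neg, Real.sin_neg, neg_mul, neg_neg])
      have h2 : mom f (fun x => x * Real.sin ((sc j : ℝ) * w3 u v * x)) = 0 :=
        horth (Sum.inr (Sum.inr (Sum.inl j)))
      rw [h2, mul_zero] at h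
      rw [← h]
      unfold mom
      congr 1
      funext x
      have : ((j + 1 : ℕ) : ℝ) = (sc j : ℝ) := rfl
      rw [this]
      push_cast
      ring
  have P1 : ∀ r : ℕ, ∀ᵐ y : ℝ, r < u → y ∈ Ioc 0 (dl u v) →
      ∑ s ∈ (Finset.range (u + v)).filter (fun s => s % u = r), F (x0 + s * dl u v + y) = 0 := by
    intro r
    by_cases hr : r < u
    · filter_upwards [periodize u v hu F hFm hFs u hu (w1 u v) (w1_T u v hu) hc1 (hs1 _) r hr]
        with y hy _
      exact hy
    · exact Eventually.of_forall fun y h => absurd h hr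
  have P2 : ∀ r : ℕ, ∀ᵐ y : ℝ, r < v → y ∈ Ioc 0 (dl u v) →
      ∑ s ∈ (Finset.range (u + v)).filter (fun s => s % v = r), F (x0 + s * dl u v + y) = 0 := by
    intro r
    by_cases hr : r < v
    · filter_upwards [periodize u v hu F hFm hFs v hv (w2 u v) (w2_T u v hv) hc2 (hs1 _) r hr]
        with y hy _
      exact hy
    · exact Eventually.of_forall fun y h => absurd h hr
  have P3 := periodize u v hu (fun x : ℝ => (x : ℂ) * F x) hGm
    (fun x hx => by show (x : ℂ) * F x = 0; rw [hFs x hx, mul_zero]) 1 one_pos (w3 u v)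
    (w3_T u v hu) hc3 hs3 0 one_pos
  have P4 : ∀ᵐ y : ℝ, y ∈ Ioc 0 (dl u v) → ∀ s < u + v, F (x0 + s * dl u v + y) = 0 := by
    filter_upwards [ae_all_iff.2 P1, ae_all_iff.2 P2, P3] with y h1 h2 h3 hy
    have h3' := h3 hy
    have hfil : (Finset.range (u + v)).filter (fun s => s % 1 = 0) = Finset.range (u + v) := by
      refine Finset.filter_true_of_mem fun s _ => Nat.mod_one s
    rw [hfil] at h3'
    refine LL_dual u v hu hv hcop (fun s => F (x0 + s * dl u v + y))
      (fun r hr => h1 r hr hy) (fun r hr => h2 r hr hy) ?_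
    have h4 : ∑ s ∈ Finset.range (u + v), F (x0 + s * dl u v + y) = 0 := by
      rw [← Finset.sum_fiberwise_of_maps_to (g := fun s => s % u) (t := Finset.range u)
        (fun s _ => Finset.mem_range.2 (Nat.mod_lt _ hu))]
      exact Finset.sum_eq_zero fun r hr => h1 r (Finset.mem_range.1 hr) hy
    have h5 : ∑ s ∈ Finset.range (u + v), ((x0 + s * dl u v + y : ℝ) : ℂ) * F (x0 + s * dl u v + y)
        = ((x0 + y : ℝ) : ℂ) * ∑ s ∈ Finset.range (u + v), F (x0 + s * dl u v + y)
          + (dl u v : ℂ) * ∑ s ∈ Finset.range (u + v), (s : ℂ) * F (x0 + s * dl u v + y) := by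
      rw [Finset.mul_sum, Finset.mul_sum, ← Finset.sum_add_distrib]
      refine Finset.sum_congr rfl fun s _ => ?_
      push_cast
      ring
    rw [h5, h4, mul_zero, zero_add] at h3'
    have h6 : (dl u v : ℂ) ≠ 0 := by exact_mod_cast hd.ne'
    exact (mul_eq_zero.1 h3').resolve_left h6
  have P5 : ∀ᵐ x : ℝ, x ∈ Ioc x0 (Real.pi / 2) → F x = 0 := by
    have h1 : ∀ s : ℕ, ∀ᵐ x : ℝ, -(x0 + s * dl u v) + x ∈ Ioc 0 (dl u v) →
        ∀ t < u + v, F (x0 + t * dl u v + (-(x0 + s * dl u v) + x)) = 0 := fun s =>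
      (measurePreserving_add_left volume (-(x0 + s * dl u v))).quasiMeasurePreserving.ae P4
    filter_upwards [ae_all_iff.2 h1] with x hx hxI
    set z := (x - x0) / dl u v with hz
    have hz0 : 0 < z := div_pos (by linarith [hxI.1]) hd
    have hzx : x = x0 + z * dl u v := by rw [hz]; field_simp; ring
    have hz1 : z ≤ ((u + v : ℕ) : ℝ) := by
      rw [hz, div_le_iff₀ hd]
      have := x0_add u v hu
      linarith [hxI.2]
    have hc0 : 0 < ⌈z⌉₊ := Nat.ceil_pos.2 hz0
    obtain ⟨s, hs⟩ : ∃ s, ⌈z⌉₊ = s + 1 := ⟨⌈z⌉₊ - 1, by omega⟩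
    have h2 : z ≤ (s : ℝ) + 1 := by
      have := Nat.le_ceil z
      rw [hs] at this
      exact_mod_cast this
    have h3 : (s : ℝ) < z := by
      have : s < ⌈z⌉₊ := by omega
      exact Nat.lt_ceil.1 this
    have h4 : s < u + v := by
      have : (s : ℝ) < ((u + v : ℕ) : ℝ) := lt_of_lt_of_le h3 hz1
      exact_mod_cast this
    have h5 := hx s ⟨by rw [hzx]; nlinarith, by rw [hzx]; nlinarith⟩ s h4
    have h6 : x0 + s * dl u v + (-(x0 + s * dl u v) + x) = x := by ring
    rw [h6] at h5
    exact h5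
  have hmF : ∀ g : ℝ → ℝ, mom F g = 0 := by
    intro g
    unfold mom
    rw [intervalIntegral.integral_of_le x0_le]
    apply integral_eq_zero_of_ae
    rw [EventuallyEq, ae_restrict_iff' measurableSet_Ioc]
    filter_upwards [P5] with x hx hxI
    rw [hx hxI]; simp
  have hcc : ∀ j : ℕ, mom f (fun x => Real.cos ((j : ℝ) * 2 * x)) = 0 := by
    intro j
    have h := mom_even f hf (fun x => Real.cos ((j : ℝ) * 2 * x)) (by fun_prop)
      (fun x => by simp only [mul_neg, Real.cos_neg])
    have h2 := hmF (fun x => Real.cos ((j : ℝ) * 2 * x))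
    rw [h2] at h
    have h3 := h.symm
    exact (mul_eq_zero.1 h3).resolve_left two_ne_zero
  have hss : ∀ j : ℕ, mom f (fun x => Real.sin ((j : ℝ) * 2 * x)) = 0 := by
    intro j
    rcases j with _ | j
    · unfold mom; simp
    · have h1 : mom f (fun x => Real.sin ((sc j : ℝ) * 2 * x)
        + cc u v (sc j) * Real.cos ((sc j : ℝ) * 2 * x)) = 0 := horth (Sum.inr (Sum.inr (Sum.inr j)))
      have h2 : mom f (fun x => Real.sin ((sc j : ℝ) * 2 * x)
          + cc u v (sc j) * Real.cos ((sc j : ℝ) * 2 * x))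
          = mom f (fun x => Real.sin ((sc j : ℝ) * 2 * x))
            + (cc u v (sc j) : ℂ) * mom f (fun x => Real.cos ((sc j : ℝ) * 2 * x)) := by
        unfold mom
        rw [← intervalIntegral.integral_const_mul, ← intervalIntegral.integral_add]
        · congr 1
          funext x
          push_cast
          ring
        · exact ii_mul f hf _ (by fun_prop) _ _
        · exact (ii_mul f hf _ (by fun_prop) _ _).const_mul _
      rw [h2, hcc, mul_zero, add_zero] at h1
      exact h1
  have hfin := four_uniq x0 Real.pi 2 hpi rfl f (hf.restrict _)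
    (fun n => by rw [x0_pi]; exact hcc n) (fun n => by rw [x0_pi]; exact hss n)
  rw [x0_pi, ae_restrict_iff' measurableSet_Ioc] at hfin
  filter_upwards [hfin] with x hx
  by_cases h : x ∈ Ioc x0 (Real.pi / 2)
  · exact hx h
  · exact hsupp x h

end main

end Pool.Agent.R508.BR
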