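import Mathlib
import Pool.Agent.R508.BR1
import Pool.Agent.R508.BR7

set_option autoImplicit false

/-! The family is a Schauder basis (helper508, MP_1ebdda_an). -/

open Filter Topology MeasureTheory Set

namespace Pool.Agent.R508.BR

/-- Lebesgue measure on the interval -/
noncomputable abbrev mu : Measure ℝ := volume.restrict (Ioc x0 (Real.pi / 2))

/-- the Hilbert space -/
abbrev HH : Type := Lp ℂ 2 mu

theorem memLp_cont (F : ℝ → ℂ) (hF : Continuous F) : MemLp F 2 mu := by
  obtain ⟨C, hC⟩ := (isCompact_Icc (a := x0) (b := Real.pi / 2)).exists_bound_of_continuousOn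
    hF.continuousOn
  refine MemLp.of_bound hF.aestronglyMeasurable C ?_
  rw [ae_restrict_iff' measurableSet_Ioc]
  exact Eventually.of_forall fun x hx => hC x (Ioc_subset_Icc_self hx)

/-- the element given by a continuous function -/
noncomputable def el (F : ℝ → ℂ) (hF : Continuous F) : HH := (memLp_cont F hF).toLp F

theorem el_coe (F : ℝ → ℂ) (hF : Continuous F) : el F hF =ᵐ[mu] F := (memLp_cont F hF).coeFn_toLp

theorem el_norm (F : ℝ → ℂ) (hF : Continuous F) :
    ‖el F hF‖ ^ 2 = ∫ x in x0..(Real.pi / 2), ‖F x‖ ^ 2 := by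
  rw [intervalIntegral.integral_of_le x0_le]
  have h1 : ‖el F hF‖ ^ 2 = (inner ℂ (el F hF) (el F hF) : ℂ).re := by
    rw [inner_self_eq_norm_sq_to_K]
    norm_cast
  rw [h1, L2.inner_def]
  have h2 : ∀ᵐ x ∂mu, inner ℂ ((el F hF : HH) x) ((el F hF : HH) x) = ((‖F x‖ ^ 2 : ℝ) : ℂ) := by
    filter_upwards [el_coe F hF] with x hx
    rw [hx, inner_self_eq_norm_sq_to_K]
    norm_cast
  rw [integral_congr_ae h2]
  have h3 : ∫ a, ((‖F a‖ ^ 2 : ℝ) : ℂ) ∂mu = ((∫ a, ‖F a‖ ^ 2 ∂mu : ℝ) : ℂ) := integral_ofReal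
  rw [h3, Complex.ofReal_re]

theorem el_add (F G : ℝ → ℂ) (hF : Continuous F) (hG : Continuous G) :
    el (fun x => F x + G x) (hF.add hG) = el F hF + el G hG := by
  apply Lp.ext
  filter_upwards [el_coe F hF, el_coe G hG, el_coe (fun x => F x + G x) (hF.add hG),
    Lp.coeFn_add (el F hF) (el G hG)]
    with x h1 h2 h3 h4
  rw [h3, h4, Pi.add_apply, h1, h2]

theorem el_smul (c : ℂ) (F : ℝ → ℂ) (hF : Continuous F) :
    el (fun x => c * F x) (continuous_const.mul hF) = c • el F hF := by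
  apply Lp.ext
  filter_upwards [el_coe F hF, el_coe (fun x => c * F x) (continuous_const.mul hF),
    Lp.coeFn_smul c (el F hF)]
    with x h1 h3 h4
  rw [h3, h4, Pi.smul_apply, h1, smul_eq_mul]

theorem el_congr (F G : ℝ → ℂ) (hF : Continuous F) (hG : Continuous G) (h : ∀ x, F x = G x) :
    el F hF = el G hG := by
  have : F = G := funext h
  subst this
  rfl

section main

variable (u v : ℕ) (hu : 0 < u) (hv : 0 < v)

theorem FFc_cont (i : II v) : Continuous fun x => ((FF u v i x : ℝ) : ℂ) :=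
  Complex.continuous_ofReal.comp (FF_cont u v i)

/-- the vectors of the family -/
noncomputable def vec (i : II v) : HH := el (fun x => ((FF u v i x : ℝ) : ℂ)) (FFc_cont u v i)

theorem sum_cont (s : Finset (II v)) (a : II v → ℂ) :
    Continuous fun x => ∑ i ∈ s, a i * ((FF u v i x : ℝ) : ℂ) :=
  continuous_finsetSum _ fun i _ => continuous_const.mul (FFc_cont u v i)

theorem el_sum (s : Finset (II v)) (a : II v → ℂ) :
    el (fun x => ∑ i ∈ s, a i * ((FF u v i x : ℝ) : ℂ)) (sum_cont u v s a)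
      = ∑ i ∈ s, a i • vec u v i := by
  classical
  induction s using Finset.induction_on with
  | empty =>
    rw [Finset.sum_empty]
    apply Lp.ext
    filter_upwards [el_coe _ (sum_cont u v ∅ a), Lp.coeFn_zero ℂ 2 mu] with x h1 h2
    rw [h1, h2]
    simp
  | insert i s his ih =>
    rw [Finset.sum_insert his, ← ih]
    have h1 := el_add (fun x => a i * ((FF u v i x : ℝ) : ℂ))
      (fun x => ∑ i ∈ s, a i * ((FF u v i x : ℝ) : ℂ)) (continuous_const.mul (FFc_cont u v i))
      (sum_cont u v s a)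
    have h2 := el_smul (a i) (fun x => ((FF u v i x : ℝ) : ℂ)) (FFc_cont u v i)
    rw [h2] at h1
    show _ = a i • el (fun x => ((FF u v i x : ℝ) : ℂ)) (FFc_cont u v i) + _
    rw [← h1]
    refine el_congr _ _ _ _ fun x => ?_
    rw [Finset.sum_insert his]

include hu hv in
theorem vec_bounds (hcop : u.Coprime v) : ∃ c C : ℝ, 0 < c ∧ 0 ≤ C ∧
    ∀ (s : Finset (II v)) (a : II v → ℂ),
    c * ∑ i ∈ s, ‖a i‖ ^ 2 ≤ ‖∑ i ∈ s, a i • vec u v i‖ ^ 2 ∧
    ‖∑ i ∈ s, a i • vec u v i‖ ^ 2 ≤ C * ∑ i ∈ s, ‖a i‖ ^ 2 := by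
  obtain ⟨c, C, hc, hC, h⟩ := fam_bounds u v hu hv hcop
  refine ⟨c, C, hc, hC, fun s a => ?_⟩
  rw [← el_sum, el_norm]
  exact h s a

include hu hv in
theorem vec_indep (hcop : u.Coprime v) : LinearIndependent ℂ (vec u v) := by
  obtain ⟨c, C, hc, hC, h⟩ := vec_bounds u v hu hv hcop
  rw [linearIndependent_iff']
  intro s a ha i hi
  have h1 := (h s a).1
  rw [ha, norm_zero] at h1
  have h2 : ‖a i‖ ^ 2 ≤ ∑ i ∈ s, ‖a i‖ ^ 2 :=
    Finset.single_le_sum (f := fun i => ‖a i‖ ^ 2) (fun _ _ => by positivity) hi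
  have h3 : ‖a i‖ ^ 2 ≤ 0 := by
    by_contra hne
    push Not at hne
    nlinarith [mul_pos hc hne]
  have h4 : ‖a i‖ = 0 := by
    have := norm_nonneg (a i)
    nlinarith
  exact norm_eq_zero.1 h4

include hu hv in
theorem vec_dense (hcop : u.Coprime v) :
    (Submodule.span ℂ (Set.range (vec u v))).topologicalClosure = ⊤ := by
  rw [Submodule.topologicalClosure_eq_top_iff, Submodule.eq_bot_iff]
  intro f hf
  rw [Submodule.mem_orthogonal] at hf
  have horth : ∀ i : II v, inner ℂ (vec u v i) f = 0 := fun i =>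
    hf _ (Submodule.subset_span ⟨i, rfl⟩)
  set f0 : ℝ → ℂ := (Ioc x0 (Real.pi / 2)).indicator (f : ℝ → ℂ) with hf0
  have hm : MemLp f0 2 volume := (memLp_indicator_iff_restrict measurableSet_Ioc).2 (Lp.memLp f)
  have hz := complete u v hu hv hcop f0 hm (fun x hx => Set.indicator_of_notMem hx _) (fun i => by
    unfold mom
    rw [intervalIntegral.integral_of_le x0_le]
    have h1 := horth i
    rw [L2.inner_def] at h1
    rw [← h1]
    apply integral_congr_ae
    have h2 : ∀ᵐ x ∂mu, f0 x = f x := by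
      rw [ae_restrict_iff' measurableSet_Ioc]
      exact Eventually.of_forall fun x hx => Set.indicator_of_mem hx _
    have h3 : ∀ᵐ x ∂mu, (vec u v i : HH) x = ((FF u v i x : ℝ) : ℂ) :=
      el_coe _ (FFc_cont u v i)
    filter_upwards [h2, h3] with x hx hx3
    rw [hx, hx3]
    simp [mul_comm])
  apply Lp.ext
  have h2 : ∀ᵐ x ∂mu, f0 x = f x := by
    rw [ae_restrict_iff' measurableSet_Ioc]
    exact Eventually.of_forall fun x hx => Set.indicator_of_mem hx _
  filter_upwards [ae_restrict_of_ae hz, h2, Lp.coeFn_zero ℂ 2 mu] with x h1 h2 h3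
  rw [h3, ← h2, h1]
  rfl

include hu hv in
theorem vec_basis (hcop : u.Coprime v) (e : ℕ ≃ II v) (f : HH) :
    ∃! c : ℕ → ℂ, Tendsto (fun N => ∑ j ∈ Finset.range N, c j • vec u v (e j)) atTop (𝓝 f) := by
  obtain ⟨c, C, hc, hC, h⟩ := vec_bounds u v hu hv hcop
  have hmap : ∀ (s : Finset ℕ) (a : ℕ → ℂ), ∑ i ∈ s.map e.toEmbedding, a (e.symm i) • vec u v i
      = ∑ i ∈ s, a i • vec u v (e i) := by
    intro s a
    rw [Finset.sum_map]
    simp
  have hmap2 : ∀ (s : Finset ℕ) (a : ℕ → ℂ), ∑ i ∈ s.map e.toEmbedding, ‖a (e.symm i)‖ ^ 2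
      = ∑ i ∈ s, ‖a i‖ ^ 2 := by
    intro s a
    rw [Finset.sum_map]
    simp
  refine schauder_of_riesz (fun n => vec u v (e n)) c C hc hC (fun s a => ?_) (fun s a => ?_) ?_ f
  · rw [← hmap, ← hmap2]
    exact (h _ _).1
  · rw [← hmap, ← hmap2]
    exact (h _ _).2
  · have : Set.range (fun n => vec u v (e n)) = Set.range (vec u v) :=
      e.surjective.range_comp (vec u v)
    rw [this]
    exact vec_dense u v hu hv hcop

end main

end Pool.Agent.R508.BR
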