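import Mathlib
import Pool.Agent.R508.BR8

set_option autoImplicit false

/-! The operator and its differential equation (helper508, MP_1ebdda_an). -/

open Filter Topology MeasureTheory Set

namespace Pool.Agent.R508.BR

/-- `f` is in the domain of `H` and `H f = g` -/
def IsH (a : ℝ) (f g : HH) : Prop := ∃ ψ dψ : ℝ → ℂ,
  (∀ x ∈ Icc (-(Real.pi / 2)) (Real.pi / 2),
    HasDerivWithinAt ψ (dψ x) (Icc (-(Real.pi / 2)) (Real.pi / 2)) x) ∧
  (∀ x ∈ Icc (-(Real.pi / 2)) (Real.pi / 2),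
    dψ x = dψ (-(Real.pi / 2)) - ∫ t in (-(Real.pi / 2))..x, g t) ∧
  f =ᵐ[mu] ψ ∧ ψ (-(Real.pi / 2)) = ψ (Real.pi / 2 * a) ∧ ψ (Real.pi / 2 * a) = ψ (Real.pi / 2)

/-- `f ∈ ker (H - z)^k` -/
def KerPow (a : ℝ) (z : ℂ) : ℕ → HH → Prop
  | 0, f => f = 0
  | k + 1, f => ∃ g, IsH a f g ∧ KerPow a z k (g - z • f)

theorem hh_ii (g : HH) (x : ℝ) (hx : x ∈ Icc x0 (Real.pi / 2)) :
    IntervalIntegrable (g : ℝ → ℂ) volume x0 x := by
  rw [intervalIntegrable_iff_integrableOn_Ioc_of_le hx.1]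
  have h1 : IntegrableOn (g : ℝ → ℂ) (Ioc x0 (Real.pi / 2)) volume := by
    have : IsFiniteMeasure mu := ⟨by rw [Measure.restrict_apply_univ]; exact measure_Ioc_lt_top⟩
    exact (Lp.memLp g).integrable (by norm_num)
  exact h1.mono_set (Ioc_subset_Ioc_right hx.2)

theorem int_congr_mu (g : HH) (G : ℝ → ℂ) (h : g =ᵐ[mu] G) (x : ℝ)
    (hx : x ∈ Icc x0 (Real.pi / 2)) : ∫ t in x0..x, g t = ∫ t in x0..x, G t := by
  rw [intervalIntegral.integral_of_le hx.1, intervalIntegral.integral_of_le hx.1]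
  apply integral_congr_ae
  exact ae_mono (Measure.restrict_mono (Ioc_subset_Ioc_right hx.2) le_rfl) h

/-- explicit functions are in the domain -/
theorem isH_of_smooth (a : ℝ) (F F' F'' : ℝ → ℂ) (hF : ∀ x, HasDerivAt F (F' x) x)
    (hF' : ∀ x, HasDerivAt F' (F'' x) x) (hF'' : Continuous F'')
    (hb1 : F (-(Real.pi / 2)) = F (Real.pi / 2 * a)) (hb2 : F (Real.pi / 2 * a) = F (Real.pi / 2))
    (f g : HH) (hf : f =ᵐ[mu] F) (hg : g =ᵐ[mu] fun x => -F'' x) : IsH a f g := by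
  refine ⟨F, F', fun x _ => (hF x).hasDerivWithinAt, fun x hx => ?_, hf, hb1, hb2⟩
  have h1 := int_congr_mu g (fun x => -F'' x) hg x hx
  have h2 : ∫ t in (-(Real.pi / 2))..x, g t = ∫ t in x0..x, g t := rfl
  rw [h2, h1, intervalIntegral.integral_neg,
    intervalIntegral.integral_eq_sub_of_hasDerivAt (fun t _ => hF' t) (hF''.intervalIntegrable _ _)]
  show F' x = F' x0 - -(F' x - F' x0)
  ring

theorem isH_add (a : ℝ) (f g f' g' : HH) (h : IsH a f g) (h' : IsH a f' g') :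
    IsH a (f + f') (g + g') := by
  obtain ⟨ψ, dψ, h1, h2, h3, h4, h5⟩ := h
  obtain ⟨ψ', dψ', h1', h2', h3', h4', h5'⟩ := h'
  refine ⟨fun x => ψ x + ψ' x, fun x => dψ x + dψ' x, fun x hx => (h1 x hx).add (h1' x hx),
    fun x hx => ?_, ?_, ?_, ?_⟩
  · have e1 := int_congr_mu (g + g') (fun t => g t + g' t) (Lp.coeFn_add g g') x hx
    have e3 : dψ x = dψ x0 - ∫ t in x0..x, g t := h2 x hx
    have e4 : dψ' x = dψ' x0 - ∫ t in x0..x, g' t := h2' x hx
    show dψ x + dψ' x = dψ x0 + dψ' x0 - ∫ t in x0..x, (g + g' : HH) t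
    rw [e1, intervalIntegral.integral_add (hh_ii g x hx) (hh_ii g' x hx), e3, e4]
    ring
  · filter_upwards [h3, h3', Lp.coeFn_add f f'] with x a1 a2 a3
    rw [a3, Pi.add_apply, a1, a2]
  · simp only [h4, h4']
  · simp only [h5, h5']

theorem isH_smul (a : ℝ) (c : ℂ) (f g : HH) (h : IsH a f g) : IsH a (c • f) (c • g) := by
  obtain ⟨ψ, dψ, h1, h2, h3, h4, h5⟩ := h
  refine ⟨fun x => c * ψ x, fun x => c * dψ x, fun x hx => (h1 x hx).const_mul c,
    fun x hx => ?_, ?_, ?_, ?_⟩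
  · have e1 := int_congr_mu (c • g) (fun t => c * g t) (Lp.coeFn_smul c g) x hx
    have e3 : dψ x = dψ x0 - ∫ t in x0..x, g t := h2 x hx
    show c * dψ x = c * dψ x0 - ∫ t in x0..x, (c • g : HH) t
    rw [e1, intervalIntegral.integral_const_mul, e3]
    ring
  · filter_upwards [h3, Lp.coeFn_smul c f] with x a1 a3
    rw [a3, Pi.smul_apply, a1, smul_eq_mul]
  · simp only [h4]
  · simp only [h5]

theorem isH_zero (a : ℝ) : IsH a 0 0 := by
  refine isH_of_smooth a (fun _ => 0) (fun _ => 0) (fun _ => 0) (fun x => hasDerivAt_const _ _)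
    (fun x => hasDerivAt_const _ _) continuous_const rfl rfl 0 0 (Lp.coeFn_zero ℂ 2 mu) ?_
  simp only [neg_zero]
  exact Lp.coeFn_zero ℂ 2 mu

theorem kerPow_zero (a : ℝ) (z : ℂ) (k : ℕ) : KerPow a z k 0 := by
  induction k with
  | zero => rfl
  | succ k ih =>
    refine ⟨0, isH_zero a, ?_⟩
    rw [smul_zero, sub_zero]
    exact ih

theorem kerPow_add (a : ℝ) (z : ℂ) (k : ℕ) : ∀ f g : HH, KerPow a z k f → KerPow a z k g →
    KerPow a z k (f + g) := by
  induction k with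
  | zero =>
    intro f g hf hg
    have hf' : f = 0 := hf
    have hg' : g = 0 := hg
    subst hf' hg'
    exact add_zero 0
  | succ k ih =>
    rintro f g ⟨f', h1, h2⟩ ⟨g', h3, h4⟩
    refine ⟨f' + g', isH_add a _ _ _ _ h1 h3, ?_⟩
    have := ih _ _ h2 h4
    have e : f' - z • f + (g' - z • g) = f' + g' - z • (f + g) := by
      rw [smul_add]; abel
    rw [← e]
    exact this

theorem kerPow_smul (a : ℝ) (z c : ℂ) (k : ℕ) : ∀ f : HH, KerPow a z k f →
    KerPow a z k (c • f) := by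
  induction k with
  | zero =>
    intro f hf
    have hf' : f = 0 := hf
    subst hf'
    exact smul_zero c
  | succ k ih =>
    rintro f ⟨f', h1, h2⟩
    refine ⟨c • f', isH_smul a c _ _ h1, ?_⟩
    have := ih _ h2
    have e : c • (f' - z • f) = c • f' - z • c • f := by
      rw [smul_sub, smul_comm]
    rw [← e]
    exact this

theorem kerPow_succ (a : ℝ) (z : ℂ) (k : ℕ) : ∀ f : HH, KerPow a z k f →
    KerPow a z (k + 1) f := by
  induction k with
  | zero =>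
    intro f hf
    have hf' : f = 0 := hf
    subst hf'
    exact kerPow_zero a z 1
  | succ k ih =>
    rintro f ⟨f', h1, h2⟩
    exact ⟨f', h1, ih _ h2⟩

theorem kerPow_mono (a : ℝ) (z : ℂ) (k l : ℕ) (hkl : k ≤ l) (f : HH) (h : KerPow a z k f) :
    KerPow a z l f := by
  induction l, hkl using Nat.le_induction with
  | base => exact h
  | succ l _ ih => exact kerPow_succ a z l f ih

/-- the root subspace -/
def rootSp (a : ℝ) (z : ℂ) : Submodule ℂ HH where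
  carrier := {f | ∃ k, KerPow a z k f}
  zero_mem' := ⟨0, rfl⟩
  add_mem' := by
    rintro f g ⟨k, hk⟩ ⟨l, hl⟩
    exact ⟨max k l, kerPow_add a z _ f g (kerPow_mono a z k _ (le_max_left _ _) f hk)
      (kerPow_mono a z l _ (le_max_right _ _) g hl)⟩
  smul_mem' := by
    rintro c f ⟨k, hk⟩
    exact ⟨k, kerPow_smul a z c k f hk⟩

theorem ker_sub (a : ℝ) (z : ℂ) (T : Submodule ℂ HH)
    (hstep : ∀ f g, IsH a f g → g - z • f ∈ T → f ∈ T) :
    ∀ n f, KerPow a z n f → f ∈ T := by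
  intro n
  induction n with
  | zero =>
    intro f hf
    have hf' : f = 0 := hf
    subst hf'
    exact T.zero_mem
  | succ n ih =>
    rintro f ⟨g, h1, h2⟩
    exact hstep f g h1 (ih _ h2)

/-! ### the explicit functions -/

/-- quasi-polynomials -/
noncomputable def EE (k p0 p1 p2 q0 q1 : ℂ) (x : ℝ) : ℂ :=
  (p0 + p1 * x + p2 * (x : ℂ) ^ 2) * Complex.cos (k * x) + (q0 + q1 * x) * Complex.sin (k * x)

/-- derivative -/
noncomputable def ED (k p0 p1 p2 q0 q1 : ℂ) (x : ℝ) : ℂ :=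
  (p1 + 2 * p2 * x + k * (q0 + q1 * x)) * Complex.cos (k * x)
    + (q1 - k * (p0 + p1 * x + p2 * (x : ℂ) ^ 2)) * Complex.sin (k * x)

/-- second derivative -/
noncomputable def ED2 (k p0 p1 p2 q0 q1 : ℂ) (x : ℝ) : ℂ :=
  (2 * p2 + 2 * k * q1) * Complex.cos (k * x) - 2 * k * (p1 + 2 * p2 * x) * Complex.sin (k * x)
    - k ^ 2 * EE k p0 p1 p2 q0 q1 x

theorem EE_cont (k p0 p1 p2 q0 q1 : ℂ) : Continuous (EE k p0 p1 p2 q0 q1) := by
  unfold EE
  fun_prop

theorem ED2_cont (k p0 p1 p2 q0 q1 : ℂ) : Continuous (ED2 k p0 p1 p2 q0 q1) := by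
  unfold ED2 EE
  fun_prop

theorem hd_cos (k : ℂ) (x : ℝ) :
    HasDerivAt (fun x : ℝ => Complex.cos (k * x)) (-(k * Complex.sin (k * x))) x := by
  have h := ((Complex.hasDerivAt_cos (k * x)).comp (x : ℂ)
    ((hasDerivAt_id (x : ℂ)).const_mul k)).comp_ofReal
  convert h using 1
  simp; ring

theorem hd_sin (k : ℂ) (x : ℝ) :
    HasDerivAt (fun x : ℝ => Complex.sin (k * x)) (k * Complex.cos (k * x)) x := by
  have h := ((Complex.hasDerivAt_sin (k * x)).comp (x : ℂ)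
    ((hasDerivAt_id (x : ℂ)).const_mul k)).comp_ofReal
  convert h using 1
  simp; ring

theorem hd_id (x : ℝ) : HasDerivAt (fun x : ℝ => (x : ℂ)) 1 x := (hasDerivAt_id (x : ℂ)).comp_ofReal

theorem EE_hd (k p0 p1 p2 q0 q1 : ℂ) (x : ℝ) :
    HasDerivAt (EE k p0 p1 p2 q0 q1) (ED k p0 p1 p2 q0 q1 x) x := by
  have hp : HasDerivAt (fun x : ℝ => p0 + p1 * (x : ℂ) + p2 * (x : ℂ) ^ 2)
      (p1 * 1 + p2 * (2 * (x : ℂ) ^ 1 * 1)) x := by
    have h1 := (hd_id x).const_mul p1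
    have h2 := ((hd_id x).pow 2).const_mul p2
    have h3 := (h1.const_add p0).add h2
    exact h3
  have hq : HasDerivAt (fun x : ℝ => q0 + q1 * (x : ℂ)) (q1 * 1) x :=
    ((hd_id x).const_mul q1).const_add q0
  have h : HasDerivAt (EE k p0 p1 p2 q0 q1) _ x := (hp.mul (hd_cos k x)).add (hq.mul (hd_sin k x))
  exact h.congr_deriv (by simp only [ED]; ring)

theorem ED_hd (k p0 p1 p2 q0 q1 : ℂ) (x : ℝ) :
    HasDerivAt (ED k p0 p1 p2 q0 q1) (ED2 k p0 p1 p2 q0 q1 x) x := by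
  have hp : HasDerivAt (fun x : ℝ => p1 + 2 * p2 * (x : ℂ) + k * (q0 + q1 * (x : ℂ)))
      (2 * p2 * 1 + k * (q1 * 1)) x := by
    have h1 := (hd_id x).const_mul (2 * p2)
    have h2 := (((hd_id x).const_mul q1).const_add q0).const_mul k
    exact (h1.const_add p1).add h2
  have hq : HasDerivAt (fun x : ℝ => q1 - k * (p0 + p1 * (x : ℂ) + p2 * (x : ℂ) ^ 2))
      (-(k * (p1 * 1 + p2 * (2 * (x : ℂ) ^ 1 * 1)))) x := by
    have h1 := (hd_id x).const_mul p1
    have h2 := ((hd_id x).pow 2).const_mul p2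
    have h3 := ((h1.const_add p0).add h2).const_mul k
    exact h3.const_sub q1
  have h : HasDerivAt (ED k p0 p1 p2 q0 q1) _ x := (hp.mul (hd_cos k x)).add (hq.mul (hd_sin k x))
  exact h.congr_deriv (by simp only [ED2, EE]; ring)

theorem EE_isH (a : ℝ) (k p0 p1 p2 q0 q1 : ℂ)
    (hb1 : EE k p0 p1 p2 q0 q1 (-(Real.pi / 2)) = EE k p0 p1 p2 q0 q1 (Real.pi / 2 * a))
    (hb2 : EE k p0 p1 p2 q0 q1 (Real.pi / 2 * a) = EE k p0 p1 p2 q0 q1 (Real.pi / 2))
    (f g : HH) (hf : f =ᵐ[mu] EE k p0 p1 p2 q0 q1)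
    (hg : g =ᵐ[mu] fun x => -ED2 k p0 p1 p2 q0 q1 x) : IsH a f g :=
  isH_of_smooth a _ _ _ (EE_hd k p0 p1 p2 q0 q1) (ED_hd k p0 p1 p2 q0 q1)
    (ED2_cont k p0 p1 p2 q0 q1) hb1 hb2 f g hf hg

/-! ### the differential equation -/

theorem const_of_deriv (F : ℝ → ℂ) (h : ∀ x ∈ Icc x0 (Real.pi / 2),
    HasDerivWithinAt F 0 (Icc x0 (Real.pi / 2)) x) : ∀ x ∈ Icc x0 (Real.pi / 2), F x = F x0 := by
  apply constant_of_derivWithin_zero (fun x hx => (h x hx).differentiableWithinAt)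
  intro x hx
  have hlt : x0 < Real.pi / 2 := by unfold x0; linarith [Real.pi_pos]
  exact (h x (Ico_subset_Icc_self hx)).derivWithin (uniqueDiffOn_Icc hlt x (Ico_subset_Icc_self hx))

/-- derivative of `dψ` -/
theorem dpsi_deriv (a : ℝ) (f g : HH) (z : ℂ) (P : ℝ → ℂ) (hP : Continuous P) (ψ dψ : ℝ → ℂ)
    (h1 : ∀ x ∈ Icc x0 (Real.pi / 2), HasDerivWithinAt ψ (dψ x) (Icc x0 (Real.pi / 2)) x)
    (h2 : ∀ x ∈ Icc x0 (Real.pi / 2), dψ x = dψ x0 - ∫ t in x0..x, g t)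
    (h3 : f =ᵐ[mu] ψ) (hg : (g - z • f : HH) =ᵐ[mu] P) :
    ∀ x ∈ Icc x0 (Real.pi / 2),
      HasDerivWithinAt dψ (-(z * ψ x + P x)) (Icc x0 (Real.pi / 2)) x := by
  have hlt : x0 ≤ Real.pi / 2 := x0_le
  set Q : ℝ → ℂ := fun x => z * IccExtend hlt (fun y : Icc x0 (Real.pi / 2) => ψ y) x + P x with hQ
  have hψc : ContinuousOn ψ (Icc x0 (Real.pi / 2)) := fun x hx => (h1 x hx).continuousWithinAt
  have hψr : Continuous (fun y : Icc x0 (Real.pi / 2) => ψ y) := continuousOn_iff_continuous_domRestrict.1 hψc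
  have hQc : Continuous Q := (continuous_const.mul hψr.Icc_extend').add hP
  have hQe : ∀ x ∈ Icc x0 (Real.pi / 2), Q x = z * ψ x + P x := by
    intro x hx
    simp only [hQ]
    rw [IccExtend_of_mem hlt _ hx]
  have hgQ : g =ᵐ[mu] Q := by
    have hm : ∀ᵐ x ∂mu, x ∈ Ioc x0 (Real.pi / 2) := ae_restrict_mem measurableSet_Ioc
    filter_upwards [hg, h3, hm, Lp.coeFn_sub g (z • f), Lp.coeFn_smul z f] with x b1 b2 b3 b4 b5
    rw [hQe x (Ioc_subset_Icc_self b3), ← b1, b4, Pi.sub_apply, b5, Pi.smul_apply, b2, smul_eq_mul]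
    ring
  intro x hx
  have e1 : ∀ y ∈ Icc x0 (Real.pi / 2), dψ y = dψ x0 - ∫ t in x0..y, Q t := by
    intro y hy
    rw [h2 y hy, int_congr_mu g Q hgQ y hy]
  have e2 : HasDerivAt (fun y => dψ x0 - ∫ t in x0..y, Q t) (-Q x) x := by
    have := (intervalIntegral.integral_hasDerivAt_right (hQc.intervalIntegrable x0 x)
      (hQc.stronglyMeasurableAtFilter _ _) hQc.continuousAt)
    exact this.const_sub _
  rw [← hQe x hx]
  exact (e2.hasDerivWithinAt).congr (fun y hy => e1 y hy) (e1 x hx)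

theorem ode_main (a : ℝ) (ha : |a| < 1) (k : ℂ) (hk : k ≠ 0) (α β γ : ℂ) (f g : HH) (h : IsH a f g)
    (hg : (g - k ^ 2 • f : HH) =ᵐ[mu] fun x : ℝ =>
      α * Complex.cos (k * x) + β * Complex.sin (k * x) + γ * ((x : ℂ) * Complex.sin (k * x))) :
    ∃ A B : ℂ, f =ᵐ[mu] EE k A (β / (2 * k)) (γ / (4 * k)) B (-(α / (2 * k)) - γ / (4 * k ^ 2)) ∧
      EE k A (β / (2 * k)) (γ / (4 * k)) B (-(α / (2 * k)) - γ / (4 * k ^ 2)) (-(Real.pi / 2))
        = EE k A (β / (2 * k)) (γ / (4 * k)) B (-(α / (2 * k)) - γ / (4 * k ^ 2)) (Real.pi / 2) ∧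
      EE k A (β / (2 * k)) (γ / (4 * k)) B (-(α / (2 * k)) - γ / (4 * k ^ 2)) (Real.pi / 2 * a)
        = EE k A (β / (2 * k)) (γ / (4 * k)) B (-(α / (2 * k)) - γ / (4 * k ^ 2)) (Real.pi / 2) := by
  obtain ⟨ψ, dψ, h1, h2, h3, h4, h5⟩ := h
  have hpi := Real.pi_pos
  set P : ℝ → ℂ := fun x : ℝ =>
      α * Complex.cos (k * x) + β * Complex.sin (k * x) + γ * ((x : ℂ) * Complex.sin (k * x)) with hP
  have hPc : Continuous P := by rw [hP]; fun_prop
  have hd := dpsi_deriv a f g (k ^ 2) P hPc ψ dψ h1 h2 h3 hg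
  set p1 := β / (2 * k) with hp1
  set p2 := γ / (4 * k) with hp2
  set q1 := -(α / (2 * k)) - γ / (4 * k ^ 2) with hq1
  -- the difference with a particular solution
  set w : ℝ → ℂ := fun x => ψ x - EE k 0 p1 p2 0 q1 x with hw
  set dw : ℝ → ℂ := fun x => dψ x - ED k 0 p1 p2 0 q1 x with hdw
  have hw' : ∀ x ∈ Icc x0 (Real.pi / 2), HasDerivWithinAt w (dw x) (Icc x0 (Real.pi / 2)) x :=
    fun x hx => (h1 x hx).sub (EE_hd k 0 p1 p2 0 q1 x).hasDerivWithinAt
  have hdw' : ∀ x ∈ Icc x0 (Real.pi / 2),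
      HasDerivWithinAt dw (-(k ^ 2 * w x)) (Icc x0 (Real.pi / 2)) x := by
    intro x hx
    have e1 : HasDerivWithinAt dw _ (Icc x0 (Real.pi / 2)) x :=
      (hd x hx).sub (ED_hd k 0 p1 p2 0 q1 x).hasDerivWithinAt
    refine e1.congr_deriv ?_
    simp only [hw, ED2, hP, hp1, hp2, hq1]
    field_simp
    ring
  have hA := const_of_deriv (fun x => w x * Complex.cos (k * x) - dw x / k * Complex.sin (k * x))
    (fun x hx => by
      have e1 : HasDerivWithinAt
          (fun x => w x * Complex.cos (k * x) - dw x / k * Complex.sin (k * x)) _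
          (Icc x0 (Real.pi / 2)) x := ((hw' x hx).mul (hd_cos k x).hasDerivWithinAt).sub
        (((hdw' x hx).div_const k).mul (hd_sin k x).hasDerivWithinAt)
      refine e1.congr_deriv ?_
      beta_reduce
      field_simp
      ring)
  have hB := const_of_deriv (fun x => w x * Complex.sin (k * x) + dw x / k * Complex.cos (k * x))
    (fun x hx => by
      have e1 : HasDerivWithinAt
          (fun x => w x * Complex.sin (k * x) + dw x / k * Complex.cos (k * x)) _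
          (Icc x0 (Real.pi / 2)) x := ((hw' x hx).mul (hd_sin k x).hasDerivWithinAt).add
        (((hdw' x hx).div_const k).mul (hd_cos k x).hasDerivWithinAt)
      refine e1.congr_deriv ?_
      beta_reduce
      field_simp
      ring)
  set A := w x0 * Complex.cos (k * x0) - dw x0 / k * Complex.sin (k * x0) with hAd
  set B := w x0 * Complex.sin (k * x0) + dw x0 / k * Complex.cos (k * x0) with hBd
  have hψ : ∀ x ∈ Icc x0 (Real.pi / 2), ψ x = EE k A p1 p2 B q1 x := by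
    intro x hx
    have a1 := hA x hx
    have a2 := hB x hx
    have a3 : w x = A * Complex.cos (k * x) + B * Complex.sin (k * x) := by
      have a4 := Complex.sin_sq_add_cos_sq (k * x)
      rw [← a1, ← a2]
      linear_combination (-w x) * a4
    have a5 : ψ x = w x + EE k 0 p1 p2 0 q1 x := by simp only [hw]; ring
    rw [a5, a3]
    unfold EE
    ring
  have m1 : x0 ∈ Icc x0 (Real.pi / 2) := ⟨le_rfl, x0_le⟩
  have m2 : Real.pi / 2 ∈ Icc x0 (Real.pi / 2) := ⟨x0_le, le_rfl⟩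
  have m3 : Real.pi / 2 * a ∈ Icc x0 (Real.pi / 2) := by
    rw [abs_lt] at ha
    unfold x0
    constructor <;> nlinarith
  refine ⟨A, B, ?_, ?_, ?_⟩
  · have hm : ∀ᵐ x ∂mu, x ∈ Ioc x0 (Real.pi / 2) := ae_restrict_mem measurableSet_Ioc
    filter_upwards [h3, hm] with x b1 b2
    rw [b1, hψ x (Ioc_subset_Icc_self b2)]
  · have e1 : EE k A p1 p2 B q1 (-(Real.pi / 2)) = ψ (-(Real.pi / 2)) := (hψ x0 m1).symm
    rw [e1, ← hψ _ m2, h4, h5]
  · rw [← hψ _ m2, ← hψ _ m3, h5]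

theorem ode_zero (a : ℝ) (ha : |a| < 1) (α : ℂ) (f g : HH) (h : IsH a f g)
    (hg : (g - (0 : ℂ) • f : HH) =ᵐ[mu] fun _ : ℝ => α) :
    ∃ A : ℂ, f =ᵐ[mu] fun _ => A := by
  obtain ⟨ψ, dψ, h1, h2, h3, h4, h5⟩ := h
  have hpi := Real.pi_pos
  have hd := dpsi_deriv a f g 0 (fun _ => α) continuous_const ψ dψ h1 h2 h3 hg
  have hB := const_of_deriv (fun x => dψ x + α * x) (fun x hx => by
    have e1 : HasDerivWithinAt (fun x => dψ x + α * x) _ (Icc x0 (Real.pi / 2)) x :=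
      (hd x hx).add ((hd_id x).const_mul α).hasDerivWithinAt
    refine e1.congr_deriv ?_
    ring)
  set B := dψ x0 + α * x0 with hBd
  have hA := const_of_deriv (fun x => ψ x + α * (x : ℂ) ^ 2 / 2 - B * x) (fun x hx => by
    have e1 : HasDerivWithinAt (fun x => ψ x + α * (x : ℂ) ^ 2 / 2 - B * x) _
      (Icc x0 (Real.pi / 2)) x :=
      ((h1 x hx).add ((((hd_id x).pow 2).const_mul α).div_const 2).hasDerivWithinAt).sub
      ((hd_id x).const_mul B).hasDerivWithinAt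
    refine e1.congr_deriv ?_
    have e2 := hB x hx
    rw [← e2]
    ring)
  set A := ψ x0 + α * (x0 : ℂ) ^ 2 / 2 - B * x0 with hAd
  have hψ : ∀ x ∈ Icc x0 (Real.pi / 2), ψ x = A + B * x - α * (x : ℂ) ^ 2 / 2 := by
    intro x hx
    have := hA x hx
    linear_combination this
  have m1 : x0 ∈ Icc x0 (Real.pi / 2) := ⟨le_rfl, x0_le⟩
  have m2 : Real.pi / 2 ∈ Icc x0 (Real.pi / 2) := ⟨x0_le, le_rfl⟩
  have m3 : Real.pi / 2 * a ∈ Icc x0 (Real.pi / 2) := by
    rw [abs_lt] at ha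
    unfold x0
    constructor <;> nlinarith
  have hpiC : (Real.pi : ℂ) ≠ 0 := by exact_mod_cast hpi.ne'
  have e1 : ψ x0 = ψ (Real.pi / 2) := h4.trans h5
  rw [hψ _ m1, hψ _ m2] at e1
  have hB0 : B = 0 := by
    have e2 : B * (Real.pi : ℂ) = 0 := by
      unfold x0 at e1
      push_cast at e1
      linear_combination (-1 : ℂ) * e1
    exact (mul_eq_zero.1 e2).resolve_right hpiC
  rw [hψ _ m2, hψ _ m3, hB0] at h5
  have hα : α = 0 := by
    have e2 : α * ((Real.pi : ℂ) ^ 2 * (1 - (a : ℂ) ^ 2)) = 0 := by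
      push_cast at h5
      linear_combination (8 : ℂ) * h5
    have e3 : (Real.pi : ℂ) ^ 2 * (1 - (a : ℂ) ^ 2) ≠ 0 := by
      apply mul_ne_zero (pow_ne_zero _ hpiC)
      have : (1 - a ^ 2 : ℝ) ≠ 0 := by
        rw [abs_lt] at ha
        nlinarith
      exact_mod_cast this
    exact (mul_eq_zero.1 e2).resolve_right e3
  refine ⟨A, ?_⟩
  have hm : ∀ᵐ x ∂mu, x ∈ Ioc x0 (Real.pi / 2) := ae_restrict_mem measurableSet_Ioc
  filter_upwards [h3, hm] with x b1 b2
  rw [b1, hψ x (Ioc_subset_Icc_self b2), hB0, hα]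
  ring

end Pool.Agent.R508.BR
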