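import Mathlib
import Pool.Agent.R508.BR9

set_option autoImplicit false

/-! The root subspaces of the operator (helper508, MP_1ebdda_an). -/

open Filter Topology MeasureTheory Set

namespace Pool.Agent.R508.BR

theorem ae_smul (c : ℂ) (V : HH) (F : ℝ → ℂ) (h : V =ᵐ[mu] F) :
    (c • V : HH) =ᵐ[mu] fun x => c * F x := by
  filter_upwards [h, Lp.coeFn_smul c V] with x h1 h2
  rw [h2, Pi.smul_apply, h1, smul_eq_mul]

theorem ae_add (V W : HH) (F G : ℝ → ℂ) (h : V =ᵐ[mu] F) (h' : W =ᵐ[mu] G) :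
    (V + W : HH) =ᵐ[mu] fun x => F x + G x := by
  filter_upwards [h, h', Lp.coeFn_add V W] with x h1 h2 h3
  rw [h3, Pi.add_apply, h1, h2]

theorem ae_sub (V W : HH) (F G : ℝ → ℂ) (h : V =ᵐ[mu] F) (h' : W =ᵐ[mu] G) :
    (V - W : HH) =ᵐ[mu] fun x => F x - G x := by
  filter_upwards [h, h', Lp.coeFn_sub V W] with x h1 h2 h3
  rw [h3, Pi.sub_apply, h1, h2]

theorem hh_ext (V W : HH) (F G : ℝ → ℂ) (h : V =ᵐ[mu] F) (h' : W =ᵐ[mu] G) (hFG : ∀ x, F x = G x) :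
    V = W := by
  apply Lp.ext
  filter_upwards [h, h'] with x h1 h2
  rw [h1, h2, hFG]

/-- half of pi -/
noncomputable abbrev hp : ℂ := ((Real.pi / 2 : ℝ) : ℂ)

theorem hp_ne : hp ≠ 0 := by
  have : Real.pi / 2 ≠ 0 := by positivity
  exact Complex.ofReal_ne_zero.2 this

theorem EE_pi (k p0 p1 p2 q0 q1 : ℂ) : EE k p0 p1 p2 q0 q1 (Real.pi / 2)
    = (p0 + p1 * hp + p2 * hp ^ 2) * Complex.cos (k * hp)
      + (q0 + q1 * hp) * Complex.sin (k * hp) := rfl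

theorem EE_neg (k p0 p1 p2 q0 q1 : ℂ) : EE k p0 p1 p2 q0 q1 (-(Real.pi / 2))
    = (p0 - p1 * hp + p2 * hp ^ 2) * Complex.cos (k * hp)
      - (q0 - q1 * hp) * Complex.sin (k * hp) := by
  have h : k * ((-(Real.pi / 2) : ℝ) : ℂ) = -(k * hp) := by
    rw [Complex.ofReal_neg]; ring
  unfold EE
  rw [h, Complex.cos_neg, Complex.sin_neg, Complex.ofReal_neg]
  ring

theorem EE_a (a : ℝ) (k p0 p1 p2 q0 q1 : ℂ) : EE k p0 p1 p2 q0 q1 (Real.pi / 2 * a)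
    = (p0 + p1 * (hp * a) + p2 * (hp * a) ^ 2) * Complex.cos (k * (hp * a))
      + (q0 + q1 * (hp * a)) * Complex.sin (k * (hp * a)) := by
  unfold EE
  rw [Complex.ofReal_mul]

/-- eigenfunctions -/
theorem mem_ker1 (a : ℝ) (k p0 q0 : ℂ)
    (hb1 : EE k p0 0 0 q0 0 (-(Real.pi / 2)) = EE k p0 0 0 q0 0 (Real.pi / 2 * a))
    (hb2 : EE k p0 0 0 q0 0 (Real.pi / 2 * a) = EE k p0 0 0 q0 0 (Real.pi / 2))
    (f : HH) (hf : f =ᵐ[mu] EE k p0 0 0 q0 0) : KerPow a (k ^ 2) 1 f := by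
  refine ⟨k ^ 2 • f, EE_isH a k p0 0 0 q0 0 hb1 hb2 f _ hf ?_, sub_self _⟩
  refine (ae_smul (k ^ 2) f _ hf).trans (Eventually.of_forall fun x => ?_)
  simp only [ED2]
  ring

theorem mem_ker2 (a : ℝ) (k q1 : ℂ)
    (hb1 : EE k 0 0 0 0 q1 (-(Real.pi / 2)) = EE k 0 0 0 0 q1 (Real.pi / 2 * a))
    (hb2 : EE k 0 0 0 0 q1 (Real.pi / 2 * a) = EE k 0 0 0 0 q1 (Real.pi / 2))
    (f : HH) (hf : f =ᵐ[mu] EE k 0 0 0 0 q1) (h : HH)
    (hh : h =ᵐ[mu] fun x : ℝ => Complex.cos (k * x)) (hk : KerPow a (k ^ 2) 1 h) :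
    KerPow a (k ^ 2) 2 f := by
  refine ⟨k ^ 2 • f + (-(2 * k * q1)) • h, EE_isH a k 0 0 0 0 q1 hb1 hb2 f _ hf ?_, ?_⟩
  · refine (ae_add _ _ _ _ (ae_smul (k ^ 2) f _ hf) (ae_smul (-(2 * k * q1)) h _ hh)).trans
      (Eventually.of_forall fun x => ?_)
    simp only [ED2]
    ring
  · rw [add_sub_cancel_left]
    exact kerPow_smul a (k ^ 2) _ 1 h hk

section main

variable (u v : ℕ) (hu : 0 < u) (hv : 0 < v)

/-- the parameter of the operator -/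
noncomputable def aa : ℝ := ((v : ℝ) - u) / (u + v)

/-- frequencies -/
noncomputable def kap : II v → ℝ
  | Sum.inl i => (i : ℝ) * w1 u v
  | Sum.inr (Sum.inl j) => (j.1 : ℝ) * w2 u v
  | Sum.inr (Sum.inr (Sum.inl l)) => (sc l : ℝ) * w3 u v
  | Sum.inr (Sum.inr (Sum.inr m)) => (sc m : ℝ) * 2

/-- eigenvalues -/
noncomputable def lam (i : II v) : ℂ := ((kap u v i : ℝ) : ℂ) ^ 2

include hu hv in
theorem aa_lt : |aa u v| < 1 := by
  have h1 : (0 : ℝ) < u := by exact_mod_cast hu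
  have h2 : (0 : ℝ) < v := by exact_mod_cast hv
  unfold aa
  rw [abs_lt, lt_div_iff₀ (by positivity), div_lt_iff₀ (by positivity)]
  constructor <;> linarith

theorem vec_inl (i : ℕ) : vec u v (Sum.inl i) =ᵐ[mu]
    EE (((i : ℝ) * w1 u v : ℝ) : ℂ) 1 0 0 0 0 := by
  refine (el_coe _ (FFc_cont u v _)).trans (Eventually.of_forall fun x => ?_)
  simp only [FF, EE, Complex.ofReal_cos, Complex.ofReal_mul]
  ring

theorem vec_inr (j : {j : ℕ // ¬ v ∣ j}) : vec u v (Sum.inr (Sum.inl j)) =ᵐ[mu]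
    EE (((j.1 : ℝ) * w2 u v : ℝ) : ℂ) 1 0 0 0 0 := by
  refine (el_coe _ (FFc_cont u v _)).trans (Eventually.of_forall fun x => ?_)
  simp only [FF, EE, Complex.ofReal_cos, Complex.ofReal_mul]
  ring

theorem vec_x (l : ℕ) : vec u v (Sum.inr (Sum.inr (Sum.inl l))) =ᵐ[mu]
    EE (((sc l : ℝ) * w3 u v : ℝ) : ℂ) 0 0 0 0 1 := by
  refine (el_coe _ (FFc_cont u v _)).trans (Eventually.of_forall fun x => ?_)
  simp only [FF, EE, Complex.ofReal_sin, Complex.ofReal_mul]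
  ring

theorem vec_s (m : ℕ) : vec u v (Sum.inr (Sum.inr (Sum.inr m))) =ᵐ[mu]
    EE (((sc m : ℝ) * 2 : ℝ) : ℂ) (cc u v (sc m) : ℂ) 0 0 1 0 := by
  refine (el_coe _ (FFc_cont u v _)).trans (Eventually.of_forall fun x => ?_)
  simp only [FF, EE, Complex.ofReal_sin, Complex.ofReal_cos, Complex.ofReal_mul,
    Complex.ofReal_add]
  ring

/-! boundary conditions -/

include hu in
theorem bc1 (i : ℕ) : Real.cos ((i : ℝ) * w1 u v * (Real.pi / 2 * aa u v))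
    = Real.cos ((i : ℝ) * w1 u v * (Real.pi / 2)) := by
  have h1 : (0 : ℝ) < u := by exact_mod_cast hu
  have h2 : (0 : ℝ) ≤ v := by positivity
  have : (i : ℝ) * w1 u v * (Real.pi / 2 * aa u v)
      = (i : ℝ) * w1 u v * (Real.pi / 2) - (i : ℕ) * (2 * Real.pi) := by
    unfold w1 aa
    field_simp
    ring
  rw [this, Real.cos_sub_nat_mul_two_pi]

include hv in
theorem bc2 (i : ℕ) : Real.cos ((i : ℝ) * w2 u v * (Real.pi / 2 * aa u v))
    = Real.cos ((i : ℝ) * w2 u v * (Real.pi / 2)) := by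
  have h1 : (0 : ℝ) < v := by exact_mod_cast hv
  have h2 : (0 : ℝ) ≤ u := by positivity
  have : (i : ℝ) * w2 u v * (Real.pi / 2 * aa u v)
      = (i : ℕ) * (2 * Real.pi) - (i : ℝ) * w2 u v * (Real.pi / 2) := by
    unfold w2 aa
    field_simp
    ring
  rw [this, Real.cos_nat_mul_two_pi_sub]

theorem bc3 (i : ℕ) : Real.sin ((i : ℝ) * w3 u v * (Real.pi / 2)) = 0 := by
  have : (i : ℝ) * w3 u v * (Real.pi / 2) = ((i * (u + v) : ℕ) : ℝ) * Real.pi := by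
    unfold w3
    push_cast
    ring
  rw [this, Real.sin_nat_mul_pi]

include hu in
theorem bc3a (i : ℕ) : Real.sin ((i : ℝ) * w3 u v * (Real.pi / 2 * aa u v)) = 0 := by
  have h1 : (0 : ℝ) < u := by exact_mod_cast hu
  have h2 : (0 : ℝ) ≤ v := by positivity
  have : (i : ℝ) * w3 u v * (Real.pi / 2 * aa u v) = (((i : ℤ) * ((v : ℤ) - u) : ℤ) : ℝ) * Real.pi := by
    unfold w3 aa
    push_cast
    field_simp
  rw [this, Real.sin_int_mul_pi]

include hu in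
theorem bc3c (i : ℕ) : Real.cos ((i : ℝ) * w3 u v * (Real.pi / 2 * aa u v))
    = Real.cos ((i : ℝ) * w3 u v * (Real.pi / 2)) := by
  have h1 : (0 : ℝ) < u := by exact_mod_cast hu
  have h2 : (0 : ℝ) ≤ v := by positivity
  have : (i : ℝ) * w3 u v * (Real.pi / 2 * aa u v)
      = (i : ℝ) * w3 u v * (Real.pi / 2) - ((i * u : ℕ) : ℝ) * (2 * Real.pi) := by
    unfold w3 aa
    push_cast
    field_simp
    ring
  rw [this, Real.cos_sub_nat_mul_two_pi]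

theorem arg4 (hu : 0 < u) (m : ℕ) : (m : ℝ) * 2 * (Real.pi / 2 * aa u v)
    = (m : ℝ) * Real.pi - 2 * (Real.pi * m * u / (u + v)) := by
  have h1 : (0 : ℝ) < u := by exact_mod_cast hu
  have h2 : (0 : ℝ) ≤ v := by positivity
  unfold aa
  field_simp
  ring

include hu in
theorem bc4 (m : ℕ) : Real.sin ((m : ℝ) * 2 * (Real.pi / 2 * aa u v))
      + cc u v m * Real.cos ((m : ℝ) * 2 * (Real.pi / 2 * aa u v))
    = cc u v m * Real.cos ((m : ℝ) * 2 * (Real.pi / 2)) := by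
  have e1 : (m : ℝ) * 2 * (Real.pi / 2) = (m : ℝ) * Real.pi := by ring
  rw [arg4 u v hu m, e1, Real.sin_sub, Real.cos_sub, Real.sin_nat_mul_pi, Real.sin_two_mul,
    Real.cos_two_mul]
  unfold cc
  set θ := Real.pi * m * u / (u + v) with hθ
  have h1 := Real.sin_sq_add_cos_sq θ
  by_cases hs : Real.sin θ = 0
  · rw [hs]; simp
  · field_simp
    have h2 : Real.cos θ ^ 2 = 1 - Real.sin θ ^ 2 := by linarith
    linear_combination (-2 * Real.cos θ * Real.cos (m * Real.pi)) * h1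

theorem bc4s (m : ℕ) : Real.sin ((m : ℝ) * 2 * (Real.pi / 2)) = 0 := by
  have : (m : ℝ) * 2 * (Real.pi / 2) = (m : ℕ) * Real.pi := by ring
  rw [this, Real.sin_nat_mul_pi]

theorem cast_cos (κ t : ℝ) : Complex.cos ((κ : ℂ) * (t : ℂ)) = ((Real.cos (κ * t) : ℝ) : ℂ) := by
  rw [← Complex.ofReal_mul, Complex.ofReal_cos]

theorem cast_sin (κ t : ℝ) : Complex.sin ((κ : ℂ) * (t : ℂ)) = ((Real.sin (κ * t) : ℝ) : ℂ) := by
  rw [← Complex.ofReal_mul, Complex.ofReal_sin]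

theorem cast_cosa (κ a : ℝ) : Complex.cos ((κ : ℂ) * (hp * (a : ℂ)))
    = ((Real.cos (κ * (Real.pi / 2 * a)) : ℝ) : ℂ) := by
  rw [← cast_cos]
  congr 2
  push_cast
  ring

theorem cast_sina (κ a : ℝ) : Complex.sin ((κ : ℂ) * (hp * (a : ℂ)))
    = ((Real.sin (κ * (Real.pi / 2 * a)) : ℝ) : ℂ) := by
  rw [← cast_sin]
  congr 2
  push_cast
  ring

include hu in
theorem ker_inl (i : ℕ) : KerPow (aa u v) (lam u v (Sum.inl i)) 1 (vec u v (Sum.inl i)) := by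
  show KerPow (aa u v) ((((i : ℝ) * w1 u v : ℝ) : ℂ) ^ 2) 1 _
  refine mem_ker1 (aa u v) _ 1 0 ?_ ?_ _ (vec_inl u v i)
  · rw [EE_neg, EE_a, cast_cosa, cast_cos, bc1 u v hu]; ring
  · rw [EE_pi, EE_a, cast_cosa, cast_cos, bc1 u v hu]; ring

include hv in
theorem ker_inr (j : {j : ℕ // ¬ v ∣ j}) : KerPow (aa u v) (lam u v (Sum.inr (Sum.inl j))) 1
    (vec u v (Sum.inr (Sum.inl j))) := by
  show KerPow (aa u v) ((((j.1 : ℝ) * w2 u v : ℝ) : ℂ) ^ 2) 1 _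
  refine mem_ker1 (aa u v) _ 1 0 ?_ ?_ _ (vec_inr u v j)
  · rw [EE_neg, EE_a, cast_cosa, cast_cos, bc2 u v hv]; ring
  · rw [EE_pi, EE_a, cast_cosa, cast_cos, bc2 u v hv]; ring

include hu in
theorem ker_s (m : ℕ) : KerPow (aa u v) (lam u v (Sum.inr (Sum.inr (Sum.inr m)))) 1
    (vec u v (Sum.inr (Sum.inr (Sum.inr m)))) := by
  have h4 : ((Real.sin ((sc m : ℝ) * 2 * (Real.pi / 2 * aa u v)) : ℝ) : ℂ)
      + (cc u v (sc m) : ℂ) * ((Real.cos ((sc m : ℝ) * 2 * (Real.pi / 2 * aa u v)) : ℝ) : ℂ)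
    = (cc u v (sc m) : ℂ) * ((Real.cos ((sc m : ℝ) * 2 * (Real.pi / 2)) : ℝ) : ℂ) := by
    exact_mod_cast bc4 u v hu (sc m)
  show KerPow (aa u v) ((((sc m : ℝ) * 2 : ℝ) : ℂ) ^ 2) 1 _
  refine mem_ker1 (aa u v) _ _ 1 ?_ ?_ _ (vec_s u v m)
  · rw [EE_neg, EE_a, cast_cosa, cast_sina, cast_cos, cast_sin, bc4s, Complex.ofReal_zero]
    linear_combination (-1 : ℂ) * h4
  · rw [EE_pi, EE_a, cast_cosa, cast_sina, cast_cos, cast_sin, bc4s, Complex.ofReal_zero]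
    linear_combination h4

include hu in
theorem kap_x (l : ℕ) : (sc l : ℝ) * w3 u v = ((u * sc l : ℕ) : ℝ) * w1 u v := by
  have h1 : (0 : ℝ) < u := by exact_mod_cast hu
  unfold w1 w3
  push_cast
  field_simp

include hu in
theorem ker_x (l : ℕ) : KerPow (aa u v) (lam u v (Sum.inr (Sum.inr (Sum.inl l)))) 2
    (vec u v (Sum.inr (Sum.inr (Sum.inl l)))) := by
  have hk := kap_x u v hu l
  have hker := ker_inl u v hu (u * sc l)
  have hv1 := vec_inl u v (u * sc l)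
  have e1 : lam u v (Sum.inl (u * sc l)) = ((((sc l : ℝ) * w3 u v : ℝ)) : ℂ) ^ 2 := by
    show ((((u * sc l : ℕ) : ℝ) * w1 u v : ℝ) : ℂ) ^ 2 = _
    rw [hk]
  rw [e1] at hker
  rw [← hk] at hv1
  show KerPow (aa u v) ((((sc l : ℝ) * w3 u v : ℝ) : ℂ) ^ 2) 2 _
  refine mem_ker2 (aa u v) _ 1 ?_ ?_ _ (vec_x u v l) (vec u v (Sum.inl (u * sc l)))
    (hv1.trans (Eventually.of_forall fun x => ?_)) hker
  · rw [EE_neg, EE_a, cast_sina, cast_sin, bc3a u v hu, bc3]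
    push_cast; ring
  · rw [EE_pi, EE_a, cast_sina, cast_sin, bc3a u v hu, bc3]
    push_cast; ring
  · simp only [EE]
    ring

end main

end Pool.Agent.R508.BR
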