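import Mathlib
import Pool.Agent.R508.BR10

set_option autoImplicit false

/-! The root subspaces of the operator, end (helper508, MP_1ebdda_an). -/

open Filter Topology MeasureTheory Set

namespace Pool.Agent.R508.BR

section main

variable (u v : ℕ) (hu : 0 < u) (hv : 0 < v)

/-- span of the family for a given eigenvalue -/
noncomputable def SZ (z : ℂ) : Submodule ℂ HH :=
  Submodule.span ℂ (vec u v '' {i | lam u v i = z})

theorem vec_SZ (i : II v) (z : ℂ) (h : lam u v i = z) : vec u v i ∈ SZ u v z :=
  Submodule.subset_span ⟨i, h, rfl⟩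

include hu hv in
theorem SZ_le (z : ℂ) : SZ u v z ≤ rootSp (aa u v) z := by
  unfold SZ
  rw [Submodule.span_le]
  rintro _ ⟨i, hi, rfl⟩
  have hi' : lam u v i = z := hi
  subst hi'
  rcases i with i | j | l | m
  · exact ⟨1, ker_inl u v hu i⟩
  · exact ⟨1, ker_inr u v hv j⟩
  · exact ⟨2, ker_x u v hu l⟩
  · exact ⟨1, ker_s u v hu m⟩

theorem ae_zero_sub (k : ℂ) (f g : HH) (h : g - k ^ 2 • f = 0) :
    (g - k ^ 2 • f : HH) =ᵐ[mu] fun x : ℝ =>
      (0 : ℂ) * Complex.cos (k * x) + 0 * Complex.sin (k * x)
        + 0 * ((x : ℂ) * Complex.sin (k * x)) := by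
  rw [h]
  refine (Lp.coeFn_zero ℂ 2 mu).trans (Eventually.of_forall fun x => ?_)
  simp

include hu hv in
theorem caseZero (f : HH) (n : ℕ) (hf : KerPow (aa u v) 0 n f) : f ∈ SZ u v 0 := by
  have h1 : vec u v (Sum.inl 0) =ᵐ[mu] fun _ => (1 : ℂ) := by
    refine (vec_inl u v 0).trans (Eventually.of_forall fun x => ?_)
    simp [EE]
  have hmem : vec u v (Sum.inl 0) ∈ SZ u v 0 := by
    apply vec_SZ
    simp [lam, kap]
  have hT : ∀ n f, KerPow (aa u v) 0 n f → f ∈ Submodule.span ℂ {vec u v (Sum.inl 0)} := by
    apply ker_sub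
    intro f g hfg hm
    obtain ⟨c, hc⟩ := Submodule.mem_span_singleton.1 hm
    have h2 : (g - (0 : ℂ) • f : HH) =ᵐ[mu] fun _ => c := by
      rw [← hc]
      refine (ae_smul c _ _ h1).trans (Eventually.of_forall fun x => ?_)
      simp
    obtain ⟨A, hA⟩ := ode_zero (aa u v) (aa_lt u v hu hv) c f g hfg h2
    rw [Submodule.mem_span_singleton]
    exact ⟨A, hh_ext _ _ _ _ (ae_smul A _ _ h1) hA (fun x => by simp)⟩
  exact (Submodule.span_singleton_le_iff_mem _ _).2 hmem (hT n f hf)

include hu hv in
theorem caseA (k : ℂ) (hk : k ≠ 0) (hs : Complex.sin (k * hp) ≠ 0) (f : HH) (n : ℕ)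
    (hf : KerPow (aa u v) (k ^ 2) n f) : f ∈ SZ u v (k ^ 2) := by
  have hu' : (0 : ℝ) < u := by exact_mod_cast hu
  have hv' : (0 : ℝ) < v := by exact_mod_cast hv
  have hhp := hp_ne
  by_cases hc : Complex.cos (k * (hp * (aa u v : ℂ))) = Complex.cos (k * hp)
  · -- one eigenfunction
    have hex : ∃ i : II v, vec u v i ∈ SZ u v (k ^ 2) ∧
        vec u v i =ᵐ[mu] fun x : ℝ => Complex.cos (k * x) := by
      rw [Complex.cos_eq_cos_iff] at hc
      obtain ⟨N, hN⟩ := hc
      have hpC : hp = (Real.pi : ℂ) / 2 := by
        show ((Real.pi / 2 : ℝ) : ℂ) = _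
        push_cast; rfl
      have hpi : (Real.pi : ℂ) ≠ 0 := by exact_mod_cast Real.pi_ne_zero
      have huC : (u : ℂ) ≠ 0 := by exact_mod_cast hu.ne'
      have hvC : (v : ℂ) ≠ 0 := by exact_mod_cast hv.ne'
      have huvC : (u : ℂ) + v ≠ 0 := by
        have : ((u + v : ℕ) : ℂ) ≠ 0 := by exact_mod_cast (by omega : u + v ≠ 0)
        push_cast at this
        exact this
      have haa : (aa u v : ℂ) = ((v : ℂ) - u) / (u + v) := by
        unfold aa; push_cast; rfl
      rw [hpC, haa] at hN
      rcases hN with hN | hN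
      · -- k = N w1
        have hk1 : k = N * (w1 u v : ℂ) := by
          unfold w1
          push_cast
          have e1 : k * ((Real.pi : ℂ) / 2) - k * ((Real.pi : ℂ) / 2 * (((v : ℂ) - u) / (u + v)))
              = k * Real.pi * u / (u + v) := by
            field_simp
            ring
          have e2 : k * Real.pi * u / (u + v) = 2 * N * Real.pi := by
            rw [← e1, hN]; ring
          rw [div_eq_iff huvC] at e2
          field_simp
          have e3 : (Real.pi : ℂ) * (k * u) = Real.pi * (2 * N * (u + v)) := by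
            linear_combination e2
          have e4 := mul_left_cancel₀ hpi e3
          linear_combination e4
        have hcosk : ∀ x : ℝ, Complex.cos (((N.natAbs : ℝ) * w1 u v : ℝ) * (x : ℂ))
            = Complex.cos (k * x) := by
          intro x
          rw [hk1]
          rcases Int.natAbs_eq N with h | h
          · have : (N : ℂ) = (N.natAbs : ℂ) := by
              rw [h]; simp
            rw [this]; push_cast; rfl
          · have : (N : ℂ) = -(N.natAbs : ℂ) := by
              rw [h]; simp
            rw [this, ← Complex.cos_neg]; push_cast; congr 1; ring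
        refine ⟨Sum.inl N.natAbs, vec_SZ u v _ _ ?_, ?_⟩
        · show ((((N.natAbs : ℕ) : ℝ) * w1 u v : ℝ) : ℂ) ^ 2 = k ^ 2
          rw [hk1]
          rcases Int.natAbs_eq N with h | h
          · have : (N : ℂ) = (N.natAbs : ℂ) := by
              rw [h]; simp
            rw [this]; push_cast; rfl
          · have : (N : ℂ) = -(N.natAbs : ℂ) := by
              rw [h]; simp
            rw [this]; push_cast; ring
        · refine (vec_inl u v _).trans (Eventually.of_forall fun x => ?_)
          show _ = Complex.cos (k * x)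
          rw [← hcosk x]
          simp only [EE]
          ring
      · -- k = N w2
        have hk1 : k = N * (w2 u v : ℂ) := by
          unfold w2
          push_cast
          have e1 : k * ((Real.pi : ℂ) / 2) + k * ((Real.pi : ℂ) / 2 * (((v : ℂ) - u) / (u + v)))
              = k * Real.pi * v / (u + v) := by
            field_simp
            ring
          have e2 : k * Real.pi * v / (u + v) = 2 * N * Real.pi := by
            rw [← e1, hN]; ring
          rw [div_eq_iff huvC] at e2
          field_simp
          have e3 : (Real.pi : ℂ) * (k * v) = Real.pi * (2 * N * (u + v)) := by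
            linear_combination e2
          have e4 := mul_left_cancel₀ hpi e3
          linear_combination e4
        have hnd : ¬ v ∣ N.natAbs := by
          rintro ⟨l, hl⟩
          apply hs
          have hN2 : (N : ℤ) = v * l ∨ (N : ℤ) = -(v * l) := by
            rcases Int.natAbs_eq N with h | h
            · left; rw [h, hl]; push_cast; rfl
            · right; rw [h, hl]; push_cast; rfl
          rw [Complex.sin_eq_zero_iff]
          rcases hN2 with h | h
          · refine ⟨(u + v) * l, ?_⟩
            rw [hk1, hpC, h]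
            unfold w2
            push_cast
            field_simp
          · refine ⟨-((u + v) * l), ?_⟩
            rw [hk1, hpC, h]
            unfold w2
            push_cast
            field_simp
        have hcosk : ∀ x : ℝ, Complex.cos (((N.natAbs : ℝ) * w2 u v : ℝ) * (x : ℂ))
            = Complex.cos (k * x) := by
          intro x
          rw [hk1]
          rcases Int.natAbs_eq N with h | h
          · have : (N : ℂ) = (N.natAbs : ℂ) := by
              rw [h]; simp
            rw [this]; push_cast; rfl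
          · have : (N : ℂ) = -(N.natAbs : ℂ) := by
              rw [h]; simp
            rw [this, ← Complex.cos_neg]; push_cast; congr 1; ring
        refine ⟨Sum.inr (Sum.inl ⟨N.natAbs, hnd⟩), vec_SZ u v _ _ ?_, ?_⟩
        · show ((((N.natAbs : ℕ) : ℝ) * w2 u v : ℝ) : ℂ) ^ 2 = k ^ 2
          rw [hk1]
          rcases Int.natAbs_eq N with h | h
          · have : (N : ℂ) = (N.natAbs : ℂ) := by
              rw [h]; simp
            rw [this]; push_cast; rfl
          · have : (N : ℂ) = -(N.natAbs : ℂ) := by
              rw [h]; simp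
            rw [this]; push_cast; ring
        · refine (vec_inr u v _).trans (Eventually.of_forall fun x => ?_)
          show _ = Complex.cos (k * x)
          rw [← hcosk x]
          simp only [EE]
          ring
    obtain ⟨i, hi1, hi2⟩ := hex
    have hT : ∀ n f, KerPow (aa u v) (k ^ 2) n f → f ∈ Submodule.span ℂ {vec u v i} := by
      apply ker_sub
      intro f g hfg hm
      obtain ⟨α, hα⟩ := Submodule.mem_span_singleton.1 hm
      have h2 : (g - k ^ 2 • f : HH) =ᵐ[mu] fun x : ℝ =>
          α * Complex.cos (k * x) + 0 * Complex.sin (k * x)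
            + 0 * ((x : ℂ) * Complex.sin (k * x)) := by
        rw [← hα]
        refine (ae_smul α _ _ hi2).trans (Eventually.of_forall fun x => ?_)
        ring
      obtain ⟨A, B, h3, h4, h5⟩ := ode_main (aa u v) (aa_lt u v hu hv) k hk α 0 0 f g hfg h2
      simp only [zero_div, sub_zero] at h3 h4 h5
      rw [EE_neg, EE_pi] at h4
      rw [EE_a, EE_pi, hc] at h5
      have hB : B = 0 := by
        have e1 : B * Complex.sin (k * hp) = 0 := by
          linear_combination (-1 / 2 : ℂ) * h4
        exact (mul_eq_zero.1 e1).resolve_right hs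
      have hα0 : α = 0 := by
        by_contra hne
        rw [hB] at h5
        have e1 : α / (2 * k) * hp * (Complex.sin (k * hp)
            - (aa u v : ℂ) * Complex.sin (k * (hp * (aa u v : ℂ)))) = 0 := by
          linear_combination h5
        have hne' : α / (2 * k) ≠ 0 := div_ne_zero hne (mul_ne_zero two_ne_zero hk)
        have e2 := (mul_eq_zero.1 e1).resolve_left (mul_ne_zero hne' hhp)
        have e3 := Complex.sin_sq_add_cos_sq (k * hp)
        have e4 := Complex.sin_sq_add_cos_sq (k * (hp * (aa u v : ℂ)))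
        rw [hc] at e4
        have e5 : Complex.sin (k * hp) ^ 2 * (1 - (aa u v : ℂ) ^ 2) = 0 := by
          have e6 : Complex.sin (k * hp) = (aa u v : ℂ) * Complex.sin (k * (hp * (aa u v : ℂ))) := by
            linear_combination e2
          have e7 : Complex.sin (k * hp) ^ 2
              = (aa u v : ℂ) ^ 2 * Complex.sin (k * (hp * (aa u v : ℂ))) ^ 2 := by
            rw [← mul_pow, ← e6]
          have e8 : Complex.sin (k * (hp * (aa u v : ℂ))) ^ 2 = Complex.sin (k * hp) ^ 2 := by
            linear_combination e4 - e3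
          rw [e8] at e7
          linear_combination e7
        have e6 : (1 - (aa u v : ℂ) ^ 2) ≠ 0 := by
          have h := aa_lt u v hu hv
          have : (1 - (aa u v) ^ 2 : ℝ) ≠ 0 := by
            rw [abs_lt] at h
            nlinarith
          exact_mod_cast this
        exact hs (pow_eq_zero_iff (two_ne_zero) |>.1 ((mul_eq_zero.1 e5).resolve_right e6))
      rw [Submodule.mem_span_singleton]
      refine ⟨A, hh_ext _ _ _ _ (ae_smul A _ _ hi2) h3 (fun x => ?_)⟩
      rw [hB, hα0]
      simp only [EE]
      simp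
    exact (Submodule.span_singleton_le_iff_mem _ _).2 hi1 (hT n f hf)
  · have hT : ∀ n f, KerPow (aa u v) (k ^ 2) n f → f ∈ (⊥ : Submodule ℂ HH) := by
      apply ker_sub
      intro f g hfg hm
      rw [Submodule.mem_bot] at hm
      obtain ⟨A, B, h3, h4, h5⟩ := ode_main (aa u v) (aa_lt u v hu hv) k hk 0 0 0 f g hfg
        (ae_zero_sub k f g hm)
      simp only [zero_div, sub_zero, neg_zero] at h3 h4 h5
      rw [EE_neg, EE_pi] at h4
      rw [EE_a, EE_pi] at h5
      have hB : B = 0 := by
        have e1 : B * Complex.sin (k * hp) = 0 := by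
          linear_combination (-1 / 2 : ℂ) * h4
        exact (mul_eq_zero.1 e1).resolve_right hs
      have hA : A = 0 := by
        rw [hB] at h5
        have e1 : A * (Complex.cos (k * (hp * (aa u v : ℂ))) - Complex.cos (k * hp)) = 0 := by
          linear_combination h5
        exact (mul_eq_zero.1 e1).resolve_right (sub_ne_zero.2 hc)
      rw [Submodule.mem_bot]
      refine hh_ext _ _ _ _ h3 (Lp.coeFn_zero ℂ 2 mu) (fun x => ?_)
      rw [hA, hB]
      simp [EE]
    have := hT n f hf
    rw [Submodule.mem_bot] at this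
    rw [this]
    exact Submodule.zero_mem _

include hu hv in
theorem caseB (hcop : u.Coprime v) (m : ℕ) (hm : 0 < m) (f : HH) (n : ℕ)
    (hf : KerPow (aa u v) ((((m : ℝ) * 2 : ℝ) : ℂ) ^ 2) n f) :
    f ∈ SZ u v ((((m : ℝ) * 2 : ℝ) : ℂ) ^ 2) := by
  have hu' : (0 : ℝ) < u := by exact_mod_cast hu
  have hv' : (0 : ℝ) < v := by exact_mod_cast hv
  have hhp := hp_ne
  set k : ℂ := (((m : ℝ) * 2 : ℝ) : ℂ) with hkd
  have hk : k ≠ 0 := by
    rw [hkd]
    have : (m : ℝ) * 2 ≠ 0 := by positivity
    exact Complex.ofReal_ne_zero.2 this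
  have hs : Complex.sin (k * hp) = 0 := by
    rw [hkd, cast_sin, bc4s, Complex.ofReal_zero]
  have hc0 : Complex.cos (k * hp) ≠ 0 := by
    intro h
    have := Complex.sin_sq_add_cos_sq (k * hp)
    rw [hs, h] at this
    norm_num at this
  have hm1 : sc (m - 1) = m := by unfold sc; omega
  have hVs := vec_s u v (m - 1)
  rw [hm1] at hVs
  have hVm : vec u v (Sum.inr (Sum.inr (Sum.inr (m - 1)))) ∈ SZ u v (k ^ 2) := by
    apply vec_SZ
    show ((((sc (m - 1) : ℕ) : ℝ) * 2 : ℝ) : ℂ) ^ 2 = k ^ 2
    rw [hm1]
  have hbc : Complex.sin (k * (hp * (aa u v : ℂ)))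
      + (cc u v m : ℂ) * Complex.cos (k * (hp * (aa u v : ℂ)))
      = (cc u v m : ℂ) * Complex.cos (k * hp) := by
    rw [hkd, cast_sina, cast_cosa, cast_cos]
    exact_mod_cast bc4 u v hu m
  by_cases hD : (u + v) ∣ m
  · -- three dimensional root space
    obtain ⟨L, rfl⟩ := hD
    have hL : 0 < L := by
      rcases Nat.eq_zero_or_pos L with h | h
      · subst h; simp at hm
      · exact h
    have hL1 : sc (L - 1) = L := by unfold sc; omega
    have hkL : (((u + v) * L : ℕ) : ℝ) * 2 = (L : ℝ) * w3 u v := by
      unfold w3; push_cast; ring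
    have hkL1 : (((u + v) * L : ℕ) : ℝ) * 2 = ((u * L : ℕ) : ℝ) * w1 u v := by
      unfold w1; push_cast; field_simp
    have hcc0 : cc u v ((u + v) * L) = 0 := by
      unfold cc
      have : Real.pi * (((u + v) * L : ℕ) : ℝ) * u / (u + v) = ((L * u : ℕ) : ℝ) * Real.pi := by
        push_cast; field_simp
      rw [this, Real.sin_nat_mul_pi, div_zero]
    have hsa : Complex.sin (k * (hp * (aa u v : ℂ))) = 0 := by
      rw [hkd, cast_sina, hkL, bc3a u v hu, Complex.ofReal_zero]
    have hca : Complex.cos (k * (hp * (aa u v : ℂ))) = Complex.cos (k * hp) := by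
      rw [hkd, cast_cosa, cast_cos, hkL, bc3c u v hu]
    have hVc := vec_inl u v (u * L)
    rw [← hkL1] at hVc
    have hVx := vec_x u v (L - 1)
    rw [hL1, ← hkL] at hVx
    have hVcm : vec u v (Sum.inl (u * L)) ∈ SZ u v (k ^ 2) := by
      apply vec_SZ
      show ((((u * L : ℕ) : ℝ) * w1 u v : ℝ) : ℂ) ^ 2 = k ^ 2
      rw [← hkL1]
    have hVxm : vec u v (Sum.inr (Sum.inr (Sum.inl (L - 1)))) ∈ SZ u v (k ^ 2) := by
      apply vec_SZ
      show ((((sc (L - 1) : ℕ) : ℝ) * w3 u v : ℝ) : ℂ) ^ 2 = k ^ 2
      rw [hL1, ← hkL]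
    rw [hcc0] at hVs
    set Vc := vec u v (Sum.inl (u * L))
    set Vs := vec u v (Sum.inr (Sum.inr (Sum.inr ((u + v) * L - 1))))
    set Vx := vec u v (Sum.inr (Sum.inr (Sum.inl (L - 1))))
    have hT : ∀ n f, KerPow (aa u v) (k ^ 2) n f → f ∈ Submodule.span ℂ {Vc, Vs, Vx} := by
      apply ker_sub
      intro f g hfg hmm
      obtain ⟨α, β, γ, hα⟩ := Submodule.mem_span_triple.1 hmm
      have h2 : (g - k ^ 2 • f : HH) =ᵐ[mu] fun x : ℝ =>
          α * Complex.cos (k * x) + β * Complex.sin (k * x)
            + γ * ((x : ℂ) * Complex.sin (k * x)) := by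
        rw [← hα]
        refine (ae_add _ _ _ _ (ae_add _ _ _ _ (ae_smul α _ _ hVc) (ae_smul β _ _ hVs))
          (ae_smul γ _ _ hVx)).trans (Eventually.of_forall fun x => ?_)
        simp only [EE, ← hkd]
        push_cast
        ring
      obtain ⟨A, B, h3, h4, h5⟩ := ode_main (aa u v) (aa_lt u v hu hv) k hk α β γ f g hfg h2
      rw [EE_neg, EE_pi, hs] at h4
      rw [EE_a, EE_pi, hs, hsa, hca] at h5
      have hβ : β = 0 := by
        have e1 : β / (2 * k) * (hp * Complex.cos (k * hp)) = 0 := by
          linear_combination (-1 / 2 : ℂ) * h4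
        have e2 := (mul_eq_zero.1 e1).resolve_right (mul_ne_zero hhp hc0)
        exact (div_eq_zero_iff.1 e2).resolve_right (mul_ne_zero two_ne_zero hk)
      have hγ : γ = 0 := by
        rw [hβ] at h5
        have e6 : (1 - (aa u v : ℂ) ^ 2) ≠ 0 := by
          have h := aa_lt u v hu hv
          have : (1 - (aa u v) ^ 2 : ℝ) ≠ 0 := by
            rw [abs_lt] at h
            nlinarith
          exact_mod_cast this
        have e1 : γ / (4 * k) * (hp ^ 2 * (1 - (aa u v : ℂ) ^ 2) * Complex.cos (k * hp)) = 0 := by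
          linear_combination (-1 : ℂ) * h5
        have e2 := (mul_eq_zero.1 e1).resolve_right
          (mul_ne_zero (mul_ne_zero (pow_ne_zero _ hhp) e6) hc0)
        exact (div_eq_zero_iff.1 e2).resolve_right (mul_ne_zero (by norm_num : (4 : ℂ) ≠ 0) hk)
      rw [Submodule.mem_span_triple]
      refine ⟨A, B, -(α / (2 * k)), hh_ext _ _ _ _ (ae_add _ _ _ _ (ae_add _ _ _ _
        (ae_smul A _ _ hVc) (ae_smul B _ _ hVs)) (ae_smul (-(α / (2 * k))) _ _ hVx)) h3
        (fun x => ?_)⟩
      rw [hβ, hγ]
      simp only [EE, ← hkd]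
      push_cast
      ring
    have h1 := hT n f hf
    have h2 : Submodule.span ℂ {Vc, Vs, Vx} ≤ SZ u v (k ^ 2) := by
      rw [Submodule.span_le]
      rintro y (rfl | rfl | rfl)
      · exact hVcm
      · exact hVm
      · exact hVxm
    exact h2 h1
  · have hca : Complex.cos (k * (hp * (aa u v : ℂ))) ≠ Complex.cos (k * hp) := by
      rw [hkd, cast_cosa, cast_cos]
      intro h
      have h1 : Real.cos ((m : ℝ) * 2 * (Real.pi / 2 * aa u v))
          = Real.cos ((m : ℝ) * 2 * (Real.pi / 2)) := by exact_mod_cast h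
      have e1 : (m : ℝ) * 2 * (Real.pi / 2) = (m : ℝ) * Real.pi := by ring
      rw [arg4 u v hu m, e1, Real.cos_sub, Real.sin_nat_mul_pi, zero_mul, add_zero] at h1
      have h2 : Real.cos ((m : ℝ) * Real.pi) ≠ 0 := by
        intro h0
        have := Real.sin_sq_add_cos_sq ((m : ℝ) * Real.pi)
        rw [Real.sin_nat_mul_pi, h0] at this
        norm_num at this
      have h3 : Real.cos (2 * (Real.pi * m * u / (u + v))) = 1 := by
        have : Real.cos ((m : ℝ) * Real.pi) * Real.cos (2 * (Real.pi * m * u / (u + v)))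
            = Real.cos ((m : ℝ) * Real.pi) * 1 := by rw [h1, mul_one]
        exact mul_left_cancel₀ h2 this
      rw [Real.cos_eq_one_iff] at h3
      obtain ⟨N, hN⟩ := h3
      have h4 : (N : ℝ) * (u + v) = m * u := by
        have hpi := Real.pi_ne_zero
        have e2 : (N : ℝ) * (2 * Real.pi) * (u + v) = 2 * (Real.pi * m * u) := by
          rw [hN]; field_simp
        have e3 : (2 * Real.pi) * ((N : ℝ) * (u + v)) = (2 * Real.pi) * (m * u) := by
          linear_combination e2
        exact mul_left_cancel₀ (by positivity) e3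
      have h5 : N * ((u + v : ℕ) : ℤ) = ((m * u : ℕ) : ℤ) := by
        have : ((N * ((u + v : ℕ) : ℤ) : ℤ) : ℝ) = (((m * u : ℕ) : ℤ) : ℝ) := by
          push_cast; exact h4
        exact_mod_cast this
      have h6 : (u + v) ∣ m * u := by
        rw [← Int.natCast_dvd_natCast]
        exact ⟨N, by rw [← h5]; ring⟩
      have h7 : (u + v).Coprime u := by
        simpa using hcop.symm
      exact hD (h7.dvd_of_dvd_mul_right h6)
    set V := vec u v (Sum.inr (Sum.inr (Sum.inr (m - 1))))
    have hT : ∀ n f, KerPow (aa u v) (k ^ 2) n f → f ∈ Submodule.span ℂ {V} := by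
      apply ker_sub
      intro f g hfg hmm
      obtain ⟨b, hb⟩ := Submodule.mem_span_singleton.1 hmm
      have h2 : (g - k ^ 2 • f : HH) =ᵐ[mu] fun x : ℝ =>
          (b * (cc u v m : ℂ)) * Complex.cos (k * x) + b * Complex.sin (k * x)
            + 0 * ((x : ℂ) * Complex.sin (k * x)) := by
        rw [← hb]
        refine (ae_smul b _ _ hVs).trans (Eventually.of_forall fun x => ?_)
        simp only [EE, ← hkd]
        ring
      obtain ⟨A, B, h3, h4, h5⟩ := ode_main (aa u v) (aa_lt u v hu hv) k hk _ b 0 f g hfg h2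
      simp only [zero_div, sub_zero] at h3 h4 h5
      rw [EE_neg, EE_pi, hs] at h4
      have hb0 : b = 0 := by
        have e1 : b / (2 * k) * (hp * Complex.cos (k * hp)) = 0 := by
          linear_combination (-1 / 2 : ℂ) * h4
        have e2 := (mul_eq_zero.1 e1).resolve_right (mul_ne_zero hhp hc0)
        exact (div_eq_zero_iff.1 e2).resolve_right (mul_ne_zero two_ne_zero hk)
      rw [EE_a, EE_pi, hs, hb0] at h5
      simp only [zero_mul, zero_div, neg_zero, mul_zero, add_zero] at h5
      have hAB : A = B * (cc u v m : ℂ) := by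
        have e1 : (A - B * (cc u v m : ℂ)) * (Complex.cos (k * (hp * (aa u v : ℂ)))
            - Complex.cos (k * hp)) = 0 := by
          linear_combination h5 - B * hbc
        exact sub_eq_zero.1 ((mul_eq_zero.1 e1).resolve_right (sub_ne_zero.2 hca))
      rw [Submodule.mem_span_singleton]
      refine ⟨B, hh_ext _ _ _ _ (ae_smul B _ _ hVs) h3 (fun x => ?_)⟩
      rw [hb0, hAB]
      simp only [EE, ← hkd]
      simp
      ring
    exact (Submodule.span_singleton_le_iff_mem _ _).2 hVm (hT n f hf)

include hu hv in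
theorem root_sub (hcop : u.Coprime v) (z : ℂ) (f : HH) (n : ℕ) (hf : KerPow (aa u v) z n f) :
    f ∈ SZ u v z := by
  by_cases hz : z = 0
  · subst hz
    exact caseZero u v hu hv f n hf
  · obtain ⟨k, hk⟩ := IsAlgClosed.exists_pow_nat_eq z (n := 2) (by norm_num)
    subst hk
    have hk0 : k ≠ 0 := by
      rintro rfl
      exact hz (by norm_num)
    by_cases hs : Complex.sin (k * hp) = 0
    · rw [Complex.sin_eq_zero_iff] at hs
      obtain ⟨N, hN⟩ := hs
      have hpC : hp = (Real.pi : ℂ) / 2 := by
        show ((Real.pi / 2 : ℝ) : ℂ) = _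
        push_cast; rfl
      have hpi : (Real.pi : ℂ) ≠ 0 := by exact_mod_cast Real.pi_ne_zero
      rw [hpC] at hN
      have hkN : k = 2 * N := by
        have e1 : (Real.pi : ℂ) * k = Real.pi * (2 * N) := by linear_combination 2 * hN
        exact mul_left_cancel₀ hpi e1
      have hk2 : k ^ 2 = ((((N.natAbs : ℕ) : ℝ) * 2 : ℝ) : ℂ) ^ 2 := by
        rw [hkN]
        rcases Int.natAbs_eq N with h | h
        · have : (N : ℂ) = (N.natAbs : ℂ) := by
            rw [h]; simp
          rw [this]; push_cast; ring
        · have : (N : ℂ) = -(N.natAbs : ℂ) := by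
            rw [h]; simp
          rw [this]; push_cast; ring
      have hN0 : 0 < N.natAbs := by
        rcases Nat.eq_zero_or_pos N.natAbs with h | h
        · exfalso
          rw [Int.natAbs_eq_zero] at h
          rw [h] at hkN
          apply hk0
          rw [hkN]; simp
        · exact h
      rw [hk2] at hf ⊢
      exact caseB u v hu hv hcop N.natAbs hN0 f n hf
    · exact caseA u v hu hv k hk0 hs f n hf

include hu hv in
theorem root_eq (hcop : u.Coprime v) (z : ℂ) : SZ u v z = rootSp (aa u v) z := by
  apply le_antisymm (SZ_le u v hu hv z)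
  rintro f ⟨n, hf⟩
  exact root_sub u v hu hv hcop z f n hf

end main

end Pool.Agent.R508.BR
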