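import Mathlib

set_option autoImplicit false

/-! The basilica automaton on finite words (helper508, MP_6db48f_an; proof by helper243). -/

namespace Pool.Agent.R508.Bas

mutual
/-- the generator `a` of the basilica group (`false = 0`, `true = 1`) -/
def ba : List Bool → List Bool
  | [] => []
  | false :: w => false :: w
  | true :: w => true :: bb w
/-- the generator `b` of the basilica group -/
def bb : List Bool → List Bool
  | [] => []
  | false :: w => true :: w
  | true :: w => false :: ba w
end

theorem ba_nil : ba [] = [] := by simp [ba]
theorem ba_f (w : List Bool) : ba (false :: w) = false :: w := by simp [ba]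
theorem ba_t (w : List Bool) : ba (true :: w) = true :: bb w := by simp [ba]
theorem bb_nil : bb [] = [] := by simp [bb]
theorem bb_f (w : List Bool) : bb (false :: w) = true :: w := by simp [bb]
theorem bb_t (w : List Bool) : bb (true :: w) = false :: ba w := by simp [bb]

theorem len_ab (w : List Bool) : (ba w).length = w.length ∧ (bb w).length = w.length := by
  induction w with
  | nil => simp [ba_nil, bb_nil]
  | cons x w ih =>
    cases x
    · simp [ba_f, bb_f]
    · simp [ba_t, bb_t, ih.1, ih.2]

theorem ba_len (w : List Bool) : (ba w).length = w.length := (len_ab w).1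
theorem bb_len (w : List Bool) : (bb w).length = w.length := (len_ab w).2

theorem inj_ab (w : List Bool) : (∀ w', ba w = ba w' → w = w') ∧ (∀ w', bb w = bb w' → w = w') := by
  induction w with
  | nil =>
    constructor
    · intro w' h
      have := congrArg List.length h
      rw [ba_len, ba_len] at this
      exact (List.length_eq_zero_iff.1 this.symm).symm
    · intro w' h
      have := congrArg List.length h
      rw [bb_len, bb_len] at this
      exact (List.length_eq_zero_iff.1 this.symm).symm
  | cons x w ih =>
    constructor
    · intro w' h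
      cases w' with
      | nil =>
        have := congrArg List.length h
        rw [ba_len, ba_len] at this
        simp at this
      | cons x' w' =>
        cases x <;> cases x' <;> simp only [ba_f, ba_t, List.cons.injEq] at h ⊢
        · exact h
        · simp at h
        · simp at h
        · exact ⟨trivial, ih.2 _ h.2⟩
    · intro w' h
      cases w' with
      | nil =>
        have := congrArg List.length h
        rw [bb_len, bb_len] at this
        simp at this
      | cons x' w' =>
        cases x <;> cases x' <;> simp only [bb_f, bb_t, List.cons.injEq] at h ⊢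
        · exact ⟨trivial, h.2⟩
        · simp at h
        · simp at h
        · exact ⟨trivial, ih.1 _ h.2⟩

theorem ba_inj : Function.Injective ba := fun w w' h => (inj_ab w).1 w' h
theorem bb_inj : Function.Injective bb := fun w w' h => (inj_ab w).2 w' h

theorem drop_ab (w : List Bool) :
    (ba w).dropLast = ba w.dropLast ∧ (bb w).dropLast = bb w.dropLast := by
  induction w with
  | nil => simp [ba_nil, bb_nil]
  | cons x w ih =>
    cases w with
    | nil => cases x <;> simp [ba_f, bb_f, ba_t, bb_t, ba_nil, bb_nil]
    | cons y w =>
      have h1 : ∀ z, (z :: ba (y :: w)).dropLast = z :: (ba (y :: w)).dropLast := by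
        intro z
        refine List.dropLast_cons_of_ne_nil ?_
        intro h
        have := ba_len (y :: w)
        rw [h] at this
        simp at this
      have h2 : ∀ z, (z :: bb (y :: w)).dropLast = z :: (bb (y :: w)).dropLast := by
        intro z
        refine List.dropLast_cons_of_ne_nil ?_
        intro h
        have := bb_len (y :: w)
        rw [h] at this
        simp at this
      cases x
      · simp only [ba_f, bb_f, List.dropLast_cons_cons]
        exact ⟨trivial, trivial⟩
      · simp only [ba_t, bb_t, List.dropLast_cons_cons, h1, h2, ih.1, ih.2]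
        exact ⟨trivial, trivial⟩

theorem ba_drop (w : List Bool) : (ba w).dropLast = ba w.dropLast := (drop_ab w).1
theorem bb_drop (w : List Bool) : (bb w).dropLast = bb w.dropLast := (drop_ab w).2

/-! ### positions -/

/-- `1` if all letters of even position are `1`, otherwise `0` -/
def cw : List Bool → ℤ
  | [] => 1
  | [_] => 1
  | _ :: false :: _ => 0
  | _ :: true :: w => cw w

/-- position of a word (of odd length) -/
def pw : List Bool → ℤ
  | [] => 0
  | [false] => 0
  | [true] => 1
  | true :: _ :: w => 2 * pw w
  | false :: false :: w => 2 * pw w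
  | false :: true :: w => 2 * pw w - cw w

theorem cw_mem (w : List Bool) : cw w = 0 ∨ cw w = 1 := by
  fun_induction cw w <;> simp_all

theorem cw_bb : ∀ (k : ℕ) (w : List Bool), w.length = 2 * k + 1 → cw (bb w) = cw w := by
  intro k
  induction k with
  | zero =>
    intro w hw
    obtain ⟨x, rfl⟩ := List.length_eq_one_iff.1 hw
    cases x <;> simp [bb_f, bb_t, ba_nil, cw]
  | succ k ih =>
    intro w hw
    match w, hw with
    | x :: y :: w, hw =>
      have hw' : w.length = 2 * k + 1 := by simp at hw; omega
      cases x
      · cases y <;> simp [bb_f, cw]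
      · cases y
        · simp [bb_t, ba_f, cw]
        · simp [bb_t, ba_t, cw, ih w hw']

theorem pos_ab : ∀ (k : ℕ) (w : List Bool), w.length = 2 * k + 1 →
    ((2 : ℤ) ^ (k + 1) ∣ pw (ba w) - pw w) ∧ ((2 : ℤ) ^ (k + 1) ∣ pw (bb w) - pw w - cw w) := by
  intro k
  induction k with
  | zero =>
    intro w hw
    obtain ⟨x, rfl⟩ := List.length_eq_one_iff.1 hw
    cases x <;> simp [bb_f, bb_t, ba_f, ba_t, ba_nil, bb_nil, cw, pw]
  | succ k ih =>
    intro w hw
    match w, hw with
    | x :: y :: w, hw =>
      have hw' : w.length = 2 * k + 1 := by simp at hw; omega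
      obtain ⟨⟨u, hu⟩, ⟨v, hv⟩⟩ := ih w hw'
      have hc := cw_bb k w hw'
      cases x
      · cases y
        · constructor
          · simp [ba_f]
          · simp [bb_f, cw, pw]
        · constructor
          · simp [ba_f]
          · simp [bb_f, cw, pw]
      · cases y
        · constructor
          · simp [ba_t, bb_f, pw]
          · simp [bb_t, ba_f, pw, cw]
        · constructor
          · simp only [ba_t, bb_t, pw]
            exact ⟨u, by rw [← mul_sub, hu]; ring⟩
          · simp only [ba_t, bb_t, pw, cw, hc]
            exact ⟨v, by linear_combination 2 * hv⟩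

theorem cw_last : ∀ (k : ℕ) (w : List Bool) (x y : Bool), w.length = 2 * k →
    cw (w ++ [x]) = cw (w ++ [y]) := by
  intro k
  induction k with
  | zero =>
    intro w x y hw
    have : w = [] := List.length_eq_zero_iff.1 hw
    subst this
    simp [cw]
  | succ k ih =>
    intro w x y hw
    match w, hw with
    | s :: t :: w, hw =>
      have hw' : w.length = 2 * k := by simp at hw; omega
      cases t
      · simp [cw]
      · simp only [List.cons_append, cw]
        exact ih w x y hw'

theorem pw_last : ∀ (k : ℕ) (w : List Bool), w.length = 2 * k →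
    pw (w ++ [true]) - pw (w ++ [false]) = 2 ^ k := by
  intro k
  induction k with
  | zero =>
    intro w hw
    have : w = [] := List.length_eq_zero_iff.1 hw
    subst this
    simp [pw]
  | succ k ih =>
    intro w hw
    match w, hw with
    | s :: t :: w, hw =>
      have hw' : w.length = 2 * k := by simp at hw; omega
      have h1 := ih w hw'
      have h2 := cw_last k w true false hw'
      cases s <;> cases t <;> simp only [List.cons_append, pw]
      · rw [← mul_sub, h1]; ring
      · rw [h2]; linear_combination 2 * h1
      · rw [← mul_sub, h1]; ring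
      · rw [← mul_sub, h1]; ring

/-- conclusion of the combinatorial part -/
theorem exists_pos (m : ℕ) : ∃ P : List Bool → ℤ,
    (∀ w : List Bool, w.length = m + 1 →
      (∃ e : ℤ, |e| ≤ 1 ∧ (2 * 2 ^ (m / 2) : ℤ) ∣ P (ba w) - P w - e) ∧
      (∃ e : ℤ, |e| ≤ 1 ∧ (2 * 2 ^ (m / 2) : ℤ) ∣ P (bb w) - P w - e)) ∧
    (∀ v : List Bool, v.length = m → P (v ++ [true]) - P (v ++ [false]) = 2 ^ (m / 2)) := by
  have hcabs : ∀ w, |cw w| ≤ 1 := by
    intro w
    rcases cw_mem w with h | h <;> rw [h] <;> simp
  rcases Nat.even_or_odd' m with ⟨k, rfl | rfl⟩
  · have hk : 2 * k / 2 = k := by omega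
    rw [hk]
    refine ⟨pw, fun w hw => ?_, fun v hv => pw_last k v hv⟩
    obtain ⟨h1, h2⟩ := pos_ab k w hw
    rw [pow_succ'] at h1 h2
    exact ⟨⟨0, by simp, by simpa using h1⟩, ⟨cw w, hcabs w, h2⟩⟩
  · have hk : (2 * k + 1) / 2 = k := by omega
    rw [hk]
    refine ⟨fun w => pw w.tail, fun w hw => ?_, fun v hv => ?_⟩
    · match w, hw with
      | x :: w, hw =>
        have hw' : w.length = 2 * k + 1 := by simpa using hw
        obtain ⟨h1, h2⟩ := pos_ab k w hw'
        rw [pow_succ'] at h1 h2
        cases x
        · exact ⟨⟨0, by simp, by simp [ba_f]⟩, ⟨0, by simp, by simp [bb_f]⟩⟩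
        · exact ⟨⟨cw w, hcabs w, by simpa [ba_t] using h2⟩, ⟨0, by simp, by simpa [bb_t] using h1⟩⟩
    · match v, hv with
      | x :: v, hv =>
        have hv' : v.length = 2 * k := by simpa using hv
        simpa using pw_last k v hv'

end Pool.Agent.R508.Bas
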