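import Mathlib
import Pool.Agent.R508.BasWords

set_option autoImplicit false

/-! Laplacians of the basilica Schreier graphs: the trace lemma
(helper508, MP_6db48f_an; proof by helper243). -/

open Finset

namespace Pool.Agent.R508.Bas

/-- vertices of `Γ n` -/
abbrev V (n : ℕ) : Type := List.Vector Bool n

/-- `a` on `V n` -/
def aV (n : ℕ) (w : V n) : V n := ⟨ba w.1, (ba_len w.1).trans w.2⟩

/-- `b` on `V n` -/
def bV (n : ℕ) (w : V n) : V n := ⟨bb w.1, (bb_len w.1).trans w.2⟩

theorem aV_inj (n : ℕ) : Function.Injective (aV n) := fun _ _ h =>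
  Subtype.ext (ba_inj (congrArg Subtype.val h))

theorem bV_inj (n : ℕ) : Function.Injective (bV n) := fun _ _ h =>
  Subtype.ext (bb_inj (congrArg Subtype.val h))

/-- indicator -/
noncomputable def ind (p : Prop) : ℝ := by
  classical exact if p then 1 else 0

theorem ind_congr {p q : Prop} (h : p ↔ q) : ind p = ind q := by
  rw [propext h]

theorem ind_nonneg (p : Prop) : 0 ≤ ind p := by
  unfold ind; split_ifs <;> norm_num

theorem ind_ne {p : Prop} (h : ind p ≠ 0) : p := by
  by_contra hc
  exact h (by unfold ind; simp [hc])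

theorem ind_true {p : Prop} (h : p) : ind p = 1 := by unfold ind; simp [h]

theorem ind_false {p : Prop} (h : ¬ p) : ind p = 0 := by unfold ind; simp [h]

/-- matrix of a map -/
noncomputable def PM {α : Type*} (f : α → α) : Matrix α α ℝ := fun x y => ind (f x = y)

/-- the Laplacian of `Γ n` -/
noncomputable def Del (n : ℕ) : Matrix (V n) (V n) ℝ :=
  fun x y => ind (x = y) - (1 / 4) * (PM (aV n) x y + PM (aV n) y x + PM (bV n) x y + PM (bV n) y x)

theorem Del_symm (n : ℕ) (x y : V n) : Del n x y = Del n y x := by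
  unfold Del
  rw [ind_congr (eq_comm (a := x) (b := y))]
  ring

/-- forgetting the last letter -/
def dr {n : ℕ} (p : V (n + 1)) : V n := ⟨p.1.dropLast, by rw [List.length_dropLast, p.2]; rfl⟩

theorem dr_a {n : ℕ} (p : V (n + 1)) : dr (aV (n + 1) p) = aV n (dr p) :=
  Subtype.ext (ba_drop p.1)

theorem dr_b {n : ℕ} (p : V (n + 1)) : dr (bV (n + 1) p) = bV n (dr p) :=
  Subtype.ext (bb_drop p.1)

/-- covering property, forward -/
theorem cov1 {n : ℕ} (f : V (n + 1) → V (n + 1)) (g : V n → V n) (h : ∀ p, dr (f p) = g (dr p))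
    (p : V (n + 1)) (w : V n) :
    ∑ q, PM f p q * ind (dr q = w) = PM g (dr p) w := by
  unfold PM
  rw [Finset.sum_eq_single (f p)]
  · rw [ind_true rfl, one_mul]
    exact ind_congr (by rw [h])
  · intro q _ hq
    rw [ind_false (Ne.symm hq), zero_mul]
  · intro hf
    exact absurd (mem_univ _) hf

/-- covering property, backward -/
theorem cov2 {n : ℕ} (f : V (n + 1) → V (n + 1)) (g : V n → V n) (hf : Function.Injective f)
    (hg : Function.Injective g) (h : ∀ p, dr (f p) = g (dr p)) (p : V (n + 1)) (w : V n) :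
    ∑ q, PM f q p * ind (dr q = w) = PM g w (dr p) := by
  obtain ⟨p', rfl⟩ := (Finite.injective_iff_surjective.1 hf) p
  unfold PM
  rw [Finset.sum_eq_single p']
  · rw [ind_true rfl, one_mul]
    refine ind_congr ?_
    rw [h]
    exact ⟨fun e => by rw [e], fun e => (hg e).symm⟩
  · intro q _ hq
    rw [ind_false (fun e => hq (hf e)), zero_mul]
  · intro hf
    exact absurd (mem_univ _) hf

theorem cov (n : ℕ) (p : V (n + 1)) (w : V n) :
    ∑ q, Del (n + 1) p q * ind (dr q = w) = Del n (dr p) w := by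
  have h1 := cov1 _ _ (fun p => dr_a (n := n) p) p w
  have h2 := cov1 _ _ (fun p => dr_b (n := n) p) p w
  have h3 := cov2 _ _ (aV_inj _) (aV_inj _) (fun p => dr_a (n := n) p) p w
  have h4 := cov2 _ _ (bV_inj _) (bV_inj _) (fun p => dr_b (n := n) p) p w
  have h0 : ∑ q, ind (p = q) * ind (dr q = w) = ind (dr p = w) := by
    rw [Finset.sum_eq_single p]
    · rw [ind_true rfl, one_mul]
    · intro q _ hq
      rw [ind_false (Ne.symm hq), zero_mul]
    · intro hf
      exact absurd (mem_univ _) hf
  unfold Del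
  rw [← h0, ← h1, ← h2, ← h3, ← h4]
  simp only [← Finset.sum_add_distrib, Finset.mul_sum, ← Finset.sum_sub_distrib]
  refine Finset.sum_congr rfl fun q _ => ?_
  ring

theorem cov_pow (n j : ℕ) : ∀ (p : V (n + 1)) (w : V n),
    ∑ q, (Del (n + 1) ^ j) p q * ind (dr q = w) = (Del n ^ j) (dr p) w := by
  induction j with
  | zero =>
    intro p w
    simp only [pow_zero]
    rw [Finset.sum_eq_single p]
    · rw [Matrix.one_apply_eq, one_mul, Matrix.one_apply]
      by_cases h : dr p = w
      · rw [ind_true h, if_pos h]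
      · rw [ind_false h, if_neg h]
    · intro q _ hq
      rw [Matrix.one_apply_ne (Ne.symm hq), zero_mul]
    · intro hf
      exact absurd (mem_univ _) hf
  | succ j ih =>
    intro p w
    simp only [pow_succ, Matrix.mul_apply, Finset.sum_mul]
    rw [Finset.sum_comm]
    have h1 : ∀ r, ∑ q, (Del (n + 1) ^ j) p r * Del (n + 1) r q * ind (dr q = w)
        = ∑ v, (Del (n + 1) ^ j) p r * ind (dr r = v) * Del n v w := by
      intro r
      have e1 : ∑ q, (Del (n + 1) ^ j) p r * Del (n + 1) r q * ind (dr q = w)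
          = (Del (n + 1) ^ j) p r * ∑ q, Del (n + 1) r q * ind (dr q = w) := by
        rw [Finset.mul_sum]
        exact Finset.sum_congr rfl fun q _ => by ring
      rw [e1, cov, Finset.sum_eq_single (dr r)]
      · rw [ind_true rfl, mul_one]
      · intro v _ hv
        rw [ind_false (Ne.symm hv)]
        ring
      · intro hf
        exact absurd (mem_univ _) hf
    rw [Finset.sum_congr rfl fun r _ => h1 r, Finset.sum_comm]
    refine Finset.sum_congr rfl fun v _ => ?_
    rw [← ih p v, Finset.sum_mul]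

/-- support of the powers -/
theorem supp_pow (n : ℕ) (P : List Bool → ℤ) (M : ℤ)
    (hP : ∀ w : List Bool, w.length = n →
      (∃ e : ℤ, |e| ≤ 1 ∧ M ∣ P (ba w) - P w - e) ∧ (∃ e : ℤ, |e| ≤ 1 ∧ M ∣ P (bb w) - P w - e))
    (j : ℕ) : ∀ p q : V n, (Del n ^ j) p q ≠ 0 → ∃ e : ℤ, |e| ≤ j ∧ M ∣ P q.1 - P p.1 - e := by
  have h1 : ∀ p q : V n, Del n p q ≠ 0 → ∃ e : ℤ, |e| ≤ 1 ∧ M ∣ P q.1 - P p.1 - e := by
    intro p q h
    by_cases h0 : p = q
    · subst h0
      exact ⟨0, by simp, by simp⟩
    by_cases ha : aV n p = q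
    · subst ha
      exact (hP p.1 p.2).1
    by_cases ha' : aV n q = p
    · subst ha'
      obtain ⟨e, he, hd⟩ := (hP q.1 q.2).1
      refine ⟨-e, by simpa using he, ?_⟩
      have := (dvd_neg (a := M)).2 hd
      refine this.trans (dvd_of_eq ?_)
      show -(P (ba q.1) - P q.1 - e) = P q.1 - P (ba q.1) - -e
      ring
    by_cases hb : bV n p = q
    · subst hb
      exact (hP p.1 p.2).2
    by_cases hb' : bV n q = p
    · subst hb'
      obtain ⟨e, he, hd⟩ := (hP q.1 q.2).2
      refine ⟨-e, by simpa using he, ?_⟩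
      have := (dvd_neg (a := M)).2 hd
      refine this.trans (dvd_of_eq ?_)
      show -(P (bb q.1) - P q.1 - e) = P q.1 - P (bb q.1) - -e
      ring
    · exfalso
      apply h
      unfold Del PM
      rw [ind_false h0, ind_false ha, ind_false ha', ind_false hb, ind_false hb']
      ring
  induction j with
  | zero =>
    intro p q h
    rw [pow_zero] at h
    have : p = q := by
      by_contra hc
      exact h (Matrix.one_apply_ne hc)
    subst this
    exact ⟨0, by simp, by simp⟩
  | succ j ih =>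
    intro p q h
    rw [pow_succ, Matrix.mul_apply] at h
    obtain ⟨r, _, hr⟩ := Finset.exists_ne_zero_of_sum_ne_zero h
    obtain ⟨e, he, hd⟩ := ih p r (left_ne_zero_of_mul hr)
    obtain ⟨e', he', hd'⟩ := h1 r q (right_ne_zero_of_mul hr)
    refine ⟨e + e', ?_, ?_⟩
    · push_cast
      exact (abs_add_le _ _).trans (by linarith)
    · have := dvd_add hd hd'
      refine this.trans (dvd_of_eq ?_)
      ring

theorem V_ext_last {n : ℕ} (p q : V (n + 1)) (h : dr p = dr q) (hne : p ≠ q) :
    ∃ v : List Bool, v.length = n ∧ ((p.1 = v ++ [true] ∧ q.1 = v ++ [false]) ∨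
      (p.1 = v ++ [false] ∧ q.1 = v ++ [true])) := by
  have hp : p.1 ≠ [] := by
    intro h; have := p.2; rw [h] at this; simp at this
  have hq : q.1 ≠ [] := by
    intro h; have := q.2; rw [h] at this; simp at this
  have h1 := List.dropLast_append_getLast hp
  have h2 := List.dropLast_append_getLast hq
  have h3 : p.1.dropLast = q.1.dropLast := congrArg Subtype.val h
  refine ⟨p.1.dropLast, (dr p).2, ?_⟩
  rcases hx : p.1.getLast hp with _ | _ <;> rcases hy : q.1.getLast hq with _ | _
  · exfalso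
    apply hne
    rw [hx] at h1
    rw [hy, ← h3] at h2
    exact Subtype.ext (h1.symm.trans h2)
  · right
    rw [hx] at h1
    rw [hy, ← h3] at h2
    exact ⟨h1.symm, h2.symm⟩
  · left
    rw [hx] at h1
    rw [hy, ← h3] at h2
    exact ⟨h1.symm, h2.symm⟩
  · exfalso
    apply hne
    rw [hx] at h1
    rw [hy, ← h3] at h2
    exact Subtype.ext (h1.symm.trans h2)

/-- no power of small exponent connects the two lifts of a vertex -/
theorem no_connect (m j : ℕ) (hj : j < 2 ^ (m / 2)) (p q : V (m + 1)) (h : dr p = dr q)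
    (hne : p ≠ q) : (Del (m + 1) ^ j) p q = 0 := by
  by_contra hc
  obtain ⟨P, hP1, hP2⟩ := exists_pos m
  obtain ⟨e, he, hd⟩ := supp_pow (m + 1) P _ hP1 j p q hc
  obtain ⟨v, hv, h1⟩ := V_ext_last p q h hne
  have h2 := hP2 v hv
  have hj' : (j : ℤ) < 2 ^ (m / 2) := by exact_mod_cast hj
  set l : ℤ := 2 ^ (m / 2) with hl
  have hl0 : 0 < l := by positivity
  obtain ⟨he1, he2⟩ := abs_le.1 he
  obtain ⟨c, hc⟩ := hd
  rcases h1 with ⟨h3, h4⟩ | ⟨h3, h4⟩
  · rw [h3, h4] at hc
    have h5 : e = -l - 2 * l * c := by linarith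
    have h6 : -l < -l - 2 * l * c := by linarith
    have h7 : -l - 2 * l * c < l := by linarith
    have h8 : c < 0 := by nlinarith
    have h9 : -1 < c := by nlinarith
    omega
  · rw [h3, h4] at hc
    have h5 : e = l - 2 * l * c := by linarith
    have h6 : -l < l - 2 * l * c := by linarith
    have h7 : l - 2 * l * c < l := by linarith
    have h8 : 0 < c := by nlinarith
    have h9 : c < 1 := by nlinarith
    omega

theorem diag_pow (m j : ℕ) (hj : j < 2 ^ (m / 2)) (p : V (m + 1)) :
    (Del (m + 1) ^ j) p p = (Del m ^ j) (dr p) (dr p) := by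
  rw [← cov_pow, Finset.sum_eq_single p]
  · rw [ind_true rfl, mul_one]
  · intro q _ hq
    by_cases h : dr q = dr p
    · rw [no_connect m j hj p q h.symm (Ne.symm hq), zero_mul]
    · rw [ind_false h, mul_zero]
  · intro hf
    exact absurd (mem_univ _) hf

/-- the vertices of `Γ (n+1)` -/
def snocE (n : ℕ) : V n × Bool → V (n + 1) :=
  fun x => ⟨x.1.1 ++ [x.2], by simp [x.1.2]⟩

theorem snocE_bij (n : ℕ) : Function.Bijective (snocE n) := by
  constructor
  · rintro ⟨v, x⟩ ⟨w, y⟩ h
    have h1 : v.1 ++ [x] = w.1 ++ [y] := congrArg Subtype.val h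
    obtain ⟨h2, h3⟩ := List.append_inj' h1 rfl
    have h4 : x = y := by simpa using h3
    rw [Subtype.ext h2, h4]
  · intro p
    have hp : p.1 ≠ [] := by
      intro h; have := p.2; rw [h] at this; simp at this
    exact ⟨(dr p, p.1.getLast hp), Subtype.ext (List.dropLast_append_getLast hp)⟩

theorem sum_dr (n : ℕ) (f : V n → ℝ) : ∑ p : V (n + 1), f (dr p) = 2 * ∑ v, f v := by
  rw [← (snocE_bij n).sum_comp (fun p => f (dr p)), Fintype.sum_prod_type]
  have : ∀ v : V n, ∑ x : Bool, f (dr (snocE n (v, x))) = 2 * f v := by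
    intro v
    have h1 : ∀ x, dr (snocE n (v, x)) = v := by
      intro x
      exact Subtype.ext (by simp [dr, snocE])
    simp only [h1, Finset.sum_const, Finset.card_univ, Fintype.card_bool, nsmul_eq_mul]
    norm_num
  rw [Finset.sum_congr rfl fun v _ => this v, ← Finset.mul_sum]

theorem trace_pow_eq (m j : ℕ) (hj : j < 2 ^ (m / 2)) :
    (Del (m + 1) ^ j).trace = 2 * (Del m ^ j).trace := by
  unfold Matrix.trace
  simp only [Matrix.diag_apply]
  rw [Finset.sum_congr rfl fun p _ => diag_pow m j hj p, sum_dr m fun v => (Del m ^ j) v v]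

theorem card_V (n : ℕ) : Fintype.card (V n) = 2 ^ n := by
  simp [V]

end Pool.Agent.R508.Bas
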