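import Mathlib
import Pool.Agent.R508.BasMat

set_option autoImplicit false

/-! Spectra of the basilica Schreier graphs (helper508, MP_6db48f_an; proof by helper243). -/

open Finset Polynomial

namespace Pool.Agent.R508.Bas

theorem trace_pow_ev {n : Type*} [Fintype n] [DecidableEq n] {A : Matrix n n ℝ}
    (hA : A.IsHermitian) (j : ℕ) : (A ^ j).trace = ∑ i, hA.eigenvalues i ^ j := by
  conv_lhs => rw [hA.spectral_theorem, ← map_pow, Unitary.conjStarAlgAut_apply]
  rw [Matrix.trace_mul_comm, ← mul_assoc, Unitary.coe_star_mul_self, one_mul,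
    Matrix.diagonal_pow, Matrix.trace_diagonal]
  simp

theorem herm (n : ℕ) : (Del n).IsHermitian := by
  ext x y
  simp only [Matrix.conjTranspose_apply, star_trivial]
  exact Del_symm n y x

/-- the eigenvalues of the Laplacian of `Γ n` -/
noncomputable def ev (n : ℕ) : V n → ℝ := (herm n).eigenvalues

theorem sum_pow_ev (m j : ℕ) (hj : j < 2 ^ (m / 2)) :
    ∑ i, ev (m + 1) i ^ j = 2 * ∑ i, ev m i ^ j := by
  unfold ev
  rw [← trace_pow_ev, ← trace_pow_ev, trace_pow_eq m j hj]

theorem sum_poly_ev (m : ℕ) (q : ℝ[X]) (hq : q.natDegree < 2 ^ (m / 2)) :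
    ∑ i, q.eval (ev (m + 1) i) = 2 * ∑ i, q.eval (ev m i) := by
  simp only [eval_eq_sum_range' hq]
  rw [Finset.sum_comm, Finset.sum_comm (s := univ), Finset.mul_sum]
  refine Finset.sum_congr rfl fun j hj => ?_
  rw [← Finset.mul_sum, ← Finset.mul_sum, sum_pow_ev m j (Finset.mem_range.1 hj)]
  ring

theorem sum_PM {n : ℕ} (f : V n → V n) (x : V n) : ∑ y, PM f x y = 1 := by
  unfold PM
  rw [Finset.sum_eq_single (f x)]
  · exact ind_true rfl
  · intro y _ hy
    exact ind_false (Ne.symm hy)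
  · intro hf
    exact absurd (mem_univ _) hf

theorem sum_PM' {n : ℕ} (f : V n → V n) (hf : Function.Injective f) (x : V n) :
    ∑ y, PM f y x = 1 := by
  obtain ⟨x', rfl⟩ := (Finite.injective_iff_surjective.1 hf) x
  unfold PM
  rw [Finset.sum_eq_single x']
  · exact ind_true rfl
  · intro y _ hy
    exact ind_false fun e => hy (hf e)
  · intro hf
    exact absurd (mem_univ _) hf

theorem ev_mem (n : ℕ) (i : V n) : 0 ≤ ev n i ∧ ev n i ≤ 2 := by
  have h1 : Module.End.HasEigenvalue (Matrix.toLin' (Del n)) (ev n i) := by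
    rw [Module.End.hasEigenvalue_iff_mem_spectrum, Matrix.spectrum_toLin']
    exact (herm n).eigenvalues_mem_spectrum_real i
  obtain ⟨k, hk⟩ := eigenvalue_mem_ball h1
  rw [mem_closedBall_iff_norm, Real.norm_eq_abs] at hk
  set S := PM (aV n) k k + PM (aV n) k k + PM (bV n) k k + PM (bV n) k k with hS
  have hS0 : 0 ≤ S := by
    have h1 := ind_nonneg (aV n k = k)
    have h2 := ind_nonneg (bV n k = k)
    simp only [hS, PM]
    linarith
  have hd : Del n k k = 1 - 1 / 4 * S := by
    simp only [Del, hS]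
    rw [ind_true trivial]
  have hsum : ∑ j ∈ univ.erase k, ‖Del n k j‖ = 1 - 1 / 4 * S := by
    have h2 : ∀ j ∈ univ.erase k, ‖Del n k j‖
        = (1 / 4) * (PM (aV n) k j + PM (aV n) j k + PM (bV n) k j + PM (bV n) j k) := by
      intro j hj
      have hne : k ≠ j := (Finset.ne_of_mem_erase hj).symm
      have h3 : Del n k j
          = -((1 / 4) * (PM (aV n) k j + PM (aV n) j k + PM (bV n) k j + PM (bV n) j k)) := by
        simp only [Del]
        rw [ind_false hne]
        ring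
      rw [h3, norm_neg, Real.norm_eq_abs, abs_of_nonneg]
      have h4 := ind_nonneg (aV n k = j)
      have h5 := ind_nonneg (aV n j = k)
      have h6 := ind_nonneg (bV n k = j)
      have h7 := ind_nonneg (bV n j = k)
      simp only [PM]
      positivity
    rw [Finset.sum_congr rfl h2]
    have h8 := Finset.sum_erase_add (s := univ)
      (f := fun j => (1 / 4) * (PM (aV n) k j + PM (aV n) j k + PM (bV n) k j + PM (bV n) j k))
      (mem_univ k)
    have h9 : ∑ j, (1 / 4) * (PM (aV n) k j + PM (aV n) j k + PM (bV n) k j + PM (bV n) j k)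
        = 1 := by
      rw [← Finset.mul_sum]
      simp only [Finset.sum_add_distrib]
      rw [sum_PM, sum_PM, sum_PM' _ (aV_inj n), sum_PM' _ (bV_inj n)]
      norm_num
    rw [h9] at h8
    linarith
  rw [hd, hsum] at hk
  obtain ⟨h1, h2⟩ := abs_le.1 hk
  constructor <;> linarith

/-! ### approximation of the sign function -/

/-- iterates of `y ↦ (3 y - y³)/2` -/
noncomputable def sp : ℕ → ℝ[X]
  | 0 => X
  | k + 1 => C (1 / 2) * (C 3 * sp k - sp k ^ 3)

theorem sp_deg (k : ℕ) : (sp k).natDegree ≤ 3 ^ k := by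
  induction k with
  | zero => simp [sp]
  | succ k ih =>
    simp only [sp]
    refine (natDegree_C_mul_le _ _).trans ((natDegree_sub_le _ _).trans (max_le ?_ ?_))
    · refine (natDegree_C_mul_le _ _).trans (ih.trans ?_)
      exact Nat.pow_le_pow_right (by norm_num) (Nat.le_succ k)
    · refine natDegree_pow_le.trans ?_
      rw [pow_succ']
      omega

theorem sp_eval (k : ℕ) (y : ℝ) : (sp (k + 1)).eval y = (3 * (sp k).eval y - (sp k).eval y ^ 3) / 2 := by
  simp only [sp, eval_mul, eval_C, eval_sub, eval_pow]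
  ring

theorem sp_neg (k : ℕ) (y : ℝ) : (sp k).eval (-y) = -(sp k).eval y := by
  induction k with
  | zero => simp [sp]
  | succ k ih => rw [sp_eval, sp_eval, ih]; ring

theorem sp_mem (k : ℕ) (y : ℝ) (h0 : 0 ≤ y) (h1 : y ≤ 1) :
    y ≤ (sp k).eval y ∧ (sp k).eval y ≤ 1 := by
  induction k with
  | zero => simpa [sp] using h1
  | succ k ih =>
    rw [sp_eval]
    set s := (sp k).eval y
    have hs : 0 ≤ s := h0.trans ih.1
    constructor
    · nlinarith [mul_nonneg hs (sub_nonneg.2 ih.2), mul_nonneg hs (mul_nonneg hs (sub_nonneg.2 ih.2)),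
        ih.1]
    · nlinarith [mul_nonneg (sq_nonneg (1 - s)) (by linarith : (0:ℝ) ≤ 2 + s)]

theorem sp_near (δ : ℝ) (h0 : 0 < δ) (h1 : δ ≤ 1) : ∃ k0 : ℕ, ∀ y : ℝ, δ ≤ y → y ≤ 1 → ∀ j : ℕ,
    1 - (sp (k0 + j)).eval y ≤ (1 / 2) ^ (2 ^ j) := by
  have hθ : 1 - δ / 2 < 1 := by linarith
  have hθ0 : 0 ≤ 1 - δ / 2 := by linarith
  obtain ⟨k0, hk0⟩ := exists_pow_lt_of_lt_one (by norm_num : (0 : ℝ) < 1 / 3) hθ
  refine ⟨k0, fun y hy hy1 => ?_⟩
  have hy0 : 0 ≤ y := h0.le.trans hy
  have hlin : ∀ k, 1 - (sp k).eval y ≤ (1 - δ / 2) ^ k := by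
    intro k
    induction k with
    | zero => simp only [sp, eval_X, pow_zero]; linarith
    | succ k ih =>
      obtain ⟨h2, h3⟩ := sp_mem k y hy0 hy1
      rw [sp_eval, pow_succ (1 - δ / 2) k]
      set s := (sp k).eval y
      have hs : δ ≤ s := hy.trans h2
      have e : 1 - (3 * s - s ^ 3) / 2 = (1 - s) * ((1 - s) * (2 + s) / 2) := by ring
      rw [e]
      refine mul_le_mul ih ?_ ?_ (pow_nonneg hθ0 _)
      · nlinarith
      · have : 0 ≤ 1 - s := by linarith
        have : 0 ≤ 2 + s := by linarith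
        positivity
  have hq : ∀ j, (3 / 2) * (1 - (sp (k0 + j)).eval y) ≤ (1 / 2) ^ (2 ^ j) := by
    intro j
    induction j with
    | zero =>
      have := hlin k0
      simp only [add_zero, pow_zero, pow_one]
      linarith
    | succ j ih =>
      obtain ⟨h2, h3⟩ := sp_mem (k0 + j) y hy0 hy1
      rw [← add_assoc, sp_eval, pow_succ 2 j, pow_mul]
      set s := (sp (k0 + j)).eval y
      have h4 : 0 ≤ (3 / 2) * (1 - s) := by linarith
      have h5 : ((3 / 2) * (1 - s)) ^ 2 ≤ ((1 / 2) ^ 2 ^ j) ^ 2 := pow_le_pow_left₀ h4 ih 2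
      refine le_trans ?_ h5
      have e : (3 / 2) * (1 - (3 * s - s ^ 3) / 2) = (3 / 2) * ((1 - s) ^ 2 * ((2 + s) / 2)) := by
        ring
      rw [e]
      nlinarith [sq_nonneg (1 - s)]
  intro j
  have h2 := hq j
  obtain ⟨h3, h4⟩ := sp_mem (k0 + j) y hy0 hy1
  linarith

end Pool.Agent.R508.Bas
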