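import Mathlib
import Pool.Agent.R508.BasSpec

set_option autoImplicit false

/-! Gap labels of the basilica Schreier graphs (helper508, MP_6db48f_an; proof by helper243). -/

open Finset Polynomial MeasureTheory Filter Topology

open scoped ENNReal

namespace Pool.Agent.R508.Bas

/-- the spectral counting measure, as a measure -/
noncomputable def nuM (n : ℕ) : Measure ℝ :=
  ((2 : ℝ≥0∞) ^ n)⁻¹ • ∑ i : V n, Measure.dirac (ev n i)

instance nuM_prob (n : ℕ) : IsProbabilityMeasure (nuM n) := by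
  constructor
  unfold nuM
  rw [Measure.smul_apply, Measure.coe_finsetSum, Finset.sum_apply]
  simp only [measure_univ, Finset.sum_const, Finset.card_univ, card_V, nsmul_eq_mul, mul_one,
    smul_eq_mul]
  push_cast
  exact ENNReal.inv_mul_cancel (by positivity) (by finiteness)

/-- the spectral counting measure -/
noncomputable def nu (n : ℕ) : ProbabilityMeasure ℝ := ⟨nuM n, nuM_prob n⟩

theorem nu_integral (n : ℕ) (f : BoundedContinuousFunction ℝ ℝ) :
    ∫ t, f t ∂(nu n : Measure ℝ) = ((2 : ℝ) ^ n)⁻¹ * ∑ i, f (ev n i) := by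
  show ∫ t, f t ∂(nuM n) = _
  unfold nuM
  rw [integral_smul_measure, integral_finsetSum_measure]
  · simp
  · intro i _
    exact f.integrable _

/-- number of eigenvalues at most `x` -/
noncomputable def Nx (n : ℕ) (x : ℝ) : ℕ := by
  classical exact (univ.filter fun i : V n => ev n i ≤ x).card

theorem nu_Iic (n : ℕ) (x : ℝ) :
    ((nu n : Measure ℝ) (Set.Iic x)).toReal = (Nx n x : ℝ) / 2 ^ n := by
  classical
  show (nuM n (Set.Iic x)).toReal = _
  unfold nuM
  rw [Measure.smul_apply, Measure.coe_finsetSum, Finset.sum_apply]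
  simp only [Measure.dirac_apply' _ measurableSet_Iic, smul_eq_mul, ENNReal.toReal_mul]
  have h1 : ∑ i : V n, (Set.Iic x).indicator (1 : ℝ → ℝ≥0∞) (ev n i) = (Nx n x : ℝ≥0∞) := by
    unfold Nx
    rw [Finset.card_filter]
    push_cast
    refine Finset.sum_congr rfl fun i _ => ?_
    by_cases h : ev n i ≤ x
    · simp [h]
    · simp [h]
  rw [h1]
  simp
  ring

theorem asym (k0 : ℕ) : ∃ m0 : ℕ, ∀ m ≥ m0, 2 * 3 ^ (k0 + m / 4) < 2 ^ (m / 2) ∧
    m + 3 < 2 ^ (m / 4) := by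
  have h1 : Tendsto (fun j : ℕ => (4 / 3 : ℝ) ^ j) atTop atTop :=
    tendsto_pow_atTop_atTop_of_one_lt (by norm_num)
  obtain ⟨j0, hj0⟩ := Filter.eventually_atTop.1 (h1.eventually_gt_atTop (2 * 3 ^ k0))
  have h2 : ∀ j, 5 ≤ j → 4 * j + 6 < 2 ^ j := by
    intro j hj
    induction j, hj using Nat.le_induction with
    | base => norm_num
    | succ j hj ih => rw [pow_succ]; omega
  refine ⟨4 * (j0 + 5), fun m hm => ?_⟩
  have hj : j0 + 5 ≤ m / 4 := by omega
  set j := m / 4 with hjd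
  constructor
  · have h3 := hj0 j (by omega)
    have h4 : (2 * 3 ^ (k0 + j) : ℝ) < 4 ^ j := by
      rw [div_pow, lt_div_iff₀ (by positivity)] at h3
      rw [pow_add, ← mul_assoc]
      exact h3
    have h5 : 2 * 3 ^ (k0 + j) < 4 ^ j := by exact_mod_cast h4
    refine h5.trans_le ?_
    rw [show (4 : ℕ) = 2 ^ 2 by norm_num, ← pow_mul]
    exact Nat.pow_le_pow_right (by norm_num) (by omega)
  · have := h2 j (by omega)
    omega

theorem sum_poly_iter (m : ℕ) (q : ℝ[X]) (hq : q.natDegree < 2 ^ (m / 2)) (n : ℕ) (hn : m ≤ n) :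
    ((2 : ℝ) ^ n)⁻¹ * ∑ i, q.eval (ev n i) = ((2 : ℝ) ^ m)⁻¹ * ∑ i, q.eval (ev m i) := by
  induction n, hn using Nat.le_induction with
  | base => rfl
  | succ n hn ih =>
    rw [← ih, sum_poly_ev n q (hq.trans_le (Nat.pow_le_pow_right (by norm_num) (by omega))),
      pow_succ]
    field_simp

/-- the sign-type function after the cut-off -/
theorem sp_far (δ : ℝ) (h0 : 0 < δ) (h1 : δ ≤ 1) : ∃ k0 : ℕ, ∀ y : ℝ, |y| ≤ 1 → ∀ j : ℕ,
    (δ ≤ y → 1 - (1 / 2) ^ (2 ^ j) ≤ (sp (k0 + j)).eval y ∧ (sp (k0 + j)).eval y ≤ 1) ∧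
    (y ≤ -δ → -1 ≤ (sp (k0 + j)).eval y ∧ (sp (k0 + j)).eval y ≤ -(1 - (1 / 2) ^ (2 ^ j))) := by
  obtain ⟨k0, hk0⟩ := sp_near δ h0 h1
  refine ⟨k0, fun y hy j => ⟨fun hδ => ?_, fun hδ => ?_⟩⟩
  · have hy1 := (abs_le.1 hy).2
    have h2 := hk0 y hδ hy1 j
    exact ⟨by linarith, (sp_mem _ y (by linarith) hy1).2⟩
  · have hy1 := (abs_le.1 hy).1
    have h2 := hk0 (-y) (by linarith) (by linarith) j
    have h3 := (sp_mem (k0 + j) (-y) (by linarith) (by linarith)).2
    rw [sp_neg] at h2 h3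
    exact ⟨by linarith, by linarith⟩

theorem sp_abs (k : ℕ) (y : ℝ) (hy : |y| ≤ 1) : |(sp k).eval y| ≤ 1 := by
  rcases le_total 0 y with h | h
  · have := sp_mem k y h (abs_le.1 hy).2
    exact abs_le.2 ⟨by linarith, this.2⟩
  · have := sp_mem k (-y) (by linarith) (by linarith [(abs_le.1 hy).1])
    rw [sp_neg] at this
    exact abs_le.2 ⟨by linarith, by linarith⟩

/-- cut-off to `[-1,1]` -/
noncomputable def cl (y : ℝ) : ℝ := max (-1) (min 1 y)

theorem cl_abs (y : ℝ) : |cl y| ≤ 1 :=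
  abs_le.2 ⟨le_max_left _ _, max_le (by norm_num) (min_le_left _ _)⟩

theorem cl_eq (y : ℝ) (h : |y| ≤ 1) : cl y = y := by
  unfold cl
  rw [min_eq_right (abs_le.1 h).2, max_eq_right (abs_le.1 h).1]

theorem cl_cont : Continuous cl := by unfold cl; fun_prop

/-- the test function -/
noncomputable def tf (k : ℕ) (lam : ℝ) : BoundedContinuousFunction ℝ ℝ :=
  BoundedContinuousFunction.ofNormedAddCommGroup
    (fun t => 1 - (sp k).eval (cl ((t - lam) / 2)) ^ 2)
    (by
      have h : Continuous fun t : ℝ => cl ((t - lam) / 2) := cl_cont.comp (by fun_prop)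
      exact continuous_const.sub (((sp k).continuous.comp h).pow 2)) 1
    (by
      intro t
      have h := sp_abs k _ (cl_abs ((t - lam) / 2))
      rw [Real.norm_eq_abs, abs_le]
      have h2 : (sp k).eval (cl ((t - lam) / 2)) ^ 2 ≤ 1 := by
        rw [← sq_abs]
        exact pow_le_one₀ (abs_nonneg _) h
      constructor <;> nlinarith [sq_nonneg ((sp k).eval (cl ((t - lam) / 2)))])

theorem tf_apply (k : ℕ) (lam t : ℝ) : tf k lam t = 1 - (sp k).eval (cl ((t - lam) / 2)) ^ 2 := rfl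

/-- the test polynomial -/
noncomputable def tp (k : ℕ) (lam : ℝ) : ℝ[X] := 1 - ((sp k).comp (C (1 / 2) * (X - C lam))) ^ 2

theorem lin_deg (c x : ℝ) : (C c * (X - C x) : ℝ[X]).natDegree ≤ 1 :=
  (natDegree_C_mul_le _ _).trans (natDegree_X_sub_C_le _)

theorem comp_deg (k : ℕ) (c x : ℝ) : ((sp k).comp (C c * (X - C x))).natDegree ≤ 3 ^ k := by
  refine natDegree_comp_le.trans ?_
  calc _ ≤ 3 ^ k * 1 := Nat.mul_le_mul (sp_deg k) (lin_deg c x)
    _ = _ := mul_one _

theorem tp_deg (k : ℕ) (lam : ℝ) : (tp k lam).natDegree ≤ 2 * 3 ^ k := by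
  unfold tp
  refine (natDegree_sub_le _ _).trans (max_le (by simp) ?_)
  exact natDegree_pow_le.trans (Nat.mul_le_mul le_rfl (comp_deg k _ _))

theorem tp_eval (k : ℕ) (lam t : ℝ) (hl : 0 ≤ lam ∧ lam ≤ 2) (ht : 0 ≤ t ∧ t ≤ 2) :
    (tp k lam).eval t = tf k lam t := by
  rw [tf_apply, cl_eq]
  · simp only [tp, eval_sub, eval_one, eval_pow, eval_comp, eval_mul, eval_C, eval_X]
    congr 3
    ring
  · rw [abs_le]
    constructor <;> linarith [hl.1, hl.2, ht.1, ht.2]

/-- no eigenvalues near a point outside the support -/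
theorem no_ev (μ : ProbabilityMeasure ℝ) (hμ : Tendsto nu atTop (𝓝 μ)) (x r : ℝ) (hr : 0 < r)
    (hr1 : r ≤ 1) (h0 : (μ : Measure ℝ) (Set.Ioo (x - 2 * r) (x + 2 * r)) = 0) :
    ∃ m0 : ℕ, ∀ m ≥ m0, ∀ i : V m, ¬ (x - r < ev m i ∧ ev m i < x + r) := by
  obtain ⟨k0, hk0⟩ := sp_far (r / 2) (by linarith) (by linarith)
  obtain ⟨m0, hm0⟩ := asym k0
  refine ⟨m0, fun m hm i hi => ?_⟩
  obtain ⟨hdeg, hexp⟩ := hm0 m hm
  set lam := ev m i with hlam
  have hl := ev_mem m i
  set k := k0 + m / 4 with hk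
  have hq : (tp k lam).natDegree < 2 ^ (m / 2) := (tp_deg k lam).trans_lt hdeg
  -- the integral of the test function
  have hint : ∫ t, tf k lam t ∂(μ : Measure ℝ)
      = ((2 : ℝ) ^ m)⁻¹ * ∑ i, (tp k lam).eval (ev m i) := by
    have h1 := (ProbabilityMeasure.tendsto_iff_forall_integral_tendsto.1 hμ) (tf k lam)
    have h2 : ∀ n ≥ m, ∫ t, tf k lam t ∂(nu n : Measure ℝ)
        = ((2 : ℝ) ^ m)⁻¹ * ∑ i, (tp k lam).eval (ev m i) := by
      intro n hn
      rw [nu_integral, ← sum_poly_iter m _ hq n hn]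
      congr 1
      refine Finset.sum_congr rfl fun j _ => ?_
      rw [tp_eval k lam _ hl (ev_mem n j)]
    refine tendsto_nhds_unique h1 ?_
    refine tendsto_const_nhds.congr' ?_
    filter_upwards [eventually_ge_atTop m] with n hn
    exact (h2 n hn).symm
  have hlow : ((2 : ℝ) ^ m)⁻¹ ≤ ∫ t, tf k lam t ∂(μ : Measure ℝ) := by
    rw [hint]
    refine le_mul_of_one_le_right (by positivity) ?_
    have h1 : (tp k lam).eval (ev m i) = 1 := by
      rw [tp_eval k lam _ hl (ev_mem m i), tf_apply, ← hlam]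
      have h2 : cl ((lam - lam) / 2) = 0 := by
        rw [sub_self, zero_div, cl_eq _ (by simp)]
      have h3 : (sp k).eval (0 : ℝ) = 0 := by
        have := sp_neg k 0
        rw [neg_zero] at this
        linarith
      rw [h2, h3]
      norm_num
    rw [← h1]
    refine Finset.single_le_sum (f := fun j => (tp k lam).eval (ev m j)) (fun j _ => ?_)
      (mem_univ i)
    rw [tp_eval k lam _ hl (ev_mem m j), tf_apply]
    have h := sp_abs k _ (cl_abs ((ev m j - lam) / 2))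
    have h2 : (sp k).eval (cl ((ev m j - lam) / 2)) ^ 2 ≤ 1 := by
      rw [← sq_abs]
      exact pow_le_one₀ (abs_nonneg _) h
    linarith
  have hup : ∫ t, tf k lam t ∂(μ : Measure ℝ) ≤ 2 * (1 / 2) ^ (2 ^ (m / 4)) := by
    have h1 : ∀ᵐ t ∂(μ : Measure ℝ), tf k lam t ≤ 2 * (1 / 2) ^ (2 ^ (m / 4)) := by
      have h2 : ∀ᵐ t ∂(μ : Measure ℝ), t ∉ Set.Ioo (x - 2 * r) (x + 2 * r) :=
        measure_eq_zero_iff_ae_notMem.1 h0
      filter_upwards [h2] with t ht
      rw [tf_apply]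
      have h3 := hk0 (cl ((t - lam) / 2)) (cl_abs _) (m / 4)
      have h4 := sp_abs k _ (cl_abs ((t - lam) / 2))
      rw [← hk] at h3
      set s := (sp k).eval (cl ((t - lam) / 2)) with hs
      obtain ⟨h5, h6⟩ := abs_le.1 h4
      have h7 : t ≤ x - 2 * r ∨ x + 2 * r ≤ t := by
        by_contra hc
        push Not at hc
        exact ht ⟨hc.1, hc.2⟩
      rcases h7 with h7 | h7
      · have h8 : cl ((t - lam) / 2) ≤ -(r / 2) := by
          unfold cl
          refine max_le (by linarith) ((min_le_right _ _).trans ?_)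
          linarith [hi.1]
        have h9 := (h3.2 h8).2
        nlinarith
      · have h8 : r / 2 ≤ cl ((t - lam) / 2) := by
          unfold cl
          refine le_max_of_le_right (le_min (by linarith) ?_)
          linarith [hi.2]
        have h9 := (h3.1 h8).1
        nlinarith
    have h2 := integral_mono_ae (μ := (μ : Measure ℝ)) ((tf k lam).integrable _)
      (integrable_const _) h1
    simpa using h2
  have h1 := hlow.trans hup
  have h2 : (2 : ℝ) * (1 / 2) ^ (2 ^ (m / 4)) < ((2 : ℝ) ^ m)⁻¹ := by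
    have h3 : (1 / 2 : ℝ) ^ (2 ^ (m / 4)) ≤ (1 / 2) ^ (m + 3) :=
      pow_le_pow_of_le_one (by norm_num) (by norm_num) hexp.le
    have h4 : (1 / 2 : ℝ) ^ (m + 3) = ((2 : ℝ) ^ m)⁻¹ * (1 / 8) := by
      rw [pow_add, one_div, inv_pow]
      norm_num
    have h5 : (0 : ℝ) < ((2 : ℝ) ^ m)⁻¹ := by positivity
    rw [h4] at h3
    linarith
  exact absurd h1 (not_le.2 h2)

/-- the step polynomial -/
noncomputable def qp (k : ℕ) (R x : ℝ) : ℝ[X] :=
  C (1 / 2) * (1 - (sp k).comp (C (1 / R) * (X - C x)))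

theorem qp_deg (k : ℕ) (R x : ℝ) : (qp k R x).natDegree ≤ 3 ^ k := by
  unfold qp
  refine (natDegree_C_mul_le _ _).trans ((natDegree_sub_le _ _).trans (max_le (by simp) ?_))
  exact comp_deg k _ _

theorem qp_eval (k : ℕ) (R x t : ℝ) :
    (qp k R x).eval t = (1 - (sp k).eval ((t - x) / R)) / 2 := by
  simp only [qp, eval_sub, eval_one, eval_comp, eval_mul, eval_C, eval_X]
  rw [show 1 / R * (t - x) = (t - x) / R by ring]
  ring

/-- doubling of the counting function -/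
theorem doubling (x r : ℝ) (hr : 0 < r) (hr1 : r ≤ 1) (m0 : ℕ)
    (hm0 : ∀ m ≥ m0, ∀ i : V m, ¬ (x - r < ev m i ∧ ev m i < x + r)) :
    ∃ m1 : ℕ, ∀ m ≥ m1, Nx (m + 1) x = 2 * Nx m x := by
  classical
  set R := |x| + 3 with hR
  have hR0 : 0 < R := by positivity
  have hrR : r / R ≤ 1 := by
    rw [div_le_one hR0]
    linarith [abs_nonneg x]
  obtain ⟨k0, hk0⟩ := sp_far (r / R) (by positivity) hrR
  obtain ⟨m2, hm2⟩ := asym k0
  refine ⟨max m0 m2, fun m hm => ?_⟩
  obtain ⟨hdeg, hexp⟩ := hm2 m ((le_max_right _ _).trans hm)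
  have hm' : m0 ≤ m := (le_max_left _ _).trans hm
  set k := k0 + m / 4 with hk
  set ε : ℝ := (1 / 2) ^ (2 ^ (m / 4)) with hε
  have hε0 : 0 < ε := by positivity
  have key : ∀ n, m0 ≤ n → ∀ i : V n,
      |(if ev n i ≤ x then (1 : ℝ) else 0) - (qp k R x).eval (ev n i)| ≤ ε := by
    intro n hn i
    have h1 := hm0 n hn i
    have h2 := ev_mem n i
    have h3 : |(ev n i - x) / R| ≤ 1 := by
      rw [abs_div, abs_of_pos hR0, div_le_one hR0, abs_le]
      have h4 := neg_abs_le x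
      have h5 := le_abs_self x
      constructor <;> linarith [h2.1, h2.2]
    have h4 := hk0 _ h3 (m / 4)
    rw [← hk, ← hε] at h4
    rw [qp_eval]
    set s := (sp k).eval ((ev n i - x) / R)
    by_cases h5 : ev n i ≤ x
    · have h6 : ev n i ≤ x - r := by
        by_contra hc
        push Not at hc
        exact h1 ⟨hc, by linarith⟩
      have h7 : (ev n i - x) / R ≤ -(r / R) := by
        rw [← neg_div]
        exact div_le_div_of_nonneg_right (by linarith) hR0.le
      obtain ⟨h8, h9⟩ := h4.2 h7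
      rw [if_pos h5, abs_le]
      constructor <;> linarith
    · push Not at h5
      have h6 : x + r ≤ ev n i := by
        by_contra hc
        push Not at hc
        exact h1 ⟨by linarith, hc⟩
      have h7 : r / R ≤ (ev n i - x) / R :=
        div_le_div_of_nonneg_right (by linarith) hR0.le
      obtain ⟨h8, h9⟩ := h4.1 h7
      rw [if_neg (not_le.2 h5), abs_le]
      constructor <;> linarith
  have hN : ∀ n, (Nx n x : ℝ) = ∑ i : V n, (if ev n i ≤ x then (1 : ℝ) else 0) := by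
    intro n
    unfold Nx
    rw [Finset.card_filter]
    push_cast
    rfl
  have hsum : ∀ n, m0 ≤ n → |(Nx n x : ℝ) - ∑ i, (qp k R x).eval (ev n i)| ≤ 2 ^ n * ε := by
    intro n hn
    rw [hN, ← Finset.sum_sub_distrib]
    refine (Finset.abs_sum_le_sum_abs _ _).trans ?_
    refine (Finset.sum_le_sum fun i _ => key n hn i).trans (le_of_eq ?_)
    rw [Finset.sum_const, Finset.card_univ, card_V, nsmul_eq_mul]
    push_cast
    ring
  have h1 := hsum m hm'
  have h2 := hsum (m + 1) (by omega)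
  have hq : (qp k R x).natDegree < 2 ^ (m / 2) := by
    refine (qp_deg k R x).trans_lt ?_
    have : 0 < 3 ^ k := by positivity
    omega
  rw [sum_poly_ev m _ hq] at h2
  set Q := ∑ i, (qp k R x).eval (ev m i)
  have h3 : |(Nx (m + 1) x : ℝ) - 2 * Nx m x| ≤ 2 ^ (m + 2) * ε := by
    have e : (Nx (m + 1) x : ℝ) - 2 * Nx m x
        = ((Nx (m + 1) x : ℝ) - 2 * Q) - 2 * ((Nx m x : ℝ) - Q) := by ring
    rw [e]
    refine (abs_sub _ _).trans ?_
    rw [abs_mul, abs_two]
    have : (2 : ℝ) ^ (m + 2) * ε = 2 ^ (m + 1) * ε + 2 * (2 ^ m * ε) := by ring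
    linarith
  have h4 : (2 : ℝ) ^ (m + 2) * ε < 1 := by
    have h5 : ε ≤ (1 / 2) ^ (m + 3) :=
      pow_le_pow_of_le_one (by norm_num) (by norm_num) hexp.le
    calc (2 : ℝ) ^ (m + 2) * ε ≤ 2 ^ (m + 2) * (1 / 2) ^ (m + 3) :=
          mul_le_mul_of_nonneg_left h5 (by positivity)
      _ = 1 / 2 := by
          rw [pow_succ (1 / 2 : ℝ) (m + 2), ← mul_assoc, ← mul_pow]
          norm_num
      _ < 1 := by norm_num
  have h5 : |((Nx (m + 1) x : ℤ) - 2 * Nx m x : ℤ)| < 1 := by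
    have h6 : ((|((Nx (m + 1) x : ℤ) - 2 * Nx m x : ℤ)| : ℤ) : ℝ) < 1 := by
      push_cast
      exact h3.trans_lt h4
    exact_mod_cast h6
  rw [Int.abs_lt_one_iff] at h5
  omega

/-- the main theorem -/
theorem dyadic (μ : ProbabilityMeasure ℝ) (hμ : Tendsto nu atTop (𝓝 μ)) (x : ℝ)
    (hx : ∃ U ∈ 𝓝 x, (μ : Measure ℝ) U = 0) :
    ∃ (j : ℤ) (k : ℕ), ((μ : Measure ℝ) (Set.Iic x)).toReal = j / 2 ^ k := by
  obtain ⟨U, hU, hU0⟩ := hx
  obtain ⟨ρ, hρ, hρU⟩ := Metric.mem_nhds_iff.1 hU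
  set r := min 1 (ρ / 2) with hrd
  have hr : 0 < r := lt_min one_pos (by linarith)
  have hr1 : r ≤ 1 := min_le_left _ _
  have hr2 : 2 * r ≤ ρ := by
    have : r ≤ ρ / 2 := min_le_right _ _
    linarith
  have hsub : Set.Ioo (x - 2 * r) (x + 2 * r) ⊆ U := by
    refine Set.Subset.trans ?_ hρU
    intro t ht
    rw [Metric.mem_ball, Real.dist_eq, abs_lt]
    constructor <;> linarith [ht.1, ht.2]
  have h0 : (μ : Measure ℝ) (Set.Ioo (x - 2 * r) (x + 2 * r)) = 0 := measure_mono_null hsub hU0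
  obtain ⟨m0, hm0⟩ := no_ev μ hμ x r hr hr1 h0
  obtain ⟨m1, hm1⟩ := doubling x r hr hr1 m0 hm0
  have hconst : ∀ m ≥ m1, (Nx m x : ℝ) / 2 ^ m = (Nx m1 x : ℝ) / 2 ^ m1 := by
    intro m hm
    induction m, hm using Nat.le_induction with
    | base => rfl
    | succ m hm ih =>
      rw [← ih, hm1 m hm, pow_succ]
      push_cast
      field_simp
  have hfr : (μ : Measure ℝ) (frontier (Set.Iic x)) = 0 := by
    rw [frontier_Iic]
    refine measure_mono_null ?_ h0
    intro t ht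
    rw [Set.mem_singleton_iff] at ht
    subst ht
    constructor <;> linarith
  have h1 := ProbabilityMeasure.tendsto_measure_of_null_frontier_of_tendsto' hμ hfr
  have h2 : Tendsto (fun n => ((nu n : Measure ℝ) (Set.Iic x)).toReal) atTop
      (𝓝 ((μ : Measure ℝ) (Set.Iic x)).toReal) :=
    (ENNReal.tendsto_toReal (measure_ne_top _ _)).comp h1
  have h3 : Tendsto (fun n => ((nu n : Measure ℝ) (Set.Iic x)).toReal) atTop
      (𝓝 ((Nx m1 x : ℝ) / 2 ^ m1)) := by
    refine tendsto_const_nhds.congr' ?_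
    filter_upwards [eventually_ge_atTop m1] with n hn
    rw [nu_Iic, hconst n hn]
  refine ⟨Nx m1 x, m1, ?_⟩
  rw [tendsto_nhds_unique h2 h3]
  push_cast
  rfl

end Pool.Agent.R508.Bas
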