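import Mathlib
import Pool.Agent.R508.BasMain

set_option autoImplicit false

/-! Existence of the KNS measure of the basilica Schreier graphs (helper508, MP_6db48f_an). -/

open Finset Polynomial MeasureTheory Filter Topology

open scoped ENNReal

namespace Pool.Agent.R508.Bas

theorem nu_lim (f : BoundedContinuousFunction ℝ ℝ) :
    ∃ L : ℝ, Tendsto (fun n => ∫ t, f t ∂(nu n : Measure ℝ)) atTop (𝓝 L) := by
  refine cauchySeq_tendsto_of_complete ?_
  rw [Metric.cauchySeq_iff']
  intro ε hε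
  obtain ⟨p, hp⟩ := exists_polynomial_near_of_continuousOn 0 2 f f.continuous.continuousOn
    (ε / 3) (by positivity)
  set m := 2 * p.natDegree with hm
  have hdeg : p.natDegree < 2 ^ (m / 2) := by
    rw [hm, Nat.mul_div_cancel_left _ two_pos]
    exact Nat.lt_two_pow_self
  have key : ∀ n, |∫ t, f t ∂(nu n : Measure ℝ) - ((2 : ℝ) ^ n)⁻¹ * ∑ i, p.eval (ev n i)|
      ≤ ε / 3 := by
    intro n
    rw [nu_integral, ← mul_sub, ← Finset.sum_sub_distrib, abs_mul, abs_of_pos (by positivity)]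
    have h1 : |∑ i, (f (ev n i) - p.eval (ev n i))| ≤ 2 ^ n * (ε / 3) := by
      refine (Finset.abs_sum_le_sum_abs _ _).trans ?_
      refine (Finset.sum_le_sum (g := fun _ => ε / 3) fun i _ => ?_).trans (le_of_eq ?_)
      · rw [abs_sub_comm]
        exact (hp _ ⟨(ev_mem n i).1, (ev_mem n i).2⟩).le
      · rw [Finset.sum_const, Finset.card_univ, card_V, nsmul_eq_mul]
        push_cast
        ring
    calc _ ≤ ((2 : ℝ) ^ n)⁻¹ * (2 ^ n * (ε / 3)) := mul_le_mul_of_nonneg_left h1 (by positivity)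
      _ = ε / 3 := by field_simp
  refine ⟨m, fun n hn => ?_⟩
  have h1 := key n
  have h2 := key m
  rw [sum_poly_iter m p hdeg n hn] at h1
  rw [Real.dist_eq]
  rw [abs_le] at h1 h2
  rw [abs_lt]
  constructor <;> linarith [h1.1, h1.2, h2.1, h2.2]

theorem exists_kns : ∃ μ : ProbabilityMeasure ℝ, Tendsto nu atTop (𝓝 μ) := by
  have htight : IsTightMeasureSet {((μ : ProbabilityMeasure ℝ) : Measure ℝ) | μ ∈ Set.range nu} := by
    rw [isTightMeasureSet_iff_exists_isCompact_measure_compl_le]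
    intro ε _
    refine ⟨Set.Icc 0 2, isCompact_Icc, ?_⟩
    rintro _ ⟨_, ⟨n, rfl⟩, rfl⟩
    have : (nu n : Measure ℝ) (Set.Icc 0 2)ᶜ = 0 := by
      show nuM n (Set.Icc 0 2)ᶜ = 0
      unfold nuM
      rw [Measure.smul_apply, Measure.coe_finsetSum, Finset.sum_apply]
      rw [Finset.sum_eq_zero, smul_zero]
      intro i _
      rw [Measure.dirac_apply' _ measurableSet_Icc.compl]
      simp [ev_mem n i]
    rw [this]
    exact zero_le
  have hK := isCompact_closure_of_isTightMeasureSet htight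
  have hmem : ∀ᶠ n in atTop, nu n ∈ closure (Set.range nu) :=
    Eventually.of_forall fun n => subset_closure ⟨n, rfl⟩
  obtain ⟨μ, _, hμ⟩ := hK.exists_mapClusterPt (f := atTop) (u := nu)
    (by rw [le_principal_iff]; exact hmem)
  have huniq : ∀ μ' : ProbabilityMeasure ℝ, MapClusterPt μ' atTop nu →
      ∀ (f : BoundedContinuousFunction ℝ ℝ) (L : ℝ),
        Tendsto (fun n => ∫ t, f t ∂(nu n : Measure ℝ)) atTop (𝓝 L) →
        ∫ t, f t ∂(μ' : Measure ℝ) = L := by
    intro μ' h f L hL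
    have hc : Continuous fun ρ : ProbabilityMeasure ℝ => ∫ t, f t ∂(ρ : Measure ℝ) :=
      ProbabilityMeasure.continuous_integral_boundedContinuousFunction f
    have h1 : MapClusterPt (∫ t, f t ∂(μ' : Measure ℝ)) atTop
        (fun n => ∫ t, f t ∂(nu n : Measure ℝ)) := h.continuousAt_comp hc.continuousAt
    have h2 : ClusterPt (∫ t, f t ∂(μ' : Measure ℝ)) (𝓝 L) := ClusterPt.mono h1 hL
    exact (eq_of_nhds_neBot h2)
  refine ⟨μ, hK.tendsto_nhds_of_unique_mapClusterPt hmem fun μ' _ hμ' => ?_⟩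
  apply Subtype.ext
  haveI : IsProbabilityMeasure (μ'.1) := μ'.2
  haveI : IsProbabilityMeasure (μ.1) := μ.2
  refine ext_of_forall_integral_eq_of_IsFiniteMeasure fun f => ?_
  obtain ⟨L, hL⟩ := nu_lim f
  have h1 := huniq μ' hμ' f L hL
  have h2 := huniq μ hμ f L hL
  exact h1.trans h2.symm

end Pool.Agent.R508.Bas
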