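import Mathlib

set_option autoImplicit false

/-! Right-angled Artin groups: geodesic words (helper508, MP_7325c9_al; proof by helper651). -/

open scoped commutatorElement

namespace Pool.Agent.R508.CG

variable {V : Type} (Γ : SimpleGraph V)

/-- relators of the right-angled Artin group -/
def rels : Set (FreeGroup V) := {r | ∃ u v, Γ.Adj u v ∧ r = ⁅FreeGroup.of u, FreeGroup.of v⁆}

/-- the right-angled Artin group -/
abbrev RAAG : Type := PresentedGroup (rels Γ)

/-- letters `(v, true) = v`, `(v, false) = v⁻¹` -/
abbrev L (V : Type) : Type := V × Bool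

/-- inverse letter -/
def ninv (a : L V) : L V := (a.1, !a.2)

theorem ninv_ninv (a : L V) : ninv (ninv a) = a := by simp [ninv]

/-- value of a letter -/
def val (a : L V) : RAAG Γ :=
  if a.2 then PresentedGroup.of a.1 else (PresentedGroup.of a.1)⁻¹

/-- value of a word -/
def lval (w : List (L V)) : RAAG Γ := (w.map (val Γ)).prod

theorem lval_nil : lval Γ [] = 1 := rfl

theorem lval_cons (a : L V) (w : List (L V)) : lval Γ (a :: w) = val Γ a * lval Γ w := by
  simp [lval]

theorem lval_append (u w : List (L V)) : lval Γ (u ++ w) = lval Γ u * lval Γ w := by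
  simp [lval]

theorem val_ninv (a : L V) : val Γ (ninv a) = (val Γ a)⁻¹ := by
  unfold val ninv
  cases a.2 <;> simp

theorem gen_comm {u v : V} (h : Γ.Adj u v) :
    Commute (PresentedGroup.of u : RAAG Γ) (PresentedGroup.of v) := by
  have h1 : (PresentedGroup.mk (rels Γ)) ⁅FreeGroup.of u, FreeGroup.of v⁆ = 1 :=
    PresentedGroup.one_of_mem ⟨u, v, h, rfl⟩
  rw [map_commutatorElement, commutatorElement_eq_one_iff_commute] at h1
  exact h1

theorem val_comm {a b : L V} (h : Γ.Adj a.1 b.1) : Commute (val Γ a) (val Γ b) := by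
  have := gen_comm Γ h
  unfold val
  split_ifs
  · exact this
  · exact this.inv_right
  · exact this.inv_left
  · exact this.inv_inv

theorem lval_comm (a : L V) (w : List (L V)) (h : ∀ l ∈ w, Γ.Adj a.1 l.1) :
    Commute (val Γ a) (lval Γ w) := by
  induction w with
  | nil => simp [lval_nil]
  | cons l w ih =>
    rw [lval_cons]
    exact (val_comm Γ (h l (by simp))).mul_right (ih fun l' hl' => h l' (by simp [hl']))

/-! ### pilings -/

section piling

variable [DecidableEq V] [DecidableRel Γ.Adj]

/-- states: a stack of marks for each vertex (`some b` is a sign, `none` is the mark `0`) -/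
abbrev St (V : Type) : Type := V → List (Option Bool)

/-- push a letter -/
def push (a : L V) (s : St V) : St V := fun u =>
  if u = a.1 then some a.2 :: s u else if Γ.Adj a.1 u then s u else none :: s u

/-- remove the top letter of the stack of `v` -/
def pop (v : V) (s : St V) : St V := fun u =>
  if u = v then (s u).tail else if Γ.Adj v u then s u else (s u).tail

theorem pop_push (a : L V) (s : St V) : pop Γ a.1 (push Γ a s) = s := by
  funext u
  unfold pop push
  split_ifs <;> rfl

theorem push_comm {a b : L V} (h : Γ.Adj a.1 b.1) (s : St V) :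
    push Γ a (push Γ b s) = push Γ b (push Γ a s) := by
  funext u
  unfold push
  have hne : a.1 ≠ b.1 := h.ne
  have h' := h.symm
  by_cases h1 : u = a.1
  · subst h1
    simp [hne, h']
  · by_cases h2 : u = b.1
    · subst h2
      simp [h1, h]
    · simp only [if_neg h1, if_neg h2]
      split_ifs <;> rfl

theorem push_self (a : L V) (s : St V) : push Γ a s a.1 = some a.2 :: s a.1 := by
  simp [push]

theorem push_adj {a : L V} {v : V} (h : Γ.Adj a.1 v) (s : St V) : push Γ a s v = s v := by
  have : v ≠ a.1 := fun e => by subst e; exact h.ne rfl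
  simp [push, this, h]

/-- valid states -/
inductive Valid : St V → Prop
  | empty : Valid fun _ => []
  | push (a : L V) (s : St V) (hs : Valid s) (h : (s a.1).head? ≠ some (some (!a.2))) :
      Valid (push Γ a s)

theorem valid_top {s : St V} (hs : Valid Γ s) : ∀ (v : V) (d : Bool),
    (s v).head? = some (some d) → ∃ s', Valid Γ s' ∧ s = push Γ (v, d) s' ∧
      (s' v).head? ≠ some (some (!d)) := by
  induction hs with
  | empty => intro v d h; simp at h
  | push a s hs h ih =>
    intro v d hv
    by_cases h1 : v = a.1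
    · subst h1
      rw [push_self] at hv
      have : a.2 = d := by simpa using hv
      subst this
      exact ⟨s, hs, rfl, h⟩
    · by_cases h2 : Γ.Adj a.1 v
      · rw [push_adj Γ h2] at hv
        obtain ⟨s', hs', rfl, h3⟩ := ih v d hv
        refine ⟨push Γ a s', Valid.push a s' hs' ?_, ?_, ?_⟩
        · rwa [push_adj Γ (a := (v, d)) h2.symm] at h
        · exact push_comm Γ h2 s'
        · rwa [push_adj Γ h2]
      · simp [push, h1, h2] at hv

/-- action of a letter -/
def act (a : L V) (s : St V) : St V :=
  if (s a.1).head? = some (some (!a.2)) then pop Γ a.1 s else push Γ a s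

theorem act_push (a : L V) (s : St V) (h : (s a.1).head? ≠ some (some (!a.2))) :
    act Γ a s = push Γ a s := by simp [act, h]

theorem act_pop (a : L V) (s : St V) : act Γ a (push Γ (ninv a) s) = s := by
  unfold act
  rw [if_pos]
  · exact pop_push Γ (ninv a) s
  · have := push_self Γ (ninv a) s
    simp only [ninv] at this ⊢
    rw [this]
    rfl

theorem act_valid (a : L V) {s : St V} (hs : Valid Γ s) : Valid Γ (act Γ a s) := by
  by_cases h : (s a.1).head? = some (some (!a.2))
  · obtain ⟨s', hs', rfl, _⟩ := valid_top Γ hs a.1 (!a.2) h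
    have : act Γ a (push Γ (a.1, !a.2) s') = s' := act_pop Γ a s'
    rw [this]
    exact hs'
  · rw [act_push Γ a s h]
    exact Valid.push a s hs h

theorem act_inv (a : L V) {s : St V} (hs : Valid Γ s) : act Γ (ninv a) (act Γ a s) = s := by
  by_cases h : (s a.1).head? = some (some (!a.2))
  · obtain ⟨s', _, rfl, h3⟩ := valid_top Γ hs a.1 (!a.2) h
    have : act Γ a (push Γ (a.1, !a.2) s') = s' := act_pop Γ a s'
    rw [this]
    exact act_push Γ (ninv a) s' h3
  · rw [act_push Γ a s h]
    have := act_pop Γ (ninv a) s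
    rwa [ninv_ninv] at this

theorem act_push_comm {a b : L V} (hab : Γ.Adj a.1 b.1) {s : St V} (hs : Valid Γ s) :
    act Γ b (push Γ a s) = push Γ a (act Γ b s) := by
  by_cases h : (s b.1).head? = some (some (!b.2))
  · obtain ⟨s', _, rfl, _⟩ := valid_top Γ hs b.1 (!b.2) h
    have h1 : act Γ b (push Γ (b.1, !b.2) s') = s' := act_pop Γ b s'
    have h2 : act Γ b (push Γ (b.1, !b.2) (push Γ a s')) = push Γ a s' := act_pop Γ b _
    rw [h1, push_comm Γ (b := (b.1, !b.2)) hab, h2]
  · rw [act_push Γ b s h, act_push Γ b, push_comm Γ hab]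
    rwa [push_adj Γ hab]

theorem act_head {a b : L V} (hab : Γ.Adj a.1 b.1) (s : St V) : act Γ b s a.1 = s a.1 := by
  unfold act
  split_ifs
  · have : a.1 ≠ b.1 := hab.ne
    simp [pop, this, hab.symm]
  · exact push_adj Γ hab.symm s

theorem act_comm {a b : L V} (hab : Γ.Adj a.1 b.1) {s : St V} (hs : Valid Γ s) :
    act Γ a (act Γ b s) = act Γ b (act Γ a s) := by
  by_cases h : (s a.1).head? = some (some (!a.2))
  · obtain ⟨s', hs', rfl, _⟩ := valid_top Γ hs a.1 (!a.2) h
    have h1 : act Γ a (push Γ (a.1, !a.2) s') = s' := act_pop Γ a s'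
    rw [h1, act_push_comm Γ (a := (a.1, !a.2)) hab hs']
    exact act_pop Γ a _
  · rw [act_push Γ a s h, act_push_comm Γ hab hs, act_push Γ a]
    rwa [act_head Γ hab]

/-- the permutation of the valid states given by a letter -/
def actE (a : L V) : Equiv.Perm {s : St V // Valid Γ s} where
  toFun s := ⟨act Γ a s.1, act_valid Γ a s.2⟩
  invFun s := ⟨act Γ (ninv a) s.1, act_valid Γ (ninv a) s.2⟩
  left_inv s := Subtype.ext (act_inv Γ a s.2)
  right_inv s := Subtype.ext (by
    have := act_inv Γ (ninv a) s.2
    rwa [ninv_ninv] at this)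

/-- the action of the group (with the opposite order) -/
def actHom : RAAG Γ →* (Equiv.Perm {s : St V // Valid Γ s})ᵐᵒᵖ :=
  PresentedGroup.toGroup (f := fun v => MulOpposite.op (actE Γ (v, true))) (by
    rintro r ⟨u, v, h, rfl⟩
    rw [map_commutatorElement, commutatorElement_eq_one_iff_commute]
    simp only [FreeGroup.lift_apply_of]
    refine Commute.op ?_
    refine Equiv.ext fun s => Subtype.ext ?_
    exact act_comm Γ (a := (u, true)) (b := (v, true)) h s.2)

theorem actHom_val (a : L V) : actHom Γ (val Γ a) = MulOpposite.op (actE Γ a) := by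
  unfold val
  have h1 : ∀ v, actHom Γ (PresentedGroup.of v) = MulOpposite.op (actE Γ (v, true)) := by
    intro v
    exact PresentedGroup.toGroup.of _
  rcases a with ⟨v, e⟩
  cases e
  · simp only [Bool.false_eq_true, if_false, map_inv, h1]
    rw [← MulOpposite.op_inv]
    congr 1
  · simp only [if_true, h1]

/-- state after reading a word, starting from `s` -/
def run (w : List (L V)) (s : St V) : St V := w.foldl (fun s a => act Γ a s) s

theorem run_eq (w : List (L V)) : ∀ s : {s : St V // Valid Γ s},
    run Γ w s.1 = ((MulOpposite.unop (actHom Γ (lval Γ w))) s).1 := by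
  induction w with
  | nil => intro s; simp [run, lval_nil]
  | cons a w ih =>
    intro s
    have h1 := ih ⟨act Γ a s.1, act_valid Γ a s.2⟩
    rw [lval_cons, map_mul, actHom_val, MulOpposite.unop_mul, MulOpposite.unop_op]
    exact h1

theorem run_congr {w w' : List (L V)} (h : lval Γ w = lval Γ w') :
    run Γ w (fun _ => []) = run Γ w' (fun _ => []) := by
  have h1 := run_eq Γ w ⟨fun _ => [], Valid.empty⟩
  have h2 := run_eq Γ w' ⟨fun _ => [], Valid.empty⟩
  simp only at h1 h2
  rw [h1, h2, h]

variable [Fintype V]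

/-- number of signs in a state -/
def nz (s : St V) : ℕ := ∑ v, (s v).countP fun x => x.isSome

theorem nz_push (a : L V) (s : St V) : nz (push Γ a s) = nz s + 1 := by
  unfold nz
  rw [← Finset.add_sum_erase _ _ (Finset.mem_univ a.1), ← Finset.add_sum_erase (a := a.1)
    (f := fun v => (s v).countP fun x => x.isSome) _ (Finset.mem_univ a.1)]
  have h1 : ((push Γ a s) a.1).countP (fun x => x.isSome)
      = (s a.1).countP (fun x => x.isSome) + 1 := by
    rw [push_self]
    simp
  have h2 : ∀ v ∈ Finset.univ.erase a.1, ((push Γ a s) v).countP (fun x => x.isSome)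
      = (s v).countP (fun x => x.isSome) := by
    intro v hv
    have hne := Finset.ne_of_mem_erase hv
    unfold push
    rw [if_neg hne]
    split_ifs <;> simp
  rw [h1, Finset.sum_congr rfl h2]
  ring

theorem nz_act_le (a : L V) {s : St V} (hs : Valid Γ s) : nz (act Γ a s) ≤ nz s + 1 := by
  by_cases h : (s a.1).head? = some (some (!a.2))
  · obtain ⟨s', _, rfl, _⟩ := valid_top Γ hs a.1 (!a.2) h
    have h1 : act Γ a (push Γ (a.1, !a.2) s') = s' := act_pop Γ a s'
    rw [h1, nz_push]
    omega
  · rw [act_push Γ a s h, nz_push]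

theorem nz_run_le (w : List (L V)) : ∀ {s : St V}, Valid Γ s → nz (run Γ w s) ≤ nz s + w.length := by
  induction w with
  | nil => intro s _; simp [run]
  | cons a w ih =>
    intro s hs
    have h1 := ih (act_valid Γ a hs)
    have h2 := nz_act_le Γ a hs
    simp only [run, List.foldl_cons, List.length_cons] at h1 ⊢
    omega

set_option linter.unusedSectionVars false

/-! ### reduced words -/

/-- the letters which can be moved to the end -/
def upd (O : Finset (L V)) (b : L V) : Finset (L V) := insert b (O.filter fun a => Γ.Adj a.1 b.1)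

/-- the word `w` is reduced after a word whose set of movable letters is `O` -/
def Red : Finset (L V) → List (L V) → Prop
  | _, [] => True
  | O, b :: w => ninv b ∉ O ∧ Red (upd Γ O b) w

/-- heads of the stacks are controlled by `O` -/
def Good (O : Finset (L V)) (s : St V) : Prop :=
  ∀ a : L V, (s a.1).head? = some (some a.2) → a ∈ O

theorem good_push (O : Finset (L V)) (s : St V) (b : L V) (h : Good O s) :
    Good (upd Γ O b) (push Γ b s) := by
  intro a ha
  unfold upd
  by_cases h1 : a.1 = b.1
  · rw [h1, push_self] at ha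
    have h2 : b.2 = a.2 := by simpa using ha
    exact Finset.mem_insert.2 (Or.inl (Prod.ext h1 h2.symm))
  · by_cases h2 : Γ.Adj b.1 a.1
    · rw [push_adj Γ h2] at ha
      exact Finset.mem_insert.2 (Or.inr (Finset.mem_filter.2 ⟨h a ha, h2.symm⟩))
    · simp [push, h1, h2] at ha

theorem red_run (w : List (L V)) : ∀ (O : Finset (L V)) (s : St V), Good O s → Red Γ O w →
    nz (run Γ w s) = nz s + w.length := by
  induction w with
  | nil => intro O s _ _; simp [run]
  | cons b w ih =>
    intro O s hg hr
    have h1 : (s b.1).head? ≠ some (some (!b.2)) := by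
      intro h
      exact hr.1 (hg (ninv b) h)
    have h2 := ih (upd Γ O b) (push Γ b s) (good_push Γ O s b hg) hr.2
    simp only [run, List.foldl_cons, List.length_cons] at h2 ⊢
    rw [act_push Γ b s h1, h2, nz_push]
    ring

/-- reduced words are geodesic -/
theorem red_geodesic (w w' : List (L V)) (hw : Red Γ ∅ w) (h : lval Γ w = lval Γ w') :
    w.length ≤ w'.length := by
  have h1 := red_run Γ w ∅ (fun _ => []) (fun a ha => by simp at ha) hw
  have h2 := nz_run_le Γ w' Valid.empty
  rw [run_congr Γ h] at h1
  have h3 : nz (fun _ : V => ([] : List (Option Bool))) = 0 := by simp [nz]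
  omega

/-! ### prefixes and suffixes -/

/-- `x = r b q` with all letters of `r` in the link of `b` -/
def Pre (b : L V) : List (L V) → Prop
  | [] => False
  | l :: x => l = b ∨ (Γ.Adj b.1 l.1 ∧ Pre b x)

/-- the set of movable letters after reading `w` from `O` -/
def OO (O : Finset (L V)) (w : List (L V)) : Finset (L V) := w.foldl (upd Γ) O

theorem OO_append (O : Finset (L V)) (u w : List (L V)) :
    OO Γ O (u ++ w) = OO Γ (OO Γ O u) w := by simp [OO]

theorem red_append (u w : List (L V)) : ∀ O, Red Γ O (u ++ w) ↔ Red Γ O u ∧ Red Γ (OO Γ O u) w := by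
  induction u with
  | nil => intro O; simp [Red, OO]
  | cons b u ih =>
    intro O
    simp only [List.cons_append, Red, OO, List.foldl_cons]
    rw [ih (upd Γ O b)]
    exact and_assoc.symm

theorem upd_mono {O O' : Finset (L V)} (h : O ⊆ O') (b : L V) : upd Γ O b ⊆ upd Γ O' b := by
  unfold upd
  exact Finset.insert_subset_insert _ (Finset.filter_subset_filter _ h)

theorem red_mono (w : List (L V)) : ∀ {O O' : Finset (L V)}, O ⊆ O' → Red Γ O' w → Red Γ O w := by
  induction w with
  | nil => intro O O' _ _; trivial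
  | cons b w ih =>
    intro O O' h hr
    exact ⟨fun hc => hr.1 (h hc), ih (upd_mono Γ h b) hr.2⟩

theorem pre_not_red (w : List (L V)) : ∀ (a : L V) (O : Finset (L V)), a ∈ O → Pre Γ (ninv a) w →
    ¬ Red Γ O w := by
  induction w with
  | nil => intro a O _ h; exact absurd h id
  | cons b w ih =>
    intro a O ha h hr
    rcases h with h | ⟨h1, h2⟩
    · apply hr.1
      rw [h, ninv_ninv]
      exact ha
    · refine ih a (upd Γ O b) ?_ h2 hr.2
      exact Finset.mem_insert.2 (Or.inr (Finset.mem_filter.2 ⟨ha, h1⟩))

/-- failure of reducedness -/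
theorem red_fail (w : List (L V)) : ∀ O : Finset (L V), ¬ Red Γ O w →
    (∃ a ∈ O, Pre Γ (ninv a) w) ∨ ¬ Red Γ ∅ w := by
  induction w with
  | nil => intro O h; exact absurd trivial h
  | cons b w ih =>
    intro O h
    by_cases h1 : ninv b ∈ O
    · left
      exact ⟨ninv b, h1, Or.inl (by rw [ninv_ninv])⟩
    · have h2 : ¬ Red Γ (upd Γ O b) w := fun hc => h ⟨h1, hc⟩
      rcases ih _ h2 with ⟨a, ha, hp⟩ | h3
      · rcases Finset.mem_insert.1 ha with rfl | ha
        · right
          intro hc
          exact pre_not_red Γ w a _ (Finset.mem_insert_self _ _) hp hc.2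
        · obtain ⟨h3, h4⟩ := Finset.mem_filter.1 ha
          left
          exact ⟨a, h3, Or.inr ⟨h4, hp⟩⟩
      · right
        intro hc
        exact h3 (red_mono Γ w (Finset.empty_subset _) hc.2)

/-- a movable letter -/
theorem mem_OO (w : List (L V)) : ∀ (O : Finset (L V)) (a : L V), a ∈ OO Γ O w →
    (∃ p s, w = p ++ a :: s ∧ ∀ l ∈ s, Γ.Adj a.1 l.1) ∨ (a ∈ O ∧ ∀ l ∈ w, Γ.Adj a.1 l.1) := by
  induction w with
  | nil => intro O a h; right; exact ⟨h, by simp⟩
  | cons b w ih =>
    intro O a h
    rcases ih (upd Γ O b) a h with ⟨p, s, rfl, hs⟩ | ⟨h1, h2⟩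
    · left
      exact ⟨b :: p, s, rfl, hs⟩
    · rcases Finset.mem_insert.1 h1 with rfl | h1
      · left
        exact ⟨[], w, rfl, h2⟩
      · right
        obtain ⟨h3, h4⟩ := Finset.mem_filter.1 h1
        refine ⟨h3, fun l hl => ?_⟩
        rcases List.mem_cons.1 hl with rfl | hl
        · exact h4
        · exact h2 l hl

/-- a word with the letter `b` movable to the front -/
theorem pre_split (b : L V) (x : List (L V)) (h : Pre Γ b x) :
    ∃ r q, x = r ++ b :: q ∧ ∀ l ∈ r, Γ.Adj b.1 l.1 := by
  induction x with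
  | nil => exact absurd h id
  | cons l x ih =>
    rcases h with rfl | ⟨h1, h2⟩
    · exact ⟨[], x, rfl, by simp⟩
    · obtain ⟨r, q, rfl, h3⟩ := ih h2
      refine ⟨l :: r, q, rfl, fun l' hl' => ?_⟩
      rcases List.mem_cons.1 hl' with rfl | hl'
      · exact h1
      · exact h3 l' hl'

/-- deleting another letter -/
theorem pre_delete (b a : L V) (hab : a ≠ b) (y z : List (L V)) (h : Pre Γ b (y ++ a :: z)) :
    Pre Γ b (y ++ z) := by
  induction y with
  | nil =>
    rcases h with h | ⟨_, h⟩
    · exact absurd h hab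
    · exact h
  | cons l y ih =>
    rcases h with rfl | ⟨h1, h2⟩
    · exact Or.inl rfl
    · exact Or.inr ⟨h1, ih h2⟩

/-- cancelling a letter with a movable inverse -/
theorem pre_cancel (a : L V) (x : List (L V)) (h : Pre Γ (ninv a) x) :
    ∃ y, y.length + 1 = x.length ∧ val Γ a * lval Γ x = lval Γ y := by
  obtain ⟨r, q, rfl, hr⟩ := pre_split Γ _ x h
  refine ⟨r ++ q, by simp; omega, ?_⟩
  rw [lval_append, lval_cons, lval_append, val_ninv]
  have h1 : Commute (val Γ a) (lval Γ r) := lval_comm Γ a r hr
  rw [← mul_assoc, h1.eq, mul_assoc, mul_inv_cancel_left]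

/-- a word which is not reduced is not geodesic -/
theorem not_red_short (w : List (L V)) (h : ¬ Red Γ ∅ w) :
    ∃ w', w'.length < w.length ∧ lval Γ w' = lval Γ w := by
  induction w with
  | nil => exact absurd trivial h
  | cons b w ih =>
    have h1 : ¬ Red Γ (upd Γ ∅ b) w := fun hc => h ⟨by simp, hc⟩
    rcases red_fail Γ w _ h1 with ⟨a, ha, hp⟩ | h2
    · have : a = b := by simpa [upd] using ha
      subst this
      obtain ⟨y, hy1, hy2⟩ := pre_cancel Γ a w hp
      exact ⟨y, by simp; omega, by rw [lval_cons, hy2]⟩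
    · obtain ⟨w', h3, h4⟩ := ih h2
      exact ⟨b :: w', by simpa using h3, by rw [lval_cons, lval_cons, h4]⟩

end piling

end Pool.Agent.R508.CG
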