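import Mathlib
import Pool.Agent.R508.CGraag

set_option autoImplicit false

/-! Twisted conjugacy geodesics in right-angled Artin groups
(helper508, MP_7325c9_al; proof by helper651). -/

open scoped commutatorElement

namespace Pool.Agent.R508.CG

variable {V : Type} (Γ : SimpleGraph V)

/-- action of a graph automorphism on letters -/
def la (g : Γ ≃g Γ) (a : L V) : L V := (g a.1, a.2)

theorem la_mul (g h : Γ ≃g Γ) (a : L V) : la Γ (g * h) a = la Γ g (la Γ h a) := rfl

theorem la_one (a : L V) : la Γ 1 a = a := rfl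

theorem la_ninv (g : Γ ≃g Γ) (a : L V) : la Γ g (ninv a) = ninv (la Γ g a) := rfl

theorem la_inj (g : Γ ≃g Γ) : Function.Injective (la Γ g) := by
  intro a b h
  have h1 : g a.1 = g b.1 := congrArg Prod.fst h
  have h2 : (la Γ g a).2 = (la Γ g b).2 := congrArg Prod.snd h
  exact Prod.ext (g.injective h1) h2

theorem adj_iff (g : Γ ≃g Γ) (a b : L V) : Γ.Adj (la Γ g a).1 (la Γ g b).1 ↔ Γ.Adj a.1 b.1 :=
  g.map_adj_iff

/-- action on words -/
def lw (g : Γ ≃g Γ) (w : List (L V)) : List (L V) := w.map (la Γ g)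

theorem lw_mul (g h : Γ ≃g Γ) (w : List (L V)) : lw Γ (g * h) w = lw Γ g (lw Γ h w) := by
  simp only [lw, List.map_map]
  rfl

theorem lw_one (w : List (L V)) : lw Γ 1 w = w := by
  have : la Γ 1 = id := funext fun a => la_one Γ a
  simp [lw, this]

theorem lw_append (g : Γ ≃g Γ) (u w : List (L V)) : lw Γ g (u ++ w) = lw Γ g u ++ lw Γ g w := by
  simp [lw]

theorem lw_cons (g : Γ ≃g Γ) (a : L V) (w : List (L V)) :
    lw Γ g (a :: w) = la Γ g a :: lw Γ g w := rfl

theorem lw_length (g : Γ ≃g Γ) (w : List (L V)) : (lw Γ g w).length = w.length := by simp [lw]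

theorem inv_la (g : Γ ≃g Γ) (a : L V) : la Γ g⁻¹ (la Γ g a) = a := by
  rw [← la_mul, inv_mul_cancel, la_one]

theorem la_inv (g : Γ ≃g Γ) (a : L V) : la Γ g (la Γ g⁻¹ a) = a := by
  rw [← la_mul, mul_inv_cancel, la_one]

theorem inv_lw (g : Γ ≃g Γ) (w : List (L V)) : lw Γ g⁻¹ (lw Γ g w) = w := by
  rw [← lw_mul, inv_mul_cancel, lw_one]

/-- the induced endomorphism of the group -/
def rmap (g : Γ ≃g Γ) : RAAG Γ →* RAAG Γ :=
  PresentedGroup.toGroup (f := fun v => (PresentedGroup.of (g v) : RAAG Γ)) (by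
    rintro r ⟨u, v, h, rfl⟩
    rw [map_commutatorElement, commutatorElement_eq_one_iff_commute]
    simp only [FreeGroup.lift_apply_of]
    exact gen_comm Γ (g.map_adj_iff.2 h))

theorem rmap_of (g : Γ ≃g Γ) (v : V) :
    rmap Γ g (PresentedGroup.of v) = PresentedGroup.of (g v) := PresentedGroup.toGroup.of _

theorem rmap_val (g : Γ ≃g Γ) (a : L V) : rmap Γ g (val Γ a) = val Γ (la Γ g a) := by
  unfold val la
  rcases a with ⟨v, e⟩
  cases e <;> simp [rmap_of]

theorem rmap_lval (g : Γ ≃g Γ) (w : List (L V)) : rmap Γ g (lval Γ w) = lval Γ (lw Γ g w) := by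
  induction w with
  | nil => simp [lval_nil, lw]
  | cons a w ih => rw [lval_cons, map_mul, rmap_val, ih, lw_cons, lval_cons]

theorem rmap_one : rmap Γ 1 = MonoidHom.id _ := by
  refine PresentedGroup.ext fun v => ?_
  rw [rmap_of]
  rfl

theorem rmap_mul (g h : Γ ≃g Γ) : rmap Γ (g * h) = (rmap Γ g).comp (rmap Γ h) := by
  refine PresentedGroup.ext fun v => ?_
  rw [rmap_of, MonoidHom.comp_apply, rmap_of, rmap_of]
  rfl

/-- the induced action on the group -/
def raut : (Γ ≃g Γ) →* MulAut (RAAG Γ) where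
  toFun g := MonoidHom.toMulEquiv (rmap Γ g) (rmap Γ g⁻¹)
    (by rw [← rmap_mul, inv_mul_cancel, rmap_one]) (by rw [← rmap_mul, mul_inv_cancel, rmap_one])
  map_one' := by
    ext x
    show rmap Γ 1 x = x
    rw [rmap_one]; rfl
  map_mul' g h := by
    ext x
    show rmap Γ (g * h) x = rmap Γ g (rmap Γ h x)
    rw [rmap_mul]; rfl

theorem raut_apply (g : Γ ≃g Γ) (x : RAAG Γ) : raut Γ g x = rmap Γ g x := rfl

theorem raut_lval (g : Γ ≃g Γ) (w : List (L V)) : raut Γ g (lval Γ w) = lval Γ (lw Γ g w) :=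
  rmap_lval Γ g w

/-- inverse word -/
def winv (w : List (L V)) : List (L V) := (w.map ninv).reverse

theorem lval_winv (w : List (L V)) : lval Γ (winv w) = (lval Γ w)⁻¹ := by
  induction w with
  | nil => simp [winv, lval_nil]
  | cons a w ih =>
    have : winv (a :: w) = winv w ++ [ninv a] := by simp [winv]
    rw [this, lval_append, ih, lval_cons, lval_cons, lval_nil, val_ninv]
    group

theorem lval_surj (x : RAAG Γ) : ∃ w, lval Γ w = x := by
  obtain ⟨y, rfl⟩ := PresentedGroup.mk_surjective (rels Γ) x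
  induction y using FreeGroup.induction_on with
  | C1 => exact ⟨[], by simp [lval_nil]⟩
  | of v => exact ⟨[(v, true)], by simp [lval_cons, lval_nil, val]; rfl⟩
  | inv_of v ih => exact ⟨[(v, false)], by simp [lval_cons, lval_nil, val]; rfl⟩
  | mul x y hx hy =>
    obtain ⟨w1, h1⟩ := hx
    obtain ⟨w2, h2⟩ := hy
    exact ⟨w1 ++ w2, by rw [lval_append, h1, h2, map_mul]⟩

section dec

set_option linter.unusedSectionVars false

variable [DecidableEq V] [DecidableRel Γ.Adj] [Fintype V]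

theorem pre_la (g : Γ ≃g Γ) (b : L V) (x : List (L V)) (h : Pre Γ b x) :
    Pre Γ (la Γ g b) (lw Γ g x) := by
  induction x with
  | nil => exact h
  | cons l x ih =>
    rcases h with rfl | ⟨h1, h2⟩
    · exact Or.inl rfl
    · exact Or.inr ⟨(adj_iff Γ g b l).2 h1, ih h2⟩

theorem upd_la (g : Γ ≃g Γ) (O : Finset (L V)) (b : L V) :
    upd Γ (O.image (la Γ g)) (la Γ g b) = (upd Γ O b).image (la Γ g) := by
  unfold upd
  rw [Finset.image_insert]
  congr 1
  ext a
  simp only [Finset.mem_filter, Finset.mem_image]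
  constructor
  · rintro ⟨⟨c, hc, rfl⟩, h⟩
    exact ⟨c, ⟨hc, (adj_iff Γ g c b).1 h⟩, rfl⟩
  · rintro ⟨c, ⟨hc, h⟩, rfl⟩
    exact ⟨⟨c, hc, rfl⟩, (adj_iff Γ g c b).2 h⟩

theorem red_la (g : Γ ≃g Γ) (w : List (L V)) : ∀ O : Finset (L V), Red Γ O w →
    Red Γ (O.image (la Γ g)) (lw Γ g w) := by
  induction w with
  | nil => intro O _; trivial
  | cons b w ih =>
    intro O h
    refine ⟨?_, ?_⟩
    · rw [← la_ninv]
      intro hc
      obtain ⟨c, hc1, hc2⟩ := Finset.mem_image.1 hc
      rw [la_inj Γ g hc2] at hc1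
      exact h.1 hc1
    · rw [upd_la]
      exact ih _ h.2

theorem red_lw (g : Γ ≃g Γ) (w : List (L V)) (h : Red Γ ∅ w) : Red Γ ∅ (lw Γ g w) := by
  have := red_la Γ g w ∅ h
  simpa using this

/-- `u ψ(u) ⋯ ψⁿ⁻¹(u)` -/
def UU (g : Γ ≃g Γ) (u : List (L V)) : ℕ → List (L V)
  | 0 => []
  | n + 1 => UU g u n ++ lw Γ (g ^ n) u

theorem UU_length (g : Γ ≃g Γ) (u : List (L V)) (n : ℕ) :
    (UU Γ g u n).length = n * u.length := by
  induction n with
  | zero => simp [UU]
  | succ n ih => simp only [UU, List.length_append, ih, lw_length]; ring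

theorem UU_conj (g : Γ ≃g Γ) (u u' : List (L V)) (h : RAAG Γ)
    (hu : lval Γ u' = h * lval Γ u * (raut Γ g h)⁻¹) (n : ℕ) :
    lval Γ (UU Γ g u' n) = h * lval Γ (UU Γ g u n) * (raut Γ (g ^ n) h)⁻¹ := by
  induction n with
  | zero => simp [UU, lval_nil]
  | succ n ih =>
    simp only [UU]
    rw [lval_append, lval_append, ih, ← raut_lval, ← raut_lval, hu, map_mul, map_mul, map_inv]
    have : raut Γ (g ^ (n + 1)) h = raut Γ (g ^ n) (raut Γ g h) := by
      rw [pow_succ, map_mul]; rfl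
    rw [this]
    group

/-- criterion, first half -/
theorem key1 (g : Γ ≃g Γ) (u : List (L V)) (hU : ∀ n, Red Γ ∅ (UU Γ g u n)) (h : RAAG Γ)
    (u' : List (L V)) (hu : lval Γ u' = h * lval Γ u * (raut Γ g h)⁻¹) :
    u.length ≤ u'.length := by
  obtain ⟨z, rfl⟩ := lval_surj Γ h
  by_contra hc
  push Not at hc
  set n := 2 * z.length + 1 with hn
  have h1 := UU_conj Γ g u u' _ hu n
  have h2 : lval Γ (UU Γ g u n) = lval Γ (winv z ++ UU Γ g u' n ++ lw Γ (g ^ n) z) := by
    rw [lval_append, lval_append, lval_winv, h1, ← raut_lval]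
    group
  have h3 := red_geodesic Γ _ _ (hU n) h2
  simp only [List.length_append, UU_length, lw_length, winv, List.length_reverse,
    List.length_map] at h3
  have h4 : n * (u'.length + 1) ≤ n * u.length := Nat.mul_le_mul_left n hc
  have h5 : n * (u'.length + 1) = n * u'.length + n := by ring
  omega

theorem key_step (g : Γ ≃g Γ) (k : ℕ) : ∀ (u p s : List (L V)) (a : L V), u = p ++ a :: s →
    (∀ l ∈ s, Γ.Adj a.1 l.1) → (∀ i, 1 ≤ i → i < k + 1 → ∀ l ∈ lw Γ (g ^ i) u, Γ.Adj a.1 l.1) →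
    Pre Γ (ninv a) (lw Γ (g ^ (k + 1)) u) →
    ∃ (h : RAAG Γ) (u' : List (L V)), lval Γ u' = h * lval Γ u * (raut Γ g h)⁻¹ ∧
      u'.length < u.length := by
  induction k with
  | zero =>
    intro u p s a hu hs _ hpre
    set c := la Γ g⁻¹ a with hc
    have hca : la Γ g c = a := la_inv Γ g a
    have h1 : Pre Γ (ninv c) u := by
      have := pre_la Γ g⁻¹ _ _ hpre
      rw [la_ninv, zero_add, pow_one, inv_lw] at this
      exact this
    have hne : a ≠ ninv c := by
      intro h
      have h2 : a.2 = !c.2 := congrArg (fun x : L V => x.2) h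
      have h3 : c.2 = a.2 := rfl
      rw [h3] at h2
      cases a.2 <;> simp at h2
    rw [hu] at h1
    have h2 := pre_delete Γ _ a hne p s h1
    obtain ⟨y, hy1, hy2⟩ := pre_cancel Γ c _ h2
    refine ⟨val Γ c, y, ?_, ?_⟩
    · rw [← hy2, raut_apply, rmap_val, hca, hu, lval_append, lval_append, lval_cons]
      have h3 := lval_comm Γ a s hs
      rw [h3.eq]
      group
    · rw [hu]
      simp only [List.length_append, List.length_cons] at hy1 ⊢
      omega
  | succ k ih =>
    intro u p s a hu hs hmid hpre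
    set c := la Γ g⁻¹ a with hc
    have hca : la Γ g c = a := la_inv Γ g a
    have hau : a ∈ u := by rw [hu]; simp
    -- letters of `u` shifted
    have hm1 : ∀ i, i < k + 1 → ∀ l ∈ u, Γ.Adj c.1 (la Γ (g ^ i) l).1 := by
      intro i hi l hl
      have h1 := hmid (i + 1) (by omega) (by omega) (la Γ (g ^ (i + 1)) l)
        (List.mem_map.2 ⟨l, hl, rfl⟩)
      rw [pow_succ', la_mul, ← hca, adj_iff] at h1
      exact h1
    have hm2 : ∀ i, 1 ≤ i → i < k + 2 → Γ.Adj c.1 (la Γ (g ^ i) c).1 := by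
      intro i h1 h2
      have h3 := hmid i h1 h2 (la Γ (g ^ i) a) (List.mem_map.2 ⟨a, hau, rfl⟩)
      have h4 : la Γ (g ^ i) a = la Γ g (la Γ (g ^ i) c) := by
        calc la Γ (g ^ i) a = la Γ (g ^ i) (la Γ g c) := by rw [hca]
        _ = la Γ (g ^ i * g) c := rfl
        _ = la Γ (g * g ^ i) c := by rw [← pow_succ, ← pow_succ']
        _ = _ := rfl
      rw [h4] at h3
      conv at h3 => rw [← hca]
      rwa [adj_iff] at h3
    have hsub : ∀ l ∈ p ++ s, l ∈ u := by
      intro l hl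
      rw [hu]
      rcases List.mem_append.1 hl with h | h
      · simp [h]
      · simp [h]
    have hconj : lval Γ (c :: (p ++ s)) = val Γ c * lval Γ u * (raut Γ g (val Γ c))⁻¹ := by
      rw [raut_apply, rmap_val, hca, hu, lval_cons, lval_append, lval_append, lval_cons]
      have h3 := lval_comm Γ a s hs
      rw [h3.eq]
      group
    obtain ⟨h, u', h1, h2⟩ := ih (c :: (p ++ s)) [] (p ++ s) c rfl
      (fun l hl => by
        have := hm1 0 (by omega) l (hsub l hl)
        rwa [pow_zero, la_one] at this)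
      (fun i hi1 hi2 l hl => by
        obtain ⟨l0, hl0, rfl⟩ := List.mem_map.1 hl
        rcases List.mem_cons.1 hl0 with rfl | hl0
        · exact hm2 i hi1 (by omega)
        · exact hm1 i (by omega) l0 (hsub l0 hl0))
      (by
        rw [lw_cons]
        refine Or.inr ⟨hm2 (k + 1) (by omega) (by omega), ?_⟩
        have h1 : Pre Γ (ninv c) (lw Γ (g ^ (k + 1)) u) := by
          have := pre_la Γ g⁻¹ _ _ hpre
          rw [la_ninv, pow_succ', lw_mul, inv_lw] at this
          exact this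
        rw [hu, lw_append, lw_cons] at h1
        rw [lw_append]
        refine pre_delete Γ _ _ ?_ _ _ h1
        intro h
        have h2 : a.2 = !c.2 := congrArg (fun x : L V => x.2) h
        have h3 : c.2 = a.2 := rfl
        rw [h3] at h2
        cases a.2 <;> simp at h2)
    refine ⟨h * val Γ c, u', ?_, ?_⟩
    · rw [h1, hconj, map_mul]
      group
    · rw [hu]
      simp only [List.length_append, List.length_cons] at h2 ⊢
      exact h2

theorem mem_OO_UU (g : Γ ≃g Γ) (u : List (L V)) (n : ℕ) : ∀ a, a ∈ OO Γ ∅ (UU Γ g u n) →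
    ∃ i < n, (∃ p s, lw Γ (g ^ i) u = p ++ a :: s ∧ ∀ l ∈ s, Γ.Adj a.1 l.1) ∧
      ∀ j, i < j → j < n → ∀ l ∈ lw Γ (g ^ j) u, Γ.Adj a.1 l.1 := by
  induction n with
  | zero => intro a h; simp [UU, OO] at h
  | succ n ih =>
    intro a h
    simp only [UU] at h
    rw [OO_append] at h
    rcases mem_OO Γ _ _ a h with h1 | ⟨h1, h2⟩
    · exact ⟨n, by omega, h1, fun j h2 h3 => by omega⟩
    · obtain ⟨i, hi, h3, h4⟩ := ih a h1
      refine ⟨i, by omega, h3, fun j hj1 hj2 => ?_⟩
      rcases Nat.lt_succ_iff_lt_or_eq.1 hj2 with h5 | rfl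
      · exact h4 j hj1 h5
      · exact h2

/-- criterion, second half -/
theorem key2 (g : Γ ≃g Γ) (u : List (L V)) (n : ℕ) (hn : ¬ Red Γ ∅ (UU Γ g u n)) :
    ∃ (h : RAAG Γ) (u' : List (L V)), lval Γ u' = h * lval Γ u * (raut Γ g h)⁻¹ ∧
      u'.length < u.length := by
  induction n with
  | zero => exact absurd trivial hn
  | succ n ih =>
    by_cases h0 : Red Γ ∅ (UU Γ g u n)
    · simp only [UU] at hn
      rw [red_append] at hn
      have h1 : ¬ Red Γ (OO Γ ∅ (UU Γ g u n)) (lw Γ (g ^ n) u) := fun hc => hn ⟨h0, hc⟩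
      rcases red_fail Γ _ _ h1 with ⟨a, ha, hp⟩ | h2
      · obtain ⟨i, hi, ⟨p, s, hps, hs⟩, hmid⟩ := mem_OO_UU Γ g u n a ha
        set f := (g ^ i)⁻¹ with hf
        obtain ⟨k, hk⟩ : ∃ k, n = i + (k + 1) := ⟨n - i - 1, by omega⟩
        have hshift : ∀ j, lw Γ f (lw Γ (g ^ (i + j)) u) = lw Γ (g ^ j) u := by
          intro j
          rw [pow_add, lw_mul, hf, inv_lw]
        refine key_step Γ g k u (lw Γ f p) (lw Γ f s) (la Γ f a) ?_ ?_ ?_ ?_
        · have := hshift 0
          rw [add_zero, pow_zero, lw_one, hps, lw_append, lw_cons] at this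
          exact this.symm
        · intro l hl
          obtain ⟨l0, hl0, rfl⟩ := List.mem_map.1 hl
          exact (adj_iff Γ f a l0).2 (hs l0 hl0)
        · intro j hj1 hj2 l hl
          rw [← hshift j] at hl
          obtain ⟨l0, hl0, rfl⟩ := List.mem_map.1 hl
          exact (adj_iff Γ f a l0).2 (hmid (i + j) (by omega) (by omega) l0 hl0)
        · have := pre_la Γ f _ _ hp
          rw [hk, hshift, la_ninv] at this
          exact this
      · have h3 : ¬ Red Γ ∅ u := by
          intro hc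
          exact h2 (red_lw Γ _ u hc)
        obtain ⟨u', h4, h5⟩ := not_red_short Γ u h3
        exact ⟨1, u', by simp [h5], h4⟩
    · exact ih h0

end dec

end Pool.Agent.R508.CG
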