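import Mathlib
import Pool.Agent.R508.CGtwist

set_option autoImplicit false

/-! Conjugacy geodesics of twisted right-angled Artin groups form a regular language
(helper508, MP_7325c9_al; proof by helper651). -/

namespace Pool.Agent.R508.CG

variable {V : Type} (Γ : SimpleGraph V) (φ : Γ ≃g Γ)

/-- the cyclic group generated by `φ` -/
abbrev CC : Type := Subgroup.zpowers φ

/-- its action -/
def actC : CC Γ φ →* MulAut (RAAG Γ) := (raut Γ).comp (Subgroup.subtype _)

/-- the virtual right-angled Artin group -/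
abbrev AA : Type := RAAG Γ ⋊[actC Γ φ] CC Γ φ

theorem actC_apply (g : CC Γ φ) (x : RAAG Γ) : actC Γ φ g x = raut Γ g.1 x := rfl

theorem cc_comm (g h : CC Γ φ) : g * h = h * g := by
  obtain ⟨g, m, rfl⟩ := g
  obtain ⟨h, n, rfl⟩ := h
  apply Subtype.ext
  show φ ^ m * φ ^ n = φ ^ n * φ ^ m
  rw [← zpow_add, ← zpow_add, add_comm]

/-- labels of the generators -/
abbrev Lam (V : Type) : Type := L V ⊕ Bool

/-- the element of the cyclic group given by a `t`-letter -/
def tb (b : Bool) : CC Γ φ := if b then ⟨φ⁻¹, (Subgroup.zpowers φ).inv_mem (Subgroup.mem_zpowers φ)⟩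
  else ⟨φ, Subgroup.mem_zpowers φ⟩

/-- values of the labels -/
def ev : Lam V → AA Γ φ
  | Sum.inl a => SemidirectProduct.inl (val Γ a)
  | Sum.inr b => SemidirectProduct.inr (tb Γ φ b)

/-- value of a word -/
def evw (w : List (Lam V)) : AA Γ φ := (w.map (ev Γ φ)).prod

theorem evw_append (u w : List (Lam V)) : evw Γ φ (u ++ w) = evw Γ φ u * evw Γ φ w := by
  simp [evw]

/-- one step of the translation -/
def stp (x : CC Γ φ × List (L V) × ℕ) : Lam V → CC Γ φ × List (L V) × ℕ
  | Sum.inl a => (x.1, x.2.1 ++ [la Γ x.1.1 a], x.2.2)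
  | Sum.inr b => (x.1 * tb Γ φ b, x.2.1, x.2.2 + 1)

/-- translation of a word -/
def tr (w : List (Lam V)) : CC Γ φ × List (L V) × ℕ := w.foldl (stp Γ φ) (1, [], 0)

theorem tr_snoc (w : List (Lam V)) (x : Lam V) : tr Γ φ (w ++ [x]) = stp Γ φ (tr Γ φ w) x := by
  simp [tr]

theorem tr_ev (w : List (Lam V)) :
    (evw Γ φ w).left = lval Γ (tr Γ φ w).2.1 ∧ (evw Γ φ w).right = (tr Γ φ w).1 := by
  induction w using List.reverseRecOn with
  | nil => simp [evw, tr, lval_nil]
  | append_singleton w x ih =>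
    rw [evw_append, tr_snoc]
    obtain ⟨h1, h2⟩ := ih
    rcases x with a | b
    · constructor
      · show (evw Γ φ w).left * actC Γ φ (evw Γ φ w).right (evw Γ φ [Sum.inl a]).left = _
        simp only [stp]
        rw [lval_append, h1, h2, lval_cons, lval_nil, mul_one, ← rmap_val]
        simp [evw, ev, actC_apply, raut_apply]
      · show (evw Γ φ w).right * (evw Γ φ [Sum.inl a]).right = _
        simp only [stp]
        rw [h2]
        simp [evw, ev]
    · constructor
      · show (evw Γ φ w).left * actC Γ φ (evw Γ φ w).right (evw Γ φ [Sum.inr b]).left = _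
        simp only [stp]
        rw [h1]
        simp [evw, ev]
      · show (evw Γ φ w).right * (evw Γ φ [Sum.inr b]).right = _
        simp only [stp]
        rw [h2]
        simp [evw, ev]

theorem tr_len (w : List (Lam V)) : w.length = (tr Γ φ w).2.1.length + (tr Γ φ w).2.2 := by
  induction w using List.reverseRecOn with
  | nil => simp [tr]
  | append_singleton w x ih =>
    rw [tr_snoc]
    rcases x with a | b
    · simp only [stp, List.length_append, ih, List.length_cons, List.length_nil]; omega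
    · simp only [stp, List.length_append, ih, List.length_cons, List.length_nil]; omega

theorem tr_z (w : List (Lam V)) : ∃ z : List Bool, z.length = (tr Γ φ w).2.2 ∧
    (z.map (tb Γ φ)).prod = (tr Γ φ w).1 := by
  induction w using List.reverseRecOn with
  | nil => exact ⟨[], by simp [tr], by simp [tr]⟩
  | append_singleton w x ih =>
    rw [tr_snoc]
    obtain ⟨z, h1, h2⟩ := ih
    rcases x with a | b
    · exact ⟨z, h1, h2⟩
    · exact ⟨z ++ [b], by simp [stp, h1], by simp [stp, h2]⟩

/-- length in the cyclic group -/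
noncomputable def tau (g : CC Γ φ) : ℕ :=
  sInf {n | ∃ z : List Bool, z.length = n ∧ (z.map (tb Γ φ)).prod = g}

theorem z_exists (g : CC Γ φ) : ∃ z : List Bool, (z.map (tb Γ φ)).prod = g := by
  obtain ⟨g, m, rfl⟩ := g
  induction m using Int.induction_on with
  | zero => exact ⟨[], by simp; rfl⟩
  | succ n ih =>
    obtain ⟨z, hz⟩ := ih
    refine ⟨z ++ [false], ?_⟩
    rw [List.map_append, List.prod_append, hz]
    apply Subtype.ext
    simp only [tb, List.map_cons, List.map_nil, List.prod_cons, List.prod_nil, mul_one]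
    show φ ^ (n : ℤ) * φ = φ ^ ((n : ℤ) + 1)
    rw [zpow_add_one]
  | pred n ih =>
    obtain ⟨z, hz⟩ := ih
    refine ⟨z ++ [true], ?_⟩
    rw [List.map_append, List.prod_append, hz]
    apply Subtype.ext
    simp only [tb, List.map_cons, List.map_nil, List.prod_cons, List.prod_nil, mul_one]
    show φ ^ (-(n : ℤ)) * φ⁻¹ = φ ^ (-(n : ℤ) - 1)
    rw [zpow_sub_one]

theorem tau_mem (g : CC Γ φ) : ∃ z : List Bool, z.length = tau Γ φ g ∧
    (z.map (tb Γ φ)).prod = g := by
  have : {n | ∃ z : List Bool, z.length = n ∧ (z.map (tb Γ φ)).prod = g}.Nonempty := by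
    obtain ⟨z, hz⟩ := z_exists Γ φ g
    exact ⟨_, z, rfl, hz⟩
  exact Nat.sInf_mem this

theorem tau_le (z : List Bool) (g : CC Γ φ) (h : (z.map (tb Γ φ)).prod = g) :
    tau Γ φ g ≤ z.length := Nat.sInf_le ⟨z, rfl, h⟩

/-- the standard word for an element -/
def stw (u : List (L V)) (z : List Bool) : List (Lam V) := u.map Sum.inl ++ z.map Sum.inr

theorem stw_ev (u : List (L V)) (z : List Bool) :
    evw Γ φ (stw u z) = SemidirectProduct.inl (lval Γ u)
      * SemidirectProduct.inr (z.map (tb Γ φ)).prod := by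
  unfold stw
  rw [evw_append]
  congr 1
  · simp only [evw, lval, List.map_map]
    rw [map_list_prod, List.map_map]
    rfl
  · simp only [evw, List.map_map]
    rw [map_list_prod, List.map_map]
    rfl

/-- conjugacy geodesics, label version -/
def CGL : Set (List (Lam V)) :=
  {w | ∀ w', IsConj (evw Γ φ w) (evw Γ φ w') → w.length ≤ w'.length}

section dec

variable [DecidableEq V] [DecidableRel Γ.Adj] [Fintype V]

set_option linter.unusedSectionVars false

theorem cgl_iff (w : List (Lam V)) : w ∈ CGL Γ φ ↔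
    (tr Γ φ w).2.2 = tau Γ φ (tr Γ φ w).1 ∧
      ∀ n, Red Γ ∅ (UU Γ (tr Γ φ w).1.1 (tr Γ φ w).2.1 n) := by
  obtain ⟨hx, hg⟩ := tr_ev Γ φ w
  have hlen := tr_len Γ φ w
  obtain ⟨z0, hz0, hz0'⟩ := tr_z Γ φ w
  set g := (tr Γ φ w).1 with hgd
  set u := (tr Γ φ w).2.1
  set n := (tr Γ φ w).2.2
  have hval : evw Γ φ w = SemidirectProduct.inl (lval Γ u) * SemidirectProduct.inr g := by
    rw [← hx, ← hg]
    exact (SemidirectProduct.inl_left_mul_inr_right _).symm
  have hτn : tau Γ φ g ≤ n := by
    rw [← hz0]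
    exact tau_le Γ φ z0 g hz0'
  constructor
  · intro hw
    obtain ⟨z, hz, hz'⟩ := tau_mem Γ φ g
    constructor
    · have h1 := hw (stw u z) (by rw [stw_ev, hz', ← hval])
      simp only [stw, List.length_append, List.length_map] at h1
      omega
    · intro N
      by_contra hc
      obtain ⟨h, u', h1, h2⟩ := key2 Γ g.1 u N hc
      have h3 := hw (stw u' z) (by
        rw [stw_ev, hz', h1, hval, isConj_iff]
        refine ⟨SemidirectProduct.inl h, ?_⟩
        have h4 : (SemidirectProduct.inr g : AA Γ φ) * (SemidirectProduct.inl h)⁻¹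
            = SemidirectProduct.inl ((raut Γ g.1 h)⁻¹) * SemidirectProduct.inr g := by
          have h5 := SemidirectProduct.inl_aut (φ := actC Γ φ) g h⁻¹
          rw [map_inv] at h5
          rw [← map_inv SemidirectProduct.inl h]
          have h6 : (SemidirectProduct.inl ((raut Γ g.1 h)⁻¹) : AA Γ φ)
              = SemidirectProduct.inr g * SemidirectProduct.inl h⁻¹ * SemidirectProduct.inr g⁻¹ := h5
          rw [h6, map_inv SemidirectProduct.inr g]
          group
        rw [map_mul, map_mul]
        simp only [mul_assoc]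
        rw [h4])
      simp only [stw, List.length_append, List.length_map] at h3
      omega
  · rintro ⟨hn, hR⟩ w' hconj
    obtain ⟨c, hc⟩ := isConj_iff.1 hconj
    obtain ⟨hx', hg'⟩ := tr_ev Γ φ w'
    have hlen' := tr_len Γ φ w'
    obtain ⟨z, hz, hz'⟩ := tr_z Γ φ w'
    set g' := (tr Γ φ w').1
    set u' := (tr Γ φ w').2.1
    set n' := (tr Γ φ w').2.2
    have hgg : g' = g := by
      have h1 := congrArg (fun x : AA Γ φ => x.right) hc
      simp only [SemidirectProduct.mul_right, SemidirectProduct.inv_right] at h1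
      rw [hg, hg'] at h1
      rw [← h1, cc_comm Γ φ c.right g]
      group
    have hxx : lval Γ u' = c.left * raut Γ c.right.1 (lval Γ u) * (raut Γ g.1 c.left)⁻¹ := by
      have h1 := congrArg (fun x : AA Γ φ => x.left) hc
      simp only [SemidirectProduct.mul_left, SemidirectProduct.mul_right,
        SemidirectProduct.inv_left] at h1
      rw [hx, hg, hx'] at h1
      rw [← h1]
      congr 1
      have h5 : ∀ y, actC Γ φ (c.right * g) (actC Γ φ c.right⁻¹ y) = actC Γ φ g y := by
        intro y
        rw [← MulAut.mul_apply, ← map_mul, cc_comm Γ φ c.right g, mul_assoc,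
          mul_inv_cancel, mul_one]
      rw [h5, map_inv]
      rfl
    set d := c.right.1 with hd
    have h2 : lval Γ (lw Γ d⁻¹ u') = (raut Γ d⁻¹ c.left) * lval Γ u
        * (raut Γ g.1 (raut Γ d⁻¹ c.left))⁻¹ := by
      rw [← raut_lval, hxx]
      have h3 : raut Γ d⁻¹ (raut Γ d (lval Γ u)) = lval Γ u := by
        rw [← MulAut.mul_apply, ← map_mul, inv_mul_cancel, map_one]
        rfl
      have h4 : raut Γ d⁻¹ (raut Γ g.1 c.left) = raut Γ g.1 (raut Γ d⁻¹ c.left) := by
        rw [← MulAut.mul_apply, ← MulAut.mul_apply, ← map_mul, ← map_mul]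
        have h5 := congrArg Subtype.val (cc_comm Γ φ c.right⁻¹ g)
        have h6 : d⁻¹ * g.1 = g.1 * d⁻¹ := h5
        rw [h6]
      have h7 : raut Γ d⁻¹ ((raut Γ g.1 c.left)⁻¹) = (raut Γ g.1 (raut Γ d⁻¹ c.left))⁻¹ := by
        rw [← h4]
        exact MulEquiv.map_inv _ _
      have h8 : raut Γ d⁻¹ (c.left * raut Γ d (lval Γ u) * (raut Γ g.1 c.left)⁻¹)
          = raut Γ d⁻¹ c.left * raut Γ d⁻¹ (raut Γ d (lval Γ u))
            * raut Γ d⁻¹ ((raut Γ g.1 c.left)⁻¹) := by
        rw [MulEquiv.map_mul, MulEquiv.map_mul]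
      exact h8.trans (by rw [h3, h7])
    have h3 := key1 Γ g.1 u hR _ _ h2
    rw [lw_length] at h3
    have h4 : tau Γ φ g ≤ n' := by
      rw [← hz]
      exact tau_le Γ φ z g (hz'.trans hgg)
    omega

/-! ### the automaton -/

/-- states of the automaton recognising reduced words -/
abbrev QQ (V : Type) : Type := Option (Finset (L V))

/-- its transitions -/
def del : QQ V → L V → QQ V
  | none, _ => none
  | some O, b => if ninv b ∈ O then none else some (upd Γ O b)

/-- reading a word -/
def rd (q : QQ V) (w : List (L V)) : QQ V := w.foldl (del Γ) q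

theorem rd_none (w : List (L V)) : rd Γ none w = none := by
  induction w with
  | nil => rfl
  | cons b w ih => exact ih

theorem rd_append (q : QQ V) (u w : List (L V)) : rd Γ q (u ++ w) = rd Γ (rd Γ q u) w := by
  simp [rd]

theorem red_iff (w : List (L V)) : ∀ O, Red Γ O w ↔ rd Γ (some O) w ≠ none := by
  induction w with
  | nil => intro O; simp [Red, rd]
  | cons b w ih =>
    intro O
    simp only [Red, rd, List.foldl_cons, del]
    by_cases h : ninv b ∈ O
    · simp only [h, if_true, not_true, false_and, false_iff, not_not]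
      exact rd_none Γ w
    · simp only [h, if_false, not_false_iff, true_and]
      exact ih (upd Γ O b)

/-- states of the big automaton -/
abbrev SS (K : ℕ) : Type := CC Γ φ × (CC Γ φ → QQ V → QQ V) × Fin (K + 2)

/-- iteration of the transition functions -/
def itr (g : CC Γ φ) (θ : CC Γ φ → QQ V → QQ V) : ℕ → QQ V
  | 0 => some ∅
  | n + 1 => θ (g ^ n) (itr g θ n)

/-- the big automaton -/
noncomputable def MM (K : ℕ) : DFA (Lam V) (SS Γ φ K) where
  step s x := match x with
    | Sum.inl a => (s.1, fun c q => del Γ (s.2.1 c q) (la Γ (c.1 * s.1.1) a), s.2.2)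
    | Sum.inr b => (s.1 * tb Γ φ b, s.2.1, ⟨min (s.2.2.1 + 1) (K + 1), by omega⟩)
  start := (1, fun _ q => q, 0)
  accept := {s | s.2.2.1 = tau Γ φ s.1 ∧ ∀ n, itr Γ φ s.1 s.2.1 n ≠ none}

/-- the state attached to a translated word -/
def outS (K : ℕ) (x : CC Γ φ × List (L V) × ℕ) : SS Γ φ K :=
  (x.1, (fun c q => rd Γ q (lw Γ c.1 x.2.1)), ⟨min x.2.2 (K + 1), by omega⟩)

theorem MM_eval (K : ℕ) (w : List (Lam V)) : (MM Γ φ K).eval w = outS Γ φ K (tr Γ φ w) := by
  induction w using List.reverseRecOn with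
  | nil =>
    simp only [DFA.eval_nil, tr, List.foldl_nil]
    rfl
  | append_singleton w x ih =>
    rw [DFA.eval_append_singleton, ih, tr_snoc]
    rcases x with a | b
    · refine Prod.ext rfl (Prod.ext ?_ rfl)
      funext c q
      show del Γ (rd Γ q (lw Γ c.1 (tr Γ φ w).2.1)) (la Γ (c.1 * (tr Γ φ w).1.1) a)
        = rd Γ q (lw Γ c.1 ((tr Γ φ w).2.1 ++ [la Γ (tr Γ φ w).1.1 a]))
      rw [lw_append, rd_append]
      rfl
    · refine Prod.ext rfl (Prod.ext rfl ?_)
      apply Fin.ext
      show min (min (tr Γ φ w).2.2 (K + 1) + 1) (K + 1) = min ((tr Γ φ w).2.2 + 1) (K + 1)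
      omega

theorem itr_eq (g : CC Γ φ) (u : List (L V)) (n : ℕ) :
    itr Γ φ g (fun c q => rd Γ q (lw Γ c.1 u)) n = rd Γ (some ∅) (UU Γ g.1 u n) := by
  induction n with
  | zero => rfl
  | succ n ih =>
    simp only [itr, UU]
    rw [ih, rd_append]
    rfl

/-- the language of conjugacy geodesics (label version) is accepted by a finite automaton -/
theorem accepts_eq (K : ℕ) (hK : ∀ g, tau Γ φ g ≤ K) (w : List (Lam V)) :
    w ∈ (MM Γ φ K).accepts ↔ w ∈ CGL Γ φ := by
  rw [DFA.mem_accepts, MM_eval, cgl_iff]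
  show (min (tr Γ φ w).2.2 (K + 1) = tau Γ φ (tr Γ φ w).1 ∧ _) ↔ _
  have h1 := hK (tr Γ φ w).1
  refine and_congr ?_ (forall_congr' fun n => ?_)
  · constructor
    · intro h; omega
    · intro h; omega
  · show itr Γ φ _ (fun c q => rd Γ q (lw Γ c.1 (tr Γ φ w).2.1)) n ≠ none ↔ _
    rw [itr_eq, red_iff]
    exact Iff.rfl

end dec

end Pool.Agent.R508.CG
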