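import Mathlib
import Pool.Agent.Y884.GR.MTall

set_option autoImplicit false

/-!
# Clusters of primes in a Maynard-Tao tuple with prescribed empty neighbourhoods

`k` offsets `D i` are given.  We choose a modulus `Q` and a shift `b` such that all the integers
`j (Q n + b) + e` with `1 ≤ j ≤ C`, `e` bounded and `e ≠ j * D i` have a fixed prime divisor.
-/

namespace Pool.Agent.R508

open Finset

/-- one induction step: a new prime `q` which divides `Q'` and `j * b' + e` -/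
theorem step {k : ℕ} (D : Fin k → ℕ) (Q b : ℕ) (hQ : 0 < Q) (hcop : ∀ i, Nat.Coprime (b + D i) Q)
    (j : ℕ) (hj : 1 ≤ j) (e : ℤ) (he : ∀ i, e ≠ (j : ℤ) * D i) :
    ∃ Q' b' : ℕ, 0 < Q' ∧ Q ∣ Q' ∧ b' ≡ b [MOD Q] ∧ (∀ i, Nat.Coprime (b' + D i) Q') ∧
      ∃ q : ℕ, q.Prime ∧ q ∣ Q' ∧ (q : ℤ) ∣ (j : ℤ) * b' + e := by
  -- a bound exceeding everything
  obtain ⟨q, hq1, hq2⟩ := Nat.exists_infinite_primes
    (Q + j + 1 + ∑ i, ((j : ℤ) * D i - e).natAbs + 1)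
  have hqQ : ¬ q ∣ Q := fun h => by
    have := Nat.le_of_dvd hQ h
    omega
  have hqj : ¬ q ∣ j := fun h => by
    have := Nat.le_of_dvd hj h
    omega
  have hcopQ : Nat.Coprime Q q := ((Nat.Prime.coprime_iff_not_dvd hq2).2 hqQ).symm
  -- the residue `- e / j` modulo `q`
  haveI : Fact q.Prime := ⟨hq2⟩
  have hjz : (j : ZMod q) ≠ 0 := by
    rw [Ne, ZMod.natCast_eq_zero_iff]
    exact hqj
  set c : ZMod q := -(e : ZMod q) / (j : ZMod q) with hc
  obtain ⟨b', hb1, hb2⟩ := Nat.chineseRemainder hcopQ b c.val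
  have hbq : (b' : ZMod q) = c := by
    have h1 : ((b' : ℕ) : ZMod q) = ((c.val : ℕ) : ZMod q) :=
      (ZMod.natCast_eq_natCast_iff _ _ _).2 hb2
    rw [h1, ZMod.natCast_zmod_val]
  refine ⟨Q * q, b', Nat.mul_pos hQ hq2.pos, dvd_mul_right _ _, hb1, ?_, q, hq2, dvd_mul_left _ _, ?_⟩
  · intro i
    apply Nat.Coprime.mul_right
    · have h2 : b' + D i ≡ b + D i [MOD Q] := Nat.ModEq.add_right _ hb1
      have h3 := Nat.ModEq.gcd_eq h2
      have h4 := hcop i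
      unfold Nat.Coprime at h4 ⊢
      rw [h3, h4]
    · apply Nat.Coprime.symm
      rw [Nat.Prime.coprime_iff_not_dvd hq2]
      intro h
      have h1 : ((b' + D i : ℕ) : ZMod q) = 0 := (ZMod.natCast_eq_zero_iff _ _).2 h
      push_cast at h1
      rw [hbq, hc] at h1
      have h2 : ((((j : ℤ) * D i - e : ℤ)) : ZMod q) = 0 := by
        push_cast
        have h3 : -(e : ZMod q) / (j : ZMod q) * j = -(e : ZMod q) := by
          field_simp
        have h4 := congrArg (fun x => x * (j : ZMod q)) h1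
        simp only [add_mul, zero_mul, h3] at h4
        linear_combination h4
      rw [ZMod.intCast_zmod_eq_zero_iff_dvd] at h2
      have h5 : (j : ℤ) * D i - e ≠ 0 := sub_ne_zero.2 (he i).symm
      have h6 := Int.natAbs_dvd_natAbs.2 h2
      rw [Int.natAbs_natCast] at h6
      have h7 := Nat.le_of_dvd (Int.natAbs_pos.2 h5) h6
      have h8 : ((j : ℤ) * D i - e).natAbs ≤ ∑ i, ((j : ℤ) * D i - e).natAbs :=
        Finset.single_le_sum (f := fun i => ((j : ℤ) * D i - e).natAbs) (fun _ _ => Nat.zero_le _)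
          (Finset.mem_univ i)
      omega
  · have h1 : (((j : ℤ) * b' + e : ℤ) : ZMod q) = 0 := by
      push_cast
      rw [hbq, hc]
      field_simp
      ring
    exact (ZMod.intCast_zmod_eq_zero_iff_dvd _ _).1 h1

/-- all the constraints in a finite set of pairs `(j, e)` -/
theorem many {k : ℕ} (D : Fin k → ℕ) (Q b : ℕ) (hQ : 0 < Q)
    (hcop : ∀ i, Nat.Coprime (b + D i) Q) (P : Finset (ℕ × ℤ))
    (hP : ∀ x ∈ P, 1 ≤ x.1 ∧ ∀ i, x.2 ≠ (x.1 : ℤ) * D i) :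
    ∃ Q' b' : ℕ, 0 < Q' ∧ Q ∣ Q' ∧ b' ≡ b [MOD Q] ∧ (∀ i, Nat.Coprime (b' + D i) Q') ∧
      ∀ x ∈ P, ∃ q : ℕ, q.Prime ∧ q ∣ Q' ∧ (q : ℤ) ∣ (x.1 : ℤ) * b' + x.2 := by
  classical
  induction P using Finset.induction_on with
  | empty => exact ⟨Q, b, hQ, dvd_rfl, Nat.ModEq.rfl, hcop, by simp⟩
  | insert x P hx ih =>
    obtain ⟨Q1, b1, h1, h2, h3, h4, h5⟩ := ih fun y hy => hP y (Finset.mem_insert_of_mem hy)
    obtain ⟨hx1, hx2⟩ := hP x (Finset.mem_insert_self _ _)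
    obtain ⟨Q2, b2, g1, g2, g3, g4, q, hq1, hq2, hq3⟩ := step D Q1 b1 h1 h4 x.1 hx1 x.2 hx2
    refine ⟨Q2, b2, g1, h2.trans g2, (g3.of_dvd h2).trans h3, g4, ?_⟩
    intro y hy
    rcases Finset.mem_insert.1 hy with rfl | hy
    · exact ⟨q, hq1, hq2, hq3⟩
    · obtain ⟨q', e1, e2, e3⟩ := h5 y hy
      refine ⟨q', e1, e2.trans g2, ?_⟩
      have h6 : (q' : ℤ) ∣ (b2 : ℤ) - b1 := by
        have h7 : b1 ≡ b2 [MOD q'] := (g3.of_dvd e2).symm
        exact (Nat.modEq_iff_dvd).1 h7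
      have h8 : (y.1 : ℤ) * b2 + y.2 = ((y.1 : ℤ) * b1 + y.2) + y.1 * ((b2 : ℤ) - b1) := by ring
      rw [h8]
      exact dvd_add e3 (Dvd.dvd.mul_left h6 _)

end Pool.Agent.R508
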