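import Mathlib

/-!
# Double coverings by residue classes: soundness of a sieve computation

Entries are pairs `(p, s)` with `p` prime. Such an entry covers the positions `i ≡ s (mod p)` once,
and, when `2 * p < n`, the positions `i ≡ s (mod p ^ 2)` twice.
-/

namespace Pool.Agent.R508.Cov

/-- Evaluate the number before passing it on. -/
def force {α : Type} (x : ℕ) (f : ℕ → α) : α :=
  match x with
  | 0 => f 0
  | k + 1 => f (k + 1)

theorem force_eq {α : Type} (x : ℕ) (f : ℕ → α) : force x f = f x := by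
  cases x <;> rfl

/-- Bit mask of the multiples `0, p, …, (2 ^ j - 1) p`. -/
def msk (p : ℕ) : ℕ → ℕ
  | 0 => 1
  | j + 1 => force (msk p j) fun m => m ||| (m <<< (p * 2 ^ j))

theorem msk_sound (p : ℕ) : ∀ (j i : ℕ), (msk p j).testBit i = true → p ∣ i := by
  intro j
  induction j with
  | zero =>
    intro i h
    have : i = 0 := by
      by_contra hi
      have : (1 : ℕ).testBit i = false := by
        have h1 : (1 : ℕ) < 2 ^ i := Nat.one_lt_two_pow hi
        exact Nat.testBit_lt_two_pow h1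
      simp [msk, this] at h
    simp [this]
  | succ j ih =>
    intro i h
    simp only [msk, force_eq, Nat.testBit_or, Bool.or_eq_true, Nat.testBit_shiftLeft,
      Bool.and_eq_true, decide_eq_true_eq] at h
    rcases h with h | ⟨h1, h2⟩
    · exact ih i h
    · have h3 := ih _ h2
      have h4 : p ∣ p * 2 ^ j := Dvd.intro _ rfl
      have h5 := dvd_add h3 h4
      rwa [Nat.sub_add_cancel h1] at h5

/-- Bit mask of positions `≡ r (mod p)`, with `r < p` and up to `p * 2 ^ j` bits. -/
def cls (p r j : ℕ) : ℕ := (msk p j) <<< r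

theorem cls_sound (p r j i : ℕ) (h : (cls p r j).testBit i = true) : i ≡ r [MOD p] := by
  simp only [cls, Nat.testBit_shiftLeft, Bool.and_eq_true, decide_eq_true_eq] at h
  obtain ⟨h1, h2⟩ := h
  have h3 := msk_sound p j _ h2
  exact ((Nat.modEq_iff_dvd' h1).2 h3).symm

/-- Number of doubling steps needed to fill `n` bits. -/
def lv (n q : ℕ) : ℕ := if n ≤ q then 0 else Nat.log2 (n / q) + 1

/-- The sieve: `o` collects the positions covered at least once, `t` those covered twice. -/
def run (n : ℕ) : List (ℕ × ℕ) → ℕ → ℕ → ℕ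
  | [], _, t => t
  | e :: l, o, t =>
    force (cls e.1 (e.2 % e.1) (lv n e.1)) fun m =>
    force (if 2 * e.1 < n then cls (e.1 ^ 2) e.2 (lv n (e.1 ^ 2)) else 0) fun f =>
    force (t ||| (o &&& m) ||| f) fun t' =>
    force (o ||| m) fun o' => run n l o' t'

/-- Position `i` is covered twice, or by a square. -/
def Good (n : ℕ) (T : List (ℕ × ℕ)) (i : ℕ) : Prop :=
  (∃ e ∈ T, ∃ e' ∈ T, e.1 ≠ e'.1 ∧ i ≡ e.2 [MOD e.1] ∧ i ≡ e'.2 [MOD e'.1]) ∨
  (∃ e ∈ T, 2 * e.1 < n ∧ i ≡ e.2 [MOD e.1 ^ 2])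

theorem run_sound (n : ℕ) (T : List (ℕ × ℕ)) : ∀ (rest : List (ℕ × ℕ)) (o t : ℕ),
    (∀ e ∈ rest, e ∈ T) → rest.Pairwise (fun a b => a.1 < b.1) →
    (∀ i, o.testBit i = true → ∃ e ∈ T, (∀ e' ∈ rest, e.1 < e'.1) ∧ i ≡ e.2 [MOD e.1]) →
    (∀ i, t.testBit i = true → Good n T i) →
    ∀ i, (run n rest o t).testBit i = true → Good n T i := by
  intro rest
  induction rest with
  | nil => intro o t _ _ _ ht i hi; exact ht i hi
  | cons e l ih =>
    intro o t hsub hpw ho ht i hi
    simp only [run, force_eq] at hi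
    rw [List.pairwise_cons] at hpw
    have heT : e ∈ T := hsub e (by simp)
    have hm : ∀ i, (cls e.1 (e.2 % e.1) (lv n e.1)).testBit i = true →
        i ≡ e.2 [MOD e.1] := by
      intro i h
      exact (cls_sound _ _ _ _ h).trans (Nat.mod_modEq _ _)
    refine ih _ _ (fun e' he' => hsub e' (by simp [he'])) hpw.2 ?_ ?_ i hi
    · intro i hi
      rw [Nat.testBit_or, Bool.or_eq_true] at hi
      rcases hi with hi | hi
      · obtain ⟨a, haT, ha, hai⟩ := ho i hi
        exact ⟨a, haT, fun e' he' => ha e' (by simp [he']), hai⟩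
      · exact ⟨e, heT, hpw.1, hm i hi⟩
    · intro i hi
      rw [Nat.testBit_or, Nat.testBit_or, Nat.testBit_and, Bool.or_eq_true, Bool.or_eq_true,
        Bool.and_eq_true] at hi
      rcases hi with (hi | ⟨hi1, hi2⟩) | hi
      · exact ht i hi
      · obtain ⟨a, haT, ha, hai⟩ := ho i hi1
        exact Or.inl ⟨a, haT, e, heT, (ha e (by simp)).ne, hai, hm i hi2⟩
      · split_ifs at hi with h2
        · exact Or.inr ⟨e, heT, h2, cls_sound _ _ _ _ hi⟩
        · simp at hi

/-- Strictly increasing first components, all above `a`. -/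
def srt : ℕ → List (ℕ × ℕ) → Bool
  | _, [] => true
  | a, e :: l => decide (a < e.1) && srt e.1 l

theorem srt_sound : ∀ (l : List (ℕ × ℕ)) (a : ℕ), srt a l = true →
    (∀ e ∈ l, a < e.1) ∧ l.Pairwise (fun a b => a.1 < b.1) := by
  intro l
  induction l with
  | nil => intro a _; simp
  | cons e l ih =>
    intro a h
    simp only [srt, Bool.and_eq_true, decide_eq_true_eq] at h
    obtain ⟨h1, h2⟩ := ih e.1 h.2
    refine ⟨?_, ?_⟩
    · intro x hx
      rcases List.mem_cons.1 hx with rfl | hx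
      · exact h.1
      · exact h.1.trans (h1 x hx)
    · exact List.pairwise_cons.2 ⟨h1, h2⟩

theorem prime_of_gcd (p k : ℕ) (hp : 1 < p) (hk : p < (k + 1) ^ 2)
    (h : Nat.gcd p k.factorial = 1) : p.Prime := by
  by_contra hnp
  have h1 : p.minFac ^ 2 ≤ p := Nat.minFac_sq_le_self (by omega) hnp
  have h2 : p.minFac < k + 1 := by
    by_contra h3
    push Not at h3
    have : (k + 1) ^ 2 ≤ p.minFac ^ 2 := Nat.pow_le_pow_left h3 2
    omega
  have h3 : p.minFac ∣ k.factorial := Nat.dvd_factorial (Nat.minFac_pos p) (by omega)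
  have h4 : p.minFac ∣ 1 := h ▸ Nat.dvd_gcd (Nat.minFac_dvd p) h3
  have h5 : p.minFac = 1 := Nat.dvd_one.1 h4
  rw [Nat.minFac_eq_one_iff] at h5
  omega

/-- Primality test for numbers below `224 ^ 2`; `a` and `b` are `14!` and `223!`. -/
def pchk (a b p : ℕ) : Bool :=
  if p ≤ 14 then p == 2 || p == 3 || p == 5 || p == 7 || p == 11 || p == 13
  else if p ≤ 223 then Nat.gcd p a == 1
  else decide (p < 50176) && Nat.gcd p b == 1

theorem pchk_sound (p : ℕ) (h : pchk (Nat.factorial 14) (Nat.factorial 223) p = true) :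
    p.Prime := by
  unfold pchk at h
  split_ifs at h with h1 h2
  · simp only [Bool.or_eq_true, beq_iff_eq] at h
    rcases h with ((((h | h) | h) | h) | h) | h <;> subst h <;> norm_num
  · exact prime_of_gcd p 14 (by omega) (by norm_num; omega) (by simpa using h)
  · simp only [Bool.and_eq_true, decide_eq_true_eq, beq_iff_eq] at h
    exact prime_of_gcd p 223 (by omega) (by norm_num; omega) h.2

/-- The whole check of a table. -/
def chk (n : ℕ) (T : List (ℕ × ℕ)) : Bool :=
  srt 1 T &&
  (force (Nat.factorial 14) fun a => force (Nat.factorial 223) fun b =>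
    T.all fun e => pchk a b e.1 && decide (e.1 < n)) &&
  (force (run n T 0 0) fun t => t % 2 ^ n == 2 ^ n - 1)

/-- The modulus of an entry. -/
def md (n : ℕ) (e : ℕ × ℕ) : ℕ := if 2 * e.1 < n then e.1 ^ 2 else e.1

theorem md_dvd (n : ℕ) (e : ℕ × ℕ) : e.1 ∣ md n e := by
  unfold md; split_ifs
  · exact dvd_pow_self _ two_ne_zero
  · exact dvd_rfl

theorem dvd_shift {m x i s : ℕ} (h : m ∣ x + (s + 1)) (hi : i ≡ s [MOD m]) : m ∣ x + (i + 1) := by
  have h1 : x + (i + 1) ≡ x + (s + 1) [MOD m] := (Nat.ModEq.refl x).add (hi.add_right 1)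
  exact (h1.dvd_iff dvd_rfl).2 h

/-- A table passing the check gives a block of length `n` in which every member has two distinct
prime divisors below `n` or is divisible by the square of a prime below `n / 2`. -/
theorem exists_block (n : ℕ) (T : List (ℕ × ℕ)) (h : chk n T = true) :
    ∃ m : ℕ, ∀ i : ℕ, 1 ≤ i → i ≤ n →
      (∃ p q : ℕ, p.Prime ∧ q.Prime ∧ p ≠ q ∧ p < n ∧ q < n ∧ p * q ∣ m + i) ∨
      (∃ p : ℕ, p.Prime ∧ 2 * p < n ∧ p ^ 2 ∣ m + i) := by
  simp only [chk, force_eq, Bool.and_eq_true, beq_iff_eq, List.all_eq_true,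
    decide_eq_true_eq] at h
  obtain ⟨⟨hs, hT⟩, hr⟩ := h
  obtain ⟨-, hpw⟩ := srt_sound T 1 hs
  have hprime : ∀ e ∈ T, e.1.Prime := fun e he => pchk_sound _ (hT e he).1
  have hlt : ∀ e ∈ T, e.1 < n := fun e he => (hT e he).2
  have hco : T.Pairwise (Function.onFun Nat.Coprime (md n)) := by
    refine (hpw.imp_of_mem (S := Function.onFun Nat.Coprime (md n)) ?_)
    intro a b ha hb hab
    have hc : Nat.Coprime a.1 b.1 := (Nat.coprime_primes (hprime a ha) (hprime b hb)).2 hab.ne
    simp only [Function.onFun, md]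
    split_ifs
    · exact Nat.Coprime.pow 2 2 hc
    · exact Nat.Coprime.pow_left 2 hc
    · exact Nat.Coprime.pow_right 2 hc
    · exact hc
  obtain ⟨x, hx⟩ := Nat.chineseRemainderOfList (fun e => (md n e - 1) * (e.2 + 1)) (md n) T hco
  have hx' : ∀ e ∈ T, md n e ∣ x + (e.2 + 1) := by
    intro e he
    have h1 := hx e he
    have hpos : 1 ≤ md n e := by
      have := (hprime e he).pos
      unfold md; split_ifs
      · exact Nat.one_le_pow _ _ this
      · exact this
    have h2 : x + (e.2 + 1) ≡ (md n e - 1) * (e.2 + 1) + (e.2 + 1) [MOD md n e] :=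
      h1.add_right _
    have h3 : (md n e - 1) * (e.2 + 1) + (e.2 + 1) = md n e * (e.2 + 1) := by
      obtain ⟨d, hd⟩ := Nat.exists_eq_add_of_le hpos
      rw [hd]
      simp only [Nat.add_sub_cancel_left]
      ring
    rw [h3] at h2
    exact (h2.dvd_iff dvd_rfl).2 (Dvd.intro _ rfl)
  refine ⟨x, ?_⟩
  intro i hi1 hin
  obtain ⟨j, rfl⟩ : ∃ j, i = j + 1 := ⟨i - 1, by omega⟩
  have hbit : (run n T 0 0).testBit j = true := by
    have h1 : ((run n T 0 0) % 2 ^ n).testBit j = true := by
      rw [hr, Nat.testBit_two_pow_sub_one]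
      simp; omega
    rw [Nat.testBit_mod_two_pow] at h1
    simp only [Bool.and_eq_true] at h1
    exact h1.2
  have hg := run_sound n T T 0 0 (fun e he => he) hpw (by simp) (by simp) j hbit
  rcases hg with ⟨e, he, e', he', hne, h1, h2⟩ | ⟨e, he, h2, h3⟩
  · left
    refine ⟨e.1, e'.1, hprime e he, hprime e' he', hne, hlt e he, hlt e' he', ?_⟩
    refine Nat.Coprime.mul_dvd_of_dvd_of_dvd
      ((Nat.coprime_primes (hprime e he) (hprime e' he')).2 hne) ?_ ?_
    · exact dvd_shift ((md_dvd n e).trans (hx' e he)) h1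
    · exact dvd_shift ((md_dvd n e').trans (hx' e' he')) h2
  · right
    refine ⟨e.1, hprime e he, h2, ?_⟩
    have h4 := hx' e he
    have h5 : md n e = e.1 ^ 2 := by simp [md, h2]
    rw [h5] at h4
    exact dvd_shift h4 h3

/-- Decode a packed chunk. -/
def dec : ℕ → ℕ → List (ℕ × ℕ)
  | 0, _ => []
  | k + 1, x => ((x % 4294967296) / 65536, x % 65536) :: dec k (x / 4294967296)

end Pool.Agent.R508.Cov
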