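import Mathlib

set_option autoImplicit false

/-! Basic facts on minimal topological groups (helper508, MP_dac110_gt; proof by helper822). -/

open Filter Topology
open scoped Pointwise

namespace Pool.Agent.R508.DAC

universe u

/-- A Hausdorff topological group is minimal if there is no strictly coarser Hausdorff group
topology. -/
def IsMinimalGroup (G : Type u) [Group G] [t : TopologicalSpace G] : Prop :=
  ∀ s : TopologicalSpace G, @IsTopologicalGroup G s _ → @T2Space G s → t ≤ s → s = t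

/-- a group topology from its filter of neighbourhoods of the identity -/
theorem exists_group_topology {G : Type u} [Group G] (F : Filter G) (h1 : pure 1 ≤ F)
    (hmul : Tendsto (fun p : G × G => p.1 * p.2) (F ×ˢ F) F)
    (hinv : Tendsto (fun x : G => x⁻¹) F F)
    (hconj : ∀ g : G, Tendsto (fun x : G => g * x * g⁻¹) F F) :
    ∃ t : TopologicalSpace G, @IsTopologicalGroup G t _ ∧ @nhds G t 1 = F := by
  let B : GroupFilterBasis G :=
    { sets := F.sets
      nonempty := ⟨Set.univ, univ_mem⟩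
      inter_sets := fun {x y} hx hy => ⟨x ∩ y, inter_mem hx hy, subset_rfl⟩
      one' := fun {U} hU => by
        have := h1 hU
        simpa using this
      mul' := fun {U} hU => by
        have := hmul hU
        obtain ⟨V, hV, W, hW, hVW⟩ := mem_prod_iff.1 this
        refine ⟨V ∩ W, inter_mem hV hW, ?_⟩
        rintro _ ⟨a, ha, b, hb, rfl⟩
        exact hVW (Set.mk_mem_prod ha.1 hb.2)
      inv' := fun {U} hU => ⟨_, hinv hU, subset_rfl⟩
      conj' := fun g {U} hU => ⟨_, hconj g hU, subset_rfl⟩ }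
  refine ⟨B.topology, B.isTopologicalGroup, ?_⟩
  rw [B.nhds_one_eq]
  ext s
  rw [FilterBasis.mem_filter_iff]
  constructor
  · rintro ⟨t, ht, hts⟩
    exact mem_of_superset ht hts
  · intro hs
    exact ⟨s, hs, subset_rfl⟩

theorem tendsto_mul_one {G : Type u} [Group G] [TopologicalSpace G] [IsTopologicalGroup G] :
    Tendsto (fun p : G × G => p.1 * p.2) (𝓝 (1 : G) ×ˢ 𝓝 (1 : G)) (𝓝 (1 : G)) := by
  have h := (continuous_mul (M := G)).tendsto (1, 1)
  rw [nhds_prod_eq] at h
  simpa using h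

theorem tendsto_inv_one {G : Type u} [Group G] [TopologicalSpace G] [IsTopologicalGroup G] :
    Tendsto (fun p : G => p⁻¹) (𝓝 (1 : G)) (𝓝 (1 : G)) := by
  have h := (continuous_inv (G := G)).tendsto 1
  simpa using h

theorem tendsto_conj_one {G : Type u} [Group G] [TopologicalSpace G] [IsTopologicalGroup G]
    (g : G) : Tendsto (fun x : G => g * x * g⁻¹) (𝓝 (1 : G)) (𝓝 (1 : G)) := by
  have h : Continuous (fun x : G => g * x * g⁻¹) := by fun_prop
  simpa using h.tendsto 1

theorem isClosed_center {G : Type u} [Group G] [TopologicalSpace G] [IsTopologicalGroup G]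
    [T2Space G] : IsClosed (Subgroup.center G : Set G) := by
  have : (Subgroup.center G : Set G) = ⋂ g : G, {x | g * x = x * g} := by
    ext x
    simp [Subgroup.mem_center_iff]
  rw [this]
  exact isClosed_iInter fun g => isClosed_eq (by fun_prop) (by fun_prop)

theorem mem_nhds_of {X : Type u} (t : TopologicalSpace X) {U : Set X} {x : X}
    (hU : IsOpen[t] U) (hx : x ∈ U) : U ∈ @nhds X t x := hU.mem_nhds hx

/-- comparison of group topologies -/
theorem le_of_nhds_one_le {G : Type u} [Group G] {t s : TopologicalSpace G}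
    (ht : @IsTopologicalGroup G t _) (hs : @IsTopologicalGroup G s _)
    (h : @nhds G t 1 ≤ @nhds G s 1) : t ≤ s := by
  apply le_of_nhds_le_nhds
  intro x
  have h1 := @map_mul_left_nhds_one G t _ _ x
  have h2 := @map_mul_left_nhds_one G s _ _ x
  rw [← h1, ← h2]
  exact Filter.map_mono h

theorem nhds_one_le_of_le {G : Type u} [Group G] {t s : TopologicalSpace G}
    (h : t ≤ s) : @nhds G t 1 ≤ @nhds G s 1 := nhds_mono h

/-- Cauchy ultrafilters on locally compact groups converge -/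
theorem conv_of_cauchy {G : Type u} [Group G] [TopologicalSpace G] [IsTopologicalGroup G]
    [LocallyCompactSpace G] (F : Ultrafilter G)
    (hF : Tendsto (fun p : G × G => p.1⁻¹ * p.2) ((F : Filter G) ×ˢ (F : Filter G)) (𝓝 1)) :
    ∃ g, (F : Filter G) ≤ 𝓝 g := by
  obtain ⟨C, hC, hC1⟩ := exists_compact_mem_nhds (1 : G)
  have h1 : ∀ᶠ p in ((F : Filter G) ×ˢ (F : Filter G)), p.1⁻¹ * p.2 ∈ C := hF hC1
  have h2 := h1.curry
  obtain ⟨a, ha⟩ := h2.exists
  have hK : IsCompact ((fun x => a * x) '' C) := hC.image (continuous_const.mul continuous_id)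
  have hKF : ((fun x => a * x) '' C) ∈ F := by
    refine mem_of_superset ha ?_
    intro b hb
    exact ⟨a⁻¹ * b, hb, by simp⟩
  obtain ⟨g, -, hg⟩ := isCompact_iff_ultrafilter_le_nhds'.1 hK F hKF
  exact ⟨g, hg⟩

/-- the statement that continuous characters separate the points -/
def CharSep : Prop := ∀ (A : Type u) [CommGroup A] [TopologicalSpace A] [IsTopologicalGroup A]
    [LocallyCompactSpace A] [T2Space A] (a : A), a ≠ 1 →
    ∃ χ : A →* Circle, Continuous χ ∧ χ a ≠ 1

/-- A locally compact abelian group whose every coarser Hausdorff group topology is equal to the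
given one is compact -/
theorem compact_of_minimal (hsep : CharSep.{u}) {A : Type u} [CommGroup A] [tA : TopologicalSpace A]
    [hgA : IsTopologicalGroup A] [hlA : LocallyCompactSpace A] [T2Space A]
    (hmin : IsMinimalGroup A) : CompactSpace A := by
  classical
  let X := {χ : A →* Circle // Continuous χ}
  have hsep' : ∀ a : A, a ≠ 1 → ∃ χ : A →* Circle, Continuous χ ∧ χ a ≠ 1 := hsep A
  let s : TopologicalSpace A := ⨅ χ : X, TopologicalSpace.induced χ.1 inferInstance
  have hs : @IsTopologicalGroup A s _ := topologicalGroup_iInf fun χ => topologicalGroup_induced χ.1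
  have hs2 : @T2Space A s := by
    refine @T2Space.mk A s ?_
    intro x y hxy
    obtain ⟨χ, hχ, hχ1⟩ := hsep' (x * y⁻¹) (by rwa [Ne, mul_inv_eq_one])
    have hne : χ x ≠ χ y := by
      intro h
      apply hχ1
      rw [map_mul, map_inv, h, mul_inv_cancel]
    obtain ⟨U, V, hU, hV, hxU, hyV, hd⟩ := t2_separation hne
    have hle : s ≤ TopologicalSpace.induced χ inferInstance := iInf_le
      (fun χ : X => TopologicalSpace.induced χ.1 inferInstance) ⟨χ, hχ⟩
    exact ⟨χ ⁻¹' U, χ ⁻¹' V, hle _ ⟨U, hU, rfl⟩, hle _ ⟨V, hV, rfl⟩, hxU, hyV,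
      hd.preimage _⟩
  have hts : tA ≤ s := le_iInf fun χ => continuous_iff_le_induced.1 χ.2
  have hst := hmin s hs hs2 hts
  have hn : @nhds A tA 1 = ⨅ χ : X, comap χ.1 (𝓝 (1 : Circle)) := by
    refine (congrArg (fun t => @nhds A t 1) hst.symm).trans (nhds_iInf.trans ?_)
    refine iInf_congr fun χ => ?_
    rw [nhds_induced, map_one]
  refine @CompactSpace.mk A tA ((@isCompact_iff_ultrafilter_le_nhds A tA _).2 ?_)
  intro F _
  obtain ⟨g, hg⟩ := @conv_of_cauchy A _ tA hgA hlA F (by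
    rw [hn, tendsto_iInf]
    intro χ
    rw [tendsto_comap_iff]
    obtain ⟨l, -, hl⟩ := isCompact_iff_ultrafilter_le_nhds.1
      (isCompact_univ : IsCompact (Set.univ : Set Circle)) (F.map χ.1) (by simp)
    have hl' : Tendsto χ.1 F (𝓝 l) := hl
    have h3 : Tendsto (fun p : A × A => (χ.1 p.1)⁻¹ * χ.1 p.2)
        ((F : Filter A) ×ˢ (F : Filter A)) (𝓝 (l⁻¹ * l)) :=
      (hl'.comp tendsto_fst).inv.mul (hl'.comp tendsto_snd)
    rw [inv_mul_cancel] at h3
    refine h3.congr ?_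
    intro p
    simp)
  exact ⟨g, trivial, hg⟩

/-- the centre of a minimal group is minimal -/
theorem center_minimal {G : Type u} [Group G] [tG : TopologicalSpace G] [IsTopologicalGroup G]
    [T2Space G] (hmin : IsMinimalGroup G) : IsMinimalGroup (Subgroup.center G) := by
  unfold IsMinimalGroup
  set Z := Subgroup.center G with hZ
  have hZt : @IsTopologicalGroup Z instTopologicalSpaceSubtype _ := inferInstance
  intro s hs hs2 hle
  let F : Filter G := map (fun p : G × Z => p.1 * (p.2 : G)) (𝓝 (1 : G) ×ˢ @nhds Z s 1)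
  have hcm : ∀ (z : Z) (g : G), g * (z : G) = (z : G) * g := fun z g =>
    Subgroup.mem_center_iff.1 z.2 g
  have hmem : ∀ U : Set G, U ∈ F ↔ ∃ V ∈ 𝓝 (1 : G), ∃ W ∈ @nhds Z s 1,
      ∀ v ∈ V, ∀ w ∈ W, v * (w : G) ∈ U := by
    intro U
    show _ ∈ (𝓝 (1 : G) ×ˢ @nhds Z s 1) ↔ _
    rw [mem_prod_iff]
    constructor
    · rintro ⟨V, hV, W, hW, h⟩
      exact ⟨V, hV, W, hW, fun v hv w hw => h (Set.mk_mem_prod hv hw)⟩
    · rintro ⟨V, hV, W, hW, h⟩
      refine ⟨V, hV, W, hW, ?_⟩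
      rintro ⟨v, w⟩ ⟨hv, hw⟩
      exact h v hv w hw
  have htF : 𝓝 (1 : G) ≤ F := by
    intro U hU
    obtain ⟨V, hV, W, hW, h⟩ := (hmem U).1 hU
    refine mem_of_superset hV ?_
    intro v hv
    have := h v hv 1 (@mem_of_mem_nhds Z s 1 W hW)
    simpa using this
  have hsmul : Tendsto (fun p : Z × Z => p.1 * p.2) (@nhds Z s 1 ×ˢ @nhds Z s 1) (@nhds Z s 1) :=
    @tendsto_mul_one Z _ s hs
  have hsinv : Tendsto (fun p : Z => p⁻¹) (@nhds Z s 1) (@nhds Z s 1) := @tendsto_inv_one Z _ s hs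
  have htmul : Tendsto (fun p : G × G => p.1 * p.2) (𝓝 (1 : G) ×ˢ 𝓝 (1 : G)) (𝓝 (1 : G)) :=
    tendsto_mul_one
  have hsep : ∀ g : G, g ≠ 1 → ∃ U ∈ F, g ∉ U := by
    intro g hg
    by_contra hcon
    push Not at hcon
    have hcon' : ∀ V ∈ 𝓝 (1 : G), ∀ W ∈ @nhds Z s 1, ∃ v ∈ V, ∃ w ∈ W, v * (w : G) = g := by
      intro V hV W hW
      exact hcon {x | ∃ v ∈ V, ∃ w ∈ W, v * (w : G) = x} ((hmem _).2 ⟨V, hV, W, hW,
        fun v hv w hw => ⟨v, hv, w, hw, rfl⟩⟩)
    have h2 : Tendsto (fun v : G => v⁻¹ * g) (𝓝 1) (𝓝 g) := by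
      have : Continuous (fun v : G => v⁻¹ * g) := by fun_prop
      simpa using this.tendsto 1
    have hgc : g ∈ Z := by
      have hcl : IsClosed (Z : Set G) := isClosed_center
      by_contra hgZ
      have h1 : (Z : Set G)ᶜ ∈ 𝓝 g := hcl.isOpen_compl.mem_nhds hgZ
      obtain ⟨v, hv, w, -, hvw⟩ := hcon' _ (h2 h1) Set.univ univ_mem
      apply hv
      have : v⁻¹ * g = w := by rw [← hvw]; group
      show v⁻¹ * g ∈ Z
      rw [this]
      exact w.2
    have hne : (⟨g, hgc⟩ : Z) ≠ 1 := fun h => hg (congrArg Subtype.val h)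
    obtain ⟨U, U', hU, hU', h1U, hgU, hd⟩ := @t2_separation Z s hs2 _ _ hne.symm
    have hU'n : U' ∈ @nhds Z instTopologicalSpaceSubtype (⟨g, hgc⟩ : Z) :=
      mem_nhds_of _ (hle _ hU') hgU
    rw [nhds_subtype_eq_comap] at hU'n
    obtain ⟨T, hT, hTU⟩ := hU'n
    obtain ⟨v, hv, w, hw, hvw⟩ := hcon' _ (h2 hT) U (mem_nhds_of s hU h1U)
    have : v⁻¹ * g = w := by rw [← hvw]; group
    refine Set.disjoint_left.1 hd hw (hTU ?_)
    show (w : G) ∈ T
    rw [← this]
    exact hv
  obtain ⟨σ, hσ, hσ1⟩ := exists_group_topology F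
    (le_trans (pure_le_nhds 1) htF)
    (by
      intro U hU
      obtain ⟨V, hV, W, hW, h⟩ := (hmem U).1 hU
      obtain ⟨V1, hV1, V2, hV2, hV12⟩ := mem_prod_iff.1 (htmul hV)
      obtain ⟨W1, hW1, W2, hW2, hW12⟩ := mem_prod_iff.1 (hsmul hW)
      rw [mem_map, mem_prod_iff]
      refine ⟨{x | ∃ v ∈ V1, ∃ w ∈ W1, v * (w : G) = x}, (hmem _).2 ⟨V1, hV1, W1, hW1,
        fun v hv w hw => ⟨v, hv, w, hw, rfl⟩⟩, {x | ∃ v ∈ V2, ∃ w ∈ W2, v * (w : G) = x},
        (hmem _).2 ⟨V2, hV2, W2, hW2, fun v hv w hw => ⟨v, hv, w, hw, rfl⟩⟩, ?_⟩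
      rintro ⟨x, y⟩ ⟨⟨v, hv, w, hw, rfl⟩, ⟨v', hv', w', hw', rfl⟩⟩
      have e : v * (w : G) * (v' * (w' : G)) = (v * v') * ((w * w' : Z) : G) := by
        rw [Subgroup.coe_mul, mul_assoc v, ← mul_assoc (w : G), ← hcm w v']
        group
      show v * (w : G) * (v' * (w' : G)) ∈ U
      rw [e]
      exact h _ (hV12 (Set.mk_mem_prod hv hv')) _ (hW12 (Set.mk_mem_prod hw hw')))
    (by
      intro U hU
      obtain ⟨V, hV, W, hW, h⟩ := (hmem U).1 hU
      rw [mem_map, hmem]
      refine ⟨V⁻¹, inv_mem_nhds_one _ hV, _, hsinv hW, ?_⟩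
      intro v hv w hw
      have e : (v * (w : G))⁻¹ = v⁻¹ * ((w⁻¹ : Z) : G) := by
        rw [mul_inv_rev, Subgroup.coe_inv, ← Subgroup.coe_inv, hcm]
      show (v * (w : G))⁻¹ ∈ U
      rw [e]
      exact h _ hv _ hw)
    (by
      intro g U hU
      obtain ⟨V, hV, W, hW, h⟩ := (hmem U).1 hU
      rw [mem_map, hmem]
      have hc : Tendsto (fun x : G => g * x * g⁻¹) (𝓝 1) (𝓝 1) := by
        have : Continuous (fun x : G => g * x * g⁻¹) := by fun_prop
        simpa using this.tendsto 1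
      refine ⟨_, hc hV, W, hW, ?_⟩
      intro v hv w hw
      have e : g * (v * (w : G)) * g⁻¹ = (g * v * g⁻¹) * (w : G) := by
        rw [mul_assoc g, mul_assoc v, ← hcm w g⁻¹]
        group
      show g * (v * (w : G)) * g⁻¹ ∈ U
      rw [e]
      exact h _ hv _ hw)
  have hσ2 : @T2Space G σ := by
    refine @IsTopologicalGroup.t2Space_of_one_sep G σ _ _ ?_
    rw [hσ1]
    exact hsep
  have hts : tG ≤ σ := le_of_nhds_one_le ‹@IsTopologicalGroup G tG _› hσ (by rw [hσ1]; exact htF)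
  have hσt := hmin σ hσ hσ2 hts
  refine le_antisymm ?_ hle
  refine le_of_nhds_one_le hs hZt ?_
  rw [@nhds_subtype_eq_comap G tG]
  rintro U ⟨T, hT, hTU⟩
  have hT' : T ∈ F := by
    rw [← hσ1, hσt]
    exact hT
  obtain ⟨V, hV, W, hW, h⟩ := (hmem _).1 hT'
  refine mem_of_superset hW ?_
  intro w hw
  apply hTU
  have := h 1 (@mem_of_mem_nhds G tG 1 V hV) w hw
  simpa using this

end Pool.Agent.R508.DAC
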