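import Mathlib
import Pool.Agent.R508.DACBase

set_option autoImplicit false

/-! The abelian group attached to a local trivialisation of the commutator form
(helper508, MP_dac110_gt; proof by helper822). -/

open Filter Topology

namespace Pool.Agent.R508.DAC

universe u

/-- twisted product -/
@[ext] structure TP (G : Type u) [Group G]
    (O : FreeAbelianGroup G →+ FreeAbelianGroup G →+ ℝ) where
  g : G
  u : FreeAbelianGroup G
  t : Circle

namespace TP

variable {G : Type u} [Group G] {O : FreeAbelianGroup G →+ FreeAbelianGroup G →+ ℝ}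

noncomputable instance : Mul (TP G O) :=
  ⟨fun a b => ⟨a.g * b.g, a.u + b.u, a.t * b.t * Circle.exp (-(O a.u b.u) / 2)⟩⟩
noncomputable instance : One (TP G O) := ⟨⟨1, 0, 1⟩⟩
noncomputable instance : Inv (TP G O) :=
  ⟨fun a => ⟨a.g⁻¹, -a.u, a.t⁻¹ * Circle.exp (-(O a.u a.u) / 2)⟩⟩

theorem mul_g (a b : TP G O) : (a * b).g = a.g * b.g := rfl
theorem mul_u (a b : TP G O) : (a * b).u = a.u + b.u := rfl
theorem mul_t (a b : TP G O) : (a * b).t = a.t * b.t * Circle.exp (-(O a.u b.u) / 2) := rfl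
theorem one_g : (1 : TP G O).g = 1 := rfl
theorem one_u : (1 : TP G O).u = 0 := rfl
theorem one_t : (1 : TP G O).t = 1 := rfl
theorem inv_g (a : TP G O) : (a⁻¹).g = a.g⁻¹ := rfl
theorem inv_u (a : TP G O) : (a⁻¹).u = -a.u := rfl
theorem inv_t (a : TP G O) : (a⁻¹).t = a.t⁻¹ * Circle.exp (-(O a.u a.u) / 2) := rfl

noncomputable instance : Group (TP G O) :=
  Group.ofLeftAxioms
    (by
      intro a b c
      ext1
      · simp only [mul_g, mul_assoc]
      · simp only [mul_u, add_assoc]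
      · simp only [mul_t, mul_u, map_add, AddMonoidHom.add_apply]
        have h : Circle.exp (-(O a.u b.u) / 2) * Circle.exp (-(O a.u c.u + O b.u c.u) / 2)
            = Circle.exp (-(O b.u c.u) / 2) * Circle.exp (-(O a.u b.u + O a.u c.u) / 2) := by
          rw [← Circle.exp_add, ← Circle.exp_add]
          congr 1
          ring
        calc a.t * b.t * Circle.exp (-(O a.u b.u) / 2) * c.t
              * Circle.exp (-(O a.u c.u + O b.u c.u) / 2)
            = a.t * b.t * c.t * (Circle.exp (-(O a.u b.u) / 2)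
              * Circle.exp (-(O a.u c.u + O b.u c.u) / 2)) := by
                simp only [mul_assoc, mul_comm, mul_left_comm]
          _ = _ := by
                rw [h]
                simp only [mul_assoc])
    (by
      intro a
      ext1
      · simp only [mul_g, one_g, one_mul]
      · simp only [mul_u, one_u, zero_add]
      · simp only [mul_t, one_u, one_t, map_zero, AddMonoidHom.zero_apply, neg_zero, zero_div,
          Circle.exp_zero, one_mul, mul_one])
    (by
      intro a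
      ext1
      · simp only [mul_g, inv_g, one_g, inv_mul_cancel]
      · simp only [mul_u, inv_u, one_u, neg_add_cancel]
      · simp only [mul_t, inv_t, inv_u, one_t, map_neg, AddMonoidHom.neg_apply]
        calc a.t⁻¹ * Circle.exp (-(O a.u a.u) / 2) * a.t * Circle.exp (-(-(O a.u a.u)) / 2)
            = (a.t⁻¹ * a.t) * (Circle.exp (-(O a.u a.u) / 2)
              * Circle.exp (-(-(O a.u a.u)) / 2)) := by
                simp only [mul_assoc, mul_comm, mul_left_comm]
          _ = 1 := by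
                rw [← Circle.exp_add, inv_mul_cancel, one_mul,
                  show -(O a.u a.u) / 2 + -(-(O a.u a.u)) / 2 = 0 by ring, Circle.exp_zero])

end TP

/-- local trivialisation of the commutator form -/
structure LD (G : Type u) [Group G] where
  /-- the neighbourhood -/
  N : Set G
  /-- the real lift of the form -/
  Om : G → G → ℝ
  /-- the character of the centre -/
  ch : Subgroup.center G →* Circle
  one_mem : (1 : G) ∈ N
  inv_mem : ∀ x ∈ N, x⁻¹ ∈ N
  center_mem : ∀ x ∈ N, ∀ z ∈ Subgroup.center G, x * z ∈ N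
  comm : ∀ x y : G, x⁻¹ * y⁻¹ * x * y ∈ Subgroup.center G
  Om_mul : ∀ x y v : G, x ∈ N → y ∈ N → x * y ∈ N → Om (x * y) v = Om x v + Om y v
  Om_neg : ∀ x y : G, Om x y = - Om y x
  Om_exp : ∀ x ∈ N, ∀ y ∈ N, ch ⟨x⁻¹ * y⁻¹ * x * y, comm x y⟩ = Circle.exp (Om x y)
  Om_center : ∀ x ∈ N, ∀ z ∈ Subgroup.center G, ∀ v, Om (x * z) v = Om x v

namespace LD

variable {G : Type u} [Group G] (D : LD G)

/-- the extended form -/
noncomputable def O : FreeAbelianGroup G →+ FreeAbelianGroup G →+ ℝ :=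
  FreeAbelianGroup.lift fun x => FreeAbelianGroup.lift (D.Om x)

theorem O_of (x y : G) : D.O (FreeAbelianGroup.of x) (FreeAbelianGroup.of y) = D.Om x y := by
  simp [O]

theorem O_anti (u v : FreeAbelianGroup G) : D.O u v = - D.O v u := by
  induction u using FreeAbelianGroup.induction_on with
  | zero => simp
  | of x =>
    induction v using FreeAbelianGroup.induction_on with
    | zero => simp
    | of y => rw [O_of, O_of, D.Om_neg]
    | neg y h => rw [map_neg, map_neg, AddMonoidHom.neg_apply, h]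
    | add a b ha hb => rw [map_add, map_add, AddMonoidHom.add_apply, ha, hb]; ring
  | neg x h => rw [map_neg, map_neg, AddMonoidHom.neg_apply, h]
  | add a b ha hb => rw [map_add, map_add, AddMonoidHom.add_apply, ha, hb]; ring

theorem O_self (u : FreeAbelianGroup G) : D.O u u = 0 := by
  have := D.O_anti u u
  linarith

/-- the relations -/
def rel : Set (FreeAbelianGroup G) :=
  {r | (∃ x ∈ D.N, ∃ y ∈ D.N, x * y ∈ D.N ∧ r = FreeAbelianGroup.of (x * y)
      - FreeAbelianGroup.of x - FreeAbelianGroup.of y) ∨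
    ∃ x ∈ D.N, ∃ z ∈ Subgroup.center G, r = FreeAbelianGroup.of (x * z) - FreeAbelianGroup.of x}

/-- the subgroup of relations -/
def R : AddSubgroup (FreeAbelianGroup G) := AddSubgroup.closure D.rel

theorem O_R {r : FreeAbelianGroup G} (hr : r ∈ D.R) (v : FreeAbelianGroup G) : D.O r v = 0 := by
  induction hr using AddSubgroup.closure_induction with
  | mem r hr =>
    rcases hr with ⟨x, hx, y, hy, hxy, rfl⟩ | ⟨x, hx, z, hz, rfl⟩
    · induction v using FreeAbelianGroup.induction_on with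
      | zero => simp
      | of w =>
        rw [map_sub, map_sub, AddMonoidHom.sub_apply, AddMonoidHom.sub_apply, O_of, O_of, O_of,
          D.Om_mul x y w hx hy hxy]
        ring
      | neg y h => rw [map_neg, h, neg_zero]
      | add a b ha hb => rw [map_add, ha, hb, add_zero]
    · induction v using FreeAbelianGroup.induction_on with
      | zero => simp
      | of w =>
        rw [map_sub, AddMonoidHom.sub_apply, O_of, O_of, D.Om_center x hx z hz w]
        ring
      | neg y h => rw [map_neg, h, neg_zero]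
      | add a b ha hb => rw [map_add, ha, hb, add_zero]
  | zero => simp
  | add a b _ _ ha hb => rw [map_add, AddMonoidHom.add_apply, ha, hb, add_zero]
  | neg a _ ha => rw [map_neg, AddMonoidHom.neg_apply, ha, neg_zero]

theorem O_R' {r : FreeAbelianGroup G} (hr : r ∈ D.R) (v : FreeAbelianGroup G) : D.O v r = 0 := by
  rw [D.O_anti, D.O_R hr, neg_zero]

/-- the central subgroup -/
def K : Subgroup (TP G D.O) where
  carrier := {p | p.u ∈ D.R ∧ ∃ h : p.g ∈ Subgroup.center G, p.t * D.ch ⟨p.g, h⟩ = 1}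
  mul_mem' := by
    rintro a b ⟨ha, ha1, ha2⟩ ⟨hb, hb1, hb2⟩
    refine ⟨D.R.add_mem ha hb, Subgroup.mul_mem _ ha1 hb1, ?_⟩
    rw [TP.mul_t, D.O_R ha, neg_zero, zero_div, Circle.exp_zero, mul_one]
    have : D.ch ⟨(a * b).g, Subgroup.mul_mem _ ha1 hb1⟩ = D.ch ⟨a.g, ha1⟩ * D.ch ⟨b.g, hb1⟩ := by
      rw [← map_mul]
      rfl
    rw [this, mul_mul_mul_comm, ha2, hb2, one_mul]
  one_mem' := by
    refine ⟨D.R.zero_mem, Subgroup.one_mem _, ?_⟩
    have : D.ch ⟨(1 : TP G D.O).g, Subgroup.one_mem _⟩ = 1 := map_one D.ch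
    rw [this, TP.one_t, one_mul]
  inv_mem' := by
    rintro a ⟨ha, ha1, ha2⟩
    refine ⟨D.R.neg_mem ha, Subgroup.inv_mem _ ha1, ?_⟩
    rw [TP.inv_t, D.O_R ha, neg_zero, zero_div, Circle.exp_zero, mul_one]
    have : D.ch ⟨(a⁻¹).g, Subgroup.inv_mem _ ha1⟩ = (D.ch ⟨a.g, ha1⟩)⁻¹ := by
      rw [← map_inv]
      rfl
    rw [this, ← mul_inv, ha2, inv_one]

theorem K_comm (k : TP G D.O) (hk : k ∈ D.K) (p : TP G D.O) : p * k = k * p := by
  obtain ⟨h1, h2, h3⟩ := hk
  ext1
  · rw [TP.mul_g, TP.mul_g]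
    exact Subgroup.mem_center_iff.1 h2 p.g
  · rw [TP.mul_u, TP.mul_u, add_comm]
  · rw [TP.mul_t, TP.mul_t, D.O_R h1, D.O_R' h1, mul_comm p.t]

instance : D.K.Normal := by
  constructor
  intro k hk p
  rw [D.K_comm k hk p, mul_assoc, mul_inv_cancel, mul_one]
  exact hk

/-- the basic elements -/
noncomputable def s (g : G) (t : Circle) : TP G D.O ⧸ D.K :=
  QuotientGroup.mk (⟨g, FreeAbelianGroup.of g, t⟩ : TP G D.O)

theorem mk_eq (p q : TP G D.O) (k : TP G D.O) (hk : k ∈ D.K) (h : p = q * k) :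
    (QuotientGroup.mk p : TP G D.O ⧸ D.K) = QuotientGroup.mk q := by
  rw [h, QuotientGroup.mk_mul_of_mem _ hk]

theorem s_mul (g g' : G) (hg : g ∈ D.N) (hg' : g' ∈ D.N) (hgg : g * g' ∈ D.N) (t t' : Circle) :
    D.s g t * D.s g' t' = D.s (g * g') (t * t' * Circle.exp (-(D.Om g g') / 2)) := by
  rw [s, s, s, ← QuotientGroup.mk_mul]
  have hr : FreeAbelianGroup.of g + FreeAbelianGroup.of g' - FreeAbelianGroup.of (g * g') ∈ D.R := by
    have : FreeAbelianGroup.of (g * g') - FreeAbelianGroup.of g - FreeAbelianGroup.of g' ∈ D.R :=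
      AddSubgroup.subset_closure (Or.inl ⟨g, hg, g', hg', hgg, rfl⟩)
    have h2 := D.R.neg_mem this
    have e : -(FreeAbelianGroup.of (g * g') - FreeAbelianGroup.of g - FreeAbelianGroup.of g')
        = FreeAbelianGroup.of g + FreeAbelianGroup.of g' - FreeAbelianGroup.of (g * g') := by
      abel
    rw [e] at h2
    exact h2
  refine D.mk_eq _ _ (⟨1, FreeAbelianGroup.of g + FreeAbelianGroup.of g'
    - FreeAbelianGroup.of (g * g'), 1⟩ : TP G D.O) ⟨hr, Subgroup.one_mem _, ?_⟩ ?_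
  · have : D.ch ⟨1, Subgroup.one_mem _⟩ = 1 := map_one D.ch
    show (1 : Circle) * D.ch ⟨1, Subgroup.one_mem _⟩ = 1
    rw [this, one_mul]
  · ext1
    · simp only [TP.mul_g, mul_one]
    · simp only [TP.mul_u]
      abel
    · simp only [TP.mul_t]
      rw [D.O_R' hr, D.O_of]
      simp

theorem s_center (g : G) (hg : g ∈ D.N) (z : G) (hz : z ∈ Subgroup.center G) (t : Circle) :
    D.s (g * z) t = D.s g (t * D.ch ⟨z, hz⟩) := by
  rw [s, s]
  have hr : FreeAbelianGroup.of (g * z) - FreeAbelianGroup.of g ∈ D.R :=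
    AddSubgroup.subset_closure (Or.inr ⟨g, hg, z, hz, rfl⟩)
  refine D.mk_eq _ _ (⟨z, FreeAbelianGroup.of (g * z) - FreeAbelianGroup.of g,
    (D.ch ⟨z, hz⟩)⁻¹⟩ : TP G D.O) ⟨hr, hz, ?_⟩ ?_
  · exact inv_mul_cancel _
  · ext1
    · simp only [TP.mul_g]
    · simp only [TP.mul_u]
      abel
    · simp only [TP.mul_t]
      rw [D.O_R' hr]
      simp

theorem s_one : D.s 1 1 = 1 := by
  rw [s, QuotientGroup.eq_one_iff]
  refine ⟨?_, Subgroup.one_mem _, ?_⟩
  · have : FreeAbelianGroup.of ((1 : G) * 1) - FreeAbelianGroup.of (1 : G)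
        - FreeAbelianGroup.of (1 : G) ∈ D.R :=
      AddSubgroup.subset_closure (Or.inl ⟨1, D.one_mem, 1, D.one_mem, by
        rw [mul_one]; exact D.one_mem, rfl⟩)
    have h2 := D.R.neg_mem this
    rw [mul_one] at h2
    have e : -(FreeAbelianGroup.of (1 : G) - FreeAbelianGroup.of (1 : G)
        - FreeAbelianGroup.of (1 : G)) = FreeAbelianGroup.of (1 : G) := by
      abel
    rw [e] at h2
    exact h2
  · have : D.ch ⟨1, Subgroup.one_mem _⟩ = 1 := map_one D.ch
    show (1 : Circle) * D.ch ⟨1, Subgroup.one_mem _⟩ = 1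
    rw [this, one_mul]

theorem Om_self (g : G) : D.Om g g = 0 := by
  have := D.Om_neg g g
  linarith

theorem Om_center' (g : G) (hg : g ∈ D.N) (z : G) (hz : z ∈ Subgroup.center G) (v : G) :
    D.Om v (g * z) = D.Om v g := by
  rw [D.Om_neg, D.Om_center g hg z hz, ← D.Om_neg]

theorem s_inj (g g' : G) (hg : g ∈ D.N) (t t' : Circle)
    (h : D.s g t = D.s g' t') : ∃ hz : g⁻¹ * g' ∈ Subgroup.center G,
      t = t' * D.ch ⟨g⁻¹ * g', hz⟩ := by
  rw [s, s, QuotientGroup.eq] at h
  obtain ⟨h1, h2, h3⟩ := h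
  refine ⟨h2, ?_⟩
  simp only [TP.mul_t, TP.inv_t, TP.inv_u, map_neg, AddMonoidHom.neg_apply, D.O_of] at h3
  have e : D.Om g g' = 0 := by
    have := D.Om_center' g hg (g⁻¹ * g') h2 g
    rw [mul_inv_cancel_left] at this
    rw [this, D.Om_self]
  rw [e, D.Om_self] at h3
  simp only [neg_zero, zero_div, Circle.exp_zero, mul_one] at h3
  have h4 : D.ch ⟨((⟨g, FreeAbelianGroup.of g, t⟩ : TP G D.O)⁻¹
      * (⟨g', FreeAbelianGroup.of g', t'⟩ : TP G D.O)).g, h2⟩ = D.ch ⟨g⁻¹ * g', h2⟩ := rfl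
  rw [h4, mul_assoc, inv_mul_eq_one] at h3
  exact h3

/-- the abelian group -/
noncomputable def A : Subgroup (TP G D.O ⧸ D.K) :=
  Subgroup.closure {q | ∃ g ∈ D.N, ∃ t, q = D.s g t}

theorem s_comm (g g' : G) (hg : g ∈ D.N) (hg' : g' ∈ D.N) (t t' : Circle) :
    D.s g t * D.s g' t' = D.s g' t' * D.s g t := by
  rw [s, s, ← QuotientGroup.mk_mul, ← QuotientGroup.mk_mul]
  refine D.mk_eq _ _ (⟨g⁻¹ * g'⁻¹ * g * g', 0, Circle.exp (-(D.Om g g'))⟩ : TP G D.O)
    ⟨D.R.zero_mem, D.comm g g', ?_⟩ ?_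
  · show Circle.exp (-(D.Om g g')) * D.ch ⟨g⁻¹ * g'⁻¹ * g * g', D.comm g g'⟩ = 1
    rw [D.Om_exp g hg g' hg', ← Circle.exp_add, neg_add_cancel, Circle.exp_zero]
  · ext1
    · simp only [TP.mul_g]
      group
    · simp only [TP.mul_u]
      abel
    · simp only [TP.mul_t, TP.mul_u, map_zero, D.O_of, neg_zero, zero_div, Circle.exp_zero,
        mul_one]
      have h : Circle.exp (-(D.Om g g') / 2)
          = Circle.exp (-(D.Om g' g) / 2) * Circle.exp (-(D.Om g g')) := by
        rw [← Circle.exp_add, D.Om_neg g' g]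
        congr 1
        ring
      rw [h, mul_comm t t']
      simp only [mul_assoc]

theorem A_comm (a b : D.A) : a * b = b * a := by
  have h : IsMulCommutative D.A := Subgroup.isMulCommutative_closure (by
    rintro _ ⟨g, hg, t, rfl⟩ _ ⟨g', hg', t', rfl⟩
    exact D.s_comm g g' hg hg' t t')
  exact h.is_comm.comm a b

noncomputable instance : CommGroup D.A :=
  { D.A.toGroup with mul_comm := D.A_comm }

open Classical in
/-- the basic elements in `A` -/
noncomputable def sA (p : G × Circle) : D.A :=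
  if h : p.1 ∈ D.N then ⟨D.s p.1 p.2, Subgroup.subset_closure ⟨p.1, h, p.2, rfl⟩⟩ else 1

theorem sA_coe {g : G} (hg : g ∈ D.N) (t : Circle) : ((D.sA (g, t) : D.A) : TP G D.O ⧸ D.K)
    = D.s g t := by
  rw [sA, dif_pos hg]

theorem sA_mul (g g' : G) (hg : g ∈ D.N) (hg' : g' ∈ D.N) (hgg : g * g' ∈ D.N) (t t' : Circle) :
    D.sA (g, t) * D.sA (g', t') = D.sA (g * g', t * t' * Circle.exp (-(D.Om g g') / 2)) := by
  apply Subtype.ext
  rw [Subgroup.coe_mul, D.sA_coe hg, D.sA_coe hg', D.sA_coe hgg, D.s_mul g g' hg hg' hgg]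

theorem sA_one : D.sA (1, 1) = 1 := by
  apply Subtype.ext
  rw [D.sA_coe D.one_mem, D.s_one]
  rfl

theorem Om_one (g : G) : D.Om 1 g = 0 := by
  have := D.Om_mul 1 1 g D.one_mem D.one_mem (by rw [mul_one]; exact D.one_mem)
  rw [mul_one] at this
  linarith

theorem Om_inv (g : G) (hg : g ∈ D.N) (v : G) : D.Om g⁻¹ v = - D.Om g v := by
  have := D.Om_mul g⁻¹ g v (D.inv_mem g hg) hg (by rw [inv_mul_cancel]; exact D.one_mem)
  rw [inv_mul_cancel, D.Om_one] at this
  linarith

theorem sA_inv (g : G) (hg : g ∈ D.N) (t : Circle) : (D.sA (g, t))⁻¹ = D.sA (g⁻¹, t⁻¹) := by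
  rw [inv_eq_iff_mul_eq_one, D.sA_mul g g⁻¹ hg (D.inv_mem g hg) (by
    rw [mul_inv_cancel]; exact D.one_mem), mul_inv_cancel, mul_inv_cancel, one_mul,
    D.Om_neg g g⁻¹, D.Om_inv g hg, D.Om_self]
  simp only [neg_zero, zero_div, Circle.exp_zero]
  exact D.sA_one

theorem sA_center (g : G) (hg : g ∈ D.N) (z : G) (hz : z ∈ Subgroup.center G) (t : Circle) :
    D.sA (g * z, t) = D.sA (g, t * D.ch ⟨z, hz⟩) := by
  apply Subtype.ext
  rw [D.sA_coe (D.center_mem g hg z hz), D.sA_coe hg, D.s_center g hg z hz]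

theorem sA_inj (g g' : G) (hg : g ∈ D.N) (hg' : g' ∈ D.N) (t t' : Circle)
    (h : D.sA (g, t) = D.sA (g', t')) : ∃ hz : g⁻¹ * g' ∈ Subgroup.center G,
      t = t' * D.ch ⟨g⁻¹ * g', hz⟩ := by
  have h2 := congrArg Subtype.val h
  rw [D.sA_coe hg, D.sA_coe hg'] at h2
  exact D.s_inj g g' hg t t' h2

end LD

end Pool.Agent.R508.DAC
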