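import Mathlib
import Pool.Agent.R508.DACLocal

set_option autoImplicit false

/-! The locally compact abelian group and quasi-characters
(helper508, MP_dac110_gt; proof by helper822). -/

open Filter Topology

namespace Pool.Agent.R508.DAC

universe u

namespace LD

variable {G : Type u} [Group G] [TopologicalSpace G] [IsTopologicalGroup G] (D : LD G)

theorem exists_top (hN : D.N ∈ 𝓝 (1 : G))
    (hOm : Tendsto (fun p : G × G => D.Om p.1 p.2) (𝓝 1 ×ˢ 𝓝 1) (𝓝 0)) :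
    ∃ t : TopologicalSpace D.A, @IsTopologicalGroup D.A t _ ∧
      @nhds D.A t 1 = map D.sA (𝓝 (1 : G) ×ˢ 𝓝 (1 : Circle)) := by
  have he : Tendsto (fun r : ℝ => Circle.exp (-r / 2)) (𝓝 0) (𝓝 1) := by
    have : Continuous (fun r : ℝ => Circle.exp (-r / 2)) := by fun_prop
    simpa using this.tendsto 0
  refine exists_group_topology _ ?_ ?_ ?_ ?_
  · have h : (pure 1 : Filter D.A) = map D.sA (pure 1) := by
      rw [Filter.map_pure]
      congr 1
      exact D.sA_one.symm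
    rw [h]
    refine Filter.map_mono ?_
    rw [← nhds_prod_eq]
    exact pure_le_nhds _
  · rw [prod_map_map_eq, tendsto_map'_iff]
    have h1 : Tendsto (fun q : (G × Circle) × (G × Circle) => (q.1.1, q.2.1))
        ((𝓝 (1 : G) ×ˢ 𝓝 (1 : Circle)) ×ˢ (𝓝 (1 : G) ×ˢ 𝓝 (1 : Circle)))
        (𝓝 (1 : G) ×ˢ 𝓝 (1 : G)) :=
      (tendsto_fst.comp tendsto_fst).prodMk (tendsto_fst.comp tendsto_snd)
    have h2 : Tendsto (fun q : (G × Circle) × (G × Circle) => (q.1.2, q.2.2))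
        ((𝓝 (1 : G) ×ˢ 𝓝 (1 : Circle)) ×ˢ (𝓝 (1 : G) ×ˢ 𝓝 (1 : Circle)))
        (𝓝 (1 : Circle) ×ˢ 𝓝 (1 : Circle)) :=
      (tendsto_snd.comp tendsto_fst).prodMk (tendsto_snd.comp tendsto_snd)
    have h3 : Tendsto (fun q : (G × Circle) × (G × Circle) => q.1.1 * q.2.1)
        ((𝓝 (1 : G) ×ˢ 𝓝 (1 : Circle)) ×ˢ (𝓝 (1 : G) ×ˢ 𝓝 (1 : Circle)))
        (𝓝 (1 : G)) := tendsto_mul_one.comp h1
    have h4 : Tendsto (fun q : (G × Circle) × (G × Circle) => q.1.2 * q.2.2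
        * Circle.exp (-(D.Om q.1.1 q.2.1) / 2))
        ((𝓝 (1 : G) ×ˢ 𝓝 (1 : Circle)) ×ˢ (𝓝 (1 : G) ×ˢ 𝓝 (1 : Circle)))
        (𝓝 (1 : Circle)) := by
      have := (tendsto_mul_one.comp h2).mul ((he.comp hOm).comp h1)
      simpa using this
    have h5 : Tendsto (fun q : (G × Circle) × (G × Circle) => D.sA (q.1.1 * q.2.1, q.1.2 * q.2.2
        * Circle.exp (-(D.Om q.1.1 q.2.1) / 2)))
        ((𝓝 (1 : G) ×ˢ 𝓝 (1 : Circle)) ×ˢ (𝓝 (1 : G) ×ˢ 𝓝 (1 : Circle)))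
        (map D.sA (𝓝 (1 : G) ×ˢ 𝓝 (1 : Circle))) :=
      tendsto_map.comp (h3.prodMk h4)
    refine h5.congr' ?_
    filter_upwards [(tendsto_fst.comp h1) hN, (tendsto_snd.comp h1) hN, h3 hN] with q hq1 hq2 hq3
    exact (D.sA_mul _ _ hq1 hq2 hq3 _ _).symm
  · rw [tendsto_map'_iff]
    have h5 : Tendsto (fun q : G × Circle => D.sA (q.1⁻¹, q.2⁻¹))
        (𝓝 (1 : G) ×ˢ 𝓝 (1 : Circle))
        (map D.sA (𝓝 (1 : G) ×ˢ 𝓝 (1 : Circle))) :=
      tendsto_map.comp ((tendsto_inv_one.comp tendsto_fst).prodMk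
        (tendsto_inv_one.comp tendsto_snd))
    refine h5.congr' ?_
    filter_upwards [tendsto_fst hN] with q hq1
    exact (D.sA_inv _ hq1 _).symm
  · intro g
    have : (fun x : D.A => g * x * g⁻¹) = id := by
      funext x
      rw [D.A_comm g x, mul_assoc, mul_inv_cancel, mul_one]
      rfl
    rw [this]
    exact tendsto_id

theorem sA_sep [T2Space G] (hN : D.N ∈ 𝓝 (1 : G)) (hch : Continuous D.ch) (a : D.A) (ha : a ≠ 1) :
    ∃ U ∈ map D.sA (𝓝 (1 : G) ×ˢ 𝓝 (1 : Circle)), a ∉ U := by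
  by_contra hcon
  push Not at hcon
  have h0 : ∀ V ∈ 𝓝 (1 : G), ∀ T ∈ 𝓝 (1 : Circle), ∃ g ∈ V, g ∈ D.N ∧ ∃ t ∈ T, D.sA (g, t) = a := by
    intro V hV T hT
    have := hcon (D.sA '' ((V ∩ D.N) ×ˢ T)) (by
      rw [mem_map]
      refine mem_of_superset (prod_mem_prod (inter_mem hV hN) hT) ?_
      exact Set.subset_preimage_image _ _)
    obtain ⟨⟨g, t⟩, ⟨⟨hg, hgN⟩, ht⟩, h⟩ := this
    exact ⟨g, hg, hgN, t, ht, h⟩
  obtain ⟨g1, -, hg1, t1, -, h1⟩ := h0 Set.univ univ_mem Set.univ univ_mem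
  have hgc : g1⁻¹ ∈ Subgroup.center G := by
    by_contra hgZ
    have h2 : (Subgroup.center G : Set G)ᶜ ∈ 𝓝 g1⁻¹ :=
      isClosed_center.isOpen_compl.mem_nhds hgZ
    have h3 : Tendsto (fun v : G => g1⁻¹ * v) (𝓝 1) (𝓝 g1⁻¹) := by
      have : Continuous (fun v : G => g1⁻¹ * v) := by fun_prop
      simpa using this.tendsto 1
    obtain ⟨g, hg, hgN, t, -, h⟩ := h0 _ (h3 h2) Set.univ univ_mem
    rw [← h] at h1
    obtain ⟨hz, -⟩ := D.sA_inj g1 g hg1 hgN t1 t h1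
    exact hg hz
  have hgc1 : g1 ∈ Subgroup.center G := by
    have := Subgroup.inv_mem _ hgc
    rwa [inv_inv] at this
  have h2 : D.sA (1, t1 * D.ch ⟨g1, hgc1⟩) = a := by
    rw [← D.sA_center 1 D.one_mem g1 hgc1, one_mul, h1]
  set t2 := t1 * D.ch ⟨g1, hgc1⟩ with ht2
  have ht2' : t2 ≠ 1 := by
    intro h
    apply ha
    rw [← h2, h, D.sA_one]
  have h3 : ({t2}ᶜ : Set Circle) ∈ 𝓝 (1 : Circle) := isOpen_compl_singleton.mem_nhds ht2'.symm
  obtain ⟨T1, hT1, T2, hT2, hTT⟩ := mem_prod_iff.1 (tendsto_mul_one h3)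
  have h4 : D.ch ⁻¹' T2 ∈ 𝓝 (1 : Subgroup.center G) :=
    hch.continuousAt.preimage_mem_nhds (by rwa [map_one])
  rw [nhds_subtype_eq_comap] at h4
  obtain ⟨V, hV, hVT⟩ := h4
  obtain ⟨g, hg, hgN, t, ht, h⟩ := h0 V hV T1 hT1
  rw [← h] at h2
  obtain ⟨hz, hzt⟩ := D.sA_inj 1 g D.one_mem hgN t2 t h2
  have hmem : D.ch ⟨1⁻¹ * g, hz⟩ ∈ T2 := hVT (by
    show (1 : G)⁻¹ * g ∈ V
    simpa using hg)
  exact hTT (Set.mk_mem_prod ht hmem) hzt.symm

/-- quasi-characters -/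
theorem quasi (hsep : CharSep.{u}) [T2Space G] [LocallyCompactSpace G] (hN : D.N ∈ 𝓝 (1 : G))
    (hOm : Tendsto (fun p : G × G => D.Om p.1 p.2) (𝓝 1 ×ˢ 𝓝 1) (𝓝 0))
    (hOm1 : ∀ g ∈ D.N, Tendsto (fun x : G => D.Om x g) (𝓝 1) (𝓝 0))
    (hch : Continuous D.ch) (z0 : Subgroup.center G) (hz0 : D.ch z0 ≠ 1) :
    ∃ (ψ : G → Circle) (η : Circle →* Circle), Continuous η ∧
      (∀ g ∈ D.N, ∀ g' ∈ D.N, g * g' ∈ D.N →
        ψ (g * g') = ψ g * ψ g' * η (Circle.exp (D.Om g g' / 2))) ∧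
      (∀ g ∈ D.N, ∀ z : Subgroup.center G, ψ (g * z) = ψ g * η (D.ch z)) ∧
      Tendsto ψ (𝓝 1) (𝓝 1) ∧ η (D.ch z0) ≠ 1 := by
  obtain ⟨tA, hA, hA1⟩ := D.exists_top hN hOm
  haveI hT2 : T2Space D.A := by
    refine IsTopologicalGroup.t2Space_of_one_sep ?_
    rw [hA1]
    exact D.sA_sep hN hch
  obtain ⟨V, hV, hVN, hVc⟩ := local_compact_nhds hN
  have hcont : ContinuousOn D.sA (V ×ˢ (Set.univ : Set Circle)) := by
    rintro ⟨g, t⟩ ⟨hg, -⟩
    have hgN : g ∈ D.N := hVN hg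
    have h1 : Tendsto (fun p : G × Circle => p.1 * g⁻¹)
        (𝓝[V ×ˢ (Set.univ : Set Circle)] (g, t)) (𝓝 1) := by
      have : Continuous (fun p : G × Circle => p.1 * g⁻¹) := by fun_prop
      have h := this.tendsto (g, t)
      simp only [mul_inv_cancel] at h
      exact h.mono_left nhdsWithin_le_nhds
    have h2 : Tendsto (fun p : G × Circle => p.2 * t⁻¹)
        (𝓝[V ×ˢ (Set.univ : Set Circle)] (g, t)) (𝓝 1) := by
      have : Continuous (fun p : G × Circle => p.2 * t⁻¹) := by fun_prop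
      have h := this.tendsto (g, t)
      simp only [mul_inv_cancel] at h
      exact h.mono_left nhdsWithin_le_nhds
    have he : Tendsto (fun r : ℝ => Circle.exp (r / 2)) (𝓝 0) (𝓝 1) := by
      have : Continuous (fun r : ℝ => Circle.exp (r / 2)) := by fun_prop
      simpa using this.tendsto 0
    have h3 : Tendsto (fun p : G × Circle => Circle.exp (D.Om (p.1 * g⁻¹) g / 2))
        (𝓝[V ×ˢ (Set.univ : Set Circle)] (g, t)) (𝓝 1) := he.comp ((hOm1 g hgN).comp h1)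
    have h4 : Tendsto (fun p : G × Circle => D.sA (p.1 * g⁻¹,
        p.2 * t⁻¹ * Circle.exp (D.Om (p.1 * g⁻¹) g / 2)))
        (𝓝[V ×ˢ (Set.univ : Set Circle)] (g, t)) (𝓝 1) := by
      rw [hA1]
      refine tendsto_map.comp (h1.prodMk ?_)
      have := h2.mul h3
      simpa using this
    have h5 : Tendsto (fun p : G × Circle => D.sA p * (D.sA (g, t))⁻¹)
        (𝓝[V ×ˢ (Set.univ : Set Circle)] (g, t)) (𝓝 1) := by
      refine h4.congr' ?_
      filter_upwards [h1 hN, self_mem_nhdsWithin] with p hp1 hp2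
      obtain ⟨g', t'⟩ := p
      have hg' : g' ∈ D.N := hVN hp2.1
      rw [D.sA_inv g hgN, D.sA_mul g' g⁻¹ hg' (D.inv_mem g hgN) hp1]
      congr 3
      have e1 : D.Om g' g⁻¹ = - D.Om g' g := by
        rw [D.Om_neg g' g⁻¹, D.Om_inv g hgN, D.Om_neg g' g]
      have e2 : D.Om g' g = D.Om (g' * g⁻¹) g := by
        have := D.Om_mul (g' * g⁻¹) g g hp1 hgN (by rw [inv_mul_cancel_right]; exact hg')
        rw [inv_mul_cancel_right, D.Om_self, add_zero] at this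
        exact this
      show Circle.exp (D.Om (g' * g⁻¹) g / 2) = Circle.exp (-(D.Om g' g⁻¹) / 2)
      rw [e1, e2, neg_neg]
    have h6 := h5.mul (tendsto_const_nhds (x := D.sA (g, t)))
    simp only [one_mul, inv_mul_cancel_right] at h6
    exact h6
  haveI hLC : LocallyCompactSpace D.A := by
    have hK : IsCompact (D.sA '' (V ×ˢ (Set.univ : Set Circle))) :=
      (hVc.prod isCompact_univ).image_of_continuousOn hcont
    refine hK.locallyCompactSpace_of_mem_nhds_of_group (x := 1) ?_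
    rw [hA1, mem_map]
    refine mem_of_superset (prod_mem_prod hV univ_mem) ?_
    exact Set.subset_preimage_image _ _
  have hne : D.sA ((z0 : G), 1) ≠ 1 := by
    intro h
    have h1 : D.sA (1, D.ch z0) = D.sA (1, 1) := by
      rw [D.sA_one, ← h]
      have := D.sA_center 1 D.one_mem z0 z0.2 1
      rw [one_mul, one_mul] at this
      rw [this]
    obtain ⟨hz, h2⟩ := D.sA_inj 1 1 D.one_mem D.one_mem _ _ h1
    apply hz0
    rw [h2]
    have : (⟨(1 : G)⁻¹ * 1, hz⟩ : Subgroup.center G) = 1 := by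
      apply Subtype.ext
      simp
    rw [this, map_one, mul_one]
  obtain ⟨χ, hχ, hχ1⟩ := hsep D.A (D.sA ((z0 : G), 1)) hne
  have hone : ∀ t t' : Circle, D.sA (1, t) * D.sA (1, t') = D.sA (1, t * t') := by
    intro t t'
    rw [D.sA_mul 1 1 D.one_mem D.one_mem (by rw [mul_one]; exact D.one_mem), D.Om_one]
    simp
  let η : Circle →* Circle :=
    { toFun := fun t => χ (D.sA (1, t))
      map_one' := by
        show χ (D.sA (1, 1)) = 1
        rw [D.sA_one, map_one]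
      map_mul' := fun t t' => by
        show χ (D.sA (1, t * t')) = χ (D.sA (1, t)) * χ (D.sA (1, t'))
        rw [← hone, map_mul] }
  have hsA1 : Tendsto D.sA (𝓝 (1 : G) ×ˢ 𝓝 (1 : Circle)) (𝓝 1) := by
    rw [hA1]
    exact tendsto_map
  have hχt : Tendsto χ (𝓝 1) (𝓝 1) := by
    have := hχ.tendsto 1
    rwa [map_one] at this
  refine ⟨fun g => χ (D.sA (g, 1)), η, ?_, ?_, ?_, ?_, ?_⟩
  · refine continuous_of_continuousAt_one η ?_
    show Tendsto (fun t => χ (D.sA (1, t))) (𝓝 1) (𝓝 (η 1))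
    rw [map_one]
    refine hχt.comp (hsA1.comp (Tendsto.prodMk ?_ tendsto_id))
    exact tendsto_const_nhds
  · intro g hg g' hg' hgg
    show χ (D.sA (g * g', 1)) = χ (D.sA (g, 1)) * χ (D.sA (g', 1))
      * χ (D.sA (1, Circle.exp (D.Om g g' / 2)))
    rw [← map_mul, D.sA_mul g g' hg hg' hgg, ← map_mul, D.sA_mul (g * g') 1 hgg D.one_mem (by
      rw [mul_one]; exact hgg), D.Om_neg (g * g') 1, D.Om_one]
    congr 2
    rw [mul_one, mul_one, one_mul, neg_zero, neg_zero, zero_div, Circle.exp_zero, mul_one,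
      ← Circle.exp_add]
    congr 1
    rw [show -(D.Om g g') / 2 + D.Om g g' / 2 = 0 by ring, Circle.exp_zero]
  · intro g hg z
    show χ (D.sA (g * z, 1)) = χ (D.sA (g, 1)) * χ (D.sA (1, D.ch z))
    rw [D.sA_center g hg z z.2, ← map_mul, D.sA_mul g 1 hg D.one_mem (by
      rw [mul_one]; exact hg), D.Om_neg g 1, D.Om_one]
    simp
  · exact hχt.comp (hsA1.comp (Tendsto.prodMk tendsto_id tendsto_const_nhds))
  · show χ (D.sA (1, D.ch z0)) ≠ 1
    have := D.sA_center 1 D.one_mem z0 z0.2 1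
    rw [one_mul, one_mul] at this
    rw [← this]
    exact hχ1

end LD

end Pool.Agent.R508.DAC
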