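import Mathlib
import Pool.Agent.R508.DACTop
import Pool.Agent.R746.LCAChars

set_option autoImplicit false

/-! Theorem A for locally compact minimal groups of class two
(helper508, MP_dac110_gt; proof by helper822). -/

open Filter Topology

namespace Pool.Agent.R508.DAC

universe u

theorem charSep : CharSep.{u} := by
  intro A _ _ _ _ _ a ha
  exact Pool.Agent.R746.LCA.lca_chars a ha

instance centerComm {G : Type u} [Group G] : CommGroup (Subgroup.center G) :=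
  { (Subgroup.center G).toGroup with
    mul_comm := fun a b => Subtype.ext (Subgroup.mem_center_iff.1 b.2 a) }

/-- the centre of a locally compact minimal group is compact -/
theorem center_compact {G : Type u} [Group G] [TopologicalSpace G] [IsTopologicalGroup G]
    [T2Space G] [LocallyCompactSpace G] (hmin : IsMinimalGroup G) :
    CompactSpace (Subgroup.center G) := by
  have : LocallyCompactSpace (Subgroup.center G) :=
    isClosed_center.isClosedEmbedding_subtypeVal.locallyCompactSpace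
  exact compact_of_minimal charSep (center_minimal hmin)

section form

variable {G : Type u} [Group G] (hcomm : ∀ x y : G, x⁻¹ * y⁻¹ * x * y ∈ Subgroup.center G)

/-- the commutator -/
def cm (x y : G) : Subgroup.center G := ⟨x⁻¹ * y⁻¹ * x * y, hcomm x y⟩

theorem cm_mul (x y v : G) : cm hcomm (x * y) v = cm hcomm x v * cm hcomm y v := by
  apply Subtype.ext
  show (x * y)⁻¹ * v⁻¹ * (x * y) * v = (x⁻¹ * v⁻¹ * x * v) * (y⁻¹ * v⁻¹ * y * v)
  have h := Subgroup.mem_center_iff.1 (hcomm x v) y⁻¹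
  calc (x * y)⁻¹ * v⁻¹ * (x * y) * v = (y⁻¹ * (x⁻¹ * v⁻¹ * x * v)) * (v⁻¹ * y * v) := by group
    _ = _ := by rw [h]; group

theorem cm_inv (x y : G) : cm hcomm y x = (cm hcomm x y)⁻¹ := by
  apply Subtype.ext
  show y⁻¹ * x⁻¹ * y * x = (x⁻¹ * y⁻¹ * x * y)⁻¹
  group

theorem cm_center (z v : G) (hz : z ∈ Subgroup.center G) : cm hcomm z v = 1 := by
  apply Subtype.ext
  show z⁻¹ * v⁻¹ * z * v = 1
  have h := Subgroup.mem_center_iff.1 hz v⁻¹
  rw [mul_assoc z⁻¹, h]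
  group

end form

theorem arg_tendsto : Tendsto (fun z : Circle => Complex.arg (z : ℂ)) (𝓝 1) (𝓝 0) := by
  have h1 : ContinuousAt Complex.arg ((1 : Circle) : ℂ) :=
    Complex.continuousAt_arg (by simp)
  have h2 : ContinuousAt (fun z : Circle => Complex.arg (z : ℂ)) 1 :=
    h1.comp (f := fun z : Circle => (z : ℂ)) (by fun_prop)
  have h3 := h2.tendsto
  simpa using h3

theorem arg_mul_small (a b : Circle) (ha : |Complex.arg (a : ℂ)| < 1)
    (hb : |Complex.arg (b : ℂ)| < 1) :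
    Complex.arg ((a * b : Circle) : ℂ) = Complex.arg (a : ℂ) + Complex.arg (b : ℂ) := by
  rw [Circle.coe_mul]
  refine (Complex.arg_mul_eq_add_arg_iff a.coe_ne_zero b.coe_ne_zero).2 ?_
  have h1 := abs_lt.1 ha
  have h2 := abs_lt.1 hb
  have h3 := Real.pi_gt_three
  constructor <;> linarith [h1.1, h1.2, h2.1, h2.2]

theorem arg_inv_small (a : Circle) (ha : |Complex.arg (a : ℂ)| < 1) :
    Complex.arg ((a⁻¹ : Circle) : ℂ) = - Complex.arg (a : ℂ) := by
  rw [Circle.coe_inv, Complex.arg_inv, if_neg]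
  intro h
  rw [h] at ha
  have h1 := abs_lt.1 ha
  have h3 := Real.pi_gt_three
  linarith [h1.2]

section main

variable {G : Type u} [Group G] [τ : TopologicalSpace G] [hτ : IsTopologicalGroup G]
  [hτ2 : T2Space G] [hτl : LocallyCompactSpace G]

/-- filters of neighbourhoods of the identity of group topologies -/
structure GF (M : Filter G) : Prop where
  one : pure 1 ≤ M
  mul : Tendsto (fun p : G × G => p.1 * p.2) (M ×ˢ M) M
  inv : Tendsto (fun x : G => x⁻¹) M M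
  conj : ∀ g : G, Tendsto (fun x : G => g * x * g⁻¹) M M

/-- auxiliary data: a coarser group topology with closure of the identity equal to the centre and
continuous commutators -/
structure Coarse (M : Filter G) : Prop extends GF M where
  le : 𝓝 1 ≤ M
  comm : ∀ x y : G, x⁻¹ * y⁻¹ * x * y ∈ Subgroup.center G
  cen : ∀ z ∈ Subgroup.center G, ∀ U ∈ M, z ∈ U
  sep : ∀ g : G, g ∉ Subgroup.center G → ∃ U ∈ M, g ∉ U
  cont : Tendsto (fun p : G × G => p.1⁻¹ * p.2⁻¹ * p.1 * p.2) (M ×ˢ M) (𝓝 1)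
  cont1 : ∀ g : G, Tendsto (fun x : G => g⁻¹ * x⁻¹ * g * x) M (𝓝 1)

omit hτ hτ2 hτl in
theorem exists_LD (M : Filter G) (hM : Coarse M) (χ : Subgroup.center G →* Circle)
    (hχ : Continuous χ) : ∃ D : LD G, D.ch = χ ∧ D.N ∈ M ∧
      Tendsto (fun p : G × G => D.Om p.1 p.2) (M ×ˢ M) (𝓝 0) ∧
      (∀ g ∈ D.N, Tendsto (fun x : G => D.Om x g) M (𝓝 0)) := by
  classical
  have hcomm := hM.comm
  have hχ1 : Tendsto χ (𝓝 1) (𝓝 1) := by
    have := hχ.tendsto 1
    rwa [map_one] at this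
  have h1 : Tendsto (fun p : G × G => Complex.arg (χ (cm hcomm p.1 p.2) : ℂ)) (M ×ˢ M) (𝓝 0) := by
    refine arg_tendsto.comp (hχ1.comp ?_)
    rw [nhds_subtype_eq_comap, tendsto_comap_iff]
    exact hM.cont
  have h2 : ∀ᶠ p in (M ×ˢ M), |Complex.arg (χ (cm hcomm p.1 p.2) : ℂ)| < 1 := by
    have := h1.abs
    rw [abs_zero] at this
    exact this.eventually (gt_mem_nhds one_pos)
  obtain ⟨U1, hU1, U2, hU2, hUU⟩ := mem_prod_iff.1 h2
  obtain ⟨W1, hW1, W2, hW2, hWW⟩ := mem_prod_iff.1 (hM.mul (inter_mem hU1 hU2))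
  set W : Set G := (W1 ∩ W2) ∩ (W1 ∩ W2)⁻¹ with hW
  have hWM : W ∈ M := by
    refine inter_mem (inter_mem hW1 hW2) ?_
    have := hM.inv (inter_mem hW1 hW2)
    exact this
  set N : Set G := {g | ∃ x ∈ W, ∃ z ∈ Subgroup.center G, g = x * z} with hN
  have hWN : W ⊆ N := fun x hx => ⟨x, hx, 1, Subgroup.one_mem _, (mul_one x).symm⟩
  have hNM : N ∈ M := mem_of_superset hWM hWN
  have hN1 : (1 : G) ∈ N := hWN (mem_pure.1 (hM.one hWM))
  have hNU : N ⊆ U1 ∩ U2 := by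
    rintro _ ⟨x, hx, z, hz, rfl⟩
    exact hWW (Set.mk_mem_prod hx.1.1 (hM.cen z hz W2 hW2))
  have hsm : ∀ x ∈ N, ∀ y ∈ N, |Complex.arg (χ (cm hcomm x y) : ℂ)| < 1 := fun x hx y hy =>
    hUU (Set.mk_mem_prod (hNU hx).1 (hNU hy).2)
  have hNinv : ∀ x ∈ N, x⁻¹ ∈ N := by
    rintro _ ⟨x, ⟨h1, h2⟩, z, hz, rfl⟩
    refine ⟨x⁻¹, ⟨h2, by simpa using h1⟩, z⁻¹, Subgroup.inv_mem _ hz, ?_⟩
    rw [mul_inv_rev, Subgroup.mem_center_iff.1 (Subgroup.inv_mem _ hz)]
  have hNcen : ∀ x ∈ N, ∀ z ∈ Subgroup.center G, x * z ∈ N := by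
    rintro _ ⟨x, hx, z', hz', rfl⟩ z hz
    exact ⟨x, hx, z' * z, Subgroup.mul_mem _ hz' hz, mul_assoc _ _ _⟩
  let Om : G → G → ℝ := fun x y => if x ∈ N ∧ y ∈ N then Complex.arg (χ (cm hcomm x y) : ℂ) else 0
  have hOmN : ∀ x ∈ N, ∀ y ∈ N, Om x y = Complex.arg (χ (cm hcomm x y) : ℂ) := fun x hx y hy =>
    if_pos ⟨hx, hy⟩
  have hOmv : ∀ x v, v ∉ N → Om x v = 0 := fun x v hv => if_neg (fun h => hv h.2)
  have hOmx : ∀ x v, x ∉ N → Om x v = 0 := fun x v hv => if_neg (fun h => hv h.1)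
  let D : LD G :=
    { N := N
      Om := Om
      ch := χ
      one_mem := hN1
      inv_mem := hNinv
      center_mem := hNcen
      comm := hcomm
      Om_mul := by
        intro x y v hx hy hxy
        by_cases hv : v ∈ N
        · rw [hOmN _ hxy _ hv, hOmN _ hx _ hv, hOmN _ hy _ hv, cm_mul, map_mul]
          exact arg_mul_small _ _ (hsm x hx v hv) (hsm y hy v hv)
        · rw [hOmv _ _ hv, hOmv _ _ hv, hOmv _ _ hv, add_zero]
      Om_neg := by
        intro x y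
        by_cases hx : x ∈ N
        · by_cases hy : y ∈ N
          · rw [hOmN _ hx _ hy, hOmN _ hy _ hx, cm_inv hcomm y x, map_inv]
            exact arg_inv_small _ (hsm y hy x hx)
          · rw [hOmv _ _ hy, hOmx _ _ hy, neg_zero]
        · rw [hOmx _ _ hx, hOmv _ _ hx, neg_zero]
      Om_exp := by
        intro x hx y hy
        rw [hOmN x hx y hy, Circle.exp_arg]
        rfl
      Om_center := by
        intro x hx z hz v
        by_cases hv : v ∈ N
        · rw [hOmN _ (hNcen x hx z hz) _ hv, hOmN _ hx _ hv, cm_mul, cm_center hcomm z v hz, mul_one]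
        · rw [hOmv _ _ hv, hOmv _ _ hv] }
  refine ⟨D, rfl, hNM, ?_, ?_⟩
  · refine h1.congr' ?_
    filter_upwards [prod_mem_prod hNM hNM] with p hp
    exact (hOmN _ hp.1 _ hp.2).symm
  · intro g hg
    have h3 : Tendsto (fun x : G => Complex.arg (χ (cm hcomm g x) : ℂ)) M (𝓝 0) := by
      refine arg_tendsto.comp (hχ1.comp ?_)
      rw [nhds_subtype_eq_comap, tendsto_comap_iff]
      exact hM.cont1 g
    have h4 := h3.neg
    rw [neg_zero] at h4
    refine h4.congr' ?_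
    filter_upwards [hNM] with x hx
    show _ = Om x g
    rw [hOmN x hx g hg, cm_inv hcomm g x, map_inv]
    exact (arg_inv_small _ (hsm g hg x hx)).symm

theorem exists_sigma (M : Filter G) (hM : Coarse M) (hZ : CompactSpace (Subgroup.center G))
    (z0 : Subgroup.center G) (hz0 : z0 ≠ 1) :
    ∃ S : Filter G, GF S ∧ 𝓝 1 ≤ S ∧ (∃ U ∈ S, (z0 : G) ∉ U) ∧
      ∀ F : Ultrafilter G, (F : Filter G) ≤ M →
        Tendsto (fun p : G × G => p.1⁻¹ * p.2) ((F : Filter G) ×ˢ (F : Filter G)) S := by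
  obtain ⟨χ, hχ, hχz⟩ : ∃ χ : Subgroup.center G →* Circle, Continuous χ ∧ χ z0 ≠ 1 := by
    obtain ⟨χ, hχ⟩ := Pool.LatH472.chars z0 hz0
    exact ⟨χ.toMonoidHom, χ.continuous_toFun, hχ⟩
  obtain ⟨D, hDch, hDN, hDOm, hDOm1⟩ := exists_LD M hM χ hχ
  have hle1 : 𝓝 (1 : G) ≤ M := hM.le
  obtain ⟨ψ, η, hη, hψm, hψc, hψt, hηz⟩ := D.quasi charSep (hle1 hDN)
    (hDOm.mono_left (Filter.prod_mono hle1 hle1)) (fun g hg => (hDOm1 g hg).mono_left hle1)
    (by rw [hDch]; exact hχ) z0 (by rw [hDch]; exact hχz)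
  have hη1 : Tendsto η (𝓝 1) (𝓝 1) := by
    have := hη.tendsto 1
    rwa [map_one] at this
  have hηe : Tendsto (fun r : ℝ => η (Circle.exp (r / 2))) (𝓝 0) (𝓝 1) := by
    have : Continuous (fun r : ℝ => η (Circle.exp (r / 2))) := by fun_prop
    simpa using this.tendsto 0
  have hψ1 : ψ 1 = 1 := by
    have := hψm 1 D.one_mem 1 D.one_mem (by rw [mul_one]; exact D.one_mem)
    rw [D.Om_self, zero_div, Circle.exp_zero, map_one, mul_one, mul_one] at this
    exact (mul_eq_left.1 this.symm)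
  have hψinv : ∀ x ∈ D.N, ψ x⁻¹ = (ψ x)⁻¹ := by
    intro x hx
    have := hψm x hx x⁻¹ (D.inv_mem x hx) (by rw [mul_inv_cancel]; exact D.one_mem)
    rw [mul_inv_cancel, hψ1, D.Om_neg, D.Om_inv x hx, D.Om_self, neg_zero, neg_zero, zero_div,
      Circle.exp_zero, map_one, mul_one] at this
    exact (inv_eq_of_mul_eq_one_right this.symm).symm
  set F : Filter G := M ⊓ comap ψ (𝓝 1) with hF
  have hFM : F ≤ M := inf_le_left
  have hFψ : Tendsto ψ F (𝓝 1) := tendsto_comap.mono_left inf_le_right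
  have htF : 𝓝 (1 : G) ≤ F := le_inf hle1 (map_le_iff_le_comap.1 hψt)
  refine ⟨F, ⟨le_trans (pure_le_nhds 1) htF, ?_, ?_, ?_⟩, htF, ?_, ?_⟩
  · rw [hF, tendsto_inf, tendsto_comap_iff]
    have h1 : Tendsto (fun p : G × G => p.1 * p.2) (F ×ˢ F) M :=
      hM.mul.mono_left (Filter.prod_mono hFM hFM)
    refine ⟨h1, ?_⟩
    have h2 : Tendsto (fun p : G × G => ψ p.1 * ψ p.2 * η (Circle.exp (D.Om p.1 p.2 / 2)))
        (F ×ˢ F) (𝓝 1) := by
      have := ((hFψ.comp tendsto_fst).mul (hFψ.comp tendsto_snd)).mul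
        (hηe.comp (hDOm.mono_left (Filter.prod_mono hFM hFM)))
      simpa using this
    refine h2.congr' ?_
    filter_upwards [prod_mem_prod (hFM hDN) (hFM hDN), h1 hDN] with p hp hp2
    exact (hψm p.1 hp.1 p.2 hp.2 hp2).symm
  · rw [hF, tendsto_inf, tendsto_comap_iff]
    refine ⟨hM.inv.mono_left hFM, ?_⟩
    have h2 : Tendsto (fun p : G => (ψ p)⁻¹) F (𝓝 1) := by
      have := hFψ.inv
      simpa using this
    refine h2.congr' ?_
    filter_upwards [hFM hDN] with p hp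
    exact (hψinv p hp).symm
  · intro g
    rw [hF, tendsto_inf, tendsto_comap_iff]
    refine ⟨(hM.conj g).mono_left hFM, ?_⟩
    have h3 : Tendsto (fun x : G => (g⁻¹⁻¹ * x⁻¹ * g⁻¹ * x)⁻¹) F (𝓝 1) := by
      have := ((hM.cont1 g⁻¹).mono_left hFM).inv
      simpa using this
    have hz : ∀ x : G, (g⁻¹⁻¹ * x⁻¹ * g⁻¹ * x)⁻¹ ∈ Subgroup.center G := fun x =>
      Subgroup.inv_mem _ (hM.comm g⁻¹ x)
    have h4 : Tendsto (fun x : G => (⟨_, hz x⟩ : Subgroup.center G)) F (𝓝 1) := by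
      rw [nhds_subtype_eq_comap, tendsto_comap_iff]
      exact h3
    have hc1 : Tendsto D.ch (𝓝 1) (𝓝 1) := by
      rw [hDch]
      have := hχ.tendsto 1
      rwa [map_one] at this
    have h5 : Tendsto (fun x : G => ψ x * η (D.ch ⟨_, hz x⟩)) F (𝓝 1) := by
      have := hFψ.mul (hη1.comp (hc1.comp h4))
      simpa using this
    refine h5.congr' ?_
    filter_upwards [hFM hDN] with x hx
    show _ = ψ (g * x * g⁻¹)
    rw [← hψc x hx]
    congr 1
    show x * (g⁻¹⁻¹ * x⁻¹ * g⁻¹ * x)⁻¹ = g * x * g⁻¹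
    group
  · refine ⟨ψ ⁻¹' {η (D.ch z0)}ᶜ, ?_, ?_⟩
    · exact hFψ (isOpen_compl_singleton.mem_nhds hηz.symm)
    · have h1 := hψc 1 D.one_mem z0
      rw [one_mul, hψ1, one_mul] at h1
      intro h
      exact h h1
  · intro Φ hΦ
    rw [hF, tendsto_inf, tendsto_comap_iff]
    have h1 : Tendsto (fun p : G × G => p.1⁻¹ * p.2) ((Φ : Filter G) ×ˢ (Φ : Filter G)) M :=
      hM.mul.comp (((hM.inv.mono_left hΦ).comp tendsto_fst).prodMk
        (tendsto_id.mono_left hΦ |>.comp tendsto_snd))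
    refine ⟨h1, ?_⟩
    obtain ⟨l, -, hl⟩ := isCompact_iff_ultrafilter_le_nhds.1
      (isCompact_univ : IsCompact (Set.univ : Set Circle)) (Φ.map ψ) (by simp)
    have hl' : Tendsto ψ Φ (𝓝 l) := hl
    have h2 : Tendsto (fun p : G × G => (ψ p.1)⁻¹ * ψ p.2 * η (Circle.exp (-(D.Om p.1 p.2) / 2)))
        ((Φ : Filter G) ×ˢ (Φ : Filter G)) (𝓝 1) := by
      have h3 : Tendsto (fun p : G × G => -(D.Om p.1 p.2)) ((Φ : Filter G) ×ˢ (Φ : Filter G))
          (𝓝 0) := by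
        have := (hDOm.mono_left (Filter.prod_mono hΦ hΦ)).neg
        simpa using this
      have := ((hl'.comp tendsto_fst).inv.mul (hl'.comp tendsto_snd)).mul (hηe.comp h3)
      simpa using this
    refine h2.congr' ?_
    filter_upwards [prod_mem_prod (hΦ hDN) (hΦ hDN), h1 hDN] with p hp hp2
    show _ = ψ (p.1⁻¹ * p.2)
    rw [hψm p.1⁻¹ (D.inv_mem _ hp.1) p.2 hp.2 hp2, hψinv p.1 hp.1, D.Om_inv p.1 hp.1]

/-- Theorem A -/
theorem thmA (hmin : IsMinimalGroup G) (M : Filter G) (hM : Coarse M)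
    (V : Set G) (hV : V ∈ 𝓝 (1 : G)) :
    {g : G | ∃ v ∈ V, ∃ z ∈ Subgroup.center G, g = v * z} ∈ M := by
  have hZ : CompactSpace (Subgroup.center G) := center_compact hmin
  choose S hS hτS hSs hSc using exists_sigma M hM hZ
  have hle1 : 𝓝 (1 : G) ≤ M := hM.le
  let I := {z : Subgroup.center G // z ≠ 1}
  set P : Filter G := M ⊓ ⨅ z : I, S z.1 z.2 with hP
  have hPM : P ≤ M := inf_le_left
  have hPS : ∀ z : I, P ≤ S z.1 z.2 := fun z => inf_le_right.trans (iInf_le _ z)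
  have htP : 𝓝 (1 : G) ≤ P := le_inf hle1 (le_iInf fun z => hτS z.1 z.2)
  have hPG : GF P := by
    refine ⟨le_trans (pure_le_nhds 1) htP, ?_, ?_, ?_⟩
    · rw [hP, tendsto_inf, tendsto_iInf]
      exact ⟨hM.mul.mono_left (Filter.prod_mono hPM hPM), fun z =>
        (hS z.1 z.2).mul.mono_left (Filter.prod_mono (hPS z) (hPS z))⟩
    · rw [hP, tendsto_inf, tendsto_iInf]
      exact ⟨hM.inv.mono_left hPM, fun z => (hS z.1 z.2).inv.mono_left (hPS z)⟩
    · intro g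
      rw [hP, tendsto_inf, tendsto_iInf]
      exact ⟨(hM.conj g).mono_left hPM, fun z => ((hS z.1 z.2).conj g).mono_left (hPS z)⟩
  have hPsep : ∀ g : G, g ≠ 1 → ∃ U ∈ P, g ∉ U := by
    intro g hg
    by_cases hgZ : g ∈ Subgroup.center G
    · have hne : (⟨g, hgZ⟩ : Subgroup.center G) ≠ 1 := fun h => hg (congrArg Subtype.val h)
      obtain ⟨U, hU, hgU⟩ := hSs ⟨g, hgZ⟩ hne
      exact ⟨U, hPS ⟨⟨g, hgZ⟩, hne⟩ hU, hgU⟩
    · obtain ⟨U, hU, hgU⟩ := hM.sep g hgZ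
      exact ⟨U, hPM hU, hgU⟩
  have hPn : 𝓝 (1 : G) = P := by
    obtain ⟨ρ, hρg, hρ1⟩ := exists_group_topology P hPG.one hPG.mul hPG.inv hPG.conj
    have hρ2 : @T2Space G ρ := by
      refine @IsTopologicalGroup.t2Space_of_one_sep G ρ _ hρg ?_
      rw [hρ1]
      exact hPsep
    have hρτ : ρ = τ := hmin ρ hρg hρ2 (le_of_nhds_one_le hτ hρg (by rw [hρ1]; exact htP))
    rw [← hρ1, hρτ]
  rw [mem_iff_ultrafilter]
  intro Φ hΦ
  have hcau : Tendsto (fun p : G × G => p.1⁻¹ * p.2) ((Φ : Filter G) ×ˢ (Φ : Filter G))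
      (𝓝 1) := by
    rw [hPn, hP, tendsto_inf, tendsto_iInf]
    refine ⟨?_, fun z => hSc z.1 z.2 Φ hΦ⟩
    exact hM.mul.comp (((hM.inv.mono_left hΦ).comp tendsto_fst).prodMk
        (tendsto_id.mono_left hΦ |>.comp tendsto_snd))
  obtain ⟨g1, hg1⟩ := conv_of_cauchy Φ hcau
  have h4 : Tendsto (fun a : G => g1⁻¹ * a) Φ (𝓝 1) := by
    have hc : Continuous (fun a : G => g1⁻¹ * a) := by fun_prop
    have h2 := (hc.tendsto g1).mono_left hg1
    rwa [inv_mul_cancel] at h2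
  have hg1Z : g1 ∈ Subgroup.center G := by
    by_contra hcon
    obtain ⟨U, hU, hgU⟩ := hM.sep g1 hcon
    have h1 : Tendsto (fun a : G => g1⁻¹ * a) Φ M := h4.mono_right hle1
    have h2 : Tendsto (fun a : G => a * (g1⁻¹ * a)⁻¹) Φ M :=
      hM.mul.comp ((tendsto_id.mono_left hΦ).prodMk (hM.inv.comp h1))
    have h3 : ∀ᶠ a in (Φ : Filter G), a * (g1⁻¹ * a)⁻¹ ∈ U := h2 hU
    obtain ⟨a, ha⟩ := h3.exists
    apply hgU
    have e : a * (g1⁻¹ * a)⁻¹ = g1 := by group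
    rwa [e] at ha
  refine mem_of_superset (h4 hV) ?_
  intro a ha
  refine ⟨g1⁻¹ * a, ha, g1, hg1Z, ?_⟩
  rw [Subgroup.mem_center_iff.1 hg1Z]
  group

end main

end Pool.Agent.R508.DAC
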