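import Mathlib
import Pool.Agent.R508.DACMain

set_option autoImplicit false

/-! Products of locally compact minimal groups of class two
(helper508, MP_dac110_gt; proof by helper822). -/

open Filter Topology

namespace Pool.Agent.R508.DAC

universe u v

section prod

variable {I : Type v} {G : I → Type u} [∀ i, Group (G i)] [∀ i, TopologicalSpace (G i)]
  [∀ i, IsTopologicalGroup (G i)] [∀ i, T2Space (G i)] [∀ i, LocallyCompactSpace (G i)]

omit [∀ i, TopologicalSpace (G i)] [∀ i, IsTopologicalGroup (G i)] [∀ i, T2Space (G i)]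
  [∀ i, LocallyCompactSpace (G i)] in
theorem mem_center_pi (c : ∀ i, G i) :
    c ∈ Subgroup.center (∀ i, G i) ↔ ∀ i, c i ∈ Subgroup.center (G i) := by
  classical
  constructor
  · intro h i
    rw [Subgroup.mem_center_iff] at h ⊢
    intro g
    have := congrFun (h (Pi.mulSingle i g)) i
    simpa using this
  · intro h
    rw [Subgroup.mem_center_iff]
    intro g
    funext i
    exact Subgroup.mem_center_iff.1 (h i) (g i)

theorem center_lemma (hmin : ∀ i, IsMinimalGroup (G i)) (σ : TopologicalSpace (∀ i, G i))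
    (hσ2 : @T2Space _ σ) (hle : Pi.topologicalSpace ≤ σ) (T : Set (∀ i, G i))
    (hT : T ∈ @nhds _ Pi.topologicalSpace (1 : ∀ i, G i)) :
    ∃ W ∈ @nhds _ σ (1 : ∀ i, G i), ∀ c ∈ W, c ∈ Subgroup.center (∀ i, G i) → c ∈ T := by
  have hZ : ∀ i, CompactSpace (Subgroup.center (G i)) := fun i => center_compact (hmin i)
  have hK0 : @IsCompact _ Pi.topologicalSpace (Set.univ.pi fun i => (Subgroup.center (G i) : Set (G i))) :=
    isCompact_univ_pi fun i => isCompact_iff_compactSpace.2 (hZ i)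
  set T' := @interior _ Pi.topologicalSpace T with hT'
  have hT'o : @IsOpen _ Pi.topologicalSpace T' := @isOpen_interior _ Pi.topologicalSpace T
  have hK : @IsCompact _ Pi.topologicalSpace
      ((Set.univ.pi fun i => (Subgroup.center (G i) : Set (G i))) \ T') :=
    @IsCompact.diff _ Pi.topologicalSpace _ _ hK0 hT'o
  have hKσ : @IsCompact _ σ ((Set.univ.pi fun i => (Subgroup.center (G i) : Set (G i))) \ T') := by
    have := @IsCompact.image _ _ Pi.topologicalSpace σ _ id hK (continuous_id_of_le hle)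
    rwa [Set.image_id] at this
  have hcl := @IsCompact.isClosed _ σ hσ2 _ hKσ
  refine ⟨_, mem_nhds_of σ (@IsClosed.isOpen_compl _ σ _ hcl) ?_, ?_⟩
  · intro h
    exact h.2 ((@mem_interior_iff_mem_nhds _ Pi.topologicalSpace _ _).2 hT)
  · intro c hc hcZ
    by_contra hcT
    apply hc
    refine ⟨fun i _ => (mem_center_pi c).1 hcZ i, fun h => hcT ?_⟩
    exact @interior_subset _ Pi.topologicalSpace T _ h

/-- the filter on a factor -/
def fac (S : Filter (∀ i, G i)) (j : I) : Filter (G j) :=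
  map (fun p : (∀ i, G i) × Subgroup.center (G j) => p.1 j * (p.2 : G j)) (S ×ˢ ⊤)

omit [∀ i, TopologicalSpace (G i)] [∀ i, IsTopologicalGroup (G i)] [∀ i, T2Space (G i)]
  [∀ i, LocallyCompactSpace (G i)] in
theorem mem_fac (S : Filter (∀ i, G i)) (j : I) (U : Set (G j)) :
    U ∈ fac S j ↔ ∃ O ∈ S, ∀ o ∈ O, ∀ z ∈ Subgroup.center (G j), o j * z ∈ U := by
  rw [fac, mem_map, mem_prod_iff]
  constructor
  · rintro ⟨O, hO, T, hT, h⟩
    refine ⟨O, hO, fun o ho z hz => ?_⟩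
    rw [mem_top] at hT
    exact h (Set.mk_mem_prod ho (by rw [hT]; trivial : (⟨z, hz⟩ : Subgroup.center (G j)) ∈ T))
  · rintro ⟨O, hO, h⟩
    refine ⟨O, hO, Set.univ, univ_mem, ?_⟩
    rintro ⟨o, z⟩ ⟨ho, -⟩
    exact h o ho z z.2

theorem coarse_fac (hmin : ∀ i, IsMinimalGroup (G i))
    (hnil : ∀ i, ∀ x y : G i, x⁻¹ * y⁻¹ * x * y ∈ Subgroup.center (G i))
    (σ : TopologicalSpace (∀ i, G i)) (hσ : @IsTopologicalGroup _ σ _)
    (hσ2 : @T2Space _ σ) (hle : Pi.topologicalSpace ≤ σ) (j : I) :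
    Coarse (fac (@nhds _ σ (1 : ∀ i, G i)) j) := by
  classical
  have hcl := center_lemma hmin σ hσ2 hle
  have hmul : Tendsto (fun p : (∀ i, G i) × (∀ i, G i) => p.1 * p.2)
    (@nhds _ σ (1 : ∀ i, G i) ×ˢ @nhds _ σ (1 : ∀ i, G i)) (@nhds _ σ (1 : ∀ i, G i)) :=
    @tendsto_mul_one _ _ σ hσ
  have hinv : Tendsto (fun p : (∀ i, G i) => p⁻¹) (@nhds _ σ (1 : ∀ i, G i))
      (@nhds _ σ (1 : ∀ i, G i)) := @tendsto_inv_one _ _ σ hσ
  have hconj : ∀ g : (∀ i, G i), Tendsto (fun p : (∀ i, G i) => g * p * g⁻¹)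
      (@nhds _ σ (1 : ∀ i, G i)) (@nhds _ σ (1 : ∀ i, G i)) := @tendsto_conj_one _ _ σ hσ
  have hone : ∀ O ∈ @nhds _ σ (1 : ∀ i, G i), (1 : ∀ i, G i) ∈ O := fun O hO =>
    @mem_of_mem_nhds _ σ _ _ hO
  have hsep : ∀ g : (∀ i, G i), g ≠ 1 → ∃ U ∈ @nhds _ σ (1 : ∀ i, G i), g ∉ U := by
    intro g hg
    obtain ⟨U, U', hU, hU', h1U, hgU, hd⟩ := @t2_separation _ σ hσ2 _ _ hg.symm
    exact ⟨U, mem_nhds_of σ hU h1U, fun h => Set.disjoint_left.1 hd h hgU⟩
  have hpile : @nhds _ Pi.topologicalSpace (1 : ∀ i, G i) ≤ @nhds _ σ (1 : ∀ i, G i) :=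
    nhds_mono hle
  set S := @nhds _ σ (1 : ∀ i, G i) with hS
  have hnilP : ∀ x y : (∀ i, G i), x⁻¹ * y⁻¹ * x * y ∈ Subgroup.center (∀ i, G i) := by
    intro x y
    rw [mem_center_pi]
    intro i
    exact hnil i (x i) (y i)
  have hcomm1 : ∀ h : (∀ i, G i), Tendsto (fun o => h⁻¹ * o⁻¹ * h * o) S S := by
    intro h
    have h1 : Tendsto (fun o : (∀ i, G i) => (h⁻¹ * o⁻¹ * h⁻¹⁻¹) * o) S S :=
      hmul.comp (((hconj h⁻¹).comp hinv).prodMk tendsto_id)
    simpa using h1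
  have hcomm2 : Tendsto (fun p : (∀ i, G i) × (∀ i, G i) => p.1⁻¹ * p.2⁻¹ * p.1 * p.2)
      (S ×ˢ S) S := by
    have h1 : Tendsto (fun p : (∀ i, G i) × (∀ i, G i) => p.1⁻¹ * p.2⁻¹) (S ×ˢ S) S :=
      hmul.comp ((hinv.comp tendsto_fst).prodMk (hinv.comp tendsto_snd))
    have h2 : Tendsto (fun p : (∀ i, G i) × (∀ i, G i) => (p.1⁻¹ * p.2⁻¹) * (p.1 * p.2)) (S ×ˢ S) S :=
      hmul.comp (h1.prodMk hmul)
    simpa [mul_assoc] using h2
  refine { one := ?_, mul := ?_, inv := ?_, conj := ?_, le := ?_, comm := hnil j, cen := ?_,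
           sep := ?_, cont := ?_, cont1 := ?_ }
  · intro U hU
    obtain ⟨O, hO, h⟩ := (mem_fac S j U).1 hU
    have := h 1 (hone O hO) 1 (Subgroup.one_mem _)
    simpa using this
  · intro U hU
    obtain ⟨O, hO, h⟩ := (mem_fac S j U).1 hU
    obtain ⟨O1, hO1, O2, hO2, hOO⟩ := mem_prod_iff.1 (hmul hO)
    rw [mem_map, mem_prod_iff]
    refine ⟨{x | ∃ o ∈ O1, ∃ z ∈ Subgroup.center (G j), o j * z = x}, (mem_fac S j _).2 ⟨O1, hO1,
      fun o ho z hz => ⟨o, ho, z, hz, rfl⟩⟩, {x | ∃ o ∈ O2, ∃ z ∈ Subgroup.center (G j), o j * z = x},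
      (mem_fac S j _).2 ⟨O2, hO2, fun o ho z hz => ⟨o, ho, z, hz, rfl⟩⟩, ?_⟩
    rintro ⟨x, y⟩ ⟨⟨o, ho, z, hz, rfl⟩, ⟨o', ho', z', hz', rfl⟩⟩
    have e : o j * z * (o' j * z') = (o * o') j * (z * z') := by
      have h1 := Subgroup.mem_center_iff.1 hz (o' j)
      rw [Pi.mul_apply, mul_assoc (o j), ← mul_assoc z, ← h1]
      group
    show o j * z * (o' j * z') ∈ U
    rw [e]
    exact h _ (hOO (Set.mk_mem_prod ho ho')) _ (Subgroup.mul_mem _ hz hz')
  · intro U hU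
    obtain ⟨O, hO, h⟩ := (mem_fac S j U).1 hU
    rw [mem_map, mem_fac]
    refine ⟨_, hinv hO, fun o ho z hz => ?_⟩
    have e : (o j * z)⁻¹ = (o⁻¹) j * z⁻¹ := by
      rw [mul_inv_rev, Pi.inv_apply]
      exact (Subgroup.mem_center_iff.1 (Subgroup.inv_mem _ hz) _).symm
    show (o j * z)⁻¹ ∈ U
    rw [e]
    exact h _ ho _ (Subgroup.inv_mem _ hz)
  · intro g U hU
    obtain ⟨O, hO, h⟩ := (mem_fac S j U).1 hU
    rw [mem_map, mem_fac]
    refine ⟨_, (hconj (Pi.mulSingle j g)) hO, fun o ho z hz => ?_⟩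
    have e : g * (o j * z) * g⁻¹
        = (Pi.mulSingle j g * o * (Pi.mulSingle j g)⁻¹ : ∀ i, G i) j * z := by
      have h1 := Subgroup.mem_center_iff.1 hz g⁻¹
      simp only [Pi.mul_apply, Pi.inv_apply, Pi.mulSingle_eq_same]
      rw [mul_assoc g, mul_assoc (o j), ← h1]
      group
    show g * (o j * z) * g⁻¹ ∈ U
    rw [e]
    exact h _ ho _ hz
  · intro U hU
    obtain ⟨O, hO, h⟩ := (mem_fac S j U).1 hU
    have h1 : Tendsto (fun x : G j => (Pi.mulSingle j x : ∀ i, G i)) (𝓝 1)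
        (@nhds _ Pi.topologicalSpace (1 : ∀ i, G i)) := by
      have hc : @Continuous _ _ _ Pi.topologicalSpace (fun x : G j => (Pi.mulSingle j x : ∀ i, G i)) :=
        continuous_mulSingle j
      have := @Continuous.tendsto _ _ _ Pi.topologicalSpace _ hc 1
      simpa using this
    refine mem_of_superset (h1 (hpile hO)) ?_
    intro x hx
    have := h _ hx 1 (Subgroup.one_mem _)
    simpa using this
  · intro z hz U hU
    obtain ⟨O, hO, h⟩ := (mem_fac S j U).1 hU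
    have := h 1 (hone O hO) z hz
    simpa using this
  · intro g hg
    rw [Subgroup.mem_center_iff] at hg
    push Not at hg
    obtain ⟨h, hh⟩ := hg
    have hne : (Pi.mulSingle j (h⁻¹ * g⁻¹ * h * g) : ∀ i, G i) ≠ 1 := by
      intro hc
      have := congrFun hc j
      simp only [Pi.mulSingle_eq_same, Pi.one_apply] at this
      apply hh
      have e : h * g = g * h * (h⁻¹ * g⁻¹ * h * g) := by group
      rw [e, this, mul_one]
    obtain ⟨W, hW, hcW⟩ := hsep _ hne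
    refine ⟨{x | ∃ o, (Pi.mulSingle j h)⁻¹ * o⁻¹ * (Pi.mulSingle j h) * o ∈ W ∧
      ∃ z ∈ Subgroup.center (G j), o j * z = x}, (mem_fac S j _).2 ⟨_, hcomm1 (Pi.mulSingle j h) hW,
      fun o ho z hz => ⟨o, ho, z, hz, rfl⟩⟩, ?_⟩
    rintro ⟨o, ho, z, hz, hoz⟩
    apply hcW
    convert ho using 1
    funext i
    by_cases hij : i = j
    · subst hij
      simp only [Pi.mul_apply, Pi.inv_apply, Pi.mulSingle_eq_same]
      rw [← hoz]
      have h1 := Subgroup.mem_center_iff.1 hz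
      have h2 := Subgroup.mem_center_iff.1 (Subgroup.inv_mem _ hz)
      calc h⁻¹ * (o i * z)⁻¹ * h * (o i * z) = h⁻¹ * z⁻¹ * (o i)⁻¹ * (h * o i * z) := by group
        _ = h⁻¹ * z⁻¹ * (o i)⁻¹ * (z * (h * o i)) := by rw [h1]
        _ = h⁻¹ * ((z⁻¹ * (o i)⁻¹) * z) * (h * o i) := by group
        _ = h⁻¹ * (((o i)⁻¹ * z⁻¹) * z) * (h * o i) := by rw [← h2]
        _ = _ := by group
    · simp [Pi.mulSingle_eq_of_ne hij]
  · intro V hV
    have hT : (fun c : (∀ i, G i) => c j) ⁻¹' V ∈ @nhds _ Pi.topologicalSpace (1 : ∀ i, G i) := by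
      have hc : @Continuous _ _ Pi.topologicalSpace _ (fun c : (∀ i, G i) => c j) :=
        continuous_apply j
      have ht := @Continuous.tendsto _ _ Pi.topologicalSpace _ _ hc 1
      exact ht hV
    obtain ⟨W, hW, hWT⟩ := hcl _ hT
    obtain ⟨O1, hO1, O2, hO2, hOO⟩ := mem_prod_iff.1 (hcomm2 hW)
    rw [mem_map, mem_prod_iff]
    refine ⟨{x | ∃ o ∈ O1, ∃ z ∈ Subgroup.center (G j), o j * z = x}, (mem_fac S j _).2 ⟨O1, hO1,
      fun o ho z hz => ⟨o, ho, z, hz, rfl⟩⟩, {x | ∃ o ∈ O2, ∃ z ∈ Subgroup.center (G j), o j * z = x},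
      (mem_fac S j _).2 ⟨O2, hO2, fun o ho z hz => ⟨o, ho, z, hz, rfl⟩⟩, ?_⟩
    rintro ⟨x, y⟩ ⟨⟨o, ho, z, hz, rfl⟩, ⟨o', ho', z', hz', rfl⟩⟩
    have h3 := hWT _ (hOO (Set.mk_mem_prod ho ho')) (hnilP o o')
    show (o j * z)⁻¹ * (o' j * z')⁻¹ * (o j * z) * (o' j * z') ∈ V
    have e : (o j * z)⁻¹ * (o' j * z')⁻¹ * (o j * z) * (o' j * z')
        = (o⁻¹ * o'⁻¹ * o * o' : ∀ i, G i) j := by
      have e1 := congrArg Subtype.val (cm_mul (hnil j) (o j) z (o' j * z'))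
      have e2 := congrArg Subtype.val (cm_center (hnil j) z (o' j * z') hz)
      have e3 := congrArg Subtype.val (cm_inv (hnil j) (o' j * z') (o j))
      have e4 := congrArg Subtype.val (cm_mul (hnil j) (o' j) z' (o j))
      have e5 := congrArg Subtype.val (cm_center (hnil j) z' (o j) hz')
      have e6 := congrArg Subtype.val (cm_inv (hnil j) (o' j) (o j))
      simp only [Subgroup.coe_mul, Subgroup.coe_inv, Subgroup.coe_one, cm] at e1 e2 e3 e4 e5 e6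
      rw [e1, e2, mul_one, e3, e4, e5, mul_one]
      rw [Pi.mul_apply, Pi.mul_apply, Pi.mul_apply, Pi.inv_apply, Pi.inv_apply]
      rw [e6]
    rw [e]
    exact h3
  · intro g V hV
    have hT : (fun c : (∀ i, G i) => c j) ⁻¹' V ∈ @nhds _ Pi.topologicalSpace (1 : ∀ i, G i) := by
      have hc : @Continuous _ _ Pi.topologicalSpace _ (fun c : (∀ i, G i) => c j) :=
        continuous_apply j
      have ht := @Continuous.tendsto _ _ Pi.topologicalSpace _ _ hc 1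
      exact ht hV
    obtain ⟨W, hW, hWT⟩ := hcl _ hT
    rw [mem_map, mem_fac]
    refine ⟨_, hcomm1 (Pi.mulSingle j g) hW, fun o ho z hz => ?_⟩
    have h3 := hWT _ ho (hnilP (Pi.mulSingle j g) o)
    show g⁻¹ * (o j * z)⁻¹ * g * (o j * z) ∈ V
    have h4 : g⁻¹ * (o j)⁻¹ * g * (o j) ∈ V := by
      have : ((Pi.mulSingle j g)⁻¹ * o⁻¹ * (Pi.mulSingle j g) * o : ∀ i, G i) j ∈ V := h3
      simpa using this
    have e : g⁻¹ * (o j * z)⁻¹ * g * (o j * z) = g⁻¹ * (o j)⁻¹ * g * (o j) := by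
      have h1 := Subgroup.mem_center_iff.1 hz
      have h2 := Subgroup.mem_center_iff.1 (Subgroup.inv_mem _ hz)
      calc g⁻¹ * (o j * z)⁻¹ * g * (o j * z) = g⁻¹ * z⁻¹ * (o j)⁻¹ * (g * o j * z) := by group
        _ = g⁻¹ * z⁻¹ * (o j)⁻¹ * (z * (g * o j)) := by rw [h1]
        _ = g⁻¹ * ((z⁻¹ * (o j)⁻¹) * z) * (g * o j) := by group
        _ = g⁻¹ * (((o j)⁻¹ * z⁻¹) * z) * (g * o j) := by rw [← h2]
        _ = _ := by group
    rw [e]
    exact h4

/-- the product theorem -/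
theorem prod_minimal (hmin : ∀ i, IsMinimalGroup (G i))
    (hnil : ∀ i, ∀ x y : G i, x⁻¹ * y⁻¹ * x * y ∈ Subgroup.center (G i)) :
    IsMinimalGroup (∀ i, G i) := by
  classical
  intro σ hσ hσ2 hle
  have hcl := center_lemma hmin σ hσ2 hle
  have hco := coarse_fac hmin hnil σ hσ hσ2 hle
  have hmul : Tendsto (fun p : (∀ i, G i) × (∀ i, G i) => p.1 * p.2)
    (@nhds _ σ (1 : ∀ i, G i) ×ˢ @nhds _ σ (1 : ∀ i, G i)) (@nhds _ σ (1 : ∀ i, G i)) :=
    @tendsto_mul_one _ _ σ hσ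
  have hinv : Tendsto (fun p : (∀ i, G i) => p⁻¹) (@nhds _ σ (1 : ∀ i, G i))
      (@nhds _ σ (1 : ∀ i, G i)) := @tendsto_inv_one _ _ σ hσ
  have hpile : @nhds _ Pi.topologicalSpace (1 : ∀ i, G i) ≤ @nhds _ σ (1 : ∀ i, G i) :=
    nhds_mono hle
  have hpig : @IsTopologicalGroup (∀ i, G i) Pi.topologicalSpace _ := Pi.topologicalGroup
  have hpmul : Tendsto (fun p : (∀ i, G i) × (∀ i, G i) => p.1 * p.2)
    (@nhds _ Pi.topologicalSpace (1 : ∀ i, G i) ×ˢ @nhds _ Pi.topologicalSpace (1 : ∀ i, G i))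
      (@nhds _ Pi.topologicalSpace (1 : ∀ i, G i)) :=
    @tendsto_mul_one _ _ Pi.topologicalSpace hpig
  set S := @nhds _ σ (1 : ∀ i, G i) with hS
  have hB : ∀ V ∈ @nhds _ Pi.topologicalSpace (1 : ∀ i, G i),
      {g : ∀ i, G i | ∃ v ∈ V, ∃ z ∈ Subgroup.center (∀ i, G i), g = v * z} ∈ S := by
    intro V hV
    rw [nhds_pi, Filter.mem_pi] at hV
    obtain ⟨F, hF, t, ht, hFt⟩ := hV
    have h1 : ∀ i, ∃ O ∈ S, ∀ o ∈ O, ∃ v ∈ t i, ∃ z ∈ Subgroup.center (G i), o i = v * z := by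
      intro i
      have := thmA (hmin i) _ (hco i) (t i) (ht i)
      obtain ⟨O, hO, h⟩ := (mem_fac S i _).1 this
      refine ⟨O, hO, fun o ho => ?_⟩
      have := h o ho 1 (Subgroup.one_mem _)
      rwa [mul_one] at this
    choose O hO hO2 using h1
    refine mem_of_superset ((biInter_mem hF).2 fun i _ => hO i) ?_
    intro o ho
    rw [Set.mem_iInter₂] at ho
    have h2 : ∀ i, ∃ v z : G i, z ∈ Subgroup.center (G i) ∧ o i = v * z ∧ (i ∈ F → v ∈ t i) := by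
      intro i
      by_cases hi : i ∈ F
      · obtain ⟨v, hv, z, hz, h⟩ := hO2 i o (ho i hi)
        exact ⟨v, z, hz, h, fun _ => hv⟩
      · exact ⟨o i, 1, Subgroup.one_mem _, (mul_one _).symm, fun h => absurd h hi⟩
    choose v z hz hvz hv using h2
    exact ⟨v, hFt fun i hi => hv i hi, z, (mem_center_pi z).2 hz, funext hvz⟩
  refine le_antisymm (le_of_nhds_one_le hσ hpig ?_) hle
  intro V hV
  obtain ⟨V1, hV1, V2, hV2, hVV⟩ := mem_prod_iff.1 (hpmul hV)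
  obtain ⟨O, hO, hOc⟩ := hcl V2 hV2
  have hinvmul : Tendsto (fun p : (∀ i, G i) × (∀ i, G i) => p.1⁻¹ * p.2) (S ×ˢ S) S :=
    hmul.comp ((hinv.comp tendsto_fst).prodMk tendsto_snd)
  obtain ⟨O1, hO1, O2, hO2, hOO⟩ := mem_prod_iff.1 (hinvmul hO)
  refine mem_of_superset (inter_mem hO2 (hB _ (inter_mem hV1 (hpile hO1)))) ?_
  rintro g ⟨hg2, v, ⟨hv1, hvO⟩, z, hz, rfl⟩
  have h1 : v⁻¹ * (v * z) ∈ O := hOO (Set.mk_mem_prod hvO hg2)
  rw [inv_mul_cancel_left] at h1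
  exact hVV (Set.mk_mem_prod hv1 (hOc z h1 hz))

end prod

end Pool.Agent.R508.DAC
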