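import Mathlib

set_option autoImplicit false

/-! Expectation over a random subset with independent elements; the Efron-Stein inequality
(helper508, MP_0d5181_co). -/

open Finset

namespace Pool.Agent.R508.FD

variable {V : Type*} [DecidableEq V]

/-- expectation of `f S`, where `S` is a random subset of the (duplicate free) list, containing the
element `x` with probability `a x`, independently -/
noncomputable def EE (a : V → ℝ) : List V → (Finset V → ℝ) → ℝ
  | [], f => f ∅
  | x :: l, f => a x * EE a l (fun S => f (insert x S)) + (1 - a x) * EE a l f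

variable {a : V → ℝ}

theorem EE_add (l : List V) : ∀ f g : Finset V → ℝ,
    EE a l (fun S => f S + g S) = EE a l f + EE a l g := by
  induction l with
  | nil => intro f g; rfl
  | cons x l ih => intro f g; simp only [EE]; rw [ih, ih]; ring

theorem EE_smul (l : List V) (c : ℝ) : ∀ f : Finset V → ℝ,
    EE a l (fun S => c * f S) = c * EE a l f := by
  induction l with
  | nil => intro f; rfl
  | cons x l ih => intro f; simp only [EE]; rw [ih, ih]; ring

theorem EE_const (l : List V) (c : ℝ) : EE a l (fun _ => c) = c := by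
  induction l with
  | nil => rfl
  | cons x l ih => simp only [EE]; rw [ih]; ring

theorem EE_sub (l : List V) (f g : Finset V → ℝ) :
    EE a l (fun S => f S - g S) = EE a l f - EE a l g := by
  have h1 := EE_add (a := a) l f (fun S => (-1) * g S)
  rw [EE_smul] at h1
  have h2 : (fun S => f S - g S) = fun S => f S + (-1) * g S := by funext S; ring
  rw [h2, h1]; ring

theorem EE_sum {ι : Type*} (l : List V) (s : Finset ι) (f : ι → Finset V → ℝ) :
    EE a l (fun S => ∑ i ∈ s, f i S) = ∑ i ∈ s, EE a l (f i) := by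
  classical
  induction s using Finset.induction_on with
  | empty => simp only [Finset.sum_empty]; exact EE_const l 0
  | insert i s hi ih =>
    simp only [Finset.sum_insert hi]
    rw [EE_add, ih]

theorem EE_mono (l : List V) (ha : ∀ x ∈ l, 0 ≤ a x ∧ a x ≤ 1) : ∀ f g : Finset V → ℝ,
    (∀ S : Finset V, (∀ x ∈ S, x ∈ l) → f S ≤ g S) → EE a l f ≤ EE a l g := by
  induction l with
  | nil => intro f g h; exact h ∅ (by simp)
  | cons x l ih =>
    intro f g h
    simp only [EE]
    have hx := ha x (by simp)
    have ha' : ∀ y ∈ l, 0 ≤ a y ∧ a y ≤ 1 := fun y hy => ha y (by simp [hy])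
    refine add_le_add (mul_le_mul_of_nonneg_left (ih ha' _ _ fun S hS => h _ ?_) hx.1)
      (mul_le_mul_of_nonneg_left (ih ha' _ _ fun S hS => h _ ?_) (by linarith [hx.2]))
    · intro y hy
      rcases Finset.mem_insert.1 hy with rfl | hy
      · simp
      · simp [hS y hy]
    · intro y hy
      simp [hS y hy]

theorem EE_congr (l : List V) (ha : ∀ x ∈ l, 0 ≤ a x ∧ a x ≤ 1) (f g : Finset V → ℝ)
    (h : ∀ S : Finset V, (∀ x ∈ S, x ∈ l) → f S = g S) : EE a l f = EE a l g :=
  le_antisymm (EE_mono l ha f g fun S hS => (h S hS).le)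
    (EE_mono l ha g f fun S hS => (h S hS).ge)

theorem EE_exists (l : List V) (ha : ∀ x ∈ l, 0 ≤ a x ∧ a x ≤ 1) (f : Finset V → ℝ) (c : ℝ)
    (h : EE a l f < c) : ∃ S : Finset V, (∀ x ∈ S, x ∈ l) ∧ f S < c := by
  by_contra hc
  push Not at hc
  have := EE_mono l ha (fun _ => c) f hc
  rw [EE_const] at this
  linarith

/-- probability that `T ⊆ S` -/
theorem EE_subset (l : List V) (hl : l.Nodup) (ha : ∀ x ∈ l, 0 ≤ a x ∧ a x ≤ 1) :
    ∀ T : Finset V, (∀ x ∈ T, x ∈ l) →
      EE a l (fun S => if T ⊆ S then 1 else 0) = ∏ x ∈ T, a x := by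
  induction l with
  | nil =>
    intro T hT
    have : T = ∅ := Finset.eq_empty_of_forall_notMem fun x hx => by simpa using hT x hx
    subst this
    simp [EE]
  | cons x l ih =>
    intro T hT
    have hx : x ∉ l := (List.nodup_cons.1 hl).1
    have hl' : l.Nodup := (List.nodup_cons.1 hl).2
    have ha' : ∀ y ∈ l, 0 ≤ a y ∧ a y ≤ 1 := fun y hy => ha y (by simp [hy])
    simp only [EE]
    by_cases hxT : x ∈ T
    · have h1 : EE a l (fun S => if T ⊆ insert x S then (1 : ℝ) else 0)
          = ∏ y ∈ T.erase x, a y := by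
        rw [← ih hl' ha' (T.erase x) fun y hy => by
          have h := hT y (Finset.mem_of_mem_erase hy)
          rcases List.mem_cons.1 h with h | h
          · exact absurd h (Finset.ne_of_mem_erase hy)
          · exact h]
        congr 1
        funext S
        simp only [Finset.subset_insert_iff]
      have h2 : EE a l (fun S => if T ⊆ S then (1 : ℝ) else 0) = 0 := by
        rw [EE_congr l ha' _ (fun _ => (0 : ℝ)), EE_const]
        intro S hS
        rw [if_neg]
        intro h
        exact hx (hS x (h hxT))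
      rw [h1, h2, mul_zero, add_zero, Finset.mul_prod_erase T a hxT]
    · have h1 : EE a l (fun S => if T ⊆ insert x S then (1 : ℝ) else 0)
          = ∏ y ∈ T, a y := by
        rw [← ih hl' ha' T fun y hy => by
          have h := hT y hy
          rcases List.mem_cons.1 h with h | h
          · exact absurd (h ▸ hy) hxT
          · exact h]
        congr 1
        funext S
        simp only [Finset.subset_insert_iff_of_notMem hxT]
      have h2 : EE a l (fun S => if T ⊆ S then (1 : ℝ) else 0) = ∏ y ∈ T, a y :=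
        ih hl' ha' T fun y hy => by
          have h := hT y hy
          rcases List.mem_cons.1 h with h | h
          · exact absurd (h ▸ hy) hxT
          · exact h
      rw [h1, h2]
      ring

theorem EE_mem (l : List V) (hl : l.Nodup) (ha : ∀ x ∈ l, 0 ≤ a x ∧ a x ≤ 1) (x : V)
    (hx : x ∈ l) : EE a l (fun S => if x ∈ S then 1 else 0) = a x := by
  have := EE_subset l hl ha {x} (by simpa using hx)
  simpa using this

/-- pairs: lower bound -/
theorem EE_pair (l : List V) (hl : l.Nodup) (ha : ∀ x ∈ l, 0 ≤ a x ∧ a x ≤ 1) (x y : V)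
    (hx : x ∈ l) (hy : y ∈ l) :
    EE a l (fun S => if x ∈ S ∧ y ∈ S then 1 else 0) = if x = y then a x else a x * a y := by
  by_cases h : x = y
  · subst h
    rw [if_pos rfl]
    simpa using EE_mem l hl ha x hx
  · rw [if_neg h]
    have := EE_subset l hl ha {x, y} (by
      intro z hz
      rcases Finset.mem_insert.1 hz with rfl | hz
      · exact hx
      · rw [Finset.mem_singleton.1 hz]; exact hy)
    rw [Finset.prod_pair h] at this
    rw [← this]
    congr 1
    funext S
    simp [Finset.insert_subset_iff]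

/-- exponential moment of the cardinality -/
theorem EE_two_pow (l : List V) (hl : l.Nodup) (ha : ∀ x ∈ l, 0 ≤ a x ∧ a x ≤ 1) :
    EE a l (fun S => 2 ^ S.card) ≤ Real.exp (l.map a).sum := by
  induction l with
  | nil => simp [EE]
  | cons x l ih =>
    have hx : x ∉ l := (List.nodup_cons.1 hl).1
    have hl' : l.Nodup := (List.nodup_cons.1 hl).2
    have ha' : ∀ y ∈ l, 0 ≤ a y ∧ a y ≤ 1 := fun y hy => ha y (by simp [hy])
    simp only [EE]
    have h1 : EE a l (fun S => (2 : ℝ) ^ (insert x S).card) = 2 * EE a l (fun S => 2 ^ S.card) := by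
      rw [← EE_smul]
      refine EE_congr l ha' _ _ fun S hS => ?_
      rw [Finset.card_insert_of_notMem (fun h => hx (hS x h)), pow_succ]
      ring
    rw [h1, List.map_cons, List.sum_cons, Real.exp_add]
    have h2 := ih hl' ha'
    have h3 : 1 + a x ≤ Real.exp (a x) := by
      have := Real.add_one_le_exp (a x)
      linarith
    have h0 : 0 ≤ EE a l (fun S => (2 : ℝ) ^ S.card) := by
      have := EE_mono l ha' (fun _ => (0 : ℝ)) (fun S => (2 : ℝ) ^ S.card)
        (fun S _ => by positivity)
      rwa [EE_const] at this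
    calc a x * (2 * EE a l (fun S => (2 : ℝ) ^ S.card))
          + (1 - a x) * EE a l (fun S => (2 : ℝ) ^ S.card)
        = (1 + a x) * EE a l (fun S => (2 : ℝ) ^ S.card) := by ring
      _ ≤ Real.exp (a x) * Real.exp (l.map a).sum :=
          mul_le_mul h3 h2 h0 (Real.exp_pos _).le

theorem EE_sq (l : List V) (ha : ∀ x ∈ l, 0 ≤ a x ∧ a x ≤ 1) (g : Finset V → ℝ) :
    EE a l g ^ 2 ≤ EE a l (fun S => g S ^ 2) := by
  set e := EE a l g with he
  have h1 := EE_mono l ha (fun _ => (0 : ℝ)) (fun S => (g S - e) ^ 2) (fun S _ => sq_nonneg _)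
  rw [EE_const] at h1
  have h2 : EE a l (fun S => (g S - e) ^ 2) = EE a l (fun S => g S ^ 2) - 2 * e * EE a l g + e ^ 2 := by
    have e1 : (fun S => (g S - e) ^ 2) = fun S => (g S ^ 2 - (2 * e) * g S) + e ^ 2 := by
      funext S; ring
    rw [e1, EE_add, EE_sub, EE_smul, EE_const]
  rw [h2, ← he] at h1
  nlinarith

/-- Efron-Stein inequality -/
theorem efron_stein (l : List V) (hl : l.Nodup) (ha : ∀ x ∈ l, 0 ≤ a x ∧ a x ≤ 1) :
    ∀ f : Finset V → ℝ, EE a l (fun S => f S ^ 2) - EE a l f ^ 2
      ≤ EE a l (fun S => ∑ x ∈ S, (f S - f (S.erase x)) ^ 2) := by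
  induction l with
  | nil => intro f; simp [EE]
  | cons x l ih =>
    intro f
    have hx : x ∉ l := (List.nodup_cons.1 hl).1
    have hl' : l.Nodup := (List.nodup_cons.1 hl).2
    have ha' : ∀ y ∈ l, 0 ≤ a y ∧ a y ≤ 1 := fun y hy => ha y (by simp [hy])
    obtain ⟨hx0, hx1⟩ := ha x (by simp)
    simp only [EE]
    have h1 := ih hl' ha' (fun S => f (insert x S))
    have h2 := ih hl' ha' f
    have h3 : EE a l (fun S => ∑ y ∈ insert x S, (f (insert x S) - f ((insert x S).erase y)) ^ 2)
        = EE a l (fun S => (f (insert x S) - f S) ^ 2)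
          + EE a l (fun S => ∑ y ∈ S, (f (insert x S) - f (insert x (S.erase y))) ^ 2) := by
      rw [← EE_add]
      refine EE_congr l ha' _ _ fun S hS => ?_
      have hxS : x ∉ S := fun h => hx (hS x h)
      rw [Finset.sum_insert hxS, Finset.erase_insert hxS]
      congr 1
      refine Finset.sum_congr rfl fun y hy => ?_
      rw [Finset.erase_insert_of_ne]
      intro h
      exact hxS (h ▸ hy)
    rw [h3]
    have h4 : (EE a l (fun S => f (insert x S)) - EE a l f) ^ 2
        ≤ EE a l (fun S => (f (insert x S) - f S) ^ 2) := by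
      rw [← EE_sub]
      exact EE_sq l ha' _
    set E1 := EE a l (fun S => f (insert x S))
    set E0 := EE a l f
    set Q1 := EE a l (fun S => f (insert x S) ^ 2)
    set Q0 := EE a l (fun S => f S ^ 2)
    set D := EE a l (fun S => (f (insert x S) - f S) ^ 2)
    set S1 := EE a l (fun S => ∑ y ∈ S, (f (insert x S) - f (insert x (S.erase y))) ^ 2)
    set S0 := EE a l (fun S => ∑ x ∈ S, (f S - f (S.erase x)) ^ 2)
    have h5 : a x * (1 - a x) * (E1 - E0) ^ 2 ≤ a x * D := by
      have : 0 ≤ (E1 - E0) ^ 2 := sq_nonneg _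
      calc a x * (1 - a x) * (E1 - E0) ^ 2 ≤ a x * 1 * (E1 - E0) ^ 2 := by
            refine mul_le_mul_of_nonneg_right (mul_le_mul_of_nonneg_left (by linarith) hx0) this
        _ ≤ a x * D := by
            rw [mul_one]
            exact mul_le_mul_of_nonneg_left h4 hx0
    have h6 := mul_le_mul_of_nonneg_left h1 hx0
    have h7 := mul_le_mul_of_nonneg_left h2 (by linarith : 0 ≤ 1 - a x)
    nlinarith

end Pool.Agent.R508.FD
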