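import Mathlib
import Pool.Agent.R508.FDexp

set_option autoImplicit false

/-! Sums of dilates of a random set: variance bounds (helper508, MP_0d5181_co). -/

open Finset

namespace Pool.Agent.R508.FD

variable {V : Type*} [DecidableEq V] [AddCommGroup V]

/-- the set `S + k S` -/
def sm (k : ℤ) (S : Finset V) : Finset V := (S ×ˢ S).image fun p => p.1 + k • p.2

/-- representations of `m` -/
def Rp (k : ℤ) (m : V) (S : Finset V) : Finset (V × V) :=
  (S ×ˢ S).filter fun p => p.1 + k • p.2 = m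

theorem mem_sm (k : ℤ) (S : Finset V) (m : V) :
    m ∈ sm k S ↔ ∃ x ∈ S, ∃ y ∈ S, x + k • y = m := by
  simp only [sm, mem_image, mem_product, Prod.exists]
  constructor
  · rintro ⟨x, y, ⟨hx, hy⟩, h⟩; exact ⟨x, hx, y, hy, h⟩
  · rintro ⟨x, hx, y, hy, h⟩; exact ⟨x, y, ⟨hx, hy⟩, h⟩

theorem sq_le_aux (u v d e M : ℝ) (h0 : 0 ≤ u - v) (h1 : u - v ≤ d + e) (hM : d + e ≤ M) :
    (u - v) ^ 2 ≤ M * (d + e) := by
  have h2 : 0 ≤ d + e := h0.trans h1
  nlinarith

theorem R_es (k : ℤ) (hk : Function.Injective fun y : V => k • y) (m : V) (S : Finset V) :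
    ∑ x ∈ S, (((Rp k m S).card : ℝ) - (Rp k m (S.erase x)).card) ^ 2 ≤ 4 * (Rp k m S).card := by
  set D1 : V → ℝ := fun x => ((Rp k m S).filter fun p => p.1 = x).card with hD1
  set D2 : V → ℝ := fun x => ((Rp k m S).filter fun p => p.2 = x).card with hD2
  have hs1 : ∑ x ∈ S, D1 x = (Rp k m S).card := by
    have := Finset.card_eq_sum_card_fiberwise (f := fun p : V × V => p.1) (s := Rp k m S) (t := S)
      (fun p hp => (mem_product.1 (mem_filter.1 hp).1).1)
    rw [this]
    push_cast
    rfl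
  have hs2 : ∑ x ∈ S, D2 x = (Rp k m S).card := by
    have := Finset.card_eq_sum_card_fiberwise (f := fun p : V × V => p.2) (s := Rp k m S) (t := S)
      (fun p hp => (mem_product.1 (mem_filter.1 hp).1).2)
    rw [this]
    push_cast
    rfl
  have hb1 : ∀ x, D1 x ≤ 1 := by
    intro x
    have : ((Rp k m S).filter fun p => p.1 = x).card ≤ 1 := by
      rw [Finset.card_le_one]
      intro p hp q hq
      simp only [Rp, mem_filter] at hp hq
      have h1 : k • p.2 = k • q.2 := by
        have e1 := hp.1.2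
        have e2 := hq.1.2
        rw [hp.2] at e1
        rw [hq.2] at e2
        exact add_left_cancel (e1.trans e2.symm)
      exact Prod.ext (hp.2.trans hq.2.symm) (hk h1)
    simp only [hD1]
    exact_mod_cast this
  have hb2 : ∀ x, D2 x ≤ 1 := by
    intro x
    have : ((Rp k m S).filter fun p => p.2 = x).card ≤ 1 := by
      rw [Finset.card_le_one]
      intro p hp q hq
      simp only [Rp, mem_filter] at hp hq
      have h1 : p.1 = q.1 := by
        have e1 := hp.1.2
        have e2 := hq.1.2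
        rw [hp.2] at e1
        rw [hq.2] at e2
        exact add_right_cancel (e1.trans e2.symm)
      exact Prod.ext h1 (hp.2.trans hq.2.symm)
    simp only [hD2]
    exact_mod_cast this
  have hsub : ∀ x, ((Rp k m S).card : ℝ) - (Rp k m (S.erase x)).card ≤ D1 x + D2 x := by
    intro x
    have h1 : Rp k m S ⊆ Rp k m (S.erase x) ∪ (((Rp k m S).filter fun p => p.1 = x) ∪
        ((Rp k m S).filter fun p => p.2 = x)) := by
      intro p hp
      by_cases h1 : p.1 = x
      · simp [hp, h1]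
      by_cases h2 : p.2 = x
      · simp [hp, h2]
      · refine mem_union_left _ ?_
        simp only [Rp, mem_filter, mem_product, mem_erase] at hp ⊢
        exact ⟨⟨⟨h1, hp.1.1⟩, ⟨h2, hp.1.2⟩⟩, hp.2⟩
    have h2 := (Finset.card_le_card h1).trans ((Finset.card_union_le _ _).trans
      (Nat.add_le_add_left (Finset.card_union_le _ _) _))
    have h3 : ((Rp k m S).card : ℝ) ≤ (Rp k m (S.erase x)).card + (D1 x + D2 x) := by
      simp only [hD1, hD2]
      exact_mod_cast h2
    linarith
  have h0 : ∀ x, 0 ≤ ((Rp k m S).card : ℝ) - (Rp k m (S.erase x)).card := by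
    intro x
    have : Rp k m (S.erase x) ⊆ Rp k m S := by
      intro p hp
      simp only [Rp, mem_filter, mem_product, mem_erase] at hp ⊢
      exact ⟨⟨hp.1.1.2, hp.1.2.2⟩, hp.2⟩
    have := Finset.card_le_card this
    rw [sub_nonneg]
    exact_mod_cast this
  calc ∑ x ∈ S, (((Rp k m S).card : ℝ) - (Rp k m (S.erase x)).card) ^ 2
      ≤ ∑ x ∈ S, 2 * (D1 x + D2 x) := Finset.sum_le_sum fun x _ =>
        sq_le_aux _ _ _ _ _ (h0 x) (hsub x) (by linarith [hb1 x, hb2 x])
    _ = 4 * (Rp k m S).card := by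
        rw [← Finset.mul_sum, Finset.sum_add_distrib, hs1, hs2]
        ring

theorem sm_es (k : ℤ) (S : Finset V) :
    ∑ x ∈ S, (((sm k S).card : ℝ) - (sm k (S.erase x)).card) ^ 2
      ≤ 4 * (S.card * (sm k S).card) := by
  classical
  have hex : ∀ m : V, ∃ p : V × V, m ∈ sm k S → p.1 ∈ S ∧ p.2 ∈ S ∧ p.1 + k • p.2 = m := by
    intro m
    by_cases h : m ∈ sm k S
    · obtain ⟨x, hx, y, hy, h'⟩ := (mem_sm k S m).1 h
      exact ⟨(x, y), fun _ => ⟨hx, hy, h'⟩⟩
    · exact ⟨(0, 0), fun h' => absurd h' h⟩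
  choose ρ hρ using hex
  set E1 : V → ℝ := fun x => ((sm k S).filter fun m => (ρ m).1 = x).card with hE1
  set E2 : V → ℝ := fun x => ((sm k S).filter fun m => (ρ m).2 = x).card with hE2
  have hs1 : ∑ x ∈ S, E1 x = (sm k S).card := by
    have := Finset.card_eq_sum_card_fiberwise (f := fun m : V => (ρ m).1) (s := sm k S) (t := S)
      (fun m hm => (hρ m hm).1)
    rw [this]
    push_cast
    rfl
  have hs2 : ∑ x ∈ S, E2 x = (sm k S).card := by
    have := Finset.card_eq_sum_card_fiberwise (f := fun m : V => (ρ m).2) (s := sm k S) (t := S)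
      (fun m hm => (hρ m hm).2.1)
    rw [this]
    push_cast
    rfl
  have hb1 : ∀ x, E1 x ≤ S.card := by
    intro x
    have : ((sm k S).filter fun m => (ρ m).1 = x).card ≤ S.card := by
      refine Finset.card_le_card_of_injOn (fun m => (ρ m).2)
        (fun m hm => (hρ m (mem_filter.1 hm).1).2.1) ?_
      intro m hm m' hm' h
      obtain ⟨h1, h2⟩ := mem_filter.1 hm
      obtain ⟨h1', h2'⟩ := mem_filter.1 hm'
      rw [← (hρ m h1).2.2, ← (hρ m' h1').2.2, h2, h2']
      simp only at h
      rw [h]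
    simp only [hE1]
    exact_mod_cast this
  have hb2 : ∀ x, E2 x ≤ S.card := by
    intro x
    have : ((sm k S).filter fun m => (ρ m).2 = x).card ≤ S.card := by
      refine Finset.card_le_card_of_injOn (fun m => (ρ m).1)
        (fun m hm => (hρ m (mem_filter.1 hm).1).1) ?_
      intro m hm m' hm' h
      obtain ⟨h1, h2⟩ := mem_filter.1 hm
      obtain ⟨h1', h2'⟩ := mem_filter.1 hm'
      rw [← (hρ m h1).2.2, ← (hρ m' h1').2.2, h2, h2']
      simp only at h
      rw [h]
    simp only [hE2]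
    exact_mod_cast this
  have hsub : ∀ x, ((sm k S).card : ℝ) - (sm k (S.erase x)).card ≤ E1 x + E2 x := by
    intro x
    have h1 : sm k S ⊆ sm k (S.erase x) ∪ (((sm k S).filter fun m => (ρ m).1 = x) ∪
        ((sm k S).filter fun m => (ρ m).2 = x)) := by
      intro m hm
      by_cases h1 : (ρ m).1 = x
      · simp [hm, h1]
      by_cases h2 : (ρ m).2 = x
      · simp [hm, h2]
      · refine mem_union_left _ ?_
        obtain ⟨h3, h4, h5⟩ := hρ m hm
        exact (mem_sm _ _ _).2 ⟨_, mem_erase.2 ⟨h1, h3⟩, _, mem_erase.2 ⟨h2, h4⟩, h5⟩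
    have h2 := (Finset.card_le_card h1).trans ((Finset.card_union_le _ _).trans
      (Nat.add_le_add_left (Finset.card_union_le _ _) _))
    have h3 : ((sm k S).card : ℝ) ≤ (sm k (S.erase x)).card + (E1 x + E2 x) := by
      simp only [hE1, hE2]
      exact_mod_cast h2
    linarith
  have h0 : ∀ x, 0 ≤ ((sm k S).card : ℝ) - (sm k (S.erase x)).card := by
    intro x
    have : sm k (S.erase x) ⊆ sm k S := by
      intro m hm
      obtain ⟨u, hu, v, hv, h⟩ := (mem_sm _ _ _).1 hm
      exact (mem_sm _ _ _).2 ⟨u, mem_of_mem_erase hu, v, mem_of_mem_erase hv, h⟩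
    have := Finset.card_le_card this
    rw [sub_nonneg]
    exact_mod_cast this
  calc ∑ x ∈ S, (((sm k S).card : ℝ) - (sm k (S.erase x)).card) ^ 2
      ≤ ∑ x ∈ S, (2 * S.card) * (E1 x + E2 x) := Finset.sum_le_sum fun x _ =>
        sq_le_aux _ _ _ _ _ (h0 x) (hsub x) (by linarith [hb1 x, hb2 x])
    _ = 4 * (S.card * (sm k S).card) := by
        rw [← Finset.mul_sum, Finset.sum_add_distrib, hs1, hs2]
        ring

omit [AddCommGroup V] in
theorem card_es (S : Finset V) :
    ∑ x ∈ S, ((S.card : ℝ) - ((S.erase x).card : ℝ)) ^ 2 = S.card := by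
  have : ∀ x ∈ S, ((S.card : ℝ) - ((S.erase x).card : ℝ)) ^ 2 = 1 := by
    intro x hx
    have h1 := Finset.card_erase_add_one hx
    have h2 : (S.card : ℝ) = (S.erase x).card + 1 := by exact_mod_cast h1.symm
    rw [h2]
    ring
  rw [Finset.sum_congr rfl this]
  simp

variable {a : V → ℝ}

/-- probability that `m ∈ S + k S`, from below -/
theorem prob_lower (k : ℤ) (hk : Function.Injective fun y : V => k • y) (l : List V)
    (hl : l.Nodup) (ha : ∀ x ∈ l, 0 ≤ a x ∧ a x ≤ 1) (m : V) (g : ℝ) (hg0 : 0 ≤ g)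
    (hg : g ≤ EE a l (fun S => (Rp k m S).card)) :
    min 1 g / 5 ≤ EE a l (fun S => if m ∈ sm k S then 1 else 0) := by
  set μ := EE a l (fun S => ((Rp k m S).card : ℝ)) with hμ
  have hμ0 : 0 ≤ μ := hg0.trans hg
  have hvar := efron_stein l hl ha (fun S => ((Rp k m S).card : ℝ))
  have h1 : EE a l (fun S => ∑ x ∈ S, (((Rp k m S).card : ℝ) - (Rp k m (S.erase x)).card) ^ 2)
      ≤ 4 * μ := by
    rw [hμ, ← EE_smul]
    exact EE_mono l ha _ _ fun S _ => R_es k hk m S
  have h2 : EE a l (fun S => ((Rp k m S).card : ℝ) ^ 2) ≤ 4 * μ + μ ^ 2 := by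
    rw [← hμ] at hvar
    linarith
  set c := 1 / (4 + μ) with hc
  have hc0 : 0 < c := by positivity
  have h3 : EE a l (fun S => (2 * c) * ((Rp k m S).card : ℝ) - c ^ 2 * ((Rp k m S).card : ℝ) ^ 2)
      ≤ EE a l (fun S => if m ∈ sm k S then 1 else 0) := by
    refine EE_mono l ha _ _ fun S _ => ?_
    by_cases h : m ∈ sm k S
    · rw [if_pos h]
      nlinarith [sq_nonneg (1 - c * ((Rp k m S).card : ℝ))]
    · rw [if_neg h]
      have : Rp k m S = ∅ := by
        apply Finset.eq_empty_of_forall_notMem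
        intro p hp
        simp only [Rp, mem_filter, mem_product] at hp
        exact h ((mem_sm _ _ _).2 ⟨p.1, hp.1.1, p.2, hp.1.2, hp.2⟩)
      rw [this]
      simp
  rw [EE_sub, EE_smul, EE_smul, ← hμ] at h3
  have h4 : μ / (4 + μ) ≤ EE a l (fun S => if m ∈ sm k S then (1 : ℝ) else 0) := by
    refine le_trans ?_ h3
    have h5 : c ^ 2 * EE a l (fun S => ((Rp k m S).card : ℝ) ^ 2) ≤ c ^ 2 * (4 * μ + μ ^ 2) :=
      mul_le_mul_of_nonneg_left h2 (by positivity)
    have h6 : 2 * c * μ - c ^ 2 * (4 * μ + μ ^ 2) = μ / (4 + μ) := by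
      rw [hc]
      field_simp
      ring
    linarith
  refine le_trans ?_ h4
  rw [div_le_div_iff₀ (by norm_num) (by positivity)]
  rcases le_total μ 1 with h | h
  · have h5 : min 1 g ≤ μ := (min_le_right _ _).trans hg
    have h6 : 0 ≤ min 1 g := le_min zero_le_one hg0
    nlinarith
  · have h5 : min 1 g ≤ 1 := min_le_left _ _
    have h6 : 0 ≤ min 1 g := le_min zero_le_one hg0
    nlinarith

/-- probability that `m ∈ S + k S`, from above -/
theorem prob_upper (k : ℤ) (l : List V)
    (ha : ∀ x ∈ l, 0 ≤ a x ∧ a x ≤ 1) (m : V) (g d : ℝ) (hd : 0 ≤ d)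
    (hg : EE a l (fun S => (Rp k m S).card) ≤ g + d) :
    EE a l (fun S => if m ∈ sm k S then 1 else 0) ≤ min 1 g + d := by
  have h1 : EE a l (fun S => if m ∈ sm k S then (1 : ℝ) else 0) ≤ 1 := by
    have := EE_mono l ha (fun S => if m ∈ sm k S then (1 : ℝ) else 0) (fun _ => 1)
      (fun S _ => by split_ifs <;> norm_num)
    rwa [EE_const] at this
  have h2 : EE a l (fun S => if m ∈ sm k S then (1 : ℝ) else 0)
      ≤ EE a l (fun S => (Rp k m S).card) := by
    refine EE_mono l ha _ _ fun S _ => ?_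
    by_cases h : m ∈ sm k S
    · rw [if_pos h]
      obtain ⟨x, hx, y, hy, h'⟩ := (mem_sm _ _ _).1 h
      have : 0 < (Rp k m S).card := Finset.card_pos.2 ⟨(x, y), by simp [Rp, hx, hy, h']⟩
      exact_mod_cast this
    · rw [if_neg h]
      positivity
  rw [← min_add_add_right]
  exact le_min (by linarith) (h2.trans hg)

theorem card_sm_le (k : ℤ) (S : Finset V) : (sm k S).card ≤ S.card * S.card := by
  refine Finset.card_image_le.trans ?_
  rw [Finset.card_product]

/-- variance of the size of `S + k S` -/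
theorem var_sm (k : ℤ) (l : List V) (hl : l.Nodup) (ha : ∀ x ∈ l, 0 ≤ a x ∧ a x ≤ 1) :
    EE a l (fun S => ((sm k S).card : ℝ) ^ 2) - EE a l (fun S => ((sm k S).card : ℝ)) ^ 2
      ≤ 16 * (l.map a).sum * EE a l (fun S => ((sm k S).card : ℝ))
        + 4 * ((l.length : ℝ) ^ 3 * Real.exp (-(l.map a).sum)) := by
  set A := (l.map a).sum with hA
  have h1 := efron_stein l hl ha (fun S => ((sm k S).card : ℝ))
  refine h1.trans ?_
  have h2 : EE a l (fun S => ∑ x ∈ S, (((sm k S).card : ℝ) - (sm k (S.erase x)).card) ^ 2)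
      ≤ EE a l (fun S => (16 * A) * ((sm k S).card : ℝ)
        + (4 * ((l.length : ℝ) ^ 3 * Real.exp (-(2 * A)))) * 2 ^ S.card) := by
    refine EE_mono l ha _ _ fun S hS => (sm_es k S).trans ?_
    have hc : (0 : ℝ) ≤ (sm k S).card := Nat.cast_nonneg _
    rcases le_or_gt (S.card : ℝ) (4 * A) with h | h
    · have h3 : (S.card : ℝ) * (sm k S).card ≤ 4 * A * (sm k S).card :=
        mul_le_mul_of_nonneg_right h hc
      have h4 : 0 ≤ (4 * ((l.length : ℝ) ^ 3 * Real.exp (-(2 * A)))) * 2 ^ S.card := by positivity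
      linarith
    · have hSl : S.card ≤ l.length := by
        have : S ⊆ l.toFinset := fun x hx => List.mem_toFinset.2 (hS x hx)
        exact (Finset.card_le_card this).trans (List.toFinset_card_le l)
      have h3 : (S.card : ℝ) * (sm k S).card ≤ (l.length : ℝ) ^ 3 := by
        have h4 : (S.card : ℝ) ≤ l.length := by exact_mod_cast hSl
        have h5 : ((sm k S).card : ℝ) ≤ S.card * S.card := by exact_mod_cast card_sm_le k S
        calc (S.card : ℝ) * (sm k S).card ≤ S.card * (S.card * S.card) :=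
              mul_le_mul_of_nonneg_left h5 (Nat.cast_nonneg _)
          _ = (S.card : ℝ) ^ 3 := by ring
          _ ≤ (l.length : ℝ) ^ 3 := pow_le_pow_left₀ (Nat.cast_nonneg _) h4 3
      have h6 : 1 ≤ Real.exp (-(2 * A)) * 2 ^ S.card := by
        have h7 : (2 : ℝ) ^ S.card = Real.exp (S.card * Real.log 2) := by
          rw [mul_comm, Real.exp_mul, Real.exp_log two_pos, Real.rpow_natCast]
        rw [h7, ← Real.exp_add]
        apply Real.one_le_exp
        have h8 : (0.6931471803 : ℝ) < Real.log 2 := Real.log_two_gt_d9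
        have h9 : (0 : ℝ) ≤ S.card := Nat.cast_nonneg _
        nlinarith
      have h10 : (l.length : ℝ) ^ 3 ≤ (l.length : ℝ) ^ 3 * (Real.exp (-(2 * A)) * 2 ^ S.card) :=
        le_mul_of_one_le_right (by positivity) h6
      have h11 : 0 ≤ (16 * A) * ((sm k S).card : ℝ) := by
        have : 0 ≤ A := by
          rw [hA]
          refine List.sum_nonneg fun y hy => ?_
          obtain ⟨z, hz, rfl⟩ := List.mem_map.1 hy
          exact (ha z hz).1
        positivity
      nlinarith
  refine h2.trans ?_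
  rw [EE_add, EE_smul, EE_smul]
  have h3 := EE_two_pow l hl ha
  rw [← hA] at h3
  have h4 : (4 * ((l.length : ℝ) ^ 3 * Real.exp (-(2 * A)))) * EE a l (fun S => 2 ^ S.card)
      ≤ (4 * ((l.length : ℝ) ^ 3 * Real.exp (-(2 * A)))) * Real.exp A :=
    mul_le_mul_of_nonneg_left h3 (by positivity)
  have h5 : (4 * ((l.length : ℝ) ^ 3 * Real.exp (-(2 * A)))) * Real.exp A
      = 4 * ((l.length : ℝ) ^ 3 * Real.exp (-A)) := by
    have : Real.exp (-(2 * A)) * Real.exp A = Real.exp (-A) := by
      rw [← Real.exp_add]; congr 1; ring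
    rw [← this]
    ring
  linarith

omit [AddCommGroup V] in
/-- variance of the size of `S` -/
theorem var_card (l : List V) (hl : l.Nodup) (ha : ∀ x ∈ l, 0 ≤ a x ∧ a x ≤ 1) :
    EE a l (fun S => (S.card : ℝ)) = (l.map a).sum ∧
    EE a l (fun S => ((S.card : ℝ) - (l.map a).sum) ^ 2) ≤ (l.map a).sum := by
  have h1 : EE a l (fun S => (S.card : ℝ)) = (l.map a).sum := by
    have h2 : EE a l (fun S => (S.card : ℝ))
        = EE a l (fun S => ∑ x ∈ l.toFinset, if x ∈ S then (1 : ℝ) else 0) := by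
      refine EE_congr l ha _ _ fun S hS => ?_
      rw [← Finset.sum_filter, Finset.sum_const, nsmul_eq_mul, mul_one]
      congr 2
      ext x
      simp only [mem_filter, List.mem_toFinset]
      exact ⟨fun h => ⟨hS x h, h⟩, fun h => h.2⟩
    rw [h2, EE_sum, Finset.sum_congr rfl fun x hx => EE_mem l hl ha x (List.mem_toFinset.1 hx),
      List.sum_toFinset _ hl]
  refine ⟨h1, ?_⟩
  have h2 := efron_stein l hl ha (fun S => (S.card : ℝ))
  rw [EE_congr l ha _ _ fun S _ => card_es S, h1] at h2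
  set A := (l.map a).sum
  have h3 : EE a l (fun S => ((S.card : ℝ) - A) ^ 2)
      = EE a l (fun S => (S.card : ℝ) ^ 2) - A ^ 2 := by
    have e1 : (fun S : Finset V => ((S.card : ℝ) - A) ^ 2)
        = fun S => ((S.card : ℝ) ^ 2 - (2 * A) * (S.card : ℝ)) + A ^ 2 := by
      funext S; ring
    rw [e1, EE_add, EE_sub, EE_smul, EE_const, h1]
    ring
  rw [h3]
  exact h2

end Pool.Agent.R508.FD
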