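import Mathlib

set_option autoImplicit false

/-! The truncated product sum: lower bound by tilting (helper508, MP_0d5181_co). -/

open Finset

namespace Pool.Agent.R508.FD

/-- `F(p) = Σ g(c)^p` -/
noncomputable def FF (M : Finset ℤ) (g : ℤ → ℝ) (p : ℝ) : ℝ := ∑ c ∈ M, g c ^ p

theorem FF_cont (M : Finset ℤ) (g : ℤ → ℝ) (hg : ∀ c ∈ M, 0 < g c) : Continuous (FF M g) := by
  unfold FF
  refine continuous_finsetSum _ fun c hc => ?_
  exact Real.continuous_const_rpow (hg c hc).ne'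

theorem FF_pos (M : Finset ℤ) (g : ℤ → ℝ) (hg : ∀ c ∈ M, 0 < g c) (hM : M.Nonempty) (p : ℝ) :
    0 < FF M g p := Finset.sum_pos (fun c hc => Real.rpow_pos_of_pos (hg c hc) p) hM

theorem FF_deriv (M : Finset ℤ) (g : ℤ → ℝ) (hg : ∀ c ∈ M, 0 < g c) (p : ℝ) :
    HasDerivAt (FF M g) (∑ c ∈ M, g c ^ p * Real.log (g c)) p := by
  unfold FF
  have := HasDerivAt.fun_sum (u := M) (A := fun c p => g c ^ p)
    (A' := fun c => g c ^ p * Real.log (g c)) (x := p)
    (fun c hc => Real.hasStrictDerivAt_const_rpow (hg c hc) p |>.hasDerivAt)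
  exact this

theorem min_le_rpow (t p : ℝ) (ht : 0 < t) (h0 : 0 ≤ p) (h1 : p ≤ 1) : min 1 t ≤ t ^ p := by
  rcases le_total 1 t with h | h
  · exact (min_le_left _ _).trans (Real.one_le_rpow h h0)
  · refine (min_le_right _ _).trans ?_
    have := Real.rpow_le_rpow_of_exponent_ge ht h h1
    rwa [Real.rpow_one] at this

theorem upper_sum (M : Finset ℤ) (g : ℤ → ℝ) (hg : ∀ c ∈ M, 0 < g c) (p : ℝ) (h0 : 0 ≤ p)
    (h1 : p ≤ 1) (n : ℕ) :
    ∑ m ∈ Fintype.piFinset (fun _ : Fin n => M), min 1 (∏ t, g (m t)) ≤ FF M g p ^ n := by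
  have h2 : FF M g p ^ n = ∑ m ∈ Fintype.piFinset (fun _ : Fin n => M), ∏ t, g (m t) ^ p :=
    Finset.sum_pow' M (fun c => g c ^ p) n
  rw [h2]
  refine Finset.sum_le_sum fun m hm => ?_
  have hp : ∀ t, 0 < g (m t) := fun t => hg _ (Fintype.mem_piFinset.1 hm t)
  refine (min_le_rpow _ p (Finset.prod_pos fun t _ => hp t) h0 h1).trans (le_of_eq ?_)
  exact (Real.finsetProd_rpow _ _ (fun t _ => (hp t).le) p).symm

theorem second_moment (M : Finset ℤ) (Q h : ℤ → ℝ) (hQ : ∑ c ∈ M, Q c = 1)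
    (hh : ∑ c ∈ M, Q c * h c = 0) (n : ℕ) :
    ∑ m ∈ Fintype.piFinset (fun _ : Fin n => M), (∏ t, Q (m t)) * (∑ t, h (m t)) ^ 2
      = n * ∑ c ∈ M, Q c * h c ^ 2 := by
  have key : ∀ i j : Fin n, ∑ m ∈ Fintype.piFinset (fun _ : Fin n => M),
      (∏ t, Q (m t)) * (h (m i) * h (m j)) = if i = j then ∑ c ∈ M, Q c * h c ^ 2 else 0 := by
    intro i j
    have e1 : ∀ m : Fin n → ℤ, (∏ t, Q (m t)) * (h (m i) * h (m j))
        = ∏ t, (Q (m t) * (if t = i then h (m t) else 1) * (if t = j then h (m t) else 1)) := by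
      intro m
      rw [Finset.prod_mul_distrib, Finset.prod_mul_distrib, Finset.prod_ite_eq', 
        Finset.prod_ite_eq']
      simp [mul_assoc]
    rw [Finset.sum_congr rfl fun m _ => e1 m]
    rw [← Finset.prod_univ_sum (fun _ : Fin n => M)
      (fun t c => Q c * (if t = i then h c else 1) * (if t = j then h c else 1))]
    by_cases hij : i = j
    · subst hij
      rw [if_pos rfl, Finset.prod_eq_single i]
      · refine Finset.sum_congr rfl fun c _ => ?_
        simp only [if_true]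
        ring
      · intro t _ ht
        simp only [if_neg ht, mul_one]
        exact hQ
      · intro hf
        exact absurd (mem_univ _) hf
    · rw [if_neg hij]
      apply Finset.prod_eq_zero (mem_univ i)
      rw [← hh]
      refine Finset.sum_congr rfl fun c _ => ?_
      simp [hij]
  have e2 : ∀ m : Fin n → ℤ, (∏ t, Q (m t)) * (∑ t, h (m t)) ^ 2
      = ∑ i, ∑ j, (∏ t, Q (m t)) * (h (m i) * h (m j)) := by
    intro m
    rw [sq, Finset.sum_mul_sum, Finset.mul_sum]
    refine Finset.sum_congr rfl fun i _ => ?_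
    rw [Finset.mul_sum]
  rw [Finset.sum_congr rfl fun m _ => e2 m, Finset.sum_comm]
  have e3 : ∀ i : Fin n, ∑ m ∈ Fintype.piFinset (fun _ : Fin n => M),
      ∑ j, (∏ t, Q (m t)) * (h (m i) * h (m j)) = ∑ c ∈ M, Q c * h c ^ 2 := by
    intro i
    rw [Finset.sum_comm, Finset.sum_congr rfl fun j _ => key i j]
    simp
  rw [Finset.sum_congr rfl fun i _ => e3 i]
  simp

theorem exp_aux (u D : ℝ) (hD : 0 < D) :
    Real.exp (-D) * (1 + D / 2 - u ^ 2 / (2 * D)) ≤ Real.exp (-|u|) := by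
  have h1 : Real.exp (-|u|) = Real.exp (-D) * Real.exp (D - |u|) := by
    rw [← Real.exp_add]; congr 1; ring
  rw [h1]
  refine mul_le_mul_of_nonneg_left ?_ (Real.exp_pos _).le
  have h2 := Real.add_one_le_exp (D - |u|)
  have h3 : |u| ≤ u ^ 2 / (2 * D) + D / 2 := by
    have h4 : 0 ≤ (|u| - D) ^ 2 := sq_nonneg _
    have h5 : u ^ 2 / (2 * D) + D / 2 - |u| = (|u| - D) ^ 2 / (2 * D) := by
      rw [sub_sq, sq_abs]
      field_simp
      ring
    have h6 : 0 ≤ (|u| - D) ^ 2 / (2 * D) := by positivity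
    linarith
  linarith

theorem tilt_lower (M : Finset ℤ) (g : ℤ → ℝ) (hg : ∀ c ∈ M, 0 < g c) (hM : M.Nonempty) (p0 : ℝ)
    (h0 : 0 ≤ p0) (h1 : p0 ≤ 1) (hmin : ∀ p, 0 ≤ p → p ≤ 1 → FF M g p0 ≤ FF M g p) :
    ∃ K : ℝ, 0 < K ∧ ∀ n : ℕ, FF M g p0 ^ n * Real.exp (-(K * √n))
      ≤ ∑ m ∈ Fintype.piFinset (fun _ : Fin n => M), min 1 (∏ t, g (m t)) := by
  set G := FF M g p0 with hG
  have hG0 : 0 < G := FF_pos M g hg hM p0
  set Q : ℤ → ℝ := fun c => g c ^ p0 / G with hQ
  have hQ0 : ∀ c ∈ M, 0 < Q c := fun c hc => div_pos (Real.rpow_pos_of_pos (hg c hc) _) hG0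
  have hQ1 : ∑ c ∈ M, Q c = 1 := by
    simp only [hQ]
    rw [← Finset.sum_div]
    exact div_self hG0.ne'
  set r := ∑ c ∈ M, Q c * Real.log (g c) with hr
  have hder : HasDerivAt (FF M g) (G * r) p0 := by
    have := FF_deriv M g hg p0
    convert this using 1
    rw [hr, Finset.mul_sum]
    refine Finset.sum_congr rfl fun c _ => ?_
    simp only [hQ]
    field_simp
  have hr1 : p0 < 1 → 0 ≤ r := by
    intro hp
    by_contra hc
    push Not at hc
    have hneg : G * r < 0 := mul_neg_of_pos_of_neg hG0 hc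
    -- slope to the right
    have h2 := hder.hasDerivWithinAt (s := Set.Ici p0)
    have h3 : ∀ᶠ z in nhdsWithin p0 (Set.Ioi p0), slope (FF M g) p0 z < 0 :=
      (hasDerivWithinAt_iff_tendsto_slope' Set.self_notMem_Ioi |>.1
        (h2.mono Set.Ioi_subset_Ici_self)).eventually_lt_const hneg
    have h4 : ∀ᶠ z in nhdsWithin p0 (Set.Ioi p0), z < 1 :=
      Filter.Eventually.filter_mono nhdsWithin_le_nhds (eventually_lt_nhds hp)
    obtain ⟨z, ⟨h5, h6⟩, h7⟩ := ((h3.and h4).and self_mem_nhdsWithin).exists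
    have h8 := hmin z (h0.trans (le_of_lt h7)) h6.le
    rw [slope_def_field, div_neg_iff] at h5
    rcases h5 with h5 | h5
    · have := h5.2
      have h9 : p0 < z := h7
      linarith
    · linarith [h5.1]
  have hr2 : 0 < p0 → r ≤ 0 := by
    intro hp
    by_contra hc
    push Not at hc
    have hpos : 0 < G * r := mul_pos hG0 hc
    have h2 := hder.hasDerivWithinAt (s := Set.Iio p0)
    have h3 : ∀ᶠ z in nhdsWithin p0 (Set.Iio p0), 0 < slope (FF M g) p0 z :=
      (hasDerivWithinAt_iff_tendsto_slope' Set.self_notMem_Iio |>.1 h2).eventually_const_lt hpos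
    have h4 : ∀ᶠ z in nhdsWithin p0 (Set.Iio p0), 0 < z :=
      Filter.Eventually.filter_mono nhdsWithin_le_nhds (eventually_gt_nhds hp)
    obtain ⟨z, ⟨h5, h6⟩, h7⟩ := ((h3.and h4).and self_mem_nhdsWithin).exists
    have h9 : z < p0 := h7
    have h8 := hmin z h6.le (by linarith)
    rw [slope_def_field, div_pos_iff] at h5
    rcases h5 with h5 | h5
    · linarith [h5.2]
    · linarith [h5.1]
  set h : ℤ → ℝ := fun c => Real.log (g c) - r with hh
  have hQh : ∑ c ∈ M, Q c * h c = 0 := by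
    simp only [hh, mul_sub, Finset.sum_sub_distrib]
    rw [← Finset.sum_mul, hQ1, one_mul, ← hr, sub_self]
  set σ := ∑ c ∈ M, Q c * h c ^ 2 with hσ
  have hσ0 : 0 ≤ σ := Finset.sum_nonneg fun c hc => mul_nonneg (hQ0 c hc).le (sq_nonneg _)
  refine ⟨√σ + 1, by positivity, fun n => ?_⟩
  rcases Nat.eq_zero_or_pos n with rfl | hn
  · simp
  set D := (√σ + 1) * √n with hD
  have hn' : (0 : ℝ) < n := by exact_mod_cast hn
  have hD0 : 0 < D := mul_pos (by positivity) (Real.sqrt_pos.2 hn')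
  have hD2 : n * σ ≤ D ^ 2 := by
    rw [hD, mul_pow, Real.sq_sqrt hn'.le, mul_comm]
    refine mul_le_mul_of_nonneg_right ?_ hn'.le
    nlinarith [Real.sq_sqrt hσ0, Real.sqrt_nonneg σ]
  have hpt : ∀ m ∈ Fintype.piFinset (fun _ : Fin n => M),
      G ^ n * ((∏ t, Q (m t)) * (Real.exp (-D) * (1 + D / 2 - (∑ t, h (m t)) ^ 2 / (2 * D))))
        ≤ min 1 (∏ t, g (m t)) := by
    intro m hm
    have hp : ∀ t, 0 < g (m t) := fun t => hg _ (Fintype.mem_piFinset.1 hm t)
    have hP : 0 < ∏ t, g (m t) := Finset.prod_pos fun t _ => hp t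
    have h2 : G ^ n * ∏ t, Q (m t) = (∏ t, g (m t)) ^ p0 := by
      simp only [hQ]
      rw [Finset.prod_div_distrib, Finset.prod_const, Finset.card_univ, Fintype.card_fin,
        mul_div_cancel₀ _ (pow_pos hG0 n).ne', Real.finsetProd_rpow _ _ (fun t _ => (hp t).le)]
    have h3 : ∑ t, h (m t) = Real.log (∏ t, g (m t)) - n * r := by
      simp only [hh, Finset.sum_sub_distrib]
      rw [Real.log_prod (fun t _ => (hp t).ne')]
      simp
    rw [← mul_assoc, h2]
    set P := ∏ t, g (m t)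
    set L := Real.log P with hL
    have hPL : P = Real.exp L := (Real.exp_log hP).symm
    have hPp : P ^ p0 = Real.exp (p0 * L) := by
      rw [Real.rpow_def_of_pos hP, ← hL, mul_comm]
    rw [h3]
    refine (mul_le_mul_of_nonneg_left (exp_aux (L - n * r) D hD0) (by positivity)).trans ?_
    rw [hPp, ← Real.exp_add]
    refine le_min ?_ ?_
    · rw [Real.exp_le_one_iff]
      rcases h0.lt_or_eq with hp0 | hp0
      · have hr' := hr2 hp0
        have h4 : n * r ≤ 0 := mul_nonpos_of_nonneg_of_nonpos hn'.le hr'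
        have h5 := le_abs_self (L - n * r)
        have h6 := abs_nonneg (L - n * r)
        rcases le_total L 0 with h7 | h7
        · nlinarith
        · nlinarith
      · rw [← hp0]
        simp
    · rw [hPL, Real.exp_le_exp]
      rcases h1.lt_or_eq with hp0 | hp0
      · have hr' := hr1 hp0
        have h4 : 0 ≤ n * r := mul_nonneg hn'.le hr'
        have h5 := neg_abs_le (L - n * r)
        have h6 := abs_nonneg (L - n * r)
        rcases le_total L 0 with h7 | h7
        · nlinarith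
        · nlinarith
      · rw [hp0]
        have h6 := abs_nonneg (L - n * r)
        linarith
  have hle := Finset.sum_le_sum hpt
  have heq : ∑ m ∈ Fintype.piFinset (fun _ : Fin n => M),
      G ^ n * ((∏ t, Q (m t)) * (Real.exp (-D) * (1 + D / 2 - (∑ t, h (m t)) ^ 2 / (2 * D))))
      = G ^ n * (Real.exp (-D) * (1 + D / 2 - (n * σ) / (2 * D))) := by
    rw [← Finset.mul_sum]
    congr 1
    have h4 := second_moment M Q h hQ1 hQh n
    have h5 : ∑ m ∈ Fintype.piFinset (fun _ : Fin n => M), ∏ t, Q (m t) = 1 := by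
      rw [← Finset.sum_pow' M Q n, hQ1, one_pow]
    rw [← hσ] at h4
    have h6 : ∀ m : Fin n → ℤ, (∏ t, Q (m t)) * (Real.exp (-D) * (1 + D / 2
        - (∑ t, h (m t)) ^ 2 / (2 * D))) = (Real.exp (-D) * (1 + D / 2)) * (∏ t, Q (m t))
          - (Real.exp (-D) / (2 * D)) * ((∏ t, Q (m t)) * (∑ t, h (m t)) ^ 2) := by
      intro m
      field_simp
    rw [Finset.sum_congr rfl fun m _ => h6 m, Finset.sum_sub_distrib, ← Finset.mul_sum,
      ← Finset.mul_sum, h4, h5]
    field_simp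
  rw [heq] at hle
  refine le_trans ?_ hle
  refine mul_le_mul_of_nonneg_left ?_ (pow_pos hG0 n).le
  have h7 : (n * σ) / (2 * D) ≤ D / 2 := by
    rw [div_le_div_iff₀ (by positivity) (by norm_num)]
    nlinarith
  have h8 := Real.exp_pos (-D)
  nlinarith

end Pool.Agent.R508.FD
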