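import Mathlib
import Pool.Agent.R508.FDsum
import Pool.Agent.R508.FDtilt

set_option autoImplicit false

/-! Random subsets of a product set and their dilate sums (helper508, MP_0d5181_co). -/

open Finset

namespace Pool.Agent.R508.FD

/-- the convolution `α + k α` on its support -/
noncomputable def gk (s : Finset ℤ) (α : ℤ → ℝ) (k c : ℤ) : ℝ :=
  ∑ p ∈ (s ×ˢ s).filter (fun p => p.1 + k * p.2 = c), α p.1 * α p.2

/-- the support of `α + k α` -/
def Mk (s : Finset ℤ) (k : ℤ) : Finset ℤ := (s ×ˢ s).image fun p => p.1 + k * p.2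

/-- the product set -/
def XX (s : Finset ℤ) (n : ℕ) : Finset (Fin n → ℤ) := Fintype.piFinset fun _ => s

/-- the product weight -/
noncomputable def an (α : ℤ → ℝ) (n : ℕ) (x : Fin n → ℤ) : ℝ := ∏ t, α (x t)

variable {s : Finset ℤ} {α : ℤ → ℝ}

theorem gk_pos (hα : ∀ i ∈ s, 0 < α i) (k c : ℤ) (hc : c ∈ Mk s k) : 0 < gk s α k c := by
  obtain ⟨p, hp, rfl⟩ := mem_image.1 hc
  refine Finset.sum_pos (fun q hq => ?_) ⟨p, mem_filter.2 ⟨hp, rfl⟩⟩
  have := mem_product.1 (mem_filter.1 hq).1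
  exact mul_pos (hα _ this.1) (hα _ this.2)

theorem Mk_nonempty (hs : s.Nonempty) (k : ℤ) : (Mk s k).Nonempty := by
  obtain ⟨x, hx⟩ := hs
  exact ⟨x + k * x, mem_image.2 ⟨(x, x), mem_product.2 ⟨hx, hx⟩, rfl⟩⟩

theorem sum_gk (k : ℤ) : ∑ c ∈ Mk s k, gk s α k c = (∑ i ∈ s, α i) ^ 2 := by
  unfold gk
  rw [Finset.sum_fiberwise_of_maps_to (s := s ×ˢ s) (t := Mk s k)
    (g := fun p : ℤ × ℤ => p.1 + k * p.2) (fun p hp => mem_image.2 ⟨p, hp, rfl⟩), sq, Finset.sum_mul_sum, Finset.sum_product]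

theorem gk_le (hα : ∀ i ∈ s, 0 < α i ∧ α i ≤ 1) (k c : ℤ) : gk s α k c ≤ ∑ i ∈ s, α i := by
  unfold gk
  calc ∑ p ∈ (s ×ˢ s).filter (fun p => p.1 + k * p.2 = c), α p.1 * α p.2
      ≤ ∑ p ∈ (s ×ˢ s).filter (fun p => p.1 + k * p.2 = c), α p.2 := by
        refine Finset.sum_le_sum fun p hp => ?_
        have h := mem_product.1 (mem_filter.1 hp).1
        exact mul_le_of_le_one_left (hα _ h.2).1.le (hα _ h.1).2
    _ = ∑ i ∈ ((s ×ˢ s).filter (fun p => p.1 + k * p.2 = c)).image Prod.snd, α i := by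
        rw [Finset.sum_image]
        intro p hp q hq h
        have h1 := (mem_filter.1 hp).2
        have h2 := (mem_filter.1 hq).2
        have h3 : p.2 = q.2 := h
        rw [h3] at h1
        exact Prod.ext (by linarith) h3
    _ ≤ ∑ i ∈ s, α i := by
        refine Finset.sum_le_sum_of_subset_of_nonneg ?_ fun i hi _ => (hα i hi).1.le
        intro i hi
        obtain ⟨p, hp, rfl⟩ := mem_image.1 hi
        exact (mem_product.1 (mem_filter.1 hp).1).2

/-- `A ≤ F(p)` -/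
theorem A_le (hα : ∀ i ∈ s, 0 < α i ∧ α i ≤ 1) (hA : 1 ≤ ∑ i ∈ s, α i) (k : ℤ) (p : ℝ)
    (h0 : 0 ≤ p) (h1 : p ≤ 1) : ∑ i ∈ s, α i ≤ FF (Mk s k) (gk s α k) p := by
  set A := ∑ i ∈ s, α i with hAd
  have hA0 : 0 < A := by linarith
  have h2 : ∀ c ∈ Mk s k, gk s α k c / A ≤ gk s α k c ^ p := by
    intro c hc
    have hpos := gk_pos (fun i hi => (hα i hi).1) k c hc
    refine le_trans ?_ (min_le_rpow _ p hpos h0 h1)
    refine le_min ?_ ?_
    · rw [div_le_one hA0]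
      exact gk_le hα k c
    · exact div_le_self hpos.le hA
  have h3 := Finset.sum_le_sum h2
  rw [← Finset.sum_div, sum_gk, ← hAd] at h3
  refine le_trans (le_of_eq ?_) h3
  field_simp

theorem sum_an (n : ℕ) : ∑ x ∈ XX s n, an α n x = (∑ i ∈ s, α i) ^ n :=
  (Finset.sum_pow' s α n).symm

/-- the product formula for the convolution -/
theorem prod_gk (n : ℕ) (k : ℤ) (m : Fin n → ℤ) :
    ∏ t, gk s α k (m t) = ∑ p ∈ (XX s n ×ˢ XX s n).filter (fun p => p.1 + k • p.2 = m),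
      an α n p.1 * an α n p.2 := by
  unfold gk
  rw [Finset.prod_univ_sum]
  refine Finset.sum_bij' (fun P _ => (fun t => (P t).1, fun t => (P t).2))
    (fun q _ => fun t => (q.1 t, q.2 t)) ?_ ?_ ?_ ?_ ?_
  · intro P hP
    rw [Fintype.mem_piFinset] at hP
    rw [mem_filter, mem_product]
    refine ⟨⟨?_, ?_⟩, ?_⟩
    · exact Fintype.mem_piFinset.2 fun t => (mem_product.1 (mem_filter.1 (hP t)).1).1
    · exact Fintype.mem_piFinset.2 fun t => (mem_product.1 (mem_filter.1 (hP t)).1).2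
    · funext t
      have := (mem_filter.1 (hP t)).2
      simpa using this
  · intro q hq
    rw [mem_filter, mem_product] at hq
    rw [Fintype.mem_piFinset]
    intro t
    rw [mem_filter, mem_product]
    refine ⟨⟨Fintype.mem_piFinset.1 hq.1.1 t, Fintype.mem_piFinset.1 hq.1.2 t⟩, ?_⟩
    have := congrFun hq.2 t
    simpa using this
  · intro P _; rfl
  · intro q _; rfl
  · intro P _
    simp only [an]
    rw [Finset.prod_mul_distrib]

theorem an_bd (hα : ∀ i ∈ s, 0 < α i ∧ α i ≤ 1) (n : ℕ) (x : Fin n → ℤ) (hx : x ∈ XX s n) :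
    0 ≤ an α n x ∧ an α n x ≤ 1 := by
  have hx' := Fintype.mem_piFinset.1 hx
  exact ⟨Finset.prod_nonneg fun t _ => (hα _ (hx' t)).1.le,
    Finset.prod_le_one (fun t _ => (hα _ (hx' t)).1.le) fun t _ => (hα _ (hx' t)).2⟩

theorem an_bd' (hα : ∀ i ∈ s, 0 < α i ∧ α i ≤ 1) (n : ℕ) :
    ∀ x ∈ (XX s n).toList, 0 ≤ an α n x ∧ an α n x ≤ 1 := fun x hx =>
  an_bd hα n x (Finset.mem_toList.1 hx)

/-- expected number of representations -/
theorem E_Rp (hα : ∀ i ∈ s, 0 < α i ∧ α i ≤ 1) (n : ℕ) (k : ℤ) (m : Fin n → ℤ) :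
    EE (an α n) (XX s n).toList (fun S => ((Rp k m S).card : ℝ))
      = ∑ p ∈ (XX s n ×ˢ XX s n).filter (fun p => p.1 + k • p.2 = m),
        if p.1 = p.2 then an α n p.1 else an α n p.1 * an α n p.2 := by
  have h1 : EE (an α n) (XX s n).toList (fun S => ((Rp k m S).card : ℝ))
      = EE (an α n) (XX s n).toList (fun S =>
        ∑ p ∈ (XX s n ×ˢ XX s n).filter (fun p => p.1 + k • p.2 = m),
          if p.1 ∈ S ∧ p.2 ∈ S then (1 : ℝ) else 0) := by
    refine EE_congr _ (an_bd' hα n) _ _ fun S hS => ?_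
    rw [← Finset.sum_filter, Finset.sum_const, nsmul_eq_mul, mul_one]
    congr 2
    ext p
    simp only [Rp, mem_filter, mem_product]
    constructor
    · rintro ⟨⟨h1, h2⟩, h3⟩
      exact ⟨⟨⟨Finset.mem_toList.1 (hS _ h1), Finset.mem_toList.1 (hS _ h2)⟩, h3⟩, h1, h2⟩
    · rintro ⟨⟨_, h3⟩, h1, h2⟩
      exact ⟨⟨h1, h2⟩, h3⟩
  rw [h1, EE_sum]
  refine Finset.sum_congr rfl fun p hp => ?_
  have h := mem_product.1 (mem_filter.1 hp).1
  exact EE_pair _ (Finset.nodup_toList _) (an_bd' hα n) p.1 p.2 (Finset.mem_toList.2 h.1)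
    (Finset.mem_toList.2 h.2)

theorem E_Rp_lower (hα : ∀ i ∈ s, 0 < α i ∧ α i ≤ 1) (n : ℕ) (k : ℤ) (m : Fin n → ℤ) :
    ∏ t, gk s α k (m t) ≤ EE (an α n) (XX s n).toList (fun S => ((Rp k m S).card : ℝ)) := by
  rw [E_Rp hα, prod_gk]
  refine Finset.sum_le_sum fun p hp => ?_
  have h := mem_product.1 (mem_filter.1 hp).1
  split_ifs with h1
  · rw [← h1]
    have := an_bd hα n _ h.1
    exact mul_le_of_le_one_right this.1 this.2
  · exact le_rfl

theorem E_Rp_upper (hα : ∀ i ∈ s, 0 < α i ∧ α i ≤ 1) (n : ℕ) (k : ℤ) (m : Fin n → ℤ) :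
    EE (an α n) (XX s n).toList (fun S => ((Rp k m S).card : ℝ)) ≤ ∏ t, gk s α k (m t)
      + ∑ x ∈ (XX s n).filter (fun x => x + k • x = m), an α n x := by
  rw [E_Rp hα, prod_gk]
  have h1 : ∀ p ∈ (XX s n ×ˢ XX s n).filter (fun p => p.1 + k • p.2 = m),
      (if p.1 = p.2 then an α n p.1 else an α n p.1 * an α n p.2)
        ≤ an α n p.1 * an α n p.2 + if p.1 = p.2 then an α n p.1 else 0 := by
    intro p hp
    have h := mem_product.1 (mem_filter.1 hp).1
    have h2 := an_bd hα n _ h.1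
    have h3 := an_bd hα n _ h.2
    split_ifs
    · have := mul_nonneg h2.1 h3.1
      linarith
    · simp
  refine (Finset.sum_le_sum h1).trans ?_
  rw [Finset.sum_add_distrib]
  refine add_le_add le_rfl ?_
  rw [← Finset.sum_filter, Finset.filter_filter]
  have h2 : ∑ p ∈ (XX s n ×ˢ XX s n).filter (fun p => p.1 + k • p.2 = m ∧ p.1 = p.2), an α n p.1
      = ∑ x ∈ ((XX s n ×ˢ XX s n).filter (fun p => p.1 + k • p.2 = m ∧ p.1 = p.2)).image Prod.fst,
        an α n x := by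
    rw [Finset.sum_image]
    intro p hp q hq h
    have h3 : p.1 = q.1 := h
    have h4 := (mem_filter.1 hp).2.2
    have h5 := (mem_filter.1 hq).2.2
    exact Prod.ext h3 (h4.symm.trans (h3.trans h5))
  rw [h2]
  refine Finset.sum_le_sum_of_subset_of_nonneg ?_ fun x hx _ => (an_bd hα n x (mem_filter.1 hx).1).1
  intro x hx
  obtain ⟨p, hp, rfl⟩ := mem_image.1 hx
  obtain ⟨h3, h4, h5⟩ := mem_filter.1 hp
  refine mem_filter.2 ⟨(mem_product.1 h3).1, ?_⟩
  rw [← h5] at h4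
  exact h4

theorem smul_inj (n : ℕ) (k : ℤ) (hk : k ≠ 0) :
    Function.Injective fun y : Fin n → ℤ => k • y := by
  intro y z h
  funext t
  have := congrFun h t
  simp only [Pi.smul_apply, smul_eq_mul] at this
  exact mul_left_cancel₀ hk this

/-- the expected size of `S + k S` -/
noncomputable def ek (s : Finset ℤ) (α : ℤ → ℝ) (k : ℤ) (n : ℕ) : ℝ :=
  EE (an α n) (XX s n).toList (fun S => ((sm k S).card : ℝ))

theorem ek_eq (hα : ∀ i ∈ s, 0 < α i ∧ α i ≤ 1) (k : ℤ) (n : ℕ) :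
    ek s α k n = ∑ m ∈ Fintype.piFinset (fun _ : Fin n => Mk s k),
      EE (an α n) (XX s n).toList (fun S => if m ∈ sm k S then 1 else 0) := by
  unfold ek
  rw [← EE_sum]
  refine EE_congr _ (an_bd' hα n) _ _ fun S hS => ?_
  rw [← Finset.sum_filter, Finset.sum_const, nsmul_eq_mul, mul_one]
  congr 2
  ext m
  simp only [mem_filter]
  refine ⟨fun h => ⟨?_, h⟩, fun h => h.2⟩
  obtain ⟨x, hx, y, hy, rfl⟩ := (mem_sm _ _ _).1 h
  rw [Fintype.mem_piFinset]
  intro t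
  exact mem_image.2 ⟨(x t, y t), mem_product.2
    ⟨Fintype.mem_piFinset.1 (Finset.mem_toList.1 (hS x hx)) t,
      Fintype.mem_piFinset.1 (Finset.mem_toList.1 (hS y hy)) t⟩, by simp⟩

theorem ek_lower (hα : ∀ i ∈ s, 0 < α i ∧ α i ≤ 1) (k : ℤ) (hk : k ≠ 0) (n : ℕ) :
    (∑ m ∈ Fintype.piFinset (fun _ : Fin n => Mk s k), min 1 (∏ t, gk s α k (m t))) / 5
      ≤ ek s α k n := by
  rw [ek_eq hα, Finset.sum_div]
  refine Finset.sum_le_sum fun m hm => ?_
  refine prob_lower k (smul_inj n k hk) _ (Finset.nodup_toList _) (an_bd' hα n) m _ ?_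
    (E_Rp_lower hα n k m)
  exact Finset.prod_nonneg fun t _ =>
    (gk_pos (fun i hi => (hα i hi).1) k _ (Fintype.mem_piFinset.1 hm t)).le

theorem ek_upper (hα : ∀ i ∈ s, 0 < α i ∧ α i ≤ 1) (k : ℤ) (n : ℕ) :
    ek s α k n ≤ (∑ m ∈ Fintype.piFinset (fun _ : Fin n => Mk s k),
      min 1 (∏ t, gk s α k (m t))) + (∑ i ∈ s, α i) ^ n := by
  rw [ek_eq hα]
  have h1 : ∀ m ∈ Fintype.piFinset (fun _ : Fin n => Mk s k),
      EE (an α n) (XX s n).toList (fun S => if m ∈ sm k S then 1 else 0)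
      ≤ min 1 (∏ t, gk s α k (m t)) + ∑ x ∈ (XX s n).filter (fun x => x + k • x = m), an α n x :=
    fun m _ => prob_upper k _ (an_bd' hα n) m _ _
      (Finset.sum_nonneg fun x hx => (an_bd hα n x (mem_filter.1 hx).1).1) (E_Rp_upper hα n k m)
  refine (Finset.sum_le_sum h1).trans ?_
  rw [Finset.sum_add_distrib]
  refine add_le_add le_rfl (le_of_eq ?_)
  rw [Finset.sum_fiberwise_of_maps_to (g := fun x : Fin n → ℤ => x + k • x), sum_an]
  intro x hx
  rw [Fintype.mem_piFinset]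
  intro t
  have := Fintype.mem_piFinset.1 hx t
  exact mem_image.2 ⟨(x t, x t), mem_product.2 ⟨this, this⟩, by simp⟩

end Pool.Agent.R508.FD
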