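import Mathlib
import Pool.Agent.R508.FDprod

set_option autoImplicit false

/-! Choice of the random set (helper508, MP_0d5181_co). -/

open Finset Filter Topology

namespace Pool.Agent.R508.FD

variable {s : Finset ℤ} {α : ℤ → ℝ}

theorem exists_min (M : Finset ℤ) (g : ℤ → ℝ) (hg : ∀ c ∈ M, 0 < g c) :
    ∃ p0 : ℝ, 0 ≤ p0 ∧ p0 ≤ 1 ∧ ∀ p, 0 ≤ p → p ≤ 1 → FF M g p0 ≤ FF M g p := by
  obtain ⟨p0, hp0, h⟩ := isCompact_Icc.exists_isMinOn (s := Set.Icc (0 : ℝ) 1)
    ⟨0, by simp⟩ (FF_cont M g hg).continuousOn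
  exact ⟨p0, hp0.1, hp0.2, fun p h0 h1 => h ⟨h0, h1⟩⟩

/-- the infimum over the open interval is the minimum over the closed one -/
theorem iInf_eq_min (M : Finset ℤ) (g : ℤ → ℝ) (hg : ∀ c ∈ M, 0 < g c) (p0 : ℝ) (h0 : 0 ≤ p0)
    (h1 : p0 ≤ 1) (hmin : ∀ p, 0 ≤ p → p ≤ 1 → FF M g p0 ≤ FF M g p) :
    ⨅ p : Set.Ioo (0 : ℝ) 1, FF M g p = FF M g p0 := by
  have : Nonempty (Set.Ioo (0 : ℝ) 1) := ⟨⟨1 / 2, by norm_num, by norm_num⟩⟩
  have hbdd : BddBelow (Set.range fun p : Set.Ioo (0 : ℝ) 1 => FF M g p) :=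
    ⟨FF M g p0, by rintro _ ⟨p, rfl⟩; exact hmin p p.2.1.le p.2.2.le⟩
  refine le_antisymm ?_ (le_ciInf fun p => hmin p p.2.1.le p.2.2.le)
  -- approximate `p0` from inside
  have hseq : Tendsto (fun n : ℕ => p0 + (1 / 2 - p0) * (1 / ((n : ℝ) + 1))) atTop (𝓝 p0) := by
    have := (tendsto_one_div_add_atTop_nhds_zero_nat (𝕜 := ℝ)).const_mul (1 / 2 - p0)
    simpa using this.const_add p0
  have hF := ((FF_cont M g hg).tendsto p0).comp hseq
  refine ge_of_tendsto hF ?_
  filter_upwards [eventually_gt_atTop 0] with n hn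
  have hn' : (0 : ℝ) < 1 / ((n : ℝ) + 1) := by positivity
  have hn1 : 1 / ((n : ℝ) + 1) < 1 := by
    rw [div_lt_one (by positivity)]
    have : (0 : ℝ) < n := by exact_mod_cast hn
    linarith
  have hmem : p0 + (1 / 2 - p0) * (1 / ((n : ℝ) + 1)) ∈ Set.Ioo (0 : ℝ) 1 := by
    constructor <;> nlinarith
  exact ciInf_le hbdd ⟨_, hmem⟩

/-- data for one `k` -/
theorem data (hα : ∀ i ∈ s, 0 < α i ∧ α i ≤ 1) (hA : 1 < ∑ i ∈ s, α i) (k : ℤ) (hk : k ≠ 0) :
    ∃ G K : ℝ, ∑ i ∈ s, α i ≤ G ∧ 0 < K ∧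
      (⨅ p : Set.Ioo (0 : ℝ) 1, FF (Mk s k) (gk s α k) p = G) ∧
      (∀ n : ℕ, G ^ n * Real.exp (-(K * √n)) / 5 ≤ ek s α k n) ∧
      (∀ n : ℕ, ek s α k n ≤ 2 * G ^ n) := by
  have hs : s.Nonempty := by
    by_contra hc
    rw [Finset.not_nonempty_iff_eq_empty] at hc
    rw [hc, Finset.sum_empty] at hA
    linarith
  have hg : ∀ c ∈ Mk s k, 0 < gk s α k c := fun c hc => gk_pos (fun i hi => (hα i hi).1) k c hc
  obtain ⟨p0, h0, h1, hmin⟩ := exists_min (Mk s k) (gk s α k) hg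
  obtain ⟨K, hK, hlow⟩ := tilt_lower (Mk s k) (gk s α k) hg (Mk_nonempty hs k) p0 h0 h1 hmin
  have hAG := A_le hα hA.le k p0 h0 h1
  refine ⟨FF (Mk s k) (gk s α k) p0, K, hAG, hK, iInf_eq_min _ _ hg p0 h0 h1 hmin, fun n => ?_,
    fun n => ?_⟩
  · refine le_trans ?_ (ek_lower hα k hk n)
    exact div_le_div_of_nonneg_right (hlow n) (by norm_num)
  · refine (ek_upper hα k n).trans ?_
    have h2 := upper_sum (Mk s k) (gk s α k) hg p0 h0 h1 n
    have h3 : (∑ i ∈ s, α i) ^ n ≤ FF (Mk s k) (gk s α k) p0 ^ n :=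
      pow_le_pow_left₀ (by linarith) hAG n
    linarith

/-! ### asymptotics -/

theorem lim_ratio (A G K : ℝ) (hA : 0 < A) (hAG : A < G) :
    Tendsto (fun n : ℕ => (A / G) ^ n * Real.exp (K * √n)) atTop (𝓝 0) := by
  have hG : 0 < G := hA.trans hAG
  set c := -Real.log (A / G) with hc
  have hAG' : 0 < A / G := div_pos hA hG
  have hc0 : 0 < c := by
    rw [hc, neg_pos]
    exact Real.log_neg hAG' ((div_lt_one hG).2 hAG)
  have h1 : ∀ n : ℕ, (A / G) ^ n * Real.exp (K * √n)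
      ≤ Real.exp (K ^ 2 / (2 * c)) * Real.exp (-(c / 2)) ^ n := by
    intro n
    have h2 : (A / G) ^ n = Real.exp (-(c * n)) := by
      rw [hc, neg_mul, neg_neg, mul_comm, Real.exp_nat_mul, Real.exp_log hAG']
    rw [h2, ← Real.exp_add, ← Real.exp_nat_mul, ← Real.exp_add, Real.exp_le_exp]
    have h3 : 0 ≤ (c * √n - K) ^ 2 := sq_nonneg _
    have h4 : √(n : ℝ) ^ 2 = n := Real.sq_sqrt (Nat.cast_nonneg n)
    have h5 : K ^ 2 / (2 * c) + n * -(c / 2) - (-(c * n) + K * √n) = (c * √n - K) ^ 2 / (2 * c) := by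
      rw [sub_sq, mul_pow, h4]
      field_simp
      ring
    have h6 : 0 ≤ (c * √n - K) ^ 2 / (2 * c) := by positivity
    linarith
  have h2 : Tendsto (fun n : ℕ => Real.exp (K ^ 2 / (2 * c)) * Real.exp (-(c / 2)) ^ n) atTop
      (𝓝 0) := by
    have := tendsto_pow_atTop_nhds_zero_of_lt_one (Real.exp_pos (-(c / 2))).le
      (Real.exp_lt_one_iff.2 (by linarith : -(c / 2) < 0))
    simpa using this.const_mul (Real.exp (K ^ 2 / (2 * c)))
  exact squeeze_zero (fun n => by positivity) h1 h2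

theorem lim_super (A D : ℝ) (hA : 1 < A) (hD : 0 < D) :
    Tendsto (fun n : ℕ => D ^ n * Real.exp (-(A ^ n))) atTop (𝓝 0) := by
  obtain ⟨j, hj⟩ := pow_unbounded_of_one_lt (2 * D) hA
  have hA0 : 0 < A := by linarith
  have h1 : ∀ n : ℕ, D ^ n * Real.exp (-(A ^ n)) ≤ (j.factorial : ℝ) * (1 / 2) ^ n := by
    intro n
    have h2 := Real.pow_div_factorial_le_exp (A ^ n) (by positivity) j
    have h3 : Real.exp (-(A ^ n)) ≤ j.factorial / (A ^ n) ^ j := by
      rw [Real.exp_neg, inv_eq_one_div, div_le_div_iff₀ (Real.exp_pos _) (by positivity)]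
      rw [div_le_iff₀ (by positivity)] at h2
      linarith
    calc D ^ n * Real.exp (-(A ^ n)) ≤ D ^ n * (j.factorial / (A ^ n) ^ j) :=
          mul_le_mul_of_nonneg_left h3 (by positivity)
      _ = (j.factorial : ℝ) * (D / A ^ j) ^ n := by
          rw [div_pow, ← pow_mul, ← pow_mul, mul_comm n j]
          ring
      _ ≤ (j.factorial : ℝ) * (1 / 2) ^ n := by
          refine mul_le_mul_of_nonneg_left (pow_le_pow_left₀ (by positivity) ?_ n) (by positivity)
          rw [div_le_div_iff₀ (by positivity) (by norm_num)]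
          linarith
  have h2 : Tendsto (fun n : ℕ => (j.factorial : ℝ) * (1 / 2) ^ n) atTop (𝓝 0) := by
    have := tendsto_pow_atTop_nhds_zero_of_lt_one (by norm_num : (0 : ℝ) ≤ 1 / 2) (by norm_num)
    simpa using this.const_mul (j.factorial : ℝ)
  exact squeeze_zero (fun n => by positivity) h1 h2

/-- the variance term tends to zero -/
theorem var_term (hA : 1 < ∑ i ∈ s, α i) (k : ℤ)
    (G K : ℝ) (hAG : ∑ i ∈ s, α i < G)
    (hlow : ∀ n : ℕ, G ^ n * Real.exp (-(K * √n)) / 5 ≤ ek s α k n) :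
    ∀ᶠ n : ℕ in atTop, ∀ η : ℝ, η = η → 0 < ek s α k n ∧ 
      (16 * (∑ i ∈ s, α i) ^ n * ek s α k n + 4 * (((s.card : ℝ) ^ n) ^ 3
        * Real.exp (-((∑ i ∈ s, α i) ^ n)))) / ek s α k n ^ 2
      ≤ 80 * (((∑ i ∈ s, α i) / G) ^ n * Real.exp (K * √n))
        + 4 * ((((s.card : ℝ) ^ 3) ^ n) * Real.exp (-((∑ i ∈ s, α i) ^ n))) := by
  set A := ∑ i ∈ s, α i with hAd
  have hA0 : 0 < A := by linarith
  have hG0 : 0 < G := hA0.trans hAG
  have h1 := lim_ratio A G K hA0 hAG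
  have h2 : ∀ᶠ n : ℕ in atTop, (A / G) ^ n * Real.exp (K * √n) < 1 / 5 :=
    h1.eventually_lt_const (by norm_num)
  filter_upwards [h2] with n hn η _
  set e := ek s α k n with he
  have hl := hlow n
  have hpos : 0 < G ^ n * Real.exp (-(K * √n)) := by positivity
  have he0 : 0 < e := lt_of_lt_of_le (by positivity) hl
  have hAn : 1 ≤ A ^ n := one_le_pow₀ hA.le
  -- A^n / e ≤ 5 (A/G)^n exp(K√n)
  have h3 : A ^ n / e ≤ 5 * ((A / G) ^ n * Real.exp (K * √n)) := by
    rw [div_le_iff₀ he0]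
    have h4 : (A / G) ^ n * Real.exp (K * √n) * (G ^ n * Real.exp (-(K * √n))) = A ^ n := by
      rw [div_pow, Real.exp_neg]
      field_simp
    have h5 : 0 ≤ (A / G) ^ n * Real.exp (K * √n) := by positivity
    nlinarith
  have he1 : 1 ≤ e := by
    have h4 : A ^ n / e < 1 := by linarith
    rw [div_lt_one he0] at h4
    linarith
  refine ⟨he0, ?_⟩
  have h6 : (16 * A ^ n * e + 4 * (((s.card : ℝ) ^ n) ^ 3 * Real.exp (-(A ^ n)))) / e ^ 2
      = 16 * (A ^ n / e) + 4 * (((s.card : ℝ) ^ n) ^ 3 * Real.exp (-(A ^ n))) / e ^ 2 := by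
    field_simp
  rw [h6]
  have h7 : 4 * (((s.card : ℝ) ^ n) ^ 3 * Real.exp (-(A ^ n))) / e ^ 2
      ≤ 4 * (((s.card : ℝ) ^ n) ^ 3 * Real.exp (-(A ^ n))) :=
    div_le_self (by positivity) (one_le_pow₀ he1)
  have h8 : (((s.card : ℝ) ^ n) ^ 3) = ((s.card : ℝ) ^ 3) ^ n := by
    rw [← pow_mul, ← pow_mul, mul_comm]
  rw [h8] at h7 ⊢
  linarith

theorem card_le_sm {n : ℕ} (k : ℤ) (S : Finset (Fin n → ℤ)) : S.card ≤ (sm k S).card := by
  rcases S.eq_empty_or_nonempty with rfl | ⟨y, hy⟩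
  · simp
  · refine Finset.card_le_card_of_injOn (fun x => x + k • y)
      (fun x hx => (mem_sm _ _ _).2 ⟨x, hx, y, hy, rfl⟩) ?_
    intro x _ z _ h
    exact add_right_cancel h

theorem sum_list (n : ℕ) : ((XX s n).toList.map (an α n)).sum = (∑ i ∈ s, α i) ^ n := by
  rw [← sum_an, Finset.sum_map_toList]

/-- choice of the set -/
theorem select (hα : ∀ i ∈ s, 0 < α i ∧ α i ≤ 1) (hA : 1 < ∑ i ∈ s, α i) (Ks : Finset ℤ)
    (G K : ℤ → ℝ)
    (hAG : ∀ k ∈ Ks, ∑ i ∈ s, α i ≤ G k)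
    (hlow : ∀ k ∈ Ks, ∀ n : ℕ, G k ^ n * Real.exp (-(K k * √n)) / 5 ≤ ek s α k n)
    (hup : ∀ k ∈ Ks, ∀ n : ℕ, ek s α k n ≤ 2 * G k ^ n) (hK : ∀ k ∈ Ks, 0 < K k) :
    ∀ᶠ n : ℕ in atTop, ∃ S : Finset (Fin n → ℤ),
      (∑ i ∈ s, α i) ^ n / 2 < S.card ∧ (S.card : ℝ) < 2 * (∑ i ∈ s, α i) ^ n ∧
      ∀ k ∈ Ks, G k ^ n * Real.exp (-(K k * √n)) / 10 ≤ (sm k S).card ∧
        ((sm k S).card : ℝ) ≤ (8 * Ks.card + 4) * G k ^ n := by
  classical
  set A := ∑ i ∈ s, α i with hAd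
  have hA0 : 0 < A := by linarith
  -- the bound
  set T : ℕ → ℝ := fun n => 4 * (1 / A ^ n) + ∑ k ∈ Ks, (if A < G k then
    4 * (80 * ((A / G k) ^ n * Real.exp (K k * √n))
      + 4 * ((((s.card : ℝ) ^ 3) ^ n) * Real.exp (-(A ^ n)))) else 1 / (4 * (Ks.card : ℝ))) with hT
  have hTlim : Tendsto T atTop (𝓝 (4 * 0 + ∑ k ∈ Ks, (if A < G k then
      4 * (80 * 0 + 4 * 0) else 1 / (4 * (Ks.card : ℝ))))) := by
    refine Tendsto.add (Tendsto.const_mul _ ?_) (tendsto_finsetSum _ fun k _ => ?_)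
    · have := tendsto_pow_atTop_nhds_zero_of_lt_one (by positivity : 0 ≤ 1 / A)
        ((div_lt_one hA0).2 hA)
      simpa using this
    · split_ifs with h
      · refine Tendsto.const_mul _ (Tendsto.add (Tendsto.const_mul _ (lim_ratio A (G k) _ hA0 h))
          (Tendsto.const_mul _ ?_))
        rcases s.eq_empty_or_nonempty with hs | hs
        · exfalso
          rw [hAd, hs, Finset.sum_empty] at hA
          linarith
        · have : (0 : ℝ) < s.card := by exact_mod_cast hs.card_pos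
          exact lim_super A _ hA (by positivity)
      · exact tendsto_const_nhds
  have hlimle : (4 * 0 + ∑ k ∈ Ks, (if A < G k then
      4 * (80 * 0 + 4 * 0) else 1 / (4 * (Ks.card : ℝ)))) < 1 := by
    have h1 : ∑ k ∈ Ks, (if A < G k then (4 * (80 * 0 + 4 * 0) : ℝ) else 1 / (4 * (Ks.card : ℝ)))
        ≤ ∑ k ∈ Ks, 1 / (4 * (Ks.card : ℝ)) := by
      refine Finset.sum_le_sum fun k _ => ?_
      split_ifs
      · have : (0 : ℝ) ≤ 1 / (4 * (Ks.card : ℝ)) := by positivity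
        simpa using this
      · exact le_rfl
    rw [Finset.sum_const, nsmul_eq_mul] at h1
    have h2 : (Ks.card : ℝ) * (1 / (4 * (Ks.card : ℝ))) ≤ 1 / 4 := by
      rcases Nat.eq_zero_or_pos Ks.card with h | h
      · rw [h]; norm_num
      · have : (0 : ℝ) < Ks.card := by exact_mod_cast h
        exact le_of_eq (by field_simp)
    linarith
  have hT1 : ∀ᶠ n in atTop, T n < 1 := hTlim.eventually_lt_const hlimle
  have hvar : ∀ᶠ n : ℕ in atTop, ∀ k ∈ Ks, A < G k → (0 < ek s α k n ∧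
      (16 * A ^ n * ek s α k n + 4 * (((s.card : ℝ) ^ n) ^ 3
        * Real.exp (-(A ^ n)))) / ek s α k n ^ 2
      ≤ 80 * ((A / G k) ^ n * Real.exp (K k * √n))
        + 4 * ((((s.card : ℝ) ^ 3) ^ n) * Real.exp (-(A ^ n)))) := by
    rw [Filter.eventually_all_finset]
    intro k hk
    by_cases h : A < G k
    · filter_upwards [var_term hA k (G k) (K k) h (hlow k hk)] with n hn _
      exact hn 0 rfl
    · exact Eventually.of_forall fun n h' => absurd h' h
  filter_upwards [hT1, hvar] with n hn hv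
  set Φ : Finset (Fin n → ℤ) → ℝ := fun S => (4 / (A ^ n) ^ 2) * ((S.card : ℝ) - A ^ n) ^ 2
    + ∑ k ∈ Ks, (if A < G k then (4 / ek s α k n ^ 2) * (((sm k S).card : ℝ) - ek s α k n) ^ 2
      else (1 / (8 * Ks.card * A ^ n)) * ((sm k S).card : ℝ)) with hΦ
  have hAn : 0 < A ^ n := by positivity
  have hE : EE (an α n) (XX s n).toList Φ ≤ T n := by
    rw [hΦ, EE_add, EE_smul, EE_sum]
    refine add_le_add ?_ (Finset.sum_le_sum fun k hk => ?_)
    · have h1 := (var_card (XX s n).toList (Finset.nodup_toList _) (an_bd' hα n)).2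
      rw [sum_list, ← hAd] at h1
      calc _ ≤ (4 / (A ^ n) ^ 2) * A ^ n := mul_le_mul_of_nonneg_left h1 (by positivity)
        _ = 4 * (1 / A ^ n) := by field_simp
    · by_cases h : A < G k
      · simp only [if_pos h]
        obtain ⟨he0, hv1⟩ := hv k hk h
        rw [EE_smul]
        have h1 := var_sm (a := an α n) k (XX s n).toList (Finset.nodup_toList _) (an_bd' hα n)
        rw [sum_list, ← hAd, Finset.length_toList] at h1
        have h2 : (XX s n).card = s.card ^ n := by simp [XX]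
        rw [h2] at h1
        push_cast at h1
        have h3 : EE (an α n) (XX s n).toList (fun S => (((sm k S).card : ℝ) - ek s α k n) ^ 2)
            = EE (an α n) (XX s n).toList (fun S => ((sm k S).card : ℝ) ^ 2) - ek s α k n ^ 2 := by
          have e1 : (fun S : Finset (Fin n → ℤ) => (((sm k S).card : ℝ) - ek s α k n) ^ 2)
              = fun S => (((sm k S).card : ℝ) ^ 2 - (2 * ek s α k n) * ((sm k S).card : ℝ))
                + ek s α k n ^ 2 := by
            funext S; ring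
          rw [e1, EE_add, EE_sub, EE_smul, EE_const]
          show _ - 2 * ek s α k n * ek s α k n + _ = _
          ring
        rw [h3]
        have h4 : EE (an α n) (XX s n).toList (fun S => ((sm k S).card : ℝ) ^ 2)
            - ek s α k n ^ 2 ≤ 16 * A ^ n * ek s α k n + 4 * (((s.card : ℝ) ^ n) ^ 3
              * Real.exp (-(A ^ n))) := h1
        calc 4 / ek s α k n ^ 2 * (EE (an α n) (XX s n).toList (fun S => ((sm k S).card : ℝ) ^ 2)
              - ek s α k n ^ 2)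
            ≤ 4 / ek s α k n ^ 2 * (16 * A ^ n * ek s α k n + 4 * (((s.card : ℝ) ^ n) ^ 3
              * Real.exp (-(A ^ n)))) := mul_le_mul_of_nonneg_left h4 (by positivity)
          _ = 4 * ((16 * A ^ n * ek s α k n + 4 * (((s.card : ℝ) ^ n) ^ 3
              * Real.exp (-(A ^ n)))) / ek s α k n ^ 2) := by ring
          _ ≤ _ := mul_le_mul_of_nonneg_left hv1 (by norm_num)
      · simp only [if_neg h]
        rw [EE_smul]
        have h1 : G k = A := le_antisymm (not_lt.1 h) (hAG k hk)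
        have h2 := hup k hk n
        rw [h1] at h2
        have hKs : (0 : ℝ) < Ks.card := by exact_mod_cast Finset.card_pos.2 ⟨k, hk⟩
        calc _ ≤ (1 / (8 * Ks.card * A ^ n)) * (2 * A ^ n) :=
              mul_le_mul_of_nonneg_left h2 (by positivity)
          _ = 1 / (4 * (Ks.card : ℝ)) := by field_simp; norm_num
  obtain ⟨S, _, hS⟩ := EE_exists (XX s n).toList (an_bd' hα n) Φ 1 (hE.trans_lt hn)
  have hterm : ∀ k ∈ Ks, 0 ≤ (if A < G k then (4 / ek s α k n ^ 2)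
      * (((sm k S).card : ℝ) - ek s α k n) ^ 2
      else (1 / (8 * Ks.card * A ^ n)) * ((sm k S).card : ℝ)) := by
    intro k _
    split_ifs <;> positivity
  have hfirst : 0 ≤ (4 / (A ^ n) ^ 2) * ((S.card : ℝ) - A ^ n) ^ 2 := by positivity
  have hsum := Finset.sum_nonneg hterm
  have h1 : (4 / (A ^ n) ^ 2) * ((S.card : ℝ) - A ^ n) ^ 2 < 1 := by
    simp only [hΦ] at hS
    linarith
  have h2 : |(S.card : ℝ) - A ^ n| < A ^ n / 2 := by
    rw [div_mul_eq_mul_div, div_lt_one (by positivity)] at h1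
    refine abs_lt_of_sq_lt_sq ?_ (by positivity)
    nlinarith
  obtain ⟨h3, h4⟩ := abs_lt.1 h2
  refine ⟨S, by linarith, by linarith, fun k hk => ?_⟩
  have hk1 : (if A < G k then (4 / ek s α k n ^ 2) * (((sm k S).card : ℝ) - ek s α k n) ^ 2
      else (1 / (8 * Ks.card * A ^ n)) * ((sm k S).card : ℝ)) < 1 := by
    have h5 := Finset.single_le_sum hterm hk
    simp only [hΦ] at hS
    linarith
  have hKs : (0 : ℝ) < Ks.card := by exact_mod_cast Finset.card_pos.2 ⟨k, hk⟩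
  have hGk : 0 < G k := hA0.trans_le (hAG k hk)
  have hGn : 0 < G k ^ n := by positivity
  by_cases h : A < G k
  · rw [if_pos h] at hk1
    obtain ⟨he0, _⟩ := hv k hk h
    have h5 : |((sm k S).card : ℝ) - ek s α k n| < ek s α k n / 2 := by
      rw [div_mul_eq_mul_div, div_lt_one (by positivity)] at hk1
      refine abs_lt_of_sq_lt_sq ?_ (by positivity)
      nlinarith
    obtain ⟨h6, h7⟩ := abs_lt.1 h5
    have h8 := hlow k hk n
    have h9 := hup k hk n
    refine ⟨by linarith, ?_⟩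
    nlinarith [mul_pos hKs hGn]
  · rw [if_neg h] at hk1
    have h5 : G k = A := le_antisymm (not_lt.1 h) (hAG k hk)
    rw [h5]
    constructor
    · have h6 : (S.card : ℝ) ≤ (sm k S).card := by exact_mod_cast card_le_sm k S
      have h7 : Real.exp (-(K k * √n)) ≤ 1 := by
        rw [Real.exp_le_one_iff]
        have := hK k hk
        have := Real.sqrt_nonneg (n : ℝ)
        nlinarith [mul_nonneg (hK k hk).le (Real.sqrt_nonneg (n : ℝ))]
      have h8 : A ^ n * Real.exp (-(K k * √n)) ≤ A ^ n := mul_le_of_le_one_right hAn.le h7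
      linarith
    · rw [div_mul_eq_mul_div, one_mul, div_lt_one (by positivity)] at hk1
      nlinarith

end Pool.Agent.R508.FD
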