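import Mathlib
import Pool.Agent.R508.FDmain

set_option autoImplicit false

/-! End of the proof (helper508, MP_0d5181_co). -/

open Finset Filter Topology

namespace Pool.Agent.R508.FD

theorem lim_err (a b C1 C2 : ℝ) (ha : 0 < a) :
    Tendsto (fun n : ℕ => (C1 * √n + C2) / (n * a - b)) atTop (𝓝 0) := by
  have h1 : Tendsto (fun n : ℕ => C1 / √(n : ℝ) + C2 / (n : ℝ)) atTop (𝓝 (0 + 0)) := by
    refine Tendsto.add ?_ (tendsto_const_div_atTop_nhds_zero_nat C2)
    exact Tendsto.div_atTop tendsto_const_nhds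
      (Real.tendsto_sqrt_atTop.comp tendsto_natCast_atTop_atTop)
  have h2 : Tendsto (fun n : ℕ => a - b / (n : ℝ)) atTop (𝓝 (a - 0)) :=
    tendsto_const_nhds.sub (tendsto_const_div_atTop_nhds_zero_nat b)
  have h3 := h1.div h2 (by simpa using ha.ne')
  simp only [add_zero, sub_zero, zero_div] at h3
  refine h3.congr' ?_
  filter_upwards [eventually_gt_atTop 0] with n hn
  have hn' : (0 : ℝ) < n := by exact_mod_cast hn
  have hs : 0 < √(n : ℝ) := Real.sqrt_pos.2 hn'
  have hs2 : √(n : ℝ) * √n = n := Real.mul_self_sqrt hn'.le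
  simp only [Pi.div_apply]
  have e1 : C1 / √(n : ℝ) = C1 * √n / n := by
    rw [div_eq_div_iff hs.ne' hn'.ne']
    rw [mul_assoc, hs2]
  rw [e1]
  field_simp

/-- ratio of logarithms -/
theorem log_ratio (A G K c C ε : ℝ) (hA : 1 < A) (hG : 1 < G) (hK : 0 < K) (hc : 0 < c)
    (hC : 1 ≤ C) (hε : 0 < ε) : ∀ᶠ n : ℕ in atTop, ∀ u v : ℝ, A ^ n / 2 < u → u < 2 * A ^ n →
      c * (G ^ n * Real.exp (-(K * √n))) ≤ v → v ≤ C * G ^ n →
      |Real.log G / Real.log A - Real.log v / Real.log u| < ε := by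
  have hlA : 0 < Real.log A := Real.log_pos hA
  have hlG : 0 < Real.log G := Real.log_pos hG
  have h2 : 0 < Real.log 2 := Real.log_pos (by norm_num)
  set C2 := |Real.log c| + Real.log C with hC2
  have hC0 : 0 ≤ Real.log C := Real.log_nonneg hC
  have hlim := lim_err (Real.log A) (Real.log 2) K (C2 + Real.log G * Real.log 2 / Real.log A) hlA
  have h3 := hlim.eventually_lt_const hε
  have h4 : ∀ᶠ n : ℕ in atTop, Real.log 2 / Real.log A < n :=
    tendsto_natCast_atTop_atTop.eventually_gt_atTop _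
  filter_upwards [h3, h4] with n hn hn2 u v hu1 hu2 hv1 hv2
  have hAn : 0 < A ^ n := by positivity
  have hGn : 0 < G ^ n := by positivity
  have hu0 : 0 < u := lt_trans (by positivity) hu1
  have hv0 : 0 < v := lt_of_lt_of_le (by positivity) hv1
  have hlu1 : n * Real.log A - Real.log 2 < Real.log u := by
    have := Real.log_lt_log (by positivity) hu1
    rwa [Real.log_div hAn.ne' (by norm_num), Real.log_pow] at this
  have hlu2 : Real.log u < n * Real.log A + Real.log 2 := by
    have := Real.log_lt_log hu0 hu2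
    rw [Real.log_mul (by norm_num) hAn.ne', Real.log_pow] at this
    linarith
  have hlv1 : n * Real.log G - K * √n - |Real.log c| ≤ Real.log v := by
    have := Real.log_le_log (by positivity) hv1
    rw [Real.log_mul hc.ne' (by positivity), Real.log_mul hGn.ne' (Real.exp_pos _).ne',
      Real.log_pow, Real.log_exp] at this
    have h5 := neg_abs_le (Real.log c)
    linarith
  have hlv2 : Real.log v ≤ n * Real.log G + Real.log C := by
    have := Real.log_le_log hv0 hv2
    rw [Real.log_mul (by positivity) hGn.ne', Real.log_pow] at this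
    linarith
  have hnA : 0 < n * Real.log A - Real.log 2 := by
    rw [div_lt_iff₀ hlA] at hn2
    linarith
  have hlu0 : 0 < Real.log u := hnA.trans hlu1
  have hKn : 0 ≤ K * √n := mul_nonneg hK.le (Real.sqrt_nonneg _)
  have hc' := abs_nonneg (Real.log c)
  have h5 : |Real.log v - n * Real.log G| ≤ K * √n + C2 := by
    rw [abs_le]
    constructor <;> linarith
  have h6 : |Real.log u - n * Real.log A| ≤ Real.log 2 := by
    rw [abs_le]
    constructor <;> linarith
  have e1 : Real.log G / Real.log A - Real.log v / Real.log u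
      = ((Real.log G * (Real.log u - n * Real.log A)) / Real.log A
        - (Real.log v - n * Real.log G)) / Real.log u := by
    field_simp
    ring
  rw [e1, abs_div, abs_of_pos hlu0]
  have h7 : |(Real.log G * (Real.log u - n * Real.log A)) / Real.log A
        - (Real.log v - n * Real.log G)|
      ≤ K * √n + (C2 + Real.log G * Real.log 2 / Real.log A) := by
    refine (abs_sub _ _).trans ?_
    rw [abs_div, abs_mul, abs_of_pos hlA, abs_of_pos hlG]
    have h8 : Real.log G * |Real.log u - n * Real.log A| / Real.log A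
        ≤ Real.log G * Real.log 2 / Real.log A :=
      div_le_div_of_nonneg_right (mul_le_mul_of_nonneg_left h6 hlG.le) hlA.le
    linarith
  have hC20 : 0 ≤ K * √n + (C2 + Real.log G * Real.log 2 / Real.log A) :=
    (abs_nonneg _).trans h7
  calc _ ≤ (K * √n + (C2 + Real.log G * Real.log 2 / Real.log A)) / Real.log u :=
        div_le_div_of_nonneg_right h7 hlu0.le
    _ ≤ (K * √n + (C2 + Real.log G * Real.log 2 / Real.log A)) / (n * Real.log A - Real.log 2) :=
        div_le_div_of_nonneg_left hC20 hnA hlu1.le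
    _ < ε := hn

/-- a homomorphism `ℤ^n → ℤ` which is injective on a finite set -/
theorem exists_inj (n : ℕ) (W : Finset (Fin n → ℤ)) :
    ∃ φ : (Fin n → ℤ) →+ ℤ, Set.InjOn φ (W : Set (Fin n → ℤ)) := by
  classical
  set P : (Fin n → ℤ) → Polynomial ℤ := fun x =>
    ∑ t : Fin n, Polynomial.C (x t) * Polynomial.X ^ (t : ℕ) with hP
  have hcoeff : ∀ (x : Fin n → ℤ) (t : Fin n), (P x).coeff t = x t := by
    intro x t
    simp only [hP, Polynomial.finsetSum_coeff, Polynomial.coeff_C_mul, Polynomial.coeff_X_pow]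
    rw [Finset.sum_eq_single t]
    · simp
    · intro u _ hu
      rw [if_neg, mul_zero]
      intro h
      exact hu (Fin.ext h.symm)
    · intro h
      exact absurd (mem_univ _) h
  have hadd : ∀ x y, P (x - y) = P x - P y := by
    intro x y
    simp only [hP, Pi.sub_apply, Polynomial.C_sub, sub_mul, Finset.sum_sub_distrib]
  have hne : ∀ x y : Fin n → ℤ, x ≠ y → P (x - y) ≠ 0 := by
    intro x y hxy h
    apply hxy
    funext t
    have := hcoeff (x - y) t
    rw [h, Polynomial.coeff_zero] at this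
    have h2 : x t - y t = 0 := this.symm
    linarith
  set R : Polynomial ℤ := ∏ p ∈ W.offDiag, P (p.1 - p.2) with hR
  have hR0 : R ≠ 0 := by
    rw [hR, Finset.prod_ne_zero_iff]
    intro p hp
    exact hne _ _ (Finset.mem_offDiag.1 hp).2.2
  obtain ⟨B, hB⟩ : ∃ B : ℤ, R.eval B ≠ 0 := by
    by_contra hc
    push Not at hc
    exact hR0 (Polynomial.funext fun B => by rw [hc B, Polynomial.eval_zero])
  refine ⟨AddMonoidHom.mk' (fun x => (P x).eval B) ?_, ?_⟩
  · intro x y
    simp only [hP, Pi.add_apply, Polynomial.C_add, add_mul, Finset.sum_add_distrib,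
      Polynomial.eval_add]
  · intro x hx y hy h
    by_contra hxy
    apply hB
    rw [hR, Polynomial.eval_prod]
    apply Finset.prod_eq_zero (i := (x, y)) (Finset.mem_offDiag.2 ⟨hx, hy, hxy⟩)
    rw [hadd, Polynomial.eval_sub, sub_eq_zero]
    exact h

theorem sm_image (n : ℕ) (φ : (Fin n → ℤ) →+ ℤ) (k : ℤ) (S : Finset (Fin n → ℤ)) :
    sm k (S.image φ) = (sm k S).image φ := by
  ext m
  simp only [mem_sm, mem_image]
  constructor
  · rintro ⟨_, ⟨x, hx, rfl⟩, _, ⟨y, hy, rfl⟩, rfl⟩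
    exact ⟨x + k • y, ⟨x, hx, y, hy, rfl⟩, by rw [map_add, map_zsmul]⟩
  · rintro ⟨_, ⟨x, hx, y, hy, rfl⟩, rfl⟩
    exact ⟨φ x, ⟨x, hx, rfl⟩, φ y, ⟨y, hy, rfl⟩, by rw [map_add, map_zsmul]⟩

/-- the main theorem, in terms of a support set -/
theorem main {s : Finset ℤ} {α : ℤ → ℝ} (hα : ∀ i ∈ s, 0 < α i ∧ α i ≤ 1)
    (hA : 1 < ∑ i ∈ s, α i) (N : ℕ) (ε : ℝ) (hε : 0 < ε) :
    ∃ S : Finset ℤ, 2 ≤ S.card ∧ ∀ k : ℤ, 1 ≤ |k| → |k| ≤ N →
      |Real.log (⨅ p : Set.Ioo (0 : ℝ) 1, FF (Mk s k) (gk s α k) p) / Real.log (∑ i ∈ s, α i)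
        - Real.log (sm k S).card / Real.log S.card| < ε := by
  classical
  set A := ∑ i ∈ s, α i with hAd
  set Ks : Finset ℤ := (Finset.Icc (-(N : ℤ)) N).filter (fun k => k ≠ 0) with hKs
  have hKs0 : ∀ k ∈ Ks, k ≠ 0 := fun k hk => (mem_filter.1 hk).2
  have hdata : ∀ k : ℤ, ∃ G K : ℝ, k ∈ Ks → (A ≤ G ∧ 0 < K ∧
      (⨅ p : Set.Ioo (0 : ℝ) 1, FF (Mk s k) (gk s α k) p = G) ∧
      (∀ n : ℕ, G ^ n * Real.exp (-(K * √n)) / 5 ≤ ek s α k n) ∧
      (∀ n : ℕ, ek s α k n ≤ 2 * G ^ n)) := by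
    intro k
    by_cases hk : k ∈ Ks
    · obtain ⟨G, K, h⟩ := data hα hA k (hKs0 k hk)
      exact ⟨G, K, fun _ => h⟩
    · exact ⟨0, 0, fun h => absurd h hk⟩
  choose G K hGK using hdata
  have hsel := select hα hA Ks G K (fun k hk => (hGK k hk).1) (fun k hk => (hGK k hk).2.2.2.1)
    (fun k hk => (hGK k hk).2.2.2.2) (fun k hk => (hGK k hk).2.1)
  have hlog : ∀ᶠ n : ℕ in atTop, ∀ k ∈ Ks, ∀ u v : ℝ, A ^ n / 2 < u → u < 2 * A ^ n →
      (1 / 10) * (G k ^ n * Real.exp (-(K k * √n))) ≤ v → v ≤ (8 * Ks.card + 4) * G k ^ n →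
      |Real.log (G k) / Real.log A - Real.log v / Real.log u| < ε := by
    rw [Filter.eventually_all_finset]
    intro k hk
    have h1 : (1 : ℝ) ≤ 8 * Ks.card + 4 := by
      have : (0 : ℝ) ≤ Ks.card := Nat.cast_nonneg _
      linarith
    exact log_ratio A (G k) (K k) (1 / 10) (8 * Ks.card + 4) ε hA
      (hA.trans_le (hGK k hk).1) (hGK k hk).2.1 (by norm_num) h1 hε
  have hbig : ∀ᶠ n : ℕ in atTop, (2 : ℝ) < A ^ n := by
    have := tendsto_pow_atTop_atTop_of_one_lt hA
    exact this.eventually_gt_atTop 2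
  obtain ⟨n, ⟨⟨S, hS1, hS2, hS3⟩, hl⟩, hb⟩ := ((hsel.and hlog).and hbig).exists
  obtain ⟨φ, hφ⟩ := exists_inj n (S ∪ Ks.biUnion fun k => sm k S)
  have hc1 : (S.image φ).card = S.card :=
    Finset.card_image_of_injOn (hφ.mono (by
      intro x hx
      exact mem_coe.2 (mem_union_left _ (mem_coe.1 hx))))
  have hc2 : ∀ k ∈ Ks, (sm k (S.image φ)).card = (sm k S).card := by
    intro k hk
    rw [sm_image]
    refine Finset.card_image_of_injOn (hφ.mono ?_)
    intro x hx
    exact mem_coe.2 (mem_union_right _ (mem_biUnion.2 ⟨k, hk, mem_coe.1 hx⟩))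
  refine ⟨S.image φ, ?_, fun k hk1 hk2 => ?_⟩
  · rw [hc1]
    have : (1 : ℝ) < S.card := by linarith
    have : 1 < S.card := by exact_mod_cast this
    omega
  · have hk : k ∈ Ks := by
      rw [hKs, mem_filter, mem_Icc]
      refine ⟨abs_le.1 hk2, ?_⟩
      rintro rfl
      simp at hk1
    rw [hc1, hc2 k hk, (hGK k hk).2.2.1]
    obtain ⟨h1, h2⟩ := hS3 k hk
    exact hl k hk _ _ hS1 hS2 (by linarith) h2

end Pool.Agent.R508.FD
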