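import Mathlib

/-! Counting multiples of a Gaussian integer in boxes. -/

namespace Pool.Agent.R508.GI

open GaussianInt

/-- the Gaussian integers as a free module of rank two -/
noncomputable def gEquiv : GaussianInt ≃ₗ[ℤ] (Fin 2 → ℤ) where
  toFun z := ![z.re, z.im]
  invFun v := ⟨v 0, v 1⟩
  map_add' a b := by
    ext i; fin_cases i <;> simp
  map_smul' c a := by
    ext i; fin_cases i <;> simp
  left_inv z := by
    apply Zsqrtd.ext <;> simp
  right_inv v := by
    ext i; fin_cases i <;> simp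

noncomputable def gBasis : Module.Basis (Fin 2) ℤ GaussianInt := Module.Basis.ofEquivFun gEquiv

instance : Module.Free ℤ GaussianInt := Module.Free.of_basis gBasis
instance : Module.Finite ℤ GaussianInt := Module.Finite.of_basis gBasis

theorem algNorm (D : GaussianInt) : Algebra.norm ℤ D = D.norm := by
  rw [Algebra.norm_eq_matrix_det gBasis, Matrix.det_fin_two]
  simp only [Algebra.leftMulMatrix_eq_repr_mul]
  have h0 : gBasis 0 = (⟨1, 0⟩ : GaussianInt) := by
    simp [gBasis, gEquiv]
  have h1 : gBasis 1 = (⟨0, 1⟩ : GaussianInt) := by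
    simp [gBasis, gEquiv]
  have hr : ∀ z : GaussianInt, ∀ i, gBasis.repr z i = ![z.re, z.im] i := by
    intro z i
    simp [gBasis, gEquiv]
  rw [h0, h1]
  simp [hr, Zsqrtd.norm_def]

theorem card_quot (D : GaussianInt) :
    (Nat.card (GaussianInt ⧸ Ideal.span ({D} : Set GaussianInt)) : ℤ) = D.norm := by
  have h := Ideal.absNorm_span_singleton D
  rw [algNorm, Ideal.absNorm_apply, Submodule.cardQuot_apply] at h
  have h2 := GaussianInt.norm_nonneg D
  rw [h]
  omega


/-- the square of half width `N` centred at the integer `c` -/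
noncomputable def Box (c : ℤ) (N : ℕ) : Finset GaussianInt :=
  ((Finset.Ioo (-(N : ℤ)) N) ×ˢ (Finset.Ioo (-(N : ℤ)) N)).map
    ⟨fun p => (⟨c + p.1, p.2⟩ : GaussianInt), by
      intro p q h
      have h1 := congrArg Zsqrtd.re h
      have h2 := congrArg Zsqrtd.im h
      simp only at h1 h2
      exact Prod.ext (by omega) h2⟩

theorem mem_Box {c : ℤ} {N : ℕ} {z : GaussianInt} :
    z ∈ Box c N ↔ |z.re - c| < N ∧ |z.im| < N := by
  unfold Box
  simp only [Finset.mem_map, Finset.mem_product, Finset.mem_Ioo, Prod.exists, abs_lt]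
  constructor
  · rintro ⟨a, b, ⟨⟨h1, h2⟩, h3, h4⟩, h⟩
    have e1 : c + a = z.re := congrArg Zsqrtd.re h
    have e2 : b = z.im := congrArg Zsqrtd.im h
    refine ⟨⟨?_, ?_⟩, ?_, ?_⟩ <;> omega
  · rintro ⟨⟨h1, h2⟩, h3, h4⟩
    refine ⟨z.re - c, z.im, ⟨⟨by omega, by omega⟩, by omega, by omega⟩, ?_⟩
    exact Zsqrtd.ext (show c + (z.re - c) = z.re by ring) rfl

theorem card_Box (c : ℤ) {N : ℕ} (hN : 1 ≤ N) : ((Box c N).card : ℤ) = (2 * N - 1) ^ 2 := by
  unfold Box
  rw [Finset.card_map, Finset.card_product, Int.card_Ioo]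
  have : ((((N : ℤ) - -(N : ℤ) - 1).toNat : ℕ) : ℤ) = 2 * N - 1 := by
    rw [Int.toNat_of_nonneg (by omega)]; ring
  push_cast
  rw [this]; ring

/-- the multiples of `D` in a square -/
noncomputable def Mul (D : GaussianInt) (c : ℤ) (N : ℕ) : Finset GaussianInt :=
  open Classical in (Box c N).filter (fun z => D ∣ z)

theorem mem_Mul {D : GaussianInt} {c : ℤ} {N : ℕ} {z : GaussianInt} :
    z ∈ Mul D c N ↔ (|z.re - c| < N ∧ |z.im| < N) ∧ D ∣ z := by
  classical
  unfold Mul
  rw [Finset.mem_filter, mem_Box]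

theorem rem_bound {D z : GaussianInt} (hD : D ≠ 0) {r : ℕ} (hr : D.norm ≤ (r : ℤ) ^ 2) :
    |(z % D).re| < r ∧ |(z % D).im| < r := by
  have h := GaussianInt.norm_mod_lt z hD
  rw [Zsqrtd.norm_def] at h
  have h1 : (z % D).re ^ 2 < (r : ℤ) ^ 2 := by
    nlinarith [sq_nonneg (z % D).im]
  have h2 : (z % D).im ^ 2 < (r : ℤ) ^ 2 := by
    nlinarith [sq_nonneg (z % D).re]
  exact ⟨abs_lt_of_sq_lt_sq h1 (by positivity), abs_lt_of_sq_lt_sq h2 (by positivity)⟩

theorem dvd_sub_mod (z D : GaussianInt) : D ∣ z - z % D := by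
  rw [GaussianInt.mod_def]
  exact ⟨z / D, by ring⟩

theorem finite_quot {D : GaussianInt} (hD : D ≠ 0) :
    Finite (GaussianInt ⧸ Ideal.span ({D} : Set GaussianInt)) := by
  apply Nat.finite_of_card_ne_zero
  intro h
  have := card_quot D
  rw [h] at this
  have h2 := GaussianInt.norm_pos.2 hD
  omega

theorem cnt_upper {D : GaussianInt} (hD : D ≠ 0) {r : ℕ} (hr : D.norm ≤ (r : ℤ) ^ 2)
    (c : ℤ) {N : ℕ} (hN : 1 ≤ N) :
    ((Mul D c N).card : ℤ) * D.norm ≤ (2 * N + 2 * r - 1) ^ 2 := by
  classical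
  have := finite_quot hD
  have := Fintype.ofFinite (GaussianInt ⧸ Ideal.span ({D} : Set GaussianInt))
  have hcard := card_quot D
  rw [Nat.card_eq_fintype_card] at hcard
  have h1 := card_Box c (N := N + r) (by omega)
  have h2 : ((Mul D c N) ×ˢ (Finset.univ : Finset (GaussianInt ⧸ Ideal.span ({D} : Set GaussianInt)))).card
      ≤ (Box c (N + r)).card := by
    apply Finset.card_le_card_of_injOn (fun p => p.1 + (Quotient.out p.2) % D)
    · intro p hp
      simp only [Finset.coe_product, Set.mem_prod, Finset.mem_coe, mem_Mul] at hp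
      obtain ⟨⟨⟨h3, h4⟩, -⟩, -⟩ := hp
      rw [Finset.mem_coe, mem_Box]
      obtain ⟨h5, h6⟩ := rem_bound (z := Quotient.out p.2) hD hr
      simp only [Zsqrtd.re_add, Zsqrtd.im_add]
      push_cast
      simp only [abs_lt] at *
      refine ⟨⟨?_, ?_⟩, ?_, ?_⟩ <;> omega
    · intro p hp q hq h
      simp only [Finset.coe_product, Set.mem_prod, Finset.mem_coe, mem_Mul] at hp hq
      obtain ⟨⟨-, hp1⟩, -⟩ := hp
      obtain ⟨⟨-, hq1⟩, -⟩ := hq
      simp only at h
      have e1 : p.2 = q.2 := by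
        rw [← Quotient.out_eq p.2, ← Quotient.out_eq q.2]
        apply (Ideal.Quotient.mk_eq_mk_iff_sub_mem _ _).2
        rw [Ideal.mem_span_singleton]
        have a1 := dvd_sub_mod (Quotient.out p.2) D
        have a2 := dvd_sub_mod (Quotient.out q.2) D
        have : (Quotient.out p.2 : GaussianInt) - Quotient.out q.2 =
            (Quotient.out p.2 - Quotient.out p.2 % D) - (Quotient.out q.2 - Quotient.out q.2 % D)
            - p.1 + q.1 := by
          linear_combination h
        rw [this]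
        exact dvd_add (dvd_sub (dvd_sub a1 a2) hp1) hq1
      rw [e1] at h
      exact Prod.ext (add_right_cancel h) e1
  rw [Finset.card_product, Finset.card_univ] at h2
  have h3 : ((Mul D c N).card : ℤ) * D.norm ≤ ((Box c (N + r)).card : ℤ) := by
    rw [← hcard]; exact_mod_cast h2
  rw [h1] at h3
  push_cast at h3
  calc _ ≤ _ := h3
    _ = _ := by ring

theorem cnt_lower {D : GaussianInt} (hD : D ≠ 0) {r : ℕ} (hr : D.norm ≤ (r : ℤ) ^ 2)
    (c : ℤ) {N : ℕ} (hN : r < N) :
    (2 * (N : ℤ) - 2 * r - 1) ^ 2 ≤ ((Mul D c N).card : ℤ) * D.norm := by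
  classical
  have := finite_quot hD
  have := Fintype.ofFinite (GaussianInt ⧸ Ideal.span ({D} : Set GaussianInt))
  have hcard := card_quot D
  rw [Nat.card_eq_fintype_card] at hcard
  have h1 := card_Box c (N := N - r) (by omega)
  have h2 : (Box c (N - r)).card ≤
      ((Mul D c N) ×ˢ (Finset.univ : Finset (GaussianInt ⧸ Ideal.span ({D} : Set GaussianInt)))).card := by
    apply Finset.card_le_card_of_injOn (fun x => (x - (Quotient.out
      (Ideal.Quotient.mk (Ideal.span ({D} : Set GaussianInt)) x)) % D,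
        Ideal.Quotient.mk (Ideal.span ({D} : Set GaussianInt)) x))
    · intro x hx
      rw [Finset.mem_coe, mem_Box] at hx
      simp only [Finset.coe_product, Set.mem_prod, Finset.mem_coe, mem_Mul, Finset.mem_univ,
        and_true]
      set y := Quotient.out (Ideal.Quotient.mk (Ideal.span ({D} : Set GaussianInt)) x) with hy
      obtain ⟨h5, h6⟩ := rem_bound (z := y) hD hr
      obtain ⟨h3, h4⟩ := hx
      have e : (N - r : ℕ) = (N : ℤ) - r := by omega
      rw [e] at h3 h4
      refine ⟨⟨?_, ?_⟩, ?_⟩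
      · simp only [Zsqrtd.re_sub]
        simp only [abs_lt] at *
        constructor <;> omega
      · simp only [Zsqrtd.im_sub]
        simp only [abs_lt] at *
        constructor <;> omega
      · have a1 : D ∣ x - y := by
          rw [← Ideal.mem_span_singleton, ← Ideal.Quotient.mk_eq_mk_iff_sub_mem]
          exact (Quotient.out_eq _).symm
        have a2 := dvd_sub_mod y D
        have : x - y % D = (x - y) + (y - y % D) := by ring
        rw [this]
        exact dvd_add a1 a2
    · intro x hx y hy h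
      simp only [Prod.mk.injEq] at h
      obtain ⟨h1, h2⟩ := h
      rw [h2] at h1
      exact sub_left_injective h1
  rw [Finset.card_product, Finset.card_univ] at h2
  have h3 : ((Box c (N - r)).card : ℤ) ≤ ((Mul D c N).card : ℤ) * D.norm := by
    rw [← hcard]; exact_mod_cast h2
  rw [h1] at h3
  have e : (N - r : ℕ) = (N : ℤ) - r := by omega
  rw [e] at h3
  calc _ = _ := by ring
    _ ≤ _ := h3

end Pool.Agent.R508.GI
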