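import Pool.Agent.R508.GaussBasic

/-! Normalised Gaussian primes: factorisation identity and counting. -/

namespace Pool.Agent.R508.GI

open GaussianInt UniqueFactorizationMonoid

/-- a choice of representatives modulo units -/
@[instance_reducible]
noncomputable def nmon : NormalizationMonoid GaussianInt :=
  (UniqueFactorizationMonoid.strongNormalizationMonoid (α := GaussianInt)).toNormalizationMonoid

attribute [local instance] nmon

theorem norm_one_le {z : GaussianInt} (hz : z ≠ 0) : (1 : ℤ) ≤ z.norm := by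
  have := GaussianInt.norm_pos.2 hz
  omega

theorem norm_two_le {z : GaussianInt} (hz : Prime z) : (2 : ℤ) ≤ z.norm := by
  have h1 := norm_one_le hz.ne_zero
  have h2 : z.norm ≠ 1 := by
    intro h
    exact hz.not_isUnit ((Zsqrtd.norm_eq_one_iff' (by norm_num) z).1 h)
  omega

theorem norm_le_of_dvd {a b : GaussianInt} (h : a ∣ b) (hb : b ≠ 0) : a.norm ≤ b.norm := by
  obtain ⟨c, rfl⟩ := h
  have hc : c ≠ 0 := right_ne_zero_of_mul hb
  rw [Zsqrtd.norm_mul]
  have h1 := norm_one_le hc
  have h2 := GaussianInt.norm_nonneg a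
  nlinarith

theorem norm_pow (a : GaussianInt) (n : ℕ) : (a ^ n).norm = a.norm ^ n := by
  induction n with
  | zero => simp
  | succ n ih => rw [pow_succ, Zsqrtd.norm_mul, ih, pow_succ]

/-- the normalised primes of norm at most `Y` -/
noncomputable def PF (Y : ℕ) : Finset GaussianInt :=
  open Classical in (Box 0 (Y + 1)).filter (fun z => Prime z ∧ normalize z = z ∧ z.norm ≤ Y)

theorem mem_PF {Y : ℕ} {z : GaussianInt} :
    z ∈ PF Y ↔ Prime z ∧ normalize z = z ∧ z.norm ≤ Y := by
  classical
  unfold PF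
  rw [Finset.mem_filter, mem_Box, and_iff_right_iff_imp]
  rintro ⟨-, -, h⟩
  rw [Zsqrtd.norm_def] at h
  push_cast
  constructor
  · rw [sub_zero]
    have : |z.re| ^ 2 ≤ Y := by rw [sq_abs]; nlinarith [sq_nonneg z.im]
    nlinarith [abs_nonneg z.re]
  · have : |z.im| ^ 2 ≤ Y := by rw [sq_abs]; nlinarith [sq_nonneg z.re]
    nlinarith [abs_nonneg z.im]

theorem assoc_of_dvd_norm {a b : GaussianInt} (h : a ∣ b) (hn : b.norm = a.norm) (ha : a ≠ 0) :
    Associated a b := by
  obtain ⟨c, rfl⟩ := h
  rw [Zsqrtd.norm_mul] at hn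
  have h1 := norm_one_le ha
  have hc : c.norm = 1 := by
    have : a.norm * c.norm = a.norm * 1 := by rw [hn, mul_one]
    exact mul_left_cancel₀ (by omega) this
  have hu : IsUnit c := (Zsqrtd.norm_eq_one_iff' (by norm_num) c).1 hc
  obtain ⟨u, rfl⟩ := hu
  exact ⟨u, rfl⟩

theorem fiber_le_two (Y : ℕ) (m : ℤ) : ((PF Y).filter (fun z => z.norm = m)).card ≤ 2 := by
  classical
  rcases ((PF Y).filter (fun z => z.norm = m)).eq_empty_or_nonempty with h | ⟨w, hw⟩
  · rw [h]; simp
  have hsub : (PF Y).filter (fun z => z.norm = m) ⊆ {w, normalize (star w)} := by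
    intro z hz
    rw [Finset.mem_filter, mem_PF] at hz hw
    obtain ⟨⟨hzp, hzn, -⟩, hzm⟩ := hz
    obtain ⟨⟨hwp, hwn, -⟩, hwm⟩ := hw
    rw [Finset.mem_insert, Finset.mem_singleton]
    have h1 : z ∣ w * star w := by
      rw [← Zsqrtd.norm_eq_mul_conj, hwm, ← hzm, Zsqrtd.norm_eq_mul_conj]
      exact dvd_mul_right _ _
    rcases hzp.dvd_or_dvd h1 with h | h
    · left
      have := assoc_of_dvd_norm h (by rw [hwm, hzm]) hzp.ne_zero
      rw [← hzn, ← hwn]
      exact normalize_eq_normalize_iff_associated.2 this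
    · right
      have := assoc_of_dvd_norm h (by rw [Zsqrtd.norm_conj, hwm, hzm]) hzp.ne_zero
      rw [← hzn]
      exact normalize_eq_normalize_iff_associated.2 this
  calc _ ≤ _ := Finset.card_le_card hsub
    _ ≤ _ := Finset.card_le_two

/-- the norm of a Gaussian prime is a prime or the square of a prime -/
theorem norm_prime {z : GaussianInt} (hz : Prime z) :
    ∃ p : ℕ, p.Prime ∧ (z.norm = p ∨ z.norm = (p : ℤ) ^ 2) := by
  -- z divides its norm, a product of rational primes
  have h1 : z ∣ ((z.norm.natAbs : ℕ) : GaussianInt) := by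
    have : ((z.norm.natAbs : ℕ) : GaussianInt) = ((z.norm : ℤ) : GaussianInt) := by
      rw [← Int.cast_natCast, GaussianInt.abs_natCast_norm]
    rw [this, Zsqrtd.norm_eq_mul_conj]
    exact dvd_mul_right _ _
  have h0 : z.norm.natAbs ≠ 0 := by
    have := norm_two_le hz
    omega
  obtain ⟨p, hp, hpz⟩ : ∃ p : ℕ, p.Prime ∧ z ∣ (p : GaussianInt) := by
    rw [← Nat.prod_primeFactorsList h0, Nat.cast_list_prod] at h1
    obtain ⟨q, hq, hqz⟩ := (hz.dvd_prod_iff).1 h1
    rw [List.mem_map] at hq
    obtain ⟨p, hp, rfl⟩ := hq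
    exact ⟨p, Nat.prime_of_mem_primeFactorsList hp, hqz⟩
  refine ⟨p, hp, ?_⟩
  obtain ⟨c, hc⟩ := hpz
  have h2 : (p : ℤ) ^ 2 = z.norm * c.norm := by
    rw [← Zsqrtd.norm_mul, ← hc, Zsqrtd.norm_natCast]; ring
  have h3 : z.norm.natAbs ∣ p ^ 2 := by
    have : z.norm ∣ (p : ℤ) ^ 2 := ⟨_, h2⟩
    have := Int.natAbs_dvd_natAbs.2 this
    simpa [Int.natAbs_pow] using this
  rw [Nat.dvd_prime_pow hp] at h3
  obtain ⟨k, hk, hk2⟩ := h3
  have h4 := norm_two_le hz
  interval_cases k
  · rw [pow_zero] at hk2; omega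
  · left; rw [pow_one] at hk2; omega
  · right
    have : (z.norm.natAbs : ℤ) = (p : ℤ) ^ 2 := by rw [hk2]; push_cast; ring
    omega

theorem card_PF_le (Y : ℕ) : (PF Y).card ≤ 2 * (Nat.primeCounting Y + Nat.sqrt Y + 1) := by
  classical
  have h1 : (PF Y).card ≤ 2 * ((PF Y).image (fun z => z.norm.natAbs)).card := by
    apply Finset.card_le_mul_card_image
    intro m hm
    calc _ ≤ ((PF Y).filter (fun z => z.norm = (m : ℤ))).card := by
          apply Finset.card_le_card
          intro z hz
          rw [Finset.mem_filter] at hz ⊢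
          refine ⟨hz.1, ?_⟩
          have := GaussianInt.norm_nonneg z
          have := hz.2
          omega
      _ ≤ 2 := fiber_le_two Y m
  have h2 : (PF Y).image (fun z => z.norm.natAbs) ⊆
      ((Finset.range (Y + 1)).filter Nat.Prime) ∪ ((Finset.range (Nat.sqrt Y + 1)).image (fun m => m ^ 2)) := by
    intro m hm
    rw [Finset.mem_image] at hm
    obtain ⟨z, hz, rfl⟩ := hm
    rw [mem_PF] at hz
    obtain ⟨hzp, -, hzY⟩ := hz
    obtain ⟨p, hp, h | h⟩ := norm_prime hzp
    · rw [Finset.mem_union, Finset.mem_filter, Finset.mem_range]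
      left
      constructor
      · omega
      · rw [h]; simpa using hp
    · rw [Finset.mem_union, Finset.mem_image]
      right
      refine ⟨p, ?_, ?_⟩
      · rw [Finset.mem_range, Nat.lt_succ_iff, Nat.le_sqrt]
        rw [h] at hzY
        have : (p : ℤ) ^ 2 ≤ Y := hzY
        have : p ^ 2 ≤ Y := by exact_mod_cast this
        rw [← sq]; exact this
      · rw [h]; simp [Int.natAbs_pow]
  have h3 := Finset.card_le_card h2
  have h4 := Finset.card_union_le ((Finset.range (Y + 1)).filter Nat.Prime)
    ((Finset.range (Nat.sqrt Y + 1)).image (fun m => m ^ 2))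
  have h5 : ((Finset.range (Nat.sqrt Y + 1)).image (fun m => m ^ 2)).card ≤ Nat.sqrt Y + 1 := by
    calc _ ≤ _ := Finset.card_image_le
      _ = _ := Finset.card_range _
  have h6 : ((Finset.range (Y + 1)).filter Nat.Prime).card = Nat.primeCounting Y := by
    rw [Nat.primeCounting, Nat.primeCounting', Nat.count_eq_card_filter_range]
  omega


theorem dvd_pow_count {n π : GaussianInt} (hn : n ≠ 0) (hπ : Prime π) (hπn : normalize π = π)
    (j : ℕ) : π ^ j ∣ n ↔ j ≤ (normalizedFactors n).count π := by
  classical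
  have h := emultiplicity_eq_count_normalizedFactors hπ.irreducible hn
  rw [hπn] at h
  rw [pow_dvd_iff_le_emultiplicity, h]
  exact Nat.cast_le

theorem count_le {n π : GaussianInt} (hn : n ≠ 0) (hπ : Prime π) (hπn : normalize π = π)
    {X J : ℕ} (hX : n.norm ≤ X) (hJ : X < 2 ^ (J + 1)) :
    (normalizedFactors n).count π ≤ J := by
  have h1 := (dvd_pow_count hn hπ hπn _).2 le_rfl
  have h2 := norm_le_of_dvd h1 hn
  rw [norm_pow] at h2
  have h3 : (2 : ℤ) ^ (normalizedFactors n).count π ≤ π.norm ^ (normalizedFactors n).count π :=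
    pow_le_pow_left₀ (by norm_num) (norm_two_le hπ) _
  have h4 : (2 : ℤ) ^ (normalizedFactors n).count π < 2 ^ (J + 1) := by
    calc _ ≤ _ := h3
      _ ≤ _ := h2
      _ ≤ (X : ℤ) := hX
      _ < _ := by exact_mod_cast hJ
  have h5 := (pow_lt_pow_iff_right₀ (by norm_num : (1 : ℤ) < 2)).1 h4
  omega

theorem card_pow_dvd {n π : GaussianInt} (hn : n ≠ 0) (hπ : Prime π) (hπn : normalize π = π)
    {X J : ℕ} (hX : n.norm ≤ X) (hJ : X < 2 ^ (J + 1)) :
    (open Classical in (∑ j ∈ Finset.Icc 1 J, if π ^ j ∣ n then (1 : ℝ) else 0)) =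
      (normalizedFactors n).count π := by
  classical
  rw [Finset.sum_boole]
  have : (Finset.Icc 1 J).filter (fun j => π ^ j ∣ n) =
      Finset.Icc 1 ((normalizedFactors n).count π) := by
    ext j
    rw [Finset.mem_filter, Finset.mem_Icc, Finset.mem_Icc, dvd_pow_count hn hπ hπn]
    have := count_le hn hπ hπn hX hJ
    omega
  rw [this]
  simp

/-- the logarithm of the norm as a sum over normalised prime powers -/
theorem log_norm {n : GaussianInt} (hn : n ≠ 0) {X J : ℕ} (hX : n.norm ≤ X)
    (hJ : X < 2 ^ (J + 1)) :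
    Real.log (n.norm : ℝ) = ∑ π ∈ PF X,
      (open Classical in (∑ j ∈ Finset.Icc 1 J, if π ^ j ∣ n then (1 : ℝ) else 0)) *
        Real.log (π.norm : ℝ) := by
  classical
  have h1 : n.norm = ((normalizedFactors n).map (fun π => π.norm)).prod := by
    have h := prod_normalizedFactors hn
    obtain ⟨u, hu⟩ := h
    have h2 : ((normalizedFactors n).prod).norm = n.norm := by
      conv_rhs => rw [← hu, Zsqrtd.norm_mul,
        (Zsqrtd.norm_eq_one_iff' (by norm_num) (u : GaussianInt)).2 u.isUnit, mul_one]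
    rw [← h2]
    exact map_multiset_prod (Zsqrtd.normMonoidHom : GaussianInt →* ℤ) _
  have h2 : Real.log (n.norm : ℝ) =
      ((normalizedFactors n).map (fun π => Real.log (π.norm : ℝ))).sum := by
    rw [h1]
    have : ∀ s : Multiset GaussianInt, (∀ x ∈ s, x.norm ≠ 0) →
        Real.log (((s.map (fun π => π.norm)).prod : ℤ) : ℝ) =
          (s.map (fun π => Real.log (π.norm : ℝ))).sum := by
      intro s
      induction s using Multiset.induction_on with
      | empty => intro _; simp
      | cons a s ih =>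
        intro hs
        rw [Multiset.map_cons, Multiset.prod_cons, Multiset.map_cons, Multiset.sum_cons,
          Int.cast_mul, Real.log_mul, ih (fun x hx => hs x (Multiset.mem_cons_of_mem hx))]
        · exact_mod_cast hs a (Multiset.mem_cons_self a s)
        · have : (s.map (fun π => π.norm)).prod ≠ 0 := by
            apply Multiset.prod_ne_zero
            intro h0
            rw [Multiset.mem_map] at h0
            obtain ⟨x, hx, hx0⟩ := h0
            exact hs x (Multiset.mem_cons_of_mem hx) hx0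
          exact_mod_cast this
    apply this
    intro x hx
    have := norm_two_le (prime_of_normalized_factor x hx)
    omega
  rw [h2, Finset.sum_multiset_map_count]
  have hsub : (normalizedFactors n).toFinset ⊆ PF X := by
    intro x hx
    rw [Multiset.mem_toFinset] at hx
    rw [mem_PF]
    refine ⟨prime_of_normalized_factor x hx, normalize_normalized_factor x hx, ?_⟩
    exact (norm_le_of_dvd (dvd_of_mem_normalizedFactors hx) hn).trans hX
  rw [Finset.sum_subset hsub]
  · apply Finset.sum_congr rfl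
    intro x hx
    rw [mem_PF] at hx
    rw [card_pow_dvd hn hx.1 hx.2.1 hX hJ, nsmul_eq_mul]
  · intro x _ hx
    rw [Multiset.mem_toFinset] at hx
    rw [Multiset.count_eq_zero_of_notMem hx, zero_smul]

theorem sum_inv_sqrt (K : ℕ) : ∑ m ∈ Finset.Icc 1 K, 1 / √(m : ℝ) ≤ 2 * √(K : ℝ) := by
  induction K with
  | zero => simp
  | succ K ih =>
    rw [Finset.sum_Icc_succ_top (by omega)]
    have h1 : 0 < √((K + 1 : ℕ) : ℝ) := Real.sqrt_pos.2 (by positivity)
    have h2 : 0 ≤ √(K : ℝ) := Real.sqrt_nonneg _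
    have h3 : √((K + 1 : ℕ) : ℝ) ^ 2 = K + 1 := by
      rw [Real.sq_sqrt (by positivity)]; push_cast; ring
    have h4 : √(K : ℝ) ^ 2 = K := Real.sq_sqrt (by positivity)
    have h5 : 1 / √((K + 1 : ℕ) : ℝ) ≤ 2 * √((K + 1 : ℕ) : ℝ) - 2 * √(K : ℝ) := by
      rw [div_le_iff₀ h1]
      nlinarith [sq_nonneg (√((K + 1 : ℕ) : ℝ) - √(K : ℝ))]
    linarith

/-- a sum over normalised primes of the inverse root of the norm -/
theorem sum_PF (Y : ℕ) : ∑ π ∈ PF Y, 1 / √(π.norm : ℝ) ≤ 5 * √((PF Y).card : ℝ) := by
  classical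
  set K := (PF Y).card with hK
  have h1 := Finset.sum_filter_add_sum_filter_not (PF Y) (fun π => π.norm ≤ (K : ℤ))
    (fun π => 1 / √(π.norm : ℝ))
  rw [← h1]
  have h2 : ∑ π ∈ (PF Y).filter (fun π => π.norm ≤ (K : ℤ)), 1 / √(π.norm : ℝ) ≤ 4 * √(K : ℝ) := by
    have hmaps : ∀ π ∈ (PF Y).filter (fun π => π.norm ≤ (K : ℤ)), π.norm.natAbs ∈ Finset.Icc 1 K := by
      intro π hπ
      rw [Finset.mem_filter, mem_PF] at hπ
      rw [Finset.mem_Icc]
      have := norm_two_le hπ.1.1
      have := hπ.2
      omega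
    rw [← Finset.sum_fiberwise_of_maps_to hmaps]
    calc _ ≤ ∑ m ∈ Finset.Icc 1 K, 2 * (1 / √(m : ℝ)) := by
          apply Finset.sum_le_sum
          intro m hm
          have : ∀ π ∈ ((PF Y).filter (fun π => π.norm ≤ (K : ℤ))).filter (fun π => π.norm.natAbs = m),
              1 / √(π.norm : ℝ) = 1 / √(m : ℝ) := by
            intro π hπ
            rw [Finset.mem_filter] at hπ
            have h3 : π.norm = (m : ℤ) := by
              have := GaussianInt.norm_nonneg π
              have := hπ.2
              omega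
            rw [h3]
            simp
          rw [Finset.sum_congr rfl this, Finset.sum_const, nsmul_eq_mul]
          apply mul_le_mul_of_nonneg_right _ (by positivity)
          have h4 : (((PF Y).filter (fun π => π.norm ≤ (K : ℤ))).filter
              (fun π => π.norm.natAbs = m)).card ≤ 2 := by
            calc _ ≤ ((PF Y).filter (fun z => z.norm = (m : ℤ))).card := by
                  apply Finset.card_le_card
                  intro z hz
                  rw [Finset.mem_filter, Finset.mem_filter] at hz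
                  rw [Finset.mem_filter]
                  refine ⟨hz.1.1, ?_⟩
                  have := GaussianInt.norm_nonneg z
                  have := hz.2
                  omega
              _ ≤ 2 := fiber_le_two Y m
          exact_mod_cast h4
      _ = 2 * ∑ m ∈ Finset.Icc 1 K, (1 / √(m : ℝ)) := by rw [Finset.mul_sum]
      _ ≤ 2 * (2 * √(K : ℝ)) := by
          apply mul_le_mul_of_nonneg_left (sum_inv_sqrt K) (by norm_num)
      _ = _ := by ring
  have h3 : ∑ π ∈ (PF Y).filter (fun π => ¬ π.norm ≤ (K : ℤ)), 1 / √(π.norm : ℝ) ≤ √(K : ℝ) := by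
    rcases Nat.eq_zero_or_pos K with h0 | hpos
    · have : PF Y = ∅ := Finset.card_eq_zero.1 (by rw [← hK, h0])
      rw [this]; simp
    have hs : 0 < √(K : ℝ) := Real.sqrt_pos.2 (by exact_mod_cast hpos)
    calc _ ≤ ∑ π ∈ (PF Y).filter (fun π => ¬ π.norm ≤ (K : ℤ)), 1 / √(K : ℝ) := by
          apply Finset.sum_le_sum
          intro π hπ
          rw [Finset.mem_filter] at hπ
          apply one_div_le_one_div_of_le hs
          apply Real.sqrt_le_sqrt
          have h5 : (K : ℤ) ≤ π.norm := by have := hπ.2; omega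
          exact_mod_cast h5
      _ = ((PF Y).filter (fun π => ¬ π.norm ≤ (K : ℤ))).card * (1 / √(K : ℝ)) := by
          rw [Finset.sum_const, nsmul_eq_mul]
      _ ≤ K * (1 / √(K : ℝ)) := by
          apply mul_le_mul_of_nonneg_right _ (by positivity)
          exact_mod_cast Finset.card_filter_le _ _
      _ = √(K : ℝ) := by
          rw [mul_one_div, div_eq_iff hs.ne']
          exact (Real.mul_self_sqrt (by positivity)).symm
  linarith

end Pool.Agent.R508.GI
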