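import Pool.Agent.R508.GaussSmooth

/-! A positive proportion of the elements of a far square has a prime factor of norm
larger than any fixed multiple of the area of the square. -/

namespace Pool.Agent.R508.GI

open GaussianInt UniqueFactorizationMonoid Filter Topology

/-- the shift -/
noncomputable def sh (ε : ℝ) (N : ℕ) : ℤ := ⌊(N : ℝ) ^ (1 + ε)⌋

theorem card_PF_small (g : ℕ) (hg : 1 ≤ g) {δ : ℝ} (hδ : 0 < δ) :
    ∀ᶠ N : ℕ in atTop, ((PF (g * N ^ 2)).card : ℝ) ≤ δ * (N : ℝ) ^ 2 := by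
  have h1 : ∀ᶠ N : ℕ in atTop, 8 * g / δ ≤ Real.log (N : ℝ) :=
    (Real.tendsto_log_atTop.comp tendsto_natCast_atTop_atTop).eventually_ge_atTop _
  have h2 : ∀ᶠ N : ℕ in atTop, (8 * g + 4) / δ ≤ (N : ℝ) :=
    tendsto_natCast_atTop_atTop.eventually_ge_atTop _
  filter_upwards [h1, h2, eventually_ge_atTop 2] with N h1 h2 h3
  have hN : (2 : ℝ) ≤ N := by exact_mod_cast h3
  have hg' : (1 : ℝ) ≤ g := by exact_mod_cast hg
  have hL : 0 < Real.log (N : ℝ) := Real.log_pos (by linarith)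
  have h4 := card_PF_le (g * N ^ 2)
  have h5 : (((PF (g * N ^ 2)).card : ℕ) : ℝ) ≤
      2 * ((Nat.primeCounting (g * N ^ 2) : ℕ) + (Nat.sqrt (g * N ^ 2) : ℕ) + 1) := by
    exact_mod_cast h4
  have hx : (1 : ℝ) < ((g * N ^ 2 : ℕ) : ℝ) := by
    push_cast
    nlinarith
  have h6 := Chebyshev.pi_le_log4_mul_div hx
  rw [Nat.floor_natCast] at h6
  have h7 : (N : ℝ) ≤ √((g * N ^ 2 : ℕ) : ℝ) := by
    apply Real.le_sqrt_of_sq_le
    push_cast
    nlinarith
  have h8 : √((g * N ^ 2 : ℕ) : ℝ) ≤ g * N := by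
    rw [Real.sqrt_le_left (by positivity)]
    push_cast
    have : (g : ℝ) ≤ (g : ℝ) ^ 2 := by nlinarith
    calc (g : ℝ) * N ^ 2 ≤ (g : ℝ) ^ 2 * N ^ 2 := mul_le_mul_of_nonneg_right this (by positivity)
      _ = _ := by ring
  have h9 : Real.log (N : ℝ) ≤ Real.log √((g * N ^ 2 : ℕ) : ℝ) :=
    Real.log_le_log (by linarith) h7
  have h10 : (Nat.sqrt (g * N ^ 2) : ℝ) ≤ g * N := by
    have : Nat.sqrt (g * N ^ 2) ≤ g * N := by
      have h : g * N ^ 2 ≤ (g * N) ^ 2 := by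
        calc g * N ^ 2 ≤ g ^ 2 * N ^ 2 := Nat.mul_le_mul_right _ (by nlinarith)
          _ = _ := by ring
      calc Nat.sqrt (g * N ^ 2) ≤ Nat.sqrt ((g * N) ^ 2) := Nat.sqrt_le_sqrt h
        _ = g * N := Nat.sqrt_eq' _
    exact_mod_cast this
  have h11 : Real.log 4 ≤ 2 := by
    have : Real.log 4 = 2 * Real.log 2 := by
      rw [show (4 : ℝ) = 2 ^ 2 by norm_num, Real.log_pow]; norm_num
    have := Real.log_two_lt_d9
    linarith
  have h12 : Real.log 4 * ((g * N ^ 2 : ℕ) : ℝ) / Real.log √((g * N ^ 2 : ℕ) : ℝ) ≤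
      2 * (g * N ^ 2) / Real.log N := by
    apply div_le_div₀ (by positivity) _ hL h9
    push_cast
    exact mul_le_mul_of_nonneg_right h11 (by positivity)
  have h13 : 2 * (g * (N : ℝ) ^ 2) / Real.log N ≤ δ / 4 * N ^ 2 := by
    rw [div_le_iff₀ hL]
    have : 8 * g ≤ Real.log (N : ℝ) * δ := (div_le_iff₀ hδ).1 h1
    nlinarith [sq_nonneg (N : ℝ)]
  have h14 : (4 * g + 2) * (N : ℝ) ≤ δ / 2 * N ^ 2 := by
    have : 8 * g + 4 ≤ (N : ℝ) * δ := (div_le_iff₀ hδ).1 h2
    nlinarith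
  have h15 : ((Nat.primeCounting (g * N ^ 2) : ℕ) : ℝ) ≤ δ / 4 * N ^ 2 + g * N := by
    linarith
  nlinarith

set_option maxHeartbeats 4000000 in
theorem prop_large {ε : ℝ} (hε : 0 < ε) (g : ℕ) (hg : 1 ≤ g) :
    ∀ᶠ N : ℕ in atTop, ε / (6 * (1 + ε)) * ((Box (sh ε N) N).card : ℝ) ≤
      (SS (g * N ^ 2) (sh ε N) N).card := by
  set η : ℝ := ε / (2 * (2112 + 192 * ε)) with hη
  have hη0 : 0 < η := by positivity
  have hη1 : η ≤ 1 := by
    rw [hη, div_le_one (by positivity)]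
    linarith
  have hη2 : 192 * (1 + ε) * η ^ 2 + 1920 * η ≤ ε / 2 := by
    have h1 : η ^ 2 ≤ η := by nlinarith
    have h2 : (2112 + 192 * ε) * η = ε / 2 := by
      rw [hη]; field_simp
    nlinarith
  have hlog : Tendsto (fun N : ℕ => Real.log (N : ℝ)) atTop atTop :=
    Real.tendsto_log_atTop.comp tendsto_natCast_atTop_atTop
  have e1 := card_PF_small g hg (δ := η ^ 2) (by positivity)
  have e2 : ∀ᶠ N : ℕ in atTop, 7 / 2 / ε ≤ Real.log (N : ℝ) := hlog.eventually_ge_atTop _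
  have e3 : ∀ᶠ N : ℕ in atTop, 21 / 10 ≤ Real.log (N : ℝ) := hlog.eventually_ge_atTop _
  have e4 : ∀ᶠ N : ℕ in atTop, (4 : ℝ) + g ≤ (N : ℝ) ^ ε :=
    ((tendsto_rpow_atTop hε).comp tendsto_natCast_atTop_atTop).eventually_ge_atTop _
  filter_upwards [e1, e2, e3, e4, eventually_ge_atTop 2, eventually_ge_atTop g]
    with N e1 e2 e3 e4 e5 e6
  have hN : (2 : ℝ) ≤ N := by exact_mod_cast e5
  have hNg : (g : ℝ) ≤ N := by exact_mod_cast e6
  have hg' : (1 : ℝ) ≤ g := by exact_mod_cast hg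
  set L := Real.log (N : ℝ) with hL
  have hL0 : 0 < L := by linarith
  set P : ℝ := (N : ℝ) ^ (1 + ε) with hP
  have hPN : P = N * (N : ℝ) ^ ε := by
    rw [hP, Real.rpow_add (by linarith), Real.rpow_one]
  have hP1 : 4 * N ≤ P := by
    rw [hPN, mul_comm]
    exact mul_le_mul_of_nonneg_left (by linarith) (by linarith)
  have hP2 : (g : ℝ) * N ≤ P := by
    rw [hPN, mul_comm]
    exact mul_le_mul_of_nonneg_left (by linarith) (by linarith)
  have hPpos : 0 < P := by linarith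
  have hlogP : Real.log P = (1 + ε) * L := by rw [hP, Real.log_rpow (by linarith)]
  set s := sh ε N with hs
  have hs1 : (s : ℝ) ≤ P := Int.floor_le _
  have hs2 : P - 1 < s := Int.sub_one_lt_floor _
  set X := ⌈5 * P ^ 2⌉₊ with hX
  have hX1 : 5 * P ^ 2 ≤ X := Nat.le_ceil _
  have hX2 : (X : ℝ) ≤ 6 * P ^ 2 := by
    have := Nat.ceil_lt_add_one (show 0 ≤ 5 * P ^ 2 by positivity)
    have h1 : (1 : ℝ) ≤ P ^ 2 := one_le_pow₀ (by linarith)
    linarith
  have hYX : g * N ^ 2 ≤ X := by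
    have h1 : ((g * N ^ 2 : ℕ) : ℝ) ≤ X := by
      push_cast
      calc (g : ℝ) * N ^ 2 = (g * N) * N := by ring
        _ ≤ P * P := mul_le_mul hP2 (by linarith) (by linarith) (by linarith)
        _ ≤ 5 * P ^ 2 := by
            have := sq_nonneg P
            linarith
        _ ≤ X := hX1
    exact_mod_cast h1
  have hY : 2 ≤ g * N ^ 2 := by nlinarith
  -- the far square
  have hfar : ∀ n ∈ Box s N, n ≠ 0 ∧ n.norm ≤ X ∧ 2 * (1 + ε) * L - Real.log 4 ≤ Real.log n.norm := by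
    intro n hn
    rw [mem_Box, abs_lt, abs_lt] at hn
    obtain ⟨⟨h1, h2⟩, h3, h4⟩ := hn
    have h1' : (s : ℝ) - N < n.re := by
      have : s - N < n.re := by omega
      exact_mod_cast this
    have h2' : (n.re : ℝ) < s + N := by
      have : n.re < s + N := by omega
      exact_mod_cast this
    have h3' : -(N : ℝ) < n.im := by exact_mod_cast h3
    have h4' : (n.im : ℝ) < N := by exact_mod_cast h4
    have hnorm : (n.norm : ℝ) = (n.re : ℝ) ^ 2 + (n.im : ℝ) ^ 2 := by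
      rw [Zsqrtd.norm_def]; push_cast; ring
    have h5 : P / 2 ≤ n.re := by linarith
    have h6 : P ^ 2 / 4 ≤ (n.norm : ℝ) := by
      rw [hnorm]
      have a1 : (P / 2) ^ 2 ≤ (n.re : ℝ) ^ 2 := pow_le_pow_left₀ (by linarith) h5 2
      have a2 := sq_nonneg (n.im : ℝ)
      linarith
    have h7 : (n.norm : ℝ) ≤ 5 * P ^ 2 := by
      rw [hnorm]
      have a1 : (n.re : ℝ) ^ 2 ≤ (2 * P) ^ 2 := by
        apply pow_le_pow_left₀ (by linarith)
        linarith
      have a2 : (n.im : ℝ) ^ 2 ≤ P ^ 2 := sq_le_sq' (by linarith) (by linarith)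
      linarith
    refine ⟨?_, ?_, ?_⟩
    · intro h0
      rw [h0] at h5
      simp at h5
      linarith
    · have : (n.norm : ℝ) ≤ X := h7.trans hX1
      exact_mod_cast this
    · have h8 := Real.log_le_log (by positivity) h6
      rw [Real.log_div (by positivity) (by norm_num), Real.log_pow, hlogP] at h8
      push_cast at h8
      linarith
  -- the near square
  have hnear : ∀ n ∈ Box (N : ℤ) N, n ≠ 0 ∧ n.norm ≤ X ∧ Real.log n.norm ≤ 2 * L + Real.log 5 := by
    intro n hn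
    rw [mem_Box, abs_lt, abs_lt] at hn
    obtain ⟨⟨h1, h2⟩, h3, h4⟩ := hn
    have h1' : (0 : ℝ) < n.re := by
      have : 0 < n.re := by omega
      exact_mod_cast this
    have h2' : (n.re : ℝ) < 2 * N := by
      have : n.re < 2 * N := by omega
      exact_mod_cast this
    have h3' : -(N : ℝ) < n.im := by exact_mod_cast h3
    have h4' : (n.im : ℝ) < N := by exact_mod_cast h4
    have hnorm : (n.norm : ℝ) = (n.re : ℝ) ^ 2 + (n.im : ℝ) ^ 2 := by
      rw [Zsqrtd.norm_def]; push_cast; ring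
    have h6 : 0 < (n.norm : ℝ) := by
      rw [hnorm]; positivity
    have h7 : (n.norm : ℝ) ≤ 5 * (N : ℝ) ^ 2 := by
      rw [hnorm]
      have a1 : (n.re : ℝ) ^ 2 ≤ (2 * N) ^ 2 := sq_le_sq' (by linarith) (by linarith)
      have a2 : (n.im : ℝ) ^ 2 ≤ (N : ℝ) ^ 2 := sq_le_sq' (by linarith) (by linarith)
      linarith
    refine ⟨?_, ?_, ?_⟩
    · intro h0
      rw [h0] at h1'
      simp at h1'
    · have : (n.norm : ℝ) ≤ X := by
        have : 5 * (N : ℝ) ^ 2 ≤ 5 * P ^ 2 := by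
          have : (N : ℝ) ^ 2 ≤ P ^ 2 := pow_le_pow_left₀ (by linarith) (by linarith) 2
          linarith
        linarith
      exact_mod_cast this
    · have h8 := Real.log_le_log h6 h7
      rw [Real.log_mul (by norm_num) (by positivity), Real.log_pow] at h8
      push_cast at h8
      linarith
  have hmain := main_ineq (X := X) (Y := g * N ^ 2) (N := N) (by omega) (s := s) (b := (N : ℤ)) hY hYX
    (fun n hn => ⟨(hfar n hn).1, (hfar n hn).2.1⟩)
    (fun n hn => ⟨(hnear n hn).1, (hnear n hn).2.1⟩)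
  set B : ℝ := (2 * N - 1) ^ 2 with hB
  have hBs : ((Box s N).card : ℝ) = B := by
    rw [hB]; exact_mod_cast card_Box s (N := N) (by omega)
  have hBn : ((Box (N : ℤ) N).card : ℝ) = B := by
    rw [hB]; exact_mod_cast card_Box (N : ℤ) (N := N) (by omega)
  have hBN : (N : ℝ) ^ 2 ≤ B := by
    rw [hB]; exact pow_le_pow_left₀ (by linarith) (by linarith) 2
  have hlow : B * (2 * (1 + ε) * L - Real.log 4) ≤ ∑ n ∈ Box s N, Real.log (n.norm : ℝ) := by
    rw [← hBs, ← nsmul_eq_mul, ← Finset.sum_const]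
    exact Finset.sum_le_sum fun n hn => (hfar n hn).2.2
  have hup : ∑ n ∈ Box (N : ℤ) N, Real.log (n.norm : ℝ) ≤ B * (2 * L + Real.log 5) := by
    rw [← hBn, ← nsmul_eq_mul, ← Finset.sum_const]
    exact Finset.sum_le_sum fun n hn => (hnear n hn).2.2
  have hl4 : Real.log 4 ≤ 14 / 10 := by
    have : Real.log 4 = 2 * Real.log 2 := by
      rw [show (4 : ℝ) = 2 ^ 2 by norm_num, Real.log_pow]; norm_num
    have := Real.log_two_lt_d9
    linarith
  have hl8 : Real.log 8 ≤ 21 / 10 := by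
    have : Real.log 8 = 3 * Real.log 2 := by
      rw [show (8 : ℝ) = 2 ^ 3 by norm_num, Real.log_pow]; norm_num
    have := Real.log_two_lt_d9
    linarith
  have hl5 : Real.log 5 ≤ 21 / 10 := (Real.log_le_log (by norm_num) (by norm_num)).trans hl8
  have hl6 : Real.log 6 ≤ 21 / 10 := (Real.log_le_log (by norm_num) (by norm_num)).trans hl8
  have hXpos : (0 : ℝ) < X := by
    have : 0 < 5 * P ^ 2 := by positivity
    linarith
  have hlogX : Real.log X ≤ 3 * (1 + ε) * L := by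
    have h1 := Real.log_le_log hXpos hX2
    rw [Real.log_mul (by norm_num) (by positivity), Real.log_pow, hlogP] at h1
    push_cast at h1
    have h2 : 0 ≤ ε * L := by positivity
    linarith
  have hlogY : Real.log ((g * N ^ 2 : ℕ) : ℝ) ≤ 3 * L := by
    have h1 : ((g * N ^ 2 : ℕ) : ℝ) ≤ (N : ℝ) ^ 3 := by
      push_cast
      calc (g : ℝ) * N ^ 2 ≤ N * N ^ 2 := mul_le_mul_of_nonneg_right hNg (by positivity)
        _ = _ := by ring
    have h2 : (0 : ℝ) < ((g * N ^ 2 : ℕ) : ℝ) := by exact_mod_cast (by omega : 0 < g * N ^ 2)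
    have h3 := Real.log_le_log h2 h1
    rw [Real.log_pow] at h3
    push_cast at h3 ⊢
    linarith
  set K : ℝ := ((PF (g * N ^ 2)).card : ℝ) with hK
  set S : ℝ := ((SS (g * N ^ 2) s N).card : ℝ) with hS
  have hK0 : 0 ≤ K := by positivity
  have hS0 : 0 ≤ S := by positivity
  have hsqrtK : √K ≤ η * N := by
    rw [Real.sqrt_le_left (by positivity)]
    calc K ≤ η ^ 2 * N ^ 2 := e1
      _ = _ := by ring
  have hB0 : 0 ≤ B := by positivity
  have hεL : 7 / 2 ≤ L * ε := (div_le_iff₀ hε).1 e2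
  have t1 : S * Real.log X ≤ S * (3 * (1 + ε) * L) := mul_le_mul_of_nonneg_left hlogX hS0
  have t2 : 64 * K * Real.log X ≤ 64 * K * (3 * (1 + ε) * L) :=
    mul_le_mul_of_nonneg_left hlogX (by positivity)
  have t3 : 640 * N * Real.log ((g * N ^ 2 : ℕ) : ℝ) * √K ≤ 640 * N * (3 * L) * (η * N) := by
    apply mul_le_mul _ hsqrtK (Real.sqrt_nonneg _) (by positivity)
    exact mul_le_mul_of_nonneg_left hlogY (by positivity)
  have t4 : B * (ε * L) ≤ B * (2 * (1 + ε) * L - Real.log 4) - B * (2 * L + Real.log 5) := by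
    rw [← mul_sub]
    apply mul_le_mul_of_nonneg_left _ hB0
    linarith
  have t5 : B * (ε * L) ≤ (3 * (1 + ε) * S + 192 * (1 + ε) * K + 1920 * N * (η * N)) * L := by
    linarith
  have t6 : B * ε ≤ 3 * (1 + ε) * S + 192 * (1 + ε) * K + 1920 * N * (η * N) := by
    have : (B * ε) * L ≤ (3 * (1 + ε) * S + 192 * (1 + ε) * K + 1920 * N * (η * N)) * L := by
      linarith
    exact le_of_mul_le_mul_right this hL0
  have t7 : 192 * (1 + ε) * K ≤ 192 * (1 + ε) * (η ^ 2 * N ^ 2) :=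
    mul_le_mul_of_nonneg_left e1 (by positivity)
  have t8 : (192 * (1 + ε) * η ^ 2 + 1920 * η) * (N : ℝ) ^ 2 ≤ ε / 2 * B :=
    mul_le_mul hη2 hBN (by positivity) (by positivity)
  have t9 : ε / 2 * B ≤ 3 * (1 + ε) * S := by linarith
  rw [hBs, div_mul_eq_mul_div, div_le_iff₀ (by positivity)]
  linarith

end Pool.Agent.R508.GI
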