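import Pool.Agent.R508.GaussPrimes

/-! A positive proportion of the elements of a far square has a very large prime factor:
the basic inequality. -/

namespace Pool.Agent.R508.GI

open GaussianInt UniqueFactorizationMonoid

attribute [local instance] nmon

theorem cmp {D : GaussianInt} (hD : D ≠ 0) (c c' : ℤ) {N : ℕ} (hN : 1 ≤ N) :
    ((Mul D c N).card : ℝ) ≤ (Mul D c' N).card + 32 * N / √(D.norm : ℝ) + 64 := by
  have hn1 : (1 : ℝ) ≤ (D.norm : ℝ) := by exact_mod_cast norm_one_le hD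
  set d := √(D.norm : ℝ) with hd
  have hd1 : 1 ≤ d := by rw [hd]; exact Real.one_le_sqrt.2 hn1
  have hd2 : d ^ 2 = (D.norm : ℝ) := Real.sq_sqrt (by linarith)
  set r := ⌈d⌉₊ with hr
  have hr1 : d ≤ r := Nat.le_ceil d
  have hr2 : (r : ℝ) ≤ 2 * d := by
    have := Nat.ceil_lt_add_one (show 0 ≤ d by linarith)
    linarith
  have hr3 : D.norm ≤ (r : ℤ) ^ 2 := by
    have : (D.norm : ℝ) ≤ (r : ℝ) ^ 2 := by
      rw [← hd2]; exact pow_le_pow_left₀ (by linarith) hr1 2
    exact_mod_cast this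
  have h1 : ((Mul D c N).card : ℝ) * d ^ 2 ≤ (2 * N + 2 * r - 1) ^ 2 := by
    rw [hd2]
    exact_mod_cast cnt_upper hD hr3 c hN
  have hNr : (1 : ℝ) ≤ N := by exact_mod_cast hN
  have hd3 : 0 < d ^ 2 := by positivity
  rcases lt_or_ge r N with h | h
  · have h2 : (2 * (N : ℝ) - 2 * r - 1) ^ 2 ≤ ((Mul D c' N).card : ℝ) * d ^ 2 := by
      rw [hd2]
      exact_mod_cast cnt_lower hD hr3 c' h
    have h3 : (((Mul D c N).card : ℝ) - (Mul D c' N).card) * d ^ 2 ≤ (32 * N / d) * d ^ 2 := by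
      have : (32 * N / d) * d ^ 2 = 32 * N * d := by field_simp
      rw [this]
      nlinarith
    have h4 := le_of_mul_le_mul_right h3 hd3
    linarith
  · have h' : (N : ℝ) ≤ r := by exact_mod_cast h
    have h3 : ((Mul D c N).card : ℝ) * d ^ 2 ≤ 64 * d ^ 2 := by
      calc _ ≤ _ := h1
        _ ≤ (4 * r) ^ 2 := by
            apply pow_le_pow_left₀ (by linarith)
            linarith
        _ ≤ (8 * d) ^ 2 := by
            apply pow_le_pow_left₀ (by positivity)
            linarith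
        _ = _ := by ring
    have h4 := le_of_mul_le_mul_right h3 hd3
    have h5 : (0 : ℝ) ≤ (Mul D c' N).card := by positivity
    have h6 : (0 : ℝ) ≤ 32 * N / d := by positivity
    linarith

theorem geom_le {t : ℝ} (h0 : 0 ≤ t) (h1 : t ≤ 3 / 4) (J : ℕ) :
    ∑ j ∈ Finset.Icc 1 J, t ^ j ≤ 4 * t := by
  have h : (1 - t) * ∑ j ∈ Finset.Icc 1 J, t ^ j = t - t ^ (J + 1) := by
    induction J with
    | zero => simp
    | succ J ih => rw [Finset.sum_Icc_succ_top (by omega), mul_add, ih]; ring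
  have h2 : 0 ≤ ∑ j ∈ Finset.Icc 1 J, t ^ j := Finset.sum_nonneg fun j _ => by positivity
  have h3 : 0 ≤ t ^ (J + 1) := by positivity
  nlinarith

/-- the part of the logarithm of the norm carried by a prime -/
noncomputable def vv (π : GaussianInt) (J : ℕ) (n : GaussianInt) : ℝ :=
  (open Classical in (∑ j ∈ Finset.Icc 1 J, if π ^ j ∣ n then (1 : ℝ) else 0)) *
        Real.log (π.norm : ℝ)

theorem vv_nonneg (π : GaussianInt) (hπ : π ≠ 0) (J : ℕ) (n : GaussianInt) : 0 ≤ vv π J n := by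
  classical
  unfold vv
  apply mul_nonneg
  · apply Finset.sum_nonneg
    intro j _
    split_ifs <;> norm_num
  · apply Real.log_nonneg
    exact_mod_cast norm_one_le hπ

theorem sum_vv (π : GaussianInt) (J : ℕ) (c : ℤ) (N : ℕ) :
    ∑ n ∈ Box c N, vv π J n =
      ∑ j ∈ Finset.Icc 1 J, ((Mul (π ^ j) c N).card : ℝ) * Real.log (π.norm : ℝ) := by
  classical
  unfold vv
  rw [← Finset.sum_mul, Finset.sum_comm, ← Finset.sum_mul]
  congr 1
  apply Finset.sum_congr rfl
  intro j _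
  rw [Finset.sum_boole]
  unfold Mul
  congr!

theorem prime_cmp {X Y J N : ℕ} (hN : 1 ≤ N) {s b : ℤ} (hY : 2 ≤ Y)
    (hs : ∀ n ∈ Box s N, n ≠ 0 ∧ n.norm ≤ X) (hX : 1 ≤ X)
    {π : GaussianInt} (hπ : π ∈ PF Y) :
    ∑ n ∈ Box s N, vv π J n ≤ ∑ n ∈ Box b N, vv π J n + 64 * Real.log X
      + 128 * N * Real.log Y * (1 / √(π.norm : ℝ)) := by
  classical
  rw [sum_vv, sum_vv]
  rw [mem_PF] at hπ
  obtain ⟨hp, -, hpY⟩ := hπ
  have h2 : (2 : ℝ) ≤ π.norm := by exact_mod_cast norm_two_le hp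
  set q := π.norm.natAbs with hq
  have hqn : ((q : ℕ) : ℤ) = π.norm := by have := norm_two_le hp; omega
  have hqr : ((q : ℕ) : ℝ) = (π.norm : ℝ) := by exact_mod_cast hqn
  have hlog : 0 ≤ Real.log (π.norm : ℝ) := Real.log_nonneg (by linarith)
  set F := (Finset.Icc 1 J).filter (fun j => q ^ j ≤ X) with hF
  have hF1 : ∑ j ∈ Finset.Icc 1 J, ((Mul (π ^ j) s N).card : ℝ) * Real.log (π.norm : ℝ)
      = ∑ j ∈ F, ((Mul (π ^ j) s N).card : ℝ) * Real.log (π.norm : ℝ) := by
    symm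
    apply Finset.sum_subset (Finset.filter_subset _ _)
    intro j hj hjF
    have hlt : ¬ q ^ j ≤ X := fun h => hjF (Finset.mem_filter.2 ⟨hj, h⟩)
    have : Mul (π ^ j) s N = ∅ := by
      rw [Finset.eq_empty_iff_forall_notMem]
      intro n hn
      rw [mem_Mul] at hn
      have h3 := hs n (mem_Box.2 hn.1)
      have h4 := norm_le_of_dvd hn.2 h3.1
      rw [norm_pow, ← hqn] at h4
      apply hlt
      have h5 : ((q : ℕ) : ℤ) ^ j ≤ X := h4.trans h3.2
      exact_mod_cast h5
    rw [this]; simp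
  rw [hF1]
  have hF2 : (F.card : ℝ) * Real.log (π.norm : ℝ) ≤ Real.log X := by
    have h3 : F ⊆ Finset.Icc 1 (Nat.log q X) := by
      intro j hj
      rw [hF, Finset.mem_filter, Finset.mem_Icc] at hj
      rw [Finset.mem_Icc]
      refine ⟨hj.1.1, ?_⟩
      exact Nat.le_log_of_pow_le (by have := norm_two_le hp; omega) hj.2
    have h4 := Finset.card_le_card h3
    rw [Nat.card_Icc, Nat.add_sub_cancel] at h4
    have h5 : q ^ (Nat.log q X) ≤ X := Nat.pow_log_le_self q (by omega)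
    have h6 : ((q : ℝ)) ^ (Nat.log q X) ≤ X := by exact_mod_cast h5
    calc (F.card : ℝ) * Real.log (π.norm : ℝ) ≤ (Nat.log q X : ℕ) * Real.log (π.norm : ℝ) := by
          apply mul_le_mul_of_nonneg_right _ hlog
          exact_mod_cast h4
      _ = Real.log ((q : ℝ) ^ (Nat.log q X)) := by rw [Real.log_pow, hqr]
      _ ≤ Real.log X := Real.log_le_log (by rw [hqr]; positivity) h6
  have hlogY : Real.log (π.norm : ℝ) ≤ Real.log Y :=
    Real.log_le_log (by linarith) (by exact_mod_cast hpY)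
  set t := 1 / √(π.norm : ℝ) with ht
  have ht0 : 0 ≤ t := by positivity
  have ht1 : t ≤ 3 / 4 := by
    rw [ht, div_le_iff₀ (Real.sqrt_pos.2 (by linarith))]
    have : (4 / 3 : ℝ) ≤ √(π.norm : ℝ) := by
      apply Real.le_sqrt_of_sq_le
      calc (4 / 3 : ℝ) ^ 2 ≤ 2 := by norm_num
        _ ≤ _ := h2
    linarith
  have hlogY0 : 0 ≤ Real.log (Y : ℝ) := hlog.trans hlogY
  calc ∑ j ∈ F, ((Mul (π ^ j) s N).card : ℝ) * Real.log (π.norm : ℝ)
      ≤ ∑ j ∈ F, (((Mul (π ^ j) b N).card : ℝ) * Real.log (π.norm : ℝ)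
          + 32 * N * Real.log Y * t ^ j + 64 * Real.log (π.norm : ℝ)) := by
        apply Finset.sum_le_sum
        intro j _
        have h3 := cmp (pow_ne_zero j hp.ne_zero) s b hN (D := π ^ j)
        have h4 : 32 * N / √(((π ^ j).norm : ℤ) : ℝ) = 32 * N * t ^ j := by
          rw [norm_pow]
          push_cast
          have : √((π.norm : ℝ) ^ j) = √(π.norm : ℝ) ^ j := by
            rw [Real.sqrt_eq_iff_mul_self_eq (by positivity) (by positivity)]
            rw [← mul_pow, Real.mul_self_sqrt (by linarith)]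
          rw [this, ht, one_div, inv_pow]
          field_simp
        rw [h4] at h3
        have h5 : 32 * N * t ^ j * Real.log (π.norm : ℝ) ≤ 32 * N * Real.log Y * t ^ j := by
          have : 0 ≤ 32 * N * t ^ j := by positivity
          nlinarith
        nlinarith
    _ = ∑ j ∈ F, ((Mul (π ^ j) b N).card : ℝ) * Real.log (π.norm : ℝ)
          + 32 * N * Real.log Y * ∑ j ∈ F, t ^ j + 64 * (F.card * Real.log (π.norm : ℝ)) := by
        rw [Finset.sum_add_distrib, Finset.sum_add_distrib, Finset.mul_sum, Finset.sum_const,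
          nsmul_eq_mul]
        ring
    _ ≤ ∑ j ∈ Finset.Icc 1 J, ((Mul (π ^ j) b N).card : ℝ) * Real.log (π.norm : ℝ)
          + 32 * N * Real.log Y * (4 * t) + 64 * Real.log X := by
        have h3 : ∑ j ∈ F, ((Mul (π ^ j) b N).card : ℝ) * Real.log (π.norm : ℝ) ≤
            ∑ j ∈ Finset.Icc 1 J, ((Mul (π ^ j) b N).card : ℝ) * Real.log (π.norm : ℝ) := by
          apply Finset.sum_le_sum_of_subset_of_nonneg (Finset.filter_subset _ _)
          intro j _ _
          positivity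
        have h4 : ∑ j ∈ F, t ^ j ≤ 4 * t := by
          calc _ ≤ ∑ j ∈ Finset.Icc 1 J, t ^ j := by
                apply Finset.sum_le_sum_of_subset_of_nonneg (Finset.filter_subset _ _)
                intro j _ _
                positivity
            _ ≤ _ := geom_le ht0 ht1 J
        have h5 : 32 * N * Real.log Y * ∑ j ∈ F, t ^ j ≤ 32 * N * Real.log Y * (4 * t) :=
          mul_le_mul_of_nonneg_left h4 (by positivity)
        linarith
    _ = _ := by ring

/-- the elements with a prime factor of norm larger than `Y` -/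
noncomputable def SS (Y : ℕ) (c : ℤ) (N : ℕ) : Finset GaussianInt :=
  open Classical in (Box c N).filter (fun n => ∃ π : GaussianInt, Prime π ∧ (Y : ℤ) < π.norm ∧ π ∣ n)

theorem main_ineq {X Y N : ℕ} (hN : 1 ≤ N) {s b : ℤ} (hY : 2 ≤ Y) (hYX : Y ≤ X)
    (hs : ∀ n ∈ Box s N, n ≠ 0 ∧ n.norm ≤ X) (hb : ∀ n ∈ Box b N, n ≠ 0 ∧ n.norm ≤ X) :
    ∑ n ∈ Box s N, Real.log (n.norm : ℝ) ≤ (SS Y s N).card * Real.log X
      + ∑ n ∈ Box b N, Real.log (n.norm : ℝ) + 64 * (PF Y).card * Real.log X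
      + 640 * N * Real.log Y * √((PF Y).card : ℝ) := by
  classical
  have hX : 1 ≤ X := by omega
  have hJ : X < 2 ^ (X + 1) := by
    calc X < 2 ^ X := Nat.lt_two_pow_self
      _ ≤ 2 ^ (X + 1) := Nat.pow_le_pow_right (by norm_num) (by omega)
  have hlogX : 0 ≤ Real.log X := Real.log_nonneg (by exact_mod_cast hX)
  have hsub : PF Y ⊆ PF X := by
    intro z hz
    rw [mem_PF] at hz ⊢
    exact ⟨hz.1, hz.2.1, hz.2.2.trans (by exact_mod_cast hYX)⟩
  have hid : ∀ n : GaussianInt, n ≠ 0 → n.norm ≤ X →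
      Real.log (n.norm : ℝ) = ∑ π ∈ PF X, vv π X n := by
    intro n hn hnX
    exact log_norm hn hnX hJ
  have hpos : ∀ n : GaussianInt, ∀ π ∈ PF X, 0 ≤ vv π X n := by
    intro n π hπ
    exact vv_nonneg π (mem_PF.1 hπ).1.ne_zero X n
  -- upper bound for the far square
  have h1 : ∑ n ∈ Box s N, Real.log (n.norm : ℝ) ≤
      ∑ n ∈ Box s N, ∑ π ∈ PF Y, vv π X n + (SS Y s N).card * Real.log X := by
    have h2 : (SS Y s N).card * Real.log X =
        ∑ n ∈ Box s N, (if ∃ π : GaussianInt, Prime π ∧ (Y : ℤ) < π.norm ∧ π ∣ n then Real.log X else 0) := by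
      rw [← Finset.sum_filter, Finset.sum_const, nsmul_eq_mul]
      unfold SS
      congr!
    rw [h2, ← Finset.sum_add_distrib]
    apply Finset.sum_le_sum
    intro n hn
    obtain ⟨hn0, hnX⟩ := hs n hn
    split_ifs with hS
    · have h3 : 0 ≤ ∑ π ∈ PF Y, vv π X n :=
        Finset.sum_nonneg fun π hπ => hpos n π (hsub hπ)
      have h4 : Real.log (n.norm : ℝ) ≤ Real.log X :=
        Real.log_le_log (by exact_mod_cast GaussianInt.norm_pos.2 hn0) (by exact_mod_cast hnX)
      linarith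
    · rw [add_zero, hid n hn0 hnX]
      apply le_of_eq
      symm
      apply Finset.sum_subset hsub
      intro π hπX hπY
      rw [mem_PF] at hπX hπY
      have hbig : (Y : ℤ) < π.norm := by
        by_contra hcon
        exact hπY ⟨hπX.1, hπX.2.1, not_lt.1 hcon⟩
      unfold vv
      rw [Finset.sum_eq_zero, zero_mul]
      intro j hj
      rw [Finset.mem_Icc] at hj
      rw [if_neg]
      intro hdvd
      exact hS ⟨π, hπX.1, hbig, (dvd_pow_self π (by omega)).trans hdvd⟩
  -- lower bound for the near square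
  have h2 : ∑ n ∈ Box b N, ∑ π ∈ PF Y, vv π X n ≤ ∑ n ∈ Box b N, Real.log (n.norm : ℝ) := by
    apply Finset.sum_le_sum
    intro n hn
    obtain ⟨hn0, hnX⟩ := hb n hn
    rw [hid n hn0 hnX]
    apply Finset.sum_le_sum_of_subset_of_nonneg hsub
    intro π hπ _
    exact hpos n π hπ
  rw [Finset.sum_comm] at h1 h2
  have h3 : ∑ π ∈ PF Y, ∑ n ∈ Box s N, vv π X n ≤ ∑ π ∈ PF Y, (∑ n ∈ Box b N, vv π X n
      + 64 * Real.log X + 128 * N * Real.log Y * (1 / √(π.norm : ℝ))) := by
    apply Finset.sum_le_sum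
    intro π hπ
    exact prime_cmp hN hY hs hX hπ
  rw [Finset.sum_add_distrib, Finset.sum_add_distrib, Finset.sum_const, nsmul_eq_mul,
    ← Finset.mul_sum] at h3
  have h4 := sum_PF Y
  have hlogY : 0 ≤ Real.log (Y : ℝ) := Real.log_nonneg (by exact_mod_cast (by omega : 1 ≤ Y))
  have h5 : 128 * N * Real.log Y * ∑ π ∈ PF Y, 1 / √(π.norm : ℝ) ≤
      128 * N * Real.log Y * (5 * √((PF Y).card : ℝ)) :=
    mul_le_mul_of_nonneg_left h4 (by positivity)
  nlinarith

end Pool.Agent.R508.GI
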