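import Mathlib
import Pool.Agent.R508.Cluster

set_option autoImplicit false

namespace Pool.Agent.R508

open Finset Filter Topology Pool.Agent.Y884.GR

/-- a residue class avoiding few classes -/
theorem exists_avoid {k : ℕ} (Q b : ℕ) (D : Fin k → ℕ) (p : ℕ) (hp : p.Prime) (hpQ : ¬ p ∣ Q)
    (hk : k + 1 < p) : ∃ n : ℕ, ¬ p ∣ n ∧ ∀ i, ¬ p ∣ Q * n + (b + D i) := by
  classical
  have : Fact p.Prime := ⟨hp⟩
  have hQ : (Q : ZMod p) ≠ 0 := by
    rw [Ne, ZMod.natCast_eq_zero_iff]
    exact hpQ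
  set bad : Finset (ZMod p) :=
    insert 0 (univ.image fun i : Fin k => -((b + D i : ℕ) : ZMod p) / (Q : ZMod p)) with hbad
  have h1 : bad.card ≤ k + 1 := by
    refine (card_insert_le _ _).trans ?_
    have := card_image_le (s := (univ : Finset (Fin k)))
      (f := fun i : Fin k => -((b + D i : ℕ) : ZMod p) / (Q : ZMod p))
    rw [card_univ, Fintype.card_fin] at this
    omega
  have h2 : ∃ z : ZMod p, z ∉ bad := by
    by_contra h
    push Not at h
    have h3 : (univ : Finset (ZMod p)) ⊆ bad := fun z _ => h z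
    have h4 := card_le_card h3
    rw [card_univ, ZMod.card] at h4
    omega
  obtain ⟨z, hz⟩ := h2
  have hzz : ((z.val : ℕ) : ZMod p) = z := ZMod.natCast_zmod_val z
  refine ⟨z.val, ?_, ?_⟩
  · intro h
    apply hz
    rw [← ZMod.natCast_eq_zero_iff, hzz] at h
    rw [h, hbad]
    exact mem_insert_self _ _
  · intro i h
    apply hz
    rw [← ZMod.natCast_eq_zero_iff] at h
    push_cast at h
    rw [hzz] at h
    rw [hbad]
    apply mem_insert_of_mem
    rw [mem_image]
    refine ⟨i, mem_univ _, ?_⟩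
    push_cast
    field_simp
    linear_combination -h

/-- infinitely many `n` with at least `m` primes among the `Q n + b + D i` -/
theorem infinite_of_MT {m k : ℕ} (hMT : MTall m k) (D : Fin k → ℕ) (hD : Function.Injective D)
    (Q b : ℕ) (hQ : 0 < Q) (hb : 1 ≤ b) (hcop : ∀ i, Nat.Coprime (b + D i) Q)
    (hsmall : ∀ p : ℕ, p.Prime → p ≤ k + 1 → p ∣ Q) (N : ℕ) :
    ∃ n : ℕ, N ≤ n ∧ 1 ≤ n ∧ m ≤ (univ.filter fun i => (Q * n + (b + D i)).Prime).card := by
  classical
  obtain ⟨δ₀, hδ₀, h⟩ := hMT (fun _ => Q) (fun i => b + D i) (fun _ => hQ) (fun i => by omega)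
    (by
      intro i j hij he
      have h1 := Nat.eq_of_mul_eq_mul_left hQ he
      exact hij (hD (by omega)).symm)
    (by
      intro p hp
      by_cases hpQ : p ∣ Q
      · refine ⟨1, hp.one_lt.not_ge ∘ Nat.le_of_dvd one_pos, fun i hd => ?_⟩
        have h1 : p ∣ b + D i := (Nat.dvd_add_right (hpQ.mul_right 1)).1 hd
        have h2 := Nat.dvd_gcd h1 hpQ
        rw [hcop i] at h2
        exact hp.one_lt.not_ge (Nat.le_of_dvd one_pos h2)
      · exact exists_avoid Q b D p hp hpQ (by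
          by_contra hc
          exact hpQ (hsmall p hp (by omega))))
  set δ : ℝ := min δ₀ 1 with hδ
  have hδ0 : 0 < δ := lt_min hδ₀ one_pos
  obtain ⟨x₀, hx₀⟩ := h δ hδ0 (min_le_left _ _)
  by_contra hcon
  push Not at hcon
  -- the count is bounded by `N`
  have hexp : 0 < 1 - δ / 2 := by
    have := min_le_right δ₀ (1 : ℝ)
    rw [← hδ] at this
    linarith
  have hlim := tendsto_rpow_atTop hexp
  obtain ⟨x, hx1, hx2⟩ := ((hlim.eventually_gt_atTop (N : ℝ)).and (eventually_ge_atTop x₀)).exists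
  have h1 := hx₀ x hx2
  have h2 : (((Icc 1 ⌊x⌋₊).filter (fun n => (∀ p : ℕ, p.Prime → p ∣ n → x ^ δ < p) ∧
      m ≤ (univ.filter (fun i => (Q * n + (b + D i)).Prime)).card)).card : ℝ) ≤ N := by
    have h3 : ((Icc 1 ⌊x⌋₊).filter (fun n => (∀ p : ℕ, p.Prime → p ∣ n → x ^ δ < p) ∧
      m ≤ (univ.filter (fun i => (Q * n + (b + D i)).Prime)).card)) ⊆ range N := by
      intro n hn
      rw [mem_filter, mem_Icc] at hn
      rw [mem_range]
      by_contra hN
      have h4 := hcon n (by omega) hn.1.1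
      have h5 := hn.2.2
      exact absurd h5 (not_le.2 h4)
    have h4 := card_le_card h3
    rw [card_range] at h4
    exact_mod_cast h4
  linarith

end Pool.Agent.R508
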