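import Mathlib
import Pool.Agent.R508.Inf

set_option autoImplicit false

namespace Pool.Agent.R508

open Finset Filter Topology Pool.Agent.Y884.GR

/-- `S i = p_i + p_{i+1}` (for `i ≥ 1`), where `p_1 = 2, p_2 = 3, ...` are the primes. -/
noncomputable def S (i : ℕ) : ℕ := Nat.nth Nat.Prime (i - 1) + Nat.nth Nat.Prime i

theorem inf_primes : (Set.ofPred Nat.Prime).Infinite := Nat.infinite_setOfPred_prime

theorem nth_mono {a b : ℕ} (h : a ≤ b) : Nat.nth Nat.Prime a ≤ Nat.nth Nat.Prime b :=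
  (Nat.nth_monotone inf_primes) h

theorem nth_lt {a b : ℕ} (h : a < b) : Nat.nth Nat.Prime a < Nat.nth Nat.Prime b :=
  (Nat.nth_strictMono inf_primes) h

theorem nth_prime (a : ℕ) : (Nat.nth Nat.Prime a).Prime := Nat.nth_mem_of_infinite inf_primes a

theorem S_lt {a b : ℕ} (ha : 1 ≤ a) (h : a < b) : S a < S b := by
  unfold S
  have h1 : Nat.nth Nat.Prime (a - 1) < Nat.nth Nat.Prime (b - 1) := nth_lt (by omega)
  have h2 := nth_lt h
  omega

/-- all offsets in the window are prime offsets -/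
theorem window {k : ℕ} (D : Fin k → ℕ) (Q b C B : ℕ) (hQ : 0 < Q)
    (hP : ∀ j e : ℕ, 1 ≤ j → j ≤ C → e ≤ B → (∀ i, e ≠ j * D i) →
      ∃ q : ℕ, q.Prime ∧ q ∣ Q ∧ (q : ℤ) ∣ (j : ℤ) * b + e) (n : ℕ) (hn : 2 ≤ n)
    (j e : ℕ) (hj1 : 1 ≤ j) (hj : j ≤ C) (he : e ≤ B) (hv : (j * (Q * n + b) + e).Prime) :
    j = 1 ∧ ∃ i, e = D i := by
  by_cases h : ∃ i, e = j * D i
  · obtain ⟨i, hi⟩ := h
    have h1 : j * (Q * n + b) + e = j * (Q * n + b + D i) := by rw [hi]; ring
    rw [h1] at hv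
    have h2 : 2 ≤ Q * n + b + D i := by
      have : 1 * 2 ≤ Q * n := Nat.mul_le_mul hQ hn
      omega
    rcases (Nat.prime_mul_iff.1 hv) with ⟨_, h3⟩ | ⟨_, h3⟩
    · omega
    · refine ⟨h3, i, ?_⟩
      rw [hi, h3, one_mul]
  · exfalso
    push Not at h
    obtain ⟨q, hq1, hq2, hq3⟩ := hP j e hj1 hj he h
    have h1 : q ∣ j * (Q * n + b) + e := by
      have h2 : (q : ℤ) ∣ ((j * (Q * n + b) + e : ℕ) : ℤ) := by
        have h3 : ((j * (Q * n + b) + e : ℕ) : ℤ) = ((j : ℤ) * b + e) + (Q : ℤ) * (j * n) := by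
          push_cast; ring
        rw [h3]
        exact dvd_add hq3 (Dvd.dvd.mul_right (Int.natCast_dvd_natCast.2 hq2) _)
      exact Int.natCast_dvd_natCast.1 h2
    have h4 : q = j * (Q * n + b) + e := by
      rcases (Nat.dvd_prime hv).1 h1 with h5 | h5
      · exact absurd h5 hq1.one_lt.ne'
      · exact h5
    have h5 : q ≤ Q := Nat.le_of_dvd hQ hq2
    have h6 : Q * 2 ≤ Q * n := Nat.mul_le_mul_left _ hn
    have h7 : Q * n + b ≤ j * (Q * n + b) := Nat.le_mul_of_pos_left _ hj1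
    omega

/-- the set of constraints, and the modulus -/
theorem setup {k : ℕ} (D : Fin k → ℕ) (Q b C B : ℕ) (hQ : 0 < Q)
    (hcop : ∀ i, Nat.Coprime (b + D i) Q) :
    ∃ Q' b' : ℕ, 0 < Q' ∧ Q ∣ Q' ∧ b' ≡ b [MOD Q] ∧ (∀ i, Nat.Coprime (b' + D i) Q') ∧
      ∀ j e : ℕ, 1 ≤ j → j ≤ C → e ≤ B → (∀ i, e ≠ j * D i) →
      ∃ q : ℕ, q.Prime ∧ q ∣ Q' ∧ (q : ℤ) ∣ (j : ℤ) * b' + e := by
  classical
  set P : Finset (ℕ × ℤ) := (((Icc 1 C) ×ˢ (range (B + 1))).filter
    (fun x => ∀ i, x.2 ≠ x.1 * D i)).image (fun x => (x.1, (x.2 : ℤ))) with hPdef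
  obtain ⟨Q', b', h1, h2, h3, h4, h5⟩ := many D Q b hQ hcop P (by
    intro x hx
    rw [hPdef, mem_image] at hx
    obtain ⟨y, hy, rfl⟩ := hx
    rw [mem_filter, mem_product, mem_Icc] at hy
    refine ⟨hy.1.1.1, fun i => ?_⟩
    have h6 := hy.2 i
    have h7 : ((y.2 : ℕ) : ℤ) ≠ (y.1 : ℤ) * D i := by exact_mod_cast h6
    exact h7)
  refine ⟨Q', b', h1, h2, h3, h4, ?_⟩
  intro j e hj1 hj he h
  exact h5 (j, (e : ℤ)) (by
    rw [hPdef, mem_image]
    refine ⟨(j, e), ?_, rfl⟩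
    rw [mem_filter, mem_product, mem_Icc, mem_range]
    exact ⟨⟨⟨hj1, hj⟩, by simp only; omega⟩, h⟩)

/-- consecutive primes as consecutive values of `nth` -/
theorem consec {p q : ℕ} (hp : p.Prime) (hq : q.Prime) (hpq : p < q)
    (h : ∀ v, p < v → v < q → ¬ v.Prime) :
    Nat.nth Nat.Prime (Nat.count Nat.Prime p) = p ∧
      Nat.nth Nat.Prime (Nat.count Nat.Prime p + 1) = q := by
  have h1 := Nat.nth_count hp
  have h2 := Nat.nth_count hq
  refine ⟨h1, ?_⟩
  have h3 : Nat.count Nat.Prime p < Nat.count Nat.Prime q := Nat.count_strict_mono hp hpq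
  rcases Nat.lt_or_ge (Nat.count Nat.Prime p + 1) (Nat.count Nat.Prime q) with h4 | h4
  · exfalso
    have h5 := nth_lt h4
    have h6 := nth_lt (Nat.lt_succ_self (Nat.count Nat.Prime p))
    rw [h2] at h5
    rw [h1] at h6
    exact h _ h6 h5 (nth_prime _)
  · have h5 : Nat.count Nat.Prime p + 1 = Nat.count Nat.Prime q := by omega
    rw [h5, h2]

/-- **Two consecutive primes in the tuple.** -/
theorem two_primes {k : ℕ} (hMT : MTall 2 k) (D : Fin k → ℕ) (hD : StrictMono D) (Z : ℕ)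
    (hZ : 0 < Z) (hcop : ∀ i, Nat.Coprime (1 + D i) Z)
    (hsmall : ∀ p : ℕ, p.Prime → p ≤ k + 1 → p ∣ Z) (N : ℕ) :
    ∃ κ : ℕ, N ≤ κ ∧ ∃ i j : Fin k, i < j ∧ ∃ x : ℕ, S κ = Z * x + (2 + D i + D j) := by
  classical
  set B := ∑ i, D i with hB
  have hDB : ∀ i, D i ≤ B := fun i => single_le_sum (fun _ _ => Nat.zero_le _) (mem_univ i)
  obtain ⟨Q, b, h1, h2, h3, h4, h5⟩ := setup D Z 1 1 B hZ hcop
  have hb : b ≡ 1 [MOD Z] := h3
  -- replace `b` by a positive number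
  have hbpos : 1 ≤ b ∨ b = 0 := by omega
  obtain ⟨n, hn1, hn2, hn3⟩ := infinite_of_MT hMT D hD.injective Q (b + Q) h1 (by omega)
    (fun i => by
      have h6 : b + Q + D i ≡ b + D i [MOD Q] := by
        have : b + Q + D i = (b + D i) + Q := by ring
        rw [this]
        exact Nat.add_modEq_right
      have h7 := Nat.ModEq.gcd_eq h6
      have h8 := h4 i
      unfold Nat.Coprime at h8 ⊢
      rw [h7, h8]) (fun p hp hpk => (hsmall p hp hpk).trans h2)
      (Nat.nth Nat.Prime N + 2)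
  set n' := n + 1 with hn'
  have hQn : n' ≤ Q * n' := Nat.le_mul_of_pos_left _ h1
  have hform : ∀ i, Q * n + (b + Q + D i) = Q * n' + b + D i := by
    intro i; rw [hn']; ring
  set I := univ.filter fun i : Fin k => (Q * n' + b + D i).Prime with hI
  have hIcard : 2 ≤ I.card := by
    refine hn3.trans (le_of_eq ?_)
    congr 1
    rw [hI]
    apply filter_congr
    intro i _
    rw [hform i]
  have hIne : I.Nonempty := card_pos.1 (by omega)
  set i := I.min' hIne with hi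
  have hiI : i ∈ I := min'_mem _ _
  have hJne : (I.erase i).Nonempty := by
    rw [← card_pos, card_erase_of_mem hiI]; omega
  set j := (I.erase i).min' hJne with hj
  have hjJ : j ∈ I.erase i := min'_mem _ _
  have hjI : j ∈ I := mem_of_mem_erase hjJ
  have hij : i < j := lt_of_le_of_ne (min'_le _ _ hjI) (ne_of_mem_erase hjJ).symm
  have hpi : (Q * n' + b + D i).Prime := (mem_filter.1 hiI).2
  have hpj : (Q * n' + b + D j).Prime := (mem_filter.1 hjI).2
  have hlt : Q * n' + b + D i < Q * n' + b + D j := by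
    have := hD hij
    omega
  have hcons : ∀ v, Q * n' + b + D i < v → v < Q * n' + b + D j → ¬ v.Prime := by
    intro v hv1 hv2 hv
    obtain ⟨e, he⟩ : ∃ e, v = 1 * (Q * n' + b) + e := ⟨v - (Q * n' + b), by omega⟩
    have heB : e ≤ B := by
      have := hDB j
      omega
    obtain ⟨_, l, hl⟩ := window D Q b 1 B h1 h5 n' (by omega) 1 e le_rfl le_rfl heB (by rwa [← he])
    have hl1 : D i < D l := by omega
    have hl2 : D l < D j := by omega
    have hl3 : i < l := hD.lt_iff_lt.1 hl1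
    have hl4 : l < j := hD.lt_iff_lt.1 hl2
    have hlI : l ∈ I := by
      rw [hI, mem_filter]
      refine ⟨mem_univ _, ?_⟩
      have : Q * n' + b + D l = v := by rw [he, hl]; ring
      rwa [this]
    have hlJ : l ∈ I.erase i := mem_erase.2 ⟨hl3.ne', hlI⟩
    exact absurd (min'_le _ _ hlJ) (not_le.2 hl4)
  obtain ⟨g1, g2⟩ := consec hpi hpj hlt hcons
  refine ⟨Nat.count Nat.Prime (Q * n' + b + D i) + 1, ?_, i, j, hij, ?_⟩
  · -- the index is large
    have h6 : Nat.nth Nat.Prime N < Nat.nth Nat.Prime (Nat.count Nat.Prime (Q * n' + b + D i)) := by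
      rw [g1]; omega
    by_contra hc
    have h7 := nth_mono (show Nat.count Nat.Prime (Q * n' + b + D i) ≤ N by omega)
    omega
  · unfold S
    rw [Nat.add_sub_cancel, g1, g2]
    obtain ⟨y, hy⟩ : ∃ y, Q * n' + b = 1 + Z * y := by
      have h6 : 1 ≡ Q * n' + b [MOD Z] := by
        have h7 : Q * n' ≡ 0 [MOD Z] := (Nat.modEq_zero_iff_dvd).2 (h2.mul_right n')
        have h8 := (h7.add hb).symm
        simpa using h8
      have h9 : Z ∣ (Q * n' + b) - 1 := (Nat.modEq_iff_dvd' (by omega)).1 h6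
      obtain ⟨y, hy⟩ := h9
      exact ⟨y, by omega⟩
    exact ⟨2 * y, by rw [hy]; ring⟩

end Pool.Agent.R508
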