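import Mathlib
import Pool.Agent.R508.PairSum

set_option autoImplicit false

namespace Pool.Agent.R508

open Finset Filter Topology Pool.Agent.Y884.GR

/-- **Indices `n` such that no `j S n` with `2 ≤ j ≤ C` is a sum of two consecutive primes.** -/
theorem good_index (C R : ℕ) (hC : 1 ≤ C) (hR : 1 ≤ R) (N : ℕ) :
    ∃ n : ℕ, 1 ≤ n ∧ N ≤ n ∧ (∃ x : ℕ, S n = 2 + 4 * R * x) ∧
      ∀ j κ : ℕ, 2 ≤ j → j ≤ C → 1 ≤ κ → j * S n ≠ S κ := by
  classical
  obtain ⟨k, hk, hMT⟩ := maynardTaoAll C hC
  set W := 4 * R * (k + 1).factorial with hW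
  have hW0 : 0 < W := by
    have := Nat.factorial_pos (k + 1)
    rw [hW]; positivity
  set D : Fin k → ℕ := fun i => W * i with hDdef
  have hD : StrictMono D := by
    intro i j hij
    exact Nat.mul_lt_mul_of_pos_left hij hW0
  set M := ∑ i, D i with hM
  have hDM : ∀ i, D i ≤ M := fun i => single_le_sum (fun _ _ => Nat.zero_le _) (mem_univ i)
  set B := C * M with hB
  have hMB : M ≤ B := Nat.le_mul_of_pos_left _ hC
  have hcop : ∀ i, Nat.Coprime (1 + D i) W := by
    intro i
    rw [hDdef]
    simp
  obtain ⟨Q, b, h1, h2, h3, h4, h5⟩ := setup D W 1 C B hW0 hcop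
  have hsmall : ∀ p : ℕ, p.Prime → p ≤ k + 1 → p ∣ Q := by
    intro p hp hpk
    exact (((hp.dvd_factorial).2 hpk).trans (dvd_mul_left _ _)).trans h2
  obtain ⟨n, hn1, hn2, hn3⟩ := infinite_of_MT hMT D hD.injective Q (b + Q) h1 (by omega)
    (fun i => by
      have h6 : b + Q + D i ≡ b + D i [MOD Q] := by
        have : b + Q + D i = (b + D i) + Q := by ring
        rw [this]
        exact Nat.add_modEq_right
      have h7 := Nat.ModEq.gcd_eq h6
      have h8 := h4 i
      unfold Nat.Coprime at h8 ⊢
      rw [h7, h8]) hsmall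
      (Nat.nth Nat.Prime N + 2)
  set n' := n + 1 with hn'
  have hQn : n' ≤ Q * n' := Nat.le_mul_of_pos_left _ h1
  have hform : ∀ i, Q * n + (b + Q + D i) = Q * n' + b + D i := by
    intro i; rw [hn']; ring
  set I := univ.filter fun i : Fin k => (Q * n' + b + D i).Prime with hI
  have hIcard : C + 1 ≤ I.card := by
    refine hn3.trans (le_of_eq ?_)
    congr 1
    rw [hI]
    apply filter_congr
    intro i _
    rw [hform i]
  have hIne : I.Nonempty := card_pos.1 (by omega)
  set i0 := I.min' hIne with hi0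
  have hi0I : i0 ∈ I := min'_mem _ _
  have hp0 : (Q * n' + b + D i0).Prime := (mem_filter.1 hi0I).2
  set p0 := Q * n' + b + D i0 with hp0d
  set κ0 := Nat.count Nat.Prime p0 with hκ0
  have hκ0p : Nat.nth Nat.Prime κ0 = p0 := Nat.nth_count hp0
  -- there are at least `C + 1` primes in the window
  have hcount : κ0 + (C + 1) ≤ Nat.count Nat.Prime (Q * n' + b + M + 1) := by
    rw [hκ0, Nat.count_eq_card_filter_range, Nat.count_eq_card_filter_range]
    have hdisj : Disjoint ((range p0).filter Nat.Prime) (I.image fun i => Q * n' + b + D i) := by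
      rw [disjoint_left]
      intro v hv1 hv2
      rw [mem_filter, mem_range] at hv1
      rw [mem_image] at hv2
      obtain ⟨i, hi, rfl⟩ := hv2
      have h6 : i0 ≤ i := min'_le _ _ hi
      have h7 := hD.monotone h6
      omega
    have hsub : ((range p0).filter Nat.Prime) ∪ (I.image fun i => Q * n' + b + D i) ⊆
        (range (Q * n' + b + M + 1)).filter Nat.Prime := by
      intro v hv
      rw [mem_union] at hv
      rw [mem_filter, mem_range]
      rcases hv with hv | hv
      · rw [mem_filter, mem_range] at hv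
        have := hDM i0
        exact ⟨by omega, hv.2⟩
      · rw [mem_image] at hv
        obtain ⟨i, hi, rfl⟩ := hv
        have := hDM i
        exact ⟨by omega, (mem_filter.1 hi).2⟩
    have h6 := card_le_card hsub
    have hinj : Function.Injective (fun i : Fin k => Q * n' + b + D i) := fun x y hxy =>
      hD.injective (by simpa using hxy)
    rw [card_union_of_disjoint hdisj, card_image_of_injective _ hinj] at h6
    exact (Nat.add_le_add_left hIcard _).trans h6
  have hnth_le : ∀ t, t ≤ C → Nat.nth Nat.Prime (κ0 + t) ≤ Q * n' + b + M := by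
    intro t ht
    have h6 : κ0 + t < Nat.count Nat.Prime (Q * n' + b + M + 1) := by omega
    have := Nat.nth_lt_of_lt_count h6
    omega
  have hnth_ge : ∀ t, Q * n' + b ≤ Nat.nth Nat.Prime (κ0 + t) := by
    intro t
    have := nth_mono (show κ0 ≤ κ0 + t by omega)
    omega
  have hby : ∃ y, Q * n' + b = 1 + W * y := by
    have h6 : 1 ≡ Q * n' + b [MOD W] := by
      have h7 : Q * n' ≡ 0 [MOD W] := (Nat.modEq_zero_iff_dvd).2 (h2.mul_right n')
      have h8 := (h7.add h3).symm
      simpa using h8
    have h9 : W ∣ (Q * n' + b) - 1 := (Nat.modEq_iff_dvd' (by omega)).1 h6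
    obtain ⟨y, hy⟩ := h9
    exact ⟨y, by omega⟩
  have hnth_form : ∀ t, t ≤ C → ∃ y, Nat.nth Nat.Prime (κ0 + t) = 1 + W * y := by
    intro t ht
    obtain ⟨e, he⟩ : ∃ e, Nat.nth Nat.Prime (κ0 + t) = 1 * (Q * n' + b) + e :=
      ⟨Nat.nth Nat.Prime (κ0 + t) - (Q * n' + b), by have := hnth_ge t; omega⟩
    have heB : e ≤ B := by
      have := hnth_le t ht
      omega
    obtain ⟨_, l, hl⟩ := window D Q b C B h1 h5 n' (by omega) 1 e le_rfl hC heB
      (by rw [← he]; exact nth_prime _)
    obtain ⟨y, hy⟩ := hby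
    refine ⟨y + l, ?_⟩
    rw [he, hl, hy, hDdef]
    ring
  -- choose a good `t`
  have hgood : ∃ t, t < C ∧ ∀ j κ : ℕ, 2 ≤ j → j ≤ C → 1 ≤ κ → j * S (κ0 + t + 1) ≠ S κ := by
    by_contra hcon
    push Not at hcon
    choose! f g hf1 hf2 hf3 hf4 using hcon
    have hmaps : ∀ t ∈ range C, f t ∈ Icc 2 C := by
      intro t ht
      rw [mem_range] at ht
      rw [mem_Icc]
      exact ⟨hf1 t ht, hf2 t ht⟩
    obtain ⟨t, ht, t', ht', hne, hff⟩ := exists_ne_map_eq_of_card_lt_of_maps_to
      (by rw [card_range, Nat.card_Icc]; omega) hmaps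
    rw [mem_range] at ht ht'
    -- a symmetric lemma
    have key : ∀ t t' : ℕ, t < C → t' < C → t < t' → f t = f t' → False := by
      intro t t' ht ht' hlt hff
      have e1 := hf4 t ht
      have e2 := hf4 t' ht'
      rw [← hff] at e2
      have hj2 := hf1 t ht
      have hjC := hf2 t ht
      set j := f t with hj
      have hSlt : S (κ0 + t + 1) < S (κ0 + t' + 1) := S_lt (by omega) (by omega)
      have hlt2 : S (g t) < S (g t') := by
        rw [← e1, ← e2]
        exact Nat.mul_lt_mul_of_pos_left hSlt (by omega)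
      have hglt : g t < g t' := by
        by_contra hc
        rcases Nat.eq_or_lt_of_le (not_lt.1 hc) with h6 | h6
        · rw [h6] at hlt2; exact lt_irrefl _ hlt2
        · have := S_lt (hf3 t' ht') h6
          omega
      set v := Nat.nth Nat.Prime (g t) with hv
      have hv1 : S (g t) ≤ 2 * v := by
        unfold S
        have := nth_mono (show g t - 1 ≤ g t by omega)
        omega
      have hv2 : 2 * v ≤ S (g t') := by
        unfold S
        have := nth_mono (show g t ≤ g t' - 1 by omega)
        have := nth_mono (show g t ≤ g t' by omega)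
        omega
      have hS1 : 2 * (Q * n' + b) ≤ S (κ0 + t + 1) := by
        unfold S
        rw [Nat.add_sub_cancel]
        have := hnth_ge t
        have := hnth_ge (t + 1)
        rw [← add_assoc] at this
        omega
      have hS2 : S (κ0 + t' + 1) ≤ 2 * (Q * n' + b + M) := by
        unfold S
        rw [Nat.add_sub_cancel]
        have := hnth_le t' (by omega)
        have := hnth_le (t' + 1) (by omega)
        rw [← add_assoc] at this
        omega
      have hv3 : j * (Q * n' + b) ≤ v := by
        have h6 : j * (2 * (Q * n' + b)) ≤ 2 * v := by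
          refine (Nat.mul_le_mul_left j hS1).trans ?_
          rw [e1]; exact hv1
        have h7 : j * (2 * (Q * n' + b)) = 2 * (j * (Q * n' + b)) := by ring
        omega
      have hv4 : v ≤ j * (Q * n' + b) + B := by
        have h6 : 2 * v ≤ j * (2 * (Q * n' + b + M)) := by
          refine hv2.trans ?_
          rw [← e2]
          exact Nat.mul_le_mul_left j hS2
        have h7 : j * (2 * (Q * n' + b + M)) = 2 * (j * (Q * n' + b) + j * M) := by ring
        have h8 : j * M ≤ B := Nat.mul_le_mul_right _ hjC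
        omega
      obtain ⟨e, he⟩ : ∃ e, v = j * (Q * n' + b) + e := ⟨v - j * (Q * n' + b), by omega⟩
      obtain ⟨h6, _⟩ := window D Q b C B h1 h5 n' (by omega) j e (by omega) hjC (by omega)
        (by rw [← he]; exact nth_prime _)
      omega
    rcases lt_or_gt_of_ne hne with h6 | h6
    · exact key t t' ht ht' h6 hff
    · exact key t' t ht' ht h6 hff.symm
  obtain ⟨t, ht, hgt⟩ := hgood
  refine ⟨κ0 + t + 1, by omega, ?_, ?_, hgt⟩
  · have h6 : Nat.nth Nat.Prime N < Nat.nth Nat.Prime κ0 := by
      rw [hκ0p]; omega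
    by_contra hc
    have h7 := nth_mono (show κ0 ≤ N by omega)
    omega
  · obtain ⟨y, hy⟩ := hnth_form t (by omega)
    obtain ⟨z, hz⟩ := hnth_form (t + 1) (by omega)
    refine ⟨(k + 1).factorial * (y + z), ?_⟩
    unfold S
    rw [Nat.add_sub_cancel, hy, add_assoc κ0 t 1, hz, hW]
    ring

end Pool.Agent.R508
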