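import Mathlib

/-! Sums over orderings of a finite set, by recursion. -/

namespace Pool.Agent.R508.Ord

open Finset

variable {α : Type*} [DecidableEq α]

/-- the sum of `f` over all words of length `n` with distinct letters in `U` -/
def E : ℕ → Finset α → (List α → ℝ) → ℝ
  | 0, _, f => f []
  | (n + 1), U, f => ∑ t ∈ U, E n (U.erase t) (fun w => f (t :: w))

theorem E_add (n : ℕ) : ∀ (U : Finset α) (f g : List α → ℝ),
    E n U (fun w => f w + g w) = E n U f + E n U g := by
  induction n with
  | zero => intro U f g; rfl
  | succ n ih =>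
    intro U f g
    simp only [E]
    rw [← Finset.sum_add_distrib]
    exact Finset.sum_congr rfl fun t _ => ih _ _ _

theorem E_mul (n : ℕ) : ∀ (U : Finset α) (a : ℝ) (f : List α → ℝ),
    E n U (fun w => a * f w) = a * E n U f := by
  induction n with
  | zero => intro U a f; rfl
  | succ n ih =>
    intro U a f
    simp only [E]
    rw [Finset.mul_sum]
    exact Finset.sum_congr rfl fun t _ => ih _ _ _

theorem E_mono (n : ℕ) : ∀ (U : Finset α) (f g : List α → ℝ),
    (∀ w : List α, w.Nodup → w.length = n → w.toFinset ⊆ U → f w ≤ g w) → E n U f ≤ E n U g := by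
  induction n with
  | zero =>
    intro U f g h
    exact h [] List.nodup_nil rfl (by simp)
  | succ n ih =>
    intro U f g h
    simp only [E]
    apply Finset.sum_le_sum
    intro t ht
    apply ih
    intro w hw1 hw2 hw3
    have htw : t ∉ w := by
      intro hcon
      have := hw3 (List.mem_toFinset.2 hcon)
      exact (Finset.notMem_erase t U) this
    apply h
    · exact List.nodup_cons.2 ⟨htw, hw1⟩
    · simp [hw2]
    · rw [List.toFinset_cons]
      exact Finset.insert_subset ht (hw3.trans (Finset.erase_subset _ _))

theorem E_congr (n : ℕ) (U : Finset α) (f g : List α → ℝ)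
    (h : ∀ w : List α, w.Nodup → w.length = n → w.toFinset ⊆ U → f w = g w) :
    E n U f = E n U g :=
  le_antisymm (E_mono n U f g fun w a b c => (h w a b c).le)
    (E_mono n U g f fun w a b c => (h w a b c).ge)

theorem E_const (n : ℕ) : ∀ (U : Finset α), U.card = n → ∀ a : ℝ,
    E n U (fun _ => a) = (n.factorial : ℝ) * a := by
  induction n with
  | zero => intro U _ a; simp [E]
  | succ n ih =>
    intro U hU a
    simp only [E]
    rw [Finset.sum_congr rfl fun t ht => ih (U.erase t) (by rw [Finset.card_erase_of_mem ht, hU]; rfl) a,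
      Finset.sum_const, hU, nsmul_eq_mul, Nat.factorial_succ]
    push_cast; ring

/-- functions of the set of letters that remain after `j` steps -/
theorem E_drop (j : ℕ) : ∀ (n : ℕ) (U : Finset α), j ≤ n → U.card = n → ∀ g : Finset α → ℝ,
    E n U (fun w => g ((w.drop j).toFinset)) =
      (j.factorial : ℝ) * ((n - j).factorial : ℝ) * ∑ T ∈ U.powersetCard (n - j), g T := by
  induction j with
  | zero =>
    intro n U _ hU g
    have h1 : E n U (fun w => g ((w.drop 0).toFinset)) = E n U (fun _ => g U) := by
      apply E_congr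
      intro w hw1 hw2 hw3
      rw [List.drop_zero]
      congr 1
      apply Finset.eq_of_subset_of_card_le hw3
      rw [List.toFinset_card_of_nodup hw1, hw2, hU]
    rw [h1, E_const n U hU, Nat.sub_zero, ← hU, Finset.powersetCard_self]
    simp
  | succ j ih =>
    intro n U hjn hU g
    obtain ⟨n, rfl⟩ : ∃ m, n = m + 1 := ⟨n - 1, by omega⟩
    simp only [E, List.drop_succ_cons]
    have hjn' : j ≤ n := by omega
    rw [Finset.sum_congr rfl fun t ht => ih n (U.erase t) hjn'
      (by rw [Finset.card_erase_of_mem ht, hU]; rfl) g]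
    rw [← Finset.mul_sum]
    have e : n + 1 - (j + 1) = n - j := by omega
    rw [e]
    have h2 : ∑ t ∈ U, ∑ T ∈ (U.erase t).powersetCard (n - j), g T =
        ((j : ℝ) + 1) * ∑ T ∈ U.powersetCard (n - j), g T := by
      have h3 : ∀ t ∈ U, (U.erase t).powersetCard (n - j) =
          (U.powersetCard (n - j)).filter (fun T => t ∉ T) := by
        intro t ht
        ext T
        simp only [Finset.mem_powersetCard, Finset.mem_filter, Finset.subset_erase]
        tauto
      rw [Finset.sum_congr rfl fun t ht => by rw [h3 t ht, Finset.sum_filter], Finset.sum_comm,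
        Finset.mul_sum]
      apply Finset.sum_congr rfl
      intro T hT
      rw [Finset.mem_powersetCard] at hT
      rw [← Finset.sum_filter, Finset.sum_const, nsmul_eq_mul]
      congr 1
      have h4 : U.filter (fun t => t ∉ T) = U \ T := by
        ext t; simp
      rw [h4, Finset.card_sdiff_of_subset hT.1, hU, hT.2]
      have : n + 1 - (n - j) = j + 1 := by omega
      rw [this]; push_cast; ring
    rw [h2, Nat.factorial_succ]
    push_cast; ring

/-- sums over injective functions -/
theorem sum_inj [Fintype α] (n : ℕ) : ∀ (U : Finset α) (f : List α → ℝ),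
    (open Classical in ∑ g : Fin n → α, if Function.Injective g ∧ ∀ i, g i ∈ U
      then f (List.ofFn g) else 0) = E n U f := by
  classical
  induction n with
  | zero =>
    intro U f
    simp [E, Function.injective_of_subsingleton]
  | succ n ih =>
    intro U f
    rw [← (Fin.consEquiv (fun _ : Fin (n + 1) => α)).sum_comp, Fintype.sum_prod_type]
    simp only [E]
    rw [← Finset.sum_filter_add_sum_filter_not Finset.univ (fun t => t ∈ U)]
    have h1 : ∀ t ∈ Finset.univ.filter (fun t => t ∈ U), (∑ y : Fin n → α,
        if Function.Injective ((Fin.consEquiv fun _ : Fin (n + 1) => α) (t, y)) ∧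
          ∀ i, ((Fin.consEquiv fun _ : Fin (n + 1) => α) (t, y)) i ∈ U
        then f (List.ofFn ((Fin.consEquiv fun _ : Fin (n + 1) => α) (t, y))) else 0) =
        E n (U.erase t) (fun w => f (t :: w)) := by
      intro t ht
      have htU : t ∈ U := by simpa using ht
      rw [← ih (U.erase t) (fun w => f (t :: w))]
      apply Finset.sum_congr rfl
      intro y _
      change (if Function.Injective (Fin.cons t y : Fin (n + 1) → α) ∧
          (∀ i, (Fin.cons t y : Fin (n + 1) → α) i ∈ U) then
            f (List.ofFn (Fin.cons t y : Fin (n + 1) → α)) else 0) = _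
      have e1 : (Function.Injective (Fin.cons t y : Fin (n + 1) → α) ∧
          ∀ i, (Fin.cons t y : Fin (n + 1) → α) i ∈ U) ↔
          (Function.Injective y ∧ ∀ i, y i ∈ U.erase t) := by
        rw [Fin.cons_injective_iff, Fin.forall_fin_succ]
        simp only [Fin.cons_zero, Fin.cons_succ, Finset.mem_erase, Set.mem_range, not_exists]
        constructor
        · rintro ⟨⟨h1, h2⟩, h3, h4⟩
          exact ⟨h2, fun i => ⟨h1 i, h4 i⟩⟩
        · rintro ⟨h1, h2⟩
          exact ⟨⟨fun i => (h2 i).1, h1⟩, htU, fun i => (h2 i).2⟩
      have e2 : List.ofFn (Fin.cons t y : Fin (n + 1) → α) = t :: List.ofFn y := by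
        rw [List.ofFn_succ]
        simp
      rw [e2]
      by_cases h : Function.Injective y ∧ ∀ i, y i ∈ U.erase t
      · rw [if_pos h, if_pos (e1.2 h)]
      · rw [if_neg h, if_neg (fun h' => h (e1.1 h'))]
    have h2 : ∀ t ∈ Finset.univ.filter (fun t => ¬ t ∈ U), (∑ y : Fin n → α,
        if Function.Injective ((Fin.consEquiv fun _ : Fin (n + 1) => α) (t, y)) ∧
          ∀ i, ((Fin.consEquiv fun _ : Fin (n + 1) => α) (t, y)) i ∈ U
        then f (List.ofFn ((Fin.consEquiv fun _ : Fin (n + 1) => α) (t, y))) else 0) = 0 := by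
      intro t ht
      have htU : t ∉ U := by simpa using ht
      apply Finset.sum_eq_zero
      intro y _
      rw [if_neg]
      rintro ⟨-, h⟩
      exact htU (by simpa using h 0)
    rw [Finset.sum_congr rfl h1, Finset.sum_congr rfl h2, Finset.sum_const_zero, add_zero]
    apply Finset.sum_congr _ (fun _ _ => rfl)
    ext t; simp

/-- sums over permutations -/
theorem sum_perm (k : ℕ) (f : List (Fin k) → ℝ) :
    ∑ σ : Equiv.Perm (Fin k), f (List.ofFn σ) = E k Finset.univ f := by
  classical
  rw [← sum_inj k Finset.univ f, ← Finset.sum_filter]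
  apply Finset.sum_bij (fun (σ : Equiv.Perm (Fin k)) _ => (σ : Fin k → Fin k))
  · intro σ _
    simp [σ.injective]
  · intro σ _ τ _ h
    exact Equiv.coe_fn_injective h
  · intro g hg
    rw [Finset.mem_filter] at hg
    exact ⟨Equiv.ofBijective g (Finite.injective_iff_bijective.1 hg.2.1), Finset.mem_univ _, rfl⟩
  · intro σ _
    rfl

end Pool.Agent.R508.Ord
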