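import Mathlib

set_option autoImplicit false

/-! Parabolic Anderson equation on `ℤ` with a bounded potential: comparison principle and lower
bounds (helper508, MP_e6ac48_pr; proof by helper985). -/

open Set Filter Topology

namespace Pool.Agent.R508.PAM

/-- `u` is the bounded solution of the Cauchy problem of the parabolic Anderson equation on `ℤ`
with diffusion constant `κ`, coupling constant `γ` and potential `V`. -/
structure IsSolution (κ γ : ℝ) (V : ℤ → ℝ → ℝ) (u : ℤ → ℝ → ℝ) : Prop where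
  init : ∀ x, u x 0 = if x = 0 then 1 else 0
  deriv : ∀ x t, 0 ≤ t → HasDerivWithinAt (u x)
    (κ * ((u (x + 1) t - u x t) + (u (x - 1) t - u x t)) + γ * V x t * u x t) (Ici 0) t
  bdd : ∀ T, ∃ C, ∀ x t, 0 ≤ t → t ≤ T → |u x t| ≤ C

/-- comparison principle -/
theorem comparison (κ C : ℝ) (hκ : 0 ≤ κ) (hC : 0 ≤ C) (t0 t1 : ℝ) (w w' a : ℤ → ℝ → ℝ)
    (B : Set ℤ) (S : ℝ) (hS : ∀ x, ∀ t ∈ Icc t0 t1, |w x t| ≤ S)
    (hcont : ∀ x, ContinuousOn (w x) (Icc t0 t1))
    (hout : ∀ x, x ∉ B → ∀ t ∈ Icc t0 t1, 0 ≤ w x t)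
    (hinit : ∀ x ∈ B, 0 ≤ w x t0)
    (ha : ∀ x ∈ B, ∀ t ∈ Ioo t0 t1, |a x t| ≤ C)
    (hder : ∀ x ∈ B, ∀ t ∈ Ioo t0 t1, HasDerivAt (w x) (w' x t) t)
    (hineq : ∀ x ∈ B, ∀ t ∈ Ioo t0 t1,
      κ * ((w (x + 1) t - w x t) + (w (x - 1) t - w x t)) + a x t * w x t ≤ w' x t) :
    ∀ x, ∀ t ∈ Icc t0 t1, 0 ≤ w x t := by
  rcases lt_or_ge t1 t0 with h01 | h01
  · intro x t ht
    exact absurd (ht.1.trans ht.2) (not_le.2 h01)
  have hS0 : 0 ≤ S := (abs_nonneg _).trans (hS 0 t0 ⟨le_rfl, h01⟩)
  set Λ := 2 * κ + C with hΛ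
  set K := 2 * κ + 2 * C with hK
  have hΛ0 : 0 ≤ Λ := by positivity
  have hK0 : 0 ≤ K := by positivity
  set S' := Real.exp (Λ * (t1 - t0)) * S with hS'
  have hS'0 : 0 ≤ S' := by positivity
  have key : ∀ n : ℕ, ∀ x, ∀ t ∈ Icc t0 t1,
      -(S' * ((K * (t - t0)) ^ n / n.factorial)) ≤ Real.exp (Λ * (t - t0)) * w x t := by
    intro n
    induction n with
    | zero =>
      intro x t ht
      simp only [pow_zero, Nat.factorial_zero, Nat.cast_one, div_one, mul_one]
      have h1 : Real.exp (Λ * (t - t0)) * |w x t| ≤ S' := by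
        rw [hS']
        refine mul_le_mul (Real.exp_le_exp.2 (mul_le_mul_of_nonneg_left ?_ hΛ0)) (hS x t ht)
          (abs_nonneg _) (Real.exp_pos _).le
        linarith [ht.2]
      have h2 : -(Real.exp (Λ * (t - t0)) * |w x t|) ≤ Real.exp (Λ * (t - t0)) * w x t := by
        rw [← mul_neg]
        exact mul_le_mul_of_nonneg_left (neg_abs_le _) (Real.exp_pos _).le
      linarith
    | succ n ih =>
      intro x t ht
      by_cases hxB : x ∈ B
      · set φ : ℝ → ℝ := fun t => Real.exp (Λ * (t - t0)) * w x t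
          + S' * ((K * (t - t0)) ^ (n + 1) / (n + 1).factorial) with hφ
        have hφc : ContinuousOn φ (Icc t0 t1) := by
          refine ContinuousOn.add (ContinuousOn.mul ?_ (hcont x)) ?_
          · fun_prop
          · fun_prop
        have hφd : ∀ s ∈ Ioo t0 t1, HasDerivAt φ (Real.exp (Λ * (s - t0)) * Λ * w x s
            + Real.exp (Λ * (s - t0)) * w' x s
            + S' * (K * ((K * (s - t0)) ^ n / n.factorial))) s := by
          intro s hs
          have h1 : HasDerivAt (fun s => Λ * (s - t0)) Λ s := by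
            simpa using ((hasDerivAt_id s).sub_const t0).const_mul Λ
          have h2 : HasDerivAt (fun s => Real.exp (Λ * (s - t0))) (Real.exp (Λ * (s - t0)) * Λ) s :=
            h1.exp
          have h3 : HasDerivAt (fun s => (K * (s - t0)) ^ (n + 1) / ((n + 1).factorial : ℝ))
              (K * ((K * (s - t0)) ^ n / n.factorial)) s := by
            have h4 : HasDerivAt (fun s => K * (s - t0)) K s := by
              simpa using ((hasDerivAt_id s).sub_const t0).const_mul K
            have h5 := (h4.fun_pow (n + 1)).div_const ((n + 1).factorial : ℝ)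
            refine h5.congr_deriv ?_
            rw [Nat.factorial_succ]
            have : (n.factorial : ℝ) ≠ 0 := by positivity
            push_cast
            field_simp
          exact (h2.mul (hder x hxB s hs)).add (h3.const_mul S')
        have hmono : MonotoneOn φ (Icc t0 t1) := by
          refine monotoneOn_of_deriv_nonneg (convex_Icc _ _) hφc ?_ ?_
          · rw [interior_Icc]
            intro s hs
            exact (hφd s hs).differentiableAt.differentiableWithinAt
          · rw [interior_Icc]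
            intro s hs
            rw [(hφd s hs).deriv]
            have hs' : s ∈ Icc t0 t1 := ⟨hs.1.le, hs.2.le⟩
            set E := S' * ((K * (s - t0)) ^ n / n.factorial) with hE
            have i1 := ih (x + 1) s hs'
            have i2 := ih (x - 1) s hs'
            have i3 := ih x s hs'
            have hE0 : 0 ≤ E := by
              have : 0 ≤ s - t0 := by linarith [hs.1]
              positivity
            have ha1 := abs_le.1 (ha x hxB s hs)
            have hin := hineq x hxB s hs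
            set e := Real.exp (Λ * (s - t0)) with he
            have he0 : 0 < e := Real.exp_pos _
            have h1 : e * (κ * ((w (x + 1) s - w x s) + (w (x - 1) s - w x s)) + a x s * w x s)
                ≤ e * w' x s := mul_le_mul_of_nonneg_left hin he0.le
            have h2 : -(κ * E) ≤ κ * (e * w (x + 1) s) := by nlinarith
            have h3 : -(κ * E) ≤ κ * (e * w (x - 1) s) := by nlinarith
            have h4 : -((a x s + C) * E) ≤ (a x s + C) * (e * w x s) := by
              have : 0 ≤ a x s + C := by linarith [ha1.1]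
              nlinarith
            have h5 : (a x s + C) * E ≤ (2 * C) * E := by
              apply mul_le_mul_of_nonneg_right _ hE0
              linarith [ha1.2]
            have e1 : e * Λ * w x s + e * w' x s + S' * (K * ((K * (s - t0)) ^ n / n.factorial))
                = e * Λ * w x s + e * w' x s + K * E := by rw [hE]; ring
            rw [e1, hΛ, hK]
            nlinarith
        have h6 := hmono ⟨le_rfl, h01⟩ ht ht.1
        have h7 : 0 ≤ φ t0 := by
          simp only [hφ, sub_self, mul_zero, Real.exp_zero, one_mul]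
          simpa using hinit x hxB
        have h8 : 0 ≤ φ t := h7.trans h6
        simp only [hφ] at h8
        linarith
      · have h1 := hout x hxB t ht
        have h2 : 0 ≤ S' * ((K * (t - t0)) ^ (n + 1) / (n + 1).factorial) := by
          have : 0 ≤ t - t0 := by linarith [ht.1]
          positivity
        have h3 : 0 ≤ Real.exp (Λ * (t - t0)) * w x t := by positivity
        linarith
  intro x t ht
  have hlim : Tendsto (fun n : ℕ => -(S' * ((K * (t - t0)) ^ n / n.factorial))) atTop (𝓝 0) := by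
    have := (FloorSemiring.tendsto_pow_div_factorial_atTop (K * (t - t0))).const_mul S'
    simpa using this.neg
  have h1 : 0 ≤ Real.exp (Λ * (t - t0)) * w x t := le_of_tendsto' hlim fun n => key n x t ht
  exact (mul_nonneg_iff_of_pos_left (Real.exp_pos _)).1 h1

section

variable {κ γ : ℝ} {V : ℤ → ℝ → ℝ} {u : ℤ → ℝ → ℝ}

theorem IsSolution.hasDerivAt (h : IsSolution κ γ V u) (x : ℤ) {t : ℝ} (ht : 0 < t) :
    HasDerivAt (u x)
      (κ * ((u (x + 1) t - u x t) + (u (x - 1) t - u x t)) + γ * V x t * u x t) t :=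
  (h.deriv x t ht.le).hasDerivAt (Ici_mem_nhds ht)

theorem IsSolution.continuousOn (h : IsSolution κ γ V u) (x : ℤ) :
    ContinuousOn (u x) (Ici 0) := fun t ht => (h.deriv x t ht).continuousWithinAt

theorem IsSolution.nonneg (h : IsSolution κ γ V u) (hκ : 0 ≤ κ) (hγ : 0 ≤ γ)
    (hV : ∀ x t, 0 ≤ t → V x t ∈ Icc (0 : ℝ) 1) (x : ℤ) (t : ℝ) (ht : 0 ≤ t) : 0 ≤ u x t := by
  obtain ⟨S, hS⟩ := h.bdd t
  refine comparison κ γ hκ hγ 0 t u
    (fun x t => κ * ((u (x + 1) t - u x t) + (u (x - 1) t - u x t)) + γ * V x t * u x t)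
    (fun x t => γ * V x t) univ S (fun x s hs => hS x s hs.1 hs.2)
    (fun x => (h.continuousOn x).mono Icc_subset_Ici_self) (fun x hx => absurd (mem_univ x) hx)
    ?_ ?_ (fun x _ s hs => h.hasDerivAt x hs.1) (fun x _ s hs => le_rfl) x t ⟨ht, le_rfl⟩
  · intro x _
    rw [h.init]
    split_ifs <;> norm_num
  · intro x _ s hs
    have := hV x s hs.1.le
    rw [abs_mul, abs_of_nonneg hγ, abs_of_nonneg this.1]
    exact mul_le_of_le_one_right hγ this.2

theorem IsSolution.le_exp (h : IsSolution κ γ V u) (hκ : 0 ≤ κ) (hγ : 0 ≤ γ)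
    (hV : ∀ x t, 0 ≤ t → V x t ∈ Icc (0 : ℝ) 1) (x : ℤ) (t : ℝ) (ht : 0 ≤ t) :
    u x t ≤ Real.exp (γ * t) := by
  obtain ⟨S, hS⟩ := h.bdd t
  have hd : ∀ s : ℝ, HasDerivAt (fun s => Real.exp (γ * s)) (Real.exp (γ * s) * γ) s := by
    intro s
    have : HasDerivAt (fun s => γ * s) γ s := by simpa using (hasDerivAt_id s).const_mul γ
    exact this.exp
  have := comparison κ γ hκ hγ 0 t (fun x s => Real.exp (γ * s) - u x s)
    (fun x s => Real.exp (γ * s) * γ
      - (κ * ((u (x + 1) s - u x s) + (u (x - 1) s - u x s)) + γ * V x s * u x s))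
    (fun x t => γ * V x t) univ (Real.exp (γ * t) + S) ?_
    (fun x => (by fun_prop : Continuous fun s => Real.exp (γ * s)).continuousOn.sub
      ((h.continuousOn x).mono Icc_subset_Ici_self)) (fun x hx => absurd (mem_univ x) hx)
    ?_ ?_ (fun x _ s hs => (hd s).sub (h.hasDerivAt x hs.1)) ?_ x t ⟨ht, le_rfl⟩
  · linarith
  · intro x s hs
    have h1 : Real.exp (γ * s) ≤ Real.exp (γ * t) :=
      Real.exp_le_exp.2 (mul_le_mul_of_nonneg_left hs.2 hγ)
    have h2 := hS x s hs.1 hs.2
    have h3 := Real.exp_pos (γ * s)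
    rw [abs_le] at h2 ⊢
    constructor <;> linarith [h2.1, h2.2]
  · intro x _
    simp only [mul_zero, Real.exp_zero]
    rw [h.init]
    split_ifs <;> norm_num
  · intro x _ s hs
    have := hV x s hs.1.le
    rw [abs_mul, abs_of_nonneg hγ, abs_of_nonneg this.1]
    exact mul_le_of_le_one_right hγ this.2
  · intro x _ s hs
    have h1 := hV x s hs.1.le
    have h2 : 0 ≤ γ * (1 - V x s) * Real.exp (γ * s) := by
      have : 0 ≤ 1 - V x s := by linarith [h1.2]
      positivity
    nlinarith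

theorem IsSolution.unique (h : IsSolution κ γ V u) {v : ℤ → ℝ → ℝ} (h' : IsSolution κ γ V v)
    (hκ : 0 ≤ κ) (hγ : 0 ≤ γ)
    (hV : ∀ x t, 0 ≤ t → V x t ∈ Icc (0 : ℝ) 1) (x : ℤ) (t : ℝ) (ht : 0 ≤ t) :
    u x t = v x t := by
  have key : ∀ u v : ℤ → ℝ → ℝ, IsSolution κ γ V u → IsSolution κ γ V v → v x t ≤ u x t := by
    intro u v h h'
    obtain ⟨S, hS⟩ := h.bdd t
    obtain ⟨S', hS'⟩ := h'.bdd t
    have := comparison κ γ hκ hγ 0 t (fun x s => u x s - v x s)
      (fun x s => (κ * ((u (x + 1) s - u x s) + (u (x - 1) s - u x s)) + γ * V x s * u x s)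
        - (κ * ((v (x + 1) s - v x s) + (v (x - 1) s - v x s)) + γ * V x s * v x s))
      (fun x t => γ * V x t) univ (S + S') ?_
      (fun x => ((h.continuousOn x).mono Icc_subset_Ici_self).sub
        ((h'.continuousOn x).mono Icc_subset_Ici_self)) (fun x hx => absurd (mem_univ x) hx)
      ?_ ?_ (fun x _ s hs => (h.hasDerivAt x hs.1).sub (h'.hasDerivAt x hs.1)) ?_ x t ⟨ht, le_rfl⟩
    · linarith
    · intro x s hs
      have h1 := hS x s hs.1 hs.2
      have h2 := hS' x s hs.1 hs.2
      rw [abs_le] at h1 h2 ⊢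
      constructor <;> linarith [h1.1, h1.2, h2.1, h2.2]
    · intro x _
      rw [h.init, h'.init, sub_self]
    · intro x _ s hs
      have := hV x s hs.1.le
      rw [abs_mul, abs_of_nonneg hγ, abs_of_nonneg this.1]
      exact mul_le_of_le_one_right hγ this.2
    · intro x _ s hs
      apply le_of_eq
      ring
  exact le_antisymm (key v u h' h) (key u v h h')

theorem pow_deriv (K t0 : ℝ) (n : ℕ) (s : ℝ) :
    HasDerivAt (fun s => (K * (s - t0)) ^ (n + 1) / ((n + 1).factorial : ℝ))
      (K * ((K * (s - t0)) ^ n / n.factorial)) s := by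
  have h4 : HasDerivAt (fun s => K * (s - t0)) K s := by
    simpa using ((hasDerivAt_id s).sub_const t0).const_mul K
  have h5 := (h4.fun_pow (n + 1)).div_const ((n + 1).factorial : ℝ)
  refine h5.congr_deriv ?_
  rw [Nat.factorial_succ]
  have : (n.factorial : ℝ) ≠ 0 := by positivity
  push_cast
  field_simp

theorem IsSolution.exp_deriv (h : IsSolution κ γ V u) (t0 : ℝ) (ht0 : 0 ≤ t0) (x : ℤ) (s : ℝ)
    (hs : t0 < s) : HasDerivAt (fun s => Real.exp (2 * κ * (s - t0)) * u x s)
      (Real.exp (2 * κ * (s - t0)) * (κ * u (x + 1) s + κ * u (x - 1) s + γ * V x s * u x s)) s := by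
  have h1 : HasDerivAt (fun s => 2 * κ * (s - t0)) (2 * κ) s := by
    simpa using ((hasDerivAt_id s).sub_const t0).const_mul (2 * κ)
  refine (h1.exp.mul (h.hasDerivAt x (ht0.trans_lt hs))).congr_deriv ?_
  ring

/-- spreading -/
theorem IsSolution.spread (h : IsSolution κ γ V u) (hκ : 0 ≤ κ) (hγ : 0 ≤ γ)
    (hV : ∀ x t, 0 ≤ t → V x t ∈ Icc (0 : ℝ) 1) (y : ℤ) (t0 a : ℝ) (ht0 : 0 ≤ t0) (ha : 0 ≤ a)
    (hy : a ≤ u y t0) (n : ℕ) : ∀ (x : ℤ) (s : ℝ), (x - y).natAbs = n → t0 ≤ s →
      a * ((κ * (s - t0)) ^ n / n.factorial) ≤ Real.exp (2 * κ * (s - t0)) * u x s := by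
  have hcont : ∀ x s, ContinuousOn (fun s => Real.exp (2 * κ * (s - t0)) * u x s) (Icc t0 s) := by
    intro x s
    refine ContinuousOn.mul (by fun_prop) ((h.continuousOn x).mono ?_)
    exact Icc_subset_Ici_self.trans (Ici_subset_Ici.2 ht0)
  have hnn := h.nonneg hκ hγ hV
  induction n with
  | zero =>
    intro x s hx hs
    have hxy : x = y := by omega
    subst hxy
    simp only [pow_zero, Nat.factorial_zero, Nat.cast_one, div_one, mul_one]
    have hmono : MonotoneOn (fun s => Real.exp (2 * κ * (s - t0)) * u x s) (Icc t0 s) := by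
      refine monotoneOn_of_deriv_nonneg (convex_Icc _ _) (hcont x s) ?_ ?_
      · rw [interior_Icc]
        intro r hr
        exact (h.exp_deriv t0 ht0 x r hr.1).differentiableAt.differentiableWithinAt
      · rw [interior_Icc]
        intro r hr
        rw [(h.exp_deriv t0 ht0 x r hr.1).deriv]
        have hr0 : 0 ≤ r := ht0.trans hr.1.le
        have := hnn (x + 1) r hr0
        have := hnn (x - 1) r hr0
        have := hnn x r hr0
        have := (hV x r hr0).1
        positivity
    have := hmono ⟨le_rfl, hs⟩ ⟨hs, le_rfl⟩ hs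
    simp only [sub_self, mul_zero, Real.exp_zero, one_mul] at this
    linarith
  | succ n ih =>
    intro x s hx hs
    obtain ⟨x', hx', hxx⟩ : ∃ x', (x' - y).natAbs = n ∧ (x' = x + 1 ∨ x' = x - 1) := by
      rcases lt_or_ge y x with hlt | hge
      · exact ⟨x - 1, by omega, Or.inr rfl⟩
      · exact ⟨x + 1, by omega, Or.inl rfl⟩
    have hmono : MonotoneOn (fun s => Real.exp (2 * κ * (s - t0)) * u x s
        - a * ((κ * (s - t0)) ^ (n + 1) / ((n + 1).factorial : ℝ))) (Icc t0 s) := by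
      have hd : ∀ r ∈ Ioo t0 s, HasDerivAt (fun s => Real.exp (2 * κ * (s - t0)) * u x s
        - a * ((κ * (s - t0)) ^ (n + 1) / ((n + 1).factorial : ℝ)))
        (Real.exp (2 * κ * (r - t0)) * (κ * u (x + 1) r + κ * u (x - 1) r + γ * V x r * u x r)
          - a * (κ * ((κ * (r - t0)) ^ n / n.factorial))) r := fun r hr =>
        (h.exp_deriv t0 ht0 x r hr.1).sub ((pow_deriv κ t0 n r).const_mul a)
      refine monotoneOn_of_deriv_nonneg (convex_Icc _ _) ?_ ?_ ?_
      · exact (hcont x s).sub (by fun_prop)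
      · rw [interior_Icc]
        intro r hr
        exact (hd r hr).differentiableAt.differentiableWithinAt
      · rw [interior_Icc]
        intro r hr
        rw [(hd r hr).deriv]
        have hr0 : 0 ≤ r := ht0.trans hr.1.le
        have i1 := hnn (x + 1) r hr0
        have i2 := hnn (x - 1) r hr0
        have i3 := hnn x r hr0
        have i4 := (hV x r hr0).1
        have i5 := ih x' r hx' hr.1.le
        have i6 := Real.exp_pos (2 * κ * (r - t0))
        have i7 : 0 ≤ Real.exp (2 * κ * (r - t0)) * (γ * V x r * u x r) := by positivity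
        have i8 : 0 ≤ Real.exp (2 * κ * (r - t0)) * (κ * u (x + 1) r) := by positivity
        have i9 : 0 ≤ Real.exp (2 * κ * (r - t0)) * (κ * u (x - 1) r) := by positivity
        have i10 := mul_le_mul_of_nonneg_left i5 hκ
        rcases hxx with rfl | rfl <;> nlinarith
    have := hmono ⟨le_rfl, hs⟩ ⟨hs, le_rfl⟩ hs
    simp only [sub_self, mul_zero, Real.exp_zero, one_mul] at this
    have h2 := hnn x t0 ht0
    simp only [ne_eq, Nat.add_eq_zero_iff, one_ne_zero, and_false, not_false_eq_true, zero_pow,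
      zero_div, mul_zero, sub_zero] at this
    linarith

/-- growth in a block where the potential is one -/
theorem IsSolution.block (h : IsSolution κ γ V u) (hκ : 0 ≤ κ) (hγ : 0 ≤ γ)
    (hV : ∀ x t, 0 ≤ t → V x t ∈ Icc (0 : ℝ) 1) (c : ℤ) (r : ℕ) (t0 t1 a : ℝ) (ht0 : 0 ≤ t0)
    (ha : 0 ≤ a) (hone : ∀ x : ℤ, |x - c| ≤ r → ∀ t ∈ Icc t0 t1, V x t = 1)
    (hinit : ∀ x : ℤ, |x - c| ≤ r → a * (((r : ℝ) + 1) ^ 2 - ((x : ℝ) - c) ^ 2) ≤ u x t0)
    (t : ℝ) (ht : t ∈ Icc t0 t1) :
    a * Real.exp ((γ - 2 * κ / (2 * r + 1)) * (t - t0)) * ((r : ℝ) + 1) ^ 2 ≤ u c t := by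
  set β := γ - 2 * κ / (2 * r + 1) with hβ
  have hnn := h.nonneg hκ hγ hV
  set φ : ℤ → ℝ := fun x => max (((r : ℝ) + 1) ^ 2 - ((x : ℝ) - c) ^ 2) 0 with hφ
  have hφ0 : ∀ x, 0 ≤ φ x := fun x => le_max_right _ _
  have hφle : ∀ x : ℤ, ((r : ℝ) + 1) ^ 2 - ((x : ℝ) - c) ^ 2 ≤ φ x := fun x => le_max_left _ _
  have habs : ∀ x : ℤ, |x - c| ≤ r → |(x : ℝ) - c| ≤ r := by
    intro x hx
    exact_mod_cast hx
  have hφin : ∀ x : ℤ, |x - c| ≤ r → φ x = ((r : ℝ) + 1) ^ 2 - ((x : ℝ) - c) ^ 2 ∧
      2 * (r : ℝ) + 1 ≤ φ x := by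
    intro x hx
    have h1 := habs x hx
    have h2 : ((x : ℝ) - c) ^ 2 ≤ (r : ℝ) ^ 2 := by
      rw [← sq_abs]
      exact pow_le_pow_left₀ (abs_nonneg _) h1 2
    have h3 : 2 * (r : ℝ) + 1 ≤ ((r : ℝ) + 1) ^ 2 - ((x : ℝ) - c) ^ 2 := by nlinarith
    have h4 : φ x = ((r : ℝ) + 1) ^ 2 - ((x : ℝ) - c) ^ 2 := by
      simp only [hφ]
      rw [max_eq_left]
      have : (0 : ℝ) ≤ 2 * (r : ℝ) + 1 := by positivity
      linarith
    rw [h4]
    exact ⟨rfl, h3⟩
  have hφout : ∀ x : ℤ, ¬ |x - c| ≤ r → φ x = 0 := by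
    intro x hx
    have h1 : (r : ℤ) + 1 ≤ |x - c| := by omega
    have h2 : (r : ℝ) + 1 ≤ |(x : ℝ) - c| := by exact_mod_cast h1
    have h3 : ((r : ℝ) + 1) ^ 2 ≤ ((x : ℝ) - c) ^ 2 := by
      rw [← sq_abs ((x : ℝ) - c)]
      exact pow_le_pow_left₀ (by positivity) h2 2
    simp only [hφ]
    rw [max_eq_right]
    linarith
  have hφmax : ∀ x, φ x ≤ ((r : ℝ) + 1) ^ 2 := by
    intro x
    simp only [hφ]
    refine max_le ?_ (by positivity)
    nlinarith [sq_nonneg ((x : ℝ) - c)]
  obtain ⟨S, hS⟩ := h.bdd t1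
  have hde : ∀ s, HasDerivAt (fun s => Real.exp (β * (s - t0))) (Real.exp (β * (s - t0)) * β) s := by
    intro s
    have : HasDerivAt (fun s => β * (s - t0)) β s := by
      simpa using ((hasDerivAt_id s).sub_const t0).const_mul β
    exact this.exp
  have hdw : ∀ (x : ℤ) (s : ℝ), HasDerivAt (fun s => a * Real.exp (β * (s - t0)) * φ x)
      (a * (Real.exp (β * (s - t0)) * β) * φ x) s := fun x s => ((hde s).const_mul a).mul_const _
  obtain ⟨E, hE⟩ : ∃ E, ∀ s ∈ Icc t0 t1, Real.exp (β * (s - t0)) ≤ E := by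
    refine ⟨Real.exp (|β| * (t1 - t0)), fun s hs => Real.exp_le_exp.2 ?_⟩
    have h1 : β * (s - t0) ≤ |β| * (s - t0) :=
      mul_le_mul_of_nonneg_right (le_abs_self _) (by linarith [hs.1])
    have h2 : |β| * (s - t0) ≤ |β| * (t1 - t0) :=
      mul_le_mul_of_nonneg_left (by linarith [hs.2]) (abs_nonneg _)
    linarith
  have main := comparison κ γ hκ hγ t0 t1
    (fun x s => u x s - a * Real.exp (β * (s - t0)) * φ x)
    (fun x s => (κ * ((u (x + 1) s - u x s) + (u (x - 1) s - u x s)) + γ * V x s * u x s)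
      - a * (Real.exp (β * (s - t0)) * β) * φ x)
    (fun x s => γ * V x s) {x | |x - c| ≤ r} (S + a * E * ((r : ℝ) + 1) ^ 2) ?_ ?_ ?_ ?_ ?_ ?_ ?_
    c t ht
  · have h1 : φ c = ((r : ℝ) + 1) ^ 2 := by
      have := (hφin c (by simp)).1
      rw [this]
      simp
    simp only [h1] at main
    linarith
  · intro x s hs
    have h1 := hS x s (ht0.trans hs.1) hs.2
    have h2 : 0 ≤ a * Real.exp (β * (s - t0)) * φ x := by
      have := hφ0 x
      positivity
    have h3 : a * Real.exp (β * (s - t0)) * φ x ≤ a * E * ((r : ℝ) + 1) ^ 2 := by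
      refine mul_le_mul (mul_le_mul_of_nonneg_left (hE s hs) ha) (hφmax x) (hφ0 x) ?_
      exact mul_nonneg ha ((Real.exp_pos _).le.trans (hE s hs))
    rw [abs_le] at h1 ⊢
    constructor <;> linarith [h1.1, h1.2]
  · intro x
    refine ContinuousOn.sub ((h.continuousOn x).mono ?_) (by fun_prop)
    exact Icc_subset_Ici_self.trans (Ici_subset_Ici.2 ht0)
  · intro x hx s hs
    have h1 := hφout x hx
    simp only [h1, mul_zero, sub_zero]
    exact hnn x s (ht0.trans hs.1)
  · intro x hx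
    have h1 := hinit x hx
    simp only [sub_self, mul_zero, Real.exp_zero, mul_one]
    rw [(hφin x hx).1]
    linarith
  · intro x _ s hs
    have := hV x s (ht0.trans hs.1.le)
    rw [abs_mul, abs_of_nonneg hγ, abs_of_nonneg this.1]
    exact mul_le_of_le_one_right hγ this.2
  · intro x _ s hs
    exact (h.hasDerivAt x (ht0.trans_lt hs.1)).sub (hdw x s)
  · intro x hx s hs
    have h1 : V x s = 1 := hone x hx s ⟨hs.1.le, hs.2.le⟩
    simp only [h1, mul_one]
    obtain ⟨h2, h3⟩ := hφin x hx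
    have h4 := hφle (x + 1)
    have h5 := hφle (x - 1)
    have h6 : -2 ≤ (φ (x + 1) - φ x) + (φ (x - 1) - φ x) := by
      rw [h2]
      push_cast at h4 h5
      nlinarith
    have h7 : 2 * κ ≤ (γ - β) * φ x := by
      have h8 : γ - β = 2 * κ / (2 * r + 1) := by rw [hβ]; ring
      rw [h8, div_mul_eq_mul_div, le_div_iff₀ (by positivity)]
      exact mul_le_mul_of_nonneg_left h3 (by positivity)
    have h9 : 0 ≤ κ * ((φ (x + 1) - φ x) + (φ (x - 1) - φ x)) + (γ - β) * φ x := by
      nlinarith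
    have h10 : 0 ≤ a * Real.exp (β * (s - t0)) := by positivity
    have h11 := mul_nonneg h10 h9
    nlinarith

end

end Pool.Agent.R508.PAM
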