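import Mathlib
import Pool.Agent.R508.PAMode

set_option autoImplicit false

/-! Growth of the solution of the parabolic Anderson equation when blocks with potential one are
always available (helper508, MP_e6ac48_pr; proof by helper985). -/

open Set Filter Topology

namespace Pool.Agent.R508.PAM

/-- at every time there is a block of radius `k` not far away, where the potential is one for the
following `T` time units -/
def BlockProp (V : ℤ → ℝ → ℝ) (k : ℕ) (T : ℝ) (D : ℕ) : Prop :=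
  ∀ t : ℝ, 0 ≤ t → ∃ c : ℤ, |c| ≤ D ∧ ∀ y : ℤ, |y - c| ≤ k → ∀ s ∈ Icc t (t + T), V y s = 1

theorem q_bound (κ : ℝ) (hκ : 0 < κ) (N n : ℕ) (hn : n ≤ N) (hN : 1 ≤ N) :
    (min κ 1 / N) ^ N ≤ κ ^ n / n.factorial := by
  have hm0 : 0 < min κ 1 := lt_min hκ one_pos
  have hN' : (1 : ℝ) ≤ N := by exact_mod_cast hN
  have h1 : min κ 1 / N ≤ 1 := by
    rw [div_le_one (by positivity)]
    exact (min_le_right _ _).trans hN'
  have h2 : (min κ 1 / N) ^ N ≤ (min κ 1 / N) ^ n := pow_le_pow_of_le_one (by positivity) h1 hn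
  refine h2.trans ?_
  rw [div_pow]
  refine div_le_div₀ (by positivity) (pow_le_pow_left₀ hm0.le (min_le_left _ _) _) (by positivity) ?_
  have h3 : n.factorial ≤ n ^ n := Nat.factorial_le_pow n
  have h4 : n ^ n ≤ N ^ n := Nat.pow_le_pow_left hn n
  exact_mod_cast h3.trans h4

variable {κ γ : ℝ} {V : ℤ → ℝ → ℝ} {u : ℤ → ℝ → ℝ}

/-- the constant -/
noncomputable def qc (κ : ℝ) (N : ℕ) : ℝ := Real.exp (-(2 * κ)) * (min κ 1 / N) ^ N

theorem qc_pos (hκ : 0 < κ) {N : ℕ} (hN : 1 ≤ N) : 0 < qc κ N := by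
  have hm0 : 0 < min κ 1 := lt_min hκ one_pos
  have hN' : (0 : ℝ) < N := by exact_mod_cast hN
  unfold qc
  positivity

theorem IsSolution.step (h : IsSolution κ γ V u) (hκ : 0 < κ) (hγ : 0 ≤ γ)
    (hV : ∀ x t, 0 ≤ t → V x t ∈ Icc (0 : ℝ) 1) (y : ℤ) (t0 a : ℝ) (ht0 : 0 ≤ t0) (ha : 0 ≤ a)
    (hy : a ≤ u y t0) (N : ℕ) (hN : 1 ≤ N) (x : ℤ) (hx : |x - y| ≤ N) :
    a * qc κ N ≤ u x (t0 + 1) := by
  have h1 := h.spread hκ.le hγ hV y t0 a ht0 ha hy (x - y).natAbs x (t0 + 1) rfl (by linarith)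
  have h2 := q_bound κ hκ N (x - y).natAbs (by rw [Int.abs_eq_natAbs] at hx; omega) hN
  simp only [add_sub_cancel_left, mul_one] at h1
  have h3 : a * (min κ 1 / N) ^ N ≤ Real.exp (2 * κ) * u x (t0 + 1) :=
    (mul_le_mul_of_nonneg_left h2 ha).trans h1
  calc a * qc κ N = Real.exp (-(2 * κ)) * (a * (min κ 1 / N) ^ N) := by unfold qc; ring
    _ ≤ Real.exp (-(2 * κ)) * (Real.exp (2 * κ) * u x (t0 + 1)) :=
        mul_le_mul_of_nonneg_left h3 (Real.exp_pos _).le
    _ = u x (t0 + 1) := by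
        rw [← mul_assoc, ← Real.exp_add, neg_add_cancel, Real.exp_zero, one_mul]

theorem IsSolution.grow (h : IsSolution κ γ V u) (hκ : 0 < κ) (hγ : 0 ≤ γ)
    (hV : ∀ x t, 0 ≤ t → V x t ∈ Icc (0 : ℝ) 1) (k D : ℕ) (T : ℝ) (hT : 1 ≤ T)
    (hB : BlockProp V k T D) :
    ∃ C : ℝ, ∀ t : ℝ, 1 ≤ t → 0 < u 0 t ∧
      t * ((Real.log (qc κ (2 * D + k + 1)) + (γ - 2 * κ / (2 * k + 1)) * (T - 1)) / T) - C
        ≤ Real.log (u 0 t) := by
  set N := 2 * D + k + 1 with hN
  have hN1 : 1 ≤ N := by omega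
  set β := γ - 2 * κ / (2 * k + 1) with hβ
  set q := qc κ N with hq
  have hq0 : 0 < q := qc_pos hκ hN1
  set g := q * Real.exp (β * (T - 1)) with hg
  have hg0 : 0 < g := by positivity
  have hT0 : 0 < T := by linarith
  have key : ∀ j : ℕ, ∀ x : ℤ, |x| ≤ D + k → q * g ^ j ≤ u x (j * T + 1) := by
    intro j
    induction j with
    | zero =>
      intro x hx
      have h1 := h.step hκ hγ hV 0 0 1 le_rfl zero_le_one (by rw [h.init]; simp) N hN1 x (by
        rw [sub_zero]; omega)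
      simpa using h1
    | succ j ih =>
      intro x hx
      have hjT : 0 ≤ (j : ℝ) * T := by positivity
      obtain ⟨c, hc, hone⟩ := hB (j * T) hjT
      have hk2 : (0 : ℝ) < ((k : ℝ) + 1) ^ 2 := by positivity
      have h1 := h.block hκ.le hγ hV c k (j * T + 1) ((j + 1) * T) (q * g ^ j / ((k : ℝ) + 1) ^ 2)
        (by positivity) (by positivity) (fun y hy s hs => hone y hy s ⟨by linarith [hs.1], by
          linarith [hs.2]⟩) (by
          intro y hy
          have h2 := ih y (by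
            have := abs_sub_abs_le_abs_sub y c
            omega)
          refine le_trans ?_ h2
          rw [div_mul_eq_mul_div, div_le_iff₀ hk2]
          refine mul_le_mul_of_nonneg_left ?_ (by positivity)
          nlinarith [sq_nonneg ((y : ℝ) - c)])
        ((j + 1) * T) ⟨by nlinarith, le_rfl⟩
      rw [← hβ] at h1
      have h2 : q * g ^ j * Real.exp (β * (T - 1)) ≤ u c ((j + 1) * T) := by
        refine le_trans (le_of_eq ?_) h1
        have e : ((j : ℝ) + 1) * T - (j * T + 1) = T - 1 := by ring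
        rw [e]
        field_simp
      have h3 := h.step hκ hγ hV c ((j + 1) * T) _ (by positivity) (by positivity) h2 N hN1 x (by
        have := abs_sub_abs_le_abs_sub x c
        have h4 := abs_sub x c
        omega)
      push_cast
      refine le_trans (le_of_eq ?_) h3
      rw [pow_succ, hg, hq]
      ring
  set ℓ := Real.log q + β * (T - 1) with hℓ
  have hlg : Real.log g = ℓ := by
    rw [hg, Real.log_mul hq0.ne' (Real.exp_pos _).ne', Real.log_exp]
  refine ⟨|ℓ| * (1 / T + 1) + 2 * κ * T - Real.log q, ?_⟩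
  intro t ht
  set j := ⌊(t - 1) / T⌋₊ with hj
  have hj1 : (j : ℝ) ≤ (t - 1) / T := Nat.floor_le (by apply div_nonneg <;> linarith)
  have hj2 : (t - 1) / T < j + 1 := Nat.lt_floor_add_one _
  rw [le_div_iff₀ hT0] at hj1
  rw [div_lt_iff₀ hT0] at hj2
  have h1 := key j 0 (by simp; positivity)
  have h2 := h.spread hκ.le hγ hV 0 (j * T + 1) (q * g ^ j) (by positivity) (by positivity) h1 0 0 t
    (by simp) (by linarith)
  simp only [pow_zero, Nat.factorial_zero, Nat.cast_one, div_one, mul_one] at h2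
  have h3 : 0 < q * g ^ j := by positivity
  have h4 : 0 < u 0 t := by
    by_contra hcon
    push Not at hcon
    have := mul_nonpos_of_nonneg_of_nonpos (Real.exp_pos (2 * κ * (t - (j * T + 1)))).le hcon
    linarith
  refine ⟨h4, ?_⟩
  have h5 := Real.log_le_log h3 h2
  rw [Real.log_mul hq0.ne' (by positivity), Real.log_pow, hlg,
    Real.log_mul (Real.exp_pos _).ne' h4.ne', Real.log_exp] at h5
  have h6 : 2 * κ * (t - (j * T + 1)) ≤ 2 * κ * T := by
    apply mul_le_mul_of_nonneg_left _ (by positivity)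
    linarith
  have h7 : t * (ℓ / T) - |ℓ| * (1 / T + 1) ≤ j * ℓ := by
    have h8 : t / T - (1 / T + 1) ≤ j := by
      have : (t - 1) / T < j + 1 := by rwa [div_lt_iff₀ hT0]
      have e : (t - 1) / T = t / T - 1 / T := by ring
      linarith
    have h9 : (j : ℝ) ≤ t / T := by
      rw [le_div_iff₀ hT0]
      linarith
    have h10 : |t / T - j| ≤ 1 / T + 1 := by
      rw [abs_le]
      constructor
      · have : 0 < 1 / T := by positivity
        linarith
      · linarith
    have h11 : (t / T - j) * ℓ ≤ |ℓ| * (1 / T + 1) := by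
      calc (t / T - j) * ℓ ≤ |(t / T - j) * ℓ| := le_abs_self _
        _ = |ℓ| * |t / T - j| := by rw [abs_mul, mul_comm]
        _ ≤ _ := mul_le_mul_of_nonneg_left h10 (abs_nonneg _)
    have e : t * (ℓ / T) = t / T * ℓ := by ring
    rw [e]
    linarith
  linarith

theorem arith1 (M κ γ lm lq β T C1 : ℝ) (hM : 1 ≤ M) (hκ : 0 ≤ κ) (hγ : 0 ≤ γ) (hlm : 0 ≤ lm)
    (hC1 : C1 = 4 * κ + 25 + 5 * lm + γ) (hMT : M ^ 3 ≤ T) (hβ : β ≤ γ)
    (hlq : -(2 * κ + 25 * M ^ 2 + 5 * M * lm) ≤ lq) : -(C1 / M) ≤ (lq - β) / T := by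
  have hC10 : 0 ≤ C1 := by rw [hC1]; positivity
  have hM0 : 0 < M := by linarith
  have hM3 : (1 : ℝ) ≤ M ^ 3 := one_le_pow₀ hM
  have hT0 : 0 < T := by linarith
  have h3 : M ≤ M ^ 3 := by
    calc M = M * 1 := by ring
      _ ≤ M * M ^ 2 := mul_le_mul_of_nonneg_left (one_le_pow₀ hM) hM0.le
      _ = M ^ 3 := by ring
  have h4 : M ^ 2 ≤ M ^ 3 := by
    calc M ^ 2 = M ^ 2 * 1 := by ring
      _ ≤ M ^ 2 * M := mul_le_mul_of_nonneg_left hM (by positivity)
      _ = M ^ 3 := by ring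
  have i1 : M * (2 * κ) ≤ (4 * κ) * M ^ 3 := by
    calc M * (2 * κ) = (2 * κ) * M := by ring
      _ ≤ (4 * κ) * M ^ 3 := mul_le_mul (by linarith) h3 hM0.le (by positivity)
  have i2 : M * (5 * M * lm) ≤ 5 * lm * M ^ 3 := by
    calc M * (5 * M * lm) = 5 * lm * M ^ 2 := by ring
      _ ≤ 5 * lm * M ^ 3 := mul_le_mul_of_nonneg_left h4 (by positivity)
  have i3 : M * γ ≤ γ * M ^ 3 := by
    calc M * γ = γ * M := by ring
      _ ≤ γ * M ^ 3 := mul_le_mul_of_nonneg_left h3 hγ
  have i4 : M * (25 * M ^ 2) = 25 * M ^ 3 := by ring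
  have h6 : M * (2 * κ + 25 * M ^ 2 + 5 * M * lm + γ) ≤ C1 * M ^ 3 := by
    have e : M * (2 * κ + 25 * M ^ 2 + 5 * M * lm + γ)
      = M * (2 * κ) + M * (25 * M ^ 2) + M * (5 * M * lm) + M * γ := by ring
    have e2 : C1 * M ^ 3 = (4 * κ) * M ^ 3 + 25 * M ^ 3 + 5 * lm * M ^ 3 + γ * M ^ 3 := by
      rw [hC1]; ring
    rw [e, e2, i4]
    linarith
  have h2 : C1 * M ^ 3 ≤ C1 * T := mul_le_mul_of_nonneg_left hMT hC10
  have h5 : -(2 * κ + 25 * M ^ 2 + 5 * M * lm + γ) ≤ lq - β := by linarith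
  have h7 := mul_le_mul_of_nonneg_left h5 hM0.le
  rw [neg_le_iff_add_nonneg, div_add_div _ _ (by positivity) (by positivity)]
  apply div_nonneg _ (by positivity)
  linarith

/-- the Lyapunov exponent is `γ` -/
theorem IsSolution.limit (h : IsSolution κ γ V u) (hκ : 0 < κ) (hγ : 0 ≤ γ)
    (hV : ∀ x t, 0 ≤ t → V x t ∈ Icc (0 : ℝ) 1)
    (hB : ∀ k : ℕ, 1 ≤ k → ∃ (M : ℕ) (T : ℝ), k + 1 ≤ M ∧ (M : ℝ) ^ 3 ≤ T ∧
      BlockProp V k T (2 * M)) :
    Tendsto (fun t => Real.log (u 0 t) / t) atTop (𝓝 γ) := by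
  set m := min κ 1 with hm
  have hm0 : 0 < m := lt_min hκ one_pos
  set C1 := 4 * κ + 25 + 5 * |Real.log m| + γ with hC1
  have hC10 : 0 ≤ C1 := by positivity
  refine tendsto_order.2 ⟨?_, ?_⟩
  · intro b hb
    obtain ⟨k, hk⟩ := exists_nat_gt ((C1 + κ) / ((γ - b) / 2))
    have hgb : 0 < (γ - b) / 2 := by linarith
    have hk1 : 1 ≤ k := by
      by_contra hk0
      have : k = 0 := by omega
      rw [this] at hk
      have : 0 ≤ (C1 + κ) / ((γ - b) / 2) := by positivity
      simp only [Nat.cast_zero] at hk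
      linarith
    obtain ⟨M, T, hkM, hMT, hBl⟩ := hB k hk1
    have hM1 : (1 : ℝ) ≤ M := by
      have : 1 ≤ M := by omega
      exact_mod_cast this
    have hkM' : (k : ℝ) ≤ M := by
      have : k ≤ M := by omega
      exact_mod_cast this
    have hk1' : (1 : ℝ) ≤ k := by exact_mod_cast hk1
    have hM3 : (1 : ℝ) ≤ (M : ℝ) ^ 3 := one_le_pow₀ hM1
    have hT1 : 1 ≤ T := hM3.trans hMT
    obtain ⟨C, hC⟩ := h.grow hκ hγ hV k (2 * M) T hT1 hBl
    set β := γ - 2 * κ / (2 * k + 1) with hβ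
    set N := 2 * (2 * M) + k + 1 with hN
    set q := qc κ N with hq
    have hN5 : N ≤ 5 * M := by omega
    have hN5' : (N : ℝ) ≤ 5 * M := by exact_mod_cast hN5
    have hN0 : (1 : ℝ) ≤ N := by
      have : 1 ≤ N := by omega
      exact_mod_cast this
    have hlq : -(2 * κ + 25 * (M : ℝ) ^ 2 + 5 * M * |Real.log m|) ≤ Real.log q := by
      have e : Real.log q = -(2 * κ) + N * (Real.log m - Real.log N) := by
        rw [hq]
        unfold qc
        rw [Real.log_mul (Real.exp_pos _).ne' (by positivity), Real.log_exp, Real.log_pow,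
          Real.log_div hm0.ne' (by positivity)]
      have h1 : Real.log N ≤ 5 * M := (Real.log_le_self (by positivity)).trans hN5'
      have h2 : 0 ≤ Real.log N := Real.log_nonneg hN0
      have h3 : -|Real.log m| ≤ Real.log m := neg_abs_le _
      have h4 : (N : ℝ) * (|Real.log m| + Real.log N) ≤ (5 * M) * (|Real.log m| + 5 * M) := by
        apply mul_le_mul hN5' (by linarith) (by positivity) (by positivity)
      have h5 : (N : ℝ) * (-(|Real.log m| + Real.log N)) ≤ N * (Real.log m - Real.log N) := by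
        apply mul_le_mul_of_nonneg_left _ (by positivity)
        linarith
      rw [e]
      nlinarith
    have hβ1 : γ - κ / k ≤ β := by
      rw [hβ]
      have : 2 * κ / (2 * k + 1) ≤ κ / k := by
        rw [div_le_div_iff₀ (by positivity) (by positivity)]
        nlinarith
      linarith
    have hβ2 : β ≤ γ := by
      rw [hβ]
      have : 0 ≤ 2 * κ / (2 * k + 1) := by positivity
      linarith
    set ℓ := (Real.log q + β * (T - 1)) / T with hℓ
    have hT0 : 0 < T := by linarith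
    have hℓ1 : γ - (C1 + κ) / k ≤ ℓ := by
      have e : ℓ = β + (Real.log q - β) / T := by
        rw [hℓ]
        field_simp
        ring
      have h1 : -(C1 / M) ≤ (Real.log q - β) / T := by
        exact arith1 M κ γ |Real.log m| (Real.log q) β T C1 hM1 hκ.le hγ (abs_nonneg _) hC1 hMT
          hβ2 hlq
      have h2 : C1 / M ≤ C1 / k := by
        apply div_le_div_of_nonneg_left hC10 (by positivity) hkM'
      have h3 : (C1 + κ) / k = C1 / k + κ / k := by ring
      rw [e, h3]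
      linarith
    have hkk : (C1 + κ) / k < (γ - b) / 2 := by
      rw [div_lt_iff₀ hgb] at hk
      rw [div_lt_iff₀ (by positivity)]
      linarith
    have hℓb : (γ + b) / 2 < ℓ := by linarith
    have hev : ∀ᶠ t : ℝ in atTop, C / t < (γ - b) / 2 := by
      have : Tendsto (fun t : ℝ => C / t) atTop (𝓝 0) := tendsto_const_nhds.div_atTop tendsto_id
      exact this.eventually (gt_mem_nhds hgb)
    filter_upwards [hev, eventually_ge_atTop (1 : ℝ)] with t h1 h2
    have h3 := (hC t h2).2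
    have ht0 : 0 < t := by linarith
    have h4 : ℓ - C / t ≤ Real.log (u 0 t) / t := by
      rw [le_div_iff₀ ht0]
      have e : (ℓ - C / t) * t = t * ℓ - C := by
        field_simp
      rw [e]
      exact h3
    linarith
  · intro b hb
    filter_upwards [eventually_ge_atTop (1 : ℝ)] with t ht
    refine lt_of_le_of_lt ?_ hb
    have ht0 : 0 < t := by linarith
    rw [div_le_iff₀ ht0]
    rcases (h.nonneg hκ.le hγ hV 0 t ht0.le).eq_or_lt with h0 | h0
    · rw [← h0, Real.log_zero]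
      positivity
    · have := Real.log_le_log h0 (h.le_exp hκ.le hγ hV 0 t ht0.le)
      rwa [Real.log_exp] at this

end Pool.Agent.R508.PAM
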