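import Mathlib
import Pool.Agent.R508.PAMgrow

set_option autoImplicit false

/-! The environment: a compact group of phases (helper508, MP_e6ac48_pr; proof by helper985). -/

open Set Filter Topology MeasureTheory

namespace Pool.Agent.R508.PAM

/-- numbers `M k` -/
def MM (k : ℕ) : ℕ := (2 * k + 3) * 2 ^ (k + 4)

/-- period lengths `L k` -/
def LL : ℕ → ℕ
  | 0 => 1
  | k + 1 => MM (k + 1) ^ 4 * LL k

/-- `a k` -/
def aa : ℕ → ℕ
  | 0 => 0
  | k + 1 => MM (k + 1) ^ 3 * LL k

/-- the integer part of `c k` -/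
def bb : ℕ → ℕ
  | 0 => 0
  | k + 1 => aa (k + 1) + bb k

/-- `c k` -/
noncomputable def cc (k : ℕ) : ℝ := bb k + (√2 - 1)

theorem MM_ge (k : ℕ) : k + 1 ≤ MM k := by
  unfold MM
  have : 1 ≤ 2 ^ (k + 4) := Nat.one_le_two_pow
  nlinarith

theorem MM_ge2 (k : ℕ) : 2 ≤ MM k := by
  unfold MM
  have : 2 ^ 4 ≤ 2 ^ (k + 4) := Nat.pow_le_pow_right (by norm_num) (by omega)
  nlinarith

theorem LL_pos (k : ℕ) : 0 < LL k := by
  induction k with
  | zero => simp [LL]
  | succ k ih =>
    simp only [LL]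
    have := MM_ge2 (k + 1)
    positivity

instance factLL (k : ℕ) : Fact (0 < (LL k : ℝ)) := ⟨by exact_mod_cast LL_pos k⟩

theorem LL_succ (k : ℕ) : LL (k + 1) = MM (k + 1) * aa (k + 1) := by
  simp only [LL, aa]
  ring

theorem LL_le_aa (k : ℕ) : LL k ≤ aa (k + 1) := by
  simp only [aa]
  have := MM_ge2 (k + 1)
  exact Nat.le_mul_of_pos_left _ (by positivity)

theorem sqrt_facts : 0 < √2 - 1 ∧ √2 - 1 < 1 := by
  have h1 : (1 : ℝ) < √2 := by
    rw [Real.lt_sqrt (by norm_num)]; norm_num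
  have h2 : √2 < 2 := by
    rw [Real.sqrt_lt' (by norm_num)]; norm_num
  constructor <;> linarith

theorem cc_succ (k : ℕ) : cc (k + 1) = aa (k + 1) + cc k := by
  simp only [cc, bb]
  push_cast
  ring

theorem cc_pos (k : ℕ) : 0 < cc k := by
  have := sqrt_facts.1
  unfold cc
  positivity

theorem cc_lt (k : ℕ) : cc k < LL k := by
  induction k with
  | zero => simpa [cc, bb, LL] using sqrt_facts.2
  | succ k ih =>
    rw [cc_succ, LL_succ]
    have h1 : (LL k : ℝ) ≤ aa (k + 1) := by exact_mod_cast LL_le_aa k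
    have h2 : (2 : ℝ) ≤ MM (k + 1) := by exact_mod_cast MM_ge2 (k + 1)
    have h3 : (0 : ℝ) < LL k := by exact_mod_cast LL_pos k
    push_cast
    nlinarith

theorem aa_le_cc (k : ℕ) : (aa (k + 1) : ℝ) ≤ cc (k + 1) := by
  rw [cc_succ]
  have := cc_pos k
  linarith

theorem cc_le (k : ℕ) : cc (k + 1) ≤ 2 * aa (k + 1) := by
  rw [cc_succ]
  have h1 : (LL k : ℝ) ≤ aa (k + 1) := by exact_mod_cast LL_le_aa k
  have := cc_lt k
  linarith

theorem MM_pow_le (k : ℕ) : (MM (k + 1) : ℝ) ^ 3 ≤ cc (k + 1) := by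
  refine le_trans ?_ (aa_le_cc k)
  simp only [aa]
  have : 1 ≤ LL k := LL_pos k
  exact_mod_cast Nat.le_mul_of_pos_right _ (LL_pos k)

theorem LL_le (k : ℕ) : (LL (k + 1) : ℝ) ≤ MM (k + 1) * cc (k + 1) := by
  rw [LL_succ]
  push_cast
  exact mul_le_mul_of_nonneg_left (aa_le_cc k) (by positivity)

theorem cc_irr (k : ℕ) : Irrational (cc k) := by
  have h : cc k = √2 + ((bb k : ℤ) - 1 : ℤ) := by
    simp only [cc]
    push_cast
    ring
  rw [h]
  exact irrational_sqrt_two.add_intCast _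

theorem cc_div_irr (k : ℕ) : Irrational (cc k / (LL k : ℝ)) := by
  have := LL_pos k
  exact (cc_irr k).div_natCast this.ne'

theorem LL_dvd {j k : ℕ} (h : j ≤ k) : LL j ∣ LL k := by
  induction k, h using Nat.le_induction with
  | base => exact dvd_rfl
  | succ k _ ih =>
    simp only [LL]
    exact ih.mul_left _

theorem cc_diff {j k : ℕ} (h : j ≤ k) : ∃ m : ℤ, cc k = cc j + m * (LL j : ℝ) := by
  induction k, h using Nat.le_induction with
  | base => exact ⟨0, by simp⟩
  | succ k hk ih =>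
    obtain ⟨m, hm⟩ := ih
    obtain ⟨d, hd⟩ := LL_dvd hk
    refine ⟨m + (MM (k + 1) : ℤ) ^ 3 * d, ?_⟩
    rw [cc_succ, hm]
    simp only [aa, hd]
    push_cast
    ring

/-- the big product of circles -/
abbrev GG : Type := ∀ k : ℕ, AddCircle (LL k : ℝ)

/-- the time flow -/
noncomputable def tau : ℝ →+ GG where
  toFun s := fun _ => (s : AddCircle _)
  map_zero' := by funext k; exact AddCircle.coe_zero _
  map_add' s t := by funext k; exact AddCircle.coe_add _ s t

theorem tau_apply (s : ℝ) (k : ℕ) : tau s k = (s : AddCircle (LL k : ℝ)) := rfl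

theorem tau_cont : Continuous tau := continuous_pi fun k => AddCircle.continuous_mk' _

/-- the space shift -/
noncomputable def gg : GG := fun k => (cc k : AddCircle (LL k : ℝ))

theorem coe_cc {j k : ℕ} (h : j ≤ k) : ((cc k : ℝ) : AddCircle (LL j : ℝ)) = (cc j : ℝ) := by
  obtain ⟨m, hm⟩ := cc_diff h
  rw [hm, AddCircle.coe_add]
  have : ((m * (LL j : ℝ) : ℝ) : AddCircle (LL j : ℝ)) = 0 := by
    rw [AddCircle.coe_eq_zero_iff]
    exact ⟨m, by simp⟩
  rw [this, add_zero]

/-- the group of phases -/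
noncomputable def HH : AddSubgroup GG := (AddMonoidHom.range tau).topologicalClosure

theorem tau_mem (s : ℝ) : tau s ∈ HH :=
  AddSubgroup.le_topologicalClosure _ ⟨s, rfl⟩

theorem exists_bound_coord {x : GG} {t : Set GG} (ht : t ∈ 𝓝 x) :
    ∃ (k : ℕ) (u : ∀ j : ℕ, Set (AddCircle (LL j : ℝ))), (∀ j, u j ∈ 𝓝 (x j)) ∧
      ∀ y : GG, (∀ j ≤ k, y j ∈ u j) → y ∈ t := by
  rw [nhds_pi, Filter.mem_pi] at ht
  obtain ⟨I, hI, u, hu, hut⟩ := ht
  obtain ⟨k, hk⟩ := hI.bddAbove
  exact ⟨k, u, hu, fun y hy => hut fun j hj => hy j (hk hj)⟩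

theorem gg_mem : gg ∈ HH := by
  show gg ∈ closure ((AddMonoidHom.range tau : AddSubgroup GG) : Set GG)
  rw [mem_closure_iff_nhds]
  intro t ht
  obtain ⟨k, u, hu, hut⟩ := exists_bound_coord ht
  refine ⟨tau (cc k), hut _ fun j hj => ?_, ⟨cc k, rfl⟩⟩
  rw [tau_apply, coe_cc hj]
  exact mem_of_mem_nhds (hu j)

/-- projections between the circles -/
noncomputable def prr {j k : ℕ} (h : j ≤ k) : AddCircle (LL k : ℝ) →+ AddCircle (LL j : ℝ) :=
  QuotientAddGroup.map _ _ (AddMonoidHom.id ℝ) (by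
    rintro x hx
    obtain ⟨m, rfl⟩ := AddSubgroup.mem_zmultiples_iff.1 hx
    obtain ⟨d, hd⟩ := LL_dvd h
    show m • (LL k : ℝ) ∈ AddSubgroup.zmultiples (LL j : ℝ)
    rw [AddSubgroup.mem_zmultiples_iff]
    refine ⟨m * d, ?_⟩
    rw [hd]
    simp only [zsmul_eq_mul]
    push_cast
    ring)

theorem prr_coe {j k : ℕ} (h : j ≤ k) (x : ℝ) :
    prr h (x : AddCircle (LL k : ℝ)) = (x : AddCircle (LL j : ℝ)) := rfl

theorem prr_cont {j k : ℕ} (h : j ≤ k) : Continuous (prr h) := by
  exact (AddCircle.continuous_mk' (LL j : ℝ)).quotient_lift _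

theorem dense_gg : ∀ x ∈ HH, x ∈ closure (range fun z : ℤ => z • gg) := by
  have h1 : ∀ s : ℝ, tau s ∈ closure (range fun z : ℤ => z • gg) := by
    intro s
    rw [mem_closure_iff_nhds]
    intro t ht
    obtain ⟨k, u, hu, hut⟩ := exists_bound_coord ht
    have hd : DenseRange fun z : ℤ => z • ((cc k : ℝ) : AddCircle (LL k : ℝ)) :=
      AddCircle.denseRange_zsmul_coe_iff.2 (cc_div_irr k)
    have hn : {p : AddCircle (LL k : ℝ) | ∀ j, ∀ h : j ≤ k, prr h p ∈ u j}
        ∈ 𝓝 ((s : ℝ) : AddCircle (LL k : ℝ)) := by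
      have e : {p : AddCircle (LL k : ℝ) | ∀ j, ∀ h : j ≤ k, prr h p ∈ u j}
          = ⋂ j : Fin (k + 1), {p | prr (Nat.lt_succ_iff.1 j.2) p ∈ u j} := by
        ext p
        simp only [mem_ofPred_eq, mem_iInter]
        constructor
        · intro h j
          exact h j (Nat.lt_succ_iff.1 j.2)
        · intro h j hj
          exact h ⟨j, Nat.lt_succ_iff.2 hj⟩
      rw [e, iInter_mem]
      intro j
      exact (prr_cont (Nat.lt_succ_iff.1 j.2)).continuousAt.preimage_mem_nhds
        (by rw [prr_coe]; exact hu j)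
    obtain ⟨p, hp, z, rfl⟩ := mem_closure_iff_nhds.1 (hd ((s : ℝ) : AddCircle (LL k : ℝ))) _ hn
    refine ⟨z • gg, hut _ fun j hj => ?_, ⟨z, rfl⟩⟩
    have h2 := hp j hj
    rw [map_zsmul, prr_coe, coe_cc hj] at h2
    exact h2
  intro x hx
  have hx' : x ∈ closure ((AddMonoidHom.range tau : AddSubgroup GG) : Set GG) := hx
  refine closure_minimal ?_ isClosed_closure hx'
  rintro _ ⟨s, rfl⟩
  exact h1 s

instance : CompactSpace HH := isCompact_iff_compactSpace.1
  (AddSubgroup.isClosed_topologicalClosure _).isCompact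

/-- the normalised Haar measure -/
noncomputable def PP : Measure HH := Measure.addHaarMeasure (⊤ : TopologicalSpace.PositiveCompacts HH)

instance : Measure.IsAddHaarMeasure PP := by
  unfold PP; infer_instance

instance : IsProbabilityMeasure PP := IsProbabilityMeasure.mk Measure.addHaarMeasure_self

/-- coordinate projections -/
noncomputable def coord (k : ℕ) : HH →+ AddCircle (LL k : ℝ) where
  toFun h := (h : GG) k
  map_zero' := rfl
  map_add' _ _ := rfl

theorem coord_cont (k : ℕ) : Continuous (coord k) :=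
  (continuous_apply k).comp continuous_subtype_val

theorem map_coord (k : ℕ) : PP.map (coord k) = AddCircle.haarAddCircle := by
  have h1 : (PP.map (coord k)).IsAddHaarMeasure := by
    refine Measure.isAddHaarMeasure_map PP (coord k) (coord_cont k) ?_ ?_
    · intro p
      obtain ⟨s, rfl⟩ := QuotientAddGroup.mk_surjective p
      exact ⟨⟨tau s, tau_mem s⟩, rfl⟩
    · rw [Filter.cocompact_eq_bot]
      exact tendsto_bot
  have h2 : IsProbabilityMeasure (PP.map (coord k)) :=
    Measure.isProbabilityMeasure_map (coord_cont k).measurable.aemeasurable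
  exact Measure.isAddHaarMeasure_eq_of_isProbabilityMeasure _ _

end Pool.Agent.R508.PAM
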