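import Mathlib
import Pool.Agent.R508.PAMode

set_option autoImplicit false

/-! Existence of the bounded solution of the parabolic Anderson equation
(helper508, MP_e6ac48_pr). -/

open Set Filter Topology MeasureTheory

namespace Pool.Agent.R508.PAM

section linearODE

variable {E : Type*} [NormedAddCommGroup E] [NormedSpace ℝ E] [CompleteSpace E]

/-- Dyson series -/
noncomputable def dy (A : ℝ → E →L[ℝ] E) (x0 : E) : ℕ → ℝ → E
  | 0 => fun _ => x0
  | n + 1 => fun t => ∫ s in (0 : ℝ)..t, A s (dy A x0 n s)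

theorem dy_cont {A : ℝ → E →L[ℝ] E} (hA : Continuous A) (x0 : E) (n : ℕ) :
    Continuous (dy A x0 n) := by
  induction n with
  | zero => exact continuous_const
  | succ n ih =>
    have h : Continuous fun s => A s (dy A x0 n s) := hA.clm_apply ih
    exact continuous_iff_continuousAt.2 fun t =>
      (h.integral_hasStrictDerivAt 0 t).hasDerivAt.continuousAt

theorem dy_deriv {A : ℝ → E →L[ℝ] E} (hA : Continuous A) (x0 : E) (n : ℕ) (t : ℝ) :
    HasDerivAt (dy A x0 (n + 1)) (A t (dy A x0 n t)) t := by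
  have h : Continuous fun s => A s (dy A x0 n s) := hA.clm_apply (dy_cont hA x0 n)
  exact (h.integral_hasStrictDerivAt 0 t).hasDerivAt

theorem dy_zero (A : ℝ → E →L[ℝ] E) (x0 : E) (n : ℕ) : dy A x0 (n + 1) 0 = 0 := by
  simp [dy]

theorem dy_bound {A : ℝ → E →L[ℝ] E} (hA : Continuous A) (x0 : E) (C : ℝ) (hC : 0 ≤ C)
    (hAC : ∀ t, ‖A t‖ ≤ C) (n : ℕ) : ∀ s : ℝ, 0 ≤ s →
      ‖dy A x0 n s‖ ≤ ‖x0‖ * ((C * s) ^ n / n.factorial) ∧
      ‖dy A x0 n (-s)‖ ≤ ‖x0‖ * ((C * s) ^ n / n.factorial) := by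
  induction n with
  | zero => intro s _; simp [dy]
  | succ n ih =>
    intro s hs
    have hB : ∀ x : ℝ, HasDerivAt (fun s => ‖x0‖ * ((C * s) ^ (n + 1) / ((n + 1).factorial : ℝ)))
        (‖x0‖ * (C * ((C * x) ^ n / n.factorial))) x := by
      intro x
      have := (pow_deriv C 0 n x).const_mul ‖x0‖
      simpa using this
    constructor
    · refine image_norm_le_of_norm_deriv_right_le_deriv_boundary (a := 0) (b := s)
        (dy_cont hA x0 (n + 1)).continuousOn
        (fun x _ => (dy_deriv hA x0 n x).hasDerivWithinAt) ?_ hB ?_ ⟨hs, le_rfl⟩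
      · rw [dy_zero]
        simp
      · intro x hx
        have h1 := (A x).le_opNorm (dy A x0 n x)
        have h2 := (ih x hx.1).1
        calc ‖A x (dy A x0 n x)‖ ≤ ‖A x‖ * ‖dy A x0 n x‖ := h1
          _ ≤ C * (‖x0‖ * ((C * x) ^ n / n.factorial)) :=
            mul_le_mul (hAC x) h2 (norm_nonneg _) hC
          _ = _ := by ring
    · have hd : ∀ x : ℝ, HasDerivAt (fun s => dy A x0 (n + 1) (-s))
          (-(A (-x) (dy A x0 n (-x)))) x := by
        intro x
        have h1 := dy_deriv hA x0 n (-x)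
        have h2 : HasDerivAt (fun s : ℝ => -s) (-1) x := hasDerivAt_neg x
        have h3 := h1.scomp x h2
        simpa [Function.comp_def] using h3
      refine image_norm_le_of_norm_deriv_right_le_deriv_boundary (a := 0) (b := s)
        (f := fun s => dy A x0 (n + 1) (-s))
        ((dy_cont hA x0 (n + 1)).comp continuous_neg).continuousOn
        (fun x _ => (hd x).hasDerivWithinAt) ?_ hB ?_ ⟨hs, le_rfl⟩
      · simp [dy_zero]
      · intro x hx
        rw [norm_neg]
        have h1 := (A (-x)).le_opNorm (dy A x0 n (-x))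
        have h2 := (ih x hx.1).2
        calc ‖A (-x) (dy A x0 n (-x))‖ ≤ ‖A (-x)‖ * ‖dy A x0 n (-x)‖ := h1
          _ ≤ C * (‖x0‖ * ((C * x) ^ n / n.factorial)) :=
            mul_le_mul (hAC (-x)) h2 (norm_nonneg _) hC
          _ = _ := by ring

theorem dy_bound' {A : ℝ → E →L[ℝ] E} (hA : Continuous A) (x0 : E) (C : ℝ) (hC : 0 ≤ C)
    (hAC : ∀ t, ‖A t‖ ≤ C) (n : ℕ) (R t : ℝ) (ht : |t| ≤ R) :
    ‖dy A x0 n t‖ ≤ ‖x0‖ * ((C * R) ^ n / n.factorial) := by
  have h1 : ‖dy A x0 n t‖ ≤ ‖x0‖ * ((C * |t|) ^ n / n.factorial) := by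
    rcases le_total 0 t with h0 | h0
    · rw [abs_of_nonneg h0]
      exact (dy_bound hA x0 C hC hAC n t h0).1
    · have := (dy_bound hA x0 C hC hAC n (-t) (by linarith)).2
      rw [neg_neg] at this
      rwa [abs_of_nonpos h0]
  refine h1.trans (mul_le_mul_of_nonneg_left ?_ (norm_nonneg _))
  refine div_le_div_of_nonneg_right (pow_le_pow_left₀ (by positivity) ?_ _) (by positivity)
  exact mul_le_mul_of_nonneg_left ht hC

theorem exists_linear (A : ℝ → E →L[ℝ] E) (hA : Continuous A) (C : ℝ) (hC : 0 ≤ C)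
    (hAC : ∀ t, ‖A t‖ ≤ C) (x0 : E) :
    ∃ U : ℝ → E, U 0 = x0 ∧ ∀ t, HasDerivAt U (A t (U t)) t := by
  have hsum : ∀ R : ℝ, Summable fun n : ℕ => ‖x0‖ * ((C * R) ^ n / n.factorial) := fun R =>
    (Real.summable_pow_div_factorial (C * R)).mul_left _
  have hsv : ∀ t, Summable fun n => dy A x0 n t := fun t =>
    Summable.of_norm_bounded (hsum |t|) fun n => dy_bound' hA x0 C hC hAC n |t| t le_rfl
  refine ⟨fun t => ∑' n, dy A x0 n t, ?_, ?_⟩
  · show ∑' n, dy A x0 n 0 = x0
    rw [tsum_eq_single 0]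
    · rfl
    · intro n hn
      obtain ⟨m, rfl⟩ := Nat.exists_eq_succ_of_ne_zero hn
      exact dy_zero A x0 m
  · intro t
    let g' : ℕ → ℝ → E := fun n t => match n with
      | 0 => 0
      | n + 1 => A t (dy A x0 n t)
    have hg' : ∀ n s, HasDerivAt (dy A x0 n) (g' n s) s := by
      intro n s
      cases n with
      | zero => exact hasDerivAt_const s x0
      | succ n => exact dy_deriv hA x0 n s
    set R := |t| + 1 with hR
    let b : ℕ → ℝ := fun n => match n with
      | 0 => 0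
      | n + 1 => C * (‖x0‖ * ((C * R) ^ n / n.factorial))
    have hb : Summable b := by
      rw [← summable_nat_add_iff 1]
      exact (hsum R).mul_left C
    have hbound : ∀ n s, s ∈ Ioo (-R) R → ‖g' n s‖ ≤ b n := by
      intro n s hs
      cases n with
      | zero => simp [g', b]
      | succ n =>
        have h1 := (A s).le_opNorm (dy A x0 n s)
        have h2 := dy_bound' hA x0 C hC hAC n R s (abs_lt.2 hs).le
        exact h1.trans (mul_le_mul (hAC s) h2 (norm_nonneg _) hC)
    have ht : t ∈ Ioo (-R) R := by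
      rw [hR]
      constructor
      · have := neg_abs_le t
        linarith
      · have := le_abs_self t
        linarith
    have h0 := hasDerivAt_tsum_of_isPreconnected hb isOpen_Ioo isPreconnected_Ioo
      (fun n s hs => hg' n s) hbound ht (hsv t) ht
    refine h0.congr_deriv ?_
    have h1 : Summable fun n => g' n t := Summable.of_norm_bounded hb fun n => hbound n t ht
    rw [h1.tsum_eq_zero_add]
    simp only [g', zero_add]
    exact ((A t).map_tsum (hsv t)).symm

theorem exists_linear_alg {E : Type*} [NormedCommRing E] [NormedAlgebra ℝ E] [CompleteSpace E]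
    (B0 : E →L[ℝ] E) (γ : ℝ) (W : ℝ → E) (hW : Continuous W) (hW1 : ∀ t, ‖W t‖ ≤ 1) (x0 : E) :
    ∃ U : ℝ → E, U 0 = x0 ∧ ∀ t, HasDerivAt U (B0 (U t) + γ • (W t * U t)) t := by
  let A : ℝ → E →L[ℝ] E := fun t => B0 + γ • ContinuousLinearMap.mul ℝ E (W t)
  have hA : Continuous A := by
    have h1 : Continuous fun t => ContinuousLinearMap.mul ℝ E (W t) :=
      (ContinuousLinearMap.mul ℝ E).continuous.comp hW
    exact continuous_const.add (h1.const_smul γ)
  have hAC : ∀ t, ‖A t‖ ≤ ‖B0‖ + |γ| := by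
    intro t
    refine (norm_add_le _ _).trans (add_le_add le_rfl ?_)
    rw [norm_smul, Real.norm_eq_abs]
    refine mul_le_of_le_one_right (abs_nonneg _) ?_
    exact (ContinuousLinearMap.opNorm_mul_apply_le ℝ _ (W t)).trans (hW1 t)
  exact exists_linear A hA (‖B0‖ + |γ|) (by positivity) hAC x0

end linearODE

open BoundedContinuousFunction

/-- shift operator -/
noncomputable def shiftOp (z : ℤ) : (ℤ →ᵇ ℝ) →L[ℝ] (ℤ →ᵇ ℝ) :=
  LinearMap.mkContinuous
    { toFun := fun v => v.compContinuous ⟨fun x => x + z, continuous_of_discreteTopology⟩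
      map_add' := fun v w => by ext x; rfl
      map_smul' := fun c v => by ext x; rfl } 1 (by
    intro v
    rw [one_mul]
    refine (BoundedContinuousFunction.norm_le (norm_nonneg _)).2 fun x => ?_
    exact v.norm_coe_le_norm _)

theorem shiftOp_apply (z : ℤ) (v : ℤ →ᵇ ℝ) (x : ℤ) : shiftOp z v x = v (x + z) := rfl

/-- existence -/
theorem exists_solution (κ γ : ℝ) (V : ℤ → ℝ → ℝ) (hV1 : ∀ x t, |V x t| ≤ 1)
    (hV2 : ∀ x s t, |V x s - V x t| ≤ |s - t|) : ∃ u, IsSolution κ γ V u := by
  let W : ℝ → (ℤ →ᵇ ℝ) := fun t =>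
    BoundedContinuousFunction.ofNormedAddCommGroupDiscrete (fun x => V x t) 1 fun x => hV1 x t
  have hW : Continuous W := by
    have : LipschitzWith 1 W := by
      refine LipschitzWith.of_dist_le_mul fun s t => ?_
      rw [NNReal.coe_one, one_mul]
      refine (BoundedContinuousFunction.dist_le dist_nonneg).2 fun x => ?_
      rw [Real.dist_eq, Real.dist_eq]
      exact hV2 x s t
    exact this.continuous
  have hW1 : ∀ t, ‖W t‖ ≤ 1 := fun t =>
    (BoundedContinuousFunction.norm_le zero_le_one).2 fun x => hV1 x t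
  let x0 : ℤ →ᵇ ℝ := BoundedContinuousFunction.ofNormedAddCommGroupDiscrete
    (fun x => if x = 0 then 1 else 0) 1 (fun x => by split_ifs <;> simp)
  obtain ⟨U, hU0, hU⟩ := exists_linear_alg
    (κ • ((shiftOp 1 - ContinuousLinearMap.id ℝ _) + (shiftOp (-1) - ContinuousLinearMap.id ℝ _)))
    γ W hW hW1 x0
  refine ⟨fun x t => U t x, ?_, ?_, ?_⟩
  · intro x
    show U 0 x = _
    rw [hU0]
    rfl
  · intro x t _
    have h1 := ((BoundedContinuousFunction.evalCLM ℝ x).hasFDerivAt.comp_hasDerivAt t (hU t))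
    refine HasDerivAt.hasDerivWithinAt ?_
    refine h1.congr_deriv ?_
    show κ • ((shiftOp 1 (U t) x - U t x) + (shiftOp (-1) (U t) x - U t x)) + γ • (W t x * U t x) = _
    rw [shiftOp_apply, shiftOp_apply, smul_eq_mul, smul_eq_mul]
    show κ * (((U t) (x + 1) - U t x) + ((U t) (x + -1) - U t x)) + γ * (V x t * U t x)
      = κ * (((U t) (x + 1) - U t x) + ((U t) (x - 1) - U t x)) + γ * V x t * U t x
    rw [← sub_eq_add_neg x 1]
    ring
  · intro T
    have hUc : Continuous U := continuous_iff_continuousAt.2 fun t => (hU t).continuousAt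
    obtain ⟨C, hC⟩ := (isCompact_Icc (a := (0 : ℝ)) (b := T)).exists_bound_of_continuousOn
      hUc.continuousOn
    exact ⟨C, fun x t h0 hT => ((U t).norm_coe_le_norm x).trans (hC t ⟨h0, hT⟩)⟩

end Pool.Agent.R508.PAM
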