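import Mathlib
import Pool.Agent.R508.PAMenv

set_option autoImplicit false

/-! The random field (helper508, MP_e6ac48_pr; proof by helper985). -/

open Set Filter Topology MeasureTheory

namespace Pool.Agent.R508.PAM

/-- half of the length of the arc -/
noncomputable def rr (k : ℕ) : ℝ := (k + 1) * cc k

/-- bump function on the circle number `k` -/
noncomputable def ff (k : ℕ) (p : AddCircle (LL k : ℝ)) : ℝ :=
  max 0 (min 1 (rr k + 1 - ‖p - ((rr k : ℝ) : AddCircle (LL k : ℝ))‖))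

theorem ff_nonneg (k : ℕ) (p : AddCircle (LL k : ℝ)) : 0 ≤ ff k p := le_max_left _ _

theorem ff_le (k : ℕ) (p : AddCircle (LL k : ℝ)) : ff k p ≤ 1 :=
  max_le zero_le_one (min_le_left _ _)

theorem ff_lip (k : ℕ) (p q : AddCircle (LL k : ℝ)) : |ff k p - ff k q| ≤ ‖p - q‖ := by
  have h1 : |ff k p - ff k q| ≤ |min 1 (rr k + 1 - ‖p - ((rr k : ℝ) : AddCircle (LL k : ℝ))‖)
      - min 1 (rr k + 1 - ‖q - ((rr k : ℝ) : AddCircle (LL k : ℝ))‖)| := by
    unfold ff
    have := abs_max_sub_max_le_max 0 (min 1 (rr k + 1 - ‖p - ((rr k : ℝ) : AddCircle (LL k : ℝ))‖))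
      0 (min 1 (rr k + 1 - ‖q - ((rr k : ℝ) : AddCircle (LL k : ℝ))‖))
    rw [sub_self, abs_zero, max_eq_right (a := (0:ℝ)) (abs_nonneg _)] at this
    exact this
  refine h1.trans ?_
  have h2 := abs_min_sub_min_le_max 1 (rr k + 1 - ‖p - ((rr k : ℝ) : AddCircle (LL k : ℝ))‖)
      1 (rr k + 1 - ‖q - ((rr k : ℝ) : AddCircle (LL k : ℝ))‖)
  rw [sub_self, abs_zero, max_eq_right (abs_nonneg _)] at h2
  refine h2.trans ?_
  have h3 := abs_norm_sub_norm_le (q - ((rr k : ℝ) : AddCircle (LL k : ℝ)))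
    (p - ((rr k : ℝ) : AddCircle (LL k : ℝ)))
  rw [sub_sub_sub_cancel_right] at h3
  rw [norm_sub_rev p q]
  refine le_trans (le_of_eq ?_) h3
  congr 1
  ring

theorem ff_cont (k : ℕ) : Continuous (ff k) := by
  unfold ff
  fun_prop

theorem norm_coe_le (k : ℕ) (x : ℝ) : ‖(x : AddCircle (LL k : ℝ))‖ ≤ |x| := by
  have := QuotientAddGroup.norm_mk_le_norm (S := AddSubgroup.zmultiples (LL k : ℝ)) (m := x)
  simpa using this

theorem ff_one (k : ℕ) (x : ℝ) (h0 : 0 ≤ x) (h1 : x ≤ 2 * rr k) :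
    ff k (x : AddCircle (LL k : ℝ)) = 1 := by
  unfold ff
  have h2 : ‖(x : AddCircle (LL k : ℝ)) - ((rr k : ℝ) : AddCircle (LL k : ℝ))‖ ≤ rr k := by
    rw [← AddCircle.coe_sub]
    refine (norm_coe_le k _).trans ?_
    rw [abs_le]
    constructor <;> linarith
  rw [min_eq_left (by linarith), max_eq_right zero_le_one]

/-- the function on the group -/
noncomputable def FF (h : GG) : ℝ := ⨆ k : ℕ, ff (k + 1) (h (k + 1))

theorem FF_bdd (h : GG) : BddAbove (range fun k : ℕ => ff (k + 1) (h (k + 1))) :=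
  ⟨1, by rintro _ ⟨k, rfl⟩; exact ff_le _ _⟩

theorem FF_nonneg (h : GG) : 0 ≤ FF h :=
  (ff_nonneg _ _).trans (le_ciSup (FF_bdd h) 0)

theorem FF_le (h : GG) : FF h ≤ 1 := ciSup_le fun _ => ff_le _ _

theorem le_FF (h : GG) (k : ℕ) : ff (k + 1) (h (k + 1)) ≤ FF h := le_ciSup (FF_bdd h) k

theorem FF_lip (h h' : GG) (δ : ℝ) (hδ : ∀ k, ‖h k - h' k‖ ≤ δ) : |FF h - FF h'| ≤ δ := by
  have key : ∀ h h' : GG, (∀ k, ‖h k - h' k‖ ≤ δ) → FF h - FF h' ≤ δ := by
    intro h h' hδ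
    rw [sub_le_iff_le_add]
    refine ciSup_le fun k => ?_
    have h1 := (abs_le.1 (ff_lip (k + 1) (h (k + 1)) (h' (k + 1)))).2
    have h2 := le_FF h' k
    have h3 := hδ (k + 1)
    linarith
  rw [abs_le]
  constructor
  · have := key h' h (fun k => by rw [norm_sub_rev]; exact hδ k)
    linarith
  · exact key h h' hδ

theorem FF_meas : Measurable FF :=
  Measurable.iSup fun k => (ff_cont (k + 1)).measurable.comp (measurable_pi_apply (k + 1))

/-- the field, for real times -/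
noncomputable def xr (h : HH) (x : ℤ) (t : ℝ) : ℝ := FF ((h : GG) + x • gg + tau t)

theorem xr_mem (h : HH) (x : ℤ) (t : ℝ) : xr h x t ∈ Icc (0 : ℝ) 1 := ⟨FF_nonneg _, FF_le _⟩

theorem xr_lip (h : HH) (x : ℤ) (s t : ℝ) : |xr h x s - xr h x t| ≤ |s - t| := by
  refine FF_lip _ _ _ fun k => ?_
  have : ((h : GG) + x • gg + tau s) k - ((h : GG) + x • gg + tau t) k
      = (((s - t : ℝ)) : AddCircle (LL k : ℝ)) := by
    simp only [Pi.add_apply, tau_apply, AddCircle.coe_sub]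
    abel
  rw [this]
  exact norm_coe_le k _

theorem xr_meas (x : ℤ) (t : ℝ) : Measurable fun h : HH => xr h x t := by
  refine FF_meas.comp ?_
  exact (measurable_subtype_coe.add_const _).add_const _

/-- the shift element -/
noncomputable def sh (z : ℤ) (s : ℝ) : HH :=
  ⟨z • gg + tau s, HH.add_mem (HH.zsmul_mem gg_mem z) (tau_mem s)⟩

theorem xr_shift (h : HH) (z : ℤ) (s : ℝ) (x : ℤ) (t : ℝ) :
    xr (h + sh z s) x t = xr h (x + z) (t + s) := by
  unfold xr
  congr 1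
  show (h : GG) + (z • gg + tau s) + x • gg + tau t = (h : GG) + (x + z) • gg + tau (t + s)
  rw [add_smul, map_add]
  abel

theorem exists_rep (k : ℕ) (w : AddCircle (LL k : ℝ)) : ∃ p : ℝ, p ∈ Ico (0 : ℝ) (LL k) ∧
    (p : AddCircle (LL k : ℝ)) = w := by
  refine ⟨AddCircle.equivIco ((LL k : ℕ) : ℝ) 0 w, ?_, ?_⟩
  · have := (AddCircle.equivIco ((LL k : ℕ) : ℝ) 0 w).2
    exact ⟨this.1, by linarith [this.2]⟩
  · exact AddCircle.coe_equivIco

/-- the block property -/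
theorem xr_block (h : HH) (k : ℕ) : BlockProp (xr h) (k + 1) (cc (k + 1)) (2 * MM (k + 1)) := by
  intro t _
  obtain ⟨p, hp, hpe⟩ := exists_rep (k + 1) ((h : GG) (k + 1) + (t : ℝ))
  obtain ⟨L, hL⟩ : ∃ L : ℝ, L = LL (k + 1) := ⟨_, rfl⟩
  obtain ⟨c, hc⟩ : ∃ c : ℝ, c = cc (k + 1) := ⟨_, rfl⟩
  rw [← hL] at hp
  rw [← hc]
  have hc0 : 0 < c := by rw [hc]; exact cc_pos _
  set x : ℤ := ⌈(L + (k + 1) * c - p) / c⌉ with hx
  have hx1 : (L + (k + 1) * c - p) / c ≤ x := Int.le_ceil _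
  have hx2 : (x : ℝ) < (L + (k + 1) * c - p) / c + 1 := Int.ceil_lt_add_one _
  have hx0 : 0 ≤ x := by
    have : 0 ≤ (L + (k + 1) * c - p) / c := by
      apply div_nonneg _ hc0.le
      have := hp.2
      nlinarith
    exact_mod_cast this.trans hx1
  rw [div_le_iff₀ hc0] at hx1
  have hx3 : (x : ℝ) * c < L + (k + 1) * c - p + c := by
    have : (x : ℝ) - 1 < (L + (k + 1) * c - p) / c := by linarith
    rw [lt_div_iff₀ hc0] at this
    linarith
  have hx4 : x ≤ 2 * MM (k + 1) := by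
    have h1 : L ≤ MM (k + 1) * c := by rw [hL, hc]; exact LL_le k
    have h2 : (x : ℝ) * c < (MM (k + 1) + (k + 1) + 1 : ℝ) * c := by
      have := hp.1
      nlinarith
    have h3 : (x : ℝ) < (MM (k + 1) + (k + 1) + 1 : ℝ) := lt_of_mul_lt_mul_right h2 hc0.le
    have h4 : x < MM (k + 1) + (k + 1) + 1 := by exact_mod_cast h3
    have h5 := MM_ge (k + 1)
    omega
  refine ⟨x, ?_, ?_⟩
  · rw [abs_of_nonneg hx0]
    push_cast
    exact hx4
  · intro y hy s hs
    have hy' : |(y : ℝ) - x| ≤ k + 1 := by exact_mod_cast hy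
    have hy1 := abs_le.1 hy'
    have e1 : ((h : GG) + y • gg + tau s) (k + 1)
        = ((p + y * c + (s - t) - L : ℝ) : AddCircle (LL (k + 1) : ℝ)) := by
      have e2 : ((h : GG) + y • gg + tau s) (k + 1)
          = ((h : GG) (k + 1) + (t : ℝ)) + ((y * c : ℝ) : AddCircle (LL (k + 1) : ℝ))
            + ((s - t : ℝ) : AddCircle (LL (k + 1) : ℝ)) := by
        have e3 : ((y * c : ℝ) : AddCircle (LL (k + 1) : ℝ)) = y • gg (k + 1) := by
          rw [← zsmul_eq_mul, AddCircle.coe_zsmul, hc]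
          rfl
        rw [e3, AddCircle.coe_sub]
        simp only [Pi.add_apply, Pi.smul_apply, tau_apply]
        abel
      rw [e2, ← hpe, ← AddCircle.coe_add, ← AddCircle.coe_add, AddCircle.coe_sub _ _ L, hL,
        AddCircle.coe_period, sub_zero]
    have h1 : ff (k + 1) (((h : GG) + y • gg + tau s) (k + 1)) = 1 := by
      rw [e1]
      have i1 : ((y : ℝ) - x) * c ≤ (k + 1) * c := mul_le_mul_of_nonneg_right hy1.2 hc0.le
      have i2 : (-(k + 1 : ℝ)) * c ≤ ((y : ℝ) - x) * c := mul_le_mul_of_nonneg_right hy1.1 hc0.le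
      have i3 := hs.1
      have i4 := hs.2
      refine ff_one _ _ ?_ ?_
      · nlinarith
      · unfold rr
        push_cast
        nlinarith
    have h2 := le_FF ((h : GG) + y • gg + tau s) k
    rw [h1] at h2
    exact le_antisymm (FF_le _) h2

end Pool.Agent.R508.PAM
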