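import Mathlib
import Pool.Agent.R508.PAMode

set_option autoImplicit false

/-! The solution of the parabolic Anderson equation is a measurable function of the environment
(Euler scheme) (helper508, MP_e6ac48_pr). -/

open Set Filter Topology MeasureTheory

namespace Pool.Agent.R508.PAM

/-- Euler scheme -/
noncomputable def eu (κ γ : ℝ) (V : ℤ → ℝ → ℝ) (h : ℝ) : ℕ → ℤ → ℝ
  | 0, x => if x = 0 then 1 else 0
  | j + 1, x => eu κ γ V h j x + h * (κ * ((eu κ γ V h j (x + 1) - eu κ γ V h j x)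
      + (eu κ γ V h j (x - 1) - eu κ γ V h j x)) + γ * V x (j * h) * eu κ γ V h j x)

theorem rate_diff (κ γ : ℝ) (hκ : 0 ≤ κ) (hγ : 0 ≤ γ) (a b c v a' b' c' v' δ D η : ℝ)
    (ha : |a - a'| ≤ δ) (hb : |b - b'| ≤ δ) (hc : |c - c'| ≤ δ) (hv : |v| ≤ 1)
    (hvv : |v - v'| ≤ η) (hb' : |b'| ≤ D) (hη : 0 ≤ η) :
    |(κ * ((a - b) + (c - b)) + γ * v * b) - (κ * ((a' - b') + (c' - b')) + γ * v' * b')|
      ≤ (4 * κ + γ) * δ + γ * η * D := by
  have e : (κ * ((a - b) + (c - b)) + γ * v * b) - (κ * ((a' - b') + (c' - b')) + γ * v' * b')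
      = κ * ((a - a') + (c - c') - 2 * (b - b')) + γ * (v * (b - b') + (v - v') * b') := by ring
  rw [e]
  have h1 : |(a - a') + (c - c') - 2 * (b - b')| ≤ 4 * δ := by
    rw [abs_le] at *
    constructor <;> linarith [ha.1, ha.2, hb.1, hb.2, hc.1, hc.2]
  have h2 : |v * (b - b')| ≤ δ := by
    rw [abs_mul]
    calc _ ≤ 1 * |b - b'| := mul_le_mul_of_nonneg_right hv (abs_nonneg _)
      _ ≤ δ := by linarith
  have h3 : |(v - v') * b'| ≤ η * D := by
    rw [abs_mul]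
    exact mul_le_mul hvv hb' (abs_nonneg _) hη
  have h4 : |v * (b - b') + (v - v') * b'| ≤ δ + η * D := (abs_add_le _ _).trans (by linarith)
  calc _ ≤ |κ * ((a - a') + (c - c') - 2 * (b - b'))| + |γ * (v * (b - b') + (v - v') * b')| :=
        abs_add_le _ _
    _ = κ * |(a - a') + (c - c') - 2 * (b - b')| + γ * |v * (b - b') + (v - v') * b'| := by
        rw [abs_mul, abs_mul, abs_of_nonneg hκ, abs_of_nonneg hγ]
    _ ≤ κ * (4 * δ) + γ * (δ + η * D) :=
        add_le_add (mul_le_mul_of_nonneg_left h1 hκ) (mul_le_mul_of_nonneg_left h4 hγ)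
    _ = _ := by ring

variable {κ γ : ℝ} {V u : ℤ → ℝ → ℝ}

theorem IsSolution.lip (h : IsSolution κ γ V u) (hκ : 0 ≤ κ) (hγ : 0 ≤ γ)
    (hV : ∀ x t, 0 ≤ t → V x t ∈ Icc (0 : ℝ) 1) (T D : ℝ)
    (hu : ∀ x t, 0 ≤ t → t ≤ T → |u x t| ≤ D) (x : ℤ) (s t : ℝ) (hs : s ∈ Icc 0 T)
    (ht : t ∈ Icc 0 T) : |u x s - u x t| ≤ (4 * κ + γ) * D * |s - t| := by
  have := Convex.norm_image_sub_le_of_norm_hasDerivWithin_le (s := Icc 0 T) (f := u x)
    (f' := fun t => κ * ((u (x + 1) t - u x t) + (u (x - 1) t - u x t)) + γ * V x t * u x t)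
    (C := (4 * κ + γ) * D) (x := t) (y := s)
    (fun r hr => (h.deriv x r hr.1).mono fun y hy => hy.1) (fun r hr => ?_) (convex_Icc 0 T) ht hs
  · simpa [Real.norm_eq_abs] using this
  · rw [Real.norm_eq_abs]
    have h1 := hV x r hr.1
    have := rate_diff κ γ hκ hγ (u (x + 1) r) (u x r) (u (x - 1) r) (V x r) 0 0 0 (V x r) D 0 0
      (by simpa using hu _ _ hr.1 hr.2) (by simpa using hu _ _ hr.1 hr.2)
      (by simpa using hu _ _ hr.1 hr.2) (by rw [abs_of_nonneg h1.1]; exact h1.2) (by simp)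
      (by simp) le_rfl
    simpa using this

theorem IsSolution.euler_local (h : IsSolution κ γ V u) (hκ : 0 ≤ κ) (hγ : 0 ≤ γ)
    (hV : ∀ x t, 0 ≤ t → V x t ∈ Icc (0 : ℝ) 1)
    (hL : ∀ x s t, 0 ≤ s → 0 ≤ t → |V x s - V x t| ≤ |s - t|) (T D : ℝ) (hD : 0 ≤ D)
    (hu : ∀ x t, 0 ≤ t → t ≤ T → |u x t| ≤ D) (x : ℤ) (s η : ℝ) (hη : 0 ≤ η) (hs : 0 ≤ s)
    (hsT : s + η ≤ T) :
    |u x (s + η) - (u x s + η * (κ * ((u (x + 1) s - u x s) + (u (x - 1) s - u x s))
      + γ * V x s * u x s))| ≤ ((4 * κ + γ) ^ 2 * D + γ * D) * η * η := by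
  set F : ℝ → ℝ := fun s => κ * ((u (x + 1) s - u x s) + (u (x - 1) s - u x s))
      + γ * V x s * u x s with hF
  have := Convex.norm_image_sub_le_of_norm_hasDerivWithin_le (s := Icc s (s + η))
    (f := fun r => u x r - r * F s)
    (f' := fun r => F r - F s)
    (C := ((4 * κ + γ) ^ 2 * D + γ * D) * η) (x := s) (y := s + η)
    (fun r hr => ?_) (fun r hr => ?_) (convex_Icc _ _) ⟨le_rfl, by linarith⟩
      ⟨by linarith, le_rfl⟩
  · rw [Real.norm_eq_abs, Real.norm_eq_abs] at this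
    rw [show s + η - s = η by ring, abs_of_nonneg hη] at this
    refine le_trans (le_of_eq ?_) this
    congr 1
    ring
  · have h1 : HasDerivWithinAt (u x) (F r) (Icc s (s + η)) r :=
      (h.deriv x r (hs.trans hr.1)).mono fun y hy => hs.trans hy.1
    have h2 : HasDerivWithinAt (fun r => r * F s) (F s) (Icc s (s + η)) r := by
      simpa using ((hasDerivAt_id r).mul_const (F s)).hasDerivWithinAt
    exact h1.sub h2
  · rw [Real.norm_eq_abs]
    have hr0 : 0 ≤ r := hs.trans hr.1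
    have hrT : r ≤ T := hr.2.trans hsT
    have hsT' : s ≤ T := by linarith
    have hrs : |r - s| ≤ η := by
      rw [abs_le]
      constructor <;> linarith [hr.1, hr.2]
    have hK : 0 ≤ (4 * κ + γ) * D := by positivity
    have hl : ∀ y, |u y r - u y s| ≤ (4 * κ + γ) * D * η := fun y =>
      (h.lip hκ hγ hV T D hu y r s ⟨hr0, hrT⟩ ⟨hs, hsT'⟩).trans
        (mul_le_mul_of_nonneg_left hrs hK)
    have h1 := hV x r hr0
    have := rate_diff κ γ hκ hγ (u (x + 1) r) (u x r) (u (x - 1) r) (V x r)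
      (u (x + 1) s) (u x s) (u (x - 1) s) (V x s) ((4 * κ + γ) * D * η) D η
      (hl _) (hl _) (hl _) (by rw [abs_of_nonneg h1.1]; exact h1.2)
      ((hL x r s hr0 hs).trans hrs) (hu _ _ hs hsT') hη
    refine this.trans (le_of_eq ?_)
    ring

theorem IsSolution.euler (h : IsSolution κ γ V u) (hκ : 0 ≤ κ) (hγ : 0 ≤ γ)
    (hV : ∀ x t, 0 ≤ t → V x t ∈ Icc (0 : ℝ) 1)
    (hL : ∀ x s t, 0 ≤ s → 0 ≤ t → |V x s - V x t| ≤ |s - t|) (T D : ℝ) (hD : 0 ≤ D)
    (hu : ∀ x t, 0 ≤ t → t ≤ T → |u x t| ≤ D) (η : ℝ) (hη : 0 ≤ η) (j : ℕ) (hj : j * η ≤ T) :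
    ∀ x, |u x (j * η) - eu κ γ V η j x| ≤
      ((4 * κ + γ) ^ 2 * D + γ * D) * η * η * (j * (1 + (4 * κ + γ) * η) ^ j) := by
  induction j with
  | zero =>
    intro x
    simp [eu, h.init]
  | succ j ih =>
    intro x
    have hj' : (j : ℝ) * η + η ≤ T := by
      push_cast at hj
      linarith
    have ih' := ih (by linarith)
    obtain ⟨C1, hC1⟩ : ∃ C1, C1 = ((4 * κ + γ) ^ 2 * D + γ * D) := ⟨_, rfl⟩
    have hC10 : 0 ≤ C1 := by rw [hC1]; positivity
    have h1 := h.euler_local hκ hγ hV hL T D hD hu x (j * η) η hη (by positivity) hj'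
    rw [← hC1] at h1 ih' ⊢
    set K := 4 * κ + γ with hK
    have hK0 : 0 ≤ K := by positivity
    set e := C1 * η * η * (j * (1 + K * η) ^ j) with he
    have he0 : 0 ≤ e := by positivity
    have h2 := rate_diff κ γ hκ hγ (u (x + 1) (j * η)) (u x (j * η)) (u (x - 1) (j * η))
      (V x (j * η)) (eu κ γ V η j (x + 1)) (eu κ γ V η j x) (eu κ γ V η j (x - 1)) (V x (j * η))
      e (|eu κ γ V η j x|) 0 (ih' _) (ih' _) (ih' _)
      (by have := hV x (j * η) (by positivity); rw [abs_of_nonneg this.1]; exact this.2)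
      (by simp) le_rfl le_rfl
    rw [mul_zero, zero_mul, add_zero] at h2
    have h3 : u x (((j + 1 : ℕ) : ℝ) * η) = u x (j * η + η) := by
      congr 1; push_cast; ring
    rw [h3]
    have h4 : ((j + 1 : ℕ) : ℝ) * (1 + K * η) ^ (j + 1)
        = (1 + K * η) * (j * (1 + K * η) ^ j) + (1 + K * η) ^ (j + 1) := by
      push_cast; ring
    have h5 : 1 ≤ (1 + K * η) ^ (j + 1) := one_le_pow₀ (by nlinarith [mul_nonneg hK0 hη])
    have h6 : C1 * η * η ≤ C1 * η * η * (1 + K * η) ^ (j + 1) :=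
      le_mul_of_one_le_right (by positivity) h5
    rw [h4]
    simp only [eu]
    have h7 := ih' x
    set A := u x (j * η + η)
    set B := u x (j * η)
    set R := κ * ((u (x + 1) (j * η) - B) + (u (x - 1) (j * η) - B)) + γ * V x (j * η) * B
    set R' := κ * ((eu κ γ V η j (x + 1) - eu κ γ V η j x)
      + (eu κ γ V η j (x - 1) - eu κ γ V η j x)) + γ * V x (j * η) * eu κ γ V η j x
    have h8 : |A - (eu κ γ V η j x + η * R')| ≤ |A - (B + η * R)| + |B - eu κ γ V η j x|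
        + η * |R - R'| := by
      have e1 : A - (eu κ γ V η j x + η * R') = (A - (B + η * R)) + (B - eu κ γ V η j x)
        + η * (R - R') := by ring
      rw [e1]
      refine (abs_add_le _ _).trans ?_
      rw [abs_mul, abs_of_nonneg hη]
      exact add_le_add_left (abs_add_le _ _) _
    have h9 : η * |R - R'| ≤ η * (K * e) := mul_le_mul_of_nonneg_left h2 hη
    have h10 : C1 * η * η * ((1 + K * η) * (j * (1 + K * η) ^ j) + (1 + K * η) ^ (j + 1))
        = (1 + K * η) * e + C1 * η * η * (1 + K * η) ^ (j + 1) := by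
      rw [he]; ring
    rw [h10]
    nlinarith

theorem eu_meas {Ω : Type*} [MeasurableSpace Ω] (κ γ : ℝ) (V : Ω → ℤ → ℝ → ℝ)
    (hm : ∀ x t, 0 ≤ t → Measurable fun ω => V ω x t) (h : ℝ) (hh : 0 ≤ h) (j : ℕ) :
    ∀ x, Measurable fun ω => eu κ γ (V ω) h j x := by
  induction j with
  | zero => intro x; exact measurable_const
  | succ j ih =>
    intro x
    simp only [eu]
    have h1 := ih x
    have h2 := ih (x + 1)
    have h3 := ih (x - 1)
    have h4 := hm x (j * h) (by positivity)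
    fun_prop

theorem solution_measurable {Ω : Type*} [MeasurableSpace Ω] {V u : Ω → ℤ → ℝ → ℝ}
    (hκ : 0 ≤ κ) (hγ : 0 ≤ γ)
    (hV : ∀ ω x t, 0 ≤ t → V ω x t ∈ Icc (0 : ℝ) 1)
    (hL : ∀ ω x s t, 0 ≤ s → 0 ≤ t → |V ω x s - V ω x t| ≤ |s - t|)
    (hm : ∀ x t, 0 ≤ t → Measurable fun ω => V ω x t)
    (hu : ∀ ω, IsSolution κ γ (V ω) (u ω)) (x : ℤ) {t : ℝ} (ht : 0 ≤ t) :
    Measurable fun ω => u ω x t := by
  have hlim : ∀ ω, Tendsto (fun n : ℕ => eu κ γ (V ω) (t / (n + 1 : ℕ)) (n + 1) x) atTop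
      (𝓝 (u ω x t)) := by
    intro ω
    set D := Real.exp (γ * t) with hD
    have hD0 : 0 ≤ D := (Real.exp_pos _).le
    have hb : ∀ x s, 0 ≤ s → s ≤ t → |u ω x s| ≤ D := by
      intro y s hs hst
      rw [abs_of_nonneg ((hu ω).nonneg hκ hγ (hV ω) y s hs)]
      refine ((hu ω).le_exp hκ hγ (hV ω) y s hs).trans ?_
      exact Real.exp_le_exp.2 (mul_le_mul_of_nonneg_left hst hγ)
    obtain ⟨C1, hC1⟩ : ∃ C1, C1 = ((4 * κ + γ) ^ 2 * D + γ * D) := ⟨_, rfl⟩
    have hC10 : 0 ≤ C1 := by rw [hC1]; positivity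
    have key : ∀ n : ℕ, |u ω x t - eu κ γ (V ω) (t / (n + 1 : ℕ)) (n + 1) x|
        ≤ C1 * t * t * Real.exp ((4 * κ + γ) * t) * (1 / ((n : ℝ) + 1)) := by
      intro n
      have hn : (0 : ℝ) < n + 1 := by positivity
      have e1 : ((n + 1 : ℕ) : ℝ) * (t / (n + 1 : ℕ)) = t := by
        field_simp
      have h1 := (hu ω).euler hκ hγ (hV ω) (hL ω) t D hD0 hb (t / (n + 1 : ℕ)) (by positivity)
        (n + 1) e1.le x
      rw [e1, ← hC1] at h1
      refine h1.trans ?_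
      have h2 : (1 + (4 * κ + γ) * (t / (n + 1 : ℕ))) ^ (n + 1) ≤ Real.exp ((4 * κ + γ) * t) := by
        have h3 : 1 + (4 * κ + γ) * (t / (n + 1 : ℕ))
            ≤ Real.exp ((4 * κ + γ) * (t / (n + 1 : ℕ))) := by
          have := Real.add_one_le_exp ((4 * κ + γ) * (t / (n + 1 : ℕ)))
          linarith
        calc _ ≤ Real.exp ((4 * κ + γ) * (t / (n + 1 : ℕ))) ^ (n + 1) :=
              pow_le_pow_left₀ (by positivity) h3 _
          _ = Real.exp ((4 * κ + γ) * t) := by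
              rw [← Real.exp_nat_mul]
              congr 1
              calc _ = (4 * κ + γ) * (((n + 1 : ℕ) : ℝ) * (t / (n + 1 : ℕ))) := by ring
                _ = _ := by rw [e1]
      have h4 : C1 * (t / (n + 1 : ℕ)) * (t / (n + 1 : ℕ)) * (((n + 1 : ℕ) : ℝ)
          * (1 + (4 * κ + γ) * (t / (n + 1 : ℕ))) ^ (n + 1))
          ≤ C1 * (t / (n + 1 : ℕ)) * (t / (n + 1 : ℕ)) * (((n + 1 : ℕ) : ℝ)
          * Real.exp ((4 * κ + γ) * t)) := by
        refine mul_le_mul_of_nonneg_left (mul_le_mul_of_nonneg_left h2 (by positivity)) ?_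
        positivity
      refine h4.trans (le_of_eq ?_)
      push_cast
      field_simp
    rw [tendsto_iff_norm_sub_tendsto_zero]
    have h5 : Tendsto (fun n : ℕ => C1 * t * t * Real.exp ((4 * κ + γ) * t) * (1 / ((n : ℝ) + 1)))
        atTop (𝓝 0) := by
      have := tendsto_one_div_add_atTop_nhds_zero_nat (𝕜 := ℝ)
      simpa using this.const_mul (C1 * t * t * Real.exp ((4 * κ + γ) * t))
    refine squeeze_zero (fun _ => norm_nonneg _) (fun n => ?_) h5
    rw [Real.norm_eq_abs, abs_sub_comm]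
    exact key n
  refine measurable_of_tendsto_metrizable (f := fun n ω =>
    eu κ γ (V ω) (t / (n + 1 : ℕ)) (n + 1) x) (fun n => eu_meas κ γ V hm _ (by positivity) _ x) ?_
  rw [tendsto_pi_nhds]
  exact hlim

end Pool.Agent.R508.PAM
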