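import Mathlib
import Pool.Agent.R508.PAMfield

set_option autoImplicit false

/-! Law of the random field: mean, stationarity, ergodicity
(helper508, MP_e6ac48_pr; proof by helper985). -/

open Set Filter Topology MeasureTheory

open scoped NNReal ENNReal

namespace Pool.Agent.R508.PAM

theorem ball_ratio (k : ℕ) : 2 * (rr (k + 1) + 1) ≤ (1 / 2 : ℝ) ^ (k + 4) * LL (k + 1) := by
  have h1 : (1 : ℝ) ≤ aa (k + 1) := by
    have : 1 ≤ aa (k + 1) := (LL_pos k).trans_le (LL_le_aa k)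
    exact_mod_cast this
  have h2 := cc_le k
  have h3 : (LL (k + 1) : ℝ) = (2 * (k + 1) + 3) * 2 ^ (k + 5) * aa (k + 1) := by
    rw [LL_succ]
    unfold MM
    push_cast
    ring
  rw [h3]
  have h4 : (1 / 2 : ℝ) ^ (k + 4) * ((2 * (k + 1) + 3) * 2 ^ (k + 5) * aa (k + 1))
      = 2 * (2 * (k + 1) + 3) * aa (k + 1) := by
    have : (1 / 2 : ℝ) ^ (k + 4) * 2 ^ (k + 4) = 1 := by
      rw [← mul_pow]; norm_num
    calc _ = ((1 / 2 : ℝ) ^ (k + 4) * 2 ^ (k + 4)) * (2 * (2 * (k + 1) + 3) * aa (k + 1)) := by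
          ring
      _ = _ := by rw [this, one_mul]
  rw [h4]
  unfold rr
  push_cast
  have hk : (0 : ℝ) ≤ k := Nat.cast_nonneg k
  have h5 : ((k : ℝ) + 1 + 1) * cc (k + 1) ≤ (k + 1 + 1) * (2 * aa (k + 1)) :=
    mul_le_mul_of_nonneg_left h2 (by linarith)
  nlinarith

theorem haar_pos_le (k : ℕ) : AddCircle.haarAddCircle {p : AddCircle (LL (k + 1) : ℝ) |
    0 < ff (k + 1) p} ≤ ENNReal.ofReal ((1 / 2 : ℝ) ^ (k + 4)) := by
  have hL : (0 : ℝ) < LL (k + 1) := by exact_mod_cast LL_pos (k + 1)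
  have h1 : {p : AddCircle (LL (k + 1) : ℝ) | 0 < ff (k + 1) p}
      ⊆ Metric.closedBall ((rr (k + 1) : ℝ) : AddCircle (LL (k + 1) : ℝ)) (rr (k + 1) + 1) := by
    intro p hp
    rw [mem_closedBall_iff_norm]
    by_contra hc
    push Not at hc
    have : ff (k + 1) p ≤ 0 := by
      unfold ff
      refine max_le le_rfl ((min_le_right _ _).trans ?_)
      linarith
    exact absurd hp (not_lt.2 this)
  refine (measure_mono h1).trans ?_
  have h2 : ENNReal.ofReal (LL (k + 1) : ℝ) * AddCircle.haarAddCircle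
      (Metric.closedBall ((rr (k + 1) : ℝ) : AddCircle (LL (k + 1) : ℝ)) (rr (k + 1) + 1))
      ≤ ENNReal.ofReal (LL (k + 1) : ℝ) * ENNReal.ofReal ((1 / 2 : ℝ) ^ (k + 4)) := by
    have h3 : ENNReal.ofReal (LL (k + 1) : ℝ) * AddCircle.haarAddCircle
      (Metric.closedBall ((rr (k + 1) : ℝ) : AddCircle (LL (k + 1) : ℝ)) (rr (k + 1) + 1))
      = volume (Metric.closedBall ((rr (k + 1) : ℝ) : AddCircle (LL (k + 1) : ℝ))
        (rr (k + 1) + 1)) := by
      rw [AddCircle.volume_eq_smul_haarAddCircle]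
      rfl
    rw [h3, AddCircle.volume_closedBall, ← ENNReal.ofReal_mul hL.le]
    refine ENNReal.ofReal_le_ofReal ((min_le_right _ _).trans ?_)
    rw [mul_comm (LL (k + 1) : ℝ)]
    exact ball_ratio k
  exact (ENNReal.mul_le_mul_iff_right (by simpa using (LL_pos (k + 1)).ne') ENNReal.ofReal_ne_top).1 h2

theorem PP_pos_le : PP {h : HH | 0 < FF (h : GG)} ≤ ENNReal.ofReal (1 / 8) := by
  have h1 : {h : HH | 0 < FF (h : GG)} ⊆ ⋃ k : ℕ, {h : HH | 0 < ff (k + 1) (coord (k + 1) h)} := by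
    intro h hh
    by_contra hc
    simp only [mem_iUnion, mem_ofPred_eq, not_exists, not_lt] at hc
    have : FF (h : GG) ≤ 0 := ciSup_le fun k => hc k
    exact absurd hh (not_lt.2 this)
  refine (measure_mono h1).trans ((measure_iUnion_le _).trans ?_)
  have h2 : ∀ k : ℕ, PP {h : HH | 0 < ff (k + 1) (coord (k + 1) h)}
      ≤ ENNReal.ofReal ((1 / 2 : ℝ) ^ (k + 4)) := by
    intro k
    have h3 := haar_pos_le k
    rw [← map_coord (k + 1), Measure.map_apply (coord_cont (k + 1)).measurable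
      (measurableSet_lt measurable_const (ff_cont (k + 1)).measurable)] at h3
    exact h3
  refine (ENNReal.tsum_le_tsum h2).trans ?_
  rw [← ENNReal.ofReal_tsum_of_nonneg (fun k => by positivity)]
  · refine ENNReal.ofReal_le_ofReal (le_of_eq ?_)
    have : ∀ k : ℕ, (1 / 2 : ℝ) ^ (k + 4) = (1 / 16) * (1 / 2 : ℝ) ^ k := by
      intro k; rw [pow_add]; norm_num; ring
    simp_rw [this]
    rw [tsum_mul_left, tsum_geometric_two]
    norm_num
  · exact (summable_nat_add_iff 4).2 summable_geometric_two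

/-- the mean -/
theorem integral_FF_le : ∫ h : HH, FF (h : GG) ∂PP ≤ 1 / 8 := by
  have hm : Measurable fun h : HH => FF (h : GG) := FF_meas.comp measurable_subtype_coe
  have hS : MeasurableSet {h : HH | 0 < FF (h : GG)} := measurableSet_lt measurable_const hm
  have h1 : ∀ h : HH, FF (h : GG) ≤ ({h : HH | 0 < FF (h : GG)}.indicator (fun _ => (1 : ℝ))) h := by
    intro h
    by_cases hh : 0 < FF (h : GG)
    · rw [indicator_of_mem (by exact hh)]
      exact FF_le _
    · rw [indicator_of_notMem (by exact hh)]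
      exact not_lt.1 hh
  have h2 : Integrable (fun h : HH => FF (h : GG)) PP :=
    Integrable.of_bound hm.aestronglyMeasurable 1
      (ae_of_all _ fun h => by rw [Real.norm_eq_abs, abs_of_nonneg (FF_nonneg _)]; exact FF_le _)
  have h3 : Integrable ({h : HH | 0 < FF (h : GG)}.indicator (fun _ => (1 : ℝ))) PP :=
    (integrable_const 1).indicator hS
  refine (integral_mono h2 h3 h1).trans ?_
  rw [integral_indicator hS, setIntegral_const, smul_eq_mul, mul_one]
  exact ENNReal.toReal_le_of_le_ofReal (by norm_num) PP_pos_le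

/-! ### the field with nonnegative times -/

/-- the space of fields -/
abbrev Field' : Type := ℤ → ℝ≥0 → ℝ

/-- the random field -/
noncomputable def xi (h : HH) : Field' := fun x t => xr h x t

theorem xi_meas : Measurable xi :=
  measurable_pi_lambda _ fun x => measurable_pi_lambda _ fun t => xr_meas x t

/-- space-time shift of a field -/
def shiftF (z : ℤ) (s : ℝ≥0) (φ : Field') : Field' := fun x t => φ (x + z) (t + s)

theorem shiftF_meas (z : ℤ) (s : ℝ≥0) : Measurable (shiftF z s) :=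
  measurable_pi_lambda _ fun x => measurable_pi_lambda _ fun t =>
    (measurable_pi_apply (t + s)).comp (measurable_pi_apply (x + z))

theorem shiftF_xi (z : ℤ) (s : ℝ≥0) (h : HH) : shiftF z s (xi h) = xi (sh z s + h) := by
  funext x t
  rw [add_comm]
  simp only [shiftF, xi]
  rw [xr_shift]
  simp

theorem mp_add (g : HH) : MeasurePreserving (fun h => g + h) PP PP :=
  measurePreserving_add_left PP g

theorem map_shift (z : ℤ) (s : ℝ≥0) : (PP.map xi).map (shiftF z s) = PP.map xi := by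
  rw [Measure.map_map (shiftF_meas z s) xi_meas]
  have : shiftF z s ∘ xi = xi ∘ fun h => sh z s + h := by
    funext h
    exact shiftF_xi z s h
  rw [this, ← Measure.map_map xi_meas (mp_add _).measurable, (mp_add _).map_eq]

instance : SecondCountableTopology HH :=
  TopologicalSpace.Subtype.secondCountableTopology (HH : Set GG)

instance : MeasurableAdd₂ HH := by infer_instance

instance : ErgodicVAdd HH HH PP := by infer_instance

/-- general ergodicity statement -/
theorem ergodic_aux (B : Set HH) (hB : MeasurableSet B)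
    (hd : Dense {g : HH | (fun h => g + h) ⁻¹' B =ᵐ[PP] B}) : PP B = 0 ∨ PP B = 1 := by
  have h1 : Filter.EventuallyConst B (ae PP) :=
    aeconst_of_dense_setOfPred_preimage_vadd_ae (M := HH) (X := HH) (μ := PP) hB.nullMeasurableSet hd
  rw [Filter.eventuallyConst_set'] at h1
  rcases h1 with h1 | h1
  · left
    rw [measure_congr h1]
    simp
  · right
    rw [measure_congr h1]
    simp

theorem neg_inv (B : Set HH) (g : HH) (hg : (fun h => g + h) ⁻¹' B =ᵐ[PP] B) :
    (fun h => -g + h) ⁻¹' B =ᵐ[PP] B := by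
  have h1 := (mp_add (-g)).quasiMeasurePreserving.preimage_ae_eq hg
  rw [← preimage_comp] at h1
  have h2 : (fun h => g + h) ∘ (fun h => -g + h) = id := by
    funext h
    simp
  rw [h2, preimage_id] at h1
  exact h1.symm

theorem sh_zero_neg (s : ℝ) : sh 0 (-s) = -sh 0 s := by
  ext1
  show (0 : ℤ) • gg + tau (-s) = -((0 : ℤ) • gg + tau s)
  simp

theorem xi_preimage (z : ℤ) (s : ℝ≥0) (A : Set Field')
    (hA : shiftF z s ⁻¹' A =ᵐ[PP.map xi] A) :
    (fun h => sh z s + h) ⁻¹' (xi ⁻¹' A) =ᵐ[PP] xi ⁻¹' A := by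
  have h1 : (fun h => sh z s + h) ⁻¹' (xi ⁻¹' A) = xi ⁻¹' (shiftF z s ⁻¹' A) := by
    ext h
    simp only [mem_preimage]
    rw [shiftF_xi]
  rw [h1]
  have h2 : MeasurePreserving xi PP (PP.map xi) := ⟨xi_meas, rfl⟩
  exact h2.quasiMeasurePreserving.preimage_ae_eq hA

theorem erg_time (A : Set Field') (hA : MeasurableSet A)
    (hinv : ∀ s : ℝ≥0, shiftF 0 s ⁻¹' A =ᵐ[PP.map xi] A) :
    (PP.map xi) A = 0 ∨ (PP.map xi) A = 1 := by
  rw [Measure.map_apply xi_meas hA]
  refine ergodic_aux _ (xi_meas hA) ?_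
  have h1 : ∀ s : ℝ, (fun h => sh 0 s + h) ⁻¹' (xi ⁻¹' A) =ᵐ[PP] xi ⁻¹' A := by
    intro s
    rcases le_total 0 s with hs | hs
    · exact xi_preimage 0 ⟨s, hs⟩ A (hinv _)
    · have h2 := xi_preimage 0 ⟨-s, by linarith⟩ A (hinv _)
      have h3 := neg_inv _ _ h2
      have h4 : sh 0 s = -sh 0 ((⟨-s, by linarith⟩ : ℝ≥0) : ℝ) := by
        rw [← sh_zero_neg]
        simp
      rw [h4]
      exact h3
  rw [Subtype.dense_iff]
  intro x hx
  have hx' : x ∈ closure ((AddMonoidHom.range tau : AddSubgroup GG) : Set GG) := hx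
  refine closure_mono ?_ hx'
  rintro _ ⟨s, rfl⟩
  refine ⟨sh 0 s, h1 s, ?_⟩
  show (0 : ℤ) • gg + tau s = tau s
  simp

theorem erg_space (A : Set Field') (hA : MeasurableSet A)
    (hinv : ∀ z : ℤ, shiftF z 0 ⁻¹' A =ᵐ[PP.map xi] A) :
    (PP.map xi) A = 0 ∨ (PP.map xi) A = 1 := by
  rw [Measure.map_apply xi_meas hA]
  refine ergodic_aux _ (xi_meas hA) ?_
  rw [Subtype.dense_iff]
  intro x hx
  refine closure_mono ?_ (dense_gg x hx)
  rintro _ ⟨z, rfl⟩
  refine ⟨sh z ((0 : ℝ≥0) : ℝ), xi_preimage z 0 A (hinv z), ?_⟩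
  show z • gg + tau ((0 : ℝ≥0) : ℝ) = z • gg
  simp

theorem ae_all_x (c : ℝ) (hc : ∀ᵐ h ∂PP, xi h 0 0 = c) : ∀ᵐ h ∂PP, ∀ x : ℤ, xi h x 0 = c := by
  rw [ae_all_iff]
  intro x
  have h1 := (mp_add (sh x ((0 : ℝ≥0) : ℝ))).quasiMeasurePreserving.ae hc
  filter_upwards [h1] with h hh
  rw [← shiftF_xi] at hh
  simpa [shiftF] using hh

theorem integral_xi_le : ∫ h : HH, xi h 0 0 ∂PP ≤ 1 / 8 := by
  refine le_trans (le_of_eq ?_) integral_FF_le
  congr 1
  funext h
  simp [xi, xr]

theorem not_const (c : ℝ) : ¬ ∀ᵐ h ∂PP, xi h 0 0 = c := by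
  intro hc
  obtain ⟨h, hh⟩ := (ae_all_x c hc).exists
  obtain ⟨x, _, hx⟩ := xr_block h 0 0 le_rfl
  have h1 : c = 1 := by
    have := hx x (by simp) 0 ⟨le_rfl, by have := cc_pos 1; simpa using this.le⟩
    rw [← hh x]
    simpa [xi] using this
  have h2 : ∫ h : HH, xi h 0 0 ∂PP = c := by
    rw [integral_congr_ae hc]
    simp
  have h3 := integral_xi_le
  rw [h2, h1] at h3
  norm_num at h3

theorem integrable_xi : Integrable (fun h => xi h 0 0) PP :=
  Integrable.of_bound (xr_meas 0 _).aestronglyMeasurable 1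
    (ae_of_all _ fun h => by
      have := xr_mem h 0 ((0 : ℝ≥0) : ℝ)
      have e : xi h 0 0 = xr h 0 ((0 : ℝ≥0) : ℝ) := rfl
      rw [e, Real.norm_eq_abs, abs_of_nonneg this.1]
      exact this.2)

end Pool.Agent.R508.PAM
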