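import Mathlib
import Pool.Agent.R508.GoodIndex

set_option autoImplicit false

namespace Pool.Agent.R508

open Finset Filter Topology Pool.Agent.Y884.GR

/-- **Distinct moduli for the pairs of a tuple.** -/
theorem pair_family {k : ℕ} (hMT : MTall 2 k) (m : Fin k → Fin k → ℕ)
    (h1 : ∀ i j, i < j → 1 ≤ m i j)
    (h2 : ∀ i j, i < j → Nat.Coprime (m i j) (2 * (k + 1).factorial))
    (h3 : ∀ i j i' j', i < j → i' < j' → (i, j) ≠ (i', j') → Nat.Coprime (m i j) (m i' j'))
    (N : ℕ) : ∃ κ : ℕ, N ≤ κ ∧ ∃ i j : Fin k, i < j ∧ 2 * m i j ∣ S κ := by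
  classical
  set M : Fin k → ℕ := fun j => ∏ i ∈ univ.filter (fun i => i < j), m i j with hM
  have hMpos : ∀ j, 0 < M j := fun j => prod_pos fun i hi => h1 i j (mem_filter.1 hi).2
  have hMdvd : ∀ i j, i < j → m i j ∣ M j := fun i j hij =>
    dvd_prod_of_mem (fun i => m i j) (mem_filter.2 ⟨mem_univ _, hij⟩)
  have hMF : ∀ j, Nat.Coprime (M j) (2 * (k + 1).factorial) := fun j =>
    Nat.Coprime.prod_left fun i hi => h2 i j (mem_filter.1 hi).2
  have hMM : ∀ j j', j ≠ j' → Nat.Coprime (M j) (M j') := by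
    intro j j' hjj
    apply Nat.Coprime.prod_left
    intro i hi
    apply Nat.Coprime.prod_right
    intro i' hi'
    exact h3 i j i' j' (mem_filter.1 hi).2 (mem_filter.1 hi').2 (fun h => hjj (Prod.mk.inj h).2)
  set F := 2 * (k + 1).factorial with hF
  have hF0 : 0 < F := by
    have := Nat.factorial_pos (k + 1)
    rw [hF]; positivity
  set Z := F * ∏ j, M j with hZ
  have hZ0 : 0 < Z := Nat.mul_pos hF0 (prod_pos fun j _ => hMpos j)
  set Y : Fin k → ℕ := fun j => F * ∏ j' ∈ univ.erase j, M j' with hY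
  have hZY : ∀ j, Z = M j * Y j := by
    intro j
    rw [hZ, hY, ← mul_prod_erase univ M (mem_univ j)]
    ring
  have hMY : ∀ j, Nat.Coprime (M j) (Y j) := by
    intro j
    rw [hY]
    refine Nat.Coprime.mul_right (hMF j) (Nat.Coprime.prod_right fun j' hj' => ?_)
    exact hMM j j' (ne_of_mem_erase hj').symm
  have hFY : ∀ j, F ∣ Y j := fun j => dvd_mul_right _ _
  have hmY : ∀ i j, i < j → m i j ∣ Y i := by
    intro i j hij
    refine (hMdvd i j hij).trans ?_
    refine Dvd.dvd.mul_left ?_ F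
    exact dvd_prod_of_mem M (mem_erase.2 ⟨hij.ne', mem_univ j⟩)
  -- the offsets
  have hA : ∀ j, ∃ A : ℕ, M j ∣ A + 2 ∧ Y j ∣ A := by
    intro j
    obtain ⟨A, hA1, hA2⟩ := Nat.chineseRemainder (hMY j) (2 * M j - 2) 0
    refine ⟨A, ?_, (Nat.modEq_zero_iff_dvd).1 hA2⟩
    have h4 : A + 2 ≡ 2 * M j - 2 + 2 [MOD M j] := Nat.ModEq.add_right 2 hA1
    have h5 : 2 * M j - 2 + 2 = M j * 2 := by
      have := hMpos j
      omega
    rw [h5] at h4
    exact (Nat.modEq_zero_iff_dvd).1 (h4.trans ((Nat.modEq_zero_iff_dvd).2 (dvd_mul_right _ _)))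
  choose A hA1 hA2 using hA
  set D : Fin k → ℕ := fun j => A j % Z + j * Z with hD
  have hDA : ∀ j, ∀ d, d ∣ Z → ∀ c, (d ∣ D j + c ↔ d ∣ A j + c) := by
    intro j d hd c
    have h4 : D j + c ≡ A j + c [MOD d] := by
      apply Nat.ModEq.add_right
      rw [hD]
      have h5 : A j % Z ≡ A j [MOD d] := (Nat.mod_modEq (A j) Z).of_dvd hd
      have h6 : (j : ℕ) * Z ≡ 0 [MOD d] := (Nat.modEq_zero_iff_dvd).2 (hd.mul_left _)
      simpa using h5.add h6
    exact h4.dvd_iff dvd_rfl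
  have hYZ : ∀ j, Y j ∣ Z := fun j => by rw [hZY j]; exact dvd_mul_left _ _
  have hMZ : ∀ j, M j ∣ Z := fun j => by rw [hZY j]; exact dvd_mul_right _ _
  have hDY : ∀ j, Y j ∣ D j := by
    intro j
    have := (hDA j (Y j) (hYZ j) 0).2 (by simpa using hA2 j)
    simpa using this
  have hDM : ∀ j, M j ∣ D j + 2 := fun j => (hDA j (M j) (hMZ j) 2).2 (hA1 j)
  have hmono : StrictMono D := by
    intro i j hij
    rw [hD]
    have h4 : A i % Z < Z := Nat.mod_lt _ hZ0
    have h5 : (i : ℕ) + 1 ≤ j := hij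
    have h6 := Nat.mul_le_mul_right Z h5
    have h7 : ((i : ℕ) + 1) * Z = i * Z + Z := by ring
    simp only
    omega
  have hcop : ∀ j, Nat.Coprime (1 + D j) Z := by
    intro j
    rw [hZY j]
    apply Nat.Coprime.mul_right
    · have h4 : Nat.Coprime (1 + D j) (D j + 2) := by
        have : D j + 2 = (1 + D j) + 1 := by ring
        rw [this]
        simp
      exact h4.coprime_dvd_right (hDM j)
    · have h4 : Nat.Coprime (1 + D j) (D j) := by simp
      exact h4.coprime_dvd_right (hDY j)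
  obtain ⟨κ, hκ, i, j, hij, x, hx⟩ := two_primes hMT D hmono Z hZ0 hcop (by
    intro p hp hpk
    have h4 : p ∣ (k + 1).factorial := (hp.dvd_factorial).2 hpk
    exact (h4.trans (dvd_mul_left _ 2)).trans (dvd_mul_right _ _)) N
  refine ⟨κ, hκ, i, j, hij, ?_⟩
  rw [hx]
  have h2m : Nat.Coprime 2 (m i j) := by
    have h4 := h2 i j hij
    exact (h4.coprime_dvd_right (dvd_mul_right 2 _)).symm
  apply Nat.Coprime.mul_dvd_of_dvd_of_dvd h2m
  · have e1 : 2 ∣ Z := (dvd_mul_right 2 _).trans (dvd_mul_right F _)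
    have e2 : 2 ∣ D i := ((dvd_mul_right 2 _).trans (hFY i)).trans (hDY i)
    have e3 : 2 ∣ D j := ((dvd_mul_right 2 _).trans (hFY j)).trans (hDY j)
    have e4 : 2 ∣ Z * x := e1.mul_right x
    omega
  · have e1 : m i j ∣ Z := (hMdvd i j hij).trans (hMZ j)
    have e2 : m i j ∣ D i := (hmY i j hij).trans (hDY i)
    have e3 : m i j ∣ D j + 2 := (hMdvd i j hij).trans (hDM j)
    have e4 : Z * x + (2 + D i + D j) = Z * x + (D i + (D j + 2)) := by ring
    rw [e4]
    exact dvd_add (e1.mul_right x) (dvd_add e2 e3)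

/-- A sequence of indices with a given property and coprime half sums. -/
theorem seq_family (P : ℕ → Prop) (F : ℕ) (hF : 0 < F)
    (hP : ∀ R : ℕ, 1 ≤ R → ∃ n, P n ∧ (∃ h, S n = 2 * h ∧ 1 ≤ h ∧ Nat.Coprime h (2 * R))) (T : ℕ) :
    ∃ g h : ℕ → ℕ, (∀ a < T, P (g a) ∧ S (g a) = 2 * h a ∧ 1 ≤ h a ∧ Nat.Coprime (h a) (2 * F)) ∧
      ∀ a < T, ∀ b < T, a ≠ b → Nat.Coprime (h a) (h b) := by
  classical
  induction T with
  | zero => exact ⟨fun _ => 0, fun _ => 0, by simp, by simp⟩
  | succ T ih =>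
    obtain ⟨g, h, ih1, ih2⟩ := ih
    obtain ⟨n, hn, h', hh1, hh2, hh3⟩ := hP (F * ∏ a ∈ range T, h a) (Nat.mul_pos hF
      (prod_pos fun a ha => (ih1 a (mem_range.1 ha)).2.2.1))
    have hcF : Nat.Coprime h' (2 * F) := hh3.coprime_dvd_right
      (mul_dvd_mul_left 2 (dvd_mul_right _ _))
    have hca : ∀ a < T, Nat.Coprime h' (h a) := fun a ha => hh3.coprime_dvd_right
      (((dvd_prod_of_mem h (mem_range.2 ha)).mul_left F).mul_left 2)
    refine ⟨Function.update g T n, Function.update h T h', ?_, ?_⟩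
    · intro a ha
      rcases Nat.lt_succ_iff_lt_or_eq.1 ha with ha | rfl
      · rw [Function.update_of_ne ha.ne, Function.update_of_ne ha.ne]
        exact ih1 a ha
      · rw [Function.update_self, Function.update_self]
        exact ⟨hn, hh1, hh2, hcF⟩
    · intro a ha b hb hab
      rcases Nat.lt_succ_iff_lt_or_eq.1 ha with ha | rfl
      · rcases Nat.lt_succ_iff_lt_or_eq.1 hb with hb | rfl
        · rw [Function.update_of_ne ha.ne, Function.update_of_ne hb.ne]
          exact ih2 a ha b hb hab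
        · rw [Function.update_of_ne ha.ne, Function.update_self]
          exact (hca a ha).symm
      · rcases Nat.lt_succ_iff_lt_or_eq.1 hb with hb | rfl
        · rw [Function.update_self, Function.update_of_ne hb.ne]
          exact hca b hb
        · exact absurd rfl hab

/-- **Main combination.** A property of indices which can be met with half sums coprime to
any given number holds for an index `n` such that `S n` divides `S κ` for arbitrarily large `κ`. -/
theorem main_comb (P : ℕ → Prop)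
    (hP : ∀ R : ℕ, 1 ≤ R → ∃ n, P n ∧ (∃ h, S n = 2 * h ∧ 1 ≤ h ∧ Nat.Coprime h (2 * R))) :
    ∃ n, P n ∧ ∀ N, ∃ κ, N ≤ κ ∧ S n ∣ S κ := by
  classical
  obtain ⟨k, hk, hMT⟩ := maynardTaoAll 1 le_rfl
  obtain ⟨g, h, hg1, hg2⟩ := seq_family P (k + 1).factorial (Nat.factorial_pos _) hP (k * k)
  have hidx : ∀ i j : Fin k, (i : ℕ) * k + j < k * k := by
    intro i j
    have h1 : (i : ℕ) + 1 ≤ k := i.2
    have h2 := Nat.mul_le_mul_right k h1
    have h3 := j.2
    have h4 : ((i : ℕ) + 1) * k = i * k + k := by ring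
    omega
  have hinj : ∀ i j i' j' : Fin k, (i : ℕ) * k + j = i' * k + j' → (i, j) = (i', j') := by
    intro i j i' j' he
    have hk0 : 0 < k := by omega
    have e1 : ((i : ℕ) * k + j) / k = i := by
      rw [mul_comm, Nat.mul_add_div hk0, Nat.div_eq_of_lt j.2, add_zero]
    have e2 : ((i' : ℕ) * k + j') / k = i' := by
      rw [mul_comm, Nat.mul_add_div hk0, Nat.div_eq_of_lt j'.2, add_zero]
    have e3 : (i : ℕ) = i' := by rw [← e1, ← e2, he]
    have e4 : (j : ℕ) = j' := by rw [e3] at he; omega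
    exact Prod.ext (Fin.ext e3) (Fin.ext e4)
  have hfam := pair_family hMT (fun i j => h (i * k + j))
    (fun i j _ => (hg1 _ (hidx i j)).2.2.1)
    (fun i j _ => (hg1 _ (hidx i j)).2.2.2)
    (fun i j i' j' _ _ hne => hg2 _ (hidx i j) _ (hidx i' j') fun he => hne (hinj i j i' j' he))
  -- pigeonhole
  by_contra hcon
  push Not at hcon
  have hcon' : ∀ i j : Fin k, ∃ N, ∀ κ, N ≤ κ → ¬ S (g (i * k + j)) ∣ S κ := fun i j =>
    hcon _ (hg1 _ (hidx i j)).1
  choose N hN using hcon'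
  obtain ⟨κ, hκ, i, j, hij, hd⟩ := hfam (∑ i, ∑ j, N i j)
  have h1 : N i j ≤ κ := by
    refine le_trans ?_ hκ
    have e1 : N i j ≤ ∑ j, N i j := single_le_sum (f := fun j => N i j) (fun _ _ => Nat.zero_le _)
      (mem_univ j)
    have e2 : ∑ j, N i j ≤ ∑ i, ∑ j, N i j := single_le_sum (f := fun i => ∑ j, N i j)
      (fun _ _ => Nat.zero_le _) (mem_univ i)
    omega
  refine hN i j κ h1 ?_
  rw [(hg1 _ (hidx i j)).2.1]
  exact hd

end Pool.Agent.R508
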