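import Mathlib

namespace Pool.Agent.R508.SLLaurent

set_option linter.unusedSimpArgs false

open LaurentPolynomial Polynomial Matrix

/-- The data needed for the construction. -/
structure GoodW (W : Type) [Group W] (Y : Subgroup W) (k : W) : Prop where
  fg : ∃ S : Set W, S.Finite ∧ Subgroup.closure S = ⊤
  coatom : IsCoatom Y
  core : Y.normalCore = ⊥
  ksq : k * k = 1
  kY : k ∉ Y
  nomin : ∀ N : Subgroup W, N.Normal → N ≠ ⊥ → ∃ Q : Subgroup W, Q.Normal ∧ Q ≠ ⊥ ∧ Q < N

abbrev R : Type := LaurentPolynomial (ZMod 2)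

abbrev SL (A : Type) [CommRing A] : Type := Matrix.SpecialLinearGroup (Fin 2) A

section General

variable {A : Type} [CommRing A]

def mk (a b c d : A) (h : a * d - b * c = 1) : SL A := ⟨!![a, b; c, d], by
  rw [Matrix.det_fin_two_of]; exact h⟩

theorem ext4 {x y : SL A} (h1 : x.1 0 0 = y.1 0 0) (h2 : x.1 0 1 = y.1 0 1)
    (h3 : x.1 1 0 = y.1 1 0) (h4 : x.1 1 1 = y.1 1 1) : x = y := by
  apply Subtype.ext
  ext i j
  fin_cases i <;> fin_cases j
  · exact h1
  · exact h2
  · exact h3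
  · exact h4

theorem mul00 (x y : SL A) : (x * y).1 0 0 = x.1 0 0 * y.1 0 0 + x.1 0 1 * y.1 1 0 := by
  show (x.1 * y.1) 0 0 = _
  rw [Matrix.mul_apply, Fin.sum_univ_two]
theorem mul01 (x y : SL A) : (x * y).1 0 1 = x.1 0 0 * y.1 0 1 + x.1 0 1 * y.1 1 1 := by
  show (x.1 * y.1) 0 1 = _
  rw [Matrix.mul_apply, Fin.sum_univ_two]
theorem mul10 (x y : SL A) : (x * y).1 1 0 = x.1 1 0 * y.1 0 0 + x.1 1 1 * y.1 1 0 := by
  show (x.1 * y.1) 1 0 = _
  rw [Matrix.mul_apply, Fin.sum_univ_two]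
theorem mul11 (x y : SL A) : (x * y).1 1 1 = x.1 1 0 * y.1 0 1 + x.1 1 1 * y.1 1 1 := by
  show (x.1 * y.1) 1 1 = _
  rw [Matrix.mul_apply, Fin.sum_univ_two]

theorem det4 (x : SL A) : x.1 0 0 * x.1 1 1 - x.1 0 1 * x.1 1 0 = 1 := by
  have := x.2
  rwa [Matrix.det_fin_two] at this

theorem one00 : (1 : SL A).1 0 0 = 1 := rfl
theorem one01 : (1 : SL A).1 0 1 = 0 := rfl
theorem one10 : (1 : SL A).1 1 0 = 0 := rfl
theorem one11 : (1 : SL A).1 1 1 = 1 := rfl

/-- upper elementary matrices -/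
def E (f : A) : SL A := mk 1 f 0 1 (by ring)
/-- lower elementary matrices -/
def Fm (f : A) : SL A := mk 1 0 f 1 (by ring)

theorem E00 (f : A) : (E f).1 0 0 = 1 := rfl
theorem E01 (f : A) : (E f).1 0 1 = f := rfl
theorem E10 (f : A) : (E f).1 1 0 = 0 := rfl
theorem E11 (f : A) : (E f).1 1 1 = 1 := rfl
theorem F00 (f : A) : (Fm f).1 0 0 = 1 := rfl
theorem F01 (f : A) : (Fm f).1 0 1 = 0 := rfl
theorem F10 (f : A) : (Fm f).1 1 0 = f := rfl
theorem F11 (f : A) : (Fm f).1 1 1 = 1 := rfl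

theorem E_add (f g : A) : E (f + g) = E f * E g := by
  apply ext4 <;> simp only [mul00, mul01, mul10, mul11, E00, E01, E10, E11] <;> ring

theorem E_zero : E (0 : A) = 1 := by
  apply ext4 <;> rfl

theorem F_add (f g : A) : Fm (f + g) = Fm f * Fm g := by
  apply ext4 <;> simp only [mul00, mul01, mul10, mul11, F00, F01, F10, F11] <;> ring

/-- the Weyl element `(0 1; -1 0)` -/
def w : SL A := E 1 * Fm (-1) * E 1

theorem w00 : (w : SL A).1 0 0 = 0 := by
  simp only [w, mul00, mul01, mul10, mul11, E00, E01, E10, E11, F00, F01, F10, F11]; ring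
theorem w01 : (w : SL A).1 0 1 = 1 := by
  simp only [w, mul00, mul01, mul10, mul11, E00, E01, E10, E11, F00, F01, F10, F11]; ring
theorem w10 : (w : SL A).1 1 0 = -1 := by
  simp only [w, mul00, mul01, mul10, mul11, E00, E01, E10, E11, F00, F01, F10, F11]; ring
theorem w11 : (w : SL A).1 1 1 = 0 := by
  simp only [w, mul00, mul01, mul10, mul11, E00, E01, E10, E11, F00, F01, F10, F11]; ring

theorem w_conj (f : A) : w * E f * w⁻¹ = Fm (-f) := by
  rw [mul_inv_eq_iff_eq_mul]
  apply ext4 <;> simp only [mul00, mul01, mul10, mul11, E00, E01, E10, E11, F00, F01, F10, F11,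
    w00, w01, w10, w11] <;> ring

end General

theorem two_eq : (2 : R) = 0 := by
  have h : (2 : ZMod 2) = 0 := by decide
  have h2 : (2 : R) = algebraMap (ZMod 2) R (2 : ZMod 2) := by
    rw [map_ofNat]
  rw [h2, h, map_zero]

theorem neg_eq (f : R) : -f = f := by
  have := two_eq
  linear_combination (-f) * this

theorem neg_eq' (f : (ZMod 2)[X]) : -f = f := CharTwo.neg_eq f

/-- diagonal matrices -/
noncomputable def D (n : ℤ) : SL R := mk (T n) 0 0 (T (-n)) (by
  rw [← T_add]; simp)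

theorem D00 (n : ℤ) : (D n).1 0 0 = T n := rfl
theorem D01 (n : ℤ) : (D n).1 0 1 = 0 := rfl
theorem D10 (n : ℤ) : (D n).1 1 0 = 0 := rfl
theorem D11 (n : ℤ) : (D n).1 1 1 = T (-n) := rfl

theorem TT (n : ℤ) : (T n * T (-n) : R) = 1 := by rw [← T_add]; simp

/-- Conjugation of upper elementary matrices by upper triangular matrices. -/
theorem conj_E {u : SL R} {i : ℤ} (h0 : u.1 0 0 = T i) (h1 : u.1 1 0 = 0) (h2 : u.1 1 1 = T (-i))
    (f : R) : u * E f * u⁻¹ = E (T (2 * i) * f) := by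
  rw [mul_inv_eq_iff_eq_mul]
  have h3 : (T (2 * i) : R) * T (-i) = T i := by rw [← T_add]; congr 1; ring
  apply ext4 <;> simp only [mul00, mul01, mul10, mul11, E00, E01, E10, E11, h0, h1, h2]
  · ring
  · linear_combination (-f) * h3
  · ring
  · ring

theorem D_eq (n : ℤ) : D n = E (T n) * Fm (-T (-n)) * E (T n) * w⁻¹ := by
  rw [eq_mul_inv_iff_mul_eq]
  have := TT n
  apply ext4 <;> simp only [mul00, mul01, mul10, mul11, E00, E01, E10, E11, F00, F01, F10, F11,
    w00, w01, w10, w11, D00, D01, D10, D11]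
  · linear_combination this
  · linear_combination (T n) * this
  · linear_combination (0 : R) * this
  · linear_combination this

/-- Units of `F₂[X]`. -/
theorem unit_eq {p : (ZMod 2)[X]} (h : IsUnit p) : p = 1 := by
  obtain ⟨c, hc, rfl⟩ := Polynomial.isUnit_iff.1 h
  have : c = 1 := by
    have h2 := hc.ne_zero
    revert h2
    clear hc h
    revert c
    decide
  rw [this, Polynomial.C_1]

/-- The subgroup generated by elementary matrices with polynomial entries. -/
noncomputable def EP : Subgroup (SL R) :=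
  Subgroup.closure ({x | ∃ p : (ZMod 2)[X], x = E (toLaurent p)} ∪
    {x | ∃ p : (ZMod 2)[X], x = Fm (toLaurent p)})

theorem E_mem_EP (p : (ZMod 2)[X]) : E (toLaurent p) ∈ EP :=
  Subgroup.subset_closure (Or.inl ⟨p, rfl⟩)

theorem F_mem_EP (p : (ZMod 2)[X]) : Fm (toLaurent p) ∈ EP :=
  Subgroup.subset_closure (Or.inr ⟨p, rfl⟩)

theorem w_mem_EP : (w : SL R) ∈ EP := by
  have h1 : E (1 : R) ∈ EP := by simpa using E_mem_EP 1
  have h2 : Fm (-1 : R) ∈ EP := by simpa using F_mem_EP (-1)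
  exact EP.mul_mem (EP.mul_mem h1 h2) h1

theorem euclid (a b : (ZMod 2)[X]) : ∃ y ∈ EP, ∃ g : (ZMod 2)[X],
    y.1 0 0 * toLaurent b + y.1 0 1 * toLaurent a = toLaurent g ∧
    y.1 1 0 * toLaurent b + y.1 1 1 * toLaurent a = 0 := by
  induction a, b using EuclideanDomain.GCD.induction with
  | H0 x =>
    exact ⟨1, EP.one_mem, x, by simp [one00, one01], by simp [one10, one11]⟩
  | H1 a b ha ih =>
    obtain ⟨y, hy, g, h1, h2⟩ := ih
    have hdiv : toLaurent (b % a) = toLaurent b - toLaurent a * toLaurent (b / a) := by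
      rw [← map_mul, ← map_sub]
      congr 1
      exact EuclideanDomain.mod_eq_sub_mul_div b a
    refine ⟨y * w * E (toLaurent (-(b / a))), EP.mul_mem (EP.mul_mem hy w_mem_EP) (E_mem_EP _),
      g, ?_, ?_⟩
    · simp only [mul00, mul01, E00, E01, E10, E11, w00, w01, w10, w11]
      rw [hdiv] at h1
      rw [map_neg]
      have e := neg_eq (y.1 0 1 * (toLaurent b - toLaurent a * toLaurent (b / a)))
      linear_combination h1 + e
    · simp only [mul10, mul11, E00, E01, E10, E11, w00, w01, w10, w11]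
      rw [hdiv] at h2
      rw [map_neg]
      have e := neg_eq (y.1 1 1 * (toLaurent b - toLaurent a * toLaurent (b / a)))
      linear_combination h2 + e

theorem reduce (x : SL R) : ∃ y ∈ EP, ∃ i : ℤ, (y * x).1 0 0 = T i ∧ (y * x).1 1 0 = 0 ∧
    (y * x).1 1 1 = T (-i) := by
  obtain ⟨n, p, hp⟩ := exists_T_pow (x.1 0 0)
  obtain ⟨m, q, hq⟩ := exists_T_pow (x.1 1 0)
  obtain ⟨y, hy, g, h1, h2⟩ := euclid (q * X ^ n) (p * X ^ m)
  have e1 : toLaurent (p * X ^ m) = x.1 0 0 * T (n + m) := by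
    rw [map_mul, hp, toLaurent_X_pow, mul_assoc, ← T_add]
  have e2 : toLaurent (q * X ^ n) = x.1 1 0 * T (n + m) := by
    rw [map_mul, hq, toLaurent_X_pow, mul_assoc, ← T_add, add_comm (m : ℤ)]
  rw [e1, e2] at h1 h2
  have hu : (T (n + m) * T (-(n + m)) : R) = 1 := TT _
  have h10 : (y * x).1 1 0 = 0 := by
    rw [mul10]
    have : (y.1 1 0 * x.1 0 0 + y.1 1 1 * x.1 1 0) * T (n + m) * T (-(n + m)) = 0 := by
      rw [← zero_mul (T (-(n + m)) : R), ← h2]; ring
    rw [mul_assoc, hu, mul_one] at this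
    exact this
  have h00 : (y * x).1 0 0 * T (n + m) = toLaurent g := by
    rw [mul00, ← h1]; ring
  have hdet := det4 (y * x)
  rw [h10, mul_zero, sub_zero] at hdet
  obtain ⟨l, r, hr⟩ := exists_T_pow ((y * x).1 1 1)
  have hgr : g * r = X ^ (n + m + l) := by
    apply toLaurent_injective
    rw [map_mul, ← h00, hr, toLaurent_X_pow]
    have : (T ((n + m + l : ℕ) : ℤ) : R) = T (n + m) * T l := by
      rw [← T_add]; push_cast; ring_nf
    rw [this]
    linear_combination (T (n + m) * T (l : ℤ)) * hdet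
  obtain ⟨i, -, hi⟩ := (dvd_prime_pow Polynomial.prime_X _).1 ⟨r, hgr.symm⟩
  have hg : g = X ^ i := by
    obtain ⟨u, hu⟩ := hi.symm
    rw [← hu, unit_eq u.isUnit, mul_one]
  have h00' : (y * x).1 0 0 = T (i - (n + m)) := by
    rw [hg, toLaurent_X_pow] at h00
    have : (y * x).1 0 0 * T (n + m) * T (-(n + m)) = T i * T (-(n + m)) := by rw [h00]
    rw [mul_assoc, hu, mul_one, ← T_add] at this
    rw [this]; congr 1
  refine ⟨y, hy, i - (n + m), h00', h10, ?_⟩
  have h3 : (y * x).1 0 0 * (y * x).1 1 1 * T (-(i - (n + m))) = T (-(i - (n + m))) := by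
    rw [hdet, one_mul]
  rw [h00'] at h3
  have h4 := TT (i - (n + m))
  linear_combination h3 - (y * x).1 1 1 * h4

theorem top_of {M : Subgroup (SL R)} (hE : ∀ f, E f ∈ M) (hF : ∀ f, Fm f ∈ M) : M = ⊤ := by
  have hEP : EP ≤ M := by
    unfold EP
    rw [Subgroup.closure_le]
    rintro x (⟨p, rfl⟩ | ⟨p, rfl⟩)
    · exact hE _
    · exact hF _
  have hD : ∀ n, D n ∈ M := by
    intro n
    rw [D_eq]
    exact M.mul_mem (M.mul_mem (M.mul_mem (hE _) (hF _)) (hE _)) (M.inv_mem (hEP w_mem_EP))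
  rw [eq_top_iff]
  intro x _
  obtain ⟨y, hy, i, h0, h1, h2⟩ := reduce x
  have hx : y * x = D i * E (T (-i) * (y * x).1 0 1) := by
    have := TT i
    apply ext4 <;> simp only [mul00 (D i), mul01 (D i), mul10 (D i), mul11 (D i), E00, E01, E10,
      E11, D00, D01, D10, D11, h0, h1, h2]
    · ring
    · linear_combination (-(y * x).1 0 1) * this
    · ring
    · ring
  have h3 : x = y⁻¹ * (D i * E (T (-i) * (y * x).1 0 1)) := by
    rw [← hx]; group
  rw [h3]
  exact M.mul_mem (M.inv_mem (hEP hy)) (M.mul_mem (hD _) (hE _))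

/-- The matrices with polynomial entries. -/
noncomputable def Y : Subgroup (SL R) :=
  (Matrix.SpecialLinearGroup.map (n := Fin 2) (toLaurent : (ZMod 2)[X] →+* R)).range

theorem mem_Y {x : SL R} : x ∈ Y ↔ ∀ i j, ∃ p : (ZMod 2)[X], toLaurent p = x.1 i j := by
  constructor
  · rintro ⟨y, rfl⟩ i j
    exact ⟨y.1 i j, rfl⟩
  · intro h
    choose p hp using h
    refine ⟨⟨Matrix.of p, ?_⟩, ?_⟩
    · rw [Matrix.det_fin_two]
      apply toLaurent_injective
      have := det4 x
      simp only [Matrix.of_apply, map_sub, map_mul, hp, map_one]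
      exact this
    · apply Subtype.ext
      funext i j
      exact hp i j

theorem EP_le_Y : EP ≤ Y := by
  unfold EP
  rw [Subgroup.closure_le]
  rintro x (⟨p, rfl⟩ | ⟨p, rfl⟩)
  · show _ ∈ Y
    rw [mem_Y]
    intro i j
    fin_cases i <;> fin_cases j
    · exact ⟨1, map_one _⟩
    · exact ⟨p, rfl⟩
    · exact ⟨0, map_zero _⟩
    · exact ⟨1, map_one _⟩
  · show _ ∈ Y
    rw [mem_Y]
    intro i j
    fin_cases i <;> fin_cases j
    · exact ⟨1, map_one _⟩
    · exact ⟨0, map_zero _⟩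
    · exact ⟨p, rfl⟩
    · exact ⟨1, map_one _⟩

theorem fg : ∃ S : Set (SL R), S.Finite ∧ Subgroup.closure S = ⊤ := by
  refine ⟨{E 1, E (T 1), Fm (-1), D 1}, by simp, ?_⟩
  set M := Subgroup.closure ({E 1, E (T 1), Fm (-1), D 1} : Set (SL R)) with hM
  have m1 : E 1 ∈ M := Subgroup.subset_closure (by simp)
  have m2 : E (T 1) ∈ M := Subgroup.subset_closure (by simp)
  have m3 : Fm (-1) ∈ M := Subgroup.subset_closure (by simp)
  have m4 : D 1 ∈ M := Subgroup.subset_closure (by simp)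
  have mw : (w : SL R) ∈ M := M.mul_mem (M.mul_mem m1 m3) m1
  have up : ∀ f : R, E f ∈ M → E (T 2 * f) ∈ M := by
    intro f hf
    have h := conj_E (u := D 1) (i := 1) rfl rfl rfl f
    have h2 : (2 * 1 : ℤ) = 2 := by norm_num
    rw [h2] at h
    rw [← h]
    exact M.mul_mem (M.mul_mem m4 hf) (M.inv_mem m4)
  have down : ∀ f : R, E f ∈ M → E (T (-2) * f) ∈ M := by
    intro f hf
    have h := conj_E (u := D 1) (i := 1) rfl rfl rfl (T (-2) * f)
    have h2 : (2 * 1 : ℤ) = 2 := by norm_num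
    rw [h2, ← mul_assoc, TT, one_mul] at h
    have h3 : E (T (-2) * f) = (D 1)⁻¹ * E f * D 1 := by rw [← h]; group
    rw [h3]
    exact M.mul_mem (M.mul_mem (M.inv_mem m4) hf) m4
  have step : ∀ n : ℤ, E (T n : R) ∈ M ∧ E (T (n + 1) : R) ∈ M := by
    intro n
    induction n using Int.induction_on with
    | zero =>
      refine ⟨?_, ?_⟩
      · rw [T_zero]; exact m1
      · simpa using m2
    | succ n ih =>
      refine ⟨ih.2, ?_⟩
      have := up _ ih.1
      rw [← T_add] at this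
      convert this using 3
      ring
    | pred n ih =>
      refine ⟨?_, ?_⟩
      · have := down _ ih.2
        rw [← T_add] at this
        convert this using 3
        ring
      · convert ih.1 using 3
        ring
  have hE : ∀ f : R, E f ∈ M := by
    intro f
    induction f using LaurentPolynomial.induction_on' with
    | add p q hp hq => rw [E_add]; exact M.mul_mem hp hq
    | C_mul_T n a =>
      have ha : a = 0 ∨ a = 1 := by revert a; decide
      rcases ha with rfl | rfl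
      · rw [map_zero, zero_mul, E_zero]; exact M.one_mem
      · rw [map_one, one_mul]; exact (step n).1
  refine top_of hE (fun f => ?_)
  have := w_conj (-f)
  rw [neg_neg] at this
  rw [← this]
  exact M.mul_mem (M.mul_mem mw (hE _)) (M.inv_mem mw)

theorem k_notin : E (T (-1)) ∉ Y := by
  intro h
  obtain ⟨p, hp⟩ := mem_Y.1 h 0 1
  rw [E01] at hp
  have h2 : p * X = 1 := by
    apply toLaurent_injective
    rw [map_mul, hp, toLaurent_X, ← T_add, map_one]
    simp
  have h3 := congrArg (Polynomial.eval 0) h2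
  simp at h3

theorem k_sq : (E (T (-1)) : SL R) * E (T (-1)) = 1 := by
  rw [← E_add, ← two_mul, two_eq, zero_mul, E_zero]

theorem coatom : IsCoatom Y := by
  refine ⟨fun h => k_notin (h ▸ Subgroup.mem_top _), ?_⟩
  intro M hM
  obtain ⟨hle, x, hxM, hxY⟩ := SetLike.lt_iff_le_and_exists.1 hM
  have hEPM : EP ≤ M := EP_le_Y.trans hle
  -- an element with a pole in the first column
  have key : ∀ x ∈ M, (∃ i, ¬ ∃ p : (ZMod 2)[X], toLaurent p = x.1 i 0) → M = ⊤ := by
    rintro x hx ⟨c, hc⟩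
    obtain ⟨y, hy, i, h0, h1, h2⟩ := reduce x
    have hi : i < 0 := by
      by_contra hcon
      push Not at hcon
      apply hc
      obtain ⟨n, rfl⟩ := Int.eq_ofNat_of_zero_le hcon
      have hy' : y⁻¹ ∈ Y := Y.inv_mem (EP_le_Y hy)
      have hx' : x = y⁻¹ * (y * x) := by group
      obtain ⟨p, hp⟩ := mem_Y.1 hy' c 0
      refine ⟨p * X ^ n, ?_⟩
      rw [map_mul, toLaurent_X_pow, hp]
      have h3 : x.1 c 0 = (y⁻¹).1 c 0 * (y * x).1 0 0 + (y⁻¹).1 c 1 * (y * x).1 1 0 := by
        conv_lhs => rw [hx']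
        show ((y⁻¹).1 * (y * x).1) c 0 = _
        rw [Matrix.mul_apply, Fin.sum_univ_two]
      rw [h3, h0, h1, mul_zero, add_zero]
    have hu : y * x ∈ M := M.mul_mem (hEPM hy) hx
    have hE1 : ∀ (m : ℕ) (p : (ZMod 2)[X]), E (T (2 * i * m) * toLaurent p) ∈ M := by
      intro m p
      induction m with
      | zero =>
        rw [Nat.cast_zero, mul_zero, T_zero, one_mul]
        exact hEPM (E_mem_EP p)
      | succ m ih =>
        have h := conj_E h0 h1 h2 (T (2 * i * m) * toLaurent p)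
        rw [← mul_assoc, ← T_add] at h
        have h3 : (2 * i * ((m + 1 : ℕ) : ℤ)) = 2 * i + 2 * i * m := by push_cast; ring
        rw [h3, ← h]
        exact M.mul_mem (M.mul_mem hu ih) (M.inv_mem hu)
    have hE : ∀ f : R, E f ∈ M := by
      intro f
      obtain ⟨n, p, hp⟩ := exists_T_pow f
      have hnn : (0 : ℤ) ≤ -n - 2 * i * n := by nlinarith
      obtain ⟨l, hl⟩ := Int.eq_ofNat_of_zero_le hnn
      have := hE1 n (p * X ^ l)
      rw [map_mul, hp, toLaurent_X_pow] at this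
      have h3 : T (2 * i * n) * (f * T n * T l) = f := by
        have : (T (2 * i * n) * T n * T l : R) = 1 := by
          rw [← T_add, ← T_add]
          have : 2 * i * (n : ℤ) + n + l = 0 := by
            have : (l : ℤ) = -n - 2 * i * n := hl.symm
            rw [this]; ring
          rw [this, T_zero]
        linear_combination f * this
      rwa [h3] at this
    refine top_of hE (fun f => ?_)
    have := w_conj (-f)
    rw [neg_neg] at this
    rw [← this]
    exact M.mul_mem (M.mul_mem (hEPM w_mem_EP) (hE _)) (M.inv_mem (hEPM w_mem_EP))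
  rw [mem_Y] at hxY
  push Not at hxY
  obtain ⟨i, j, hij⟩ := hxY
  by_cases hj : j = 0
  · subst hj
    refine key x hxM ⟨i, ?_⟩
    rintro ⟨p, hp⟩
    exact hij p hp
  · have hj1 : j = 1 := by omega
    subst hj1
    refine key (x * w) (M.mul_mem hxM (hEPM w_mem_EP)) ⟨i, ?_⟩
    rintro ⟨p, hp⟩
    have h3 : (x * w).1 i 0 = x.1 i 0 * (w : SL R).1 0 0 + x.1 i 1 * (w : SL R).1 1 0 := by
      show (x.1 * (w : SL R).1) i 0 = _
      rw [Matrix.mul_apply, Fin.sum_univ_two]
    rw [h3, w00, w10, mul_zero, zero_add] at hp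
    refine hij (-p) ?_
    rw [map_neg, hp]; ring

theorem zero_of_all {f : R} (h : ∀ m : ℕ, ∃ p : (ZMod 2)[X], toLaurent p = f * T (-(2 * m))) :
    f = 0 := by
  obtain ⟨p, hp⟩ := h 0
  have hp' : toLaurent p = f := by rw [hp]; simp
  by_contra hf
  have hp0 : p ≠ 0 := by rintro rfl; exact hf (by rw [← hp', map_zero])
  obtain ⟨q, hq⟩ := h (p.natDegree + 1)
  have hpq : p = q * X ^ (2 * (p.natDegree + 1)) := by
    apply toLaurent_injective
    rw [map_mul, hq, hp', toLaurent_X_pow, mul_assoc, ← T_add]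
    push_cast
    simp
  have hq0 : q ≠ 0 := by rintro rfl; exact hp0 (by rw [hpq, zero_mul])
  have h2 := congrArg Polynomial.natDegree hpq
  rw [Polynomial.natDegree_mul_X_pow _ hq0] at h2
  omega

theorem core : Y.normalCore = ⊥ := by
  rw [eq_bot_iff]
  intro x hx
  have hx' : ∀ g : SL R, g * x * g⁻¹ ∈ Y := hx
  have hD : ∀ n : ℤ, (D n)⁻¹ = D (-n) := by
    intro n
    rw [inv_eq_iff_mul_eq_one]
    have := TT n
    apply ext4 <;> simp only [mul00, mul01, mul10, mul11, D00, D01, D10, D11, neg_neg, one00,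
      one01, one10, one11]
    · linear_combination this
    · ring
    · ring
    · linear_combination this
  have h01 : x.1 0 1 = 0 := by
    apply zero_of_all
    intro m
    obtain ⟨p, hp⟩ := mem_Y.1 (hx' (D (-m))) 0 1
    refine ⟨p, hp.trans ?_⟩
    rw [hD]
    simp only [mul00, mul01, mul10, mul11, D00, D01, D10, D11, neg_neg]
    have : (T (-(2 * m : ℤ)) : R) = T (-m) * T (-m) := by
      rw [← T_add]; congr 1; ring
    rw [this]; ring
  have h10 : x.1 1 0 = 0 := by
    apply zero_of_all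
    intro m
    obtain ⟨p, hp⟩ := mem_Y.1 (hx' (D m)) 1 0
    refine ⟨p, hp.trans ?_⟩
    rw [hD]
    simp only [mul00, mul01, mul10, mul11, D00, D01, D10, D11, neg_neg]
    have : (T (-(2 * m : ℤ)) : R) = T (-m) * T (-m) := by
      rw [← T_add]; congr 1; ring
    rw [this]; ring
  have hdet := det4 x
  rw [h01, zero_mul, sub_zero] at hdet
  have hxY : x ∈ Y := by simpa using hx' 1
  obtain ⟨p, hp⟩ := mem_Y.1 hxY 0 0
  obtain ⟨q, hq⟩ := mem_Y.1 hxY 1 1
  have hpq : p * q = 1 := by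
    apply toLaurent_injective
    rw [map_mul, hp, hq, hdet, map_one]
  have hp1 : p = 1 := unit_eq (IsUnit.of_mul_eq_one _ hpq)
  have hq1 : q = 1 := unit_eq (IsUnit.of_mul_eq_one _ (by rw [mul_comm]; exact hpq))
  rw [Subgroup.mem_bot]
  apply ext4
  · rw [← hp, hp1, map_one]; rfl
  · rw [h01]; rfl
  · rw [h10]; rfl
  · rw [← hq, hq1, map_one]; rfl

/-- Congruence subgroups. -/
noncomputable def Cg (f : R) : Subgroup (SL R) :=
  (Matrix.SpecialLinearGroup.map (n := Fin 2) (Ideal.Quotient.mk (Ideal.span {f}))).ker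

theorem mem_Cg {f : R} {x : SL R} : x ∈ Cg f ↔ ∀ i j, f ∣ x.1 i j - (1 : SL R).1 i j := by
  unfold Cg
  rw [MonoidHom.mem_ker]
  constructor
  · intro h i j
    have h2 : (Ideal.Quotient.mk (Ideal.span {f})) (x.1 i j) =
        (Ideal.Quotient.mk (Ideal.span {f})) ((1 : SL R).1 i j) := by
      have h3 := congrArg (fun z : Matrix.SpecialLinearGroup (Fin 2) (R ⧸ Ideal.span {f}) =>
        z.1 i j) h
      have h4 := congrArg (fun z : Matrix.SpecialLinearGroup (Fin 2) (R ⧸ Ideal.span {f}) =>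
        z.1 i j) (map_one (Matrix.SpecialLinearGroup.map (n := Fin 2)
          (Ideal.Quotient.mk (Ideal.span {f}))))
      exact h3.trans h4.symm
    rw [Ideal.Quotient.eq, Ideal.mem_span_singleton] at h2
    exact h2
  · intro h
    rw [← map_one (Matrix.SpecialLinearGroup.map (n := Fin 2)
          (Ideal.Quotient.mk (Ideal.span {f})))]
    apply Subtype.ext
    ext i j
    show (Ideal.Quotient.mk (Ideal.span {f})) (x.1 i j) =
        (Ideal.Quotient.mk (Ideal.span {f})) ((1 : SL R).1 i j)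
    rw [Ideal.Quotient.eq, Ideal.mem_span_singleton]
    exact h i j

theorem E_mem_Cg (f : R) : E f ∈ Cg f := by
  rw [mem_Cg]
  intro i j
  fin_cases i <;> fin_cases j
  · show f ∣ 1 - 1
    simp
  · show f ∣ f - 0
    simp
  · show f ∣ 0 - 0
    simp
  · show f ∣ 1 - 1
    simp

theorem F_mem_Cg (f : R) : Fm f ∈ Cg f := by
  rw [mem_Cg]
  intro i j
  fin_cases i <;> fin_cases j
  · show f ∣ 1 - 1
    simp
  · show f ∣ 0 - 0
    simp
  · show f ∣ f - 0
    simp
  · show f ∣ 1 - 1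
    simp

theorem eq_one_of_commute {f : R} (hf : f ≠ 0) {x : SL R} (h1 : x * E f = E f * x)
    (h2 : x * Fm f = Fm f * x) : x = 1 := by
  have a1 := congrArg (fun z : SL R => z.1 0 0) h1
  have a2 := congrArg (fun z : SL R => z.1 0 1) h1
  have b1 := congrArg (fun z : SL R => z.1 0 0) h2
  simp only [mul00, mul01, E00, E01, E10, E11, F00, F01, F10, F11] at a1 a2 b1
  have c1 : x.1 1 0 = 0 := by
    have : f * x.1 1 0 = 0 := by linear_combination -a1
    exact (mul_eq_zero.1 this).resolve_left hf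
  have c2 : x.1 0 1 = 0 := by
    have : f * x.1 0 1 = 0 := by linear_combination b1
    exact (mul_eq_zero.1 this).resolve_left hf
  have c3 : x.1 0 0 = x.1 1 1 := by
    have : f * (x.1 0 0 - x.1 1 1) = 0 := by linear_combination a2
    exact sub_eq_zero.1 ((mul_eq_zero.1 this).resolve_left hf)
  have hdet := det4 x
  rw [c1, mul_zero, sub_zero, c3] at hdet
  have c4 : x.1 1 1 = 1 := by
    have : (x.1 1 1 - 1) * (x.1 1 1 - 1) = 0 := by
      have := two_eq
      linear_combination hdet + (1 - x.1 1 1) * this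
    exact sub_eq_zero.1 (mul_self_eq_zero.1 this)
  apply ext4
  · rw [c3, c4]; rfl
  · rw [c2]; rfl
  · rw [c1]; rfl
  · rw [c4]; rfl

theorem exists_not_dvd {g : R} (hg : g ≠ 0) : ∃ f : R, f ≠ 0 ∧ ¬ f ∣ g := by
  have hev : (LaurentPolynomial.eval₂ (RingHom.id (ZMod 2)) 1) ((1 : R) + T 1) = 0 := by
    rw [map_add, map_one, eval₂_T]
    simp
    decide
  have hne : (1 : R) + T 1 ≠ 0 := by
    intro h
    have h2 : (1 + X : (ZMod 2)[X]) = 0 := by
      apply toLaurent_injective
      rw [map_add, map_one, toLaurent_X, h, map_zero]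
    have h3 := congrArg (Polynomial.eval 0) h2
    simp at h3
  refine ⟨g * (1 + T 1), mul_ne_zero hg hne, ?_⟩
  rintro ⟨c, hc⟩
  have h1 : (1 + T 1 : R) * c = 1 := by
    have : g * ((1 + T 1) * c - 1) = 0 := by linear_combination -hc
    exact sub_eq_zero.1 ((mul_eq_zero.1 this).resolve_left hg)
  have h2 := congrArg (LaurentPolynomial.eval₂ (RingHom.id (ZMod 2)) 1) h1
  rw [map_mul, hev, zero_mul, map_one] at h2
  exact absurd h2 (by decide)

theorem nomin (N : Subgroup (SL R)) (hN : N.Normal) (hne : N ≠ ⊥) :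
    ∃ Q : Subgroup (SL R), Q.Normal ∧ Q ≠ ⊥ ∧ Q < N := by
  obtain ⟨⟨x, hxN⟩, hx⟩ := Subgroup.ne_bot_iff_exists_ne_one.1 hne
  have hx1 : x ≠ 1 := fun h => hx (Subtype.ext h)
  have hent : ∃ i j, x.1 i j - (1 : SL R).1 i j ≠ 0 := by
    by_contra hcon
    push Not at hcon
    apply hx1
    apply Subtype.ext
    funext i j
    exact sub_eq_zero.1 (hcon i j)
  obtain ⟨i, j, hij⟩ := hent
  obtain ⟨f, hf0, hf⟩ := exists_not_dvd hij
  have hCn : (Cg f).Normal := by unfold Cg; infer_instance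
  refine ⟨N ⊓ Cg f, inferInstance, ?_, ?_⟩
  · intro hbot
    apply hx1
    have hc : ∀ z ∈ Cg f, x * z = z * x := by
      intro z hz
      have h1 : x * z * x⁻¹ * z⁻¹ ∈ N := by
        have : x * z * x⁻¹ * z⁻¹ = x * (z * x⁻¹ * z⁻¹) := by group
        rw [this]
        exact N.mul_mem hxN (hN.conj_mem _ (N.inv_mem hxN) z)
      have h2 : x * z * x⁻¹ * z⁻¹ ∈ Cg f :=
        (Cg f).mul_mem (hCn.conj_mem _ hz x) ((Cg f).inv_mem hz)
      have h3 : x * z * x⁻¹ * z⁻¹ ∈ N ⊓ Cg f := ⟨h1, h2⟩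
      rw [hbot, Subgroup.mem_bot] at h3
      rw [mul_inv_eq_one, mul_inv_eq_iff_eq_mul] at h3
      exact h3
    exact eq_one_of_commute hf0 (hc _ (E_mem_Cg f)) (hc _ (F_mem_Cg f))
  · refine lt_of_le_of_ne inf_le_left ?_
    intro heq
    have : x ∈ N ⊓ Cg f := by rw [heq]; exact hxN
    exact hf (mem_Cg.1 this.2 i j)

theorem exists_good : ∃ (W : Type) (_ : Group W) (Y : Subgroup W) (k : W), GoodW W Y k :=
  ⟨SL R, inferInstance, Y, E (T (-1)), ⟨fg, coatom, core, k_sq, k_notin, nomin⟩⟩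

end Pool.Agent.R508.SLLaurent
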