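import Mathlib

/-! A Chernoff bound for the sum over a random subset of prescribed size. -/

namespace Pool.Agent.R508.Tail

open Finset

theorem mode_term (k m : ℕ) (hm : m ≤ k) (i : ℕ) (hi : i ≤ k) :
    k.choose i * m ^ i * (k - m) ^ (k - i) ≤ k.choose m * m ^ m * (k - m) ^ (k - m) := by
  -- one step
  have step : ∀ i, i + 1 ≤ k →
      (i + 1) * (k.choose (i + 1) * m ^ (i + 1) * (k - m) ^ (k - (i + 1))) =
        ((k - i) * m) * (k.choose i * m ^ i * (k - m) ^ (k - (i + 1))) := by
    intro i _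
    have h := Nat.choose_succ_right_eq k i
    calc (i + 1) * (k.choose (i + 1) * m ^ (i + 1) * (k - m) ^ (k - (i + 1)))
        = (k.choose (i + 1) * (i + 1)) * m ^ (i + 1) * (k - m) ^ (k - (i + 1)) := by ring
      _ = (k.choose i * (k - i)) * m ^ (i + 1) * (k - m) ^ (k - (i + 1)) := by rw [h]
      _ = _ := by ring
  have step' : ∀ i, i + 1 ≤ k →
      (i + 1) * (k.choose i * m ^ i * (k - m) ^ (k - i)) =
        ((i + 1) * (k - m)) * (k.choose i * m ^ i * (k - m) ^ (k - (i + 1))) := by
    intro i hi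
    have : k - i = (k - (i + 1)) + 1 := by omega
    rw [this, pow_succ]; ring
  have up : ∀ i, i + 1 ≤ m → k.choose i * m ^ i * (k - m) ^ (k - i) ≤
      k.choose (i + 1) * m ^ (i + 1) * (k - m) ^ (k - (i + 1)) := by
    intro i hi
    have h1 : (i + 1) * (k - m) ≤ (k - i) * m := by
      calc (i + 1) * (k - m) ≤ m * (k - i) := Nat.mul_le_mul hi (by omega)
        _ = _ := by ring
    have h2 := Nat.mul_le_mul_right (k.choose i * m ^ i * (k - m) ^ (k - (i + 1))) h1
    rw [← step' i (by omega), ← step i (by omega)] at h2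
    exact Nat.le_of_mul_le_mul_left h2 (by omega)
  have down : ∀ i, m ≤ i → i + 1 ≤ k →
      k.choose (i + 1) * m ^ (i + 1) * (k - m) ^ (k - (i + 1)) ≤
        k.choose i * m ^ i * (k - m) ^ (k - i) := by
    intro i hi hk
    have h1 : (k - i) * m ≤ (i + 1) * (k - m) := by
      calc (k - i) * m ≤ (k - m) * (i + 1) := Nat.mul_le_mul (by omega) (by omega)
        _ = _ := by ring
    have h2 := Nat.mul_le_mul_right (k.choose i * m ^ i * (k - m) ^ (k - (i + 1))) h1
    rw [← step' i (by omega), ← step i (by omega)] at h2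
    exact Nat.le_of_mul_le_mul_left h2 (by omega)
  rcases le_total i m with h | h
  · -- decreasing induction from m
    have : ∀ d, ∀ j, j + d = m → k.choose j * m ^ j * (k - m) ^ (k - j) ≤
        k.choose m * m ^ m * (k - m) ^ (k - m) := by
      intro d
      induction d with
      | zero => intro j hj; rw [show j = m by omega]
      | succ d ih =>
        intro j hj
        exact (up j (by omega)).trans (ih (j + 1) (by omega))
    exact this (m - i) i (by omega)
  · induction i, h using Nat.le_induction with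
    | base => exact le_rfl
    | succ i hmi ih => exact (down i hmi hi).trans (ih (by omega))

theorem mode (k m : ℕ) (hm : m ≤ k) :
    k ^ k ≤ (k + 1) * (k.choose m * m ^ m * (k - m) ^ (k - m)) := by
  have h := add_pow m (k - m) k
  rw [show m + (k - m) = k by omega] at h
  rw [h]
  calc ∑ i ∈ Finset.range (k + 1), m ^ i * (k - m) ^ (k - i) * k.choose i
      ≤ ∑ i ∈ Finset.range (k + 1), k.choose m * m ^ m * (k - m) ^ (k - m) := by
        apply Finset.sum_le_sum
        intro i hi
        rw [Finset.mem_range] at hi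
        calc _ = k.choose i * m ^ i * (k - m) ^ (k - i) := by ring
          _ ≤ _ := mode_term k m hm i (by omega)
    _ = _ := by rw [Finset.sum_const, Finset.card_range, smul_eq_mul]

theorem esymm_le {k m : ℕ} (hm : 0 < m) (hmk : m < k) (x : Fin k → ℝ) (hx : ∀ t, 0 < x t) :
    ∑ T ∈ (Finset.univ : Finset (Fin k)).powersetCard m, ∏ t ∈ T, x t ≤
      (k + 1) * (k.choose m) * Real.exp ((m : ℝ) / k * ∑ t, (x t - 1)) := by
  have hk0 : (0 : ℝ) < k := by exact_mod_cast (by omega : 0 < k)
  have hm0 : (0 : ℝ) < m := by exact_mod_cast hm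
  obtain ⟨q, hq⟩ : ∃ q : ℕ, q = k - m := ⟨_, rfl⟩
  have hq0 : (0 : ℝ) < q := by exact_mod_cast (by omega : 0 < q)
  have hqk : (q : ℝ) + m = k := by exact_mod_cast (by omega : q + m = k)
  set z : ℝ := m / q with hz
  have hz0 : 0 < z := by positivity
  have h1 : z ^ m * ∑ T ∈ (Finset.univ : Finset (Fin k)).powersetCard m, ∏ t ∈ T, x t ≤
      ∏ t : Fin k, (1 + z * x t) := by
    rw [Finset.prod_one_add, Finset.mul_sum]
    calc ∑ T ∈ (Finset.univ : Finset (Fin k)).powersetCard m, z ^ m * ∏ t ∈ T, x t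
        = ∑ T ∈ (Finset.univ : Finset (Fin k)).powersetCard m, ∏ t ∈ T, (z * x t) := by
          apply Finset.sum_congr rfl
          intro T hT
          rw [Finset.mem_powersetCard] at hT
          rw [Finset.prod_mul_distrib, Finset.prod_const, hT.2]
      _ ≤ ∑ T ∈ (Finset.univ : Finset (Fin k)).powerset, ∏ t ∈ T, (z * x t) := by
          apply Finset.sum_le_sum_of_subset_of_nonneg
          · intro T hT
            rw [Finset.mem_powersetCard] at hT
            exact Finset.mem_powerset.2 hT.1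
          · intro T _ _
            apply Finset.prod_nonneg
            intro t _
            have := hx t
            positivity
  have h2 : ∏ t : Fin k, (1 + z * x t) ≤
      ((k : ℝ) / q) ^ k * Real.exp ((m : ℝ) / k * ∑ t, (x t - 1)) := by
    calc ∏ t : Fin k, (1 + z * x t) ≤ ∏ t : Fin k, ((k : ℝ) / q * Real.exp ((m : ℝ) / k * (x t - 1))) := by
          apply Finset.prod_le_prod
          · intro t _
            have := hx t
            positivity
          · intro t _
            have h3 : 1 + z * x t = (k : ℝ) / q * ((m : ℝ) / k * (x t - 1) + 1) := by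
              rw [hz]
              field_simp
              rw [← hqk]; ring
            rw [h3]
            exact mul_le_mul_of_nonneg_left (Real.add_one_le_exp _) (by positivity)
      _ = _ := by
          rw [Finset.prod_mul_distrib, Finset.prod_const, Finset.card_univ, Fintype.card_fin,
            ← Real.exp_sum, Finset.mul_sum]
  have h3 : ((k : ℝ) / q) ^ k ≤ z ^ m * ((k + 1) * (k.choose m)) := by
    have h4 := mode k m hmk.le
    rw [← hq] at h4
    have h5 : (k : ℝ) ^ k ≤ (k + 1) * (k.choose m * m ^ m * q ^ q) := by exact_mod_cast h4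
    rw [div_pow, div_le_iff₀ (by positivity)]
    have h6 : z ^ m * ((k + 1) * (k.choose m : ℝ)) * (q : ℝ) ^ k =
        (k + 1) * (k.choose m * m ^ m * q ^ q) := by
      have : (q : ℝ) ^ k = q ^ m * q ^ q := by
        rw [← pow_add]; congr 1; omega
      rw [this, hz, div_pow]
      field_simp
    rw [h6]; exact h5
  have h4 : z ^ m * ∑ T ∈ (Finset.univ : Finset (Fin k)).powersetCard m, ∏ t ∈ T, x t ≤
      z ^ m * ((k + 1) * (k.choose m) * Real.exp ((m : ℝ) / k * ∑ t, (x t - 1))) := by
    calc _ ≤ _ := h1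
      _ ≤ _ := h2
      _ ≤ z ^ m * ((k + 1) * (k.choose m)) * Real.exp ((m : ℝ) / k * ∑ t, (x t - 1)) :=
          mul_le_mul_of_nonneg_right h3 (Real.exp_pos _).le
      _ = _ := by ring
  exact le_of_mul_le_mul_left h4 (by positivity)

/-- Chernoff bound for subsets -/
theorem chernoff {k m : ℕ} (hm : 0 < m) (hmk : m < k) (u : Fin k → ℝ)
    (hu : ∀ t, |u t| ≤ (k : ℝ) / 2) (hsum : ∑ t, u t = 0) {l : ℝ} (hl0 : 0 ≤ l) (hl : l ≤ k) :
    ((((Finset.univ : Finset (Fin k)).powersetCard m).filter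
      (fun T => ∑ t ∈ T, u t ≤ - (m * l))).card : ℝ) ≤
      (k + 1) * (k.choose m) * Real.exp (- (m * l ^ 2 / (k : ℝ) ^ 2)) := by
  have hk0 : (0 : ℝ) < k := by exact_mod_cast (by omega : 0 < k)
  set θ : ℝ := 2 * l / (k : ℝ) ^ 2 with hθ
  have hθ0 : 0 ≤ θ := by positivity
  have hθu : ∀ t, |-(θ * u t)| ≤ 1 := by
    intro t
    rw [abs_neg, abs_mul, abs_of_nonneg hθ0]
    calc θ * |u t| ≤ θ * (k / 2) := mul_le_mul_of_nonneg_left (hu t) hθ0
      _ = l / k := by rw [hθ]; field_simp
      _ ≤ 1 := by rw [div_le_one hk0]; exact hl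
  have h1 := esymm_le hm hmk (fun t => Real.exp (-(θ * u t))) (fun t => Real.exp_pos _)
  have h2 : ∑ t, (Real.exp (-(θ * u t)) - 1) ≤ θ ^ 2 * (k * (k / 2) ^ 2) := by
    have h3 : ∀ t, Real.exp (-(θ * u t)) - 1 ≤ -(θ * u t) + θ ^ 2 * (k / 2) ^ 2 := by
      intro t
      have h4 := Real.abs_exp_sub_one_sub_id_le (hθu t)
      have h5 := (abs_le.1 h4).2
      have h6 : (-(θ * u t)) ^ 2 ≤ θ ^ 2 * (k / 2) ^ 2 := by
        have h7 : (u t) ^ 2 ≤ ((k : ℝ) / 2) ^ 2 := by
          rw [← sq_abs]
          exact pow_le_pow_left₀ (abs_nonneg _) (hu t) 2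
        calc (-(θ * u t)) ^ 2 = θ ^ 2 * (u t) ^ 2 := by ring
          _ ≤ _ := mul_le_mul_of_nonneg_left h7 (by positivity)
      linarith
    calc ∑ t, (Real.exp (-(θ * u t)) - 1) ≤ ∑ t, (-(θ * u t) + θ ^ 2 * (k / 2) ^ 2) :=
          Finset.sum_le_sum fun t _ => h3 t
      _ = -(θ * ∑ t, u t) + k * (θ ^ 2 * (k / 2) ^ 2) := by
          rw [Finset.sum_add_distrib, Finset.sum_neg_distrib, ← Finset.mul_sum, Finset.sum_const,
            Finset.card_univ, Fintype.card_fin, nsmul_eq_mul]
      _ = _ := by rw [hsum]; ring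
  have h3 : (m : ℝ) / k * ∑ t, (Real.exp (-(θ * u t)) - 1) ≤ m * l ^ 2 / (k : ℝ) ^ 2 := by
    calc _ ≤ (m : ℝ) / k * (θ ^ 2 * (k * (k / 2) ^ 2)) :=
          mul_le_mul_of_nonneg_left h2 (by positivity)
      _ = _ := by rw [hθ]; field_simp
  -- Markov
  set S := (Finset.univ : Finset (Fin k)).powersetCard m with hS
  have h4 : (((S.filter (fun T => ∑ t ∈ T, u t ≤ - (m * l))).card : ℝ)) ≤
      ∑ T ∈ S, Real.exp (-(θ * (m * l))) * ∏ t ∈ T, Real.exp (-(θ * u t)) := by
    rw [Finset.card_eq_sum_ones, Nat.cast_sum, Finset.sum_filter]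
    apply Finset.sum_le_sum
    intro T _
    rw [← Real.exp_sum, ← Real.exp_add]
    split_ifs with h
    · rw [Nat.cast_one]
      apply Real.one_le_exp
      rw [Finset.sum_neg_distrib, ← Finset.mul_sum]
      nlinarith
    · exact (Real.exp_pos _).le
  rw [← Finset.mul_sum] at h4
  calc _ ≤ _ := h4
    _ ≤ Real.exp (-(θ * (m * l))) * ((k + 1) * (k.choose m) *
        Real.exp ((m : ℝ) / k * ∑ t, (Real.exp (-(θ * u t)) - 1))) :=
        mul_le_mul_of_nonneg_left h1 (Real.exp_pos _).le
    _ ≤ Real.exp (-(θ * (m * l))) * ((k + 1) * (k.choose m) * Real.exp (m * l ^ 2 / (k : ℝ) ^ 2)) := by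
        apply mul_le_mul_of_nonneg_left _ (Real.exp_pos _).le
        apply mul_le_mul_of_nonneg_left _ (by positivity)
        exact Real.exp_le_exp.2 h3
    _ = (k + 1) * (k.choose m) * Real.exp (- (m * l ^ 2 / (k : ℝ) ^ 2)) := by
        have : -(m * l ^ 2 / (k : ℝ) ^ 2) = -(θ * (m * l)) + m * l ^ 2 / (k : ℝ) ^ 2 := by
          rw [hθ]; field_simp; ring
        rw [this, Real.exp_add]; ring

end Pool.Agent.R508.Tail
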